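import Pool.Agent.Work.MP_202a65_gt.Bd.B01

/-! Bundle of small proof modules (one section per former module). -/

section

/-!
MP_202a65_gt, item Grid: elementary facts about the grid.
-/

open Set Topology unitInterval

namespace M202

namespace Grid89

theorem self_mem (L N : ℕ) (x : Cube N) : x ∈ faceOf L x :=
  fun _ => ⟨Int.floor_le _, Int.le_ceil _⟩

theorem isClosed_face (L N : ℕ) (x : Cube N) : IsClosed (faceOf L x) := by
  have h : faceOf L x = ⋂ i, {y : Cube N | (⌊(L : ℝ) * (x i : ℝ)⌋ : ℝ) ≤ (L : ℝ) * (y i : ℝ) ∧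
    (L : ℝ) * (y i : ℝ) ≤ (⌈(L : ℝ) * (x i : ℝ)⌉ : ℝ)} := by
    ext y
    simp only [faceOf, mem_iInter]
    exact Iff.rfl
  rw [h]
  refine isClosed_iInter fun i => ?_
  have hc : Continuous fun y : Cube N => (L : ℝ) * (y i : ℝ) := by fun_prop
  exact (isClosed_le continuous_const hc).inter (isClosed_le hc continuous_const)

theorem floor_le_of {L N : ℕ} {x y : Cube N} (h : y ∈ faceOf L x) (i : Fin N) :
    ⌊(L : ℝ) * (x i : ℝ)⌋ ≤ ⌊(L : ℝ) * (y i : ℝ)⌋ ∧
      ⌈(L : ℝ) * (y i : ℝ)⌉ ≤ ⌈(L : ℝ) * (x i : ℝ)⌉ :=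
  ⟨Int.le_floor.2 (h i).1, Int.ceil_le.2 (h i).2⟩

theorem face_sub {L N : ℕ} {x y : Cube N} (h : y ∈ faceOf L x) : faceOf L y ⊆ faceOf L x := by
  intro z hz i
  obtain ⟨h1, h2⟩ := floor_le_of h i
  have h1' : (⌊(L : ℝ) * (x i : ℝ)⌋ : ℝ) ≤ ⌊(L : ℝ) * (y i : ℝ)⌋ := by exact_mod_cast h1
  have h2' : (⌈(L : ℝ) * (y i : ℝ)⌉ : ℝ) ≤ ⌈(L : ℝ) * (x i : ℝ)⌉ := by exact_mod_cast h2
  exact ⟨h1'.trans (hz i).1, (hz i).2.trans h2'⟩

theorem face_dist {L N : ℕ} (hL : 1 ≤ L) {x y z : Cube N} (hy : y ∈ faceOf L x)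
    (hz : z ∈ faceOf L x) : dist y z ≤ 1 / L := by
  have hL0 : (0 : ℝ) < L := by exact_mod_cast hL
  refine (dist_pi_le_iff (by positivity)).2 fun i => ?_
  rw [Subtype.dist_eq, Real.dist_eq, le_div_iff₀ hL0]
  have h1 := hy i
  have h2 := hz i
  have h3 : (⌈(L : ℝ) * (x i : ℝ)⌉ : ℝ) ≤ ⌊(L : ℝ) * (x i : ℝ)⌋ + 1 := by
    exact_mod_cast Int.ceil_le_floor_add_one _
  have h4 : |(y i : ℝ) - (z i : ℝ)| * L = |((y i : ℝ) - (z i : ℝ)) * L| := by
    rw [abs_mul, abs_of_pos hL0]
  rw [h4, abs_le]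
  constructor <;> nlinarith [h1.1, h1.2, h2.1, h2.2]

theorem grid_const {L N : ℕ} {x y : Cube N} (h : y ∈ faceOf L x) (i : Fin N)
    (hg : IsGrid L (x i)) : (L : ℝ) * (y i : ℝ) = (L : ℝ) * (x i : ℝ) := by
  obtain ⟨k, hk⟩ := hg
  have h1 := h i
  rw [hk, Int.floor_intCast, Int.ceil_intCast] at h1
  rw [hk]
  exact le_antisymm h1.2 h1.1

theorem grid_mono {L N : ℕ} {x y : Cube N} (h : y ∈ faceOf L x) (i : Fin N)
    (hg : IsGrid L (x i)) : IsGrid L (y i) := by
  obtain ⟨k, hk⟩ := id hg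
  exact ⟨k, by rw [grid_const h i hg, hk]⟩

theorem isGrid_zero (L : ℕ) : IsGrid L 0 := ⟨0, by simp⟩

theorem isGrid_one (L : ℕ) : IsGrid L 1 := ⟨L, by simp⟩

theorem isGrid_one_iff {s : unitInterval} (h : IsGrid 1 s) : s = 0 ∨ s = 1 := by
  obtain ⟨k, hk⟩ := h
  rw [Nat.cast_one, one_mul] at hk
  have h0 := s.2.1
  have h1 := s.2.2
  rw [hk] at h0 h1
  have h0' : (0 : ℤ) ≤ k := by exact_mod_cast h0
  have h1' : k ≤ 1 := by exact_mod_cast h1
  have h2 : k = 0 ∨ k = 1 := by omega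
  rcases h2 with rfl | rfl
  · left
    ext
    rw [hk]; simp
  · right
    ext
    rw [hk]; simp

theorem cubical_bd (L N : ℕ) (hL : 1 ≤ L) : Cubical L (bd N) := by
  have hL0 : (0 : ℝ) < L := by exact_mod_cast hL
  rintro x ⟨i, hi⟩ y hy
  refine ⟨i, ?_⟩
  have hg : IsGrid L (x i) := by
    rcases hi with hi | hi
    · rw [hi]; exact isGrid_zero L
    · rw [hi]; exact isGrid_one L
  have h1 := mul_left_cancel₀ hL0.ne' (grid_const hy i hg)
  have h2 : y i = x i := Subtype.ext h1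
  rw [h2]
  exact hi

theorem cubical_skel (L N l : ℕ) : Cubical L (skel L l : Set (Cube N)) := by
  intro x hx y hy
  refine le_trans (Set.ncard_le_ncard ?_ (Set.toFinite _)) hx
  intro i hi hg
  exact hi (grid_mono hy i hg)

theorem finite_faces (L N : ℕ) : {F : Set (Cube N) | ∃ x : Cube N, F = faceOf L x}.Finite := by
  have h1 : {F : Set (Cube N) | ∃ x : Cube N, F = faceOf L x} ⊆
      (fun ab : (Fin N → Finset.Icc (0 : ℤ) L) × (Fin N → Finset.Icc (0 : ℤ) L) =>
        {y : Cube N | ∀ i, ((ab.1 i : ℤ) : ℝ) ≤ (L : ℝ) * (y i : ℝ) ∧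
          (L : ℝ) * (y i : ℝ) ≤ ((ab.2 i : ℤ) : ℝ)}) '' univ := by
    rintro F ⟨x, rfl⟩
    have hb : ∀ i, 0 ≤ (L : ℝ) * (x i : ℝ) ∧ (L : ℝ) * (x i : ℝ) ≤ L := by
      intro i
      have h0 := (x i).2.1
      have h1 := (x i).2.2
      have hL : (0 : ℝ) ≤ L := Nat.cast_nonneg _
      constructor
      · positivity
      · nlinarith
    refine ⟨(fun i => ⟨⌊(L : ℝ) * (x i : ℝ)⌋, Finset.mem_Icc.2 ⟨Int.floor_nonneg.2 (hb i).1, ?_⟩⟩,
      fun i => ⟨⌈(L : ℝ) * (x i : ℝ)⌉, Finset.mem_Icc.2 ⟨Int.ceil_nonneg (hb i).1, ?_⟩⟩),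
      mem_univ _, rfl⟩
    · have h2 : (⌊(L : ℝ) * (x i : ℝ)⌋ : ℝ) ≤ L := (Int.floor_le _).trans (hb i).2
      exact_mod_cast h2
    · exact Int.ceil_le.2 (by exact_mod_cast (hb i).2)
  exact (Set.toFinite _).subset h1

theorem cubical_closed (L N : ℕ) (V : Set (Cube N)) (hV : Cubical L V) : IsClosed V := by
  have h1 : V = ⋃ F ∈ {F : Set (Cube N) | ∃ x ∈ V, F = faceOf L x}, F := by
    ext y
    constructor
    · intro hy
      exact mem_biUnion (show faceOf L y ∈ {F : Set (Cube N) | ∃ x ∈ V, F = faceOf L x} from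
        ⟨y, hy, rfl⟩) (self_mem L N y)
    · intro hy
      obtain ⟨F, ⟨x, hx, rfl⟩, hyF⟩ := mem_iUnion₂.1 hy
      exact hV x hx hyF
  rw [h1]
  refine Set.Finite.isClosed_biUnion ?_ ?_
  · refine (finite_faces L N).subset ?_
    rintro F ⟨x, _, rfl⟩
    exact ⟨x, rfl⟩
  · rintro F ⟨x, _, rfl⟩
    exact isClosed_face L N x

theorem refine_face (L M N : ℕ) (hM : 1 ≤ M) (x : Cube N) :
    faceOf (L * M) x ⊆ faceOf L x := by
  have hM0 : (0 : ℝ) < M := by exact_mod_cast hM
  intro y hy i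
  obtain ⟨h1, h2⟩ := hy i
  push_cast at h1 h2
  have h3 : (⌊(L : ℝ) * (x i : ℝ)⌋ * M : ℤ) ≤ ⌊(L : ℝ) * M * (x i : ℝ)⌋ := by
    rw [Int.le_floor]
    push_cast
    have := Int.floor_le ((L : ℝ) * (x i : ℝ))
    nlinarith
  have h4 : ⌈(L : ℝ) * M * (x i : ℝ)⌉ ≤ (⌈(L : ℝ) * (x i : ℝ)⌉ * M : ℤ) := by
    rw [Int.ceil_le]
    push_cast
    have := Int.le_ceil ((L : ℝ) * (x i : ℝ))
    nlinarith
  have h3' : (⌊(L : ℝ) * (x i : ℝ)⌋ : ℝ) * M ≤ ⌊(L : ℝ) * M * (x i : ℝ)⌋ := by exact_mod_cast h3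
  have h4' : (⌈(L : ℝ) * M * (x i : ℝ)⌉ : ℝ) ≤ ⌈(L : ℝ) * (x i : ℝ)⌉ * M := by exact_mod_cast h4
  constructor
  · refine le_of_mul_le_mul_right ?_ hM0
    calc (⌊(L : ℝ) * (x i : ℝ)⌋ : ℝ) * M ≤ ⌊(L : ℝ) * M * (x i : ℝ)⌋ := h3'
      _ ≤ (L : ℝ) * M * (y i : ℝ) := h1
      _ = (L : ℝ) * (y i : ℝ) * M := by ring
  · refine le_of_mul_le_mul_right ?_ hM0
    calc (L : ℝ) * (y i : ℝ) * M = (L : ℝ) * M * (y i : ℝ) := by ring
      _ ≤ ⌈(L : ℝ) * M * (x i : ℝ)⌉ := h2
      _ ≤ _ := h4'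

end Grid89

open Grid89 in
theorem pr_Grid : S_Grid := by
  refine ⟨?_, ?_, ?_, ?_, ?_, ?_⟩
  · intro N L x hL
    exact ⟨self_mem L N x, isClosed_face L N x, fun y hy => face_sub hy,
      fun y hy z hz => face_dist hL hy hz⟩
  · intro N
    refine ⟨cubical_bd 1 N le_rfl, fun x _ y _ => mem_univ _, ?_⟩
    ext x
    constructor
    · rintro ⟨i, hi⟩
      have hN : 1 ≤ N := by
        have := i.2
        omega
      refine ⟨mem_univ _, ?_, hN⟩
      have hsub : {j | ¬ IsGrid 1 (x j)} ⊆ (({i} : Set (Fin N))ᶜ) := by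
        intro j hj hji
        have hji' : j = i := hji
        subst hji'
        apply hj
        rcases hi with hi | hi
        · rw [hi]; exact isGrid_zero 1
        · rw [hi]; exact isGrid_one 1
      refine (Set.ncard_le_ncard hsub (Set.toFinite _)).trans ?_
      rw [Set.ncard_compl, Set.ncard_singleton, Nat.card_eq_fintype_card, Fintype.card_fin]
    · rintro ⟨_, h1, h2⟩
      by_contra hcon
      have hall : {j | ¬ IsGrid 1 (x j)} = univ := by
        refine eq_univ_of_forall fun j hj => hcon ⟨j, isGrid_one_iff hj⟩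
      rw [hall, Set.ncard_univ, Nat.card_eq_fintype_card, Fintype.card_fin] at h1
      omega
  · intro N L hL
    exact ⟨cubical_bd L N hL, fun x _ y _ => mem_univ _, cubical_skel L N⟩
  · intro N L V W hV hW
    refine ⟨?_, ?_⟩
    · rintro x (hx | hx)
      · exact fun y hy => Or.inl (hV x hx hy)
      · exact fun y hy => Or.inr (hW x hx hy)
    · rintro x ⟨hx, hx'⟩ y hy
      exact ⟨hV x hx hy, hW x hx' hy⟩
  · intro N L V _ hV
    exact cubical_closed L N V hV
  · intro N L M V _ hM hV x hx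
    exact (refine_face L M N hM x).trans (hV x hx)

end M202

end

section

/-!
MP_202a65_gt, item Hep (helper70): the retraction of `I × I^m` onto `0 × I^m ∪ I × ∂I^m`.
-/

open Set Topology unitInterval

namespace M202

/-- the distance function used in the retraction -/
noncomputable def Hep_rho {m : ℕ} (x : Cube m) : ℝ := 1 - 2 * dist x (ctr m)

/-- the time travelled -/
noncomputable def Hep_s {m : ℕ} (w : ℝ) (p : I × Cube m) : ℝ :=
  min (p.1 : ℝ) (Hep_rho p.2 / (2 * w))

lemma Hep_coord {m : ℕ} (x : Cube m) (i : Fin m) :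
    |((x i : unitInterval) : ℝ) - 1 / 2| ≤ dist x (ctr m) := by
  have := dist_le_pi_dist x (ctr m) i
  rw [Subtype.dist_eq, Real.dist_eq] at this
  simpa [ctr] using this

lemma Hep_half {m : ℕ} (x : Cube m) (i : Fin m) :
    |((x i : unitInterval) : ℝ) - 1 / 2| ≤ 1 / 2 := by
  have h1 := (x i).2.1
  have h2 := (x i).2.2
  rw [abs_le]; constructor <;> linarith

lemma Hep_dist_le {m : ℕ} (x : Cube m) : dist x (ctr m) ≤ 1 / 2 := by
  rw [dist_pi_le_iff (by norm_num)]
  intro i
  rw [Subtype.dist_eq, Real.dist_eq]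
  simpa [ctr] using Hep_half x i

lemma Hep_rho_nonneg {m : ℕ} (x : Cube m) : 0 ≤ Hep_rho x := by
  have := Hep_dist_le x
  unfold Hep_rho; linarith

lemma Hep_rho_bd {m : ℕ} (x : Cube m) (hx : x ∈ bd m) : Hep_rho x = 0 := by
  obtain ⟨i, hi⟩ := hx
  have h1 := Hep_coord x i
  have h2 := Hep_dist_le x
  have h3 : |((x i : unitInterval) : ℝ) - 1 / 2| = 1 / 2 := by
    rcases hi with hi | hi <;> rw [hi] <;> norm_num [abs_of_pos, abs_of_neg]
  unfold Hep_rho; linarith

lemma Hep_cont_rho {m : ℕ} : Continuous (Hep_rho (m := m)) := by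
  unfold Hep_rho
  fun_prop

lemma Hep_cont_s {m : ℕ} (w : ℝ) : Continuous (Hep_s (m := m) w) := by
  unfold Hep_s
  have := Hep_cont_rho (m := m)
  fun_prop

lemma Hep_s_nonneg {m : ℕ} {w : ℝ} (hw : 0 < w) (p : I × Cube m) : 0 ≤ Hep_s w p := by
  unfold Hep_s
  exact le_min p.1.2.1 (div_nonneg (Hep_rho_nonneg _) (by linarith))

lemma Hep_s_le {m : ℕ} (w : ℝ) (p : I × Cube m) : Hep_s w p ≤ p.1 := min_le_left _ _

lemma Hep_s_le_one {m : ℕ} (w : ℝ) (p : I × Cube m) : Hep_s w p ≤ 1 :=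
  (Hep_s_le w p).trans p.1.2.2

lemma Hep_s_rho {m : ℕ} {w : ℝ} (hw : 0 < w) (p : I × Cube m) :
    2 * w * Hep_s w p ≤ Hep_rho p.2 := by
  have h : Hep_s w p ≤ Hep_rho p.2 / (2 * w) := min_le_right _ _
  rw [le_div_iff₀ (by linarith)] at h
  linarith

lemma Hep_den {m : ℕ} {w : ℝ} (hw : 0 < w) (hw2 : w < 1 / 2) (p : I × Cube m) :
    0 < 1 - 2 * w * Hep_s w p := by
  have h1 := Hep_s_le_one w p
  have h0 := Hep_s_nonneg hw p
  nlinarith

lemma Hep_den_ge {m : ℕ} {w : ℝ} (hw : 0 < w) (p : I × Cube m) :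
    2 * dist p.2 (ctr m) ≤ 1 - 2 * w * Hep_s w p := by
  have h := Hep_s_rho hw p
  unfold Hep_rho at h
  linarith

lemma Hep_mem {m : ℕ} {w : ℝ} (hw : 0 < w) (hw2 : w < 1 / 2) (p : I × Cube m) (i : Fin m) :
    1 / 2 + (((p.2 i : unitInterval) : ℝ) - 1 / 2) / (1 - 2 * w * Hep_s w p) ∈ Icc (0 : ℝ) 1 := by
  have hd := Hep_den hw hw2 p
  have hg := Hep_den_ge hw p
  have hc := Hep_coord p.2 i
  have h : |(((p.2 i : unitInterval) : ℝ) - 1 / 2) / (1 - 2 * w * Hep_s w p)| ≤ 1 / 2 := by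
    rw [abs_div, abs_of_pos hd, div_le_iff₀ hd]
    linarith
  rw [abs_le] at h
  constructor <;> linarith [h.1, h.2]

lemma Hep_mem1 {m : ℕ} {w : ℝ} (hw : 0 < w) (p : I × Cube m) :
    (p.1 : ℝ) - Hep_s w p ∈ Icc (0 : ℝ) 1 := by
  have h1 := Hep_s_le w p
  have h0 := Hep_s_nonneg hw p
  have h2 := p.1.2.2
  constructor <;> linarith

theorem pr_Hep : S_Hep := by
  intro m w hw hw2
  refine ⟨fun p => (⟨(p.1 : ℝ) - Hep_s w p, Hep_mem1 hw p⟩,
    fun i => ⟨1 / 2 + (((p.2 i : unitInterval) : ℝ) - 1 / 2) / (1 - 2 * w * Hep_s w p),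
      Hep_mem hw hw2 p i⟩), ?_, ?_, ?_, ?_, ?_, ?_⟩
  · have hs := Hep_cont_s (m := m) w
    refine Continuous.prodMk (Continuous.subtype_mk (by fun_prop) _)
      (continuous_pi fun i => Continuous.subtype_mk ?_ _)
    refine continuous_const.add (Continuous.div (by fun_prop) (by fun_prop) ?_)
    intro p
    exact (Hep_den hw hw2 p).ne'
  · intro t x hx
    have hs : Hep_s w ((t, x) : I × Cube m) = 0 := by
      unfold Hep_s
      simp only [Hep_rho_bd x hx, zero_div]
      exact min_eq_right t.2.1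
    ext1
    · ext1
      simp [hs]
    · funext i
      ext1
      simp [hs]
  · intro x
    have hs : Hep_s w ((0, x) : I × Cube m) = 0 := by
      unfold Hep_s
      simp only [Set.Icc.coe_zero]
      exact min_eq_left (div_nonneg (Hep_rho_nonneg _) (by linarith))
    ext1
    · ext1
      simp [hs]
    · funext i
      ext1
      simp [hs]
  · intro t x
    by_cases hst : Hep_s w ((t, x) : I × Cube m) = t
    · left
      ext1
      simp [hst]
    · right
      have hs : Hep_s w ((t, x) : I × Cube m) = Hep_rho x / (2 * w) := by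
        rcases min_choice ((t : I) : ℝ) (Hep_rho x / (2 * w)) with h | h
        · exact absurd h hst
        · exact h
      have hd := Hep_den hw hw2 (t, x)
      have h2 : 1 - 2 * w * Hep_s w ((t, x) : I × Cube m) = 2 * dist x (ctr m) := by
        rw [hs]
        unfold Hep_rho
        field_simp
        ring
      have hpos : 0 < dist x (ctr m) := by linarith
      by_contra hcon
      have hall : ∀ i, dist (x i) (ctr m i) < dist x (ctr m) := by
        intro i
        by_contra hi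
        push Not at hi
        rw [Subtype.dist_eq, Real.dist_eq] at hi
        have hi' : dist x (ctr m) ≤ |((x i : unitInterval) : ℝ) - 1 / 2| := by
          simpa [ctr] using hi
        have hc := Hep_coord x i
        have heq : |((x i : unitInterval) : ℝ) - 1 / 2| = dist x (ctr m) := le_antisymm hc hi'
        apply hcon
        refine ⟨i, ?_⟩
        rcases abs_choice (((x i : unitInterval) : ℝ) - 1 / 2) with h | h
        · right
          ext1
          simp only [Set.Icc.coe_one, h2]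
          rw [h] at heq
          rw [heq]
          field_simp
          norm_num
        · left
          ext1
          simp only [Set.Icc.coe_zero, h2]
          rw [h] at heq
          have : ((x i : unitInterval) : ℝ) - 1 / 2 = - dist x (ctr m) := by linarith
          rw [this]
          field_simp
          norm_num
      have := (dist_pi_lt_iff hpos).2 hall
      exact lt_irrefl _ this
  · intro t x
    rw [dist_pi_le_iff hw.le]
    intro i
    rw [Subtype.dist_eq, Real.dist_eq]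
    have hd := Hep_den hw hw2 (t, x)
    have hg := Hep_den_ge hw (t, x)
    have hc := Hep_coord x i
    have h0 := Hep_s_nonneg hw (t, x)
    have h1 := Hep_s_le_one w (t, x)
    simp only at hg
    have e : 1 / 2 + (((x i : unitInterval) : ℝ) - 1 / 2) / (1 - 2 * w * Hep_s w (t, x)) - (x i : ℝ)
        = (((x i : unitInterval) : ℝ) - 1 / 2) * (2 * w * Hep_s w (t, x))
          / (1 - 2 * w * Hep_s w (t, x)) := by
      field_simp
      ring
    simp only
    rw [e, abs_div, abs_mul, abs_of_pos hd, div_le_iff₀ hd,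
      abs_of_nonneg (by positivity : (0 : ℝ) ≤ 2 * w * Hep_s w (t, x))]
    have : |((x i : unitInterval) : ℝ) - 1 / 2| ≤ (1 - 2 * w * Hep_s w (t, x)) / 2 := by linarith
    have h5 : 2 * w * Hep_s w (t, x) ≤ 2 * w := by nlinarith
    calc |((x i : unitInterval) : ℝ) - 1 / 2| * (2 * w * Hep_s w (t, x))
        ≤ ((1 - 2 * w * Hep_s w (t, x)) / 2) * (2 * w) := by
          apply mul_le_mul this h5 (by positivity) (by linarith)
      _ = w * (1 - 2 * w * Hep_s w (t, x)) := by ring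
  · intro t x
    show (t : ℝ) - Hep_s w (t, x) ≤ t
    have h0 := Hep_s_nonneg hw (t, x)
    linarith

end M202

end

section

/-!
MP_202a65_gt, item HepMap (helper70): controlled homotopy extension.
-/

open Set Topology unitInterval

namespace M202

lemma HepMap_closed_bd (m : ℕ) : IsClosed (bd m) := by
  have : bd m = ⋃ i : Fin m, ({y : Cube m | y i = 0} ∪ {y : Cube m | y i = 1}) := by
    ext y
    simp [bd]
  rw [this]
  refine isClosed_iUnion_of_finite fun i => IsClosed.union ?_ ?_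
  · exact isClosed_eq (continuous_apply i) continuous_const
  · exact isClosed_eq (continuous_apply i) continuous_const

theorem pr_HepMap (h1 : S_Hep) : S_HepMap := by
  classical
  intro m B _ f h w hf hh hfh hw hw2
  obtain ⟨ret, hret, hbd, hzero, hor, hdist, hle⟩ := h1 m w hw hw2
  set H : I × Cube m → B := fun p => if (ret p).1 = 0 then f (ret p).2 else h (ret p) with hH
  have hHbd : ∀ p, (ret p).2 ∈ bd m → H p = h (ret p) := by
    intro p hp
    by_cases h0 : (ret p).1 = 0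
    · have : H p = f (ret p).2 := by simp [hH, h0]
      rw [this, ← hfh _ hp]
      congr 1
      ext1
      · exact h0.symm
      · rfl
    · simp [hH, h0]
  have hH0 : ∀ p, (ret p).1 = 0 → H p = f (ret p).2 := by
    intro p h0
    simp [hH, h0]
  refine ⟨H, ?_, ?_, ?_, ?_⟩
  · have hc1 : IsClosed {p : I × Cube m | (ret p).1 = 0} :=
      isClosed_eq (continuous_fst.comp hret) continuous_const
    have hc2 : IsClosed {p : I × Cube m | (ret p).2 ∈ bd m} :=
      (HepMap_closed_bd m).preimage (continuous_snd.comp hret)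
    have hcov : {p : I × Cube m | (ret p).1 = 0} ∪ {p : I × Cube m | (ret p).2 ∈ bd m} = univ := by
      ext p
      simp only [mem_union, mem_ofPred_eq, mem_univ, iff_true]
      exact hor p.1 p.2
    have c1 : ContinuousOn H {p : I × Cube m | (ret p).1 = 0} := by
      refine ContinuousOn.congr (f := fun p => f (ret p).2) ?_ ?_
      · exact (hf.comp (continuous_snd.comp hret)).continuousOn
      · intro p hp
        exact hH0 p hp
    have c2 : ContinuousOn H {p : I × Cube m | (ret p).2 ∈ bd m} := by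
      refine ContinuousOn.congr (f := fun p => h (ret p)) ?_ ?_
      · refine hh.comp hret.continuousOn ?_
        intro p hp
        exact ⟨mem_univ _, hp⟩
      · intro p hp
        exact hHbd p hp
    rw [← continuousOn_univ, ← hcov]
    exact c1.union_of_isClosed c2 hc1 hc2
  · intro x
    have : (ret (0, x)).1 = 0 := by rw [hzero]
    rw [hH0 _ this, hzero]
  · intro t x hx
    have e := hbd t x hx
    have : (ret (t, x)).2 ∈ bd m := by rw [e]; exact hx
    rw [hHbd _ this, e]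
  · intro t x
    refine ⟨(ret (t, x)).2, hdist t x, ?_⟩
    rcases hor t x with h0 | h0
    · left
      exact hH0 _ h0
    · right
      refine ⟨h0, (ret (t, x)).1, hle t x, ?_⟩
      exact hHbd _ h0

end M202

end

section

/-!
# MP_202a65_gt, item HomeoComp: soft maps and homeomorphisms
-/

open Set Topology unitInterval

namespace M202

theorem pr_HomeoComp : S_HomeoComp := by
  intro n A A' B B' _ _ _ _ th h k eta
  constructor
  · intro D hS m hm eta' he ze be al ga hze hbe hal hga h0 h1 ht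
    obtain ⟨al', G, c1, c2, c3, c4, c5, c6, c7⟩ := hS m hm eta' he ze be (fun x => h (al x)) ga hze
      hbe (h.continuous.comp_continuousOn hal) hga h0 h1 ht
    refine ⟨fun x => h.symm (al' x), G, h.symm.continuous.comp_continuousOn c1, c2, ?_, c4, ?_, c6,
      c7⟩
    · intro x hx
      show h.symm (al' x) = al x
      rw [c3 x hx, h.symm_apply_apply]
    · intro x hx
      show G (0, x) = th (h (h.symm (al' x)))
      rw [h.apply_symm_apply]
      exact c5 x hx
  · intro D hS m hm eta' he ze be al ga hze hbe hal hga h0 h1 ht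
    have g0 : ∀ x ∈ bd m, k.symm (ga (0, x)) = th (al x) := by
      intro x hx
      rw [h0 x hx, k.symm_apply_apply]
    have g1 : ∀ x ∈ bd m, k.symm (ga (1, x)) = k.symm (be x) := by
      intro x hx
      rw [h1 x hx]
    have gt : ∀ t, ∀ x ∈ bd m, D (k (k.symm (ga (t, x)))) (k (k.symm (be x))) ≤ ze := by
      intro t x hx
      rw [k.apply_symm_apply, k.apply_symm_apply]
      exact ht t x hx
    obtain ⟨al', G, c1, c2, c3, c4, c5, c6, c7⟩ := hS m hm eta' he ze (fun x => k.symm (be x)) al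
      (fun p => k.symm (ga p)) hze (k.symm.continuous.comp_continuousOn hbe) hal
      (k.symm.continuous.comp_continuousOn hga) g0 g1 gt
    refine ⟨al', fun p => k (G p), c1, k.continuous.comp_continuousOn c2, c3, ?_, ?_, ?_, ?_⟩
    · intro t x hx
      show k (G (t, x)) = ga (t, x)
      rw [c4 t x hx, k.apply_symm_apply]
    · intro x hx
      show k (G (0, x)) = k (th (al' x))
      rw [c5 x hx]
    · intro x hx
      show k (G (1, x)) = be x
      rw [c6 x hx, k.apply_symm_apply]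
    · intro t x hx
      have h2 := c7 t x hx
      simp only [k.apply_symm_apply] at h2
      exact h2

end M202

end

section

/-!
MP_202a65_gt, item PO: pushout lemma for soft maps.
-/

set_option autoImplicit false

open Set Topology unitInterval

namespace M202
namespace PO

/-! ### mapping cylinders -/

theorem cyl (h8 : S_AdjDesc) {A C N : Type} [TopologicalSpace A] [CompactSpace A] [T2Space A]
    [TopologicalSpace C] [CompactSpace C] [T2Space C] [TopologicalSpace N] [CompactSpace N]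
    [T2Space N] (ph : A → C) (hph : Continuous ph) (i : C → N) (j : A × I → N)
    (h : IsAdj {p : A × I | p.2 = 0} (fun p => ph p.1) i j) :
    ∃ (rho : N → C) (K : I × N → N), Continuous rho ∧ Continuous K ∧
      (∀ c, rho (i c) = c) ∧ (∀ p, rho (j p) = ph p.1) ∧
      (∀ u c, K (u, i c) = i c) ∧ (∀ u p, K (u, j p) = j (p.1, σ u * p.2)) ∧
      (∀ x, K (0, x) = x) ∧ (∀ x, K (1, x) = i (rho x)) ∧
      (∀ u x, rho (K (u, x)) = rho x) := by
  obtain ⟨d1, -, d3, -, -, -⟩ := h8 C (A × I) N C _ _ i j h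
  obtain ⟨-, e2, e3, -, -, -⟩ := h8 C (A × I) N N _ _ i j h
  obtain ⟨rho, hr1, hr2, hr3⟩ := d1 id (fun p => ph p.1) continuous_id
    (hph.comp continuous_fst) (fun t _ => rfl)
  obtain ⟨K, hK1, hK2, hK3⟩ := e2 (fun q => i q.2) (fun q => j (q.2.1, σ q.1 * q.2.2))
    (h.conti.comp continuous_snd)
    (h.contj.comp ((continuous_fst.comp continuous_snd).prodMk
      ((unitInterval.continuous_symm.comp continuous_fst).mul
        (continuous_snd.comp continuous_snd))))
    (by
      intro u t ht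
      have ht' : t.2 = 0 := ht
      have h1 := h.agree t ht
      simp only [ht', mul_zero]
      rw [← h1]
      congr 1
      exact Prod.ext rfl ht'.symm)
  have hz : ∀ p : A × I, j (p.1, 0) = i (ph p.1) := fun p => h.agree (p.1, 0) rfl
  refine ⟨rho, K, hr1, hK1, hr2, hr3, hK2, fun u p => hK3 u p, ?_, ?_, ?_⟩
  · intro x
    have := e3 (fun x => K (0, x)) (fun x => x) (fun c => hK2 0 c) (fun t => by
      rw [hK3]
      simp)
    exact congrFun this x
  · intro x
    have := e3 (fun x => K (1, x)) (fun x => i (rho x)) (fun c => by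
      rw [hK2, hr2]; rfl) (fun t => by
      rw [hK3, hr3]
      simp only [unitInterval.symm_one, zero_mul]
      exact hz t)
    exact congrFun this x
  · intro u x
    have := d3 (fun x => rho (K (u, x))) rho (fun c => by
      rw [hK2]) (fun t => by
      rw [hK3, hr3, hr3])
    exact congrFun this x

theorem part1 (h4 : S_Comp) (h5 : S_Pert) (h6 : S_SDR) (h7 : S_SoftOfRel) (h8 : S_AdjDesc)
    {A A0 C N0 N : Type} [TopologicalSpace A] [CompactSpace A] [T2Space A]
    [TopologicalSpace A0] [CompactSpace A0] [T2Space A0]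
    [TopologicalSpace C] [CompactSpace C] [T2Space C] [TopologicalSpace N0] [CompactSpace N0]
    [T2Space N0] [TopologicalSpace N] [CompactSpace N] [T2Space N]
    (n : ℕ) (ph0 : A → A0) (hph0 : Continuous ph0) (ph : A → C) (hph : Continuous ph)
    (i0 : A0 → N0) (j0 : A × I → N0)
    (hadj0 : IsAdj {p : A × I | p.2 = 0} (fun p => ph0 p.1) i0 j0)
    (i : C → N) (j : A × I → N) (hadj : IsAdj {p : A × I | p.2 = 0} (fun p => ph p.1) i j)
    (th : A0 → C) (hth : Continuous th) (thr : N0 → N) (hthr : Continuous thr)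
    (hcomm : ∀ a0, thr (i0 a0) = i (th a0)) (D : N → N → ℝ) (hD : IsCPM D) (eta ep chi : ℝ)
    (hep : ∀ a t t', D (j (a, t)) (j (a, t')) ≤ ep) (hep0 : 0 ≤ ep)
    (hchi : ∀ a s t, D (thr (j0 (a, s))) (thr (j0 (a, t))) ≤ chi) (hchi0 : 0 ≤ chi)
    (hsoft : Soft n (fun x y => D (i x) (i y)) eta th) :
    Soft n D (0 + eta + ep + 2 * chi) thr := by
  obtain ⟨rho0, K0, hr0, hK0, hr0i, hr0j, hK0i, hK0j, hK00, hK01, hK0r⟩ :=
    cyl h8 ph0 hph0 i0 j0 hadj0
  obtain ⟨rho, K, hr, hK, hri, hrj, hKi, hKj, hKz, hKo, hKr⟩ := cyl h8 ph hph i j hadj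
  have hfine : FineSoft n rho0 := h6 n N0 A0 rho0 i0 K0 hr0 hadj0.conti hK0 hK00 hK01 hr0i hK0r
  have hDi : IsCPM (fun x y : C => D (i x) (i y)) :=
    ⟨fun x => hD.self _, fun x y => hD.symm _ _, fun x y z => hD.tri _ _ _,
      hD.cont.comp ((hadj.conti.comp continuous_fst).prodMk (hadj.conti.comp continuous_snd))⟩
  have hDt : IsCPM (fun x y : A0 => D (i (th x)) (i (th y))) :=
    ⟨fun x => hD.self _, fun x y => hD.symm _ _, fun x y z => hD.tri _ _ _,
      hD.cont.comp (((hadj.conti.comp hth).comp continuous_fst).prodMk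
        ((hadj.conti.comp hth).comp continuous_snd))⟩
  have h1 : Soft n (fun x y => D (i x) (i y)) (0 + eta) (fun a => th (rho0 a)) :=
    h4 n N0 A0 C (fun x y => D (i x) (i y)) 0 eta rho0 th hDi hr0 hth (hfine _ hDt) hsoft
  have h2 : Soft n D ep i := by
    refine h7 n C N D ep i hD hadj.conti ?_
    intro m hm eta' heta' be al hbe hal hbeal
    refine ⟨fun x => rho (be x), fun p => K (σ p.1, be p.2), hr.comp hbe,
      hK.comp ((unitInterval.continuous_symm.comp continuous_fst).prodMk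
        (hbe.comp continuous_snd)), ?_, ?_, ?_, ?_, ?_⟩
    · intro x hx
      simp only
      rw [← hbeal x hx, hri]
    · intro t x hx
      simp only
      rw [← hbeal x hx, hKi]
    · intro x
      simp only [unitInterval.symm_zero]
      exact hKo _
    · intro x
      simp only [unitInterval.symm_one]
      exact hKz _
    · intro t x
      refine le_trans ?_ heta'.le
      simp only
      rcases hadj.surj (be x) with ⟨c, hc⟩ | ⟨⟨a, s⟩, hc⟩
      · rw [← hc, hKi, hD.self]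
        exact hep0
      · rw [← hc, hKj]
        exact hep _ _ _
  have h3 : Soft n D (0 + eta + ep) (fun a => i (th (rho0 a))) :=
    h4 n N0 C N D (0 + eta) ep (fun a => th (rho0 a)) i hD (hth.comp hr0) hadj.conti h1 h2
  obtain ⟨-, e2, e3, -, -, -⟩ := h8 A0 (A × I) N0 N _ _ i0 j0 hadj0
  obtain ⟨Th, hTh, hTi, hTj⟩ := e2 (fun q => i (th q.2)) (fun q => thr (j0 (q.2.1, q.1 * q.2.2)))
    ((hadj.conti.comp hth).comp continuous_snd)
    (hthr.comp (hadj0.contj.comp ((continuous_fst.comp continuous_snd).prodMk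
      (continuous_fst.mul (continuous_snd.comp continuous_snd)))))
    (by
      intro u t ht
      have ht' : t.2 = 0 := ht
      have hz : j0 (t.1, 0) = i0 (ph0 t.1) := hadj0.agree (t.1, 0) rfl
      simp only [ht', mul_zero]
      rw [hz, hcomm])
  refine h5 n N0 N D (0 + eta + ep) chi (fun a => i (th (rho0 a))) thr Th hD hTh ?_ ?_ ?_ h3
  · intro x
    have := e3 (fun x => Th (0, x)) (fun x => i (th (rho0 x))) (fun c => by
      rw [hTi, hr0i]) (fun t => by
      rw [hTj, hr0j]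
      have hz : j0 (t.1, 0) = i0 (ph0 t.1) := hadj0.agree (t.1, 0) rfl
      simp only [zero_mul]
      rw [hz, hcomm])
    exact congrFun this x
  · intro x
    have := e3 (fun x => Th (1, x)) thr (fun c => by
      rw [hTi, hcomm]) (fun t => by
      rw [hTj]
      simp)
    exact congrFun this x
  · intro s t x
    rcases hadj0.surj x with ⟨c, hc⟩ | ⟨⟨a, v⟩, hc⟩
    · rw [← hc, hTi, hTi]
      simp only
      rw [hD.self]
      exact hchi0
    · rw [← hc, hTj, hTj]
      exact hchi _ _ _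

/-! ### neighbourhoods of the attached part -/

set_option linter.unusedSectionVars false

section nb

variable {C T Z : Type} [TopologicalSpace C] [TopologicalSpace T] [TopologicalSpace Z]

/-- the part of the adjunction space inside level q of the collar -/
def NS (A : Set T) (c : A × I → T) (i : C → Z) (j : T → Z) (q : I) : Set Z :=
  range i ∪ range (fun p : A × I => j (c (p.1, q * p.2)))

theorem collar_zero {A : Set T} {c : A × I → T} (hc : IsCollar A c) (a : A) (s : I)
    (h : c (a, s) ∈ A) : s = 0 := by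
  have h1 : c (a, s) = c (⟨c (a, s), h⟩, 0) := (hc.zero ⟨c (a, s), h⟩).symm
  exact congrArg Prod.snd (hc.inj h1)

theorem mem_NS {A : Set T} {c : A × I → T} {i : C → Z} {j : T → Z} {q s : I} (hq : 0 < q)
    (a : A) (hs : s ≤ q) : j (c (a, s)) ∈ NS A c i j q := by
  have hq' : (0 : ℝ) < q := hq
  have hs' : (s : ℝ) ≤ q := hs
  refine Or.inr ⟨(a, ⟨(s : ℝ) / q, ?_, ?_⟩), ?_⟩
  · exact div_nonneg s.2.1 hq'.le
  · rw [div_le_one hq']
    exact hs'
  · have h1 : q * (⟨(s : ℝ) / q, div_nonneg s.2.1 hq'.le, by rw [div_le_one hq']; exact hs'⟩ : I)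
        = s := by
      apply Subtype.ext
      show (q : ℝ) * ((s : ℝ) / q) = s
      field_simp
    simp only
    rw [h1]

theorem isCompact_NS [CompactSpace C] [CompactSpace T] {A : Set T} (hA : IsClosed A)
    {c : A × I → T} (hc : IsCollar A c) {i : C → Z} {j : T → Z} (hi : Continuous i)
    (hj : Continuous j) (q : I) : IsCompact (NS A c i j q) := by
  have : CompactSpace A := isCompact_iff_compactSpace.1 hA.isCompact
  exact (isCompact_range hi).union (isCompact_range (hj.comp (hc.cont.comp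
    (continuous_fst.prodMk (continuous_const.mul continuous_snd)))))

/-- inclusion of C -/
def iN (A : Set T) (c : A × I → T) (i : C → Z) (j : T → Z) (q : I) (x : C) : NS A c i j q :=
  ⟨i x, Or.inl ⟨x, rfl⟩⟩

/-- the collar coordinates -/
def jN (A : Set T) (c : A × I → T) (i : C → Z) (j : T → Z) (q : I) (p : A × I) :
    NS A c i j q := ⟨j (c (p.1, q * p.2)), Or.inr ⟨p, rfl⟩⟩

theorem adjNS {A : Set T} {c : A × I → T} (hc : IsCollar A c) {ph : T → C} {i : C → Z}
    {j : T → Z} (h : IsAdj A ph i j) (q : I) (hq : 0 < q) :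
    IsAdj {p : A × I | p.2 = 0} (fun p => ph p.1) (iN A c i j q) (jN A c i j q) := by
  have hne : ∀ (a : A) (t : I), t ≠ 0 → c (a, q * t) ∉ A := by
    intro a t ht hmem
    have h1 := collar_zero hc a _ hmem
    have h2 : (q : ℝ) * (t : ℝ) = 0 := congrArg Subtype.val h1
    rcases mul_eq_zero.1 h2 with h3 | h3
    · exact hq.ne' (Subtype.ext h3)
    · exact ht (Subtype.ext h3)
  refine ⟨?_, ?_, ?_, ?_, ?_, ?_, ?_, ?_, ?_⟩
  · exact isClosed_eq continuous_snd continuous_const
  · refine Continuous.continuousOn ?_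
    exact (continuousOn_iff_continuous_domRestrict.1 h.contph).comp continuous_fst
  · exact h.conti.subtype_mk _
  · exact (h.contj.comp (hc.cont.comp (continuous_fst.prodMk
      (continuous_const.mul continuous_snd)))).subtype_mk _
  · intro x y hxy
    exact h.inji (congrArg Subtype.val hxy)
  · intro p hp
    have hp' : p.2 = 0 := hp
    apply Subtype.ext
    show j (c (p.1, q * p.2)) = i (ph p.1)
    rw [hp', mul_zero, hc.zero]
    exact h.agree _ p.1.2
  · intro p hp p' hp' hpp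
    have h1 : j (c (p.1, q * p.2)) = j (c (p'.1, q * p'.2)) := congrArg Subtype.val hpp
    have h2 := h.injj (hne _ _ hp) (hne _ _ hp') h1
    have h3 := hc.inj h2
    have h4 : p.1 = p'.1 := (Prod.mk.inj h3).1
    have h5 : q * p.2 = q * p'.2 := (Prod.mk.inj h3).2
    have h6 : (q : ℝ) * (p.2 : ℝ) = q * p'.2 := congrArg Subtype.val h5
    have hq' : (0 : ℝ) < q := hq
    exact Prod.ext h4 (Subtype.ext (mul_left_cancel₀ hq'.ne' h6))
  · intro p hp x hpx
    exact h.disj _ (hne _ _ hp) x (congrArg Subtype.val hpx)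
  · rintro ⟨z, ⟨x, hx⟩ | ⟨p, hp⟩⟩
    · exact Or.inl ⟨x, Subtype.ext hx⟩
    · exact Or.inr ⟨p, Subtype.ext hp⟩

end nb

/-! ### cubes of the grid -/

/-- closed cube of the grid -/
def Qb (m L : ℕ) (k : Fin m → ℤ) : Set (Cube m) :=
  {y | ∀ i, (k i : ℝ) ≤ L * (y i : ℝ) ∧ (L : ℝ) * (y i : ℝ) ≤ k i + 1}

theorem Qb_cubical (m L : ℕ) (k : Fin m → ℤ) : Cubical L (Qb m L k) := by
  intro x hx y hy i
  have h1 := hx i
  have h2 := hy i
  constructor
  · refine le_trans ?_ h2.1
    exact_mod_cast Int.le_floor.2 h1.1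
  · refine le_trans h2.2 ?_
    have : ⌈(L : ℝ) * (x i : ℝ)⌉ ≤ k i + 1 := Int.ceil_le.2 (by push_cast; exact h1.2)
    exact_mod_cast this

theorem Qb_mem (m L : ℕ) (x : Cube m) : x ∈ Qb m L (fun i => ⌊(L : ℝ) * (x i : ℝ)⌋) := by
  intro i
  exact ⟨Int.floor_le _, (Int.lt_floor_add_one _).le⟩

theorem Qb_dist (m L : ℕ) (hL : 1 ≤ L) (k : Fin m → ℤ) (x y : Cube m) (hx : x ∈ Qb m L k)
    (hy : y ∈ Qb m L k) : dist x y ≤ 1 / L := by
  have hL' : (0 : ℝ) < L := by exact_mod_cast hL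
  refine (dist_pi_le_iff (by positivity)).2 fun i => ?_
  have h1 := hx i
  have h2 := hy i
  rw [Subtype.dist_eq, Real.dist_eq, le_div_iff₀ hL', ← abs_of_pos hL', ← abs_mul, abs_le]
  constructor <;> nlinarith

/-! ### the data of the pushout lemma -/

/-- the hypotheses of S_PO -/
structure Dat {A0 C T Z0 Z : Type} [TopologicalSpace A0] [TopologicalSpace C]
    [TopologicalSpace T] [TopologicalSpace Z0] [TopologicalSpace Z] (A : Set T) (c : A × I → T)
    (ph0 : T → A0) (ph : T → C) (i0 : A0 → Z0) (j0 : T → Z0) (i : C → Z) (j : T → Z)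
    (th : A0 → C) (Ga : I × A → C) (thp : Z0 → Z) : Prop where
  hA : IsClosed A
  hc : IsCollar A c
  h0 : IsAdj A ph0 i0 j0
  h1 : IsAdj A ph i j
  g1 : ∀ a : A, Ga (1, a) = ph a
  cont : Continuous thp
  t1 : ∀ a0, thp (i0 a0) = i (th a0)
  t2 : ∀ (a : A) (t s : I), (t : ℝ) ≤ 1 / 2 → (s : ℝ) = 2 * t →
    thp (j0 (c (a, t))) = i (Ga (s, a))
  t3 : ∀ (a : A) (t s : I), 1 / 2 ≤ (t : ℝ) → (s : ℝ) = 2 * t - 1 →
    thp (j0 (c (a, t))) = j (c (a, s))
  t4 : ∀ t, t ∉ range c → thp (j0 t) = j t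

theorem NS_iff {C T Z : Type} [TopologicalSpace C] [TopologicalSpace T] [TopologicalSpace Z]
    {A : Set T} {c : A × I → T} {ph : T → C} {i : C → Z}
    {j : T → Z} (h : IsAdj A ph i j) {q : I} (hq : 0 < q) (t : T) (ht : t ∉ A) :
    j t ∈ NS A c i j q ↔ ∃ a s, s ≤ q ∧ c (a, s) = t := by
  constructor
  · rintro (⟨x, hx⟩ | ⟨p, hp⟩)
    · exact absurd hx.symm (h.disj t ht x)
    · by_cases hm : c (p.1, q * p.2) ∈ A
      · have h2 : j (c (p.1, q * p.2)) = j t := hp
        rw [h.agree _ hm] at h2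
        exact absurd h2.symm (h.disj t ht _)
      · refine ⟨p.1, q * p.2, ?_, h.injj hm ht hp⟩
        have h3 : (q : ℝ) * (p.2 : ℝ) ≤ q := by
          have := mul_le_mul_of_nonneg_left p.2.2.2 q.2.1
          rwa [mul_one] at this
        exact h3
  · rintro ⟨a, s, hs, rfl⟩
    exact mem_NS hq a hs

section main

variable {A0 C T Z0 Z : Type} [TopologicalSpace A0] [TopologicalSpace C]
    [TopologicalSpace T] [TopologicalSpace Z0] [TopologicalSpace Z] {A : Set T} {c : A × I → T}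
    {ph0 : T → A0} {ph : T → C} {i0 : A0 → Z0} {j0 : T → Z0} {i : C → Z} {j : T → Z}
    {th : A0 → C} {Ga : I × A → C} {thp : Z0 → Z}

theorem notA (hc : IsCollar A c) (a : A) (s : I) (hs : 0 < s) : c (a, s) ∉ A :=
  fun h => hs.ne' (collar_zero hc a s h)

theorem notA' (hc : IsCollar A c) (t : T) (ht : t ∉ range c) : t ∉ A :=
  fun h => ht ⟨(⟨t, h⟩, 0), hc.zero _⟩

theorem cls (d : Dat A c ph0 ph i0 j0 i j th Ga thp) (x : Z0) :
    (thp x ∈ range i ∧ ∀ q0 : I, 1 / 2 ≤ (q0 : ℝ) → x ∈ NS A c i0 j0 q0) ∨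
    (∃ (a : A) (t s : I), x = j0 (c (a, t)) ∧ 1 / 2 < (t : ℝ) ∧ (s : ℝ) = 2 * t - 1 ∧ 0 < s ∧
      thp x = j (c (a, s))) ∨
    ∃ t, t ∉ range c ∧ x = j0 t ∧ thp x = j t := by
  rcases d.h0.surj x with ⟨a0, rfl⟩ | ⟨t, rfl⟩
  · exact Or.inl ⟨⟨_, (d.t1 a0).symm⟩, fun q0 _ => Or.inl ⟨a0, rfl⟩⟩
  · by_cases ht : t ∈ range c
    · obtain ⟨⟨a, s'⟩, rfl⟩ := ht
      by_cases hs : (s' : ℝ) ≤ 1 / 2
      · refine Or.inl ⟨⟨_, (d.t2 a s' ⟨2 * s', by linarith [s'.2.1], by linarith⟩ hs rfl).symm⟩,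
          fun q0 hq0 => mem_NS ?_ a ?_⟩
        · exact (show (0 : ℝ) < q0 by linarith)
        · exact (show (s' : ℝ) ≤ q0 by linarith)
      · rw [not_le] at hs
        have h2 := s'.2.2
        refine Or.inr (Or.inl ⟨a, s', ⟨2 * s' - 1, by linarith, by linarith⟩, rfl, hs, rfl, ?_,
          d.t3 a s' _ hs.le rfl⟩)
        exact (show (0 : ℝ) < 2 * s' - 1 by linarith)
    · exact Or.inr (Or.inr ⟨t, ht, rfl, d.t4 t ht⟩)

theorem inj_out (d : Dat A c ph0 ph i0 j0 i j th Ga thp) (x y : Z0) (hxy : thp x = thp y)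
    (hx : thp x ∉ range i) : x = y := by
  rcases cls d x with ⟨h, -⟩ | ⟨a, t, s, hx1, ht, hs, hs0, hx2⟩ | ⟨t, ht, hx1, hx2⟩
  · exact absurd h hx
  · rcases cls d y with ⟨h, -⟩ | ⟨a', t', s', hy1, ht', hs', hs0', hy2⟩ | ⟨t', ht', hy1, hy2⟩
    · exact absurd (hxy ▸ h) hx
    · have h3 : j (c (a, s)) = j (c (a', s')) := by rw [← hx2, ← hy2, hxy]
      have h4 := d.hc.inj (d.h1.injj (notA d.hc a s hs0) (notA d.hc a' s' hs0') h3)
      have h5 : a = a' := (Prod.mk.inj h4).1
      have h6 : s = s' := (Prod.mk.inj h4).2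
      have h7 : t = t' := by
        apply Subtype.ext
        have h8 : (s : ℝ) = s' := congrArg Subtype.val h6
        linarith
      rw [hx1, hy1, h5, h7]
    · have h3 : j (c (a, s)) = j t' := by rw [← hx2, ← hy2, hxy]
      have h4 := d.h1.injj (notA d.hc a s hs0) (notA' d.hc t' ht') h3
      exact absurd ⟨_, h4⟩ ht'
  · rcases cls d y with ⟨h, -⟩ | ⟨a', t', s', hy1, ht', hs', hs0', hy2⟩ | ⟨t', ht', hy1, hy2⟩
    · exact absurd (hxy ▸ h) hx
    · have h3 : j (c (a', s')) = j t := by rw [← hx2, ← hy2, hxy]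
      have h4 := d.h1.injj (notA d.hc a' s' hs0') (notA' d.hc t ht) h3
      exact absurd ⟨_, h4⟩ ht
    · have h3 : j t = j t' := by rw [← hx2, ← hy2, hxy]
      have h4 := d.h1.injj (notA' d.hc t ht) (notA' d.hc t' ht') h3
      rw [hx1, hy1, h4]

theorem surj_out (d : Dat A c ph0 ph i0 j0 i j th Ga thp) (z : Z) (hz : z ∉ range i) :
    ∃ x, thp x = z := by
  rcases d.h1.surj z with ⟨x, hx⟩ | ⟨t, rfl⟩
  · exact absurd ⟨x, hx⟩ hz
  · by_cases ht : t ∈ range c
    · obtain ⟨⟨a, s⟩, rfl⟩ := ht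
      have h1 := s.2.1
      have h2 := s.2.2
      exact ⟨j0 (c (a, ⟨(s + 1) / 2, by linarith, by linarith⟩)),
        d.t3 a _ s (show (1 : ℝ) / 2 ≤ (s + 1) / 2 by linarith)
          (show (s : ℝ) = 2 * ((s + 1) / 2) - 1 by ring)⟩
    · exact ⟨j0 t, d.t4 t ht⟩

theorem map_NS (d : Dat A c ph0 ph i0 j0 i j th Ga thp) (r q0 : I) (hr : 0 < r)
    (hq0 : (q0 : ℝ) = (1 + r) / 2) (x : Z0) : x ∈ NS A c i0 j0 q0 ↔ thp x ∈ NS A c i j r := by
  have hr' : (0 : ℝ) < r := hr
  have hq0' : 0 < q0 := show (0 : ℝ) < q0 by rw [hq0]; linarith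
  rcases cls d x with ⟨h, h'⟩ | ⟨a, t, s, hx1, ht, hs, hs0, hx2⟩ | ⟨t, ht, hx1, hx2⟩
  · exact ⟨fun _ => Or.inl h, fun _ => h' q0 (by rw [hq0]; linarith)⟩
  · have ht0 : 0 < t := show (0 : ℝ) < t by linarith
    rw [hx2, hx1, NS_iff d.h0 hq0' _ (notA d.hc a t ht0), NS_iff d.h1 hr _ (notA d.hc a s hs0)]
    constructor
    · rintro ⟨a', s', hs', h⟩
      have h1 := (Prod.mk.inj (d.hc.inj h)).2
      have h2 : (s' : ℝ) ≤ q0 := hs'
      rw [h1] at h2
      exact ⟨a, s, show (s : ℝ) ≤ r by linarith, rfl⟩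
    · rintro ⟨a', s', hs', h⟩
      have h1 := (Prod.mk.inj (d.hc.inj h)).2
      have h2 : (s' : ℝ) ≤ r := hs'
      rw [h1] at h2
      exact ⟨a, t, show (t : ℝ) ≤ q0 by linarith, rfl⟩
  · rw [hx2, hx1, NS_iff d.h0 hq0' _ (notA' d.hc t ht), NS_iff d.h1 hr _ (notA' d.hc t ht)]
    constructor
    · rintro ⟨a', s', hs', h⟩
      exact absurd ⟨_, h⟩ ht
    · rintro ⟨a', s', hs', h⟩
      exact absurd ⟨_, h⟩ ht

/-- the outer part -/
theorem outer [CompactSpace T] [T2Space T] [T2Space Z]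
    (d : Dat A c ph0 ph i0 j0 i j th Ga thp) (r : I) (hr : 0 < r) :
    ∃ F : Set Z, IsClosed F ∧ Disjoint F (range i) ∧ ∀ z, z ∉ F → z ∈ NS A c i j r := by
  have hcA : CompactSpace A := isCompact_iff_compactSpace.1 d.hA.isCompact
  have hop : IsOpen (c '' {p | p.2 < r}) := by
    have h1 : c '' {p | p.2 < r} = c '' {p | p.2 < 1} ∩ (c '' {p | r ≤ p.2})ᶜ := by
      ext t
      constructor
      · rintro ⟨p, hp, rfl⟩
        refine ⟨⟨p, lt_of_lt_of_le hp (show (r : ℝ) ≤ 1 from r.2.2), rfl⟩, ?_⟩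
        rintro ⟨p', hp', h⟩
        rw [d.hc.inj h] at hp'
        exact not_lt.2 (show r ≤ p.2 from hp') (show p.2 < r from hp)
      · rintro ⟨⟨p, hp, rfl⟩, h⟩
        refine ⟨p, ?_, rfl⟩
        by_contra hcon
        exact h ⟨p, show r ≤ p.2 from not_lt.1 hcon, rfl⟩
    rw [h1]
    refine d.hc.isOpen.inter (IsCompact.isClosed ?_).isOpen_compl
    exact (isClosed_le continuous_const continuous_snd).isCompact.image d.hc.cont
  refine ⟨j '' (c '' {p | p.2 < r})ᶜ, ?_, ?_, ?_⟩
  · exact (hop.isClosed_compl.isCompact.image d.h1.contj).isClosed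
  · rw [Set.disjoint_left]
    rintro z ⟨t, ht, rfl⟩ ⟨x, hx⟩
    by_cases hA : t ∈ A
    · exact ht ⟨(⟨t, hA⟩, 0), hr, d.hc.zero _⟩
    · exact d.h1.disj t hA x hx.symm
  · intro z hz
    rcases d.h1.surj z with ⟨x, hx⟩ | ⟨t, rfl⟩
    · exact Or.inl ⟨x, hx⟩
    · by_contra hcon
      apply hz
      refine ⟨t, ?_, rfl⟩
      rintro ⟨p, hp, rfl⟩
      exact hcon (mem_NS hr p.1 (le_of_lt hp))

/-- the restriction of thp -/
def thr (d : Dat A c ph0 ph i0 j0 i j th Ga thp) (r q0 : I) (hr : 0 < r)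
    (hq0 : (q0 : ℝ) = (1 + r) / 2) (x : NS A c i0 j0 q0) : NS A c i j r :=
  ⟨thp x.1, (map_NS d r q0 hr hq0 x.1).1 x.2⟩

/-- the radius -/
theorem radius [CompactSpace T] [T2Space T]
    (d : Dat A c ph0 ph i0 j0 i j th Ga thp) (D : Z → Z → ℝ) (hD : IsCPM D) (ep : ℝ)
    (hep : 0 < ep) : ∃ r : I, 0 < r ∧ ∀ (a : A) (t t' : I), t ≤ r → t' ≤ r →
      D (j (c (a, t))) (j (c (a, t'))) ≤ ep := by
  have hcA : CompactSpace A := isCompact_iff_compactSpace.1 d.hA.isCompact
  have hjc : Continuous (fun p : A × I => j (c p)) := d.h1.contj.comp d.hc.cont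
  have hf : Continuous (fun p : A × I => D (j (c p)) (j (c (p.1, 0)))) :=
    hD.cont.comp (hjc.prodMk (hjc.comp (continuous_fst.prodMk continuous_const)))
  have hcl : IsClosed (Prod.snd '' {p : A × I | ep / 2 ≤ D (j (c p)) (j (c (p.1, 0)))}) :=
    isClosedMap_snd_of_compactSpace _ (isClosed_le continuous_const hf)
  have h0 : (0 : I) ∈ (Prod.snd '' {p : A × I | ep / 2 ≤ D (j (c p)) (j (c (p.1, 0)))})ᶜ := by
    rintro ⟨⟨a, s⟩, hp, h⟩
    have h1 : s = 0 := h
    have h2 : ep / 2 ≤ D (j (c (a, s))) (j (c (a, 0))) := hp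
    rw [h1, hD.self] at h2
    linarith
  obtain ⟨e, he, hball⟩ := Metric.isOpen_iff.1 hcl.isOpen_compl 0 h0
  have hmin : 0 < min (e / 2) 1 := lt_min (by linarith) one_pos
  refine ⟨⟨min (e / 2) 1, hmin.le, min_le_right _ _⟩, hmin, ?_⟩
  have key : ∀ (a : A) (t : I), t ≤ (⟨min (e / 2) 1, hmin.le, min_le_right _ _⟩ : I) →
      D (j (c (a, t))) (j (c (a, 0))) ≤ ep / 2 := by
    intro a t ht
    have ht' : (t : ℝ) ≤ min (e / 2) 1 := ht
    have h1 : t ∈ Metric.ball (0 : I) e := by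
      rw [Metric.mem_ball, Subtype.dist_eq, Real.dist_eq]
      have h2 := t.2.1
      have h3 := min_le_left (e / 2) (1 : ℝ)
      rw [abs_of_nonneg (by simpa using h2)]
      have h4 : ((0 : I) : ℝ) = 0 := rfl
      rw [h4]
      linarith
    have h2 := hball h1
    by_contra hcon
    rw [not_le] at hcon
    exact h2 ⟨(a, t), hcon.le, rfl⟩
  intro a t t' ht ht'
  have h1 := hD.tri (j (c (a, t))) (j (c (a, 0))) (j (c (a, t')))
  have h2 := key a t ht
  have h3 := key a t' ht'
  rw [hD.symm] at h3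
  linarith

end main

/-- a map that is continuous on two closed sets covering the space -/
theorem glue {X Y : Type} [TopologicalSpace X] [TopologicalSpace Y] {L1 L2 : Set X}
    (h1 : IsClosed L1) (h2 : IsClosed L2) (hu : L1 ∪ L2 = univ) {f : X → Y}
    (hf1 : ContinuousOn f L1) (hf2 : ContinuousOn f L2) : Continuous f := by
  rw [← continuousOn_univ, ← hu]
  exact hf1.union_of_isClosed hf2 h1 h2

end PO

open PO in
theorem pr_PO (h1 : S_CE) (h2 : S_CubRC) (h3 : S_Grid) (h4 : S_Comp) (h5 : S_Pert) (h6 : S_SDR)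
    (h7 : S_SoftOfRel) (h8 : S_AdjDesc) (h9 : S_UC) (h10 : S_Basics) : S_PO := by
  intro n A0 C T Z0 Z _ _ _ _ _ _ _ _ _ _ _ _ _ _ _ A c ph0 ph i0 j0 i j th Ga thp D eta chi
    hA hc hadj0 hadj hth hGa hGa0 hGa1 hthp ht1 ht2 ht3 ht4 hne hD heta hchi htr hsoft
  have d : Dat A c ph0 ph i0 j0 i j th Ga thp :=
    ⟨hA, hc, hadj0, hadj, hGa1, hthp, ht1, ht2, ht3, ht4⟩
  have hcA : CompactSpace A := isCompact_iff_compactSpace.1 hA.isCompact
  refine h7 n Z0 Z D _ thp hD hthp ?_
  intro m hm eta' heta' be al hbe hal hbeal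
  -- the constants
  have hn : (0 : ℝ) < n + 1 := by positivity
  set e2 : ℝ := eta' / (n + 1) with he2
  have he2' : ((n : ℝ) + 1) * e2 = eta' := by
    rw [he2]
    field_simp
  have he2lt : eta + 2 * chi < e2 := by
    rw [he2, lt_div_iff₀ hn, mul_comm]
    exact heta'
  set ep : ℝ := (e2 - (eta + 2 * chi)) / 4 with hep
  have hep0 : 0 < ep := by
    rw [hep]
    linarith
  have he2pos : 0 < e2 := by linarith
  obtain ⟨r, hr, hrad⟩ := radius d D hD ep hep0
  have hr' : (0 : ℝ) < r := hr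
  have hr1 : (r : ℝ) ≤ 1 := r.2.2
  set q0 : I := ⟨(1 + r) / 2, by linarith, by linarith⟩ with hq0def
  have hq0 : (q0 : ℝ) = (1 + r) / 2 := rfl
  have hq0' : 0 < q0 := show (0 : ℝ) < q0 by rw [hq0]; linarith
  -- step 1
  have c0 : CompactSpace (NS A c i0 j0 q0) :=
    isCompact_iff_compactSpace.1 (isCompact_NS hA hc hadj0.conti hadj0.contj q0)
  have c1 : CompactSpace (NS A c i j r) :=
    isCompact_iff_compactSpace.1 (isCompact_NS hA hc hadj.conti hadj.contj r)
  have hDN : IsCPM (fun x y : NS A c i j r => D x.1 y.1) :=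
    ⟨fun x => hD.self _, fun x y => hD.symm _ _, fun x y z => hD.tri _ _ _,
      hD.cont.comp ((continuous_subtype_val.comp continuous_fst).prodMk
        (continuous_subtype_val.comp continuous_snd))⟩
  have hthr : Continuous (thr d r q0 hr hq0) :=
    (hthp.comp continuous_subtype_val).subtype_mk _
  have hmul : ∀ t : I, r * t ≤ r := fun t => by
    have := mul_le_mul_of_nonneg_left t.2.2 hr'.le
    rw [mul_one] at this
    exact this
  have step1 : Soft n (fun x y : NS A c i j r => D x.1 y.1) (0 + eta + ep + 2 * (chi + ep))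
      (thr d r q0 hr hq0) := by
    refine part1 h4 h5 h6 h7 h8 n (fun a : A => ph0 a)
      (continuousOn_iff_continuous_domRestrict.1 hadj0.contph) (fun a : A => ph a)
      (continuousOn_iff_continuous_domRestrict.1 hadj.contph) _ _ (adjNS hc hadj0 q0 hq0') _ _
      (adjNS hc hadj r hr) th hth _ hthr ?_ _ hDN eta ep (chi + ep) ?_ hep0.le ?_ (by linarith)
      hsoft
    · intro a0
      exact Subtype.ext (ht1 a0)
    · intro a t t'
      exact hrad a _ _ (hmul t) (hmul t')
    · intro a s t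
      show D (thp (j0 (c (a, q0 * s)))) (thp (j0 (c (a, q0 * t)))) ≤ chi + ep
      have hval : ∀ v : I, (∃ s' : I, thp (j0 (c (a, q0 * v))) = i (Ga (s', a))) ∨
          ∃ s' : I, s' ≤ r ∧ thp (j0 (c (a, q0 * v))) = j (c (a, s')) := by
        intro v
        by_cases hv : ((q0 * v : I) : ℝ) ≤ 1 / 2
        · exact Or.inl ⟨_, ht2 a (q0 * v) ⟨2 * (q0 * v : I), by
            have := (q0 * v).2.1
            linarith, by linarith⟩ hv rfl⟩
        · rw [not_le] at hv
          have h11 := (q0 * v).2.2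
          refine Or.inr ⟨⟨2 * (q0 * v : I) - 1, by linarith, by linarith⟩, ?_,
            ht3 a (q0 * v) _ hv.le rfl⟩
          show 2 * ((q0 * v : I) : ℝ) - 1 ≤ r
          have h12 : ((q0 * v : I) : ℝ) ≤ q0 := by
            have := mul_le_mul_of_nonneg_left v.2.2 q0.2.1
            rw [mul_one] at this
            exact this
          rw [hq0] at h12
          linarith
      have hmid : i (Ga (1, a)) = j (c (a, 0)) := by
        rw [hGa1, hc.zero]
        exact (hadj.agree _ a.2).symm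
      rcases hval s with ⟨s', hs⟩ | ⟨s', hs', hs⟩ <;> rcases hval t with ⟨t', ht⟩ | ⟨t', ht', ht⟩
      · rw [hs, ht]
        have := htr s' t' a
        linarith
      · rw [hs, ht]
        have h11 := htr s' 1 a
        have h12 := hD.tri (i (Ga (s', a))) (i (Ga (1, a))) (j (c (a, t')))
        have h13 := hrad a 0 t' hr.le ht'
        rw [← hmid] at h13
        linarith
      · rw [hs, ht]
        have h11 := htr 1 t' a
        have h12 := hD.tri (j (c (a, s'))) (i (Ga (1, a))) (i (Ga (t', a)))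
        have h13 := hrad a s' 0 hs' hr.le
        rw [← hmid] at h13
        linarith
      · rw [hs, ht]
        have := hrad a s' t' hs' ht'
        linarith
  have hlt : 0 + eta + ep + 2 * (chi + ep) < e2 := by
    rw [hep]
    linarith
  -- the subdivision
  obtain ⟨F, hF, hFd, hFN⟩ := outer d r hr
  have hicl : IsClosed (range i) := (isCompact_range hadj.conti).isClosed
  obtain ⟨de, hde, hth1⟩ := (hF.preimage hbe).isCompact.exists_thickening_subset_open
    (hicl.isOpen_compl.preimage hbe)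
    (fun x hx hx' => Set.disjoint_left.1 hFd hx hx')
  obtain ⟨N, hN⟩ := exists_nat_one_div_lt hde
  have hL : 1 ≤ N + 1 := by omega
  set L1 : Set (Cube m) := {x | ∃ k, x ∈ Qb m (N + 1) k ∧ (Qb m (N + 1) k ∩ be ⁻¹' F).Nonempty}
    with hL1
  set L2 : Set (Cube m) := {x | ∃ k, x ∈ Qb m (N + 1) k ∧ ¬ (Qb m (N + 1) k ∩ be ⁻¹' F).Nonempty}
    with hL2
  have hL1c : Cubical (N + 1) L1 := by
    rintro x ⟨k, hk, hk'⟩ y hy
    exact ⟨k, Qb_cubical _ _ _ x hk hy, hk'⟩
  have hL2c : Cubical (N + 1) L2 := by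
    rintro x ⟨k, hk, hk'⟩ y hy
    exact ⟨k, Qb_cubical _ _ _ x hk hy, hk'⟩
  have hbdc : Cubical (N + 1) (bd m) := (h3.2.2.1 m (N + 1) hL).1
  have hLu : L1 ∪ L2 = univ := by
    refine eq_univ_of_forall fun x => ?_
    by_cases hx : (Qb m (N + 1) (fun i => ⌊((N + 1 : ℕ) : ℝ) * (x i : ℝ)⌋) ∩ be ⁻¹' F).Nonempty
    · exact Or.inl ⟨_, Qb_mem _ _ _, hx⟩
    · exact Or.inr ⟨_, Qb_mem _ _ _, hx⟩
  have hL1out : ∀ x ∈ L1, be x ∉ range i := by
    rintro x ⟨k, hk, y, hy, hyF⟩
    refine hth1 (Metric.mem_thickening_iff.2 ⟨y, hyF, ?_⟩)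
    refine lt_of_le_of_lt (Qb_dist m (N + 1) hL k x y hk hy) ?_
    exact_mod_cast hN
  have hL2in : ∀ x ∈ L2, be x ∈ NS A c i j r := by
    rintro x ⟨k, hk, hk'⟩
    refine hFN _ fun hx => hk' ⟨x, hk, hx⟩
  have hL1cl : IsClosed L1 := h3.2.2.2.2.1 m (N + 1) L1 hL hL1c
  have hL2cl : IsClosed L2 := h3.2.2.2.2.1 m (N + 1) L2 hL hL2c
  have hbdcl : IsClosed (bd m) := h3.2.2.2.2.1 m (N + 1) (bd m) hL hbdc
  set S : Set (Cube m) := L2 ∩ (bd m ∪ L1) with hS
  have hSc : Cubical (N + 1) S :=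
    (h3.2.2.2.1 m (N + 1) _ _ hL2c (h3.2.2.2.1 m (N + 1) _ _ hbdc hL1c).1).2
  have hSL : S ⊆ L2 := inter_subset_left
  have hRC : RC (fun _ => True) S (List.range (m + 1)) L2 := by
    have h11 := h2 m (N + 1) L2 S (fun _ => True) hL hL2c hSc hSL (fun _ _ _ => trivial)
    have h12 := h11.1 m
    rwa [h11.2.2.1] at h12
  -- the inverse of thp outside C
  classical
  have hinv : ∃ inv : Z → Z0, (∀ z, z ∉ range i → thp (inv z) = z) ∧
      ContinuousOn inv (range i)ᶜ := by
    have hx0 : Z0 := i0 hne.some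
    refine ⟨fun z => if h : z ∉ range i then (surj_out d z h).choose else hx0, ?_, ?_⟩
    · intro z hz
      show thp (if h : z ∉ range i then (surj_out d z h).choose else hx0) = z
      rw [dif_pos hz]
      exact (surj_out d z hz).choose_spec
    · rw [continuousOn_iff_isClosed]
      intro K hK
      refine ⟨thp '' K, (hK.isCompact.image hthp).isClosed, ?_⟩
      ext z
      constructor
      · rintro ⟨hz, hz'⟩
        have hz'' : z ∉ range i := hz'
        refine ⟨⟨_, hz, ?_⟩, hz'⟩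
        show thp (if h : z ∉ range i then (surj_out d z h).choose else hx0) = z
        rw [dif_pos hz'']
        exact (surj_out d z hz'').choose_spec
      · rintro ⟨⟨x, hx, hxz⟩, hz'⟩
        have hz'' : z ∉ range i := hz'
        refine ⟨?_, hz'⟩
        rw [mem_preimage, dif_pos hz'']
        have h11 := (surj_out d z hz'').choose_spec
        have h12 : (surj_out d z hz'').choose = x :=
          inj_out d _ _ (h11.trans hxz.symm) (by rw [h11]; exact hz'')
        rw [h12]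
        exact hx
  obtain ⟨inv, hinv1, hinv2⟩ := hinv
  have hinvbe : ContinuousOn (fun x => inv (be x)) L1 :=
    hinv2.comp hbe.continuousOn (fun x hx => hL1out x hx)
  have hinval : ∀ x ∈ bd m, x ∈ L1 → inv (be x) = al x := by
    intro x hx hx1
    have h11 := hinv1 _ (hL1out x hx1)
    exact inj_out d _ _ (by rw [h11, hbeal x hx]) (by rw [h11]; exact hL1out x hx1)
  -- the lift over L2
  set alt : Cube m → Z0 := fun x => if x ∈ bd m then al x else inv (be x) with halt
  have halt1 : ∀ x ∈ bd m, alt x = al x := fun x hx => if_pos hx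
  have halt2 : ∀ x ∈ L1, alt x = inv (be x) := by
    intro x hx
    by_cases hb : x ∈ bd m
    · rw [halt1 x hb, hinval x hb hx]
    · exact if_neg hb
  have haltc : ContinuousOn alt (bd m ∪ L1) := by
    refine ContinuousOn.union_of_isClosed ?_ ?_ hbdcl hL1cl
    · exact hal.congr halt1
    · exact hinvbe.congr halt2
  have haltth : ∀ x ∈ bd m ∪ L1, thp (alt x) = be x := by
    rintro x (hx | hx)
    · rw [halt1 x hx, hbeal x hx]
    · rw [halt2 x hx, hinv1 _ (hL1out x hx)]
  have haltN : ∀ x ∈ S, alt x ∈ NS A c i0 j0 q0 := by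
    intro x hx
    rw [map_NS d r q0 hr hq0, haltth x hx.2]
    exact hL2in x hx.1
  have hN0 : Nonempty (NS A c i0 j0 q0) := ⟨⟨i0 hne.some, Or.inl ⟨_, rfl⟩⟩⟩
  have hN1 : Nonempty (NS A c i j r) := ⟨⟨i (th hne.some), Or.inl ⟨_, rfl⟩⟩⟩
  set beN : Cube m → NS A c i j r := fun x =>
    if h : be x ∈ NS A c i j r then ⟨be x, h⟩ else hN1.some with hbeN
  set alN : Cube m → NS A c i0 j0 q0 := fun x =>
    if h : alt x ∈ NS A c i0 j0 q0 then ⟨alt x, h⟩ else hN0.some with halN
  have hbeN1 : ∀ x ∈ L2, (beN x : Z) = be x := by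
    intro x hx
    rw [hbeN]
    simp only
    rw [dif_pos (hL2in x hx)]
  have halN1 : ∀ x ∈ S, (alN x : Z0) = alt x := by
    intro x hx
    rw [halN]
    simp only
    rw [dif_pos (haltN x hx)]
  have hbeNc : ContinuousOn beN L2 := by
    rw [Topology.IsInducing.subtypeVal.continuousOn_iff]
    exact hbe.continuousOn.congr hbeN1
  have halNc : ContinuousOn alN S := by
    rw [Topology.IsInducing.subtypeVal.continuousOn_iff]
    exact (haltc.mono inter_subset_right).congr halN1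
  obtain ⟨al2, G2, hal2c, hG2c, hal2S, hG2S, hG20, hG21, hG2D⟩ :=
    h1 (Cube m) (NS A c i0 j0 q0) (NS A c i j r) (fun _ => True) S L2 (List.range (m + 1)) n
      (fun x y : NS A c i j r => D x.1 y.1) (0 + eta + ep + 2 * (chi + ep)) (thr d r q0 hr hq0)
      hRC (by
        intro k hk
        rw [List.mem_range] at hk
        omega) hDN hthr hN0 (by linarith) step1 e2 hlt 0 beN alN (fun p => beN p.2) le_rfl
      hbeNc halNc
      ((hbeNc.mono hSL).comp continuousOn_snd (fun p hp => hp.2))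
      (by
        intro x hx
        apply Subtype.ext
        show (beN x : Z) = thp (alN x).1
        rw [hbeN1 x hx.1, halN1 x hx, haltth x hx.2])
      (fun x _ => rfl)
      (fun t x _ => by
        show D (beN x : Z) (beN x : Z) ≤ 0
        rw [hD.self])
  -- assembly
  refine ⟨fun x => if x ∈ L2 then (al2 x : Z0) else inv (be x),
    fun p => if p.2 ∈ L2 then (G2 p : Z) else be p.2, ?_, ?_, ?_, ?_, ?_, ?_, ?_⟩
  · refine glue hL1cl hL2cl hLu ?_ ?_
    · refine hinvbe.congr fun x hx => ?_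
      by_cases h : x ∈ L2
      · rw [if_pos h, hal2S x ⟨h, Or.inr hx⟩, halN1 x ⟨h, Or.inr hx⟩, halt2 x hx]
      · rw [if_neg h]
    · refine (continuous_subtype_val.comp_continuousOn hal2c).congr fun x hx => ?_
      rw [if_pos hx]
      rfl
  · refine glue (L1 := univ ×ˢ L1) (L2 := univ ×ˢ L2) (isClosed_univ.prod hL1cl)
      (isClosed_univ.prod hL2cl) ?_ ?_ ?_
    · rw [← Set.prod_union, hLu, univ_prod_univ]
    · refine (hbe.comp continuous_snd).continuousOn.congr fun p hp => ?_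
      by_cases h : p.2 ∈ L2
      · rw [if_pos h]
        have h11 := hG2S p.1 p.2 ⟨h, Or.inr hp.2⟩
        rw [show (p.1, p.2) = p from rfl] at h11
        rw [h11]
        exact hbeN1 _ h
      · rw [if_neg h]
        rfl
    · refine (continuous_subtype_val.comp_continuousOn hG2c).congr fun p hp => ?_
      rw [if_pos hp.2]
      rfl
  · intro x hx
    show (if x ∈ L2 then (al2 x : Z0) else inv (be x)) = al x
    by_cases h : x ∈ L2
    · rw [if_pos h, hal2S x ⟨h, Or.inl hx⟩, halN1 x ⟨h, Or.inl hx⟩, halt1 x hx]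
    · rw [if_neg h]
      have hx1 : x ∈ L1 := by
        have := hLu.symm ▸ mem_univ x
        exact this.resolve_right h
      exact hinval x hx hx1
  · intro t x hx
    by_cases h : x ∈ L2
    · show (if x ∈ L2 then (G2 (t, x) : Z) else be x) = be x
      rw [if_pos h, hG2S t x ⟨h, Or.inl hx⟩]
      exact hbeN1 _ h
    · exact if_neg h
  · intro x
    show (if x ∈ L2 then (G2 (0, x) : Z) else be x) = thp (if x ∈ L2 then (al2 x : Z0) else inv (be x))
    by_cases h : x ∈ L2
    · rw [if_pos h, if_pos h, hG20 x h]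
      rfl
    · rw [if_neg h, if_neg h]
      have hx1 : x ∈ L1 := by
        have := hLu.symm ▸ mem_univ x
        exact this.resolve_right h
      exact (hinv1 _ (hL1out x hx1)).symm
  · intro x
    show (if x ∈ L2 then (G2 (1, x) : Z) else be x) = be x
    by_cases h : x ∈ L2
    · rw [if_pos h, hG21 x h]
      exact hbeN1 _ h
    · rw [if_neg h]
  · intro t x
    show D (if x ∈ L2 then (G2 (t, x) : Z) else be x) (be x) ≤ eta'
    have hpos : 0 ≤ eta' := by
      rw [← he2']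
      positivity
    by_cases h : x ∈ L2
    · rw [if_pos h]
      have h11 := hG2D t x h
      have h12 : D (G2 (t, x) : Z) (beN x : Z) ≤ 0 + ((List.range (m + 1)).length : ℝ) * e2 := h11
      rw [hbeN1 x h, List.length_range] at h12
      refine h12.trans ?_
      rw [zero_add, ← he2']
      have h13 : ((m + 1 : ℕ) : ℝ) ≤ n + 1 := by exact_mod_cast Nat.succ_le_succ hm
      exact mul_le_mul_of_nonneg_right h13 he2pos.le
    · rw [if_neg h, hD.self]
      exact hpos

end M202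

end

section

/-!
MP_202a65_gt, item POmap (helper61): existence of the pushout map.
-/

set_option linter.unusedSectionVars false

open Set Topology unitInterval

namespace M202

/-- the doubled parameter, projected to I -/
noncomputable def pomapDbl (s : I) : I := projIcc 0 1 zero_le_one (2 * (s : ℝ))

/-- the parameter 2 s - 1, projected to I -/
noncomputable def pomapDbm (s : I) : I := projIcc 0 1 zero_le_one (2 * (s : ℝ) - 1)

theorem pomapDbl_eq {t s : I} (h : (s : ℝ) = 2 * t) : pomapDbl t = s := by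
  unfold pomapDbl
  rw [← h]
  exact projIcc_val _ s

theorem pomapDbm_eq {t s : I} (h : (s : ℝ) = 2 * t - 1) : pomapDbm t = s := by
  unfold pomapDbm
  rw [← h]
  exact projIcc_val _ s

theorem pomapDbl_cont : Continuous pomapDbl :=
  continuous_projIcc.comp (continuous_const.mul continuous_subtype_val)

theorem pomapDbm_cont : Continuous pomapDbm :=
  continuous_projIcc.comp ((continuous_const.mul continuous_subtype_val).sub continuous_const)

section

variable {C T Z : Type} [TopologicalSpace C] [TopologicalSpace T] [CompactSpace T] [T2Space T]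
  [TopologicalSpace Z]

open Classical in
/-- the map on the collar -/
noncomputable def pomapG0 {A : Set T} (c : A × I → T) (i : C → Z) (j : T → Z) (Ga : I × A → C)
    (p : A × I) : Z :=
  if (p.2 : ℝ) ≤ 1 / 2 then i (Ga (pomapDbl p.2, p.1)) else j (c (p.1, pomapDbm p.2))

open Classical in
/-- the map on T -/
noncomputable def pomapG {A : Set T} (c : A × I → T) (i : C → Z) (j : T → Z) (Ga : I × A → C)
    (t : T) : Z :=
  if h : t ∈ range c then pomapG0 c i j Ga h.choose else j t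

theorem pomapG0_lo {A : Set T} {c : A × I → T} {i : C → Z} {j : T → Z} {Ga : I × A → C}
    {a : A} {t s : I} (ht : (t : ℝ) ≤ 1 / 2) (hs : (s : ℝ) = 2 * t) :
    pomapG0 c i j Ga (a, t) = i (Ga (s, a)) := by
  unfold pomapG0
  rw [if_pos (by simpa using ht), pomapDbl_eq hs]

theorem pomapG0_hi {A : Set T} {c : A × I → T} {ph : T → C} {i : C → Z} {j : T → Z}
    {Ga : I × A → C} (hc : IsCollar A c) (hadj : IsAdj A ph i j) (h1 : ∀ a : A, Ga (1, a) = ph a)
    {a : A} {t s : I} (ht : 1 / 2 ≤ (t : ℝ)) (hs : (s : ℝ) = 2 * t - 1) :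
    pomapG0 c i j Ga (a, t) = j (c (a, s)) := by
  by_cases h : (t : ℝ) ≤ 1 / 2
  · have hte : (t : ℝ) = 1 / 2 := le_antisymm h ht
    have h1' : ((1 : I) : ℝ) = 2 * t := by rw [hte]; norm_num
    rw [pomapG0_lo h h1', h1 a]
    have hs0 : s = 0 := by
      apply Subtype.ext
      rw [hs, hte]
      norm_num
    rw [hs0, hc.zero a]
    exact (hadj.agree a.1 a.2).symm
  · unfold pomapG0
    rw [if_neg (by simpa using h), pomapDbm_eq hs]

theorem pomapG0_cont {A : Set T} {c : A × I → T} {ph : T → C} {i : C → Z} {j : T → Z}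
    {Ga : I × A → C} (hc : IsCollar A c) (hadj : IsAdj A ph i j) (hGa : Continuous Ga)
    (h1 : ∀ a : A, Ga (1, a) = ph a) : Continuous (pomapG0 c i j Ga) := by
  unfold pomapG0
  refine Continuous.if_le ?_ ?_ (continuous_subtype_val.comp continuous_snd) continuous_const ?_
  · exact hadj.conti.comp (hGa.comp ((pomapDbl_cont.comp continuous_snd).prodMk continuous_fst))
  · exact hadj.contj.comp (hc.cont.comp (continuous_fst.prodMk (pomapDbm_cont.comp continuous_snd)))
  · rintro ⟨a, t⟩ ht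
    have ht' : (t : ℝ) = 1 / 2 := ht
    have e1 : pomapDbl t = 1 := pomapDbl_eq (by rw [ht']; norm_num)
    have e2 : pomapDbm t = 0 := pomapDbm_eq (by rw [ht']; norm_num)
    simp only [e1, e2]
    rw [h1 a, hc.zero a]
    exact (hadj.agree a.1 a.2).symm

theorem pomapG_c {A : Set T} {c : A × I → T} {i : C → Z} {j : T → Z}
    {Ga : I × A → C} (hc : IsCollar A c) (p : A × I) :
    pomapG c i j Ga (c p) = pomapG0 c i j Ga p := by
  unfold pomapG
  have hm : c p ∈ range c := mem_range_self p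
  rw [dif_pos hm]
  have := hm.choose_spec
  rw [hc.inj this]

theorem pomapG_off {A : Set T} {c : A × I → T} {i : C → Z} {j : T → Z}
    {Ga : I × A → C} {t : T} (ht : t ∉ range c) :
    pomapG c i j Ga t = j t := by
  unfold pomapG
  rw [dif_neg ht]

theorem pomapG_cont {A : Set T} {c : A × I → T} {ph : T → C} {i : C → Z} {j : T → Z}
    {Ga : I × A → C} (hA : IsClosed A) (hc : IsCollar A c) (hadj : IsAdj A ph i j)
    (hGa : Continuous Ga) (h1 : ∀ a : A, Ga (1, a) = ph a) : Continuous (pomapG c i j Ga) := by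
  have : CompactSpace A := isCompact_iff_compactSpace.mp hA.isCompact
  have hce : IsClosedEmbedding c := hc.cont.isClosedEmbedding hc.inj
  rw [continuous_iff_isClosed]
  intro K hK
  have e : pomapG c i j Ga ⁻¹' K =
      c '' (pomapG0 c i j Ga ⁻¹' K) ∪ (j ⁻¹' K ∩ (c '' {p | p.2 < 1})ᶜ) := by
    ext t
    constructor
    · intro ht
      by_cases hr : t ∈ range c
      · left
        obtain ⟨p, rfl⟩ := hr
        refine ⟨p, ?_, rfl⟩
        have ht' : pomapG c i j Ga (c p) ∈ K := ht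
        rw [pomapG_c hc] at ht'
        exact ht'
      · right
        have ht' : pomapG c i j Ga t ∈ K := ht
        rw [pomapG_off hr] at ht'
        refine ⟨ht', ?_⟩
        rintro ⟨p, -, rfl⟩
        exact hr (mem_range_self p)
    · rintro (⟨p, hp, rfl⟩ | ⟨ht, hn⟩)
      · show pomapG c i j Ga (c p) ∈ K
        rw [pomapG_c hc]
        exact hp
      · show pomapG c i j Ga t ∈ K
        by_cases hr : t ∈ range c
        · obtain ⟨⟨a, s⟩, rfl⟩ := hr
          have hs : s = 1 := by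
            by_contra hs
            exact hn ⟨(a, s), lt_of_le_of_ne (show s ≤ 1 from s.2.2) hs, rfl⟩
          subst hs
          rw [pomapG_c hc, pomapG0_hi hc hadj h1 (s := 1) (by norm_num) (by norm_num)]
          exact ht
        · rw [pomapG_off hr]
          exact ht
  rw [e]
  refine (hce.isClosedMap _ (hK.preimage (pomapG0_cont hc hadj hGa h1))).union ?_
  exact (hK.preimage hadj.contj).inter hc.isOpen.isClosed_compl

end

theorem pr_POmap (h : S_AdjDesc) : S_POmap := by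
  intro A0 C T Z0 Z _ _ _ _ _ _ _ _ _ _ _ _ _ _ _ A c ph0 ph i0 j0 i j th Ga hA hc hadj0 hadj hth
    hGa h0 h1
  have hg := pomapG_cont (c := c) (i := i) (j := j) hA hc hadj hGa h1
  obtain ⟨thp, hthp, hi, hj⟩ := (h A0 T Z0 Z A ph0 i0 j0 hadj0).1 (fun a0 => i (th a0))
    (pomapG c i j Ga) (hadj.conti.comp hth) hg (by
      intro t ht
      have e0 : t = c (⟨t, ht⟩, 0) := (hc.zero ⟨t, ht⟩).symm
      conv_lhs => rw [e0]
      rw [pomapG_c hc, pomapG0_lo (s := 0) (by norm_num) (by norm_num), h0 ⟨t, ht⟩])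
  refine ⟨thp, hthp, hi, ?_, ?_, ?_⟩
  · intro a t s ht hs
    rw [hj, pomapG_c hc, pomapG0_lo ht hs]
  · intro a t s ht hs
    rw [hj, pomapG_c hc, pomapG0_hi hc hadj h1 ht hs]
  · intro t ht
    rw [hj, pomapG_off ht]

end M202

end

section

/-!
MP_202a65_gt: perturbation along a homotopy with short tracks
-/

set_option autoImplicit false

open Set Topology unitInterval

namespace M202

/-- clamp to the interval -/
noncomputable def Pert_c (r : ℝ) : I := Set.projIcc 0 1 zero_le_one r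

theorem Pert_c_cont : Continuous Pert_c := continuous_projIcc (h := zero_le_one)

theorem Pert_c_one : Pert_c 1 = 1 := by
  unfold Pert_c
  apply Subtype.ext
  rw [Set.coe_projIcc]
  simp

theorem Pert_c_zero : Pert_c 0 = 0 := by
  unfold Pert_c
  apply Subtype.ext
  rw [Set.coe_projIcc]
  simp

theorem pr_Pert (h1 : S_SoftOfRel) (_h2 : S_TL) (h3 : S_TrackFix) : S_Pert := by
  intro n A B _ _ D eta chi th0 th1 Th hD hTh hT0 hT1 hT hS
  have hth1 : Continuous th1 := by
    have : th1 = fun a => Th (1, a) := by funext a; rw [hT1]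
    rw [this]
    exact hTh.comp (by fun_prop)
  refine h1 n A B D (eta + 2 * chi) th1 hD hth1 ?_
  intro m hm eta' heta be al hbe hal hra
  have hchi : 0 ≤ chi := by
    have := hT 0 0 (al (ctr m))
    rwa [hD.self] at this
  obtain ⟨e, he1, he2⟩ := exists_between (show eta < eta' - 2 * chi by linarith)
  obtain ⟨al', G, a1, a2, a3, a4, a5, a6, a7⟩ := hS m hm e he1 chi be al
    (fun p => Th (p.1, al p.2)) hchi hbe.continuousOn hal
    (by
      refine hTh.comp_continuousOn ?_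
      refine continuousOn_fst.prodMk (hal.comp continuousOn_snd ?_)
      rintro ⟨t, x⟩ ⟨_, hx⟩
      exact hx)
    (fun x hx => hT0 _) (fun x hx => by
      show Th (1, al x) = be x
      rw [hT1, hra x hx])
    (fun t x hx => by
      show D (Th (t, al x)) (be x) ≤ chi
      rw [← hra x hx, ← hT1]
      exact hT _ _ _)
  rw [continuousOn_univ] at a1
  rw [univ_prod_univ, continuousOn_univ] at a2
  set G2 : I × Cube m → B := fun p => if (p.1 : ℝ) ≤ 1 / 2 then
    Th (Pert_c (1 - 2 * (p.1 : ℝ)), al' p.2) else G (Pert_c (2 * (p.1 : ℝ) - 1), p.2) with hG2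
  have hG2c : Continuous G2 := by
    refine Continuous.if_le ?_ ?_ (by fun_prop) continuous_const ?_
    · exact hTh.comp ((Pert_c_cont.comp (by fun_prop)).prodMk (a1.comp continuous_snd))
    · exact a2.comp ((Pert_c_cont.comp (by fun_prop)).prodMk continuous_snd)
    · intro p hp
      have e1 : 1 - 2 * (p.1 : ℝ) = 0 := by rw [hp]; norm_num
      have e2 : 2 * (p.1 : ℝ) - 1 = 0 := by rw [hp]; norm_num
      rw [e1, e2, Pert_c_zero, hT0, a5 _ (mem_univ _)]
  have hG20 : ∀ x, G2 (0, x) = th1 (al' x) := by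
    intro x
    have : ((0 : I) : ℝ) = 0 := rfl
    simp only [hG2, this]
    rw [if_pos (by norm_num), mul_zero, sub_zero, Pert_c_one, hT1]
  have hG21 : ∀ x, G2 (1, x) = be x := by
    intro x
    have : ((1 : I) : ℝ) = 1 := rfl
    simp only [hG2, this]
    rw [if_neg (by norm_num), show (2 : ℝ) * 1 - 1 = 1 by norm_num, Pert_c_one,
      a6 _ (mem_univ _)]
  set La : I × (I × Cube m) → B := fun p =>
    Th (Pert_c (1 - (1 - (p.1 : ℝ)) * (1 - |1 - 2 * (p.2.1 : ℝ)|)), al p.2.2) with hLa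
  have hpos : 0 ≤ chi + e := by
    have := a7 1 (ctr m) (mem_univ _)
    rwa [a6 _ (mem_univ _), hD.self] at this
  obtain ⟨G3, b1, b2, b3, b4, b5⟩ := h3 m B D G2 La (e + 2 * chi) (eta' - 2 * chi - e) hD hG2c
    (by
      refine hTh.comp_continuousOn ?_
      refine ((Pert_c_cont.comp (by fun_prop)).continuousOn).prodMk
        (hal.comp (continuous_snd.comp continuous_snd).continuousOn ?_)
      intro p hp
      exact hp)
    (by
      intro t x hx
      show Th (Pert_c (1 - (1 - ((0 : I) : ℝ)) * (1 - |1 - 2 * (t : ℝ)|)), al x) = G2 (t, x)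
      have h0 : ((0 : I) : ℝ) = 0 := rfl
      have e1 : 1 - (1 - ((0 : I) : ℝ)) * (1 - |1 - 2 * (t : ℝ)|) = |1 - 2 * (t : ℝ)| := by
        rw [h0]; ring
      rw [e1]
      simp only [hG2]
      by_cases ht : (t : ℝ) ≤ 1 / 2
      · rw [if_pos ht, abs_of_nonneg (by linarith), a3 x hx]
      · rw [if_neg ht, a4 _ x hx, abs_of_nonpos (by linarith), neg_sub])
    (by
      intro u x hx
      rw [hG20]
      show Th (Pert_c (1 - (1 - (u : ℝ)) * (1 - |1 - 2 * ((0 : I) : ℝ)|)), al x) = _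
      have h0 : ((0 : I) : ℝ) = 0 := rfl
      rw [h0, mul_zero, sub_zero, abs_one, sub_self, mul_zero, sub_zero, Pert_c_one, hT1,
        a3 x hx])
    (by
      intro u x hx
      rw [hG21]
      show Th (Pert_c (1 - (1 - (u : ℝ)) * (1 - |1 - 2 * ((1 : I) : ℝ)|)), al x) = _
      have h0 : ((1 : I) : ℝ) = 1 := rfl
      rw [h0, show (1 : ℝ) - 2 * 1 = -1 by norm_num, abs_neg, abs_one, sub_self, mul_zero,
        sub_zero, Pert_c_one, hT1, hra x hx])
    (by
      intro t x
      rw [hG21]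
      simp only [hG2]
      by_cases ht : (t : ℝ) ≤ 1 / 2
      · rw [if_pos ht]
        refine (hD.tri _ (Th (0, al' x)) _).trans ?_
        have c1 := hT (Pert_c (1 - 2 * (t : ℝ))) 0 (al' x)
        have c2 := a7 0 x (mem_univ _)
        rw [a5 _ (mem_univ _), ← hT0] at c2
        linarith
      · rw [if_neg ht]
        have c2 := a7 (Pert_c (2 * (t : ℝ) - 1)) x (mem_univ _)
        linarith)
    (by
      intro u t x hx
      rw [hG21]
      show D (Th (_, al x)) (be x) ≤ _
      rw [← hra x hx, ← hT1]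
      refine (hT _ _ _).trans ?_
      linarith)
    (by linarith)
  refine ⟨al', G3, a1, b1, a3, ?_, ?_, ?_, ?_⟩
  · intro t x hx
    rw [b4 t x hx]
    show Th (Pert_c (1 - (1 - ((1 : I) : ℝ)) * (1 - |1 - 2 * (t : ℝ)|)), al x) = _
    have h0 : ((1 : I) : ℝ) = 1 := rfl
    rw [h0, sub_self, zero_mul, sub_zero, Pert_c_one, hT1, hra x hx]
  · intro x
    rw [b2, hG20]
  · intro x
    rw [b3, hG21]
  · intro t x
    have := b5 t x
    rw [hG21] at this
    linarith

end M202

end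

section

/-!
# Product with the identity
-/

open Set Topology unitInterval

namespace M202

theorem pr_ProdId (h0 : S_SupCPM) (h1 : S_SoftOfRel) : S_ProdId := by
  intro n A B W _ _ _ _ _ D eta th hD hth hS
  obtain ⟨hsup, hle⟩ := h0 B W D hD
  have hc : Continuous (fun p : A × W => (th p.1, p.2)) :=
    (hth.comp continuous_fst).prodMk continuous_snd
  refine h1 n (A × W) (B × W) D eta (fun p : A × W => (th p.1, p.2)) hD hc ?_
  intro m hm eta' heta' be al hbe hal hbd
  obtain ⟨al1, G1, ha1, hG1, ha2, hG2, hG3, hG4, hG5⟩ :=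
    hS m hm eta' heta' 0 (fun x => (be x).1) (fun x => (al x).1) (fun q => (be q.2).1) le_rfl
      (continuous_fst.comp hbe).continuousOn (continuous_fst.comp_continuousOn hal)
      (continuous_fst.comp (hbe.comp continuous_snd)).continuousOn
      (by
        intro x hx
        rw [← hbd x hx])
      (by
        intro x _
        rfl)
      (by
        intro t x _
        exact (hsup.self _).le)
  have ha1' : Continuous al1 := continuousOn_univ.1 ha1
  have hG1' : Continuous G1 := by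
    rw [univ_prod_univ] at hG1
    exact continuousOn_univ.1 hG1
  have hbe2 : Continuous fun x => (be x).2 := continuous_snd.comp hbe
  refine ⟨fun x => (al1 x, (be x).2), fun q => (G1 q, (be q.2).2), ha1'.prodMk hbe2,
    hG1'.prodMk (hbe2.comp continuous_snd), ?_, ?_, ?_, ?_, ?_⟩
  · intro x hx
    have h2 := hbd x hx
    apply Prod.ext
    · exact ha2 x hx
    · show (be x).2 = (al x).2
      rw [← h2]
  · intro t x hx
    apply Prod.ext
    · exact hG2 t x hx
    · rfl
  · intro x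
    apply Prod.ext
    · exact hG3 x (mem_univ x)
    · rfl
  · intro x
    apply Prod.ext
    · exact hG4 x (mem_univ x)
    · rfl
  · intro t x
    have h2 := hG5 t x (mem_univ x)
    rw [zero_add] at h2
    exact (hle (G1 (t, x)) (be x).1 (be x).2).trans h2

end M202

end

section

/-!
MP_202a65_gt, item Push: maps of low dimensional compacta into C with k-cells attached can be
pushed into C. Straight line homotopy in the cells towards the radial projection of a perturbed
map which misses the centre.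
-/

open Set Topology unitInterval

namespace M202

/-- coordinates with respect to the centre -/
noncomputable def pushH {k : ℕ} (y : Cube k) : Fin k → ℝ := fun i => (y i : ℝ) - 1 / 2

theorem pushH_cont {k : ℕ} : Continuous (pushH : Cube k → (Fin k → ℝ)) := by
  refine continuous_pi fun i => ?_
  exact (continuous_subtype_val.comp (continuous_apply i)).sub continuous_const

theorem pushH_norm {k : ℕ} (y : Cube k) : ‖pushH y‖ ≤ 1 / 2 := by
  rw [pi_norm_le_iff_of_nonneg (by norm_num)]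
  intro i
  have h0 := (y i).2.1
  have h1 := (y i).2.2
  rw [Real.norm_eq_abs, abs_le]
  constructor <;> simp only [pushH] <;> linarith

theorem pushH_inj {k : ℕ} {y z : Cube k} (h : pushH y = pushH z) : y = z := by
  funext i
  have := congrFun h i
  simp only [pushH] at this
  exact Subtype.ext (by linarith)

theorem pushH_bd {k : ℕ} {y : Cube k} (hy : y ∈ bd k) : ‖pushH y‖ = 1 / 2 := by
  refine le_antisymm (pushH_norm y) ?_
  obtain ⟨i, hi⟩ := hy
  refine le_trans ?_ (norm_le_pi_norm (pushH y) i)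
  rw [Real.norm_eq_abs]
  rcases hi with hi | hi <;> simp only [pushH, hi] <;> norm_num

theorem pushH_bd' {k : ℕ} {y : Cube k} (hy : ‖pushH y‖ ≤ 3 / 8) : y ∉ bd k := by
  intro h
  rw [pushH_bd h] at hy
  norm_num at hy

/-- cut off function -/
noncomputable def pushPhi (r : ℝ) : ℝ := max 0 (min 1 (3 - 8 * r))

theorem pushPhi_cont : Continuous pushPhi := by
  unfold pushPhi
  fun_prop

theorem pushPhi_nonneg (r : ℝ) : 0 ≤ pushPhi r := le_max_left _ _

theorem pushPhi_le (r : ℝ) : pushPhi r ≤ 1 := max_le (by norm_num) (min_le_left _ _)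

theorem pushPhi_one {r : ℝ} (h : r ≤ 1 / 4) : pushPhi r = 1 := by
  unfold pushPhi
  rw [min_eq_left (by linarith)]
  norm_num

theorem pushPhi_zero {r : ℝ} (h : 3 / 8 ≤ r) : pushPhi r = 0 := by
  unfold pushPhi
  apply max_eq_left
  exact le_trans (min_le_right _ _) (by linarith)

/-- perturbed vector -/
noncomputable def pushV {k : ℕ} (g : Fin k → ℝ) (y : Cube k) : Fin k → ℝ :=
  pushH y + pushPhi ‖pushH y‖ • (g - pushH y)

theorem pushV_cont {k : ℕ} : Continuous (fun p : (Fin k → ℝ) × Cube k => pushV p.1 p.2) := by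
  unfold pushV
  have h : Continuous (fun p : (Fin k → ℝ) × Cube k => pushH p.2) := pushH_cont.comp continuous_snd
  exact h.add ((pushPhi_cont.comp h.norm).smul (continuous_fst.sub h))

theorem pushV_far {k : ℕ} (g : Fin k → ℝ) {y : Cube k} (h : 3 / 8 ≤ ‖pushH y‖) :
    pushV g y = pushH y := by
  unfold pushV
  rw [pushPhi_zero h, zero_smul, add_zero]

theorem pushV_ne {k : ℕ} (g : Fin k → ℝ) (y : Cube k)
    (h : ‖pushH y‖ ≤ 3 / 8 → g ≠ 0 ∧ dist g (pushH y) ≤ 1 / 32) : pushV g y ≠ 0 := by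
  by_cases h1 : ‖pushH y‖ ≤ 3 / 8
  · obtain ⟨hg, hd⟩ := h h1
    by_cases h2 : ‖pushH y‖ ≤ 1 / 4
    · unfold pushV
      rw [pushPhi_one h2, one_smul]
      simpa using hg
    · push Not at h2
      intro h0
      have h3 : pushH y = - (pushPhi ‖pushH y‖ • (g - pushH y)) := by
        unfold pushV at h0
        exact eq_neg_of_add_eq_zero_left h0
      have h4 : ‖pushH y‖ ≤ 1 / 32 := by
        calc ‖pushH y‖ = ‖pushPhi ‖pushH y‖ • (g - pushH y)‖ := by
              conv_lhs => rw [h3]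
              rw [norm_neg]
          _ = pushPhi ‖pushH y‖ * ‖g - pushH y‖ := by
              rw [norm_smul, Real.norm_eq_abs, abs_of_nonneg (pushPhi_nonneg _)]
          _ ≤ 1 * ‖g - pushH y‖ :=
              mul_le_mul_of_nonneg_right (pushPhi_le _) (norm_nonneg _)
          _ ≤ 1 / 32 := by rw [one_mul, ← dist_eq_norm]; exact hd
      linarith
  · push Not at h1
    rw [pushV_far g h1.le]
    intro h0
    rw [h0, norm_zero] at h1
    norm_num at h1

/-- the moving point -/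
noncomputable def pushP {k : ℕ} (t : ℝ) (g : Fin k → ℝ) (y : Cube k) : Cube k := fun i =>
  projIcc 0 1 zero_le_one
    (1 / 2 + (1 - t) * pushH y i + t * (pushV g y i / (2 * ‖pushV g y‖)))

theorem pushP_zero {k : ℕ} (g : Fin k → ℝ) (y : Cube k) : pushP 0 g y = y := by
  funext i
  unfold pushP
  have : (1 / 2 + (1 - 0) * pushH y i + 0 * (pushV g y i / (2 * ‖pushV g y‖)) : ℝ) = (y i : ℝ) := by
    simp only [pushH]; ring
  rw [this]
  exact projIcc_val zero_le_one (y i)

theorem pushP_one {k : ℕ} (g : Fin k → ℝ) (y : Cube k) (h : pushV g y ≠ 0) :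
    pushP 1 g y ∈ bd k := by
  have hk : Nonempty (Fin k) := by
    by_contra hk
    rw [not_nonempty_iff] at hk
    exact h (Subsingleton.elim _ _)
  obtain ⟨i, hi⟩ : ∃ i, ‖pushV g y i‖ = ‖pushV g y‖ := by
    obtain ⟨i, _, hi⟩ := Finset.exists_mem_eq_sup' (Finset.univ_nonempty (α := Fin k))
      (fun i => ‖pushV g y i‖)
    refine ⟨i, le_antisymm (norm_le_pi_norm _ i) ?_⟩
    rw [pi_norm_le_iff_of_nonneg (norm_nonneg _)]
    intro j
    rw [← hi]
    exact Finset.le_sup' (fun i => ‖pushV g y i‖) (Finset.mem_univ j)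
  have hn : 0 < ‖pushV g y‖ := norm_pos_iff.mpr h
  refine ⟨i, ?_⟩
  rw [Real.norm_eq_abs] at hi
  rcases abs_choice (pushV g y i) with ha | ha
  · right
    unfold pushP
    have : (1 / 2 + (1 - 1) * pushH y i + 1 * (pushV g y i / (2 * ‖pushV g y‖)) : ℝ) = 1 := by
      rw [← hi, ha]
      have : pushV g y i ≠ 0 := by
        intro h0; rw [h0, abs_zero] at hi; linarith
      field_simp
      ring
    rw [this]
    exact projIcc_right (zero_le_one (α := ℝ))
  · left
    unfold pushP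
    have : (1 / 2 + (1 - 1) * pushH y i + 1 * (pushV g y i / (2 * ‖pushV g y‖)) : ℝ) = 0 := by
      rw [← hi, ha]
      have : pushV g y i ≠ 0 := by
        intro h0; rw [h0, abs_zero] at hi; linarith
      field_simp
      ring
    rw [this]
    exact projIcc_left (zero_le_one (α := ℝ))

theorem pushP_bd {k : ℕ} (t : ℝ) (g : Fin k → ℝ) {y : Cube k} (h : y ∈ bd k) :
    pushP t g y = y := by
  funext i
  have hn := pushH_bd h
  unfold pushP
  rw [pushV_far g (by rw [hn]; norm_num), hn]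
  have : (1 / 2 + (1 - t) * pushH y i + t * (pushH y i / (2 * (1 / 2))) : ℝ) = (y i : ℝ) := by
    simp only [pushH]; ring
  rw [this]
  exact projIcc_val zero_le_one (y i)

theorem pushP_contOn {k : ℕ} {X : Type} [TopologicalSpace X] (Z : Set X) (t : X → ℝ)
    (g : X → (Fin k → ℝ)) (y : X → Cube k) (ht : Continuous t) (hg : Continuous g)
    (hy : Continuous y) (hZ : ∀ x ∈ Z, pushV (g x) (y x) ≠ 0) :
    ContinuousOn (fun x => pushP (t x) (g x) (y x)) Z := by
  have hH : Continuous (fun x => pushH (y x)) := pushH_cont.comp hy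
  have hV : Continuous (fun x => pushV (g x) (y x)) := pushV_cont.comp (hg.prodMk hy)
  refine continuousOn_pi.mpr fun i => ?_
  refine continuous_projIcc.comp_continuousOn ?_
  have h1 : Continuous (fun x => pushH (y x) i) := (continuous_apply i).comp hH
  have h2 : Continuous (fun x => pushV (g x) (y x) i) := (continuous_apply i).comp hV
  refine ContinuousOn.add ?_ (ContinuousOn.mul ht.continuousOn (ContinuousOn.div h2.continuousOn ?_ ?_))
  · exact (continuous_const.add ((continuous_const.sub ht).mul h1)).continuousOn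
  · exact (continuous_const.mul hV.norm).continuousOn
  · intro x hx
    have := norm_pos_iff.mpr (hZ x hx)
    positivity

theorem pr_Push (hGP : S_GP1) : S_Push := by
  intro R _ _ _ C C1 k N e m S F hA hS hd hF hFC
  classical
  -- the balls of radius 3/8
  set B : Set (Cube k) := {y | ‖pushH y‖ ≤ 3 / 8} with hB
  have hBc : IsClosed B := isClosed_le pushH_cont.norm continuous_const
  -- inverse of e j on B
  have hinj : ∀ j, InjOn (e j) B := by
    intro j y hy z hz hyz
    exact (hA.inj j j y z (pushH_bd' hy) (pushH_bd' hz) hyz).2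
  have key1 : ∀ j, ∃ g : Cube m → (Fin k → ℝ), Continuous g ∧
      ∀ x ∈ S, ∀ y, e j y = F x → ‖pushH y‖ ≤ 3 / 8 → g x ≠ 0 ∧ dist (g x) (pushH y) ≤ 1 / 32 := by
    intro j
    set Sj : Set (Cube m) := S ∩ F ⁻¹' (e j '' B) with hSj
    have hclB : IsClosed (e j '' B) := (hBc.isCompact.image (hA.cont j)).isClosed
    have hSjc : IsClosed Sj := hF.preimage_isClosed_of_isClosed hS hclB
    let inv : R → Cube k := Function.invFunOn (e j) B
    have hinv : ∀ y ∈ B, inv (e j y) = y := by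
      intro y hy
      exact (hinj j).leftInvOn_invFunOn hy
    have hinvc : ContinuousOn inv (e j '' B) := by
      rw [continuousOn_iff_isClosed]
      intro A hAc
      refine ⟨e j '' (A ∩ B), ((hAc.inter hBc).isCompact.image (hA.cont j)).isClosed, ?_⟩
      ext r
      constructor
      · rintro ⟨hr, ⟨y, hy, rfl⟩⟩
        refine ⟨⟨y, ⟨?_, hy⟩, rfl⟩, ⟨y, hy, rfl⟩⟩
        have := hr
        rw [mem_preimage, hinv y hy] at this
        exact this
      · rintro ⟨⟨y, ⟨hyA, hyB⟩, rfl⟩, _⟩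
        refine ⟨?_, ⟨y, hyB, rfl⟩⟩
        rw [mem_preimage, hinv y hyB]
        exact hyA
    have hFj : ContinuousOn (fun x => pushH (inv (F x))) Sj := by
      refine pushH_cont.comp_continuousOn ?_
      refine hinvc.comp (hF.mono inter_subset_left) ?_
      intro x hx
      exact hx.2
    obtain ⟨g, hgc, hgd, hgn⟩ := hGP m k Sj (fun x => pushH (inv (F x))) (1 / 32) hSjc
      (lt_of_le_of_lt (dimH_mono inter_subset_left) hd) hFj (by norm_num)
    refine ⟨g, hgc, ?_⟩
    intro x hx y hy hyn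
    have hxS : x ∈ Sj := ⟨hx, ⟨y, hyn, hy⟩⟩
    refine ⟨hgn x hxS, ?_⟩
    have := hgd x hxS
    rw [← hy, hinv y hyn] at this
    exact this
  choose g hgc hg using key1
  have hV : ∀ j, ∀ x ∈ S, ∀ y, e j y = F x → pushV (g j x) y ≠ 0 := by
    intro j x hx y hy
    exact pushV_ne _ _ (fun h => hg j x hx y hy h)
  -- existence of cell coordinates
  have hex : ∀ x : Cube m, x ∈ S ∧ F x ∉ C → ∃ p : Fin N × Cube k, e p.1 p.2 = F x := by
    intro x hx
    have h1 := hFC hx.1
    rw [hA.union] at h1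
    rcases h1 with h1 | h1
    · exact absurd h1 hx.2
    · obtain ⟨j, y, hy⟩ := mem_iUnion.mp h1
      exact ⟨(j, y), hy⟩
  let K : I × Cube m → R := fun p =>
    if h : p.2 ∈ S ∧ F p.2 ∉ C then
      e (hex p.2 h).choose.1 (pushP (p.1 : ℝ) (g (hex p.2 h).choose.1 p.2) (hex p.2 h).choose.2)
    else F p.2
  have hKC : ∀ t x, F x ∈ C → K (t, x) = F x := by
    intro t x hx
    simp only [K]
    rw [dif_neg]
    exact fun h => h.2 hx
  have hbd : ∀ j y, e j y ∈ C → y ∈ bd k := by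
    intro j y hy
    by_contra h
    exact hA.disj j y h hy
  have hK : ∀ (t : I), ∀ x ∈ S, ∀ j y, e j y = F x → K (t, x) = e j (pushP (t : ℝ) (g j x) y) := by
    intro t x hx j y hy
    by_cases hC : F x ∈ C
    · have hy' : y ∈ bd k := hbd j y (by rw [hy]; exact hC)
      rw [hKC t x hC, pushP_bd _ _ hy', hy]
    · have h : x ∈ S ∧ F x ∉ C := ⟨hx, hC⟩
      have hsp := (hex x h).choose_spec
      have h1 : y ∉ bd k := fun hh => hC (by rw [← hy]; exact hA.bdry j y hh)
      have h2 : (hex x h).choose.2 ∉ bd k := fun hh => hC (by rw [← hsp]; exact hA.bdry _ _ hh)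
      obtain ⟨h3, h4⟩ := hA.inj _ _ _ _ h2 h1 (hsp.trans hy.symm)
      simp only [K]
      rw [dif_pos h, h3, h4]
  have hK0 : ∀ x ∈ S, K (0, x) = F x := by
    intro x hx
    by_cases hC : F x ∈ C
    · exact hKC _ _ hC
    · obtain ⟨p, hp⟩ := hex x ⟨hx, hC⟩
      rw [hK 0 x hx p.1 p.2 hp]
      simp only [Icc.coe_zero]
      rw [pushP_zero, hp]
  refine ⟨K, ?_, hK0, ?_, fun t x hx hC => hKC t x hC, ?_⟩
  · rw [continuousOn_iff_isClosed]
    intro A hAc
    -- pieces
    let Z : Fin N → Set ((I × Cube m) × Cube k) := fun j => {p | p.1.2 ∈ S ∧ e j p.2 = F p.1.2}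
    have hZc : ∀ j, IsClosed (Z j) := by
      intro j
      have hcS : IsClosed {p : (I × Cube m) × Cube k | p.1.2 ∈ S} :=
        hS.preimage (continuous_snd.comp continuous_fst)
      have hc1 : ContinuousOn (fun p : (I × Cube m) × Cube k => (e j p.2, F p.1.2))
          {p | p.1.2 ∈ S} := by
        refine ContinuousOn.prodMk ((hA.cont j).comp continuous_snd).continuousOn ?_
        exact hF.comp (continuous_snd.comp continuous_fst).continuousOn (fun p hp => hp)
      have := hc1.preimage_isClosed_of_isClosed hcS isClosed_diagonal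
      exact this
    let Q : Fin N → Set ((I × Cube m) × Cube k) := fun j =>
      Z j ∩ (fun p => e j (pushP (p.1.1 : ℝ) (g j p.1.2) p.2)) ⁻¹' A
    have hQ : ∀ j, IsClosed (Q j) := by
      intro j
      refine ContinuousOn.preimage_isClosed_of_isClosed ?_ (hZc j) hAc
      refine (hA.cont j).comp_continuousOn ?_
      refine pushP_contOn (Z j) (fun p => (p.1.1 : ℝ)) (fun p => g j p.1.2) (fun p => p.2)
        (continuous_subtype_val.comp (continuous_fst.comp continuous_fst))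
        ((hgc j).comp (continuous_snd.comp continuous_fst)) continuous_snd ?_
      intro p hp
      exact hV j _ hp.1 _ hp.2
    have hU : IsClosed (⋃ j, Prod.fst '' Q j) := by
      refine isClosed_iUnion_of_finite fun j => ?_
      exact ((hQ j).isCompact.image continuous_fst).isClosed
    have hUC : IsClosed {p : I × Cube m | p.2 ∈ S ∩ F ⁻¹' (C ∩ A)} := by
      exact (hF.preimage_isClosed_of_isClosed hS (hA.closed.inter hAc)).preimage continuous_snd
    refine ⟨{p : I × Cube m | p.2 ∈ S ∩ F ⁻¹' (C ∩ A)} ∪ ⋃ j, Prod.fst '' Q j, hUC.union hU, ?_⟩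
    ext ⟨t, x⟩
    constructor
    · rintro ⟨hp, hx⟩
      have hxS : x ∈ S := hx.2
      refine ⟨?_, hx⟩
      by_cases hC : F x ∈ C
      · left
        refine ⟨hxS, hC, ?_⟩
        rw [mem_preimage, hKC t x hC] at hp
        exact hp
      · right
        obtain ⟨p, hp'⟩ := hex x ⟨hxS, hC⟩
        refine mem_iUnion.mpr ⟨p.1, ((t, x), p.2), ⟨⟨hxS, hp'⟩, ?_⟩, rfl⟩
        rw [mem_preimage, hK t x hxS p.1 p.2 hp'] at hp
        exact hp
    · rintro ⟨hp, hx⟩
      have hxS : x ∈ S := hx.2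
      refine ⟨?_, hx⟩
      rcases hp with hp | hp
      · rw [mem_preimage, hKC t x hp.2.1]
        exact hp.2.2
      · obtain ⟨j, q, hq, hqe⟩ := mem_iUnion.mp hp
        obtain ⟨⟨t', x'⟩, y⟩ := q
        simp only [Prod.mk.injEq] at hqe
        obtain ⟨rfl, rfl⟩ := hqe
        rw [mem_preimage, hK t' x' hxS j y hq.1.2]
        exact hq.2
  · intro x hx
    by_cases hC : F x ∈ C
    · rw [hKC _ _ hC]; exact hC
    · obtain ⟨p, hp⟩ := hex x ⟨hx, hC⟩
      rw [hK 1 x hx p.1 p.2 hp]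
      refine hA.bdry _ _ ?_
      simp only [Icc.coe_one]
      exact pushP_one _ _ (hV p.1 x hx p.2 hp)
  · intro t x hx j hj _
    obtain ⟨y, hy⟩ := hj
    rw [hK t x hx j y hy]
    exact mem_range_self _

end M202

end

section

/-!
MP_202a65_gt, item SkelPush (pushing into the n-skeleton), helper79.
-/

open Set Topology unitInterval

namespace M202

theorem SkelPush_inv {R : Type} [TopologicalSpace R] {P : Set R → Prop} {C C2 : Set R} {k : ℕ}
    (h : RC P C [k] C2) : ∃ (N : ℕ) (e : Fin N → Cube k → R), Att C C2 k N e ∧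
      ∀ j, P (range (e j)) := by
  cases h with
  | cons _ C1 _ _ _ N e hatt hP hrc =>
    cases hrc with
    | nil => exact ⟨N, e, hatt, hP⟩

theorem SkelPush_floor {a b : ℝ} (h1 : (⌊a⌋ : ℝ) ≤ b) (h2 : b ≤ (⌈a⌉ : ℝ))
    (hb : ¬ ∃ k : ℤ, b = k) : ⌊b⌋ = ⌊a⌋ ∧ ⌈b⌉ = ⌈a⌉ := by
  have h3 : (⌊a⌋ : ℝ) < b := lt_of_le_of_ne h1 (fun h => hb ⟨_, h.symm⟩)
  have h4 : b < (⌈a⌉ : ℝ) := lt_of_le_of_ne h2 (fun h => hb ⟨_, h⟩)
  have h5 : ⌈a⌉ ≤ ⌊a⌋ + 1 := Int.ceil_le_floor_add_one a
  have h6 : (⌈a⌉ : ℝ) ≤ (⌊a⌋ : ℝ) + 1 := by exact_mod_cast h5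
  have h7 : ⌊a⌋ + 1 ≤ ⌈a⌉ := by
    have : (⌊a⌋ : ℝ) < (⌈a⌉ : ℝ) := h3.trans h4
    have h8 : ⌊a⌋ < ⌈a⌉ := by exact_mod_cast this
    omega
  have h9 : (⌊a⌋ : ℝ) + 1 ≤ (⌈a⌉ : ℝ) := by exact_mod_cast h7
  constructor
  · rw [Int.floor_eq_iff]
    exact ⟨h1, by linarith⟩
  · rw [Int.ceil_eq_iff]
    exact ⟨by linarith, h2⟩

/-- A point of the same dimension as the cell spans the cell. -/
theorem SkelPush_face {N L j : ℕ} {y z : Cube N} (hy : y ∈ faceOf L z)
    (hz : z ∈ (skel L (j + 1) : Set (Cube N))) (hyj : y ∉ (skel L j : Set (Cube N))) :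
    faceOf L z ⊆ faceOf L y := by
  have hgrid : ∀ i, IsGrid L (z i) → (L : ℝ) * (y i : ℝ) = (L : ℝ) * (z i : ℝ) := by
    rintro i ⟨k, hk⟩
    have := hy i
    rw [hk] at this
    simp only [Int.floor_intCast, Int.ceil_intCast] at this
    rw [hk]
    exact le_antisymm this.2 this.1
  have hsub : {i | ¬ IsGrid L (y i)} ⊆ {i | ¬ IsGrid L (z i)} := by
    intro i hi hz'
    apply hi
    have := hgrid i hz'
    obtain ⟨k, hk⟩ := hz'
    exact ⟨k, by rw [this, hk]⟩
  have hcard : {i | ¬ IsGrid L (z i)}.ncard ≤ {i | ¬ IsGrid L (y i)}.ncard := by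
    have h1 : {i | ¬ IsGrid L (z i)}.ncard ≤ j + 1 := hz
    have h2 : ¬ {i | ¬ IsGrid L (y i)}.ncard ≤ j := hyj
    omega
  have heq : {i | ¬ IsGrid L (y i)} = {i | ¬ IsGrid L (z i)} :=
    Set.eq_of_subset_of_ncard_le hsub hcard (Set.toFinite _)
  intro x hx i
  have hxi := hx i
  by_cases hg : IsGrid L (z i)
  · rw [hgrid i hg]
    exact hxi
  · have hgy : ¬ IsGrid L (y i) := by
      have : i ∈ {i | ¬ IsGrid L (z i)} := hg
      rw [← heq] at this
      exact this
    obtain ⟨e1, e2⟩ := SkelPush_floor (hy i).1 (hy i).2 hgy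
    rw [e1, e2]
    exact hxi

theorem SkelPush_ind (h1 : S_Push) (h2 : S_CubRC) (h3 : S_Grid) {N L n m : ℕ} {W : Set (Cube N)}
    {S : Set (Cube m)} (hL : 1 ≤ L) (hW : Cubical L W) (hS : IsClosed S)
    (hdim : dimH S < (n + 1 : ℕ)) (l : ℕ) : ∀ F : Cube m → Cube N, ContinuousOn F S →
    MapsTo F S (W ∩ skel L (n + l)) →
    ∃ K : I × Cube m → Cube N, ContinuousOn K (univ ×ˢ S) ∧ (∀ x ∈ S, K (0, x) = F x) ∧
      (∀ x ∈ S, K (1, x) ∈ skel L n) ∧ (∀ t, ∀ x ∈ S, F x ∈ skel L n → K (t, x) = F x) ∧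
      (∀ t, ∀ x ∈ S, K (t, x) ∈ faceOf L (F x)) := by
  obtain ⟨g1, -, g3, g4, -, -⟩ := h3
  induction l with
  | zero =>
    intro F hF hFm
    refine ⟨fun p => F p.2, ?_, fun x _ => rfl, fun x hx => (hFm hx).2, fun t x _ _ => rfl,
      fun t x hx => (g1 N L (F x) hL).1⟩
    exact hF.comp continuousOn_snd (fun p hp => hp.2)
  | succ l ih =>
    intro F hF hFm
    set C : Set (Cube N) := W ∩ skel L (n + l) with hC
    set C1 : Set (Cube N) := W ∩ skel L (n + l + 1) with hC1
    have hsk : ∀ a b : ℕ, a ≤ b → (skel L a : Set (Cube N)) ⊆ skel L b := by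
      intro a b hab x hx
      have h0 : {i | ¬ IsGrid L (x i)}.ncard ≤ a := hx
      exact h0.trans hab
    have hCc : Cubical L C := (g4 N L _ _ hW ((g3 N L hL).2.2 _)).2
    have hC1c : Cubical L C1 := (g4 N L _ _ hW ((g3 N L hL).2.2 _)).2
    have hCC1 : C ⊆ C1 := fun x hx => ⟨hx.1, hsk _ _ (Nat.le_succ _) hx.2⟩
    obtain ⟨-, hrc, -⟩ := h2 N L C1 C
      (fun E => ∃ z, z ∈ (skel L (n + l + 1) : Set (Cube N)) ∧ E = faceOf L z) hL hC1c hCc hCC1
      (fun x hx _ => ⟨x, hx.2, rfl⟩)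
    have hrc1 := hrc (n + l) 1
    have e1 : C ∪ (C1 ∩ skel L (n + l)) = C := by
      apply union_eq_left.2
      rintro x ⟨hx, hx'⟩
      exact ⟨hx.1, hx'⟩
    have e2 : C ∪ (C1 ∩ skel L (n + l + 1)) = C1 := by
      apply Subset.antisymm
      · apply union_subset hCC1 inter_subset_left
      · intro x hx
        exact Or.inr ⟨hx, hx.2⟩
    rw [e1, e2] at hrc1
    obtain ⟨N', e, hatt, hP⟩ := SkelPush_inv (k := n + l + 1) hrc1
    have hdim' : dimH S < ((n + l + 1 : ℕ) : ENNReal) := by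
      refine lt_of_lt_of_le hdim ?_
      exact_mod_cast (by omega : n + 1 ≤ n + l + 1)
    obtain ⟨K1, k1, k2, k3, k4, k5⟩ := h1 (Cube N) C C1 (n + l + 1) N' e m S F hatt hS hdim' hF
      hFm
    have hF' : ContinuousOn (fun x => K1 (1, x)) S := by
      apply k1.comp (f := fun x : Cube m => ((1 : I), x)) (by fun_prop)
      intro x hx
      exact ⟨trivial, hx⟩
    obtain ⟨K2, j1, j2, j3, j4, j5⟩ := ih (fun x => K1 (1, x)) hF' (fun x hx => k3 x hx)
    have hface : ∀ t, ∀ x ∈ S, K1 (t, x) ∈ faceOf L (F x) := by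
      intro t x hx
      by_cases hFx : F x ∈ C
      · rw [k4 t x hx hFx]
        exact (g1 N L (F x) hL).1
      · have hF1 : F x ∈ C ∪ ⋃ j, range (e j) := by
          rw [← hatt.union]
          exact hFm hx
        rcases hF1 with h | h
        · exact absurd h hFx
        · obtain ⟨j, hj⟩ := mem_iUnion.1 h
          obtain ⟨z, hz, hzE⟩ := hP j
          have hK := k5 t x hx j hj hFx
          rw [hzE] at hK hj
          apply SkelPush_face hj hz _ hK
          intro hcon
          exact hFx ⟨(hFm hx).1, hcon⟩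
    let pr : ℝ → I := projIcc (0 : ℝ) 1 zero_le_one
    have hpr : Continuous pr := continuous_projIcc
    have hpr0 : pr 0 = 0 := projIcc_left zero_le_one
    have hpr1 : pr 1 = 1 := projIcc_right zero_le_one
    let K : I × Cube m → Cube N := fun p =>
      if (p.1 : ℝ) ≤ 1 / 2 then K1 (pr (2 * (p.1 : ℝ)), p.2)
      else K2 (pr (2 * (p.1 : ℝ) - 1), p.2)
    refine ⟨K, ?_, ?_, ?_, ?_, ?_⟩
    · have hc : Continuous (fun p : I × S => K (p.1, (p.2 : Cube m))) := by
        show Continuous (fun p : I × S =>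
          if (p.1 : ℝ) ≤ 1 / 2 then K1 (pr (2 * (p.1 : ℝ)), (p.2 : Cube m))
          else K2 (pr (2 * (p.1 : ℝ) - 1), (p.2 : Cube m)))
        apply Continuous.if_le
        · apply k1.comp_continuous
          · exact (hpr.comp (by fun_prop)).prodMk (continuous_subtype_val.comp continuous_snd)
          · intro p
            exact ⟨trivial, p.2.2⟩
        · apply j1.comp_continuous
          · exact (hpr.comp (by fun_prop)).prodMk (continuous_subtype_val.comp continuous_snd)
          · intro p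
            exact ⟨trivial, p.2.2⟩
        · fun_prop
        · fun_prop
        · intro p hp
          have a1 : (2 : ℝ) * (1 / 2) = 1 := by norm_num
          have a2 : (2 : ℝ) * (1 / 2) - 1 = 0 := by norm_num
          rw [hp, a2, a1, hpr1, hpr0, j2 _ p.2.2]
      rw [continuousOn_iff_continuous_domRestrict]
      have hg : Continuous (fun p : (univ ×ˢ S : Set (I × Cube m)) =>
          ((p.1.1, (⟨p.1.2, p.2.2⟩ : S)) : I × S)) := by
        apply Continuous.prodMk
        · fun_prop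
        · apply Continuous.subtype_mk
          fun_prop
      exact hc.comp hg
    · intro x hx
      show (if ((0 : I) : ℝ) ≤ 1 / 2 then _ else _) = _
      rw [if_pos (by simp)]
      simp only [Icc.coe_zero, mul_zero, hpr0]
      exact k2 x hx
    · intro x hx
      show (if ((1 : I) : ℝ) ≤ 1 / 2 then _ else _) ∈ _
      rw [if_neg (by norm_num)]
      have : (2 : ℝ) * ((1 : I) : ℝ) - 1 = 1 := by simp; norm_num
      show K2 (pr (2 * ((1 : I) : ℝ) - 1), x) ∈ _
      rw [this, hpr1]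
      exact j3 x hx
    · intro t x hx hFx
      have hFC : F x ∈ C := ⟨(hFm hx).1, hsk _ _ (by omega) hFx⟩
      have e3 : ∀ t, K1 (t, x) = F x := fun t => k4 t x hx hFC
      show (if (t : ℝ) ≤ 1 / 2 then _ else _) = _
      split_ifs with h
      · exact e3 _
      · have := j4 (pr (2 * (t : ℝ) - 1)) x hx (by
          show K1 (1, x) ∈ _
          rw [e3]
          exact hFx)
        rw [this]
        exact e3 1
    · intro t x hx
      show (if (t : ℝ) ≤ 1 / 2 then _ else _) ∈ _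
      split_ifs with h
      · exact hface _ x hx
      · exact (g1 N L (F x) hL).2.2.1 _ (hface 1 x hx) (j5 _ x hx)

theorem pr_SkelPush (h1 : S_Push) (h2 : S_CubRC) (h3 : S_Grid) : S_SkelPush := by
  intro N L n m W S F hL hW hS hdim hF hFm
  apply SkelPush_ind h1 h2 h3 hL hW hS hdim N F hF
  intro x hx
  refine ⟨hFm hx, ?_⟩
  have h : {i | ¬ IsGrid L (F x i)}.ncard ≤ (univ : Set (Fin N)).ncard :=
    Set.ncard_le_ncard (subset_univ _) (Set.toFinite _)
  rw [Set.ncard_univ, Nat.card_eq_fintype_card, Fintype.card_fin] at h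
  show {i | ¬ IsGrid L (F x i)}.ncard ≤ n + N
  omega

end M202

end

section

/-!
MP_202a65_gt (captain helper47): statements of wave 2 (geometry of M_b, tower properties).
-/

open Set Topology unitInterval Filter

namespace M202

/-! ### G. Geometry of the stages -/

/-- G1: the functions lev and mv -/
def S_Lev : Prop :=
  (∀ b : ℕ, Continuous (lev b)) ∧ (∀ b t, 0 ≤ lev b t ∧ lev b t ≤ 1 / 2) ∧
  (∀ (b : ℕ) (t t' : ℝ), |lev b t - lev b t'| ≤ 3 ^ b * |t - t'|) ∧
  (∀ (b : ℕ) (t : ℝ), lev b t = 1 / 2 ↔ ∃ k : ℤ, (3 : ℝ) ^ b * t = k) ∧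
  (∀ (b : ℕ) (t : ℝ), lev b t = 0 ↔ ∃ k : ℤ, (3 : ℝ) ^ b * t = k + 1 / 2) ∧
  (∀ (b : ℕ) (k t : ℝ), 0 ≤ k → k * lev b t ≤ 1 / 2 → lev b (mv b k t) = k * lev b t) ∧
  (∀ (b : ℕ) (k t : ℝ), 0 ≤ k → k * lev b t ≤ 1 / 2 →
    (⌊(3 : ℝ) ^ b * t⌋ : ℝ) ≤ 3 ^ b * mv b k t ∧ 3 ^ b * mv b k t ≤ ⌊(3 : ℝ) ^ b * t⌋ + 1) ∧
  (∀ (b : ℕ) (t : ℝ), mv b 1 t = t) ∧
  (∀ (b : ℕ) (k k' t : ℝ), 0 ≤ k → k * lev b t ≤ 1 / 2 → (k * lev b t = 1 / 2 → k' = 1) →
    mv b k' (mv b k t) = mv b (k' * k) t) ∧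
  (∀ (b : ℕ) (X : Type) [TopologicalSpace X] (S : Set X) (k t : X → ℝ),
    ContinuousOn k S → ContinuousOn t S → (∀ x ∈ S, lev b (t x) = 1 / 2 → k x = 1) →
    ContinuousOn (fun x => mv b (k x) (t x)) S)

/-- G2: the (n+1)-st smallest entry -/
def S_Med : Prop :=
  ∀ (n N : ℕ), n + 1 ≤ N →
    (∀ (a : Fin N → ℝ) (r : ℝ), med n a ≤ r ↔ n + 1 ≤ {i | a i ≤ r}.ncard) ∧
    (∀ (a : Fin N → ℝ) (r : ℝ), r ≤ med n a ↔ {i | a i < r}.ncard ≤ n) ∧
    (∀ (a : Fin N → ℝ), ∃ i, med n a = a i) ∧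
    (∀ (a a' : Fin N → ℝ) (d : ℝ), (∀ i, |a i - a' i| ≤ d) → |med n a - med n a'| ≤ d) ∧
    Continuous (med n : (Fin N → ℝ) → ℝ) ∧
    (∀ (a a' : Fin N → ℝ) (r r' : ℝ), med n a = r → (∀ i, a i ≤ r → a' i ≤ r') →
      (∀ i, r ≤ a i → r' ≤ a' i) → med n a' = r')

/-- G3: the sets M_b, Z_b -/
def S_MbFacts : Prop :=
  ∀ n : ℕ, 1 ≤ n →
    (∀ b, Cubical (3 ^ b) (Mb n b) ∧ Cubical (3 ^ b) (Zb n b) ∧ IsClosed (Mb n b) ∧
      IsClosed (Zb n b) ∧ IsCompact (Mb n b) ∧ IsCompact (Zb n b)) ∧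
    (∀ b, Mb n (b + 1) = Mb n b ∩ {x | 1 / 6 ≤ rb n b x}) ∧
    (∀ b c, b ≤ c → Mb n c ⊆ Mb n b) ∧ (∀ b c, Zb n b ⊆ Mb n c) ∧
    (∀ b c, b ≤ c → Zb n b ⊆ Zb n c) ∧ (∀ b, Zb n b = Mb n b ∩ {x | rb n b x = 1 / 2}) ∧
    (∀ b, Continuous (rb n b)) ∧ (∀ b x, 0 ≤ rb n b x ∧ rb n b x ≤ 1 / 2) ∧
    (∀ b, ∀ x ∈ Mb n b, ∃ z : Cube (2 * n + 1), (∀ i, ¬ IsGrid (3 ^ b) (z i)) ∧
      x ∈ faceOf (3 ^ b) z ∧ faceOf (3 ^ b) z ⊆ Mb n b) ∧
    (∀ b, ∀ x : Cube (2 * n + 1), rb n b x = 0 ↔
      n + 1 ≤ {i | ∃ k : ℤ, (3 : ℝ) ^ b * (x i : ℝ) = k + 1 / 2}.ncard) ∧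
    (∀ x, x ∈ Mu n ↔ ∀ b, x ∈ Mb n b) ∧ (∀ b, Zb n b ⊆ Mu n)

/-- G4: radial maps -/
def S_Radm : Prop :=
  ∀ n b : ℕ, 1 ≤ n →
    (∀ (h : ℝ → ℝ) (x : Cube (2 * n + 1)), 0 < rb n b x → (∀ m, 0 ≤ h m) → h (1 / 2) = 1 / 2 →
      (∀ m m', rb n b x ≤ m → m ≤ m' → m' ≤ 1 / 2 → h m ≤ h m') →
      radm n b h x ∈ faceOf (3 ^ b) x ∧ rb n b (radm n b h x) = h (rb n b x) ∧
      (∀ i, ((radm n b h x) i : ℝ) = mv b (h (max (lev b (x i)) (rb n b x)) /
        max (lev b (x i)) (rb n b x)) (x i)) ∧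
      (∀ i, lev b ((radm n b h x) i) = lev b (x i) * (h (max (lev b (x i)) (rb n b x)) /
        max (lev b (x i)) (rb n b x))) ∧
      (∀ i, max (lev b ((radm n b h x) i)) (rb n b (radm n b h x)) =
        h (max (lev b (x i)) (rb n b x)))) ∧
    (∀ (h h' : ℝ → ℝ) (x : Cube (2 * n + 1)), 0 < rb n b x → (∀ m, 0 ≤ h m) →
      h (1 / 2) = 1 / 2 → (∀ m m', rb n b x ≤ m → m ≤ m' → m' ≤ 1 / 2 → h m ≤ h m') →
      (∀ m, 0 ≤ h' m) → h' (1 / 2) = 1 / 2 → 0 < h (rb n b x) →
      (∀ m m', h (rb n b x) ≤ m → m ≤ m' → m' ≤ 1 / 2 → h' m ≤ h' m') →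
      radm n b h' (radm n b h x) = radm n b (fun m => h' (h m)) x) ∧
    (∀ (x : Cube (2 * n + 1)), 0 < rb n b x → radm n b (fun m => m) x = x) ∧
    (∀ (X : Type) [TopologicalSpace X] (S : Set X) (f : X → Cube (2 * n + 1))
      (h : X → ℝ → ℝ), ContinuousOn f S → (∀ x ∈ S, 0 < rb n b (f x)) →
      ContinuousOn (fun p : X × ℝ => h p.1 p.2)
        {p | p.1 ∈ S ∧ rb n b (f p.1) ≤ p.2 ∧ p.2 ≤ 1 / 2} →
      (∀ x ∈ S, h x (1 / 2) = 1 / 2) →
      ContinuousOn (fun x => radm n b (h x) (f x)) S) ∧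
    (∀ (h h' : ℝ → ℝ) (x : Cube (2 * n + 1)),
      (∀ m, rb n b x ≤ m → m ≤ 1 / 2 → h m = h' m) → radm n b h x = radm n b h' x)

/-- G5: the squeeze sqz and the retraction pz -/
def S_SqzPz : Prop :=
  ∀ n b : ℕ, 1 ≤ n →
    (ContinuousOn (sqz n b) (Mb n (b + 1)) ∧ MapsTo (sqz n b) (Mb n (b + 1)) (Mb n b) ∧
      (∀ x ∈ Mb n (b + 1), sqz n b x ∈ faceOf (3 ^ b) x) ∧
      (∀ x ∈ Mb n (b + 1), ∀ y ∈ Mb n (b + 1), dist (sqz n b x) (sqz n b y) ≤ 3 / 2 * dist x y) ∧
      (∀ c, c ≤ b → ∀ x ∈ Zb n c, sqz n b x = x)) ∧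
    (ContinuousOn (pz n b) (Mb n (b + 1)) ∧ MapsTo (pz n b) (Mb n (b + 1)) (Zb n b) ∧
      (∀ x ∈ Mb n (b + 1), pz n b x ∈ faceOf (3 ^ b) x) ∧ (∀ x ∈ Zb n b, pz n b x = x)) ∧
    (∃ inv : Cube (2 * n + 1) → Cube (2 * n + 1),
      ContinuousOn inv (Mb n b ∩ {x | 0 < rb n b x}) ∧
      (∀ x ∈ Mb n b, 0 < rb n b x → inv x ∈ Mb n (b + 1) ∧ 1 / 6 < rb n b (inv x) ∧
        sqz n b (inv x) = x) ∧
      (∀ x ∈ Mb n (b + 1), 1 / 6 < rb n b x → 0 < rb n b (sqz n b x) ∧ inv (sqz n b x) = x))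

/-- G6: the bonding maps -/
def S_SgFacts : Prop :=
  ∀ n : ℕ, 1 ≤ n →
    (∀ b b', b ≤ b' → ContinuousOn (sg n b b') (Mb n b') ∧
      MapsTo (sg n b b') (Mb n b') (Mb n b) ∧
      (∀ x ∈ Mb n b', sg n b b' x ∈ faceOf (3 ^ b) x) ∧
      (∀ x ∈ Mb n b', ∀ y ∈ Mb n b',
        dist (sg n b b' x) (sg n b b' y) ≤ (3 / 2) ^ (b' - b) * dist x y) ∧
      (∀ x ∈ Mb n b', ∀ y ∈ Mb n b', dist x y ≤ 1 / 3 ^ b' →
        dist (sg n b b' x) (sg n b b' y) ≤ 1 / 2 ^ b') ∧
      (∀ c, c ≤ b → ∀ x ∈ Zb n c, sg n b b' x = x)) ∧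
    (∀ b x, sg n b b x = x) ∧
    (∀ b b' b'' x, b ≤ b' → b' ≤ b'' → sg n b b' (sg n b' b'' x) = sg n b b'' x) ∧
    (∀ b b', b ≤ b' → Continuous (sM n b b') ∧
      (∀ x : XM n b', (sM n b b' x : Cube (2 * n + 1)) = sg n b b' x)) ∧
    (∀ b (x : XM n b), sM n b b x = x) ∧
    (∀ b b' b'' (x : XM n b''), b ≤ b' → b' ≤ b'' → sM n b b' (sM n b' b'' x) = sM n b b'' x) ∧
    (∀ b (x : XM n (b + 1)), Continuous (pZ n b) ∧ (pZ n b x : Cube (2 * n + 1)) = pz n b x) ∧
    (∀ b c (x : ZM n b), Continuous (iZ n b c) ∧ (iZ n b c x : Cube (2 * n + 1)) = x) ∧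
    (∀ b, CompactSpace (XM n b) ∧ CompactSpace (ZM n b) ∧ CompactSpace (UM n))

/-- G7: pushing M_b into its interior -/
def S_Omega : Prop :=
  ∀ n b : ℕ, 1 ≤ n → ∃ (om : ℝ → ℝ → ℝ) (C u0 : ℝ), 0 < C ∧ 0 < u0 ∧
    Continuous (fun p : ℝ × ℝ => om p.1 p.2) ∧
    (∀ u t, 0 ≤ u → u ≤ u0 → 0 ≤ t → t ≤ 1 → |om u t - t| ≤ C * u ∧ 0 ≤ om u t ∧ om u t ≤ 1) ∧
    (∀ t, om 0 t = t) ∧
    (∀ u t t', 0 ≤ u → u ≤ u0 → |om u t - om u t'| ≤ 2 * |t - t'|) ∧
    (∀ u, 0 ≤ u → u ≤ u0 → ∀ x ∈ Mb n b, ∀ y : Fin (2 * n + 1) → ℝ,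
      (∀ i, |y i - om u (x i)| ≤ u) →
      (∀ i, 0 ≤ y i ∧ y i ≤ 1) ∧ ∀ j, j < b → {i | lev j (y i) < 1 / 6}.ncard ≤ n)

/-- G8: close points of M_b are joined by short canonical paths -/
def S_Near : Prop :=
  ∀ n b : ℕ, 1 ≤ n → ∃ (H : I × (XM n b × XM n b) → XM n b) (C de : ℝ), 1 ≤ C ∧ 0 < de ∧
    ContinuousOn H {p | dist p.2.1 p.2.2 ≤ de} ∧
    (∀ x y, dist x y ≤ de → H (0, (x, y)) = x ∧ H (1, (x, y)) = y ∧
      ∀ t, dist (H (t, (x, y))) x ≤ C * dist x y) ∧
    (∀ t x, H (t, (x, x)) = x)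

/-- G9: general position in M_b -/
def S_GPM : Prop :=
  ∀ (n b : ℕ) (E : Set ℝ), 1 ≤ n → E.Finite →
    FineSoft n (fun x : {x : Cube (2 * n + 1) // x ∈ Mb n b ∧ {i | (x i : ℝ) ∈ E}.ncard ≤ n} =>
      (⟨x.1, x.2.1⟩ : XM n b))

/-- G10: sigma_b is fine soft -/
def S_X1 : Prop := ∀ n b : ℕ, 1 ≤ n → FineSoft n (sM n b (b + 1))

/-- G11: all bonding maps are fine soft -/
def S_X1all : Prop := ∀ n b b' : ℕ, 1 ≤ n → b ≤ b' → FineSoft n (sM n b b')

/-- G12: pi^Z is fine soft (exact deformation retraction) -/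
def S_X5 : Prop := ∀ n b : ℕ, 1 ≤ n → FineSoft n (pZ n b) ∧
  ∃ K : I × XM n (b + 1) → XM n (b + 1), Continuous K ∧ (∀ x, K (0, x) = x) ∧
    (∀ x, K (1, x) = iZ n b (b + 1) (pZ n b x)) ∧ (∀ t x, pZ n b (K (t, x)) = pZ n b x) ∧
    ∀ t (x : XM n (b + 1)), (K (t, x) : Cube (2 * n + 1)) ∈ faceOf (3 ^ b) (x : Cube (2 * n + 1))

/-- G13: the inclusion Z_b -> M_b is soft at scale 3^-b -/
def S_X6 : Prop :=
  ∀ (n b : ℕ) (D : XM n b → XM n b → ℝ) (eta : ℝ), 1 ≤ n → IsCPM D →
    (∀ x y, dist x y ≤ 1 / 3 ^ b → D x y ≤ eta) → Soft n D eta (iZ n b b)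

/-- G14: M_(b+1) -> M_b × I, x -> (x, 3 (r_b x - 1/6)) -/
def S_U1 : Prop :=
  ∀ (n b : ℕ) (D : XM n b × I → XM n b × I → ℝ) (eta : ℝ), 1 ≤ n → IsCPM D → 0 ≤ eta →
    (∀ x y t, dist x y ≤ 1 / 3 ^ b → D (x, t) (y, t) ≤ eta) →
    Soft n D eta (fun x : XM n (b + 1) =>
      (toM n b x, (Set.projIcc (0 : ℝ) 1 zero_le_one (3 * (rb n b x - 1 / 6)) : unitInterval)))

/-- G15: some M_b' maps softly onto M_b × I^N -/
def S_X2 : Prop :=
  ∀ (n b N : ℕ) (D : XM n b × Cube N → XM n b × Cube N → ℝ) (eta : ℝ), 1 ≤ n → IsCPM D →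
    0 < eta → ∃ (b' : ℕ) (th : XM n b' → XM n b × Cube N), b ≤ b' ∧ Continuous th ∧
      Soft n D eta th ∧ ∀ x, dist (th x).1 (sM n b b' x) ≤ eta

/-- G16: for a map g into the interior of M_b, M_b × I^N × I maps fine softly onto
M_b ∪_g (B × I), where B ⊂ I^N is a neighbourhood retract of a radial kind -/
def S_Psi : Prop :=
  ∀ (n b N : ℕ) (B : Type) [TopologicalSpace B] [CompactSpace B] [T2Space B]
    (io : B → Cube N) (vp : Cube N → B) (w : Cube N → ℝ) (g : B → XM n b) (ep : ℝ)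
    (Z : Type) [TopologicalSpace Z] [CompactSpace Z] [T2Space Z] (i : XM n b → Z)
    (j : B × I → Z), 1 ≤ n → 0 < ep →
    Continuous io → Continuous w → ContinuousOn vp {x | w x ≤ 1} → (∀ x, 0 ≤ w x) →
    (∀ y, w (io y) = 0 ∧ vp (io y) = y) → (∀ x, w x = 0 → io (vp x) = x) →
    (∀ x x' : Cube N, ∀ la : ℝ, 0 ≤ la → la ≤ 1 → w x ≤ 1 →
      (∀ k, (x' k : ℝ) = (io (vp x) k : ℝ) + la * ((x k : ℝ) - (io (vp x) k : ℝ))) →
      vp x' = vp x ∧ w x' = la * w x) →
    Continuous g →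
    (∀ y (v : Fin (2 * n + 1) → ℝ), (∀ k, |v k - ((g y : Cube (2 * n + 1)) k : ℝ)| ≤ ep) →
      (∀ k, 0 ≤ v k ∧ v k ≤ 1) ∧ ∀ l, l < b → {k | lev l (v k) < 1 / 6}.ncard ≤ n) →
    IsAdj {p : B × I | p.2 = 0} (fun p => g p.1) i j →
    ∃ Psi : XM n b × (Cube N × I) → Z, Continuous Psi ∧ FineSoft n Psi ∧
      (∀ p, (∀ y, ep ≤ dist p.1 (g y)) → Psi p = i p.1) ∧
      (∀ ka : Z → XM n b, (∀ x, ka (i x) = x) → (∀ t, ka (j t) = g t.1) →
        ∀ p, dist (ka (Psi p)) p.1 ≤ ep)

/-- G17: tower property for the cylinders over cubes and over the sphere -/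
def S_TcylM : Prop :=
  ∀ n : ℕ, 1 ≤ n →
    (∀ k, k ≤ n → TP n (XM n) (sM n) (Cube k × I) (Cube k) {p | p.2 = 0} Prod.fst) ∧
    TP n (XM n) (sM n) (↥(bd (n + 1)) × I) (↥(bd (n + 1))) {p | p.2 = 0} Prod.fst

/-- G18: Z_b minus an open n-cell still maps softly to M_b at scale 3^-b. The cell is the face
faceOf (3^b) z, where z has exactly n non-grid coordinates -/
def S_Zminus : Prop :=
  ∀ (n b : ℕ) (z : Cube (2 * n + 1)) (D : XM n b → XM n b → ℝ) (eta : ℝ), 1 ≤ n → IsCPM D →
    (∀ x y, dist x y ≤ 2 / 3 ^ b → D x y ≤ eta) → z ∈ Mb n b →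
    {i | ¬ IsGrid (3 ^ b) (z i)}.ncard = n →
    Soft n D eta (fun x : {x : Cube (2 * n + 1) // x ∈ Zb n b ∧ faceOf (3 ^ b) x ≠ faceOf (3 ^ b) z} =>
      (toM n b x.1))

/-- G19: tower property for the sphere wedge -/
def S_TsphM : Prop :=
  ∀ n : ℕ, 1 ≤ n → TP n (XM n) (sM n) (Cube n) Unit (bd n) (fun _ => ())

/-- G20: the tower M_b -/
def S_TowerM : Prop := ∀ n : ℕ, 1 ≤ n → IsTower n (XM n) (sM n)

/-- G21: inverse limits of fine soft maps (metric version): L is the limit of the X_b, the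
projections p b : L -> X_b -/
def S_InvLim : Prop :=
  ∀ (n : ℕ) (X : ℕ → Type) [∀ b, MetricSpace (X b)] [∀ b, CompactSpace (X b)]
    (s : ∀ b b', X b' → X b) (L : Type) [TopologicalSpace L] [CompactSpace L] [T2Space L]
    (p : ∀ b, L → X b),
    (∀ b, Continuous (p b)) → (∀ b b' x, b ≤ b' → s b b' (p b' x) = p b x) →
    (∀ b x, s b b x = x) →
    (∀ b b' b'' x, b ≤ b' → b' ≤ b'' → s b b' (s b' b'' x) = s b b'' x) →
    (∀ b b', b ≤ b' → Continuous (s b b')) → (∀ b b', b ≤ b' → FineSoft n (s b b')) →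
    (∀ y : ∀ b, X b, (∀ b, s b (b + 1) (y (b + 1)) = y b) → ∃ x, ∀ b, p b x = y b) →
    (∀ x x', (∀ b, p b x = p b x') → x = x') →
    ∀ b, FineSoft n (p b)

/-- G22: mu as the inverse limit of the M_b -/
def S_SiFacts : Prop :=
  ∀ n : ℕ, 1 ≤ n →
    (∀ b, Continuous (si n b)) ∧ (∀ b b' (x : UM n), b ≤ b' → sM n b b' (si n b' x) = si n b x) ∧
    (∀ b (x : UM n), (si n b x : Cube (2 * n + 1)) ∈ faceOf (3 ^ b) (x : Cube (2 * n + 1))) ∧
    (∀ y : ∀ b, XM n b, (∀ b, sM n b (b + 1) (y (b + 1)) = y b) → ∃ x : UM n, ∀ b, si n b x = y b) ∧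
    (∀ x x' : UM n, (∀ b, si n b x = si n b x') → x = x') ∧
    (∀ b c (x : UM n), c ≤ b → (x : Cube (2 * n + 1)) ∈ Zb n c →
      (si n b x : Cube (2 * n + 1)) = x) ∧
    (∀ b, FineSoft n (si n b))

end M202

end

section

/-!
MP_202a65_gt: item SupCPM (supremum pseudometric), helper5
-/

open Set Topology unitInterval

namespace M202

theorem SupCPM_bdd {B W : Type} [TopologicalSpace B] [TopologicalSpace W] [CompactSpace W]
    {D : B × W → B × W → ℝ} (hD : IsCPM D) (b b' : B) :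
    BddAbove (range fun w : W => D (b, w) (b', w)) := by
  have hc : Continuous fun w : W => D (b, w) (b', w) := by
    have h1 : Continuous fun w : W => (((b, w), (b', w)) : (B × W) × (B × W)) := by fun_prop
    exact hD.cont.comp h1
  exact (isCompact_range hc).bddAbove

theorem pr_SupCPM : S_SupCPM := by
  intro B W _ _ _ _ D hD
  refine ⟨⟨?_, ?_, ?_, ?_⟩, ?_⟩
  · intro b
    simp [hD.self]
  · intro b b'
    exact iSup_congr fun w => hD.symm _ _
  · intro b b' b''
    apply ciSup_le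
    intro w
    exact (hD.tri _ (b', w) _).trans
      (add_le_add (le_ciSup (SupCPM_bdd hD b b') w) (le_ciSup (SupCPM_bdd hD b' b'') w))
  · have h1 : Continuous (Function.uncurry
        fun (p : B × B) (w : W) => D (p.1, w) (p.2, w)) := by
      have h2 : Continuous fun q : (B × B) × W =>
          (((q.1.1, q.2), (q.1.2, q.2)) : (B × W) × (B × W)) := by fun_prop
      exact hD.cont.comp h2
    have h3 := IsCompact.continuous_sSup (f := fun (p : B × B) (w : W) => D (p.1, w) (p.2, w))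
      (isCompact_univ (X := W)) h1
    simp only [image_univ] at h3
    exact h3
  · intro b b' w
    exact le_ciSup (SupCPM_bdd hD b b') w

end M202

end

section

/-!
MP_202a65_gt, item TL (transfer lemma), helper79.
-/

open Set Topology unitInterval

namespace M202

/-- Uniform continuity of a pulled back continuous pseudometric on a cube. -/
theorem TL_unif {m : ℕ} {B : Type} [TopologicalSpace B] {D : B → B → ℝ} (hD : IsCPM D)
    {be : Cube m → B} (hbe : Continuous be) {ep : ℝ} (hep : 0 < ep) :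
    ∃ w : ℝ, 0 < w ∧ w < 1 / 2 ∧ ∀ x y : Cube m, dist y x ≤ w → D (be y) (be x) ≤ ep := by
  have hc : Continuous (fun p : Cube m × Cube m => D (be p.1) (be p.2)) :=
    hD.cont.comp (f := fun p : Cube m × Cube m => (be p.1, be p.2))
      ((hbe.comp continuous_fst).prodMk (hbe.comp continuous_snd))
  have hu := CompactSpace.uniformContinuous_of_continuous hc
  rw [Metric.uniformContinuous_iff] at hu
  obtain ⟨de, hde, h⟩ := hu ep hep
  refine ⟨min (de / 2) (1 / 4), lt_min (by linarith) (by norm_num),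
    lt_of_le_of_lt (min_le_right _ _) (by norm_num), fun x y hxy => ?_⟩
  have h1 : dist (y, x) (x, x) < de := by
    rw [Prod.dist_eq, dist_self, max_eq_left dist_nonneg]
    have := hxy.trans (min_le_left _ _)
    linarith
  have h2 := h h1
  rw [hD.self, Real.dist_eq, sub_zero] at h2
  exact le_of_lt (lt_of_le_of_lt (le_abs_self _) h2)

theorem pr_TL (h1 : S_HepMap) (h2 : S_TrackFix) : S_TL := by
  intro m A B _ _ D th be al ga K al1 G1 ze ep hD hth hbe hK hK0 hga hga0 hga1 hal1 hal1K hG1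
    hG10 hG11 hG1a hG1b hDK hDG1 hep
  obtain ⟨w, hw0, hw1, hw⟩ := TL_unif hD hbe (half_pos hep)
  -- extend the homotopy K backwards
  have hKs : ContinuousOn (fun p : I × Cube m => K (σ p.1, p.2)) (univ ×ˢ bd m) := by
    apply hK.comp (f := fun p : I × Cube m => (σ p.1, p.2)) (by fun_prop)
    intro p hp
    exact ⟨trivial, hp.2⟩
  obtain ⟨H, hHc, hH0, hHbd, hHy⟩ := h1 m A al1 (fun p => K (σ p.1, p.2)) w hal1 hKs
    (fun x hx => by simp only [unitInterval.symm_zero]; exact (hal1K x hx).symm) hw0 hw1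
  have hDH : ∀ t x, D (th (H (t, x))) (be x) ≤ ze + ep / 2 := by
    intro t x
    obtain ⟨y, hy, h | ⟨hyb, s, -, h⟩⟩ := hHy t x
    · rw [h]
      have e1 := hD.tri (th (al1 y)) (be y) (be x)
      have e2 := hDG1 0 y
      rw [hG10] at e2
      have e3 := hw x y hy
      linarith
    · rw [h]
      have e1 := hD.tri (th (K (σ s, y))) (be y) (be x)
      have e2 := hDK (σ s) y hyb
      have e3 := hw x y hy
      simp only
      linarith
  -- the homotopy G2
  let pr : ℝ → I := projIcc (0 : ℝ) 1 zero_le_one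
  have hpr : Continuous pr := continuous_projIcc
  have hpr0 : pr 0 = 0 := projIcc_left zero_le_one
  have hpr1 : pr 1 = 1 := projIcc_right zero_le_one
  have hprt : ∀ t : I, pr t = t := fun t => projIcc_val zero_le_one t
  have hprv : ∀ s : ℝ, 0 ≤ s → s ≤ 1 → ((pr s : I) : ℝ) = s := fun s h0 h1 => by
    show ((projIcc (0 : ℝ) 1 zero_le_one s : I) : ℝ) = s
    rw [projIcc_of_mem zero_le_one ⟨h0, h1⟩]
  let G2 : I × Cube m → B := fun p =>
    if (p.1 : ℝ) ≤ 1 / 2 then th (H (pr (1 - 2 * (p.1 : ℝ)), p.2))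
    else G1 (pr (2 * (p.1 : ℝ) - 1), p.2)
  have hG2c : Continuous G2 := by
    apply Continuous.if_le
    · apply hth.comp
      apply hHc.comp
      exact (hpr.comp (by fun_prop)).prodMk continuous_snd
    · apply hG1.comp
      exact (hpr.comp (by fun_prop)).prodMk continuous_snd
    · fun_prop
    · fun_prop
    · intro p hp
      rw [hp]
      have a1 : (1 : ℝ) - 2 * (1 / 2) = 0 := by norm_num
      have a2 : (2 : ℝ) * (1 / 2) - 1 = 0 := by norm_num
      rw [a1, a2, hpr0, hH0, hG10]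
  have hG20 : ∀ x, G2 (0, x) = th (H (1, x)) := by
    intro x
    show (if ((0 : I) : ℝ) ≤ 1 / 2 then _ else _) = _
    rw [if_pos (by simp)]
    simp only [Icc.coe_zero, mul_zero, sub_zero, hpr1]
  have hG21 : ∀ x, G2 (1, x) = be x := by
    intro x
    show (if ((1 : I) : ℝ) ≤ 1 / 2 then _ else _) = _
    rw [if_neg (by norm_num)]
    have : (2 : ℝ) * ((1 : I) : ℝ) - 1 = 1 := by simp; norm_num
    show G1 (pr (2 * ((1 : I) : ℝ) - 1), x) = be x
    rw [this, hpr1, hG11]
  have hDG2 : ∀ t x, D (G2 (t, x)) (be x) ≤ ze + ep / 2 := by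
    intro t x
    show D (if (t : ℝ) ≤ 1 / 2 then _ else _) _ ≤ _
    split_ifs with h
    · exact hDH _ x
    · have := hDG1 (pr (2 * (t : ℝ) - 1)) x
      linarith
  -- the path L_x
  let Lf : ℝ × Cube m → B := fun p =>
    if p.1 ≤ 0 then th (K (pr (-p.1), p.2)) else ga (pr p.1, p.2)
  have hLc : Continuous (fun p : ℝ × bd m => Lf (p.1, (p.2 : Cube m))) := by
    show Continuous (fun p : ℝ × bd m => if p.1 ≤ 0 then th (K (pr (-p.1), (p.2 : Cube m)))
      else ga (pr p.1, (p.2 : Cube m)))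
    apply Continuous.if_le
    · apply hth.comp
      apply hK.comp_continuous
      · exact (hpr.comp (by fun_prop)).prodMk (continuous_subtype_val.comp continuous_snd)
      · intro p
        exact ⟨trivial, p.2.2⟩
    · apply hga.comp_continuous
      · exact (hpr.comp (by fun_prop)).prodMk (continuous_subtype_val.comp continuous_snd)
      · intro p
        exact ⟨trivial, p.2.2⟩
    · fun_prop
    · fun_prop
    · intro p hp
      rw [hp, neg_zero, hpr0, hK0 _ p.2.2, hga0 _ p.2.2]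
  have hLD : ∀ s : ℝ, s ≤ 1 → ∀ x ∈ bd m, D (Lf (s, x)) (be x) ≤ ze := by
    intro s hs1 x hx
    show D (if s ≤ 0 then _ else _) _ ≤ _
    split_ifs with h
    · exact hDK _ x hx
    · rw [not_le] at h
      have e := hG1b x hx (pr ((1 + s) / 2)) (pr s)
        (by rw [hprv _ (by linarith) (by linarith)]; linarith)
        (by rw [hprv s h.le hs1, hprv ((1 + s) / 2) (by linarith) (by linarith)]; ring)
      have e2 := hDG1 (pr ((1 + s) / 2)) x
      rw [e] at e2
      exact e2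
  have hLpos : ∀ t : I, ∀ x ∈ bd m, Lf ((t : ℝ), x) = ga (t, x) := by
    intro t x hx
    show (if (t : ℝ) ≤ 0 then _ else _) = _
    split_ifs with h
    · have ht : t = 0 := by
        apply le_antisymm
        · exact_mod_cast h
        · exact t.2.1
      subst ht
      simp only [Icc.coe_zero, neg_zero, hpr0]
      rw [hK0 x hx, hga0 x hx]
    · simp only [hprt]
  -- G2 on the boundary
  let f0 : ℝ → ℝ := fun t => max (-2 * t) (4 * t - 3)
  have hf0c : Continuous f0 := by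
    show Continuous (fun t : ℝ => max (-2 * t) (4 * t - 3))
    fun_prop
  have hf01 : ∀ t : I, f0 t ≤ 1 := by
    intro t
    have := t.2.1
    have := t.2.2
    apply max_le <;> linarith
  have hG2L : ∀ t : I, ∀ x ∈ bd m, G2 (t, x) = Lf (f0 t, x) := by
    intro t x hx
    have ht0 := t.2.1
    have ht1 := t.2.2
    rcases le_or_gt (t : ℝ) (1 / 2) with h | h
    · have e1 : f0 t = -2 * t := max_eq_left (by linarith)
      show (if (t : ℝ) ≤ 1 / 2 then _ else _) = Lf (f0 t, x)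
      rw [if_pos h, e1, hHbd _ x hx]
      show _ = (if -2 * (t : ℝ) ≤ 0 then _ else _)
      rw [if_pos (by linarith)]
      simp only
      congr 3
      apply Subtype.ext
      rw [unitInterval.coe_symm_eq, hprv _ (by linarith) (by linarith),
        hprv _ (by linarith) (by linarith)]
      ring
    · have e1 : f0 t = 4 * t - 3 := max_eq_right (by linarith)
      show (if (t : ℝ) ≤ 1 / 2 then _ else _) = Lf (f0 t, x)
      rw [if_neg (by linarith), e1]
      show G1 (pr (2 * (t : ℝ) - 1), x) = (if 4 * (t : ℝ) - 3 ≤ 0 then _ else _)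
      rcases le_or_gt (4 * (t : ℝ) - 3) 0 with h' | h'
      · rw [if_pos h']
        apply hG1a x hx
        · rw [hprv _ (by linarith) (by linarith)]
          linarith
        · rw [hprv _ (by linarith) (by linarith), hprv _ (by linarith) (by linarith)]
          ring
      · rw [if_neg (by linarith)]
        apply hG1b x hx
        · rw [hprv _ (by linarith) (by linarith)]
          linarith
        · rw [hprv _ (by linarith) (by linarith), hprv _ (by linarith) (by linarith)]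
          ring
  let La : I × (I × Cube m) → B := fun p =>
    Lf ((1 - (p.1 : ℝ)) * f0 (p.2.1 : ℝ) + (p.1 : ℝ) * (p.2.1 : ℝ), p.2.2)
  have hLac : ContinuousOn La {p | p.2.2 ∈ bd m} := by
    rw [continuousOn_iff_continuous_domRestrict]
    have hg : Continuous (fun p : {p : I × (I × Cube m) | p.2.2 ∈ bd m} =>
        (((1 - (p.1.1 : ℝ)) * f0 (p.1.2.1 : ℝ) + (p.1.1 : ℝ) * (p.1.2.1 : ℝ) : ℝ),
          (⟨p.1.2.2, p.2⟩ : bd m))) := by
      apply Continuous.prodMk
      · have := hf0c.comp (continuous_subtype_val.comp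
          (continuous_fst.comp (continuous_snd.comp
            (continuous_subtype_val (p := fun p : I × (I × Cube m) => p.2.2 ∈ bd m)))))
        have h3 : Continuous (fun p : {p : I × (I × Cube m) | p.2.2 ∈ bd m} =>
            f0 (p.1.2.1 : ℝ)) := this
        fun_prop
      · apply Continuous.subtype_mk
        fun_prop
    exact hLc.comp hg
  obtain ⟨G, hGc, hG0, hG1', hGbd, hGD⟩ := h2 m B D G2 La (ze + ep / 2) (ep / 2) hD hG2c hLac
    (fun t x hx => by
      show Lf ((1 - ((0 : I) : ℝ)) * f0 (t : ℝ) + ((0 : I) : ℝ) * (t : ℝ), x) = G2 (t, x)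
      rw [hG2L t x hx]
      congr 2
      simp)
    (fun u x hx => by
      show Lf ((1 - (u : ℝ)) * f0 ((0 : I) : ℝ) + (u : ℝ) * ((0 : I) : ℝ), x) = G2 (0, x)
      rw [hG2L 0 x hx]
      have : f0 ((0 : I) : ℝ) = 0 := by
        show max (-2 * ((0 : I) : ℝ)) (4 * ((0 : I) : ℝ) - 3) = 0
        simp
      rw [this]
      congr 2
      simp)
    (fun u x hx => by
      show Lf ((1 - (u : ℝ)) * f0 ((1 : I) : ℝ) + (u : ℝ) * ((1 : I) : ℝ), x) = G2 (1, x)
      rw [hG2L 1 x hx]
      have : f0 ((1 : I) : ℝ) = 1 := by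
        show max (-2 * ((1 : I) : ℝ)) (4 * ((1 : I) : ℝ) - 3) = 1
        simp
        norm_num
      rw [this]
      congr 2
      simp)
    (fun t x => by rw [hG21]; exact hDG2 t x)
    (fun u t x hx => by
      rw [hG21]
      have : D (Lf ((1 - (u : ℝ)) * f0 (t : ℝ) + (u : ℝ) * (t : ℝ), x)) (be x) ≤ ze := by
        apply hLD _ _ x hx
        have a1 := hf01 t
        have a2 := t.2.2
        have a3 := u.2.1
        have a4 := u.2.2
        nlinarith
      show D (Lf ((1 - (u : ℝ)) * f0 (t : ℝ) + (u : ℝ) * (t : ℝ), x)) (be x) ≤ _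
      linarith)
    (half_pos hep)
  refine ⟨fun x => H (1, x), G, by fun_prop, hGc, ?_, ?_, ?_, ?_, ?_⟩
  · intro x hx
    show H (1, x) = al x
    rw [hHbd 1 x hx, ← hK0 x hx]
    simp
  · intro t x hx
    rw [hGbd t x hx]
    show Lf ((1 - ((1 : I) : ℝ)) * f0 (t : ℝ) + ((1 : I) : ℝ) * (t : ℝ), x) = ga (t, x)
    rw [← hLpos t x hx]
    congr 2
    simp
  · intro x
    rw [hG0, hG20]
  · intro x
    rw [hG1', hG21]
  · intro t x
    have := hGD t x
    rw [hG21] at this
    linarith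

end M202

end

section

/-!
MP_202a65_gt, item TrackFix (helper70): changing a homotopy along a homotopy of its restriction to
the boundary.
-/

open Set Topology unitInterval

namespace M202

lemma TrackFix_closed_bd (m : ℕ) : IsClosed (bd m) := by
  have : bd m = ⋃ i : Fin m, ({y : Cube m | y i = 0} ∪ {y : Cube m | y i = 1}) := by
    ext y
    simp [bd]
  rw [this]
  refine isClosed_iUnion_of_finite fun i => IsClosed.union ?_ ?_
  · exact isClosed_eq (continuous_apply i) continuous_const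
  · exact isClosed_eq (continuous_apply i) continuous_const

/-- the identification of `I^{m+1}` with `I × I^m` -/
def TrackFix_phi {m : ℕ} (y : Cube (m + 1)) : I × Cube m := (y 0, fun i => y i.succ)

/-- its inverse -/
def TrackFix_psi {m : ℕ} (p : I × Cube m) : Cube (m + 1) := Fin.cons p.1 p.2

lemma TrackFix_phi_psi {m : ℕ} (p : I × Cube m) : TrackFix_phi (TrackFix_psi p) = p := by
  unfold TrackFix_phi TrackFix_psi
  ext1
  · simp
  · funext i
    simp

lemma TrackFix_cont_phi {m : ℕ} : Continuous (TrackFix_phi (m := m)) := by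
  unfold TrackFix_phi
  fun_prop

lemma TrackFix_cont_psi {m : ℕ} : Continuous (TrackFix_psi (m := m)) := by
  refine continuous_pi fun i => ?_
  refine Fin.cases ?_ (fun j => ?_) i
  · simpa [TrackFix_psi] using continuous_fst
  · simp only [TrackFix_psi, Fin.cons_succ]
    exact (continuous_apply j).comp continuous_snd

lemma TrackFix_bd_iff {m : ℕ} (y : Cube (m + 1)) :
    y ∈ bd (m + 1) ↔ (y 0 = 0 ∨ y 0 = 1) ∨ (TrackFix_phi y).2 ∈ bd m := by
  constructor
  · rintro ⟨i, hi⟩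
    revert hi
    refine Fin.cases ?_ (fun j => ?_) i
    · intro h; exact Or.inl h
    · intro h; exact Or.inr ⟨j, h⟩
  · rintro (h | ⟨j, hj⟩)
    · exact ⟨0, h⟩
    · exact ⟨j.succ, hj⟩

lemma TrackFix_dist {m : ℕ} (y y' : Cube (m + 1)) :
    dist (TrackFix_phi y').2 (TrackFix_phi y).2 ≤ dist y' y := by
  rw [dist_pi_le_iff dist_nonneg]
  intro i
  exact dist_le_pi_dist y' y i.succ

theorem pr_TrackFix (h1 : S_HepMap) : S_TrackFix := by
  classical
  intro m B _ D G2 La ze ep hD hG2 hLa hLa0 hLat0 hLat1 hze hLaze hep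
  -- uniform continuity
  obtain ⟨de, hde, hunif⟩ : ∃ de : ℝ, 0 < de ∧ ∀ x x' : Cube m, dist x' x < de →
      D (G2 (1, x')) (G2 (1, x)) ≤ ep := by
    have hc : Continuous (fun p : Cube m × Cube m => D (G2 (1, p.2)) (G2 (1, p.1))) := by
      have h2 : Continuous (fun p : Cube m × Cube m =>
          ((G2 (1, p.2), G2 (1, p.1)) : B × B)) := by fun_prop
      exact hD.cont.comp h2
    have hu := CompactSpace.uniformContinuous_of_continuous hc
    rw [Metric.uniformContinuous_iff] at hu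
    obtain ⟨de, hde, h⟩ := hu ep hep
    refine ⟨de, hde, fun x x' hxx => ?_⟩
    have h3 : dist ((x, x') : Cube m × Cube m) (x, x) < de := by
      rw [Prod.dist_eq]
      simp only [dist_self]
      exact max_lt hde hxx
    have h4 := h h3
    simp only [hD.self] at h4
    rw [Real.dist_eq, sub_zero] at h4
    exact (le_abs_self _).trans h4.le
  set w : ℝ := min (de / 2) (1 / 4) with hw
  have hw0 : 0 < w := lt_min (by linarith) (by norm_num)
  have hw2 : w < 1 / 2 := lt_of_le_of_lt (min_le_right _ _) (by norm_num)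
  have hwde : w < de := lt_of_le_of_lt (min_le_left _ _) (by linarith)
  set f : Cube (m + 1) → B := fun y => G2 (TrackFix_phi y) with hf
  set h : I × Cube (m + 1) → B := fun p =>
    if p.2 0 = 0 ∨ p.2 0 = 1 then G2 (TrackFix_phi p.2) else La (p.1, TrackFix_phi p.2) with hh
  have hfc : Continuous f := hG2.comp TrackFix_cont_phi
  have hA : ∀ p : I × Cube (m + 1), (p.2 0 = 0 ∨ p.2 0 = 1) → h p = G2 (TrackFix_phi p.2) := by
    intro p hp
    simp [hh, hp]
  have hB : ∀ p : I × Cube (m + 1), (TrackFix_phi p.2).2 ∈ bd m →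
      h p = La (p.1, TrackFix_phi p.2) := by
    intro p hp
    by_cases hp0 : p.2 0 = 0 ∨ p.2 0 = 1
    · rw [hA p hp0]
      rcases hp0 with h0 | h0
      · have e : TrackFix_phi p.2 = ((0 : I), (TrackFix_phi p.2).2) := by
          ext1
          · exact h0
          · rfl
        rw [e]
        exact (hLat0 _ _ hp).symm
      · have e : TrackFix_phi p.2 = ((1 : I), (TrackFix_phi p.2).2) := by
          ext1
          · exact h0
          · rfl
        rw [e]
        exact (hLat1 _ _ hp).symm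
    · simp only [hh, if_neg hp0]
  have hhc : ContinuousOn h (univ ×ˢ bd (m + 1)) := by
    have e : (univ ×ˢ bd (m + 1) : Set (I × Cube (m + 1))) =
        {p | p.2 0 = 0 ∨ p.2 0 = 1} ∪ {p | (TrackFix_phi p.2).2 ∈ bd m} := by
      ext p
      simp only [mem_prod, mem_univ, true_and, mem_union, mem_ofPred_eq]
      exact TrackFix_bd_iff p.2
    rw [e]
    have c0 : Continuous (fun p : I × Cube (m + 1) => p.2 0) := by fun_prop
    have cl1 : IsClosed {p : I × Cube (m + 1) | p.2 0 = 0 ∨ p.2 0 = 1} := by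
      have : {p : I × Cube (m + 1) | p.2 0 = 0 ∨ p.2 0 = 1} =
          {p : I × Cube (m + 1) | p.2 0 = 0} ∪ {p : I × Cube (m + 1) | p.2 0 = 1} := by
        ext p; simp
      rw [this]
      exact (isClosed_eq c0 continuous_const).union (isClosed_eq c0 continuous_const)
    have cphi : Continuous (fun p : I × Cube (m + 1) => TrackFix_phi p.2) :=
      TrackFix_cont_phi.comp continuous_snd
    have cl2 : IsClosed {p : I × Cube (m + 1) | (TrackFix_phi p.2).2 ∈ bd m} :=
      (TrackFix_closed_bd m).preimage (continuous_snd.comp cphi)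
    refine ContinuousOn.union_of_isClosed ?_ ?_ cl1 cl2
    · refine ContinuousOn.congr (f := fun p => G2 (TrackFix_phi p.2)) ?_ ?_
      · exact (hG2.comp cphi).continuousOn
      · intro p hp
        exact hA p hp
    · refine ContinuousOn.congr (f := fun p => La (p.1, TrackFix_phi p.2)) ?_ ?_
      · refine hLa.comp (continuous_fst.prodMk cphi).continuousOn ?_
        intro p hp
        exact hp
      · intro p hp
        exact hB p hp
  have hhf : ∀ y ∈ bd (m + 1), h (0, y) = f y := by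
    intro y hy
    rcases (TrackFix_bd_iff y).1 hy with h0 | h0
    · exact hA (0, y) h0
    · rw [hB (0, y) h0]
      exact hLa0 _ _ h0
  obtain ⟨H, hHc, hH0, hHbd, hHtr⟩ := h1 (m + 1) B f h w hfc hhc hhf hw0 hw2
  refine ⟨fun p => H (1, TrackFix_psi p), ?_, ?_, ?_, ?_, ?_⟩
  · have := TrackFix_cont_psi (m := m)
    fun_prop
  · intro x
    have h0 : (TrackFix_psi ((0 : I), x)) 0 = 0 := by simp [TrackFix_psi]
    have hb : TrackFix_psi ((0 : I), x) ∈ bd (m + 1) := ⟨0, Or.inl h0⟩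
    show H (1, TrackFix_psi ((0 : I), x)) = _
    rw [hHbd 1 _ hb, hA (1, TrackFix_psi ((0 : I), x)) (Or.inl h0), TrackFix_phi_psi]
  · intro x
    have h0 : (TrackFix_psi ((1 : I), x)) 0 = 1 := by simp [TrackFix_psi]
    have hb : TrackFix_psi ((1 : I), x) ∈ bd (m + 1) := ⟨0, Or.inr h0⟩
    show H (1, TrackFix_psi ((1 : I), x)) = _
    rw [hHbd 1 _ hb, hA (1, TrackFix_psi ((1 : I), x)) (Or.inr h0), TrackFix_phi_psi]
  · intro t x hx
    have hx2 : (TrackFix_phi (TrackFix_psi (t, x))).2 ∈ bd m := by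
      rw [TrackFix_phi_psi]; exact hx
    have hb : TrackFix_psi (t, x) ∈ bd (m + 1) := (TrackFix_bd_iff _).2 (Or.inr hx2)
    show H (1, TrackFix_psi (t, x)) = _
    rw [hHbd 1 _ hb, hB (1, TrackFix_psi (t, x)) hx2, TrackFix_phi_psi]
  · intro t x
    show D (H (1, TrackFix_psi (t, x))) (G2 (1, x)) ≤ ze + ep
    obtain ⟨y, hy, hcase⟩ := hHtr 1 (TrackFix_psi (t, x))
    have hd : dist (TrackFix_phi y).2 x ≤ w := by
      have := TrackFix_dist (TrackFix_psi (t, x)) y
      rw [TrackFix_phi_psi] at this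
      exact this.trans hy
    have hD2 : D (G2 (1, (TrackFix_phi y).2)) (G2 (1, x)) ≤ ep := hunif _ _ (hd.trans_lt hwde)
    have key : D (H (1, TrackFix_psi (t, x))) (G2 (1, (TrackFix_phi y).2)) ≤ ze := by
      rcases hcase with hc | ⟨hyb, s, -, hc⟩
      · rw [hc]
        exact hze (TrackFix_phi y).1 (TrackFix_phi y).2
      · rw [hc]
        rcases (TrackFix_bd_iff y).1 hyb with h0 | h0
        · rw [hA (s, y) h0]
          exact hze (TrackFix_phi y).1 (TrackFix_phi y).2
        · rw [hB (s, y) h0]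
          exact hLaze s (TrackFix_phi y).1 (TrackFix_phi y).2 h0
    exact (hD.tri _ _ _).trans (add_le_add key hD2)

end M202

end

section

/-!
MP_202a65_gt: item UC (uniform continuity of continuous pseudometrics), helper5
-/

open Set Topology unitInterval

namespace M202

theorem UC_nonneg {B : Type} [TopologicalSpace B] {D : B → B → ℝ} (hD : IsCPM D) (x y : B) :
    0 ≤ D x y := by
  have h1 := hD.tri x y x
  rw [hD.self, hD.symm y x] at h1
  linarith

theorem UC_main {X B : Type} [MetricSpace X] [CompactSpace X] [TopologicalSpace B]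
    {D : B → B → ℝ} {f : X → B} (hD : IsCPM D) (hf : Continuous f) {ep : ℝ} (hep : 0 < ep) :
    ∃ de : ℝ, 0 < de ∧ ∀ x y, dist x y ≤ de → D (f x) (f y) ≤ ep := by
  have hc : Continuous fun p : X × X => D (f p.1) (f p.2) := by
    have h2 : Continuous fun p : X × X => ((f p.1, f p.2) : B × B) := by fun_prop
    exact hD.cont.comp h2
  have hu := CompactSpace.uniformContinuous_of_continuous hc
  obtain ⟨de, hde, h⟩ := Metric.uniformContinuous_iff.1 hu ep hep
  refine ⟨de / 2, by linarith, fun x y hxy => ?_⟩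
  have h1 : dist ((x, y) : X × X) (x, x) < de := by
    rw [Prod.dist_eq]
    simp only [dist_self]
    rw [max_lt_iff]
    refine ⟨hde, ?_⟩
    rw [dist_comm]
    linarith
  have h2 := h h1
  simp only [hD.self] at h2
  rw [Real.dist_eq, sub_zero] at h2
  exact (le_abs_self _).trans h2.le

theorem pr_UC : S_UC := by
  refine ⟨?_, ?_, ?_, ?_, ?_, ?_, ?_, ?_⟩
  · intro X _ _ D hD ep hep
    exact UC_main (f := id) hD continuous_id hep
  · intro X B _ _ _ D f hD hf ep hep
    exact UC_main hD hf hep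
  · intro A B _ _ D f hD hf
    refine ⟨fun x => hD.self _, fun x y => hD.symm _ _, fun x y z => hD.tri _ _ _, ?_⟩
    have h2 : Continuous fun p : A × A => ((f p.1, f p.2) : B × B) := by fun_prop
    exact hD.cont.comp h2
  · intro B _ D D' hD hD'
    refine ⟨fun x => by simp [hD.self, hD'.self], fun x y => by rw [hD.symm, hD'.symm],
      fun x y z => ?_, hD.cont.max hD'.cont⟩
    apply max_le
    · exact (hD.tri x y z).trans (add_le_add (le_max_left _ _) (le_max_left _ _))
    · exact (hD'.tri x y z).trans (add_le_add (le_max_right _ _) (le_max_right _ _))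
  · intro B _ D hD x y
    exact UC_nonneg hD x y
  · intro B _ f hf
    refine ⟨fun x => by simp, fun x y => abs_sub_comm _ _, fun x y z => abs_sub_le _ _ _, ?_⟩
    fun_prop
  · intro B _ D k hk hD
    refine ⟨fun x => by simp [hD.self], fun x y => by rw [hD.symm], fun x y z => ?_,
      continuous_const.mul hD.cont⟩
    have := mul_le_mul_of_nonneg_left (hD.tri x y z) hk
    linarith
  · intro X _
    exact ⟨dist_self, dist_comm, dist_triangle, continuous_dist⟩

end M202

end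

section

/-!
MP_202a65_gt: item Comp (helper6).
-/

open Set Topology unitInterval

namespace M202

open CC in
theorem pr_Comp (h1 : S_SoftOfRel) : S_Comp := by
  intro n A B C _ _ _ D e1 e2 th1 th2 hD hth1 hth2 hS1 hS2
  refine h1 n A C D (e1 + e2) (fun a => th2 (th1 a)) hD (hth2.comp hth1) ?_
  intro m hm eta' he be al hbe hal hth
  obtain ⟨e1', e2', he1, he2, hes⟩ : ∃ e1' e2' : ℝ, e1 < e1' ∧ e2 < e2' ∧ e1' + e2' = eta' :=
    ⟨e1 + (eta' - (e1 + e2)) / 2, e2 + (eta' - (e1 + e2)) / 2, by linarith, by linarith, by ring⟩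
  -- lift through th2
  obtain ⟨be', G2, hbe'c, hG2c, hbe'b, hG2b, hG20, hG21, hG2D⟩ :=
    hS2 m hm e2' he2 0 be (fun x => th1 (al x)) (fun p => be p.2) le_rfl hbe.continuousOn
      (hth1.comp_continuousOn hal) (hbe.comp continuous_snd).continuousOn
      (fun x hx => (hth x hx).symm) (fun x hx => rfl)
      (fun t x hx => (hD.self (be x)).le)
  have hbe'c' : Continuous be' := continuousOn_univ.mp hbe'c
  have hG2c' : Continuous G2 := by
    rw [univ_prod_univ] at hG2c
    exact continuousOn_univ.mp hG2c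
  -- lift through th1
  obtain ⟨al', G1, hal'c, hG1c, hal'b, hG1b, hG10, hG11, hG1D⟩ :=
    hS1 m hm e1' he1 0 be' al (fun p => be' p.2) le_rfl hbe'c
      hal (hbe'c'.comp continuous_snd).continuousOn
      (fun x hx => hbe'b x hx) (fun x hx => rfl)
      (fun t x hx => (hD.self (th2 (be' x))).le)
  have hG1c' : Continuous G1 := by
    rw [univ_prod_univ] at hG1c
    exact continuousOn_univ.mp hG1c
  have hnn1 : 0 ≤ e1' := by
    have h3 := le_trans (nonneg hD _ _) (hG1D 0 (ctr m) (mem_univ _))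
    linarith
  refine ⟨al', cc (fun p => th2 (G1 p)) G2, continuousOn_univ.mp hal'c,
    cc_cont (hth2.comp hG1c') hG2c' ?_, hal'b, ?_, ?_, ?_, ?_⟩
  · intro x
    rw [hG11 x (mem_univ _), hG20 x (mem_univ _)]
  · intro t x hx
    obtain ⟨s, hs⟩ | ⟨s, hs⟩ := cc_cases (fun p => th2 (G1 p)) G2 t x
    · rw [hs]
      rw [hG1b s x hx]
      simp only
      rw [hbe'b x hx]
      exact hth x hx
    · rw [hs, hG2b s x hx]
  · intro x
    rw [cc_zero]
    simp only
    rw [hG10 x (mem_univ _)]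
  · intro x
    rw [cc_one, hG21 x (mem_univ _)]
  · intro t x
    obtain ⟨s, hs⟩ | ⟨s, hs⟩ := cc_cases (fun p => th2 (G1 p)) G2 t x
    · rw [hs]
      have h3 := hD.tri (th2 (G1 (s, x))) (th2 (be' x)) (be x)
      have h4 := hG1D s x (mem_univ _)
      have h5 := hG2D 0 x (mem_univ _)
      rw [hG20 x (mem_univ _)] at h5
      linarith
    · rw [hs]
      have h5 := hG2D s x (mem_univ _)
      linarith

end M202

end
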