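import Pool.Agent.Work.MP_202a65_gt.Bd.B01
import Pool.Agent.Work.MP_202a65_gt.TDefs
import Pool.Agent.Work.MP_202a65_gt.Bd.B02

/-! Bundle of small proof modules (one section per former module). -/

section

/-!
MP_202a65_gt (captain helper47): definitions for wave 4 (engine, zigzag, core, assembly).
-/

open Set Topology unitInterval

namespace M202

/-- the sphere S^(n+1) = boundary of the cube of dimension n+2 -/
abbrev SS (n : ℕ) : Type := ↥(bd (n + 2))

/-- the map Z_c → M_a, a ≤ c -/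
noncomputable def sZ (n a c : ℕ) (x : ZM n c) : XM n a := sM n a c (iZ n c c x)

/-- the map M_b → Z_c, c + 1 ≤ b -/
noncomputable def rZ (n c b : ℕ) (x : XM n b) : ZM n c := pZ n c (sM n (c + 1) b x)

/-- metric on M_a which also controls the function ze on the base level bs -/
noncomputable def dst (n bs : ℕ) (ze : XM n bs → ℝ) (a : ℕ) (x y : XM n a) : ℝ :=
  max (dist x y) |ze (sM n bs a x) - ze (sM n bs a y)|

/-- states of the zigzag: f : M_b → M_a is soft with error de, homotopic to the bonding map over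
{ze ≥ z} with tracks ≤ de, and where ze(f w) ≥ z the values ze(f w), ze(w) differ by at most om -/
def ZSt (n bs : ℕ) (ze : XM n bs → ℝ) (a b : ℕ) (f : XM n b → XM n a) (de z om : ℝ) : Prop :=
  bs ≤ a ∧ a ≤ b ∧ 0 < de ∧ 0 ≤ om ∧ Continuous f ∧ Soft n (dst n bs ze a) de f ∧
  (∃ Ga : I × XM n b → XM n a, ContinuousOn Ga (univ ×ˢ {w | z ≤ ze (sM n bs b w)}) ∧
    ∀ w, z ≤ ze (sM n bs b w) → Ga (0, w) = f w ∧ Ga (1, w) = sM n a b w ∧
      ∀ t, dst n bs ze a (Ga (t, w)) (sM n a b w) ≤ de) ∧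
  (∀ w, z ≤ ze (sM n bs a (f w)) → |ze (sM n bs a (f w)) - ze (sM n bs b w)| ≤ om)

/-- the pinched sphere bundle over M_bs: sphere of radius la v / 2 over v -/
def Pin (n bs : ℕ) (la : XM n bs → ℝ) : Set (XM n bs × Cube (n + 2)) :=
  {p | dist p.2 (ctr (n + 2)) = la p.1 / 2}

/-- data for the core lemma: la, ze on the base level bs; a partial open embedding g of mu,
defined on the open set V', containing the compact K which contains every x such that la is
positive at some point d1-close to si x -/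
structure CoreData (n bs : ℕ) (la ze : XM n bs → ℝ) (V' K : Set (UM n)) (g : UM n → UM n)
    (d1 : ℝ) : Prop where
  contla : Continuous la
  la0 : ∀ v, 0 ≤ la v
  la1 : ∀ v, la v ≤ 1
  contze : Continuous ze
  sep : ∃ d : ℝ, 0 < d ∧ ∀ v v', dist v v' ≤ d → 0 < ze v → la v' = 0
  openV : IsOpen V'
  contg : ContinuousOn g V'
  injg : InjOn g V'
  openg : ∀ W, W ⊆ V' → IsOpen W → IsOpen (g '' W)
  compK : IsCompact K
  subK : K ⊆ V'
  d1pos : 0 < d1
  supp : ∀ (x : UM n) (v : XM n bs), dist v (si n bs x) ≤ d1 → 0 < la v → x ∈ K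

/-- pp is the map mu → Pin, x ↦ (si x, - la (si x) u(x)) (in centred coordinates) -/
def IsPP (n bs : ℕ) (la : XM n bs → ℝ) (u : UM n → SS n) (pp : UM n → ↥(Pin n bs la)) : Prop :=
  Continuous pp ∧ ∀ x, (pp x).1.1 = si n bs x ∧
    ∀ l, (((pp x).1.2 l : unitInterval) : ℝ) - 1 / 2 =
      - (la (si n bs x)) * ((((u x : Cube (n + 2)) l : unitInterval) : ℝ) - 1 / 2)

/-- th is the pinching map M_bs × S^(n+1) → Pin, (v,u) ↦ (v, la(v) u) -/
def IsPinch (n bs : ℕ) (la : XM n bs → ℝ) (th : XM n bs × SS n → ↥(Pin n bs la)) : Prop :=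
  Continuous th ∧ ∀ (v : XM n bs) (u : SS n), (th (v, u)).1.1 = v ∧
    ∀ l, (((th (v, u)).1.2 l : unitInterval) : ℝ) - 1 / 2 =
      la v * ((((u : Cube (n + 2)) l : unitInterval) : ℝ) - 1 / 2)

end M202

end

section

/-!
MP_202a65_gt, item GP2 (helper40): general position, few coordinates in a finite set.
-/

open Set Topology unitInterval

namespace M202

theorem pr_GP2 : S_GP2 := by
  intro m n N S F E ep hS hdim hF hE hep
  obtain ⟨K, F1, hK, hF1⟩ := GP_lip S F (ep / 2) hS hF (by positivity)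
  have : Countable E := hE.countable.to_subtype
  let T : ((Fin (n + 1) → Fin N) × (Fin (n + 1) → E)) → Set (Fin (n + 1) → ℝ) := fun p =>
    (fun x : Cube m => fun i => (p.2 i : ℝ) - F1 x (p.1 i)) '' S
  have hTlip : ∀ p : (Fin (n + 1) → Fin N) × (Fin (n + 1) → E),
      LipschitzWith K (fun x : Cube m => fun i => (p.2 i : ℝ) - F1 x (p.1 i)) := by
    intro p
    refine LipschitzWith.of_dist_le_mul fun x y => ?_
    rw [dist_pi_le_iff (by positivity)]
    intro i
    have h1 : dist (F1 x (p.1 i)) (F1 y (p.1 i)) ≤ dist (F1 x) (F1 y) := dist_le_pi_dist _ _ _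
    have h2 : dist ((p.2 i : ℝ) - F1 x (p.1 i)) ((p.2 i : ℝ) - F1 y (p.1 i)) =
        dist (F1 x (p.1 i)) (F1 y (p.1 i)) := by
      rw [Real.dist_eq, Real.dist_eq, ← abs_neg]
      congr 1
      ring
    rw [h2]
    exact h1.trans (hK.dist_le_mul x y)
  let G : ({J : Fin (n + 1) → Fin N // Function.Injective J} × (Fin (n + 1) → E)) →
      Set (Fin N → ℝ) := fun p => (fun v : Fin N → ℝ => fun i => v (p.1.1 i)) ⁻¹' (T (p.1.1, p.2))ᶜ
  have hGopen : ∀ p, IsOpen (G p) := by
    intro p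
    refine IsOpen.preimage (by fun_prop) ?_
    rw [isOpen_compl_iff]
    exact (hS.isCompact.image (hTlip _).continuous).isClosed
  have hGdense : ∀ p, Dense (G p) := by
    intro p
    have hopen : IsOpenMap (LinearMap.funLeft ℝ ℝ p.1.1) := by
      apply LinearMap.isOpenMap_of_finiteDimensional
      exact LinearMap.funLeft_surjective_of_injective ℝ ℝ p.1.1 p.1.2
    have hd : Dense (T (p.1.1, p.2))ᶜ := by
      apply dense_compl_of_dimH_lt_finrank
      rw [Module.finrank_fin_fun]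
      exact ((hTlip _).dimH_image_le S).trans_lt hdim
    exact hd.preimage hopen
  have hall : Dense (⋂ p, G p) := dense_iInter_of_isOpen hGopen hGdense
  obtain ⟨v, hv, hvd⟩ := hall.exists_dist_lt 0 (half_pos hep)
  rw [mem_iInter] at hv
  refine ⟨fun x => F1 x + v, hK.continuous.add continuous_const, ?_, ?_⟩
  · intro x hx
    have h1 : dist (F1 x + v) (F1 x) ≤ ep / 2 := by
      rw [dist_eq_norm]
      have : F1 x + v - F1 x = v := by abel
      rw [this]
      rw [dist_zero_left] at hvd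
      exact hvd.le
    calc dist (F1 x + v) (F x) ≤ dist (F1 x + v) (F1 x) + dist (F1 x) (F x) := dist_triangle _ _ _
      _ ≤ ep / 2 + ep / 2 := add_le_add h1 (hF1 x hx)
      _ = ep := by ring
  · intro x hx
    by_contra hcon
    push Not at hcon
    have hfin : ({i | (F1 x + v) i ∈ E} : Set (Fin N)).Finite := Set.toFinite _
    obtain ⟨t, ht, htc⟩ : ∃ t : Finset (Fin N), (∀ i ∈ t, (F1 x + v) i ∈ E) ∧ t.card = n + 1 := by
      have hc : n + 1 ≤ hfin.toFinset.card := by
        rw [← Set.ncard_eq_toFinset_card _ hfin]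
        exact hcon
      obtain ⟨t, ht, htc⟩ := Finset.exists_subset_card_eq hc
      refine ⟨t, fun i hi => ?_, htc⟩
      have := ht hi
      simpa using this
    let J : Fin (n + 1) → Fin N := fun i => (t.orderEmbOfFin htc i : Fin N)
    have hJ : Function.Injective J := (t.orderEmbOfFin htc).injective
    have hJt : ∀ i, J i ∈ t := fun i => Finset.orderEmbOfFin_mem t htc i
    have := hv (⟨J, hJ⟩, fun i => ⟨(F1 x + v) (J i), ht _ (hJt i)⟩)
    apply this
    refine ⟨x, hx, ?_⟩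
    funext i
    simp

end M202

end

section

/-!
MP_202a65_gt: general position in M_b
-/

open Set Topology unitInterval Filter

namespace M202

theorem GPM_closed (N : ℕ) (E : Set ℝ) (hE : E.Finite) (k : ℕ) :
    IsClosed {x : Cube N | k ≤ {i | (x i : ℝ) ∈ E}.ncard} := by
  have h : {x : Cube N | k ≤ {i | (x i : ℝ) ∈ E}.ncard} =
      ⋃ s ∈ {s : Finset (Fin N) | k ≤ s.card}, {x : Cube N | ∀ i ∈ s, (x i : ℝ) ∈ E} := by
    ext x
    simp only [mem_ofPred_eq, mem_iUnion, exists_prop]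
    constructor
    · intro hx
      refine ⟨(Set.toFinite {i | (x i : ℝ) ∈ E}).toFinset, ?_, ?_⟩
      · rw [← Set.ncard_eq_toFinset_card]
        exact hx
      · intro i hi
        simpa using hi
    · rintro ⟨s, hs, hx⟩
      refine hs.trans ?_
      rw [← Set.ncard_coe_finset]
      exact Set.ncard_le_ncard (fun i hi => hx i hi) (Set.toFinite _)
  rw [h]
  refine Set.Finite.isClosed_biUnion (Set.toFinite _) fun s _ => ?_
  have h2 : {x : Cube N | ∀ i ∈ s, (x i : ℝ) ∈ E} = ⋂ i ∈ s, {x : Cube N | (x i : ℝ) ∈ E} := by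
    ext x
    simp
  rw [h2]
  refine isClosed_biInter fun i _ => ?_
  exact hE.isClosed.preimage (continuous_subtype_val.comp (continuous_apply i))

theorem GPM_bd_closed (m : ℕ) : IsClosed (bd m) := by
  have h : bd m = ⋃ i, ({y : Cube m | y i = 0} ∪ {y : Cube m | y i = 1}) := by
    ext y
    simp [bd]
  rw [h]
  refine isClosed_iUnion_of_finite fun i => ?_
  exact (isClosed_eq (continuous_apply i) continuous_const).union
    (isClosed_eq (continuous_apply i) continuous_const)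

theorem GPM_unif {X : Type} [MetricSpace X] (D : X → X → ℝ) (hD : IsCPM D) (K : Set X)
    (hK : IsCompact K) (ep : ℝ) (hep : 0 < ep) :
    ∃ de : ℝ, 0 < de ∧ ∀ x ∈ K, ∀ y, dist y x ≤ de → D y x ≤ ep := by
  have h1 : IsCompact ((fun x : X => (x, x)) '' K) :=
    hK.image (continuous_id.prodMk continuous_id)
  have h2 : IsOpen {p : X × X | D p.1 p.2 < ep} := isOpen_lt hD.cont continuous_const
  have h3 : ((fun x : X => (x, x)) '' K) ⊆ {p : X × X | D p.1 p.2 < ep} := by
    rintro _ ⟨x, _, rfl⟩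
    show D x x < ep
    rw [hD.self]
    exact hep
  obtain ⟨de, hde, hsub⟩ := h1.exists_thickening_subset_open h2 h3
  refine ⟨de / 2, by positivity, fun x hx y hxy => ?_⟩
  have h4 : (y, x) ∈ Metric.thickening de ((fun x : X => (x, x)) '' K) := by
    rw [Metric.mem_thickening_iff]
    refine ⟨(x, x), ⟨x, hx, rfl⟩, ?_⟩
    rw [Prod.dist_eq]
    simp only [dist_self]
    rw [max_lt_iff]
    exact ⟨by linarith, hde⟩
  exact (hsub h4).le

theorem GPM_core (h1 : S_Omega) (h2 : S_GP2) (h3 : S_DimH) (n b : ℕ) (E : Set ℝ) (hn : 1 ≤ n)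
    (hE : E.Finite) (D : XM n b → XM n b → ℝ) (hD : IsCPM D) :
    RelSoft n D 0 (fun x : {x : Cube (2 * n + 1) // x ∈ Mb n b ∧
      {i | (x i : ℝ) ∈ E}.ncard ≤ n} => (⟨x.1, x.2.1⟩ : XM n b)) := by
  intro m hm eta' heta be al hbe hal hbd
  obtain ⟨om, C, u0, hC, hu0, homc, hom1, hom0, -, hom2⟩ := h1 n b hn
  -- uniform continuity of D
  obtain ⟨de, hde, hDe⟩ := GPM_unif D hD (range be) (isCompact_range hbe) eta' heta
  -- the neighbourhood of the boundary
  have hbev : Continuous (fun x => (be x : Cube (2 * n + 1))) :=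
    continuous_subtype_val.comp hbe
  have hN := GPM_closed (2 * n + 1) E hE (n + 1)
  have hK : IsCompact ((fun x => (be x : Cube (2 * n + 1))) '' bd m) :=
    (GPM_bd_closed m).isCompact.image hbev
  have hKN : ((fun x => (be x : Cube (2 * n + 1))) '' bd m) ⊆
      {x : Cube (2 * n + 1) | n + 1 ≤ {i | (x i : ℝ) ∈ E}.ncard}ᶜ := by
    rintro _ ⟨x, hx, rfl⟩
    have h4 := (al x).2.2
    have h5 : (al x).1 = (be x).1 := congrArg Subtype.val (hbd x hx)
    rw [h5] at h4
    simp only [mem_compl_iff, mem_ofPred_eq, not_le]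
    omega
  obtain ⟨d0, hd0, hd⟩ := hK.exists_thickening_subset_open hN.isOpen_compl hKN
  obtain ⟨V, hV⟩ : ∃ V : Set (Cube m), V = (fun x => (be x : Cube (2 * n + 1))) ⁻¹'
      Metric.thickening (d0 / 2) ((fun x => (be x : Cube (2 * n + 1))) '' bd m) := ⟨_, rfl⟩
  have hVo : IsOpen V := by
    rw [hV]
    exact Metric.isOpen_thickening.preimage hbev
  have hVb : bd m ⊆ V := by
    intro x hx
    rw [hV]
    exact Metric.self_subset_thickening (by positivity) _ ⟨x, hx, rfl⟩
  have hVN : ∀ x ∈ V, ∀ y : Cube (2 * n + 1), dist y (be x : Cube (2 * n + 1)) ≤ d0 / 2 →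
      {i | (y i : ℝ) ∈ E}.ncard ≤ n := by
    intro x hx y hy
    rw [hV] at hx
    have h6 : (be x : Cube (2 * n + 1)) ∈ Metric.thickening (d0 / 2)
      ((fun x => (be x : Cube (2 * n + 1))) '' bd m) := hx
    rw [Metric.mem_thickening_iff] at h6
    obtain ⟨z, hz, hz2⟩ := h6
    have h7 : y ∈ Metric.thickening d0 ((fun x => (be x : Cube (2 * n + 1))) '' bd m) := by
      rw [Metric.mem_thickening_iff]
      refine ⟨z, hz, ?_⟩
      have := dist_triangle y (be x : Cube (2 * n + 1)) z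
      linarith
    have h8 := hd h7
    simp only [mem_compl_iff, mem_ofPred_eq, not_le] at h8
    omega
  obtain ⟨phi, hphi0, hphi1, hphi⟩ := exists_continuous_zero_one_of_isClosed
    (GPM_bd_closed m) hVo.isClosed_compl
    (Set.disjoint_left.2 fun x hx hx' => hx' (hVb hx))
  -- the size of the perturbation
  obtain ⟨u, hu, huu0, hude, hud0⟩ : ∃ u : ℝ, 0 < u ∧ u ≤ u0 ∧ (C + 1) * u ≤ de ∧
      (C + 1) * u ≤ d0 / 2 := by
    refine ⟨min u0 (min (de / (C + 1)) (d0 / 2 / (C + 1))), by positivity, min_le_left _ _,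
      ?_, ?_⟩
    · have h9 : min u0 (min (de / (C + 1)) (d0 / 2 / (C + 1))) ≤ de / (C + 1) :=
        (min_le_right _ _).trans (min_le_left _ _)
      rw [le_div_iff₀ (by positivity)] at h9
      linarith
    · have h9 : min u0 (min (de / (C + 1)) (d0 / 2 / (C + 1))) ≤ d0 / 2 / (C + 1) :=
        (min_le_right _ _).trans (min_le_right _ _)
      rw [le_div_iff₀ (by positivity)] at h9
      linarith
  have hcoord : ∀ i, Continuous (fun x : Cube m => (((be x : Cube (2 * n + 1)) i : I) : ℝ)) :=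
    fun i => continuous_subtype_val.comp ((continuous_apply i).comp hbev)
  have hFc : Continuous (fun x : Cube m => fun i : Fin (2 * n + 1) =>
      om u (((be x : Cube (2 * n + 1)) i : I) : ℝ)) := by
    refine continuous_pi fun i => ?_
    exact homc.comp (continuous_const.prodMk (hcoord i))
  have hdim : dimH (univ : Set (Cube m)) < ((n + 1 : ℕ) : ENNReal) :=
    h3.2.2.2.2 m (n + 1) (by omega) univ
  obtain ⟨F', hF'c, hF'd, hF'E⟩ := h2 m n (2 * n + 1) univ _ E u isClosed_univ hdim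
    hFc.continuousOn hE hu
  -- the family of points
  obtain ⟨R, hR⟩ : ∃ R : ℝ → Cube m → Fin (2 * n + 1) → ℝ, R = fun r x i =>
      om (u * r) (((be x : Cube (2 * n + 1)) i : I) : ℝ) +
        r * (F' x i - om u (((be x : Cube (2 * n + 1)) i : I) : ℝ)) := ⟨_, rfl⟩
  have hRM : ∀ r x, 0 ≤ r → r ≤ 1 → (∀ i, 0 ≤ R r x i ∧ R r x i ≤ 1) ∧
      ∀ j, j < b → {i | lev j (R r x i) < 1 / 6}.ncard ≤ n := by
    intro r x hr0 hr1
    refine hom2 (u * r) (by positivity) (by nlinarith) (be x) (be x).2 (R r x) fun i => ?_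
    rw [hR]
    have h10 : |F' x i - om u (((be x : Cube (2 * n + 1)) i : I) : ℝ)| ≤ u := by
      have := (dist_pi_le_iff hu.le).1 (hF'd x (mem_univ x)) i
      rwa [Real.dist_eq] at this
    have h11 : om (u * r) (((be x : Cube (2 * n + 1)) i : I) : ℝ) +
        r * (F' x i - om u (((be x : Cube (2 * n + 1)) i : I) : ℝ)) -
        om (u * r) (((be x : Cube (2 * n + 1)) i : I) : ℝ) =
        r * (F' x i - om u (((be x : Cube (2 * n + 1)) i : I) : ℝ)) := by ring
    rw [h11, abs_mul, abs_of_nonneg hr0]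
    nlinarith
  have hRd : ∀ r x, 0 ≤ r → r ≤ 1 → ∀ i,
      |R r x i - (((be x : Cube (2 * n + 1)) i : I) : ℝ)| ≤ (C + 1) * u := by
    intro r x hr0 hr1 i
    have h10 : |F' x i - om u (((be x : Cube (2 * n + 1)) i : I) : ℝ)| ≤ u := by
      have := (dist_pi_le_iff hu.le).1 (hF'd x (mem_univ x)) i
      rwa [Real.dist_eq] at this
    have h12 := (hom1 (u * r) (((be x : Cube (2 * n + 1)) i : I) : ℝ) (by positivity)
      (by nlinarith) ((be x : Cube (2 * n + 1)) i).2.1 ((be x : Cube (2 * n + 1)) i).2.2).1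
    rw [hR]
    have h13 : om (u * r) (((be x : Cube (2 * n + 1)) i : I) : ℝ) +
        r * (F' x i - om u (((be x : Cube (2 * n + 1)) i : I) : ℝ)) -
        (((be x : Cube (2 * n + 1)) i : I) : ℝ) =
        (om (u * r) (((be x : Cube (2 * n + 1)) i : I) : ℝ) -
          (((be x : Cube (2 * n + 1)) i : I) : ℝ)) +
        r * (F' x i - om u (((be x : Cube (2 * n + 1)) i : I) : ℝ)) := by ring
    rw [h13]
    refine (abs_add_le _ _).trans ?_
    rw [abs_mul, abs_of_nonneg hr0]
    have h14 : r * |F' x i - om u (((be x : Cube (2 * n + 1)) i : I) : ℝ)| ≤ u := by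
      have := abs_nonneg (F' x i - om u (((be x : Cube (2 * n + 1)) i : I) : ℝ))
      nlinarith
    have h15 : C * (u * r) ≤ C * u := by
      have : u * r ≤ u := by nlinarith
      nlinarith
    linarith
  obtain ⟨P, hP⟩ : ∃ P : ℝ → Cube m → Cube (2 * n + 1), P = fun r x i =>
      Set.projIcc (0 : ℝ) 1 zero_le_one (R r x i) := ⟨_, rfl⟩
  have hPv : ∀ r x, 0 ≤ r → r ≤ 1 → ∀ i, ((P r x i : I) : ℝ) = R r x i := by
    intro r x hr0 hr1 i
    have := (hRM r x hr0 hr1).1 i
    rw [hP]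
    show ((Set.projIcc (0 : ℝ) 1 zero_le_one (R r x i) : I) : ℝ) = R r x i
    rw [Set.projIcc_of_mem zero_le_one ⟨this.1, this.2⟩]
  have hPM : ∀ r x, 0 ≤ r → r ≤ 1 → P r x ∈ Mb n b := by
    intro r x hr0 hr1 j hj
    have h16 := (hRM r x hr0 hr1).2 j hj
    have h17 : {i | lev j ((P r x i : I) : ℝ) < 1 / 6} = {i | lev j (R r x i) < 1 / 6} := by
      ext i
      simp only [mem_ofPred_eq]
      rw [hPv r x hr0 hr1 i]
    rw [h17]
    exact h16
  have hPd : ∀ r x, 0 ≤ r → r ≤ 1 → dist (P r x) (be x : Cube (2 * n + 1)) ≤ (C + 1) * u := by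
    intro r x hr0 hr1
    refine (dist_pi_le_iff (by positivity)).2 fun i => ?_
    rw [Subtype.dist_eq, Real.dist_eq, hPv r x hr0 hr1 i]
    exact hRd r x hr0 hr1 i
  have hP0 : ∀ x, P 0 x = (be x : Cube (2 * n + 1)) := by
    intro x
    funext i
    refine Subtype.ext ?_
    rw [hPv 0 x le_rfl zero_le_one i, hR]
    simp [hom0]
  have hPc : Continuous (fun p : ℝ × Cube m => P p.1 p.2) := by
    rw [hP, hR]
    refine continuous_pi fun i => continuous_projIcc.comp ?_
    have hc : Continuous (fun p : ℝ × Cube m => (((be p.2 : Cube (2 * n + 1)) i : I) : ℝ)) :=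
      (hcoord i).comp continuous_snd
    refine Continuous.add ?_ ?_
    · exact homc.comp ((continuous_const.mul continuous_fst).prodMk hc)
    · refine continuous_fst.mul (Continuous.sub ?_ ?_)
      · exact (continuous_apply i).comp (hF'c.comp continuous_snd)
      · exact homc.comp (continuous_const.prodMk hc)
  have hPE : ∀ x, {i | (P (phi x) x i : ℝ) ∈ E}.ncard ≤ n := by
    intro x
    have hx := hphi x
    by_cases hxV : x ∈ V
    · exact hVN x hxV _ ((hPd _ x hx.1 hx.2).trans hud0)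
    · have h18 : phi x = 1 := hphi1 hxV
      have h19 : {i | (P (phi x) x i : ℝ) ∈ E} = {i | F' x i ∈ E} := by
        ext i
        simp only [mem_ofPred_eq]
        rw [hPv _ x hx.1 hx.2 i, h18, hR]
        simp
      rw [h19]
      exact hF'E x (mem_univ x)
  have hr : ∀ (t : I) (x : Cube m), 0 ≤ (1 - (t : ℝ)) * phi x ∧ (1 - (t : ℝ)) * phi x ≤ 1 := by
    intro t x
    have hx := hphi x
    have ht0 := t.2.1
    have ht1 := t.2.2
    constructor
    · exact mul_nonneg (by linarith) hx.1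
    · have := mul_le_mul (by linarith : 1 - (t : ℝ) ≤ 1) hx.2 hx.1 zero_le_one
      linarith
  refine ⟨fun x => ⟨P (phi x) x, hPM _ x (hphi x).1 (hphi x).2, hPE x⟩,
    fun p => ⟨P ((1 - (p.1 : ℝ)) * phi p.2) p.2, hPM _ p.2 (hr p.1 p.2).1 (hr p.1 p.2).2⟩,
    ?_, ?_, ?_, ?_, ?_, ?_, ?_⟩
  · exact (hPc.comp (phi.continuous.prodMk continuous_id)).subtype_mk _
  · refine Continuous.subtype_mk ?_ _
    refine hPc.comp (Continuous.prodMk ?_ continuous_snd)
    exact (continuous_const.sub (continuous_subtype_val.comp continuous_fst)).mul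
      (phi.continuous.comp continuous_snd)
  · intro x hx
    refine Subtype.ext ?_
    have h20 : phi x = 0 := hphi0 hx
    show P (phi x) x = (al x).1
    rw [h20, hP0]
    exact (congrArg Subtype.val (hbd x hx)).symm
  · intro t x hx
    refine Subtype.ext ?_
    have h20 : phi x = 0 := hphi0 hx
    show P ((1 - (t : ℝ)) * phi x) x = (be x).1
    rw [h20, mul_zero, hP0]
  · intro x
    refine Subtype.ext ?_
    show P ((1 - ((0 : I) : ℝ)) * phi x) x = P (phi x) x
    simp
  · intro x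
    refine Subtype.ext ?_
    show P ((1 - ((1 : I) : ℝ)) * phi x) x = (be x).1
    simp [hP0]
  · intro t x
    refine hDe (be x) ⟨x, rfl⟩ _ ?_
    rw [Subtype.dist_eq]
    exact (hPd _ x (hr t x).1 (hr t x).2).trans hude

theorem pr_GPM (h1 : S_Omega) (h2 : S_GP2) (h3 : S_DimH) (h4 : S_Basics) (_h5 : S_UC) : S_GPM := by
  intro n b E hn hE
  refine h4.2.2.2.1 n _ _ _ ?_ (fun D hD => GPM_core h1 h2 h3 n b E hn hE D hD)
  exact continuous_subtype_val.subtype_mk _

end M202

end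

section

/-!
MP_202a65_gt, item InvLim: projections of an inverse limit of fine soft maps are fine soft.
-/

open Set Topology unitInterval Filter

namespace M202

theorem InvLim_lim {T Y : Type} [TopologicalSpace T] [MetricSpace Y] [CompactSpace Y]
    (f : ℕ → T → Y) (C : ℝ) (hf : ∀ K, Continuous (f K))
    (hd : ∀ K z, dist (f K z) (f (K + 1) z) ≤ C / 2 / 2 ^ K) :
    ∃ g : T → Y, Continuous g ∧ ∀ z, Tendsto (fun K => f K z) atTop (𝓝 (g z)) := by
  have hc : ∀ z, ∃ y, Tendsto (fun K => f K z) atTop (𝓝 y) := fun z =>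
    cauchySeq_tendsto_of_complete (cauchySeq_of_le_geometric_two (fun K => hd K z))
  choose g hg using hc
  refine ⟨g, ?_, hg⟩
  have hu : TendstoUniformly f g atTop := by
    rw [Metric.tendstoUniformly_iff]
    intro ep hep
    have h2 : Tendsto (fun K : ℕ => C / 2 ^ K) atTop (𝓝 0) := by
      have := (tendsto_pow_atTop_nhds_zero_of_lt_one (r := (1 / 2 : ℝ)) (by norm_num)
        (by norm_num)).const_mul C
      simp only [mul_zero] at this
      refine this.congr fun K => ?_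
      rw [one_div, inv_pow]; rfl
    filter_upwards [h2.eventually_lt_const hep] with K hK z
    rw [dist_comm]
    exact lt_of_le_of_lt (dist_le_of_le_geometric_two_of_tendsto (fun K => hd K z) (hg z) K) hK
  exact hu.continuous (Eventually.of_forall hf).frequently

/-- partial concatenations -/
noncomputable def InvLimF {Y : Type} {m : ℕ} (q0 : Cube m → Y) (g : ℕ → I × Cube m → Y) :
    ℕ → I × Cube m → Y
  | 0 => fun z => q0 z.2
  | K + 1 => fun z => if (z.1 : ℝ) ≤ 1 / 2 ^ K then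
      g K (projIcc 0 1 zero_le_one (2 ^ (K + 1) * (z.1 : ℝ) - 1), z.2) else InvLimF q0 g K z

theorem InvLim_glue {Y : Type} [MetricSpace Y] [CompactSpace Y] (D : Y → Y → ℝ) (hD : IsCPM D)
    {m : ℕ} (q : ℕ → Cube m → Y) (g : ℕ → I × Cube m → Y) (eta : ℝ) (heta : 0 < eta)
    (hq : ∀ K, Continuous (q K)) (hg : ∀ K, Continuous (g K))
    (h0 : ∀ K x, g K (0, x) = q (K + 1) x) (h1 : ∀ K x, g K (1, x) = q K x)
    (hdist : ∀ K t x, dist (g K (t, x)) (q K x) ≤ eta / 4 / 2 ^ K)
    (hDD : ∀ K t x, D (g K (t, x)) (q K x) ≤ eta / 4 / 2 ^ K)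
    (hbd : ∀ K t, ∀ x ∈ bd m, g K (t, x) = q K x) :
    ∃ G : I × Cube m → Y, Continuous G ∧
      (∀ x, Tendsto (fun K => q K x) atTop (𝓝 (G (0, x)))) ∧ (∀ x, G (1, x) = q 0 x) ∧
      (∀ t, ∀ x ∈ bd m, G (t, x) = q 0 x) ∧ ∀ t x, D (G (t, x)) (q 0 x) ≤ eta := by
  set F := InvLimF (q 0) g with hF
  have F0 : ∀ z, F 0 z = q 0 z.2 := fun z => rfl
  have FS : ∀ K z, F (K + 1) z = if (z.1 : ℝ) ≤ 1 / 2 ^ K then
      g K (projIcc 0 1 zero_le_one (2 ^ (K + 1) * (z.1 : ℝ) - 1), z.2) else F K z :=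
    fun K z => rfl
  have hb : ∀ K z, ((z.1 : I) : ℝ) ≤ 1 / 2 ^ K → F K z = q K z.2 := by
    intro K
    induction K with
    | zero => intro z _; exact F0 z
    | succ K ih =>
      intro z hz
      have h2 : (1 : ℝ) / 2 ^ (K + 1) ≤ 1 / 2 ^ K := by
        apply one_div_le_one_div_of_le (by positivity)
        exact pow_le_pow_right₀ (by norm_num) (Nat.le_succ K)
      rw [FS, if_pos (hz.trans h2)]
      have h3 : (2 : ℝ) ^ (K + 1) * (z.1 : ℝ) - 1 ≤ 0 := by
        have : (2 : ℝ) ^ (K + 1) * (z.1 : ℝ) ≤ 2 ^ (K + 1) * (1 / 2 ^ (K + 1)) :=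
          mul_le_mul_of_nonneg_left hz (by positivity)
        rw [mul_one_div_cancel (by positivity)] at this
        linarith
      rw [projIcc_of_le_left zero_le_one h3]
      exact h0 K z.2
  have hc : ∀ K, Continuous (F K) := by
    intro K
    induction K with
    | zero => exact (hq 0).comp continuous_snd
    | succ K ih =>
      have : F (K + 1) = fun z : I × Cube m => if (z.1 : ℝ) ≤ 1 / 2 ^ K then
        g K (projIcc 0 1 zero_le_one (2 ^ (K + 1) * (z.1 : ℝ) - 1), z.2) else F K z := by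
        funext z; exact FS K z
      rw [this]
      have hv : Continuous (fun z : I × Cube m => (z.1 : ℝ)) :=
        continuous_subtype_val.comp continuous_fst
      refine Continuous.if_le ?_ ih hv continuous_const ?_
      · refine (hg K).comp (Continuous.prodMk ?_ continuous_snd)
        exact continuous_projIcc.comp ((continuous_const.mul hv).sub continuous_const)
      · intro z hz
        rw [hb K z hz.le]
        have h3 : (1 : ℝ) ≤ (2 : ℝ) ^ (K + 1) * (z.1 : ℝ) - 1 := by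
          rw [hz, pow_succ]
          have : (2 : ℝ) ^ K ≠ 0 := by positivity
          field_simp
          norm_num
        rw [projIcc_of_right_le zero_le_one h3]
        exact h1 K z.2
  have hone : ∀ K x, F K (1, x) = q 0 x := by
    intro K
    induction K with
    | zero => intro x; exact F0 _
    | succ K ih =>
      intro x
      rw [FS]
      split_ifs with h
      · have h3 : (1 : ℝ) ≤ (2 : ℝ) ^ (K + 1) * (((1 : I), x).1 : ℝ) - 1 := by
          simp only [Icc.coe_one, mul_one]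
          have : (2 : ℝ) ^ 1 ≤ 2 ^ (K + 1) := pow_le_pow_right₀ (by norm_num) (by omega)
          linarith
        rw [projIcc_of_right_le zero_le_one h3]
        have h4 := hb K (1, x) h
        rw [ih x] at h4
        rw [h4]
        exact h1 K x
      · exact ih x
  have hqbd : ∀ K, ∀ x ∈ bd m, q K x = q 0 x := by
    intro K x hx
    induction K with
    | zero => rfl
    | succ K ih => rw [← h0 K x, hbd K 0 x hx, ih]
  have hFbd : ∀ K t, ∀ x ∈ bd m, F K (t, x) = q 0 x := by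
    intro K t x hx
    induction K with
    | zero => exact F0 _
    | succ K ih =>
      rw [FS]
      split_ifs with h
      · rw [hbd K _ x hx, hqbd K x hx]
      · exact ih
  have hFD : ∀ K z, D (F K z) (q 0 z.2) ≤ eta / 2 * (1 - 1 / 2 ^ K) := by
    intro K
    induction K with
    | zero => intro z; rw [F0, hD.self]; simp
    | succ K ih =>
      intro z
      rw [FS]
      have hp : (1 : ℝ) / 2 ^ (K + 1) = 1 / 2 ^ K / 2 := by rw [pow_succ]; field_simp
      split_ifs with h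
      · refine (hD.tri _ (q K z.2) _).trans ?_
        have h3 := ih z
        rw [hb K z h] at h3
        have h4 := hDD K (projIcc 0 1 zero_le_one (2 ^ (K + 1) * (z.1 : ℝ) - 1)) z.2
        have h5 : eta / 4 / 2 ^ K = eta / 4 * (1 / 2 ^ K) := by ring
        rw [h5] at h4
        rw [hp]
        linarith
      · refine (ih z).trans ?_
        rw [hp]
        have : (0 : ℝ) < 1 / 2 ^ K := by positivity
        nlinarith
  have hFd : ∀ K z, dist (F K z) (F (K + 1) z) ≤ (eta / 2) / 2 / 2 ^ K := by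
    intro K z
    rw [FS]
    split_ifs with h
    · rw [hb K z h, dist_comm]
      refine (hdist K _ z.2).trans (le_of_eq ?_)
      ring
    · rw [dist_self]; positivity
  obtain ⟨G, hGc, hGt⟩ := InvLim_lim F (eta / 2) hc hFd
  refine ⟨G, hGc, ?_, ?_, ?_, ?_⟩
  · intro x
    refine (hGt (0, x)).congr fun K => ?_
    refine hb K (0, x) ?_
    simp only [Icc.coe_zero]
    positivity
  · intro x
    refine tendsto_nhds_unique (hGt (1, x)) ?_
    simp only [hone]
    exact tendsto_const_nhds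
  · intro t x hx
    refine tendsto_nhds_unique (hGt (t, x)) ?_
    simp only [hFbd _ _ x hx]
    exact tendsto_const_nhds
  · intro t x
    have h1 : Tendsto (fun K => D (F K (t, x)) (q 0 x)) atTop (𝓝 (D (G (t, x)) (q 0 x))) := by
      have := (hD.cont.tendsto (G (t, x), q 0 x)).comp
        ((hGt (t, x)).prodMk_nhds (tendsto_const_nhds (x := q 0 x)))
      exact this
    refine le_of_tendsto h1 (Eventually.of_forall fun K => ?_)
    refine (hFD K (t, x)).trans ?_
    have : (0 : ℝ) < 1 / 2 ^ K := by positivity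
    nlinarith

/-- control at stage k -/
noncomputable def InvLimE {X : ℕ → Type} [∀ b, MetricSpace (X b)] (s : ∀ b b', X b' → X b)
    (b : ℕ) (D : X b → X b → ℝ) : ∀ k, X (b + k) → X (b + k) → ℝ
  | 0 => fun u v => max (D u v) (dist u v)
  | k + 1 => fun u v =>
      max (InvLimE s b D k (s (b + k) (b + k + 1) u) (s (b + k) (b + k + 1) v)) (dist u v)

theorem InvLimE_cpm (hUC : S_UC) {X : ℕ → Type} [∀ b, MetricSpace (X b)]
    (s : ∀ b b', X b' → X b) (hs : ∀ b b', b ≤ b' → Continuous (s b b'))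
    (b : ℕ) (D : X b → X b → ℝ) (hD : IsCPM D) (k : ℕ) : IsCPM (InvLimE s b D k) := by
  obtain ⟨_, _, u3, u4, _, _, _, u8⟩ := hUC
  induction k with
  | zero => exact u4 (X b) D (fun u v => dist u v) hD (u8 (X b))
  | succ k ih =>
    exact u4 (X (b + k + 1)) _ (fun u v => dist u v)
      (u3 (X (b + k + 1)) (X (b + k)) (InvLimE s b D k) (s (b + k) (b + k + 1)) ih
        (hs _ _ (Nat.le_succ _))) (u8 (X (b + k + 1)))

theorem InvLimE_dist {X : ℕ → Type} [∀ b, MetricSpace (X b)] (s : ∀ b b', X b' → X b)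
    (hrefl : ∀ b x, s b b x = x)
    (hcomp : ∀ b b' b'' x, b ≤ b' → b' ≤ b'' → s b b' (s b' b'' x) = s b b'' x)
    (b : ℕ) (D : X b → X b → ℝ) (i j : ℕ) (hij : i ≤ j) (u v : X (b + j)) :
    dist (s (b + i) (b + j) u) (s (b + i) (b + j) v) ≤ InvLimE s b D j u v := by
  induction j with
  | zero =>
    obtain rfl : i = 0 := by omega
    rw [hrefl, hrefl]
    exact le_max_right _ _
  | succ j ih =>
    by_cases h : i = j + 1
    · subst h
      rw [hrefl, hrefl]
      exact le_max_right _ _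
    · have h1 : i ≤ j := by omega
      have h2 := ih h1 (s (b + j) (b + j + 1) u) (s (b + j) (b + j + 1) v)
      rw [hcomp _ _ _ _ (by omega) (by omega), hcomp _ _ _ _ (by omega) (by omega)] at h2
      exact h2.trans (le_max_left _ _)

theorem InvLimE_D {X : ℕ → Type} [∀ b, MetricSpace (X b)] (s : ∀ b b', X b' → X b)
    (hrefl : ∀ b x, s b b x = x)
    (hcomp : ∀ b b' b'' x, b ≤ b' → b' ≤ b'' → s b b' (s b' b'' x) = s b b'' x)
    (b : ℕ) (D : X b → X b → ℝ) (j : ℕ) (u v : X (b + j)) :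
    D (s b (b + j) u) (s b (b + j) v) ≤ InvLimE s b D j u v := by
  induction j with
  | zero =>
    have h1 : s b (b + 0) u = u := hrefl b u
    have h2 : s b (b + 0) v = v := hrefl b v
    rw [h1, h2]
    exact le_max_left _ _
  | succ j ih =>
    have h2 := ih (s (b + j) (b + j + 1) u) (s (b + j) (b + j + 1) v)
    rw [hcomp _ _ _ _ (by omega) (by omega), hcomp _ _ _ _ (by omega) (by omega)] at h2
    exact h2.trans (le_max_left _ _)

theorem pr_InvLim (h1 : S_Basics) (h2 : S_UC) (h3 : S_SoftOfRel) : S_InvLim := by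
  intro n X _ _ s L _ _ _ p hp hps hrefl hcomp hs hsoft hex hsep b
  obtain ⟨_, _, _, b4, b5, _, _, _⟩ := h1
  refine b4 n L (X b) (p b) (hp b) ?_
  intro D hD m hm eta heta be al hbe hal hbdal
  -- the control functions
  let E : ∀ k, X (b + k) → X (b + k) → ℝ := InvLimE s b D
  have hE : ∀ k, IsCPM (E k) := InvLimE_cpm h2 s hs b D hD
  -- one step
  have hstep : ∀ k (f : Cube m → X (b + k)), Continuous f →
      (∀ x ∈ bd m, f x = p (b + k) (al x)) →
      ∃ (f' : Cube m → X (b + k + 1)) (G : I × Cube m → X (b + k)),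
        Continuous f' ∧ (∀ x ∈ bd m, f' x = p (b + k + 1) (al x)) ∧ Continuous G ∧
        (∀ t, ∀ x ∈ bd m, G (t, x) = f x) ∧
        (∀ x, G (0, x) = s (b + k) (b + k + 1) (f' x)) ∧ (∀ x, G (1, x) = f x) ∧
        ∀ t x, E k (G (t, x)) (f x) ≤ eta / 4 / 2 ^ k := by
    intro k f hf hfb
    have hR := b5 n (X (b + k + 1)) (X (b + k)) (s (b + k) (b + k + 1)) (E k) 0 (hE k)
      (hsoft _ _ (Nat.le_succ _) (E k) (hE k))
    obtain ⟨al', G, a1, a2, a3, a4, a5, a6, a7⟩ := hR m hm (eta / 4 / 2 ^ k) (by positivity) f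
      (fun x => p (b + k + 1) (al x)) hf ((hp _).comp_continuousOn hal) (by
        intro x hx
        rw [hps _ _ _ (Nat.le_succ _), hfb x hx])
    exact ⟨al', G, a1, a3, a2, a4, a5, a6, a7⟩
  -- the sequence
  let St : ℕ → Type := fun k => {f : Cube m → X (b + k) // Continuous f ∧
    ∀ x ∈ bd m, f x = p (b + k) (al x)}
  let nxt : ∀ k, St k → St (k + 1) := fun k f =>
    ⟨(hstep k f.1 f.2.1 f.2.2).choose, (hstep k f.1 f.2.1 f.2.2).choose_spec.choose_spec.1,
      (hstep k f.1 f.2.1 f.2.2).choose_spec.choose_spec.2.1⟩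
  let sq : ∀ k, St k := fun k => Nat.rec (motive := St)
    (⟨be, hbe, fun x hx => (hbdal x hx).symm⟩ : St 0) nxt k
  have hsq : ∀ k, sq (k + 1) = nxt k (sq k) := fun k => rfl
  have hG : ∀ k, ∃ G : I × Cube m → X (b + k), Continuous G ∧
        (∀ t, ∀ x ∈ bd m, G (t, x) = (sq k).1 x) ∧
        (∀ x, G (0, x) = s (b + k) (b + k + 1) ((sq (k + 1)).1 x)) ∧
        (∀ x, G (1, x) = (sq k).1 x) ∧
        ∀ t x, E k (G (t, x)) ((sq k).1 x) ≤ eta / 4 / 2 ^ k := by
    intro k
    exact ⟨(hstep k (sq k).1 (sq k).2.1 (sq k).2.2).choose_spec.choose,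
      (hstep k (sq k).1 (sq k).2.1 (sq k).2.2).choose_spec.choose_spec.2.2⟩
  choose Gk g1 g2 g3 g4 g5 using hG
  let f : ∀ k, Cube m → X (b + k) := fun k => (sq k).1
  have hfc : ∀ k, Continuous (f k) := fun k => (sq k).2.1
  have hfb : ∀ k, ∀ x ∈ bd m, f k x = p (b + k) (al x) := fun k => (sq k).2.2
  have hf0 : ∀ x, f 0 x = be x := fun x => rfl
  -- the limits in all levels
  have hy : ∀ i, ∃ y : Cube m → X i, Continuous y ∧
      ∀ x, Tendsto (fun j => s i (b + j) (f j x)) atTop (𝓝 (y x)) := by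
    intro i
    obtain ⟨c, hcc, hct⟩ := InvLim_lim (fun K x => s (b + i) (b + (K + i)) (f (K + i) x)) (eta / 2)
      (fun K => (hs _ _ (by omega)).comp (hfc _)) (by
        intro K x
        have e1 : s (b + i) (b + (K + 1 + i)) (f (K + 1 + i) x) =
            s (b + i) (b + (K + i)) (s (b + (K + i)) (b + (K + i) + 1) (f (K + i + 1) x)) := by
          rw [hcomp _ _ _ _ (by omega) (by omega)]
          have : K + 1 + i = K + i + 1 := by omega
          rw [this]
          rfl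
        rw [e1, dist_comm]
        refine (InvLimE_dist s hrefl hcomp b D i (K + i) (by omega) _ _).trans ?_
        have h5 := g5 (K + i) 0 x
        rw [g3] at h5
        refine h5.trans ?_
        have : (2 : ℝ) ^ K ≤ 2 ^ (K + i) := pow_le_pow_right₀ (by norm_num) (by omega)
        have h6 : eta / 4 / 2 ^ (K + i) ≤ eta / 4 / 2 ^ K :=
          div_le_div_of_nonneg_left (by positivity) (by positivity) this
        refine h6.trans (le_of_eq ?_)
        ring)
    refine ⟨fun x => s i (b + i) (c x), (hs _ _ (by omega)).comp hcc, fun x => ?_⟩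
    have h6 := ((hs i (b + i) (by omega)).tendsto (c x)).comp (hct x)
    rw [← tendsto_add_atTop_iff_nat i]
    refine h6.congr fun K => ?_
    simp only [Function.comp_apply]
    exact hcomp _ _ _ _ (by omega) (by omega)
  choose y hyc hyt using hy
  have hycomp : ∀ x i, s i (i + 1) (y (i + 1) x) = y i x := by
    intro x i
    have h6 := ((hs i (i + 1) (by omega)).tendsto (y (i + 1) x)).comp (hyt (i + 1) x)
    refine tendsto_nhds_unique (h6.congr' ?_) (hyt i x)
    filter_upwards [eventually_ge_atTop (i + 1)] with j hj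
    simp only [Function.comp_apply]
    exact hcomp _ _ _ _ (by omega) (by omega)
  have hal' : ∀ x, ∃ z : L, ∀ i, p i z = y i x := fun x => hex (fun i => y i x) (hycomp x)
  choose al' hal' using hal'
  -- continuity of the lift
  have hP : IsClosedEmbedding (fun z : L => fun i => p i z) := by
    refine Continuous.isClosedEmbedding (continuous_pi fun i => hp i) ?_
    intro z z' hz
    exact hsep z z' fun i => congrFun hz i
  have hal'c : Continuous al' := by
    rw [hP.toIsEmbedding.continuous_iff]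
    refine continuous_pi fun i => ?_
    have : (fun x => p i (al' x)) = y i := by
      funext x; exact hal' x i
    show Continuous (fun x => p i (al' x))
    rw [this]
    exact hyc i
  have hal'b : ∀ x ∈ bd m, al' x = al x := by
    intro x hx
    refine hsep _ _ fun i => ?_
    rw [hal' x i]
    refine tendsto_nhds_unique (hyt i x) ?_
    refine tendsto_const_nhds.congr' ?_
    filter_upwards [eventually_ge_atTop i] with j hj
    rw [hfb j x hx, hps _ _ _ (by omega)]
  -- the homotopy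
  obtain ⟨G, q1, q2, q3, q4, q5⟩ := InvLim_glue D hD (fun K x => s b (b + K) (f K x))
    (fun K z => s b (b + K) (Gk K z)) eta heta
    (fun K => (hs _ _ (by omega)).comp (hfc K))
    (fun K => (hs _ _ (by omega)).comp (g1 K))
    (by
      intro K x
      rw [g3, hcomp _ _ _ _ (by omega) (by omega)]
      rfl)
    (by
      intro K x
      rw [g4])
    (by
      intro K t x
      exact (InvLimE_dist s hrefl hcomp b D 0 K (by omega) _ _).trans (g5 K t x))
    (by
      intro K t x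
      exact (InvLimE_D s hrefl hcomp b D K _ _).trans (g5 K t x))
    (by
      intro K t x hx
      rw [g2 K t x hx])
  have hb0 : ∀ x, s b (b + 0) (f 0 x) = be x := fun x => hrefl b (be x)
  refine ⟨al', G, hal'c, q1, hal'b, ?_, ?_, ?_, ?_⟩
  · intro t x hx
    rw [q4 t x hx]; exact hb0 x
  · intro x
    rw [hal' x b]
    exact tendsto_nhds_unique (q2 x) (hyt b x)
  · intro x
    rw [q3 x]; exact hb0 x
  · intro t x
    have := q5 t x
    rw [hb0 x] at this
    exact this

end M202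

end

section

open Set Topology unitInterval

namespace M202

theorem Lev_g_eq (u : ℝ) : |Int.fract u - 1 / 2| = 1 / 2 - |u - round u| := by
  rw [abs_sub_round_eq_min]
  have h0 := Int.fract_nonneg u
  have h1 := Int.fract_lt_one u
  rcases le_total (Int.fract u) (1 / 2) with h | h
  · rw [min_eq_left (by linarith), abs_of_nonpos (by linarith)]
    ring
  · rw [min_eq_right (by linarith), abs_of_nonneg (by linarith)]
    ring

theorem Lev_g_lip (u v : ℝ) :
    abs (abs (Int.fract u - 1 / 2) - abs (Int.fract v - 1 / 2)) ≤ |u - v| := by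
  rw [Lev_g_eq, Lev_g_eq]
  have h1 : |u - round u| ≤ |u - v| + |v - round v| := by
    refine (round_le u (round v)).trans ?_
    have : u - (round v : ℝ) = (u - v) + (v - round v) := by ring
    rw [this]
    exact abs_add_le _ _
  have h2 : |v - round v| ≤ |u - v| + |u - round u| := by
    refine (round_le v (round u)).trans ?_
    have : v - (round u : ℝ) = (v - u) + (u - round u) := by ring
    rw [this, abs_sub_comm u v]
    exact abs_add_le _ _
  rw [abs_le]
  constructor <;> linarith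

theorem Lev_fract (n : ℤ) (w : ℝ) (hw : |w| ≤ 1 / 2) :
    |Int.fract ((n : ℝ) + 1 / 2 + w) - 1 / 2| = |w| := by
  rw [abs_le] at hw
  have e : (n : ℝ) + 1 / 2 + w = n + (1 / 2 + w) := by ring
  rw [e, Int.fract_intCast_add]
  rcases lt_or_eq_of_le hw.2 with h | h
  · rw [Int.fract_eq_self.2 ⟨by linarith, by linarith⟩]
    congr 1
    ring
  · rw [h]
    norm_num

theorem Lev_fract_lt (n : ℤ) (w : ℝ) (hw : |w| < 1 / 2) :
    Int.fract ((n : ℝ) + 1 / 2 + w) = 1 / 2 + w := by
  rw [abs_lt] at hw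
  have e : (n : ℝ) + 1 / 2 + w = n + (1 / 2 + w) := by ring
  rw [e, Int.fract_intCast_add, Int.fract_eq_self.2 ⟨by linarith, by linarith⟩]

theorem Lev_mv_eq (b : ℕ) (k t : ℝ) :
    (3 : ℝ) ^ b * mv b k t =
      (⌊(3 : ℝ) ^ b * t⌋ : ℝ) + 1 / 2 + (Int.fract ((3 : ℝ) ^ b * t) - 1 / 2) * k := by
  unfold mv
  have h3 : (3 : ℝ) ^ b ≠ 0 := by positivity
  have h1 := Int.floor_add_fract ((3 : ℝ) ^ b * t)
  have h2 : (3 : ℝ) ^ b * (t + (Int.fract ((3 : ℝ) ^ b * t) - 1 / 2) * (k - 1) / 3 ^ b) =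
      (3 : ℝ) ^ b * t + (Int.fract ((3 : ℝ) ^ b * t) - 1 / 2) * (k - 1) := by
    rw [mul_add, mul_div_cancel₀ _ h3]
  rw [h2]
  nth_rewrite 1 [← h1]
  ring

theorem Lev_abs (b : ℕ) (k t : ℝ) (hk : 0 ≤ k) :
    |(Int.fract ((3 : ℝ) ^ b * t) - 1 / 2) * k| = k * lev b t := by
  rw [abs_mul, abs_of_nonneg hk, mul_comm]
  rfl

theorem pr_Lev : S_Lev := by
  have hlip : ∀ (b : ℕ) (t t' : ℝ), |lev b t - lev b t'| ≤ 3 ^ b * |t - t'| := by
    intro b t t'
    refine (Lev_g_lip _ _).trans ?_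
    rw [← mul_sub, abs_mul, abs_of_nonneg (by positivity : (0 : ℝ) ≤ 3 ^ b)]
  refine ⟨?_, ?_, hlip, ?_, ?_, ?_, ?_, ?_, ?_, ?_⟩
  · intro b
    have : LipschitzWith (3 ^ b) (lev b) := by
      refine LipschitzWith.of_dist_le_mul fun x y => ?_
      rw [Real.dist_eq, Real.dist_eq]
      have := hlip b x y
      simpa using this
    exact this.continuous
  · intro b t
    refine ⟨abs_nonneg _, ?_⟩
    unfold lev
    rw [abs_le]
    have h0 := Int.fract_nonneg ((3 : ℝ) ^ b * t)
    have h1 := Int.fract_lt_one ((3 : ℝ) ^ b * t)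
    constructor <;> linarith
  · intro b t
    unfold lev
    have h0 := Int.fract_nonneg ((3 : ℝ) ^ b * t)
    have h1 := Int.fract_lt_one ((3 : ℝ) ^ b * t)
    constructor
    · intro h
      have h2 : Int.fract ((3 : ℝ) ^ b * t) = 0 := by
        rcases abs_cases (Int.fract ((3 : ℝ) ^ b * t) - 1 / 2) with h3 | h3 <;> linarith
      exact ⟨⌊(3 : ℝ) ^ b * t⌋, by
        have := Int.floor_add_fract ((3 : ℝ) ^ b * t)
        rw [h2] at this
        linarith⟩
    · rintro ⟨k, hk⟩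
      rw [hk, Int.fract_intCast]
      norm_num
  · intro b t
    unfold lev
    constructor
    · intro h
      rw [abs_eq_zero] at h
      refine ⟨⌊(3 : ℝ) ^ b * t⌋, ?_⟩
      have := Int.floor_add_fract ((3 : ℝ) ^ b * t)
      linarith
    · rintro ⟨k, hk⟩
      rw [hk, Int.fract_intCast_add, Int.fract_eq_self.2 ⟨by norm_num, by norm_num⟩]
      simp
  · intro b k t hk hkl
    have h1 : lev b (mv b k t) = |Int.fract ((3 : ℝ) ^ b * mv b k t) - 1 / 2| := rfl
    rw [h1, Lev_mv_eq, Lev_fract _ _ (by rw [Lev_abs b k t hk]; exact hkl), Lev_abs b k t hk]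
  · intro b k t hk hkl
    rw [Lev_mv_eq]
    have h1 := Lev_abs b k t hk
    rw [← h1, abs_le] at hkl
    constructor <;> linarith
  · intro b t
    unfold mv
    simp
  · intro b k k' t hk hkl himp
    rcases lt_or_eq_of_le hkl with h | h
    · have h1 : Int.fract ((3 : ℝ) ^ b * mv b k t) =
          1 / 2 + (Int.fract ((3 : ℝ) ^ b * t) - 1 / 2) * k := by
        rw [Lev_mv_eq, Lev_fract_lt _ _ (by rw [Lev_abs b k t hk]; exact h)]
      have h2 : mv b k' (mv b k t) =
          mv b k t + (Int.fract ((3 : ℝ) ^ b * mv b k t) - 1 / 2) * (k' - 1) / 3 ^ b := rfl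
      rw [h2, h1]
      unfold mv
      have h3 : (3 : ℝ) ^ b ≠ 0 := by positivity
      field_simp
      ring
    · have h1 := himp h
      subst h1
      unfold mv
      simp
  · intro b X _ S k t hk ht himp x hx
    have h3 : (3 : ℝ) ^ b ≠ 0 := by positivity
    unfold mv
    refine (ht x hx).add ?_
    refine ContinuousWithinAt.div_const ?_ _
    by_cases hl : lev b (t x) = 1 / 2
    · have hk1 := himp x hx hl
      have hb : ∀ y, |(Int.fract ((3 : ℝ) ^ b * t y) - 1 / 2) * (k y - 1)| ≤ |k y - 1| := by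
        intro y
        rw [abs_mul]
        have h0 := Int.fract_nonneg ((3 : ℝ) ^ b * t y)
        have h1 := Int.fract_lt_one ((3 : ℝ) ^ b * t y)
        have h2 : |Int.fract ((3 : ℝ) ^ b * t y) - 1 / 2| ≤ 1 := by
          rw [abs_le]; constructor <;> linarith
        calc _ ≤ 1 * |k y - 1| := mul_le_mul_of_nonneg_right h2 (abs_nonneg _)
          _ = _ := one_mul _
      have hz : (Int.fract ((3 : ℝ) ^ b * t x) - 1 / 2) * (k x - 1) = 0 := by rw [hk1]; ring
      show Filter.Tendsto _ _ (𝓝 ((Int.fract ((3 : ℝ) ^ b * t x) - 1 / 2) * (k x - 1)))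
      rw [hz]
      have hlim : Filter.Tendsto (fun y => |k y - 1|) (𝓝[S] x) (𝓝 0) := by
        have h4 : Filter.Tendsto (fun y => |k y - 1|) (𝓝[S] x) (𝓝 |k x - 1|) :=
          ((hk x hx).sub continuousWithinAt_const).abs
        rw [hk1] at h4
        simpa using h4
      exact squeeze_zero_norm hb hlim
    · refine ContinuousWithinAt.mul ?_ ((hk x hx).sub continuousWithinAt_const)
      refine ContinuousWithinAt.sub ?_ continuousWithinAt_const
      have h5 : (3 : ℝ) ^ b * t x ≠ ⌊(3 : ℝ) ^ b * t x⌋ := by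
        intro e
        apply hl
        unfold lev
        rw [e, Int.fract_intCast]
        norm_num
      have h6 : ContinuousWithinAt (fun y => (3 : ℝ) ^ b * t y) S x :=
        continuousWithinAt_const.mul (ht x hx)
      exact ContinuousAt.comp_continuousWithinAt (f := fun y => (3 : ℝ) ^ b * t y) (g := Int.fract)
        (continuousAt_fract h5) h6

end M202

end

section

/-!
MP_202a65_gt, item MbFacts: facts on the stages M_b and their skeleta Z_b.
-/

open Set Topology unitInterval Filter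

namespace M202

namespace MbF

/-- 1/6 ≤ lev means: distance to the next integer at most 1/3 -/
theorem lev_ge_iff (j : ℕ) (t : ℝ) : 1 / 6 ≤ lev j t ↔ ∃ a : ℤ, |(3 : ℝ) ^ j * t - a| ≤ 1 / 3 := by
  unfold lev
  generalize (3 : ℝ) ^ j * t = u
  have h0 := Int.fract_nonneg u
  have h1 := Int.fract_lt_one u
  have hfr : Int.fract u = u - ⌊u⌋ := rfl
  constructor
  · intro h
    rcases le_abs.1 h with h | h
    · refine ⟨⌊u⌋ + 1, ?_⟩
      push_cast
      rw [abs_le]
      constructor <;> linarith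
    · refine ⟨⌊u⌋, ?_⟩
      rw [abs_le]
      constructor <;> linarith
  · rintro ⟨a, ha⟩
    rw [abs_le] at ha
    rcases le_or_gt (a : ℝ) u with h | h
    · have hf : ⌊u⌋ = a := Int.floor_eq_iff.2 ⟨h, by linarith⟩
      rw [hfr, hf, le_abs]
      right; linarith
    · have hf : ⌊u⌋ = a - 1 := Int.floor_eq_iff.2 ⟨by push_cast; linarith, by push_cast; linarith⟩
      rw [hfr, hf, le_abs]
      left; push_cast; linarith

/-- key lemma in dimension one -/
theorem key1 {b j : ℕ} (hj : j < b) {s y : ℝ}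
    (h1 : (⌊(3 : ℝ) ^ b * s⌋ : ℝ) ≤ (3 : ℝ) ^ b * y)
    (h2 : (3 : ℝ) ^ b * y ≤ (⌈(3 : ℝ) ^ b * s⌉ : ℝ)) (h : 1 / 6 ≤ lev j s) : 1 / 6 ≤ lev j y := by
  rw [lev_ge_iff] at h ⊢
  obtain ⟨a, ha⟩ := h
  refine ⟨a, ?_⟩
  obtain ⟨c, rfl⟩ : ∃ c, b = j + 1 + c := ⟨b - (j + 1), by omega⟩
  have hq : (3 : ℝ) ^ (j + 1 + c) = 3 ^ j * (3 * 3 ^ c) := by ring
  have hq0 : (0 : ℝ) < 3 ^ c := by positivity
  rw [hq] at h1 h2
  rw [abs_le] at ha
  have e1 : ((3 * 3 ^ c * a - 3 ^ c : ℤ) : ℝ) ≤ 3 ^ j * (3 * 3 ^ c) * s := by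
    push_cast; nlinarith [ha.1]
  have e2 : 3 ^ j * (3 * 3 ^ c) * s ≤ ((3 * 3 ^ c * a + 3 ^ c : ℤ) : ℝ) := by
    push_cast; nlinarith [ha.2]
  have e3 : ((3 * 3 ^ c * a - 3 ^ c : ℤ) : ℝ) ≤ 3 ^ j * (3 * 3 ^ c) * y :=
    le_trans (by exact_mod_cast Int.le_floor.2 e1) h1
  have e4 : 3 ^ j * (3 * 3 ^ c) * y ≤ ((3 * 3 ^ c * a + 3 ^ c : ℤ) : ℝ) :=
    le_trans h2 (by exact_mod_cast Int.ceil_le.2 e2)
  push_cast at e3 e4
  rw [abs_le]
  constructor
  · by_contra hc
    rw [not_le] at hc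
    nlinarith [mul_lt_mul_of_pos_right hc hq0]
  · by_contra hc
    rw [not_le] at hc
    nlinarith [mul_lt_mul_of_pos_right hc hq0]

/-- lev is 1/2 at grid points of a lower level -/
theorem lev_grid {b j : ℕ} (hj : b ≤ j) {s : unitInterval} (h : IsGrid (3 ^ b) s) :
    1 / 6 ≤ lev j s := by
  rw [lev_ge_iff]
  obtain ⟨k, hk⟩ := h
  obtain ⟨c, rfl⟩ : ∃ c, j = b + c := ⟨j - b, by omega⟩
  refine ⟨3 ^ c * k, ?_⟩
  push_cast at hk ⊢
  rw [← hk]
  have : (3 : ℝ) ^ (b + c) * (s : ℝ) - 3 ^ c * (3 ^ b * (s : ℝ)) = 0 := by ring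
  rw [this]; norm_num

theorem grid_mono {b c : ℕ} (hbc : b ≤ c) {s : unitInterval} (h : IsGrid (3 ^ b) s) :
    IsGrid (3 ^ c) s := by
  obtain ⟨k, hk⟩ := h
  obtain ⟨d, rfl⟩ : ∃ d, c = b + d := ⟨c - b, by omega⟩
  refine ⟨3 ^ d * k, ?_⟩
  push_cast at hk ⊢
  rw [← hk]
  ring

/-- arithmetic: a number is not of both forms -/
theorem arith1 {m a a' : ℤ} {c c' : ℕ} (h : m = 3 ^ c * (3 * a + 1))
    (h' : m = 3 ^ c' * (3 * a' - 1)) : False := by
  rcases lt_trichotomy c c' with hc | hc | hc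
  · obtain ⟨d, rfl⟩ : ∃ d, c' = c + 1 + d := ⟨c' - (c + 1), by omega⟩
    have e : (3 : ℤ) ^ c * (3 * a + 1) = 3 ^ c * (3 * (3 ^ d * (3 * a' - 1))) := by
      rw [← h, h']; ring
    have e2 := mul_left_cancel₀ (by positivity) e
    generalize (3 : ℤ) ^ d * (3 * a' - 1) = t at e2
    omega
  · subst hc
    have e2 := mul_left_cancel₀ (a := (3 : ℤ) ^ c) (by positivity) (h.symm.trans h')
    omega
  · obtain ⟨d, rfl⟩ : ∃ d, c = c' + 1 + d := ⟨c - (c' + 1), by omega⟩
    have e : (3 : ℤ) ^ c' * (3 * a' - 1) = 3 ^ c' * (3 * (3 ^ d * (3 * a + 1))) := by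
      rw [← h', h]; ring
    have e2 := mul_left_cancel₀ (by positivity) e
    generalize (3 : ℤ) ^ d * (3 * a + 1) = t at e2
    omega

/-- a choice of the side -/
theorem arith2 (b : ℕ) (m : ℤ) (h0 : 0 ≤ m) (hm : m ≤ 3 ^ b) : ∃ sn : ℤ, (sn = 1 ∨ sn = -1) ∧
    0 ≤ 2 * m + sn ∧ 2 * m + sn ≤ 2 * 3 ^ b ∧
    ∀ c a, c < b → m ≠ 3 ^ c * (3 * a + sn) := by
  have h3 : (1 : ℤ) ≤ 3 ^ b := one_le_pow₀ (by norm_num)
  by_cases hp : ∃ c a, c < b ∧ m = 3 ^ c * (3 * a + 1)
  · obtain ⟨c, a, hc, e⟩ := hp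
    refine ⟨-1, Or.inr rfl, ?_, by omega, ?_⟩
    · have : m ≠ 0 := by
        intro hm0
        rw [hm0] at e
        have h3 : (3 : ℤ) ^ c ≠ 0 := by positivity
        have := (mul_eq_zero.1 e.symm).resolve_left h3
        omega
      omega
    · intro c' a' _ e'
      exact arith1 e (by rw [e']; ring)
  · push Not at hp
    by_cases hmb : m = 3 ^ b
    · refine ⟨-1, Or.inr rfl, by omega, by omega, ?_⟩
      intro c' a' hc' e'
      obtain ⟨d, rfl⟩ : ∃ d, b = c' + 1 + d := ⟨b - (c' + 1), by omega⟩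
      have e : (3 : ℤ) ^ c' * (3 * a' + -1) = 3 ^ c' * (3 * 3 ^ d) := by
        rw [← e', hmb]; ring
      have e2 := mul_left_cancel₀ (by positivity) e
      generalize (3 : ℤ) ^ d = t at e2
      omega
    · refine ⟨1, Or.inl rfl, by omega, by omega, fun c a hc => hp c a hc⟩

/-- the one dimensional statement on top cubes -/
theorem key2 (b : ℕ) (s : unitInterval) : ∃ z : unitInterval, ¬ IsGrid (3 ^ b) z ∧
    (⌊(3 : ℝ) ^ b * (z : ℝ)⌋ : ℝ) ≤ (3 : ℝ) ^ b * (s : ℝ) ∧
    (3 : ℝ) ^ b * (s : ℝ) ≤ (⌈(3 : ℝ) ^ b * (z : ℝ)⌉ : ℝ) ∧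
    ∀ j, j < b → 1 / 6 ≤ lev j s → 1 / 6 ≤ lev j z := by
  by_cases hs : IsGrid (3 ^ b) s
  · obtain ⟨m, hm⟩ := hs
    push_cast at hm
    have hb0 : (0 : ℝ) < 3 ^ b := by positivity
    have m0 : 0 ≤ m := by
      have : (0 : ℝ) ≤ m := by rw [← hm]; exact mul_nonneg hb0.le s.2.1
      exact_mod_cast this
    have m1 : m ≤ 3 ^ b := by
      have : (m : ℝ) ≤ 3 ^ b := by
        rw [← hm]; exact mul_le_of_le_one_right hb0.le s.2.2
      exact_mod_cast this
    obtain ⟨sn, hsn, h1, h2, h3⟩ := arith2 b m m0 m1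
    have h1' : (0 : ℝ) ≤ 2 * m + sn := by exact_mod_cast h1
    have h2' : (2 * m + sn : ℝ) ≤ 2 * 3 ^ b := by exact_mod_cast h2
    refine ⟨⟨(m + sn / 2) / 3 ^ b, div_nonneg (by linarith) hb0.le,
      (div_le_one hb0).2 (by linarith)⟩, ?_⟩
    have hz : (3 : ℝ) ^ b * ((m + sn / 2) / 3 ^ b) = m + sn / 2 := by
      field_simp
    refine ⟨?_, ?_, ?_, ?_⟩
    · rintro ⟨k, hk⟩
      push_cast at hk
      rw [hz] at hk
      have : (2 * m + sn : ℝ) = 2 * k := by linarith
      have : 2 * m + sn = 2 * k := by exact_mod_cast this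
      omega
    · simp only
      rw [hz, hm]
      rcases hsn with rfl | rfl
      · have : ⌊(m : ℝ) + ((1 : ℤ) : ℝ) / 2⌋ ≤ m := by
          apply Int.le_of_lt_add_one
          rw [Int.floor_lt]; push_cast; linarith
        exact_mod_cast this
      · have : ⌊(m : ℝ) + ((-1 : ℤ) : ℝ) / 2⌋ ≤ m := by
          apply Int.le_of_lt_add_one
          rw [Int.floor_lt]; push_cast; linarith
        exact_mod_cast this
    · simp only
      rw [hz, hm]
      rcases hsn with rfl | rfl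
      · have : m ≤ ⌈(m : ℝ) + ((1 : ℤ) : ℝ) / 2⌉ := by
          apply Int.le_of_sub_one_lt
          rw [Int.lt_ceil]; push_cast; linarith
        exact_mod_cast this
      · have : m ≤ ⌈(m : ℝ) + ((-1 : ℤ) : ℝ) / 2⌉ := by
          apply Int.le_of_sub_one_lt
          rw [Int.lt_ceil]; push_cast; linarith
        exact_mod_cast this
    · intro j hj hlev
      rw [lev_ge_iff] at hlev ⊢
      obtain ⟨a, ha⟩ := hlev
      refine ⟨a, ?_⟩
      obtain ⟨c, hbc⟩ : ∃ c, b = j + 1 + c := ⟨b - (j + 1), by omega⟩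
      have hq : (3 : ℝ) ^ b = 3 ^ j * (3 * 3 ^ c) := by rw [hbc]; ring
      have hq0 : (0 : ℝ) < 3 ^ c := by positivity
      have hj0 : (0 : ℝ) < 3 ^ j := by positivity
      simp only
      -- integers
      have e1 : (3 : ℝ) ^ j * (s : ℝ) * (3 * 3 ^ c) = m := by rw [← hm, hq]; ring
      have e2 : (3 : ℝ) ^ j * ((m + sn / 2) / 3 ^ b) * (3 * 3 ^ c) = m + sn / 2 := by
        rw [mul_right_comm, ← hq, hz]
      have hi : |m - 3 * 3 ^ c * a| ≤ 3 ^ c := by
        have : |(m : ℝ) - 3 * 3 ^ c * a| ≤ 3 ^ c := by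
          rw [← e1]
          rw [abs_le] at ha ⊢
          constructor
          · nlinarith [ha.1]
          · nlinarith [ha.2]
        exact_mod_cast this
      have hne : m - 3 * 3 ^ c * a ≠ sn * 3 ^ c := by
        intro he
        apply h3 c a (by omega)
        linear_combination he
      have h3c : (1 : ℤ) ≤ 3 ^ c := one_le_pow₀ (by norm_num)
      have hi2 : |2 * (m - 3 * 3 ^ c * a) + sn| ≤ 2 * 3 ^ c := by
        rw [abs_le] at hi ⊢
        generalize (3 : ℤ) ^ c = t at *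
        generalize 3 * t * a = w at *
        rcases hsn with rfl | rfl <;> omega
      have hi3 : |2 * ((m : ℝ) - 3 * 3 ^ c * a) + sn| ≤ 2 * 3 ^ c := by exact_mod_cast hi2
      have e3 : (3 : ℝ) ^ j * ((m + sn / 2) / 3 ^ b) = (m + sn / 2) / (3 * 3 ^ c) := by
        rw [eq_div_iff (by positivity)]; exact e2
      rw [e3]
      rw [abs_le] at hi3 ⊢
      have hp : (0 : ℝ) < 3 * 3 ^ c := by positivity
      constructor
      · rw [← sub_nonneg]
        have : (m + sn / 2) / (3 * 3 ^ c) - a - -(1 / 3) =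
          (2 * ((m : ℝ) - 3 * 3 ^ c * a) + sn + 2 * 3 ^ c) / (2 * (3 * 3 ^ c)) := by
          field_simp; ring
        rw [this]
        exact div_nonneg (by linarith [hi3.1]) (by positivity)
      · rw [← sub_nonneg]
        have : 1 / 3 - ((m + sn / 2) / (3 * 3 ^ c) - a) =
          (2 * 3 ^ c - (2 * ((m : ℝ) - 3 * 3 ^ c * a) + sn)) / (2 * (3 * 3 ^ c)) := by
          field_simp; ring
        rw [this]
        exact div_nonneg (by linarith [hi3.2]) (by positivity)
  · exact ⟨s, hs, Int.floor_le _, Int.le_ceil _, fun j _ h => h⟩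

end MbF

open MbF in
theorem pr_MbFacts (h1 : S_Lev) (h2 : S_Med) (h3 : S_Grid) : S_MbFacts := by
  intro n hn
  obtain ⟨levc, levb, -, levh, lev0, -⟩ := h1
  obtain ⟨medle, lemed, medex, -, medc, -⟩ := h2 n (2 * n + 1) (by omega)
  have hL : ∀ b : ℕ, 1 ≤ 3 ^ b := fun b => Nat.one_le_pow _ _ (by norm_num)
  have hcast : ∀ b : ℕ, ((3 ^ b : ℕ) : ℝ) = (3 : ℝ) ^ b := fun b => by push_cast; rfl
  have cubM : ∀ b, Cubical (3 ^ b) (Mb n b) := by
    intro b x hx y hy j hj
    refine le_trans (Set.ncard_le_ncard ?_ (Set.toFinite _)) (hx j hj)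
    intro i hi
    simp only [mem_ofPred_eq] at hi ⊢
    by_contra hc
    rw [not_lt] at hc
    have h4 := hy i
    rw [hcast] at h4
    exact absurd (key1 hj h4.1 h4.2 hc) (not_le.2 hi)
  have cubZ : ∀ b, Cubical (3 ^ b) (Zb n b) := fun b =>
    (h3.2.2.2.1 (2 * n + 1) (3 ^ b) _ _ (cubM b)
      ((h3.2.2.1 (2 * n + 1) (3 ^ b) (hL b)).2.2 n)).2
  have clM : ∀ b, IsClosed (Mb n b) := fun b => h3.2.2.2.2.1 _ _ _ (hL b) (cubM b)
  have clZ : ∀ b, IsClosed (Zb n b) := fun b => h3.2.2.2.2.1 _ _ _ (hL b) (cubZ b)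
  have anti : ∀ b c, b ≤ c → Mb n c ⊆ Mb n b := fun b c hbc x hx j hj => hx j (by omega)
  have rbb : ∀ b x, 0 ≤ rb n b x ∧ rb n b x ≤ 1 / 2 := by
    intro b x
    obtain ⟨i, hi⟩ := medex (fun i => lev b (x i))
    unfold rb
    rw [hi]
    exact levb b _
  have grid_iff : ∀ (b : ℕ) (s : unitInterval), IsGrid (3 ^ b) s ↔ lev b s = 1 / 2 := by
    intro b s
    rw [levh, IsGrid, hcast]
  have ZM : ∀ b c, Zb n b ⊆ Mb n c := by
    intro b c x hx j hj
    rcases Nat.lt_or_ge j b with h | h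
    · exact hx.1 j h
    · refine le_trans (Set.ncard_le_ncard ?_ (Set.toFinite _)) hx.2
      intro i hi hg
      simp only [mem_ofPred_eq] at hi
      exact absurd (lev_grid h hg) (not_le.2 hi)
  refine ⟨fun b => ⟨cubM b, cubZ b, clM b, clZ b, (clM b).isCompact, (clZ b).isCompact⟩, ?_, anti,
    ZM, ?_, ?_, ?_, rbb, ?_, ?_, ?_, ?_⟩
  · intro b
    ext x
    constructor
    · intro hx
      refine ⟨anti b (b + 1) (by omega) hx, ?_⟩
      have := hx b (by omega)
      exact (lemed _ _).2 this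
    · rintro ⟨hx, hx'⟩ j hj
      rcases Nat.lt_or_ge j b with h | h
      · exact hx j h
      · have : j = b := by omega
        subst this
        exact (lemed _ _).1 hx'
  · intro b c hbc x hx
    refine ⟨ZM b c hx, le_trans (Set.ncard_le_ncard ?_ (Set.toFinite _)) hx.2⟩
    intro i hi hg
    exact hi (grid_mono hbc hg)
  · intro b
    ext x
    have hset : {i | ¬ IsGrid (3 ^ b) (x i)} = {i | lev b (x i) < 1 / 2} := by
      ext i
      simp only [mem_ofPred_eq]
      rw [grid_iff]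
      exact ⟨fun h => lt_of_le_of_ne (levb b _).2 h, fun h => ne_of_lt h⟩
    constructor
    · rintro ⟨hx, hx'⟩
      refine ⟨hx, le_antisymm (rbb b x).2 ?_⟩
      simp only [skel, mem_ofPred_eq] at hx'
      rw [hset] at hx'
      exact (lemed _ _).2 hx'
    · rintro ⟨hx, hx'⟩
      refine ⟨hx, ?_⟩
      simp only [skel, mem_ofPred_eq]
      rw [hset]
      exact (lemed (fun i => lev b (x i)) (1 / 2)).1 (le_of_eq (Eq.symm hx'))
  · intro b
    exact medc.comp (continuous_pi fun i =>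
      (levc b).comp (continuous_subtype_val.comp (continuous_apply i)))
  · intro b x hx
    choose z hz1 hz2 hz3 hz4 using fun i => key2 b (x i)
    refine ⟨z, hz1, fun i => ?_, ?_⟩
    · rw [hcast]; exact ⟨hz2 i, hz3 i⟩
    · intro y hy j hj
      refine le_trans (Set.ncard_le_ncard ?_ (Set.toFinite _)) (hx j hj)
      intro i hi
      simp only [mem_ofPred_eq] at hi ⊢
      by_contra hc
      rw [not_lt] at hc
      have h4 := hy i
      rw [hcast] at h4
      exact absurd (key1 hj h4.1 h4.2 (hz4 i j hj hc)) (not_le.2 hi)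
  · intro b x
    have hset : {i | ∃ k : ℤ, (3 : ℝ) ^ b * (x i : ℝ) = k + 1 / 2} = {i | lev b (x i) ≤ 0} := by
      ext i
      simp only [mem_ofPred_eq]
      rw [← lev0]
      exact ⟨fun h => h.le, fun h => le_antisymm h (levb b _).1⟩
    rw [hset, ← medle (fun i => lev b (x i)) 0]
    exact ⟨fun h => h.le, fun h => le_antisymm h (rbb b x).1⟩
  · intro x
    simp [Mu]
  · intro b x hx
    simp only [Mu, mem_iInter]
    exact fun c => ZM b c hx

end M202

end

section

/-!
MP_202a65_gt: item Med, the (n+1)-st smallest entry.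
-/

open Set Topology unitInterval Filter

namespace M202

theorem Med_exists {n N : ℕ} (hN : n + 1 ≤ N) (a : Fin N → ℝ) :
    ∃ i0, n + 1 ≤ {i | a i ≤ a i0}.ncard ∧ {i | a i < a i0}.ncard ≤ n := by
  classical
  have : Nonempty (Fin N) := ⟨⟨0, by omega⟩⟩
  obtain ⟨im, him⟩ := Finite.exists_max a
  have hT : ({i | n + 1 ≤ {i' | a i' ≤ a i}.ncard} : Set (Fin N)).Nonempty := by
    refine ⟨im, ?_⟩
    have : {i' | a i' ≤ a im} = univ := by
      ext i'
      simp only [mem_ofPred_eq, mem_univ, iff_true]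
      exact him i'
    simp only [mem_ofPred_eq]
    rw [this, ncard_univ]
    simpa using hN
  obtain ⟨i0, hi0, hmin⟩ := exists_min_image _ a (toFinite _) hT
  refine ⟨i0, hi0, ?_⟩
  by_contra hc
  push Not at hc
  have hne : ({i | a i < a i0} : Set (Fin N)).Nonempty := by
    rw [← ncard_pos]
    omega
  obtain ⟨i1, hi1, hmax⟩ := exists_max_image _ a (toFinite _) hne
  have h1 : i1 ∈ {i | n + 1 ≤ {i' | a i' ≤ a i}.ncard} := by
    simp only [mem_ofPred_eq]
    have : {i | a i < a i0} ⊆ {i' | a i' ≤ a i1} := fun i hi => hmax i hi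
    exact le_trans hc (ncard_le_ncard this (toFinite _))
  have h2 := hmin i1 h1
  have h3 : a i1 < a i0 := hi1
  linarith

theorem Med_eq {n N : ℕ} (a : Fin N → ℝ) (r : ℝ) (h1 : n + 1 ≤ {i | a i ≤ r}.ncard)
    (h2 : {i | a i < r}.ncard ≤ n) : med n a = r := by
  have : IsLeast {r : ℝ | n + 1 ≤ {i | a i ≤ r}.ncard} r := by
    refine ⟨h1, ?_⟩
    intro s hs
    by_contra hc
    push Not at hc
    have hsub : {i | a i ≤ s} ⊆ {i | a i < r} := fun i hi => lt_of_le_of_lt hi hc
    have h3 := ncard_le_ncard hsub (toFinite _)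
    have h4 : n + 1 ≤ {i | a i ≤ s}.ncard := hs
    omega
  exact this.csInf_eq

theorem pr_Med : S_Med := by
  intro n N hN
  have key : ∀ a : Fin N → ℝ, n + 1 ≤ {i | a i ≤ med n a}.ncard ∧
      {i | a i < med n a}.ncard ≤ n ∧ ∃ i, med n a = a i := by
    intro a
    obtain ⟨i0, h1, h2⟩ := Med_exists hN a
    have := Med_eq a (a i0) h1 h2
    rw [this]
    exact ⟨h1, h2, i0, rfl⟩
  have p1 : ∀ (a : Fin N → ℝ) (r : ℝ), med n a ≤ r ↔ n + 1 ≤ {i | a i ≤ r}.ncard := by
    intro a r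
    constructor
    · intro h
      have hsub : {i | a i ≤ med n a} ⊆ {i | a i ≤ r} := fun i hi => le_trans hi h
      exact le_trans (key a).1 (ncard_le_ncard hsub (toFinite _))
    · intro h
      by_contra hc
      push Not at hc
      have hsub : {i | a i ≤ r} ⊆ {i | a i < med n a} := fun i hi => lt_of_le_of_lt hi hc
      have h3 := ncard_le_ncard hsub (toFinite _)
      have h4 := (key a).2.1
      omega
  have p2 : ∀ (a : Fin N → ℝ) (r : ℝ), r ≤ med n a ↔ {i | a i < r}.ncard ≤ n := by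
    intro a r
    constructor
    · intro h
      have hsub : {i | a i < r} ⊆ {i | a i < med n a} := fun i hi => lt_of_lt_of_le hi h
      exact le_trans (ncard_le_ncard hsub (toFinite _)) (key a).2.1
    · intro h
      by_contra hc
      push Not at hc
      have hsub : {i | a i ≤ med n a} ⊆ {i | a i < r} := fun i hi => lt_of_le_of_lt hi hc
      have h3 := ncard_le_ncard hsub (toFinite _)
      have h4 := (key a).1
      omega
  have p4' : ∀ (a a' : Fin N → ℝ) (d : ℝ), (∀ i, |a i - a' i| ≤ d) →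
      med n a ≤ med n a' + d := by
    intro a a' d h
    rw [p1]
    have hsub : {i | a' i ≤ med n a'} ⊆ {i | a i ≤ med n a' + d} := by
      intro i hi
      have h1 : a' i ≤ med n a' := hi
      have h2 := (abs_le.mp (h i)).2
      show a i ≤ med n a' + d
      linarith
    exact le_trans (key a').1 (ncard_le_ncard hsub (toFinite _))
  have p4 : ∀ (a a' : Fin N → ℝ) (d : ℝ), (∀ i, |a i - a' i| ≤ d) →
      |med n a - med n a'| ≤ d := by
    intro a a' d h
    rw [abs_le]
    have h1 := p4' a a' d h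
    have h2 := p4' a' a d (fun i => by rw [abs_sub_comm]; exact h i)
    constructor <;> linarith
  refine ⟨p1, p2, fun a => (key a).2.2, p4, ?_, ?_⟩
  · refine LipschitzWith.continuous (K := 1) (LipschitzWith.of_dist_le_mul ?_)
    intro a a'
    rw [Real.dist_eq]
    simp only [NNReal.coe_one, one_mul]
    refine p4 a a' _ (fun i => ?_)
    rw [← Real.dist_eq]
    exact dist_le_pi_dist a a' i
  · intro a a' r r' hr h1 h2
    refine Med_eq a' r' ?_ ?_
    · have hsub : {i | a i ≤ r} ⊆ {i | a' i ≤ r'} := fun i hi => h1 i hi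
      have := (key a).1
      rw [hr] at this
      exact le_trans this (ncard_le_ncard hsub (toFinite _))
    · have hsub : {i | a' i < r'} ⊆ {i | a i < r} := by
        intro i hi
        by_contra hc
        simp only [mem_ofPred_eq, not_lt] at hc hi
        have := h2 i hc
        linarith
      have := (key a).2.1
      rw [hr] at this
      exact le_trans (ncard_le_ncard hsub (toFinite _)) this

end M202

end

section

/-!
MP_202a65_gt: close points of M_b are joined by short canonical paths.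
-/

open Set Topology unitInterval Filter

namespace M202

theorem Near_toM {n b : ℕ} {y : Cube (2 * n + 1)} (h : y ∈ Mb n b) :
    (toM n b y : Cube (2 * n + 1)) = y := by
  unfold toM
  rw [dif_pos h]

/-- the coordinates of the path -/
noncomputable def Near_val (om : ℝ → ℝ → ℝ) (t u x y : ℝ) : ℝ :=
  (1 - max 0 (min 1 (3 * t - 1))) * om (min 1 (3 * t) * u) x +
    max 0 (min 1 (3 * t - 1)) * om (min 1 (3 * (1 - t)) * u) y

/-- the path, in the cube -/
noncomputable def Near_path (n b : ℕ) (om : ℝ → ℝ → ℝ) (p : I × (XM n b × XM n b)) :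
    Cube (2 * n + 1) :=
  fun i => Set.projIcc (0 : ℝ) 1 zero_le_one
    (Near_val om p.1 (2 * dist p.2.1 p.2.2) (p.2.1.1 i) (p.2.2.1 i))

theorem Near_cont (n b : ℕ) (om : ℝ → ℝ → ℝ) (hom : Continuous (fun p : ℝ × ℝ => om p.1 p.2)) :
    Continuous (Near_path n b om) := by
  unfold Near_path Near_val
  refine continuous_pi (fun i => ?_)
  refine continuous_projIcc.comp ?_
  have hx : Continuous (fun p : I × (XM n b × XM n b) => ((p.2.1.1 i : unitInterval) : ℝ)) :=
    continuous_subtype_val.comp ((continuous_apply i).comp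
      (continuous_subtype_val.comp (continuous_fst.comp continuous_snd)))
  have hy : Continuous (fun p : I × (XM n b × XM n b) => ((p.2.2.1 i : unitInterval) : ℝ)) :=
    continuous_subtype_val.comp ((continuous_apply i).comp
      (continuous_subtype_val.comp (continuous_snd.comp continuous_snd)))
  have ht : Continuous (fun p : I × (XM n b × XM n b) => ((p.1 : unitInterval) : ℝ)) := by
    fun_prop
  have hd : Continuous (fun p : I × (XM n b × XM n b) => 2 * dist p.2.1 p.2.2) := by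
    fun_prop
  have hb : Continuous (fun p : I × (XM n b × XM n b) => max 0 (min 1 (3 * (p.1 : ℝ) - 1))) := by
    fun_prop
  have ha : Continuous (fun p : I × (XM n b × XM n b) => min 1 (3 * (p.1 : ℝ)) *
      (2 * dist p.2.1 p.2.2)) := by
    fun_prop
  have hc : Continuous (fun p : I × (XM n b × XM n b) => min 1 (3 * (1 - (p.1 : ℝ))) *
      (2 * dist p.2.1 p.2.2)) := by
    fun_prop
  have h1 := hom.comp (ha.prodMk hx)
  have h2 := hom.comp (hc.prodMk hy)
  exact ((continuous_const.sub hb).mul h1).add (hb.mul h2)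

theorem pr_Near (h : S_Omega) : S_Near := by
  intro n b hn
  obtain ⟨om, C0, u0, hC0, hu0, hcont, hclose, hzero, hlip, hmem⟩ := h n b hn
  have hcoord : ∀ (x y : XM n b) (i : Fin (2 * n + 1)),
      |((x.1 i : unitInterval) : ℝ) - ((y.1 i : unitInterval) : ℝ)| ≤ dist x y := by
    intro x y i
    have h1 := dist_le_pi_dist x.1 y.1 i
    rw [Subtype.dist_eq, Real.dist_eq] at h1
    exact h1
  have key : ∀ p : I × (XM n b × XM n b), dist p.2.1 p.2.2 ≤ u0 / 2 →
      ∀ i, 0 ≤ Near_val om p.1 (2 * dist p.2.1 p.2.2) (p.2.1.1 i) (p.2.2.1 i) ∧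
        Near_val om p.1 (2 * dist p.2.1 p.2.2) (p.2.1.1 i) (p.2.2.1 i) ≤ 1 := by
    rintro ⟨t, x, y⟩ hd i
    have hd' : dist x y ≤ u0 / 2 := hd
    show 0 ≤ Near_val om t (2 * dist x y) (x.1 i) (y.1 i) ∧
        Near_val om t (2 * dist x y) (x.1 i) (y.1 i) ≤ 1
    unfold Near_val
    have hdn : 0 ≤ dist x y := dist_nonneg
    have ht0 : (0 : ℝ) ≤ t := t.2.1
    have ht1 : (t : ℝ) ≤ 1 := t.2.2
    have a1 : 0 ≤ min 1 (3 * (t : ℝ)) * (2 * dist x y) :=
      mul_nonneg (le_min (by norm_num) (by linarith)) (by linarith)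
    have a2 : min 1 (3 * (t : ℝ)) * (2 * dist x y) ≤ u0 := by
      have : min 1 (3 * (t : ℝ)) ≤ 1 := min_le_left _ _
      nlinarith
    have a3 : 0 ≤ min 1 (3 * (1 - (t : ℝ))) * (2 * dist x y) :=
      mul_nonneg (le_min (by norm_num) (by linarith)) (by linarith)
    have a4 : min 1 (3 * (1 - (t : ℝ))) * (2 * dist x y) ≤ u0 := by
      have : min 1 (3 * (1 - (t : ℝ))) ≤ 1 := min_le_left _ _
      nlinarith
    obtain ⟨-, b1, b2⟩ := hclose _ (x.1 i : ℝ) a1 a2 (x.1 i).2.1 (x.1 i).2.2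
    obtain ⟨-, b3, b4⟩ := hclose _ (y.1 i : ℝ) a3 a4 (y.1 i).2.1 (y.1 i).2.2
    have c1 : 0 ≤ max 0 (min 1 (3 * (t : ℝ) - 1)) := le_max_left _ _
    have c2 : max 0 (min 1 (3 * (t : ℝ) - 1)) ≤ 1 := max_le (by norm_num) (min_le_left _ _)
    constructor
    · have := mul_nonneg (sub_nonneg.2 c2) b1
      have := mul_nonneg c1 b3
      linarith
    · have h1 := mul_le_mul_of_nonneg_left b2 (sub_nonneg.2 c2)
      have h2 := mul_le_mul_of_nonneg_left b4 c1
      linarith
  have hcoe : ∀ p : I × (XM n b × XM n b), dist p.2.1 p.2.2 ≤ u0 / 2 → ∀ i,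
      ((Near_path n b om p i : unitInterval) : ℝ) =
        Near_val om p.1 (2 * dist p.2.1 p.2.2) (p.2.1.1 i) (p.2.2.1 i) := by
    intro p hp i
    unfold Near_path
    rw [Set.projIcc_of_mem zero_le_one (key p hp i)]
  have hin : ∀ p : I × (XM n b × XM n b), dist p.2.1 p.2.2 ≤ u0 / 2 →
      Near_path n b om p ∈ Mb n b := by
    intro p hp
    have hgoal : (∀ j, j < b → {i | lev j (Near_val om p.1 (2 * dist p.2.1 p.2.2) (p.2.1.1 i)
        (p.2.2.1 i)) < 1 / 6}.ncard ≤ n) → Near_path n b om p ∈ Mb n b := by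
      intro hg j hj
      have h1 := hg j hj
      simp only [hcoe p hp]
      exact h1
    apply hgoal
    obtain ⟨t, x, y⟩ := p
    have hd : dist x y ≤ u0 / 2 := hp
    show ∀ j, j < b → {i | lev j (Near_val om t (2 * dist x y) (x.1 i) (y.1 i)) < 1 / 6}.ncard ≤ n
    have hdn : 0 ≤ dist x y := dist_nonneg
    have ht0 : (0 : ℝ) ≤ t := t.2.1
    have ht1 : (t : ℝ) ≤ 1 := t.2.2
    by_cases hA : (t : ℝ) ≤ 1 / 3
    · have e1 : max 0 (min 1 (3 * (t : ℝ) - 1)) = 0 :=
        max_eq_left ((min_le_right _ _).trans (by linarith))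
      have a1 : 0 ≤ min 1 (3 * (t : ℝ)) * (2 * dist x y) :=
        mul_nonneg (le_min (by norm_num) (by linarith)) (by linarith)
      have a2 : min 1 (3 * (t : ℝ)) * (2 * dist x y) ≤ u0 := by
        have : min 1 (3 * (t : ℝ)) ≤ 1 := min_le_left _ _
        nlinarith
      refine (hmem _ a1 a2 x.1 x.2 _ (fun i => ?_)).2
      unfold Near_val
      rw [e1, sub_zero, one_mul, zero_mul, add_zero, sub_self, abs_zero]
      exact a1
    · by_cases hB : 2 / 3 ≤ (t : ℝ)
      · have e1 : max 0 (min 1 (3 * (t : ℝ) - 1)) = 1 := by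
          rw [min_eq_left (by linarith)]
          exact max_eq_right (by norm_num)
        have a3 : 0 ≤ min 1 (3 * (1 - (t : ℝ))) * (2 * dist x y) :=
          mul_nonneg (le_min (by norm_num) (by linarith)) (by linarith)
        have a4 : min 1 (3 * (1 - (t : ℝ))) * (2 * dist x y) ≤ u0 := by
          have : min 1 (3 * (1 - (t : ℝ))) ≤ 1 := min_le_left _ _
          nlinarith
        refine (hmem _ a3 a4 y.1 y.2 _ (fun i => ?_)).2
        unfold Near_val
        rw [e1, sub_self, zero_mul, one_mul, zero_add, sub_self, abs_zero]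
        exact a3
      · have e1 : min 1 (3 * (t : ℝ)) = 1 := min_eq_left (by linarith)
        have e2 : min 1 (3 * (1 - (t : ℝ))) = 1 := min_eq_left (by linarith)
        have c1 : 0 ≤ max 0 (min 1 (3 * (t : ℝ) - 1)) := le_max_left _ _
        have c2 : max 0 (min 1 (3 * (t : ℝ) - 1)) ≤ 1 := max_le (by norm_num) (min_le_left _ _)
        have a1 : 0 ≤ 2 * dist x y := by linarith
        have a2 : 2 * dist x y ≤ u0 := by linarith
        refine (hmem _ a1 a2 x.1 x.2 _ (fun i => ?_)).2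
        unfold Near_val
        rw [e1, e2, one_mul]
        set β := max 0 (min 1 (3 * (t : ℝ) - 1)) with hβ
        have e3 : (1 - β) * om (2 * dist x y) (x.1 i) + β * om (2 * dist x y) (y.1 i) -
            om (2 * dist x y) (x.1 i) =
            β * (om (2 * dist x y) (y.1 i) - om (2 * dist x y) (x.1 i)) := by ring
        rw [e3, abs_mul, abs_of_nonneg c1]
        have h1 := hlip (2 * dist x y) (y.1 i : ℝ) (x.1 i : ℝ) a1 a2
        have h2 := hcoord y x i
        rw [dist_comm] at h2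
        have h3 := abs_nonneg (om (2 * dist x y) (y.1 i) - om (2 * dist x y) (x.1 i))
        calc β * |om (2 * dist x y) (y.1 i) - om (2 * dist x y) (x.1 i)|
            ≤ 1 * |om (2 * dist x y) (y.1 i) - om (2 * dist x y) (x.1 i)| :=
              mul_le_mul_of_nonneg_right c2 h3
          _ ≤ 2 * dist x y := by linarith
  have hval : ∀ p : I × (XM n b × XM n b), dist p.2.1 p.2.2 ≤ u0 / 2 → ∀ z : XM n b,
      (∀ i, Near_val om p.1 (2 * dist p.2.1 p.2.2) (p.2.1.1 i) (p.2.2.1 i) = z.1 i) →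
      toM n b (Near_path n b om p) = z := by
    intro p hp z hz
    apply Subtype.ext
    rw [Near_toM (hin p hp)]
    funext i
    apply Subtype.ext
    rw [hcoe p hp i]
    exact hz i
  refine ⟨fun p => toM n b (Near_path n b om p), 2 * C0 + 1, u0 / 2, by linarith, by linarith,
    ?_, ?_, ?_⟩
  · rw [IsInducing.subtypeVal.continuousOn_iff]
    refine (Near_cont n b om hcont).continuousOn.congr (fun p hp => ?_)
    exact Near_toM (hin p hp)
  · intro x y hd
    refine ⟨?_, ?_, ?_⟩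
    · apply hval (0, (x, y)) hd
      intro i
      show Near_val om ((0 : unitInterval) : ℝ) (2 * dist x y) (x.1 i) (y.1 i) = x.1 i
      unfold Near_val
      have e0 : ((0 : unitInterval) : ℝ) = 0 := rfl
      have e1 : min (1 : ℝ) (3 * 0 - 1) = -1 := by norm_num
      have e2 : max (0 : ℝ) (-1) = 0 := by norm_num
      have e3 : min (1 : ℝ) (3 * 0) = 0 := by norm_num
      rw [e0, e1, e2, e3, zero_mul, zero_mul, hzero]
      ring
    · apply hval (1, (x, y)) hd
      intro i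
      show Near_val om ((1 : unitInterval) : ℝ) (2 * dist x y) (x.1 i) (y.1 i) = y.1 i
      unfold Near_val
      have e0 : ((1 : unitInterval) : ℝ) = 1 := rfl
      have e1 : min (1 : ℝ) (3 * 1 - 1) = 1 := by norm_num
      have e2 : max (0 : ℝ) 1 = 1 := by norm_num
      have e3 : min (1 : ℝ) (3 * (1 - 1)) = 0 := by norm_num
      rw [e0, e1, e2, e3, zero_mul, hzero]
      ring
    · intro t
      have hdn : 0 ≤ dist x y := dist_nonneg
      have ht0 : (0 : ℝ) ≤ t := t.2.1
      have ht1 : (t : ℝ) ≤ 1 := t.2.2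
      rw [Subtype.dist_eq, Near_toM (hin (t, (x, y)) hd)]
      rw [dist_pi_le_iff (by positivity)]
      intro i
      rw [Subtype.dist_eq, Real.dist_eq, hcoe (t, (x, y)) hd i]
      show |Near_val om t (2 * dist x y) (x.1 i) (y.1 i) - x.1 i| ≤ _
      unfold Near_val
      have a1 : 0 ≤ min 1 (3 * (t : ℝ)) * (2 * dist x y) :=
        mul_nonneg (le_min (by norm_num) (by linarith)) (by linarith)
      have a2' : min 1 (3 * (t : ℝ)) * (2 * dist x y) ≤ 2 * dist x y := by
        have : min 1 (3 * (t : ℝ)) ≤ 1 := min_le_left _ _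
        nlinarith
      have a3 : 0 ≤ min 1 (3 * (1 - (t : ℝ))) * (2 * dist x y) :=
        mul_nonneg (le_min (by norm_num) (by linarith)) (by linarith)
      have a4' : min 1 (3 * (1 - (t : ℝ))) * (2 * dist x y) ≤ 2 * dist x y := by
        have : min 1 (3 * (1 - (t : ℝ))) ≤ 1 := min_le_left _ _
        nlinarith
      have a2 : min 1 (3 * (t : ℝ)) * (2 * dist x y) ≤ u0 := by linarith
      have a4 : min 1 (3 * (1 - (t : ℝ))) * (2 * dist x y) ≤ u0 := by linarith
      have b1 := (hclose _ (x.1 i : ℝ) a1 a2 (x.1 i).2.1 (x.1 i).2.2).1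
      have b3 := (hclose _ (y.1 i : ℝ) a3 a4 (y.1 i).2.1 (y.1 i).2.2).1
      have c1 : 0 ≤ max 0 (min 1 (3 * (t : ℝ) - 1)) := le_max_left _ _
      have c2 : max 0 (min 1 (3 * (t : ℝ) - 1)) ≤ 1 := max_le (by norm_num) (min_le_left _ _)
      have h2 := hcoord y x i
      rw [dist_comm] at h2
      set β := max 0 (min 1 (3 * (t : ℝ) - 1)) with hβ
      set A := om (min 1 (3 * (t : ℝ)) * (2 * dist x y)) (x.1 i) with hA
      set B := om (min 1 (3 * (1 - (t : ℝ))) * (2 * dist x y)) (y.1 i) with hB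
      have d1 : |A - x.1 i| ≤ C0 * (2 * dist x y) := b1.trans (by nlinarith)
      have d2 : |B - x.1 i| ≤ C0 * (2 * dist x y) + dist x y := by
        have e1 : B - x.1 i = (B - y.1 i) + ((y.1 i : ℝ) - x.1 i) := by ring
        rw [e1]
        refine (abs_add_le _ _).trans ?_
        have e2 : |B - y.1 i| ≤ C0 * (2 * dist x y) := b3.trans (by nlinarith)
        linarith
      have e1 : (1 - β) * A + β * B - x.1 i = (1 - β) * (A - x.1 i) + β * (B - x.1 i) := by ring
      rw [e1]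
      refine (abs_add_le _ _).trans ?_
      rw [abs_mul, abs_mul, abs_of_nonneg c1, abs_of_nonneg (sub_nonneg.2 c2)]
      have f1 := mul_le_mul_of_nonneg_left d1 (sub_nonneg.2 c2)
      have f2 := mul_le_mul_of_nonneg_left d2 c1
      nlinarith
  · intro t x
    apply hval (t, (x, x)) (by show dist x x ≤ _; rw [dist_self]; linarith)
    intro i
    show Near_val om t (2 * dist x x) (x.1 i) (x.1 i) = x.1 i
    unfold Near_val
    rw [dist_self, mul_zero, mul_zero, mul_zero, hzero]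
    ring

end M202

end

section

/-!
MP_202a65_gt, item Omega (helper61): pushing M_b into its interior.
-/

set_option linter.unusedSectionVars false

open Set Topology unitInterval Filter

namespace M202

/-- the vector field -/
noncomputable def omegaW : ℕ → ℝ → ℝ
  | 0 => fun t => 1 - 2 * t
  | b + 1 => fun t => omegaW b t - 4 ^ (b + 1) * Real.sin (3 ^ b * t * (2 * Real.pi))

theorem omegaW_succ (b : ℕ) (t : ℝ) :
    omegaW (b + 1) t = omegaW b t - 4 ^ (b + 1) * Real.sin (3 ^ b * t * (2 * Real.pi)) := rfl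

theorem omegaW_cont (b : ℕ) : Continuous (omegaW b) := by
  induction b with
  | zero =>
    show Continuous (fun t : ℝ => 1 - 2 * t)
    fun_prop
  | succ b ih =>
    show Continuous (fun t : ℝ => omegaW b t - 4 ^ (b + 1) * Real.sin (3 ^ b * t * (2 * Real.pi)))
    fun_prop

theorem omegaW_bound (b : ℕ) {t : ℝ} (h0 : 0 ≤ t) (h1 : t ≤ 1) :
    |omegaW b t| ≤ (4 ^ (b + 1) - 1) / 3 := by
  induction b with
  | zero =>
    show |1 - 2 * t| ≤ _
    rw [abs_le]
    constructor <;> norm_num <;> linarith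
  | succ b ih =>
    rw [omegaW_succ]
    have h4 : (0 : ℝ) < 4 ^ (b + 1) := by positivity
    have hs : |(4 : ℝ) ^ (b + 1) * Real.sin (3 ^ b * t * (2 * Real.pi))| ≤ 4 ^ (b + 1) := by
      rw [abs_mul, abs_of_pos h4]
      exact mul_le_of_le_one_right h4.le (Real.abs_sin_le_one _)
    have h5 := abs_sub (omegaW b t) (4 ^ (b + 1) * Real.sin (3 ^ b * t * (2 * Real.pi)))
    have e : (4 : ℝ) ^ (b + 1 + 1) = 4 * 4 ^ (b + 1) := by ring
    rw [e]
    linarith

theorem omega_sin_lip (x y : ℝ) : |Real.sin x - Real.sin y| ≤ |x - y| := by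
  have h := Real.sin_sub_sin x y
  rw [h]
  have h1 : |Real.sin ((x - y) / 2)| ≤ |(x - y) / 2| := Real.abs_sin_le_abs
  have h2 := Real.abs_cos_le_one ((x + y) / 2)
  rw [abs_mul, abs_mul, abs_two]
  have h3 : |(x - y) / 2| = |x - y| / 2 := by rw [abs_div, abs_two]
  have h0 := abs_nonneg (Real.sin ((x - y) / 2))
  nlinarith

theorem omegaW_lip (b : ℕ) : ∃ K : ℝ, 0 ≤ K ∧ ∀ t t', |omegaW b t - omegaW b t'| ≤ K * |t - t'| := by
  induction b with
  | zero =>
    refine ⟨2, by norm_num, fun t t' => ?_⟩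
    show |(1 - 2 * t) - (1 - 2 * t')| ≤ _
    have : (1 - 2 * t) - (1 - 2 * t') = (-2) * (t - t') := by ring
    rw [this, abs_mul]
    norm_num
  | succ b ih =>
    obtain ⟨K, hK, h⟩ := ih
    refine ⟨K + 4 ^ (b + 1) * (3 ^ b * (2 * Real.pi)), by positivity, fun t t' => ?_⟩
    rw [omegaW_succ, omegaW_succ]
    have h1 := omega_sin_lip (3 ^ b * t * (2 * Real.pi)) (3 ^ b * t' * (2 * Real.pi))
    have h2 : |3 ^ b * t * (2 * Real.pi) - 3 ^ b * t' * (2 * Real.pi)| =
        3 ^ b * (2 * Real.pi) * |t - t'| := by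
      rw [show 3 ^ b * t * (2 * Real.pi) - 3 ^ b * t' * (2 * Real.pi) =
        3 ^ b * (2 * Real.pi) * (t - t') by ring, abs_mul, abs_of_nonneg (by positivity)]
    rw [h2] at h1
    have h4 : (0 : ℝ) < 4 ^ (b + 1) := by positivity
    have e : omegaW b t - 4 ^ (b + 1) * Real.sin (3 ^ b * t * (2 * Real.pi)) -
        (omegaW b t' - 4 ^ (b + 1) * Real.sin (3 ^ b * t' * (2 * Real.pi))) =
        (omegaW b t - omegaW b t') - 4 ^ (b + 1) * (Real.sin (3 ^ b * t * (2 * Real.pi)) -
          Real.sin (3 ^ b * t' * (2 * Real.pi))) := by ring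
    rw [e]
    have h5 := abs_sub (omegaW b t - omegaW b t') (4 ^ (b + 1) *
      (Real.sin (3 ^ b * t * (2 * Real.pi)) - Real.sin (3 ^ b * t' * (2 * Real.pi))))
    rw [abs_mul, abs_of_pos h4] at h5
    have h6 := mul_le_mul_of_nonneg_left h1 h4.le
    have h7 := h t t'
    calc _ ≤ _ := h5
      _ ≤ K * |t - t'| + 4 ^ (b + 1) * (3 ^ b * (2 * Real.pi) * |t - t'|) := add_le_add h7 h6
      _ = _ := by ring

theorem omega_sin_int (m : ℤ) : Real.sin ((m : ℝ) * (2 * Real.pi)) = 0 := by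
  have := Real.sin_int_mul_pi (2 * m)
  rw [← this]
  congr 1
  push_cast
  ring

theorem omegaW_zero (b : ℕ) : omegaW b 0 = 1 := by
  induction b with
  | zero => show (1 : ℝ) - 2 * 0 = 1; norm_num
  | succ b ih => rw [omegaW_succ, ih]; simp

theorem omegaW_one (b : ℕ) : omegaW b 1 = -1 := by
  induction b with
  | zero => show (1 : ℝ) - 2 * 1 = -1; norm_num
  | succ b ih =>
    rw [omegaW_succ, ih]
    have := omega_sin_int (3 ^ b)
    push_cast at this
    rw [mul_one, this]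
    ring

theorem omega_sqrt3 : (43 / 50 : ℝ) ≤ √3 / 2 := by
  have : (43 / 25 : ℝ) ≤ √3 := Real.le_sqrt_of_sq_le (by norm_num)
  linarith

theorem omega_sin_third (m : ℤ) : 43 / 50 ≤ Real.sin (((m : ℝ) + 1 / 3) * (2 * Real.pi)) := by
  have e : ((m : ℝ) + 1 / 3) * (2 * Real.pi) = (Real.pi - Real.pi / 3) + m * (2 * Real.pi) := by
    ring
  rw [e, Real.sin_add_int_mul_two_pi, Real.sin_pi_sub, Real.sin_pi_div_three]
  exact omega_sqrt3

theorem omega_sin_third' (m : ℤ) : Real.sin (((m : ℝ) - 1 / 3) * (2 * Real.pi)) ≤ -(43 / 50) := by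
  have e : ((m : ℝ) - 1 / 3) * (2 * Real.pi) = -(((((-m : ℤ) : ℝ)) + 1 / 3) * (2 * Real.pi)) := by
    push_cast
    ring
  rw [e, Real.sin_neg]
  have := omega_sin_third (-m)
  linarith

theorem omegaW_left {j : ℕ} {t : ℝ} (h0 : 0 ≤ t) (h1 : t ≤ 1) {m : ℤ}
    (hm : 3 ^ j * t = m + 1 / 3) : ∀ b, j < b → omegaW b t ≤ -2 := by
  intro b hb
  induction b, hb using Nat.le_induction with
  | base =>
    rw [Nat.succ_eq_add_one, omegaW_succ, hm]
    have h2 := omega_sin_third m
    have h3 := (abs_le.mp (omegaW_bound j h0 h1)).2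
    have h4 : (4 : ℝ) ≤ 4 ^ (j + 1) := by
      rw [pow_succ]
      have : (1 : ℝ) ≤ 4 ^ j := one_le_pow₀ (by norm_num)
      linarith
    nlinarith
  | succ b hb ih =>
    rw [omegaW_succ]
    obtain ⟨c, rfl⟩ := Nat.exists_eq_add_of_le hb
    have e : (3 : ℝ) ^ (j.succ + c) * t = ((3 ^ c * (3 * m + 1) : ℤ) : ℝ) := by
      push_cast
      calc (3 : ℝ) ^ (j.succ + c) * t = 3 ^ c * (3 * (3 ^ j * t)) := by
            rw [Nat.succ_eq_add_one]; ring
        _ = _ := by rw [hm]; ring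
    rw [e, omega_sin_int]
    linarith

theorem omegaW_right {j : ℕ} {t : ℝ} (h0 : 0 ≤ t) (h1 : t ≤ 1) {m : ℤ}
    (hm : 3 ^ j * t = m - 1 / 3) : ∀ b, j < b → 2 ≤ omegaW b t := by
  intro b hb
  induction b, hb using Nat.le_induction with
  | base =>
    rw [Nat.succ_eq_add_one, omegaW_succ, hm]
    have h2 := omega_sin_third' m
    have h3 := (abs_le.mp (omegaW_bound j h0 h1)).1
    have h4 : (4 : ℝ) ≤ 4 ^ (j + 1) := by
      rw [pow_succ]
      have : (1 : ℝ) ≤ 4 ^ j := one_le_pow₀ (by norm_num)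
      linarith
    nlinarith
  | succ b hb ih =>
    rw [omegaW_succ]
    obtain ⟨c, rfl⟩ := Nat.exists_eq_add_of_le hb
    have e : (3 : ℝ) ^ (j.succ + c) * t = ((3 ^ c * (3 * m - 1) : ℤ) : ℝ) := by
      push_cast
      calc (3 : ℝ) ^ (j.succ + c) * t = 3 ^ c * (3 * (3 ^ j * t)) := by
            rw [Nat.succ_eq_add_one]; ring
        _ = _ := by rw [hm]; ring
    rw [e, omega_sin_int]
    linarith

/-- lev j t ≥ 1/6 iff 3^j t is within 1/3 of an integer -/
theorem omega_lev {j : ℕ} {t : ℝ} : 1 / 6 ≤ lev j t ↔ ∃ m : ℤ, |3 ^ j * t - m| ≤ 1 / 3 := by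
  unfold lev
  set s : ℝ := 3 ^ j * t with hs
  have hf := Int.fract_nonneg s
  have hf1 := Int.fract_lt_one s
  have hfs : Int.fract s = s - ⌊s⌋ := rfl
  constructor
  · intro h
    rcases le_abs.mp h with h | h
    · refine ⟨⌊s⌋ + 1, ?_⟩
      push_cast
      rw [abs_le]
      constructor <;> linarith
    · refine ⟨⌊s⌋, ?_⟩
      rw [abs_le]
      constructor <;> linarith
  · rintro ⟨m, hm⟩
    rw [abs_le] at hm
    by_cases hsm : (m : ℝ) ≤ s
    · have : ⌊s⌋ = m := by
        rw [Int.floor_eq_iff]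
        constructor <;> linarith
      rw [hfs, this]
      refine le_abs.mpr (Or.inr ?_)
      linarith
    · push Not at hsm
      have : ⌊s⌋ = m - 1 := by
        rw [Int.floor_eq_iff]
        push_cast
        constructor <;> linarith
      rw [hfs, this]
      refine le_abs.mpr (Or.inl ?_)
      push_cast
      linarith

theorem pr_Omega (_h1 : S_Lev) : S_Omega := by
  intro n b hn
  obtain ⟨K, hK, hlip⟩ := omegaW_lip b
  let om : ℝ → ℝ → ℝ := fun u t => t + 2 * u * omegaW b t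
  have hom : ∀ u t, om u t = t + 2 * u * omegaW b t := fun _ _ => rfl
  have hu0 : (0 : ℝ) < 1 / (4 * (K + 1)) := by positivity
  have huK : ∀ u : ℝ, 0 ≤ u → u ≤ 1 / (4 * (K + 1)) → 2 * u * K ≤ 1 / 2 := by
    intro u h0 h1
    have h2 : u * (4 * (K + 1)) ≤ 1 := by
      rw [le_div_iff₀ (by positivity)] at h1
      exact h1
    nlinarith
  have hdiff : ∀ u t t', 0 ≤ u → u ≤ 1 / (4 * (K + 1)) →
      |2 * u * omegaW b t - 2 * u * omegaW b t'| ≤ 1 / 2 * |t - t'| := by
    intro u t t' h0 h1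
    have e : 2 * u * omegaW b t - 2 * u * omegaW b t' = 2 * u * (omegaW b t - omegaW b t') := by
      ring
    rw [e, abs_mul, abs_of_nonneg (by positivity : (0 : ℝ) ≤ 2 * u)]
    calc 2 * u * |omegaW b t - omegaW b t'| ≤ 2 * u * (K * |t - t'|) :=
          mul_le_mul_of_nonneg_left (hlip t t') (by positivity)
      _ = 2 * u * K * |t - t'| := by ring
      _ ≤ _ := mul_le_mul_of_nonneg_right (huK u h0 h1) (abs_nonneg _)
  have hmono : ∀ u t t', 0 ≤ u → u ≤ 1 / (4 * (K + 1)) → t ≤ t' → om u t ≤ om u t' := by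
    intro u t t' h0 h1 htt
    have h2 := (abs_le.mp (hdiff u t t' h0 h1)).2
    rw [abs_of_nonpos (by linarith : t - t' ≤ 0)] at h2
    rw [hom, hom]
    linarith
  have hom0 : ∀ u, om u 0 = 2 * u := by
    intro u
    rw [hom, omegaW_zero]
    ring
  have hom1 : ∀ u, om u 1 = 1 - 2 * u := by
    intro u
    rw [hom, omegaW_one]
    ring
  refine ⟨om, 2 * ((4 ^ (b + 1) - 1) / 3), 1 / (4 * (K + 1)), ?_, hu0, ?_, ?_, ?_, ?_, ?_⟩
  · have : (4 : ℝ) ≤ 4 ^ (b + 1) := by
      rw [pow_succ]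
      have : (1 : ℝ) ≤ 4 ^ b := one_le_pow₀ (by norm_num)
      linarith
    linarith
  · show Continuous (fun p : ℝ × ℝ => p.2 + 2 * p.1 * omegaW b p.2)
    have := omegaW_cont b
    fun_prop
  · intro u t h0 h1 ht0 ht1
    refine ⟨?_, ?_, ?_⟩
    · rw [hom, add_sub_cancel_left, abs_mul, abs_of_nonneg (by positivity : (0 : ℝ) ≤ 2 * u)]
      have := mul_le_mul_of_nonneg_left (omegaW_bound b ht0 ht1) (by positivity : (0 : ℝ) ≤ 2 * u)
      linarith
    · have := hmono u 0 t h0 h1 ht0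
      rw [hom0] at this
      linarith
    · have := hmono u t 1 h0 h1 ht1
      rw [hom1] at this
      linarith
  · intro t
    rw [hom]
    ring
  · intro u t t' h0 h1
    have h2 := hdiff u t t' h0 h1
    rw [hom, hom]
    have e : t + 2 * u * omegaW b t - (t' + 2 * u * omegaW b t') =
        (t - t') + (2 * u * omegaW b t - 2 * u * omegaW b t') := by ring
    rw [e]
    have h3 := abs_add_le (t - t') (2 * u * omegaW b t - 2 * u * omegaW b t')
    have h4 := abs_nonneg (t - t')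
    linarith
  · intro u h0 h1 x hx y hy
    have hy01 : ∀ i, u ≤ y i ∧ y i ≤ 1 - u := by
      intro i
      have h2 := abs_le.mp (hy i)
      have h3 := hmono u 0 (x i) h0 h1 (x i).2.1
      have h4 := hmono u (x i) 1 h0 h1 (x i).2.2
      rw [hom0] at h3
      rw [hom1] at h4
      constructor <;> linarith
    refine ⟨fun i => ⟨by linarith [(hy01 i).1], by linarith [(hy01 i).2]⟩, ?_⟩
    intro j hj
    refine le_trans (Set.ncard_le_ncard ?_ (Set.toFinite _)) (hx j hj)
    intro i hi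
    by_contra hcon
    have hcon' : 1 / 6 ≤ lev j (x i) := not_lt.mp hcon
    have hi' : lev j (y i) < 1 / 6 := hi
    refine absurd hi' (not_lt.mpr ?_)
    rw [omega_lev] at hcon' ⊢
    obtain ⟨m, hm⟩ := hcon'
    refine ⟨m, ?_⟩
    have h3 : (0 : ℝ) < 3 ^ j := by positivity
    have hx0 := (x i).2.1
    have hx1 := (x i).2.2
    rw [abs_le] at hm ⊢
    have h3x0 : 0 ≤ (3 : ℝ) ^ j * (x i : ℝ) := mul_nonneg h3.le hx0
    have h3x1 : (3 : ℝ) ^ j * (x i : ℝ) ≤ 3 ^ j := mul_le_of_le_one_right h3.le hx1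
    have hm0 : 0 ≤ m := by
      have : (-1 : ℝ) < m := by linarith
      have : (-1 : ℤ) < m := by exact_mod_cast this
      omega
    have hm1 : m ≤ 3 ^ j := by
      have : (m : ℝ) < 3 ^ j + 1 := by linarith
      have : m < 3 ^ j + 1 := by exact_mod_cast this
      omega
    have hyi := abs_le.mp (hy i)
    constructor
    · rcases hm0.eq_or_lt with hm00 | hm00
      · rw [← hm00]
        have : 0 ≤ (3 : ℝ) ^ j * y i := mul_nonneg h3.le (by linarith [(hy01 i).1])
        push_cast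
        linarith
      · -- q = (m - 1/3) / 3^j
        have hm00' : (1 : ℝ) ≤ m := by exact_mod_cast hm00
        have hm1' : (m : ℝ) ≤ 3 ^ j := by exact_mod_cast hm1
        set q : ℝ := (m - 1 / 3) / 3 ^ j with hq
        have hq3 : 3 ^ j * q = m - 1 / 3 := by rw [hq]; field_simp
        have hq0 : 0 ≤ q := div_nonneg (by linarith) h3.le
        have hq1 : q ≤ 1 := by
          rw [hq, div_le_one h3]
          linarith
        have hw := omegaW_right hq0 hq1 hq3 b hj
        have hqx : q ≤ x i := by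
          rw [hq, div_le_iff₀ h3]
          linarith
        have h5 := hmono u q (x i) h0 h1 hqx
        rw [hom u q] at h5
        have h6 : q ≤ y i := by nlinarith
        have h7 := mul_le_mul_of_nonneg_left h6 h3.le
        linarith
    · rcases hm1.eq_or_lt with hm11 | hm11
      · have hmr : (m : ℝ) = 3 ^ j := by rw [hm11]; push_cast; rfl
        have : (3 : ℝ) ^ j * y i ≤ 3 ^ j := mul_le_of_le_one_right h3.le (by linarith [(hy01 i).2])
        rw [hmr]
        linarith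
      · have hm11' : (m : ℝ) + 1 ≤ 3 ^ j := by exact_mod_cast hm11
        have hm0' : (0 : ℝ) ≤ m := by exact_mod_cast hm0
        set q : ℝ := (m + 1 / 3) / 3 ^ j with hq
        have hq3 : 3 ^ j * q = m + 1 / 3 := by rw [hq]; field_simp
        have hq0 : 0 ≤ q := div_nonneg (by linarith) h3.le
        have hq1 : q ≤ 1 := by
          rw [hq, div_le_one h3]
          linarith
        have hw := omegaW_left hq0 hq1 hq3 b hj
        have hqx : (x i : ℝ) ≤ q := by
          rw [hq, le_div_iff₀ h3]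
          linarith
        have h5 := hmono u (x i) q h0 h1 hqx
        rw [hom u q] at h5
        have h6 : y i ≤ q := by nlinarith
        have h7 := mul_le_mul_of_nonneg_left h6 h3.le
        linarith

end M202

end

section

/-!
MP_202a65_gt: M_b x I^N x I maps fine softly onto M_b u_g (B x I)
-/

set_option autoImplicit false

open Set Topology unitInterval

namespace M202

/-! ### the retraction of the square -/

noncomputable def Psi_R1 (W t : ℝ) : ℝ := max 0 (W - t / 2) / (1 - t / 2)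

noncomputable def Psi_R2 (W t : ℝ) : ℝ := max 0 (t - 2 * W)

theorem Psi_R1_bd {W t : ℝ} (hW : 0 ≤ W) (hW1 : W ≤ 1) (ht : 0 ≤ t) (ht1 : t ≤ 1) :
    0 ≤ Psi_R1 W t ∧ Psi_R1 W t ≤ W := by
  unfold Psi_R1
  have h : 0 < 1 - t / 2 := by linarith
  constructor
  · positivity
  · rw [div_le_iff₀ h]
    rcases max_cases 0 (W - t / 2) with ⟨h1, h2⟩ | ⟨h1, h2⟩
    · rw [h1]
      exact mul_nonneg hW h.le
    · rw [h1]
      nlinarith

theorem Psi_R2_bd {W t : ℝ} (hW : 0 ≤ W) (ht : 0 ≤ t) :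
    0 ≤ Psi_R2 W t ∧ Psi_R2 W t ≤ t := by
  unfold Psi_R2
  exact ⟨le_max_left _ _, max_le ht (by linarith)⟩

theorem Psi_fib {W t u : ℝ} (ht : 0 ≤ t) (ht1 : t ≤ 1) (hu : 0 ≤ u) (hu1 : u ≤ 1) :
    Psi_R1 ((1 - u) * W + u * Psi_R1 W t) ((1 - u) * t + u * Psi_R2 W t) = Psi_R1 W t ∧
    Psi_R2 ((1 - u) * W + u * Psi_R1 W t) ((1 - u) * t + u * Psi_R2 W t) = Psi_R2 W t := by
  have h : 0 < 1 - t / 2 := by linarith
  have h' : 0 < 1 - (1 - u) * t / 2 := by nlinarith
  rcases le_or_gt t (2 * W) with hc | hc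
  · have e2 : Psi_R2 W t = 0 := by
      unfold Psi_R2
      exact max_eq_left (by linarith)
    obtain ⟨r, hr⟩ : ∃ r, r = Psi_R1 W t := ⟨_, rfl⟩
    have e1 : r * (1 - t / 2) = W - t / 2 := by
      rw [hr]
      unfold Psi_R1
      rw [max_eq_right (by linarith)]
      exact div_mul_cancel₀ _ h.ne'
    have hr0 : 0 ≤ r := by
      rw [hr]
      unfold Psi_R1
      positivity
    rw [e2, ← hr]
    have e3 : (1 - u) * W + u * r - ((1 - u) * t + u * 0) / 2 =
        r * (1 - ((1 - u) * t + u * 0) / 2) := by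
      have : (1 - u) * W = (1 - u) * (r * (1 - t / 2) + t / 2) := by rw [e1]; ring
      rw [this]
      ring
    have h'' : 0 < 1 - ((1 - u) * t + u * 0) / 2 := by
      have : ((1 - u) * t + u * 0) / 2 = (1 - u) * t / 2 := by ring
      rw [this]
      exact h'
    constructor
    · unfold Psi_R1
      rw [e3, max_eq_right (by positivity)]
      exact mul_div_cancel_right₀ r h''.ne'
    · unfold Psi_R2
      apply max_eq_left
      have h4 : 0 ≤ r * (1 - ((1 - u) * t + u * 0) / 2) := by positivity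
      linarith
  · have e1 : Psi_R1 W t = 0 := by
      unfold Psi_R1
      rw [max_eq_left (by linarith), zero_div]
    have e2 : Psi_R2 W t = t - 2 * W := by
      unfold Psi_R2
      exact max_eq_right (by linarith)
    rw [e1, e2]
    constructor
    · unfold Psi_R1
      rw [max_eq_left (by linarith), zero_div]
    · unfold Psi_R2
      rw [max_eq_right (by linarith)]
      ring

/-! ### mixing -/

noncomputable def Psi_mix (a b : I) (la : ℝ) : I :=
  Set.projIcc 0 1 zero_le_one ((a : ℝ) + la * ((b : ℝ) - a))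

noncomputable def Psi_mixC {m : ℕ} (a b : Cube m) (la : ℝ) : Cube m :=
  fun k => Psi_mix (a k) (b k) la

theorem Psi_proj {s : ℝ} (h0 : 0 ≤ s) (h1 : s ≤ 1) :
    (Set.projIcc (0 : ℝ) 1 zero_le_one s : ℝ) = s := by
  rw [Set.coe_projIcc, min_eq_right h1, max_eq_right h0]

theorem Psi_mix_coe {a b : I} {la : ℝ} (h0 : 0 ≤ la) (h1 : la ≤ 1) :
    (Psi_mix a b la : ℝ) = a + la * ((b : ℝ) - a) := by
  unfold Psi_mix
  apply Psi_proj
  · nlinarith [a.2.1, a.2.2, b.2.1, b.2.2]
  · nlinarith [a.2.1, a.2.2, b.2.1, b.2.2]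

theorem Psi_mixC_coe {m : ℕ} {a b : Cube m} {la : ℝ} (h0 : 0 ≤ la) (h1 : la ≤ 1) (k : Fin m) :
    (Psi_mixC a b la k : ℝ) = a k + la * ((b k : ℝ) - a k) := Psi_mix_coe h0 h1

theorem Psi_mixC_one {m : ℕ} (a b : Cube m) : Psi_mixC a b 1 = b := by
  funext k
  apply Subtype.ext
  rw [Psi_mixC_coe zero_le_one le_rfl]
  ring

theorem Psi_mixC_zero {m : ℕ} (a b : Cube m) : Psi_mixC a b 0 = a := by
  funext k
  apply Subtype.ext
  rw [Psi_mixC_coe le_rfl zero_le_one]
  ring

theorem Psi_mixC_self {m : ℕ} (a : Cube m) {la : ℝ} : Psi_mixC a a la = a := by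
  funext k
  apply Subtype.ext
  unfold Psi_mixC Psi_mix
  rw [sub_self, mul_zero, add_zero]
  exact Psi_proj (a k).2.1 (a k).2.2

theorem Psi_mixC_comp {m : ℕ} (a b : Cube m) {la la' : ℝ} (h0 : 0 ≤ la) (h1 : la ≤ 1)
    (h0' : 0 ≤ la') (h1' : la' ≤ 1) :
    Psi_mixC a (Psi_mixC a b la) la' = Psi_mixC a b (la' * la) := by
  funext k
  apply Subtype.ext
  rw [Psi_mixC_coe h0' h1', Psi_mixC_coe h0 h1, Psi_mixC_coe (mul_nonneg h0' h0)
    (by nlinarith)]
  ring

theorem Psi_mixC_cont {X : Type} [TopologicalSpace X] {m : ℕ} {S : Set X} {a b : X → Cube m}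
    {la : X → ℝ} (ha : ContinuousOn a S) (hb : ContinuousOn b S) (h0 : ∀ x ∈ S, 0 ≤ la x)
    (h1 : ∀ x ∈ S, la x ≤ 1) (hl : ∀ x ∈ S, a x ≠ b x → ContinuousWithinAt la S x) :
    ContinuousOn (fun x => Psi_mixC (a x) (b x) (la x)) S := by
  apply continuousOn_pi.2
  intro k
  have hak : ContinuousOn (fun x => ((a x k : I) : ℝ)) S :=
    continuous_subtype_val.comp_continuousOn ((continuous_apply k).comp_continuousOn ha)
  have hbk : ContinuousOn (fun x => ((b x k : I) : ℝ)) S :=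
    continuous_subtype_val.comp_continuousOn ((continuous_apply k).comp_continuousOn hb)
  have hmain : ContinuousOn (fun x => la x * (((b x k : I) : ℝ) - (a x k : I))) S := by
    intro x hx
    by_cases hab : a x = b x
    · have hz : ((b x k : I) : ℝ) - (a x k : I) = 0 := by rw [hab, sub_self]
      have hz' : la x * (((b x k : I) : ℝ) - (a x k : I)) = 0 := by rw [hz, mul_zero]
      unfold ContinuousWithinAt
      simp only
      rw [hz']
      have hd : Filter.Tendsto (fun x => |((b x k : I) : ℝ) - (a x k : I)|) (𝓝[S] x) (𝓝 0) := by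
        have h3 : ContinuousWithinAt (fun x => |((b x k : I) : ℝ) - (a x k : I)|) S x :=
          ((hbk.sub hak).abs) x hx
        have h4 : |((b x k : I) : ℝ) - (a x k : I)| = 0 := by rw [hz, abs_zero]
        unfold ContinuousWithinAt at h3
        beta_reduce at h3
        rw [h4] at h3
        exact h3
      refine squeeze_zero_norm' ?_ hd
      filter_upwards [self_mem_nhdsWithin] with z hz'
      rw [Real.norm_eq_abs, abs_mul, abs_of_nonneg (h0 z hz')]
      exact mul_le_of_le_one_left (abs_nonneg _) (h1 z hz')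
    · exact (hl x hx hab).mul ((hbk.sub hak) x hx)
  exact continuous_projIcc.comp_continuousOn (hak.add hmain)

/-! ### the data -/

structure PsiDat (n b N : ℕ) (B : Type) [TopologicalSpace B]
    (io : B → Cube N) (vp : Cube N → B) (w : Cube N → ℝ) (g : B → XM n b) (ep : ℝ) : Prop where
  ep0 : 0 < ep
  cio : Continuous io
  cw : Continuous w
  cvp : ContinuousOn vp {x | w x ≤ 1}
  w0 : ∀ x, 0 ≤ w x
  wio : ∀ y, w (io y) = 0 ∧ vp (io y) = y
  wz : ∀ x, w x = 0 → io (vp x) = x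
  rad : ∀ x x' : Cube N, ∀ la : ℝ, 0 ≤ la → la ≤ 1 → w x ≤ 1 →
      (∀ k, (x' k : ℝ) = (io (vp x) k : ℝ) + la * ((x k : ℝ) - (io (vp x) k : ℝ))) →
      vp x' = vp x ∧ w x' = la * w x
  cg : Continuous g
  hep : ∀ y (v : Fin (2 * n + 1) → ℝ), (∀ k, |v k - ((g y : Cube (2 * n + 1)) k : ℝ)| ≤ ep) →
      (∀ k, 0 ≤ v k ∧ v k ≤ 1) ∧ ∀ l, l < b → {k | lev l (v k) < 1 / 6}.ncard ≤ n

noncomputable def Psi_W {n b N : ℕ} {B : Type} (vp : Cube N → B) (w : Cube N → ℝ)
    (g : B → XM n b) (ep : ℝ) (v : XM n b) (x : Cube N) : ℝ :=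
  if w x ≤ 1 then min 1 (max (dist v (g (vp x)) / ep) (w x)) else 1

section dat

variable {n b N : ℕ} {B : Type} [TopologicalSpace B]
  {io : B → Cube N} {vp : Cube N → B} {w : Cube N → ℝ} {g : B → XM n b} {ep : ℝ}

theorem Psi_W_bd (hd : PsiDat n b N B io vp w g ep) (v : XM n b) (x : Cube N) :
    0 ≤ Psi_W vp w g ep v x ∧ Psi_W vp w g ep v x ≤ 1 := by
  unfold Psi_W
  split_ifs with h
  · exact ⟨le_min zero_le_one ((hd.w0 x).trans (le_max_right _ _)), min_le_left _ _⟩
  · exact ⟨zero_le_one, le_rfl⟩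

theorem Psi_W_lt {v : XM n b} {x : Cube N} (h : Psi_W vp w g ep v x < 1) :
    w x ≤ 1 ∧ Psi_W vp w g ep v x = max (dist v (g (vp x)) / ep) (w x) := by
  unfold Psi_W at h ⊢
  split_ifs at h ⊢ with hw
  · refine ⟨hw, ?_⟩
    rcases min_lt_iff.1 h with h1 | h1
    · exact absurd h1 (lt_irrefl _)
    · exact min_eq_right h1.le
  · exact absurd h (lt_irrefl _)

theorem Psi_W_zero (hd : PsiDat n b N B io vp w g ep) {v : XM n b} {x : Cube N} :
    Psi_W vp w g ep v x = 0 ↔ v = g (vp x) ∧ w x = 0 := by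
  constructor
  · intro h
    have h1 : Psi_W vp w g ep v x < 1 := by rw [h]; exact zero_lt_one
    obtain ⟨h2, h3⟩ := Psi_W_lt h1
    rw [h] at h3
    have h4 : dist v (g (vp x)) / ep ≤ 0 := by rw [h3]; exact le_max_left _ _
    have h5 : w x ≤ 0 := by
      calc w x ≤ max (dist v (g (vp x)) / ep) (w x) := le_max_right _ _
        _ = 0 := h3.symm
    refine ⟨?_, le_antisymm h5 (hd.w0 x)⟩
    have h6 : dist v (g (vp x)) ≤ 0 := by
      rw [div_le_iff₀ hd.ep0, zero_mul] at h4
      exact h4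
    exact dist_le_zero.1 h6
  · rintro ⟨h1, h2⟩
    unfold Psi_W
    rw [h2, if_pos zero_le_one, ← h1, dist_self, zero_div, max_self]
    exact min_eq_right zero_le_one

theorem Psi_W_cont (hd : PsiDat n b N B io vp w g ep) :
    Continuous (fun p : XM n b × Cube N => Psi_W vp w g ep p.1 p.2) := by
  have hS1 : IsClosed {p : XM n b × Cube N | w p.2 ≤ 1} :=
    isClosed_le (hd.cw.comp continuous_snd) continuous_const
  have hS2 : IsClosed {p : XM n b × Cube N | 1 ≤ w p.2} :=
    isClosed_le continuous_const (hd.cw.comp continuous_snd)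
  have h1 : ContinuousOn (fun p : XM n b × Cube N => Psi_W vp w g ep p.1 p.2)
      {p : XM n b × Cube N | w p.2 ≤ 1} := by
    have hc : ContinuousOn (fun p : XM n b × Cube N =>
        min 1 (max (dist p.1 (g (vp p.2)) / ep) (w p.2))) {p : XM n b × Cube N | w p.2 ≤ 1} := by
      have hv : ContinuousOn (fun p : XM n b × Cube N => g (vp p.2))
          {p : XM n b × Cube N | w p.2 ≤ 1} :=
        hd.cg.comp_continuousOn (hd.cvp.comp continuousOn_snd (fun p hp => hp))
      have hdd : ContinuousOn (fun p : XM n b × Cube N => dist p.1 (g (vp p.2)))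
          {p : XM n b × Cube N | w p.2 ≤ 1} :=
        continuous_dist.comp_continuousOn (continuousOn_fst.prodMk hv)
      exact continuousOn_const.inf ((hdd.div_const ep).sup
        (hd.cw.comp_continuousOn continuousOn_snd))
    refine hc.congr ?_
    intro p hp
    unfold Psi_W
    exact if_pos hp
  have h2 : ContinuousOn (fun p : XM n b × Cube N => Psi_W vp w g ep p.1 p.2)
      {p : XM n b × Cube N | 1 ≤ w p.2} := by
    refine continuousOn_const.congr (f := fun _ => (1 : ℝ)) ?_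
    intro p hp
    unfold Psi_W
    simp only
    split_ifs with h
    · have h3 : w p.2 = 1 := le_antisymm h hp
      rw [h3]
      exact min_eq_left (le_max_right _ _)
    · rfl
  have h3 := h1.union_of_isClosed h2 hS1 hS2
  rw [← continuousOn_univ]
  refine h3.mono ?_
  intro p _
  rcases le_total (w p.2) 1 with h | h
  · exact Or.inl h
  · exact Or.inr h

/-- the scaling factor -/
noncomputable def Psi_la (W t u : ℝ) : ℝ := ((1 - u) * W + u * Psi_R1 W t) / W

theorem Psi_la_bd {W t u : ℝ} (hW : 0 ≤ W) (hW1 : W ≤ 1) (ht : 0 ≤ t) (ht1 : t ≤ 1)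
    (hu : 0 ≤ u) (hu1 : u ≤ 1) :
    0 ≤ Psi_la W t u ∧ Psi_la W t u ≤ 1 ∧ Psi_la W t u * W = (1 - u) * W + u * Psi_R1 W t := by
  obtain ⟨h1, h2⟩ := Psi_R1_bd hW hW1 ht ht1
  have h3 : 0 ≤ (1 - u) * W + u * Psi_R1 W t := by
    have := mul_nonneg (sub_nonneg.2 hu1) hW
    have := mul_nonneg hu h1
    linarith
  have h4 : (1 - u) * W + u * Psi_R1 W t ≤ W := by nlinarith
  unfold Psi_la
  rcases hW.eq_or_lt with h | h
  · rw [← h] at h2 h1 ⊢
    have h5 : Psi_R1 0 t = 0 := le_antisymm h2 h1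
    rw [h5]
    simp
  · refine ⟨div_nonneg h3 hW, (div_le_one h).2 h4, ?_⟩
    field_simp

theorem Psi_la_one {t u : ℝ} (ht1 : t ≤ 1) : Psi_la 1 t u = 1 := by
  unfold Psi_la Psi_R1
  rw [max_eq_right (by linarith)]
  have h : (1 - t / 2) ≠ 0 := by
    intro h
    linarith
  rw [div_self h]
  ring

/-- the deformation -/
noncomputable def Psi_K (io : B → Cube N) (vp : Cube N → B) (w : Cube N → ℝ) (g : B → XM n b)
    (ep : ℝ) (p : I × (XM n b × (Cube N × I))) : XM n b × (Cube N × I) :=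
  (toM n b (Psi_mixC (g (vp p.2.2.1) : Cube (2 * n + 1)) (p.2.1 : Cube (2 * n + 1))
    (Psi_la (Psi_W vp w g ep p.2.1 p.2.2.1) p.2.2.2 p.1)),
   (Psi_mixC (io (vp p.2.2.1)) p.2.2.1 (Psi_la (Psi_W vp w g ep p.2.1 p.2.2.1) p.2.2.2 p.1),
    Set.projIcc 0 1 zero_le_one ((1 - (p.1 : ℝ)) * p.2.2.2 +
      p.1 * Psi_R2 (Psi_W vp w g ep p.2.1 p.2.2.1) p.2.2.2)))

theorem Psi_toM {y : Cube (2 * n + 1)} (h : y ∈ Mb n b) : (toM n b y : Cube (2 * n + 1)) = y := by
  unfold toM
  rw [dif_pos h]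

theorem Psi_dist_coord (v v' : XM n b) (k : Fin (2 * n + 1)) :
    |((v : Cube (2 * n + 1)) k : ℝ) - ((v' : Cube (2 * n + 1)) k : ℝ)| ≤ dist v v' := by
  have h1 : dist ((v : Cube (2 * n + 1)) k) ((v' : Cube (2 * n + 1)) k) ≤
      dist (v : Cube (2 * n + 1)) (v' : Cube (2 * n + 1)) := dist_le_pi_dist _ _ k
  exact h1

/-- the mixed point stays in M_b -/
theorem Psi_memv (hd : PsiDat n b N B io vp w g ep) (v : XM n b) (x : Cube N) {la : ℝ}
    (h0 : 0 ≤ la) (h1 : la ≤ 1) (hla : Psi_W vp w g ep v x = 1 → la = 1) :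
    Psi_mixC (g (vp x) : Cube (2 * n + 1)) (v : Cube (2 * n + 1)) la ∈ Mb n b := by
  rcases (Psi_W_bd hd v x).2.eq_or_lt with hW | hW
  · rw [hla hW, Psi_mixC_one]
    exact v.2
  · obtain ⟨_, h3⟩ := Psi_W_lt hW
    have h4 : dist v (g (vp x)) / ep < 1 := by
      rw [h3] at hW
      exact (le_max_left _ _).trans_lt hW
    have h5 : dist v (g (vp x)) < ep := by
      rw [div_lt_iff₀ hd.ep0, one_mul] at h4
      exact h4
    have h6 := (hd.hep (vp x) (fun k => (Psi_mixC (g (vp x) : Cube (2 * n + 1))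
      (v : Cube (2 * n + 1)) la k : ℝ)) (by
        intro k
        rw [Psi_mixC_coe h0 h1]
        have h7 := Psi_dist_coord v (g (vp x)) k
        have e : ((g (vp x) : Cube (2 * n + 1)) k : ℝ) + la * (((v : Cube (2 * n + 1)) k : ℝ) -
            ((g (vp x) : Cube (2 * n + 1)) k : ℝ)) - ((g (vp x) : Cube (2 * n + 1)) k : ℝ) =
            la * (((v : Cube (2 * n + 1)) k : ℝ) - ((g (vp x) : Cube (2 * n + 1)) k : ℝ)) := by
          ring
        rw [e, abs_mul, abs_of_nonneg h0]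
        have h8 : la * |((v : Cube (2 * n + 1)) k : ℝ) - ((g (vp x) : Cube (2 * n + 1)) k : ℝ)| ≤
            |((v : Cube (2 * n + 1)) k : ℝ) - ((g (vp x) : Cube (2 * n + 1)) k : ℝ)| :=
          mul_le_of_le_one_left (abs_nonneg _) h1
        linarith)).2
    exact h6

/-- scaling -/
theorem Psi_scale (hd : PsiDat n b N B io vp w g ep) (v v' : XM n b) (x x' : Cube N) {la : ℝ}
    (h0 : 0 ≤ la) (h1 : la ≤ 1) (hW : Psi_W vp w g ep v x < 1)
    (hv : (v' : Cube (2 * n + 1)) = Psi_mixC (g (vp x) : Cube (2 * n + 1))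
      (v : Cube (2 * n + 1)) la)
    (hx : x' = Psi_mixC (io (vp x)) x la) :
    vp x' = vp x ∧ Psi_W vp w g ep v' x' = la * Psi_W vp w g ep v x := by
  obtain ⟨h2, h3⟩ := Psi_W_lt hW
  obtain ⟨h4, h5⟩ := hd.rad x x' la h0 h1 h2 (by
    intro k
    rw [hx]
    exact Psi_mixC_coe h0 h1 k)
  refine ⟨h4, ?_⟩
  have hdist : dist v' (g (vp x)) = la * dist v (g (vp x)) := by
    have e1 : dist v' (g (vp x)) = dist (v' : Cube (2 * n + 1)) (g (vp x) : Cube (2 * n + 1)) := rfl
    have e2 : dist v (g (vp x)) = dist (v : Cube (2 * n + 1)) (g (vp x) : Cube (2 * n + 1)) := rfl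
    rw [e1, e2]
    have hk : ∀ k, dist ((v' : Cube (2 * n + 1)) k) ((g (vp x) : Cube (2 * n + 1)) k) =
        la * dist ((v : Cube (2 * n + 1)) k) ((g (vp x) : Cube (2 * n + 1)) k) := by
      intro k
      have e3 : dist ((v' : Cube (2 * n + 1)) k) ((g (vp x) : Cube (2 * n + 1)) k) =
          |((v' : Cube (2 * n + 1)) k : ℝ) - ((g (vp x) : Cube (2 * n + 1)) k : ℝ)| := rfl
      have e4 : dist ((v : Cube (2 * n + 1)) k) ((g (vp x) : Cube (2 * n + 1)) k) =
          |((v : Cube (2 * n + 1)) k : ℝ) - ((g (vp x) : Cube (2 * n + 1)) k : ℝ)| := rfl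
      rw [e3, e4, hv, Psi_mixC_coe h0 h1, ← abs_of_nonneg h0, ← abs_mul, abs_of_nonneg h0]
      congr 1
      ring
    apply le_antisymm
    · rw [dist_pi_le_iff (mul_nonneg h0 dist_nonneg)]
      intro k
      rw [hk]
      exact mul_le_mul_of_nonneg_left (dist_le_pi_dist _ _ k) h0
    · rcases h0.eq_or_lt with h | h
      · rw [← h, zero_mul]
        exact dist_nonneg
      · rw [← le_div_iff₀' h]
        rw [dist_pi_le_iff (div_nonneg dist_nonneg h.le)]
        intro k
        rw [le_div_iff₀' h, ← hk]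
        exact dist_le_pi_dist _ _ k
  have hmax : max (dist v' (g (vp x')) / ep) (w x') = la * Psi_W vp w g ep v x := by
    rw [h3, h4, hdist, h5, mul_div_assoc, ← mul_max_of_nonneg _ _ h0]
  have hle : la * Psi_W vp w g ep v x < 1 := by
    have := (Psi_W_bd hd v x).1
    nlinarith
  unfold Psi_W at hmax hle ⊢
  rw [hmax]
  have hw' : w x' ≤ 1 := by
    rw [h5]
    have := hd.w0 x
    nlinarith
  rw [if_pos hw']
  exact min_eq_right hle.le

theorem Psi_fix (hd : PsiDat n b N B io vp w g ep) {v : XM n b} {x : Cube N}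
    (h : Psi_W vp w g ep v x = 0) (la : ℝ) :
    Psi_mixC (g (vp x) : Cube (2 * n + 1)) (v : Cube (2 * n + 1)) la = v ∧
    Psi_mixC (io (vp x)) x la = x := by
  obtain ⟨h1, h2⟩ := (Psi_W_zero hd).1 h
  refine ⟨?_, ?_⟩
  · rw [← h1, Psi_mixC_self]
  · have h3 := hd.wz x h2
    conv_lhs => rw [h3]
    rw [Psi_mixC_self]

/-- basic facts on K -/
theorem Psi_K_facts (hd : PsiDat n b N B io vp w g ep) (u : I) (v : XM n b) (x : Cube N) (t : I) :
    (0 ≤ Psi_la (Psi_W vp w g ep v x) t u) ∧ (Psi_la (Psi_W vp w g ep v x) t u ≤ 1) ∧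
    (Psi_la (Psi_W vp w g ep v x) t u * Psi_W vp w g ep v x =
      (1 - u) * Psi_W vp w g ep v x + u * Psi_R1 (Psi_W vp w g ep v x) t) ∧
    (Psi_W vp w g ep v x = 1 → Psi_la (Psi_W vp w g ep v x) t u = 1) ∧
    (((Psi_K io vp w g ep (u, (v, (x, t)))).1 : XM n b) : Cube (2 * n + 1)) =
      Psi_mixC (g (vp x) : Cube (2 * n + 1)) (v : Cube (2 * n + 1))
        (Psi_la (Psi_W vp w g ep v x) t u) ∧
    ((Psi_K io vp w g ep (u, (v, (x, t)))).2.2 : ℝ) =
      (1 - u) * t + u * Psi_R2 (Psi_W vp w g ep v x) t := by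
  obtain ⟨W0, W1⟩ := Psi_W_bd hd v x
  obtain ⟨l0, l1, l2⟩ := Psi_la_bd W0 W1 t.2.1 t.2.2 u.2.1 u.2.2
  have l3 : Psi_W vp w g ep v x = 1 → Psi_la (Psi_W vp w g ep v x) t u = 1 := by
    intro h
    rw [h]
    exact Psi_la_one t.2.2
  refine ⟨l0, l1, l2, l3, ?_, ?_⟩
  · exact Psi_toM (Psi_memv hd v x l0 l1 l3)
  · obtain ⟨r0, r1⟩ := Psi_R2_bd (t := t) W0 t.2.1
    have hu0 := u.2.1
    have hu1 := u.2.2
    have ht1 := t.2.2
    have ht0 := t.2.1
    apply Psi_proj
    · have := mul_nonneg (sub_nonneg.2 hu1) ht0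
      have := mul_nonneg hu0 r0
      linarith
    · nlinarith

/-- the value of W along the deformation, and the end point does not change -/
theorem Psi_K_W (hd : PsiDat n b N B io vp w g ep) (u : I) (v : XM n b) (x : Cube N) (t : I) :
    Psi_W vp w g ep (Psi_K io vp w g ep (u, (v, (x, t)))).1
      (Psi_K io vp w g ep (u, (v, (x, t)))).2.1 =
      (1 - u) * Psi_W vp w g ep v x + u * Psi_R1 (Psi_W vp w g ep v x) t ∧
    Psi_K io vp w g ep (1, Psi_K io vp w g ep (u, (v, (x, t)))) =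
      Psi_K io vp w g ep (1, (v, (x, t))) ∧
    (Psi_W vp w g ep v x < 1 → vp (Psi_K io vp w g ep (u, (v, (x, t)))).2.1 = vp x) := by
  obtain ⟨l0, l1, l2, l3, hv, ht⟩ := Psi_K_facts hd u v x t
  obtain ⟨W0, W1⟩ := Psi_W_bd hd v x
  have hx : (Psi_K io vp w g ep (u, (v, (x, t)))).2.1 =
    Psi_mixC (io (vp x)) x (Psi_la (Psi_W vp w g ep v x) t u) := rfl
  obtain ⟨a', ha'⟩ : ∃ a', a' = Psi_K io vp w g ep (u, (v, (x, t))) := ⟨_, rfl⟩
  rw [← ha'] at hv ht hx ⊢
  obtain ⟨v', x', t'⟩ := a'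
  simp only at hv ht hx ⊢
  have hf := Psi_fib (W := Psi_W vp w g ep v x) t.2.1 t.2.2 u.2.1 u.2.2
  rcases W1.eq_or_lt with h | h
  · have hla := l3 h
    rw [hla, Psi_mixC_one] at hx hv
    have hv' : v' = v := Subtype.ext hv
    subst hv' hx
    have hR1 : Psi_R1 1 (t : ℝ) = 1 := by
      have h5 := Psi_la_one (t := (t : ℝ)) (u := 1) t.2.2
      unfold Psi_la at h5
      linarith
    have hR2 : ∀ s : ℝ, s ≤ 1 → Psi_R2 1 s = 0 := by
      intro s hs
      unfold Psi_R2
      exact max_eq_left (by linarith)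
    refine ⟨?_, ?_, ?_⟩
    · rw [h, hR1]
      ring
    · unfold Psi_K
      simp only
      rw [h, Psi_la_one t'.2.2, Psi_la_one t.2.2, hR2 _ t'.2.2, hR2 _ t.2.2]
      simp
    · intro h'
      exact absurd h (ne_of_lt h')
  · obtain ⟨h4, h5⟩ := Psi_scale hd v v' x x' l0 l1 h hv hx
    rw [l2] at h5
    refine ⟨h5, ?_, fun _ => h4⟩
    -- equality of the end points
    obtain ⟨m0, m1, m2, m3, mv, mt⟩ := Psi_K_facts hd 1 v' x' t'
    obtain ⟨n0, n1, n2, n3, nv, nt⟩ := Psi_K_facts hd 1 v x t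
    have key : ∀ (m : ℕ) (p q : Cube m), (Psi_W vp w g ep v x = 0 → p = q) →
        Psi_mixC p (Psi_mixC p q (Psi_la (Psi_W vp w g ep v x) t u))
          (Psi_la (Psi_W vp w g ep v' x') t' (1 : I)) =
        Psi_mixC p q (Psi_la (Psi_W vp w g ep v x) t (1 : I)) := by
      intro m p q hpq
      rw [Psi_mixC_comp _ _ l0 l1 m0 m1]
      rcases eq_or_ne (Psi_W vp w g ep v x) 0 with hW | hW
      · rw [hpq hW, Psi_mixC_self, Psi_mixC_self]
      · congr 1
        have hR : Psi_R1 (Psi_W vp w g ep v' x') t' = Psi_R1 (Psi_W vp w g ep v x) t := by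
          rw [h5, ht]
          exact hf.1
        unfold Psi_la at l2 ⊢
        rw [hR]
        simp only [Icc.coe_one, sub_self, zero_mul, zero_add, one_mul]
        rcases eq_or_ne (Psi_W vp w g ep v' x') 0 with hW' | hW'
        · rw [hW', div_zero, zero_mul]
          rw [hW'] at h5
          have hr0 := (Psi_R1_bd W0 W1 t.2.1 t.2.2).1
          have hu0 := u.2.1
          have hu1 := u.2.2
          have hWpos : 0 < Psi_W vp w g ep v x := lt_of_le_of_ne W0 (Ne.symm hW)
          have e1 : (1 - (u : ℝ)) * Psi_W vp w g ep v x = 0 := by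
            have a1 := mul_nonneg (sub_nonneg.2 hu1) W0
            have a2 := mul_nonneg hu0 hr0
            linarith
          have e2 : (1 - (u : ℝ)) = 0 := by
            rcases mul_eq_zero.1 e1 with e | e
            · exact e
            · exact absurd e hW
          have e3 : (u : ℝ) = 1 := by linarith
          rw [e3] at h5
          have e4 : Psi_R1 (Psi_W vp w g ep v x) t = 0 := by linarith
          rw [e4, zero_div]
        · rw [← h5]
          field_simp
    have e1 : Psi_W vp w g ep v x = 0 → (g (vp x) : Cube (2 * n + 1)) = v := by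
      intro hW
      rw [← ((Psi_W_zero hd).1 hW).1]
    have e2 : Psi_W vp w g ep v x = 0 → io (vp x) = x := by
      intro hW
      exact hd.wz x ((Psi_W_zero hd).1 hW).2
    have q1 : (Psi_K io vp w g ep (1, (v', (x', t')))).1 =
        (Psi_K io vp w g ep (1, (v, (x, t)))).1 := by
      apply Subtype.ext
      rw [mv, nv, h4, hv]
      exact key _ _ _ e1
    have q2 : (Psi_K io vp w g ep (1, (v', (x', t')))).2.1 =
        (Psi_K io vp w g ep (1, (v, (x, t)))).2.1 := by
      have q3 : (Psi_K io vp w g ep (1, (v', (x', t')))).2.1 =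
        Psi_mixC (io (vp x')) x' (Psi_la (Psi_W vp w g ep v' x') t' (1 : I)) := rfl
      have q4 : (Psi_K io vp w g ep (1, (v, (x, t)))).2.1 =
        Psi_mixC (io (vp x)) x (Psi_la (Psi_W vp w g ep v x) t (1 : I)) := rfl
      rw [q3, q4, h4, hx]
      have q5 := key _ _ _ e2
      rw [hx] at q5
      exact q5
    have q6 : (Psi_K io vp w g ep (1, (v', (x', t')))).2.2 =
        (Psi_K io vp w g ep (1, (v, (x, t)))).2.2 := by
      apply Subtype.ext
      rw [mt, nt, h5, ht]
      have := hf.2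
      simp only [Icc.coe_one, sub_self, zero_mul, zero_add, one_mul]
      exact this
    exact Prod.ext q1 (Prod.ext q2 q6)

/-- K at time 0 -/
theorem Psi_K_zero (hd : PsiDat n b N B io vp w g ep) (a : XM n b × (Cube N × I)) :
    Psi_K io vp w g ep (0, a) = a := by
  obtain ⟨v, x, t⟩ := a
  obtain ⟨l0, l1, l2, l3, hv, ht⟩ := Psi_K_facts hd 0 v x t
  have hx : (Psi_K io vp w g ep (0, (v, (x, t)))).2.1 =
    Psi_mixC (io (vp x)) x (Psi_la (Psi_W vp w g ep v x) t (0 : I)) := rfl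
  have hla : Psi_W vp w g ep v x ≠ 0 → Psi_la (Psi_W vp w g ep v x) t (0 : I) = 1 := by
    intro h
    unfold Psi_la
    simp only [Icc.coe_zero, sub_zero, one_mul, zero_mul, add_zero]
    exact div_self h
  have q1 : (Psi_K io vp w g ep (0, (v, (x, t)))).1 = v := by
    apply Subtype.ext
    rw [hv]
    by_cases h : Psi_W vp w g ep v x = 0
    · exact (Psi_fix hd h _).1
    · rw [hla h, Psi_mixC_one]
  have q2 : (Psi_K io vp w g ep (0, (v, (x, t)))).2.1 = x := by
    rw [hx]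
    by_cases h : Psi_W vp w g ep v x = 0
    · exact (Psi_fix hd h _).2
    · rw [hla h, Psi_mixC_one]
  have q3 : (Psi_K io vp w g ep (0, (v, (x, t)))).2.2 = t := by
    apply Subtype.ext
    rw [ht]
    simp
  exact Prod.ext q1 (Prod.ext q2 q3)

/-- K at time 1 on the target -/
theorem Psi_K_one (hd : PsiDat n b N B io vp w g ep) (v : XM n b) (x : Cube N) (t : I)
    (h : t = 0 ∨ Psi_W vp w g ep v x = 0) :
    Psi_K io vp w g ep (1, (v, (x, t))) = (v, (x, t)) := by
  obtain ⟨l0, l1, l2, l3, hv, ht⟩ := Psi_K_facts hd 1 v x t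
  obtain ⟨W0, W1⟩ := Psi_W_bd hd v x
  have hx : (Psi_K io vp w g ep (1, (v, (x, t)))).2.1 =
    Psi_mixC (io (vp x)) x (Psi_la (Psi_W vp w g ep v x) t (1 : I)) := rfl
  have hla : Psi_W vp w g ep v x ≠ 0 → Psi_la (Psi_W vp w g ep v x) t (1 : I) = 1 := by
    intro h'
    have h0 := h.resolve_right h'
    rw [h0]
    unfold Psi_la Psi_R1
    simp only [Icc.coe_one, sub_self, zero_mul, zero_add, one_mul, Icc.coe_zero, zero_div,
      sub_zero, div_one]
    rw [max_eq_right W0]
    exact div_self h'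
  have q1 : (Psi_K io vp w g ep (1, (v, (x, t)))).1 = v := by
    apply Subtype.ext
    rw [hv]
    by_cases h : Psi_W vp w g ep v x = 0
    · exact (Psi_fix hd h _).1
    · rw [hla h, Psi_mixC_one]
  have q2 : (Psi_K io vp w g ep (1, (v, (x, t)))).2.1 = x := by
    rw [hx]
    by_cases h : Psi_W vp w g ep v x = 0
    · exact (Psi_fix hd h _).2
    · rw [hla h, Psi_mixC_one]
  have q3 : (Psi_K io vp w g ep (1, (v, (x, t)))).2.2 = t := by
    apply Subtype.ext
    rw [ht]
    simp only [Icc.coe_one, sub_self, zero_mul, zero_add, one_mul]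
    unfold Psi_R2
    rcases h with h | h
    · rw [h]
      simp only [Icc.coe_zero]
      exact max_eq_left (by linarith)
    · rw [h]
      have := t.2.1
      rw [mul_zero, sub_zero]
      exact max_eq_right this
  exact Prod.ext q1 (Prod.ext q2 q3)

/-- K at time 1 is in the target -/
theorem Psi_K_tgt (hd : PsiDat n b N B io vp w g ep) (v : XM n b) (x : Cube N) (t : I) :
    (Psi_K io vp w g ep (1, (v, (x, t)))).2.2 = 0 ∨
    Psi_W vp w g ep (Psi_K io vp w g ep (1, (v, (x, t)))).1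
      (Psi_K io vp w g ep (1, (v, (x, t)))).2.1 = 0 := by
  obtain ⟨l0, l1, l2, l3, hv, ht⟩ := Psi_K_facts hd 1 v x t
  have h1 := (Psi_K_W hd 1 v x t).1
  simp only [Icc.coe_one, sub_self, zero_mul, zero_add, one_mul] at h1 ht
  rcases le_or_gt (t : ℝ) (2 * Psi_W vp w g ep v x) with h | h
  · left
    apply Subtype.ext
    rw [ht]
    unfold Psi_R2
    exact max_eq_left (by linarith)
  · right
    rw [h1]
    unfold Psi_R1
    rw [max_eq_left (by linarith), zero_div]

/-- continuity of K -/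
theorem Psi_K_cont (hd : PsiDat n b N B io vp w g ep) : Continuous (Psi_K io vp w g ep) := by
  have cW : Continuous (fun p : I × (XM n b × (Cube N × I)) => Psi_W vp w g ep p.2.1 p.2.2.1) :=
    (Psi_W_cont hd).comp (f := fun p : I × (XM n b × (Cube N × I)) => (p.2.1, p.2.2.1))
      (by fun_prop)
  have cR1 : Continuous (fun p : I × (XM n b × (Cube N × I)) =>
      Psi_R1 (Psi_W vp w g ep p.2.1 p.2.2.1) p.2.2.2) := by
    unfold Psi_R1
    refine Continuous.div ?_ ?_ ?_
    · exact continuous_const.max (cW.sub (by fun_prop))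
    · fun_prop
    · intro p
      have := p.2.2.2.2.2
      intro h
      linarith
  have cR2 : Continuous (fun p : I × (XM n b × (Cube N × I)) =>
      Psi_R2 (Psi_W vp w g ep p.2.1 p.2.2.1) p.2.2.2) := by
    unfold Psi_R2
    have h1 : Continuous (fun p : I × (XM n b × (Cube N × I)) => ((p.2.2.2 : I) : ℝ)) := by
      fun_prop
    exact continuous_const.max (h1.sub (continuous_const.mul cW))
  have cu : Continuous (fun p : I × (XM n b × (Cube N × I)) => ((p.1 : I) : ℝ)) := by fun_prop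
  have cnum : Continuous (fun p : I × (XM n b × (Cube N × I)) =>
      (1 - ((p.1 : I) : ℝ)) * Psi_W vp w g ep p.2.1 p.2.2.1 +
        (p.1 : I) * Psi_R1 (Psi_W vp w g ep p.2.1 p.2.2.1) p.2.2.2) :=
    ((continuous_const.sub cu).mul cW).add (cu.mul cR1)
  have cla : ∀ (S : Set (I × (XM n b × (Cube N × I)))) (p : I × (XM n b × (Cube N × I))),
      Psi_W vp w g ep p.2.1 p.2.2.1 ≠ 0 → ContinuousWithinAt (fun p =>
        Psi_la (Psi_W vp w g ep p.2.1 p.2.2.1) p.2.2.2 p.1) S p := by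
    intro S p hp
    exact (cnum.continuousAt.div cW.continuousAt hp).continuousWithinAt
  have hS1 : IsClosed {p : I × (XM n b × (Cube N × I)) | w p.2.2.1 ≤ 1} :=
    isClosed_le (hd.cw.comp (by fun_prop)) continuous_const
  have hS2 : IsClosed {p : I × (XM n b × (Cube N × I)) | 1 ≤ w p.2.2.1} :=
    isClosed_le continuous_const (hd.cw.comp (by fun_prop))
  have cx : Continuous (fun p : I × (XM n b × (Cube N × I)) => p.2.2.1) := by fun_prop
  have cv : Continuous (fun p : I × (XM n b × (Cube N × I)) => ((p.2.1 : XM n b) :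
      Cube (2 * n + 1))) := by fun_prop
  have cvp : ContinuousOn (fun p : I × (XM n b × (Cube N × I)) => vp p.2.2.1)
      {p : I × (XM n b × (Cube N × I)) | w p.2.2.1 ≤ 1} :=
    hd.cvp.comp cx.continuousOn (fun p hp => hp)
  have hW1 : ∀ p : I × (XM n b × (Cube N × I)), 1 ≤ w p.2.2.1 →
      Psi_la (Psi_W vp w g ep p.2.1 p.2.2.1) p.2.2.2 p.1 = 1 := by
    intro p hp
    have h1 : Psi_W vp w g ep p.2.1 p.2.2.1 = 1 := by
      rcases (Psi_W_bd hd p.2.1 p.2.2.1).2.eq_or_lt with h | h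
      · exact h
      · obtain ⟨h2, h3⟩ := Psi_W_lt h
        rw [h3] at h
        have := (le_max_right (dist p.2.1 (g (vp p.2.2.1)) / ep) (w p.2.2.1)).trans_lt h
        linarith
    rw [h1]
    exact Psi_la_one p.2.2.2.2.2
  have glue : ∀ {Y : Type} [TopologicalSpace Y] (F : I × (XM n b × (Cube N × I)) → Y),
      ContinuousOn F {p | w p.2.2.1 ≤ 1} → ContinuousOn F {p | 1 ≤ w p.2.2.1} → Continuous F := by
    intro Y _ F h1 h2
    have h3 := h1.union_of_isClosed h2 hS1 hS2
    rw [← continuousOn_univ]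
    refine h3.mono ?_
    intro p _
    rcases le_total (w p.2.2.1) 1 with h | h
    · exact Or.inl h
    · exact Or.inr h
  -- first component
  have c1 : Continuous (fun p : I × (XM n b × (Cube N × I)) =>
      Psi_mixC (g (vp p.2.2.1) : Cube (2 * n + 1)) (p.2.1 : Cube (2 * n + 1))
        (Psi_la (Psi_W vp w g ep p.2.1 p.2.2.1) p.2.2.2 p.1)) := by
    apply glue
    · apply Psi_mixC_cont
      · exact continuous_subtype_val.comp_continuousOn (hd.cg.comp_continuousOn cvp)
      · exact cv.continuousOn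
      · intro p _
        exact (Psi_K_facts hd p.1 p.2.1 p.2.2.1 p.2.2.2).1
      · intro p _
        exact (Psi_K_facts hd p.1 p.2.1 p.2.2.1 p.2.2.2).2.1
      · intro p _ hne
        apply cla
        intro h
        apply hne
        rw [← ((Psi_W_zero hd).1 h).1]
    · refine cv.continuousOn.congr ?_
      intro p hp
      simp only
      rw [hW1 p hp, Psi_mixC_one]
  have c2 : Continuous (fun p : I × (XM n b × (Cube N × I)) =>
      Psi_mixC (io (vp p.2.2.1)) p.2.2.1
        (Psi_la (Psi_W vp w g ep p.2.1 p.2.2.1) p.2.2.2 p.1)) := by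
    apply glue
    · apply Psi_mixC_cont
      · exact hd.cio.comp_continuousOn cvp
      · exact cx.continuousOn
      · intro p _
        exact (Psi_K_facts hd p.1 p.2.1 p.2.2.1 p.2.2.2).1
      · intro p _
        exact (Psi_K_facts hd p.1 p.2.1 p.2.2.1 p.2.2.2).2.1
      · intro p _ hne
        apply cla
        intro h
        apply hne
        exact hd.wz _ ((Psi_W_zero hd).1 h).2
    · refine cx.continuousOn.congr ?_
      intro p hp
      simp only
      rw [hW1 p hp, Psi_mixC_one]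
  have c3 : Continuous (fun p : I × (XM n b × (Cube N × I)) =>
      (Set.projIcc 0 1 zero_le_one ((1 - (p.1 : ℝ)) * p.2.2.2 +
      p.1 * Psi_R2 (Psi_W vp w g ep p.2.1 p.2.2.1) p.2.2.2) : I)) := by
    apply continuous_projIcc.comp
    have h1 : Continuous (fun p : I × (XM n b × (Cube N × I)) => ((p.2.2.2 : I) : ℝ)) := by
      fun_prop
    exact ((continuous_const.sub cu).mul h1).add (cu.mul cR2)
  have c1' : Continuous (fun p : I × (XM n b × (Cube N × I)) => (Psi_K io vp w g ep p).1) := by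
    refine continuous_induced_rng.2 ?_
    refine c1.congr ?_
    intro p
    exact ((Psi_K_facts hd p.1 p.2.1 p.2.2.1 p.2.2.2).2.2.2.2.1).symm
  exact c1'.prodMk (c2.prodMk c3)

/-- the target of the first deformation -/
abbrev Psi_Q (vp : Cube N → B) (w : Cube N → ℝ) (g : B → XM n b) (ep : ℝ) : Type :=
  {a : XM n b × (Cube N × I) // a.2.2 = 0 ∨ Psi_W vp w g ep a.1 a.2.1 = 0}

/-- the first map -/
noncomputable def Psi_r1 (hd : PsiDat n b N B io vp w g ep) (a : XM n b × (Cube N × I)) :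
    Psi_Q vp w g ep :=
  ⟨Psi_K io vp w g ep (1, a), Psi_K_tgt hd a.1 a.2.1 a.2.2⟩

theorem Psi_r1_cont (hd : PsiDat n b N B io vp w g ep) : Continuous (Psi_r1 hd) :=
  Continuous.subtype_mk ((Psi_K_cont hd).comp (by fun_prop)) _

theorem Psi_r1_soft (h1 : S_SDR) (hd : PsiDat n b N B io vp w g ep) :
    FineSoft n (Psi_r1 hd) := by
  refine h1 n _ _ (Psi_r1 hd) Subtype.val (Psi_K io vp w g ep) (Psi_r1_cont hd)
    continuous_subtype_val (Psi_K_cont hd) (Psi_K_zero hd) (fun _ => rfl) ?_ ?_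
  · rintro ⟨⟨v, x, t⟩, hq⟩
    apply Subtype.ext
    exact Psi_K_one hd v x t hq
  · rintro u ⟨v, x, t⟩
    apply Subtype.ext
    exact (Psi_K_W hd u v x t).2.1

theorem Psi_c {B : Type} [TopologicalSpace B] [CompactSpace B] (F : B × (I × I) → ℝ)
    (hF : Continuous F) (h0 : ∀ y t, F (y, (t, t)) = 0) {eta : ℝ} (heta : 0 < eta) :
    ∃ c : ℝ, 0 < c ∧ c < 1 ∧ ∀ y (t t' : I), |(t : ℝ) - t'| ≤ c → F (y, (t, t')) ≤ eta := by
  have hK : IsCompact {p : B × (I × I) | eta ≤ F p} :=
    (isClosed_le continuous_const hF).isCompact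
  rcases Set.eq_empty_or_nonempty {p : B × (I × I) | eta ≤ F p} with he | hne
  · refine ⟨1 / 2, by norm_num, by norm_num, ?_⟩
    intro y t t' _
    by_contra h
    have h1 : (y, (t, t')) ∈ {p : B × (I × I) | eta ≤ F p} := (not_le.1 h).le
    rw [he] at h1
    exact h1
  · have hc : Continuous (fun p : B × (I × I) => |((p.2.1 : I) : ℝ) - (p.2.2 : I)|) := by
      fun_prop
    obtain ⟨p0, hp0, hmin⟩ := hK.exists_isMinOn hne hc.continuousOn
    have hpos : 0 < |((p0.2.1 : I) : ℝ) - (p0.2.2 : I)| := by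
      rw [abs_pos, sub_ne_zero]
      intro h
      have h1 : p0.2.1 = p0.2.2 := Subtype.ext h
      have h2 : p0 = (p0.1, (p0.2.1, p0.2.1)) := by
        conv_rhs => rw [show ((p0.2.1, p0.2.1) : I × I) = (p0.2.1, p0.2.2) by rw [← h1]]
      have h3 : eta ≤ F p0 := hp0
      rw [h2, h0] at h3
      linarith
    refine ⟨min (|((p0.2.1 : I) : ℝ) - (p0.2.2 : I)| / 2) (1 / 2), by positivity,
      (min_le_right _ _).trans_lt (by norm_num), ?_⟩
    intro y t t' ht
    by_contra h
    have h1 : (y, (t, t')) ∈ {p : B × (I × I) | eta ≤ F p} := (not_le.1 h).le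
    have h2 : |((p0.2.1 : I) : ℝ) - (p0.2.2 : I)| ≤ |(t : ℝ) - t'| := hmin h1
    have h3 := ht.trans (min_le_left _ _)
    linarith

/-- the second map -/
noncomputable def Psi_r2 {Z : Type} (vp : Cube N → B) (w : Cube N → ℝ) (g : B → XM n b) (ep : ℝ)
    (i : XM n b → Z) (j : B × I → Z) (q : Psi_Q vp w g ep) : Z :=
  open Classical in
  if q.1.2.2 = 0 then i q.1.1 else j (vp q.1.2.1, q.1.2.2)

theorem Psi_r2_zero {Z : Type} {i : XM n b → Z} {j : B × I → Z} {q : Psi_Q vp w g ep}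
    (h : q.1.2.2 = 0) : Psi_r2 vp w g ep i j q = i q.1.1 := by
  unfold Psi_r2
  exact if_pos h

theorem Psi_r2_W {Z : Type} [TopologicalSpace Z] {i : XM n b → Z} {j : B × I → Z}
    (hadj : IsAdj {p : B × I | p.2 = 0} (fun p => g p.1) i j)
    (hd : PsiDat n b N B io vp w g ep) {q : Psi_Q vp w g ep}
    (h : Psi_W vp w g ep q.1.1 q.1.2.1 = 0) :
    Psi_r2 vp w g ep i j q = j (vp q.1.2.1, q.1.2.2) := by
  unfold Psi_r2
  split_ifs with h0
  · rw [h0]
    rw [hadj.agree (vp q.1.2.1, 0) rfl]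
    rw [((Psi_W_zero hd).1 h).1]
  · rfl

theorem Psi_r2_cont {Z : Type} [TopologicalSpace Z] {i : XM n b → Z} {j : B × I → Z}
    (hadj : IsAdj {p : B × I | p.2 = 0} (fun p => g p.1) i j)
    (hd : PsiDat n b N B io vp w g ep) : Continuous (Psi_r2 vp w g ep i j) := by
  have hS1 : IsClosed {q : Psi_Q vp w g ep | q.1.2.2 = 0} :=
    isClosed_eq (by fun_prop) continuous_const
  have cW : Continuous (fun q : Psi_Q vp w g ep => Psi_W vp w g ep q.1.1 q.1.2.1) :=
    (Psi_W_cont hd).comp (f := fun q : Psi_Q vp w g ep => (q.1.1, q.1.2.1)) (by fun_prop)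
  have hS2 : IsClosed {q : Psi_Q vp w g ep | Psi_W vp w g ep q.1.1 q.1.2.1 = 0} :=
    isClosed_eq cW continuous_const
  have h1 : ContinuousOn (Psi_r2 vp w g ep i j) {q : Psi_Q vp w g ep | q.1.2.2 = 0} := by
    have h2 : Continuous (fun q : Psi_Q vp w g ep => i q.1.1) := hadj.conti.comp (by fun_prop)
    exact h2.continuousOn.congr (fun q hq => Psi_r2_zero hq)
  have h2 : ContinuousOn (Psi_r2 vp w g ep i j)
      {q : Psi_Q vp w g ep | Psi_W vp w g ep q.1.1 q.1.2.1 = 0} := by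
    have h3 : ContinuousOn (fun q : Psi_Q vp w g ep => vp q.1.2.1)
        {q : Psi_Q vp w g ep | Psi_W vp w g ep q.1.1 q.1.2.1 = 0} := by
      have h5 : Continuous (fun q : Psi_Q vp w g ep => q.1.2.1) := by fun_prop
      refine hd.cvp.comp h5.continuousOn ?_
      intro q hq
      have h4 := ((Psi_W_zero hd).1 hq).2
      show w q.1.2.1 ≤ 1
      rw [h4]
      exact zero_le_one
    have h6 : Continuous (fun q : Psi_Q vp w g ep => q.1.2.2) := by fun_prop
    have h4 : ContinuousOn (fun q : Psi_Q vp w g ep => j (vp q.1.2.1, q.1.2.2))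
        {q : Psi_Q vp w g ep | Psi_W vp w g ep q.1.1 q.1.2.1 = 0} :=
      hadj.contj.comp_continuousOn (h3.prodMk h6.continuousOn)
    exact h4.congr (fun q hq => Psi_r2_W hadj hd hq)
  have h3 := h1.union_of_isClosed h2 hS1 hS2
  rw [← continuousOn_univ]
  refine h3.mono ?_
  intro q _
  exact q.2

/-- the time shift -/
noncomputable def Psi_sh (c : ℝ) (u t : I) : I :=
  Set.projIcc 0 1 zero_le_one (max 0 (((t : ℝ) - c * u) / (1 - c * u)))

theorem Psi_sh_facts {c : ℝ} (hc : 0 < c) (hc1 : c < 1) :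
    Continuous (fun p : I × I => Psi_sh c p.1 p.2) ∧ (∀ t, Psi_sh c 0 t = t) ∧
    (∀ u, Psi_sh c u 0 = 0) ∧ (∀ u t : I, (t : ℝ) ≤ c * u → Psi_sh c u t = 0) ∧
    (∀ u t : I, |(Psi_sh c u t : ℝ) - t| ≤ c) := by
  have hden : ∀ u : I, 0 < 1 - c * (u : ℝ) := by
    intro u
    have := u.2.1
    have := u.2.2
    nlinarith
  have hval : ∀ u t : I, (Psi_sh c u t : ℝ) = max 0 (((t : ℝ) - c * u) / (1 - c * u)) := by
    intro u t
    apply Psi_proj (le_max_left _ _)
    apply max_le zero_le_one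
    rw [div_le_one (hden u)]
    have := t.2.2
    linarith
  have hle : ∀ u t : I, (t : ℝ) ≤ c * u → Psi_sh c u t = 0 := by
    intro u t h
    apply Subtype.ext
    rw [hval]
    have h1 : ((t : ℝ) - c * u) / (1 - c * u) ≤ 0 :=
      div_nonpos_of_nonpos_of_nonneg (by linarith) (hden u).le
    rw [max_eq_left h1]
    rfl
  refine ⟨?_, ?_, ?_, hle, ?_⟩
  · unfold Psi_sh
    apply continuous_projIcc.comp
    refine continuous_const.max (Continuous.div ?_ ?_ ?_)
    · fun_prop
    · fun_prop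
    · intro p
      exact (hden p.1).ne'
  · intro t
    apply Subtype.ext
    rw [hval]
    simp only [Icc.coe_zero, mul_zero, sub_zero, div_one]
    exact max_eq_right t.2.1
  · intro u
    apply hle
    have := u.2.1
    simp only [Icc.coe_zero]
    positivity
  · intro u t
    have hu0 := u.2.1
    have hu1 := u.2.2
    have ht0 := t.2.1
    have ht1 := t.2.2
    rcases le_or_gt (t : ℝ) (c * u) with h | h
    · rw [hle u t h]
      simp only [Icc.coe_zero, zero_sub, abs_neg]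
      rw [abs_of_nonneg ht0]
      nlinarith
    · rw [hval]
      have hd := hden u
      have h1 : 0 ≤ ((t : ℝ) - c * u) / (1 - c * u) := div_nonneg (by linarith) hd.le
      rw [max_eq_right h1, abs_le]
      constructor
      · have h2 : ((t : ℝ) - c * u) / (1 - c * u) - t = - (c * u * (1 - t)) / (1 - c * u) := by
          field_simp
          ring
        rw [h2, le_div_iff₀ hd]
        have a1 : c * u * (1 - (t : ℝ)) ≤ c * u * (1 - c * u) :=
          mul_le_mul_of_nonneg_left (by linarith) (mul_nonneg hc.le hu0)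
        have a2 : c * u * (1 - c * u) ≤ c * 1 * (1 - c * (u : ℝ)) :=
          mul_le_mul_of_nonneg_right (mul_le_mul_of_nonneg_left hu1 hc.le) hd.le
        linarith
      · have h2 : ((t : ℝ) - c * u) / (1 - c * u) - t = - (c * u * (1 - t)) / (1 - c * u) := by
          field_simp
          ring
        have h3 : - (c * u * (1 - (t : ℝ))) / (1 - c * u) ≤ 0 := by
          apply div_nonpos_of_nonpos_of_nonneg _ hd.le
          have := mul_nonneg (mul_nonneg hc.le hu0) (sub_nonneg.2 ht1)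
          linarith
        linarith

/-- the second map is fine soft -/
theorem Psi_r2_soft (h2 : S_ASDR) (h3 : S_Basics) (h4 : S_AdjDesc)
    {Z : Type} [TopologicalSpace Z] [CompactSpace Z] [T2Space Z] [CompactSpace B] [T2Space B]
    [CompactSpace (XM n b)] {i : XM n b → Z} {j : B × I → Z}
    (hadj : IsAdj {p : B × I | p.2 = 0} (fun p => g p.1) i j)
    (hd : PsiDat n b N B io vp w g ep) : FineSoft n (Psi_r2 vp w g ep i j) := by
  intro D hD
  refine h3.2.1 n _ _ D 0 _ ?_
  intro eta heta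
  -- the choice of c
  have hF : Continuous (fun p : B × (I × I) => D (j (p.1, p.2.1)) (j (p.1, p.2.2))) := by
    have e1 : Continuous (fun p : B × (I × I) => j (p.1, p.2.1)) := hadj.contj.comp (by fun_prop)
    have e2 : Continuous (fun p : B × (I × I) => j (p.1, p.2.2)) := hadj.contj.comp (by fun_prop)
    exact hD.cont.comp (e1.prodMk e2)
  obtain ⟨c, hc0, hc1, hc⟩ := Psi_c _ hF (fun y t => hD.self _) heta
  obtain ⟨shc, sh0, shz, shle, shd⟩ := Psi_sh_facts hc0 hc1
  obtain ⟨x0, -⟩ : ∃ x0 : Cube N, x0 = x0 := ⟨ctr N, rfl⟩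
  obtain ⟨A1, A2, -, -, -, -⟩ := h4 (XM n b) (B × I) Z (Psi_Q vp w g ep) _ _ i j hadj
  obtain ⟨-, B2, -, -, -, -⟩ := h4 (XM n b) (B × I) Z Z _ _ i j hadj
  have hmin : ∀ t : I, 0 ≤ min 1 ((t : ℝ) / c) ∧ min 1 ((t : ℝ) / c) ≤ 1 := fun t =>
    ⟨le_min zero_le_one (div_nonneg t.2.1 hc0.le), min_le_left _ _⟩
  have hmax : ∀ u t : I, 0 ≤ max 0 ((u : ℝ) - t / c) ∧ max 0 ((u : ℝ) - t / c) ≤ 1 := fun u t =>
    ⟨le_max_left _ _, max_le zero_le_one (by
      have := div_nonneg t.2.1 hc0.le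
      have := u.2.2
      linarith)⟩
  -- the section s
  have hsm : ∀ p : B × I, (Psi_sh c 1 p.2 = 0 ∨ Psi_W vp w g ep (g p.1)
      (Psi_mixC x0 (io p.1) (min 1 ((p.2 : ℝ) / c))) = 0) := by
    rintro ⟨y, t⟩
    rcases le_or_gt (t : ℝ) c with h | h
    · left
      apply shle
      simpa using h
    · right
      have e1 : min 1 ((t : ℝ) / c) = 1 := by
        apply min_eq_left
        rw [le_div_iff₀ hc0]
        linarith
      simp only
      rw [e1, Psi_mixC_one]
      rw [Psi_W_zero hd]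
      exact ⟨by rw [(hd.wio y).2], (hd.wio y).1⟩
  obtain ⟨s, hsc, hsi, hsj⟩ := A1
    (fun v => ⟨(v, (x0, 0)), Or.inl rfl⟩)
    (fun p => ⟨(g p.1, (Psi_mixC x0 (io p.1) (min 1 ((p.2 : ℝ) / c)), Psi_sh c 1 p.2)), hsm p⟩)
    (Continuous.subtype_mk (by fun_prop) _)
    (Continuous.subtype_mk (by
      have e1 : Continuous (fun p : B × I => g p.1) := hd.cg.comp continuous_fst
      have e2 : Continuous (fun p : B × I => Psi_sh c 1 p.2) :=
        shc.comp (f := fun p : B × I => ((1 : I), p.2)) (by fun_prop)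
      have e3 : Continuous (fun p : B × I => Psi_mixC x0 (io p.1) (min 1 ((p.2 : ℝ) / c))) := by
        rw [← continuousOn_univ]
        refine Psi_mixC_cont continuousOn_const (hd.cio.comp continuous_fst).continuousOn
          (fun p _ => (hmin p.2).1) (fun p _ => (hmin p.2).2) ?_
        intro p _ _
        have e4 : Continuous (fun p : B × I => min 1 ((p.2 : ℝ) / c)) :=
          continuous_const.min (by fun_prop)
        exact e4.continuousWithinAt
      exact e1.prodMk (e3.prodMk e2)) _)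
    (by
      rintro ⟨y, t⟩ ht
      have ht' : t = 0 := ht
      subst ht'
      apply Subtype.ext
      simp only [Icc.coe_zero, zero_div]
      rw [min_eq_right zero_le_one, Psi_mixC_zero, shz])
  -- the homotopy G
  obtain ⟨G, hGc, hGi, hGj⟩ := B2
    (fun p => i p.2) (fun p => j (p.2.1, Psi_sh c p.1 p.2.2))
    (hadj.conti.comp continuous_snd)
    (by
      have e1 : Continuous (fun p : I × (B × I) => Psi_sh c p.1 p.2.2) :=
        shc.comp (f := fun p : I × (B × I) => (p.1, p.2.2)) (by fun_prop)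
      have e2 : Continuous (fun p : I × (B × I) => p.2.1) := by fun_prop
      exact hadj.contj.comp (e2.prodMk e1))
    (by
      rintro u ⟨y, t⟩ ht
      have ht' : t = 0 := ht
      subst ht'
      simp only
      rw [shz]
      exact hadj.agree (y, 0) rfl)
  -- the homotopy K
  have hKm : ∀ p : I × Psi_Q vp w g ep, (Psi_sh c p.1 p.2.1.2.2 = 0 ∨
      Psi_W vp w g ep p.2.1.1 (Psi_mixC p.2.1.2.1 x0 (max 0 ((p.1 : ℝ) - p.2.1.2.2 / c))) = 0) := by
    rintro ⟨u, ⟨⟨v, x, t⟩, hq⟩⟩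
    simp only
    rcases le_or_gt (t : ℝ) (c * u) with h | h
    · left
      exact shle u t h
    · right
      have h5 : t ≠ 0 := by
        rintro rfl
        have := u.2.1
        simp only [Icc.coe_zero] at h
        have := mul_nonneg hc0.le u.2.1
        linarith
      have hW : Psi_W vp w g ep v x = 0 := hq.resolve_left h5
      have e1 : max 0 ((u : ℝ) - t / c) = 0 := by
        apply max_eq_left
        rw [sub_nonpos, le_div_iff₀ hc0]
        linarith
      rw [e1, Psi_mixC_zero]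
      exact hW
  obtain ⟨K, hKdef⟩ : ∃ K : I × Psi_Q vp w g ep → Psi_Q vp w g ep, K = fun p =>
    ⟨(p.2.1.1, (Psi_mixC p.2.1.2.1 x0 (max 0 ((p.1 : ℝ) - p.2.1.2.2 / c)),
      Psi_sh c p.1 p.2.1.2.2)), hKm p⟩ := ⟨_, rfl⟩
  have hKc : Continuous K := by
    rw [hKdef]
    refine Continuous.subtype_mk ?_ _
    have e1 : Continuous (fun p : I × Psi_Q vp w g ep => Psi_sh c p.1 p.2.1.2.2) :=
      shc.comp (f := fun p : I × Psi_Q vp w g ep => (p.1, p.2.1.2.2)) (by fun_prop)
    have e2 : Continuous (fun p : I × Psi_Q vp w g ep => p.2.1.1) := by fun_prop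
    have e5 : Continuous (fun p : I × Psi_Q vp w g ep => p.2.1.2.1) := by fun_prop
    have e3 : Continuous (fun p : I × Psi_Q vp w g ep =>
        Psi_mixC p.2.1.2.1 x0 (max 0 ((p.1 : ℝ) - p.2.1.2.2 / c))) := by
      rw [← continuousOn_univ]
      refine Psi_mixC_cont e5.continuousOn continuousOn_const
        (fun p _ => (hmax p.1 p.2.1.2.2).1) (fun p _ => (hmax p.1 p.2.1.2.2).2) ?_
      intro p _ _
      have e4 : Continuous (fun p : I × Psi_Q vp w g ep =>
          max 0 ((p.1 : ℝ) - p.2.1.2.2 / c)) :=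
        continuous_const.max (by fun_prop)
      exact e4.continuousWithinAt
    exact e2.prodMk (e3.prodMk e1)
  refine h2 n _ _ D eta (Psi_r2 vp w g ep i j) s K G hD (Psi_r2_cont hadj hd) hsc hKc hGc
    ?_ ?_ ?_ ?_ ?_ ?_
  · -- K 0
    rintro ⟨⟨v, x, t⟩, hq⟩
    rw [hKdef]
    apply Subtype.ext
    simp only [Icc.coe_zero, zero_sub]
    rw [sh0, max_eq_left (by
      have := div_nonneg t.2.1 hc0.le
      linarith), Psi_mixC_zero]
  · -- K 1 = s r
    rintro ⟨⟨v, x, t⟩, hq⟩
    by_cases ht : t = 0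
    · subst ht
      rw [Psi_r2_zero rfl, hsi, hKdef]
      apply Subtype.ext
      simp only [Icc.coe_one, Icc.coe_zero, zero_div, sub_zero]
      rw [max_eq_right zero_le_one, Psi_mixC_one, shz]
    · have hW : Psi_W vp w g ep v x = 0 := hq.resolve_left ht
      rw [Psi_r2_W hadj hd hW, hsj, hKdef]
      apply Subtype.ext
      obtain ⟨w1, w2⟩ := (Psi_W_zero hd).1 hW
      have w3 := hd.wz x w2
      simp only [Icc.coe_one]
      have e1 : Psi_mixC x x0 (max 0 (1 - (t : ℝ) / c)) =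
          Psi_mixC x0 (io (vp x)) (min 1 ((t : ℝ) / c)) := by
        rw [w3]
        funext k
        apply Subtype.ext
        have h5 := hmax 1 t
        simp only [Icc.coe_one] at h5
        rw [Psi_mixC_coe h5.1 h5.2, Psi_mixC_coe (hmin t).1 (hmin t).2]
        have h6 : max 0 (1 - (t : ℝ) / c) = 1 - min 1 ((t : ℝ) / c) := by
          rcases le_total 1 ((t : ℝ) / c) with h | h
          · rw [min_eq_left h, max_eq_left (by linarith)]
            ring
          · rw [min_eq_right h, max_eq_right (by linarith)]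
        rw [h6]
        ring
      rw [e1, ← w1]
  · -- G 0
    intro z
    rcases hadj.surj z with ⟨v, rfl⟩ | ⟨⟨y, t⟩, rfl⟩
    · rw [hGi]
    · rw [hGj]
      simp only
      rw [sh0]
  · -- G 1 = r s
    intro z
    rcases hadj.surj z with ⟨v, rfl⟩ | ⟨⟨y, t⟩, rfl⟩
    · rw [hGi, hsi, Psi_r2_zero rfl]
    · rw [hGj, hsj]
      simp only
      rcases le_or_gt (t : ℝ) c with h | h
      · have e1 : Psi_sh c 1 t = 0 := by
          apply shle
          simpa using h
        rw [Psi_r2_zero (by exact e1)]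
        show j (y, Psi_sh c 1 t) = i (g y)
        rw [e1]
        exact hadj.agree (y, 0) rfl
      · have e1 : min 1 ((t : ℝ) / c) = 1 := by
          apply min_eq_left
          rw [le_div_iff₀ hc0]
          linarith
        have hW : Psi_W vp w g ep (g y) (Psi_mixC x0 (io y) (min 1 ((t : ℝ) / c))) = 0 := by
          rw [e1, Psi_mixC_one, Psi_W_zero hd]
          exact ⟨by rw [(hd.wio y).2], (hd.wio y).1⟩
        rw [Psi_r2_W hadj hd (by exact hW)]
        simp only
        rw [e1, Psi_mixC_one, (hd.wio y).2]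
  · -- r K = G r
    rintro u ⟨⟨v, x, t⟩, hq⟩
    by_cases ht : t = 0
    · subst ht
      rw [Psi_r2_zero (q := ⟨(v, (x, 0)), hq⟩) rfl, hGi, hKdef]
      rw [Psi_r2_zero (by exact shz u)]
    · have hW : Psi_W vp w g ep v x = 0 := hq.resolve_left ht
      obtain ⟨w1, w2⟩ := (Psi_W_zero hd).1 hW
      rw [Psi_r2_W hadj hd (q := ⟨(v, (x, t)), hq⟩) hW, hGj, hKdef]
      simp only
      rcases le_or_gt (t : ℝ) (c * u) with h | h
      · have e1 := shle u t h
        rw [Psi_r2_zero (by exact e1)]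
        show i v = j (vp x, Psi_sh c u t)
        rw [e1, hadj.agree (vp x, 0) rfl, ← w1]
      · have e1 : max 0 ((u : ℝ) - t / c) = 0 := by
          apply max_eq_left
          rw [sub_nonpos, le_div_iff₀ hc0]
          linarith
        have hW' : Psi_W vp w g ep v (Psi_mixC x x0 (max 0 ((u : ℝ) - t / c))) = 0 := by
          rw [e1, Psi_mixC_zero]
          exact hW
        rw [Psi_r2_W hadj hd (by exact hW')]
        simp only
        rw [e1, Psi_mixC_zero]
  · -- G moves little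
    intro u z
    rcases hadj.surj z with ⟨v, rfl⟩ | ⟨⟨y, t⟩, rfl⟩
    · rw [hGi, hD.self]
      exact heta.le
    · rw [hGj]
      exact hc y _ _ (shd u t)

end dat

theorem pr_Psi (h1 : S_SDR) (h2 : S_ASDR) (h3 : S_Basics) (h4 : S_AdjDesc) (h5 : S_UC)
    (h6 : S_MbFacts) (h7 : S_SgFacts) : S_Psi := by
  intro n b N B _ _ _ io vp w g ep Z _ _ _ i j hn hep cio cw cvp w0 wio wz rad cg hep' hadj
  have hd : PsiDat n b N B io vp w g ep :=
    ⟨hep, cio, cw, cvp, w0, wio, wz, rad, cg, hep'⟩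
  haveI : CompactSpace (XM n b) := ((h7 n hn).2.2.2.2.2.2.2.2 b).1
  refine ⟨fun a => Psi_r2 vp w g ep i j (Psi_r1 hd a), (Psi_r2_cont hadj hd).comp
    (Psi_r1_cont hd), ?_, ?_, ?_⟩
  · exact h3.2.2.2.2.2.1 n _ _ _ (Psi_r1 hd) (Psi_r2 vp w g ep i j) (Psi_r1_cont hd)
      (Psi_r2_cont hadj hd) (Psi_r1_soft h1 hd) (Psi_r2_soft h2 h3 h4 hadj hd)
  · rintro ⟨v, x, t⟩ hfar
    simp only at hfar ⊢
    have hW : Psi_W vp w g ep v x = 1 := by
      rcases (Psi_W_bd hd v x).2.eq_or_lt with h | h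
      · exact h
      · obtain ⟨_, h9⟩ := Psi_W_lt h
        rw [h9] at h
        have h10 := (le_max_left (dist v (g (vp x)) / ep) (w x)).trans_lt h
        rw [div_lt_one hep] at h10
        exact absurd (hfar (vp x)) (not_le.2 h10)
    obtain ⟨l0, l1, l2, l3, hv, ht⟩ := Psi_K_facts hd 1 v x t
    have ht0 : (Psi_K io vp w g ep (1, (v, (x, t)))).2.2 = 0 := by
      apply Subtype.ext
      rw [ht, hW]
      unfold Psi_R2
      have := t.2.2
      rw [max_eq_left (by linarith)]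
      simp
    have hv' : (Psi_K io vp w g ep (1, (v, (x, t)))).1 = v := by
      apply Subtype.ext
      rw [hv, l3 hW, Psi_mixC_one]
    rw [Psi_r2_zero (by exact ht0)]
    exact congrArg i hv'
  · rintro ka hka1 hka2 ⟨v, x, t⟩
    obtain ⟨l0, l1, l2, l3, hv, ht⟩ := Psi_K_facts hd 1 v x t
    have hka : ka (Psi_r2 vp w g ep i j (Psi_r1 hd (v, (x, t)))) =
        (Psi_K io vp w g ep (1, (v, (x, t)))).1 := by
      rcases Psi_K_tgt hd v x t with h | h
      · rw [Psi_r2_zero (by exact h), hka1]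
        rfl
      · rw [Psi_r2_W hadj hd (by exact h), hka2]
        simp only
        exact ((Psi_W_zero hd).1 h).1.symm
    simp only
    rw [hka]
    rcases (Psi_W_bd hd v x).2.eq_or_lt with h | h
    · have hv' : (Psi_K io vp w g ep (1, (v, (x, t)))).1 = v := by
        apply Subtype.ext
        rw [hv, l3 h, Psi_mixC_one]
      rw [hv', dist_self]
      exact hep.le
    · obtain ⟨_, h9⟩ := Psi_W_lt h
      rw [h9] at h
      have h10 := (le_max_left (dist v (g (vp x)) / ep) (w x)).trans_lt h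
      rw [div_lt_one hep] at h10
      have e1 : dist (Psi_K io vp w g ep (1, (v, (x, t)))).1 v =
        dist ((Psi_K io vp w g ep (1, (v, (x, t)))).1 : Cube (2 * n + 1))
          (v : Cube (2 * n + 1)) := rfl
      rw [e1, dist_pi_le_iff hep.le]
      intro k
      rw [hv]
      have e2 : dist (Psi_mixC (g (vp x) : Cube (2 * n + 1)) (v : Cube (2 * n + 1))
          (Psi_la (Psi_W vp w g ep v x) t (1 : I)) k) ((v : Cube (2 * n + 1)) k) =
          |((Psi_mixC (g (vp x) : Cube (2 * n + 1)) (v : Cube (2 * n + 1))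
          (Psi_la (Psi_W vp w g ep v x) t (1 : I)) k : I) : ℝ) - ((v : Cube (2 * n + 1)) k : ℝ)| :=
        rfl
      rw [e2, Psi_mixC_coe l0 l1]
      have e3 : ((g (vp x) : Cube (2 * n + 1)) k : ℝ) + Psi_la (Psi_W vp w g ep v x) t (1 : I) *
          (((v : Cube (2 * n + 1)) k : ℝ) - ((g (vp x) : Cube (2 * n + 1)) k : ℝ)) -
          ((v : Cube (2 * n + 1)) k : ℝ) =
          - ((1 - Psi_la (Psi_W vp w g ep v x) t (1 : I)) *
            (((v : Cube (2 * n + 1)) k : ℝ) - ((g (vp x) : Cube (2 * n + 1)) k : ℝ))) := by ring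
      rw [e3, abs_neg, abs_mul, abs_of_nonneg (sub_nonneg.2 l1)]
      have h11 := Psi_dist_coord v (g (vp x)) k
      have h12 : (1 - Psi_la (Psi_W vp w g ep v x) t (1 : I)) *
          |((v : Cube (2 * n + 1)) k : ℝ) - ((g (vp x) : Cube (2 * n + 1)) k : ℝ)| ≤
          |((v : Cube (2 * n + 1)) k : ℝ) - ((g (vp x) : Cube (2 * n + 1)) k : ℝ)| :=
        mul_le_of_le_one_left (abs_nonneg _) (by linarith)
      linarith

end M202

end

section

/-!
MP_202a65_gt: item Radm, radial maps with monotone profile.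
-/

open Set Topology unitInterval Filter

namespace M202

/-- the elementary facts about one coordinate -/
theorem Radm_coord (h1 : S_Lev) (b : ℕ) (k : ℝ) (t : unitInterval) (hk0 : 0 ≤ k)
    (hk : k * lev b t ≤ 1 / 2) (hk1 : lev b t = 1 / 2 → k = 1) :
    (0 ≤ mv b k t ∧ mv b k t ≤ 1) ∧
      (⌊(3 : ℝ) ^ b * (t : ℝ)⌋ : ℝ) ≤ (3 : ℝ) ^ b * mv b k t ∧
      (3 : ℝ) ^ b * mv b k t ≤ (⌈(3 : ℝ) ^ b * (t : ℝ)⌉ : ℝ) := by
  obtain ⟨-, L1, -, L3, -, L5, L6, L7, -, -⟩ := h1
  have h3b : (0 : ℝ) < 3 ^ b := by positivity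
  by_cases ha : lev b t = 1 / 2
  · have := hk1 ha
    subst this
    rw [L7]
    exact ⟨⟨t.2.1, t.2.2⟩, Int.floor_le _, Int.le_ceil _⟩
  · have hni : ¬ ∃ k : ℤ, (3 : ℝ) ^ b * (t : ℝ) = k := fun hc => ha ((L3 b t).2 hc)
    obtain ⟨h61, h62⟩ := L6 b k t hk0 hk
    have hceil : (⌈(3 : ℝ) ^ b * (t : ℝ)⌉ : ℝ) = ⌊(3 : ℝ) ^ b * (t : ℝ)⌋ + 1 := by
      have : ⌈(3 : ℝ) ^ b * (t : ℝ)⌉ = ⌊(3 : ℝ) ^ b * (t : ℝ)⌋ + 1 := by
        rw [Int.ceil_eq_iff]
        push_cast
        constructor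
        · have h1 : (⌊(3 : ℝ) ^ b * (t : ℝ)⌋ : ℝ) ≠ (3 : ℝ) ^ b * (t : ℝ) := fun hc => hni ⟨_, hc.symm⟩
          have h2 := lt_of_le_of_ne (Int.floor_le ((3 : ℝ) ^ b * (t : ℝ))) h1
          linarith
        · exact (Int.lt_floor_add_one _).le
      rw [this]; push_cast; ring
    have hfl0 : (0 : ℝ) ≤ ⌊(3 : ℝ) ^ b * (t : ℝ)⌋ := by
      have : (0 : ℤ) ≤ ⌊(3 : ℝ) ^ b * (t : ℝ)⌋ := Int.floor_nonneg.2 (mul_nonneg h3b.le t.2.1)
      exact_mod_cast this
    have hce : (⌈(3 : ℝ) ^ b * (t : ℝ)⌉ : ℝ) ≤ 3 ^ b := by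
      have : ⌈(3 : ℝ) ^ b * (t : ℝ)⌉ ≤ (3 : ℤ) ^ b := by
        rw [Int.ceil_le]
        push_cast
        have := t.2.2
        nlinarith
      exact_mod_cast this
    refine ⟨⟨?_, ?_⟩, h61, by rw [hceil]; exact h62⟩
    · have : 0 ≤ (3 : ℝ) ^ b * mv b k t := le_trans hfl0 h61
      by_contra hc
      push Not at hc
      nlinarith
    · have h5 : (3 : ℝ) ^ b * mv b k t ≤ 3 ^ b := by
        rw [hceil] at hce
        linarith
      by_contra hc
      push Not at hc
      nlinarith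

/-- the basic facts about the factors -/
theorem Radm_fac (h1 : S_Lev) (h3 : S_MbFacts) {n b : ℕ} (hn : 1 ≤ n) (h : ℝ → ℝ)
    (x : Cube (2 * n + 1)) (hr : 0 < rb n b x) (h0 : ∀ m, 0 ≤ h m) (hh : h (1 / 2) = 1 / 2)
    (hmono : ∀ m m', rb n b x ≤ m → m ≤ m' → m' ≤ 1 / 2 → h m ≤ h m') (i : Fin (2 * n + 1)) :
    0 < max (lev b (x i)) (rb n b x) ∧ rb n b x ≤ max (lev b (x i)) (rb n b x) ∧
      max (lev b (x i)) (rb n b x) ≤ 1 / 2 ∧
      0 ≤ h (max (lev b (x i)) (rb n b x)) / max (lev b (x i)) (rb n b x) ∧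
      h (max (lev b (x i)) (rb n b x)) / max (lev b (x i)) (rb n b x) * lev b (x i) ≤
        h (max (lev b (x i)) (rb n b x)) ∧
      h (max (lev b (x i)) (rb n b x)) ≤ 1 / 2 ∧
      (lev b (x i) = 1 / 2 →
        h (max (lev b (x i)) (rb n b x)) / max (lev b (x i)) (rb n b x) = 1) ∧
      h (rb n b x) ≤ h (max (lev b (x i)) (rb n b x)) := by
  obtain ⟨-, L1, -, L3, -, L5, L6, L7, -, -⟩ := h1
  obtain ⟨-, -, -, -, -, -, -, hrb, -⟩ := h3 n hn
  have hr2 := (hrb b x).2
  obtain ⟨ha0, ha2⟩ := L1 b (x i)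
  set a := lev b (x i) with ha
  set r := rb n b x with hrdef
  have hm0 : 0 < max a r := lt_max_of_lt_right hr
  have hm1 : r ≤ max a r := le_max_right _ _
  have hm2 : max a r ≤ 1 / 2 := max_le ha2 hr2
  have hh2 : h (max a r) ≤ 1 / 2 := by
    have := hmono (max a r) (1 / 2) hm1 hm2 le_rfl
    rw [hh] at this
    exact this
  refine ⟨hm0, hm1, hm2, div_nonneg (h0 _) hm0.le, ?_, hh2, ?_, hmono r _ le_rfl hm1 hm2⟩
  · rw [div_mul_eq_mul_div, div_le_iff₀ hm0]
    exact mul_le_mul_of_nonneg_left (le_max_left _ _) (h0 _)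
  · intro hc
    have : max a r = 1 / 2 := le_antisymm hm2 (by rw [← hc]; exact le_max_left _ _)
    rw [this, hh]
    norm_num

theorem pr_Radm (h1 : S_Lev) (h2 : S_Med) (h3 : S_MbFacts) : S_Radm := by
  intro n b hn
  have h1' := h1
  have h3' := h3 n hn
  obtain ⟨L0, L1, -, L3, -, L5, L6, L7, L8, L9⟩ := h1'
  obtain ⟨-, -, -, -, -, -, hrc, hrb, -⟩ := h3'
  -- the coordinates
  have hco : ∀ (h : ℝ → ℝ) (x : Cube (2 * n + 1)), 0 < rb n b x → (∀ m, 0 ≤ h m) →
      h (1 / 2) = 1 / 2 →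
      (∀ m m', rb n b x ≤ m → m ≤ m' → m' ≤ 1 / 2 → h m ≤ h m') →
      ∀ i, ((radm n b h x) i : ℝ) = mv b (h (max (lev b (x i)) (rb n b x)) /
        max (lev b (x i)) (rb n b x)) (x i) := by
    intro h x hr h0 hh hmono i
    obtain ⟨f1, f2, f3, f4, f5, f6, f7, f8⟩ := Radm_fac h1 h3 hn h x hr h0 hh hmono i
    obtain ⟨g1, -, -⟩ := Radm_coord h1 b _ (x i) f4 (le_trans f5 f6) f7
    show ((Set.projIcc (0 : ℝ) 1 zero_le_one _ : unitInterval) : ℝ) = _
    rw [Set.projIcc_of_mem zero_le_one (show _ ∈ Icc (0 : ℝ) 1 from g1)]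
  have hlev : ∀ (h : ℝ → ℝ) (x : Cube (2 * n + 1)), 0 < rb n b x → (∀ m, 0 ≤ h m) →
      h (1 / 2) = 1 / 2 →
      (∀ m m', rb n b x ≤ m → m ≤ m' → m' ≤ 1 / 2 → h m ≤ h m') →
      ∀ i, lev b ((radm n b h x) i) = lev b (x i) * (h (max (lev b (x i)) (rb n b x)) /
        max (lev b (x i)) (rb n b x)) := by
    intro h x hr h0 hh hmono i
    obtain ⟨f1, f2, f3, f4, f5, f6, f7, f8⟩ := Radm_fac h1 h3 hn h x hr h0 hh hmono i
    rw [hco h x hr h0 hh hmono i, L5 b _ _ f4 (le_trans f5 f6), mul_comm]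
  have hle : ∀ (h : ℝ → ℝ) (x : Cube (2 * n + 1)), 0 < rb n b x → (∀ m, 0 ≤ h m) →
      h (1 / 2) = 1 / 2 →
      (∀ m m', rb n b x ≤ m → m ≤ m' → m' ≤ 1 / 2 → h m ≤ h m') →
      ∀ i, lev b (x i) ≤ rb n b x → lev b ((radm n b h x) i) ≤ h (rb n b x) := by
    intro h x hr h0 hh hmono i hi
    rw [hlev h x hr h0 hh hmono i, max_eq_right hi]
    rw [mul_div_assoc', div_le_iff₀ hr, mul_comm (h _)]
    exact mul_le_mul_of_nonneg_right hi (h0 _)
  have hge : ∀ (h : ℝ → ℝ) (x : Cube (2 * n + 1)), 0 < rb n b x → (∀ m, 0 ≤ h m) →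
      h (1 / 2) = 1 / 2 →
      (∀ m m', rb n b x ≤ m → m ≤ m' → m' ≤ 1 / 2 → h m ≤ h m') →
      ∀ i, rb n b x ≤ lev b (x i) → lev b ((radm n b h x) i) = h (lev b (x i)) := by
    intro h x hr h0 hh hmono i hi
    rw [hlev h x hr h0 hh hmono i, max_eq_left hi]
    have : lev b (x i) ≠ 0 := (lt_of_lt_of_le hr hi).ne'
    field_simp
  have hrr : ∀ (h : ℝ → ℝ) (x : Cube (2 * n + 1)), 0 < rb n b x → (∀ m, 0 ≤ h m) →
      h (1 / 2) = 1 / 2 →
      (∀ m m', rb n b x ≤ m → m ≤ m' → m' ≤ 1 / 2 → h m ≤ h m') →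
      rb n b (radm n b h x) = h (rb n b x) := by
    intro h x hr h0 hh hmono
    obtain ⟨-, -, -, -, -, M6⟩ := h2 n (2 * n + 1) (by omega)
    refine M6 (fun i => lev b (x i)) (fun i => lev b ((radm n b h x) i)) (rb n b x)
      (h (rb n b x)) rfl ?_ ?_
    · intro i hi
      exact hle h x hr h0 hh hmono i hi
    · intro i hi
      show h (rb n b x) ≤ lev b ((radm n b h x) i)
      rw [hge h x hr h0 hh hmono i hi]
      exact hmono _ _ le_rfl hi (L1 b (x i)).2
  have hmax : ∀ (h : ℝ → ℝ) (x : Cube (2 * n + 1)), 0 < rb n b x → (∀ m, 0 ≤ h m) →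
      h (1 / 2) = 1 / 2 →
      (∀ m m', rb n b x ≤ m → m ≤ m' → m' ≤ 1 / 2 → h m ≤ h m') →
      ∀ i, max (lev b ((radm n b h x) i)) (rb n b (radm n b h x)) =
        h (max (lev b (x i)) (rb n b x)) := by
    intro h x hr h0 hh hmono i
    rw [hrr h x hr h0 hh hmono]
    rcases le_total (lev b (x i)) (rb n b x) with hi | hi
    · rw [max_eq_right hi, max_eq_right (hle h x hr h0 hh hmono i hi)]
    · rw [max_eq_left hi, hge h x hr h0 hh hmono i hi]
      exact max_eq_left (hmono _ _ le_rfl hi (L1 b (x i)).2)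
  refine ⟨?_, ?_, ?_, ?_, ?_⟩
  · intro h x hr h0 hh hmono
    refine ⟨?_, hrr h x hr h0 hh hmono, hco h x hr h0 hh hmono, hlev h x hr h0 hh hmono,
      hmax h x hr h0 hh hmono⟩
    intro i
    obtain ⟨f1, f2, f3, f4, f5, f6, f7, f8⟩ := Radm_fac h1 h3 hn h x hr h0 hh hmono i
    obtain ⟨-, g2⟩ := Radm_coord h1 b _ (x i) f4 (le_trans f5 f6) f7
    rw [hco h x hr h0 hh hmono i]
    push_cast
    exact g2
  · intro h h' x hr h0 hh hmono h0' hh' hr' hmono'
    funext i
    obtain ⟨f1, f2, f3, f4, f5, f6, f7, f8⟩ := Radm_fac h1 h3 hn h x hr h0 hh hmono i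
    show (Set.projIcc (0 : ℝ) 1 zero_le_one _ : unitInterval) =
      (Set.projIcc (0 : ℝ) 1 zero_le_one _ : unitInterval)
    congr 1
    rw [hmax h x hr h0 hh hmono i, hco h x hr h0 hh hmono i]
    rw [L8 b _ _ _ f4 (le_trans f5 f6)]
    · have hpos : 0 < h (max (lev b (x i)) (rb n b x)) := lt_of_lt_of_le hr' f8
      congr 1
      field_simp
    · intro hc
      have : h (max (lev b (x i)) (rb n b x)) = 1 / 2 := le_antisymm f6 (by rw [← hc]; exact f5)
      rw [this, hh']
      norm_num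
  · intro x hr
    funext i
    show (Set.projIcc (0 : ℝ) 1 zero_le_one _ : unitInterval) = x i
    have hm0 : 0 < max (lev b (x i)) (rb n b x) := lt_max_of_lt_right hr
    have : max (lev b (x i)) (rb n b x) / max (lev b (x i)) (rb n b x) = 1 := div_self hm0.ne'
    simp only [this]
    rw [L7]
    exact Set.projIcc_val zero_le_one (x i)
  · intro X _ S f h hf hpos hcont hh
    rw [continuousOn_pi]
    intro i
    have hfi : ContinuousOn (fun x => ((f x i : unitInterval) : ℝ)) S :=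
      continuous_subtype_val.comp_continuousOn ((continuous_apply i).comp_continuousOn hf)
    have hm : ContinuousOn (fun x => max (lev b (f x i)) (rb n b (f x))) S :=
      ((L0 b).comp_continuousOn hfi).sup ((hrc b).comp_continuousOn hf)
    have hm0 : ∀ x ∈ S, 0 < max (lev b (f x i)) (rb n b (f x)) := fun x hx =>
      lt_max_of_lt_right (hpos x hx)
    have hhm : ContinuousOn (fun x => h x (max (lev b (f x i)) (rb n b (f x)))) S := by
      refine hcont.comp (f := fun x => (x, max (lev b (f x i)) (rb n b (f x))))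
        (continuousOn_id.prodMk hm) ?_
      intro x hx
      exact ⟨hx, le_max_right _ _, max_le (L1 b _).2 (hrb b _).2⟩
    have hk : ContinuousOn (fun x => h x (max (lev b (f x i)) (rb n b (f x))) /
        max (lev b (f x i)) (rb n b (f x))) S :=
      hhm.div hm (fun x hx => (hm0 x hx).ne')
    refine continuous_projIcc.comp_continuousOn (L9 b X S _ _ hk hfi ?_)
    intro x hx hc
    have : max (lev b (f x i)) (rb n b (f x)) = 1 / 2 :=
      le_antisymm (max_le (L1 b _).2 (hrb b _).2) (by rw [← hc]; exact le_max_left _ _)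
    simp only [this]
    rw [hh x hx]
    norm_num
  · intro h h' x hx
    funext i
    show (Set.projIcc (0 : ℝ) 1 zero_le_one _ : unitInterval) =
      (Set.projIcc (0 : ℝ) 1 zero_le_one _ : unitInterval)
    rw [hx _ (le_max_right _ _) (max_le (L1 b _).2 (hrb b _).2)]

end M202

end

section

/-!
MP_202a65_gt: the bonding maps.
-/

open Set Topology unitInterval Filter

namespace M202

theorem SgFacts_face (h : S_Grid) (N b c : ℕ) (hbc : b ≤ c) (x : Cube N) :
    faceOf (3 ^ c) x ⊆ faceOf (3 ^ b) x := by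
  obtain ⟨h1, -, -, -, -, h6⟩ := h
  have hL : 1 ≤ 3 ^ b := Nat.one_le_pow _ _ (by norm_num)
  have hM : 1 ≤ 3 ^ (c - b) := Nat.one_le_pow _ _ (by norm_num)
  have hcub : Cubical (3 ^ b) (faceOf (3 ^ b) x) := (h1 N (3 ^ b) x hL).2.2.1
  have h2 := h6 N (3 ^ b) (3 ^ (c - b)) _ hL hM hcub x (h1 N (3 ^ b) x hL).1
  rw [← pow_add, Nat.add_sub_cancel' hbc] at h2
  exact h2

theorem SgFacts_sub (h : S_Grid) (N b : ℕ) (x z : Cube N) (hz : z ∈ faceOf (3 ^ b) x) :
    faceOf (3 ^ b) z ⊆ faceOf (3 ^ b) x :=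
  (h.1 N (3 ^ b) x (Nat.one_le_pow _ _ (by norm_num))).2.2.1 z hz

theorem SgFacts_sgk (h1 : S_SqzPz) (h3 : S_Grid) (n b : ℕ) (hn : 1 ≤ n) (k : ℕ) :
    ContinuousOn (sgk n b k) (Mb n (b + k)) ∧ MapsTo (sgk n b k) (Mb n (b + k)) (Mb n b) ∧
      (∀ x ∈ Mb n (b + k), sgk n b k x ∈ faceOf (3 ^ b) x) ∧
      (∀ x ∈ Mb n (b + k), ∀ y ∈ Mb n (b + k),
        dist (sgk n b k x) (sgk n b k y) ≤ (3 / 2) ^ k * dist x y) ∧
      (∀ c, c ≤ b → ∀ x ∈ Zb n c, sgk n b k x = x) := by
  induction k with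
  | zero =>
    refine ⟨continuousOn_id, fun x hx => hx, fun x _ => ?_, fun x _ y _ => ?_, fun c _ x _ => rfl⟩
    · exact (h3.1 _ (3 ^ b) x (Nat.one_le_pow _ _ (by norm_num))).1
    · show dist x y ≤ _
      rw [pow_zero, one_mul]
  | succ k ih =>
    obtain ⟨i1, i2, i3, i4, i5⟩ := ih
    obtain ⟨⟨s1, s2, s3, s4, s5⟩, -, -⟩ := h1 n (b + k) hn
    refine ⟨?_, ?_, ?_, ?_, ?_⟩
    · exact i1.comp s1 s2
    · exact i2.comp s2
    · intro x hx
      have a1 := s3 x hx
      have a2 := SgFacts_face h3 _ b (b + k) (by omega) x a1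
      exact SgFacts_sub h3 _ b x _ a2 (i3 _ (s2 hx))
    · intro x hx y hy
      have a1 := i4 _ (s2 hx) _ (s2 hy)
      have a2 := s4 x hx y hy
      calc dist (sgk n b k (sqz n (b + k) x)) (sgk n b k (sqz n (b + k) y))
          ≤ (3 / 2) ^ k * dist (sqz n (b + k) x) (sqz n (b + k) y) := a1
        _ ≤ (3 / 2) ^ k * (3 / 2 * dist x y) := mul_le_mul_of_nonneg_left a2 (by positivity)
        _ = (3 / 2) ^ (k + 1) * dist x y := by ring
    · intro c hc x hx
      show sgk n b k (sqz n (b + k) x) = x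
      rw [s5 c (by omega) x hx]
      exact i5 c hc x hx

theorem SgFacts_comp (n b k l : ℕ) (x : Cube (2 * n + 1)) :
    sgk n b (k + l) x = sgk n b k (sgk n (b + k) l x) := by
  induction l generalizing x with
  | zero => rfl
  | succ l ih =>
    show sgk n b (k + l) (sqz n (b + (k + l)) x) = sgk n b k (sgk n (b + k) l (sqz n (b + k + l) x))
    rw [ih, Nat.add_assoc]

theorem SgFacts_toM {n b : ℕ} {y : Cube (2 * n + 1)} (h : y ∈ Mb n b) :
    (toM n b y : Cube (2 * n + 1)) = y := by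
  unfold toM
  rw [dif_pos h]

theorem SgFacts_toZ {n b : ℕ} {y : Cube (2 * n + 1)} (h : y ∈ Zb n b) :
    (toZ n b y : Cube (2 * n + 1)) = y := by
  unfold toZ
  rw [dif_pos h]

theorem pr_SgFacts (h1 : S_SqzPz) (h2 : S_MbFacts) (h3 : S_Grid) : S_SgFacts := by
  intro n hn
  obtain ⟨m1, -, -, m4, -, -, -, -, -, -, -, -⟩ := h2 n hn
  have hsg : ∀ b b', b ≤ b' → ContinuousOn (sg n b b') (Mb n b') ∧
      MapsTo (sg n b b') (Mb n b') (Mb n b) ∧
      (∀ x ∈ Mb n b', sg n b b' x ∈ faceOf (3 ^ b) x) ∧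
      (∀ x ∈ Mb n b', ∀ y ∈ Mb n b',
        dist (sg n b b' x) (sg n b b' y) ≤ (3 / 2) ^ (b' - b) * dist x y) ∧
      (∀ c, c ≤ b → ∀ x ∈ Zb n c, sg n b b' x = x) := by
    intro b b' hb
    have := SgFacts_sgk h1 h3 n b hn (b' - b)
    rw [Nat.add_sub_cancel' hb] at this
    exact this
  have hcomp : ∀ b b' b'' x, b ≤ b' → b' ≤ b'' →
      sg n b b' (sg n b' b'' x) = sg n b b'' x := by
    intro b b' b'' x hb hb'
    have := SgFacts_comp n b (b' - b) (b'' - b') x
    rw [Nat.add_sub_cancel' hb] at this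
    have h5 : b' - b + (b'' - b') = b'' - b := by omega
    rw [h5] at this
    exact this.symm
  have hsM : ∀ b b', b ≤ b' → ∀ x : XM n b', (sM n b b' x : Cube (2 * n + 1)) = sg n b b' x :=
    fun b b' hb x => SgFacts_toM ((hsg b b' hb).2.1 x.2)
  have hself : ∀ b x, sg n b b x = x := by
    intro b x
    unfold sg
    rw [Nat.sub_self]
    rfl
  refine ⟨fun b b' hb => ?_, hself, hcomp, fun b b' hb => ⟨?_, hsM b b' hb⟩, fun b x => ?_,
    fun b b' b'' x hb hb' => ?_, fun b x => ⟨?_, ?_⟩, fun b c x => ⟨?_, ?_⟩, fun b => ⟨?_, ?_, ?_⟩⟩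
  · obtain ⟨g1, g2, g3, g4, g5⟩ := hsg b b' hb
    refine ⟨g1, g2, g3, g4, fun x hx y hy hxy => ?_, g5⟩
    refine (g4 x hx y hy).trans ?_
    have e1 : ((3 : ℝ) / 2) ^ (b' - b) ≤ (3 / 2) ^ b' :=
      pow_le_pow_right₀ (by norm_num) (Nat.sub_le _ _)
    have e2 : ((3 : ℝ) / 2) ^ b' * (1 / 3 ^ b') = 1 / 2 ^ b' := by
      rw [div_pow]
      have : (3 : ℝ) ^ b' ≠ 0 := by positivity
      field_simp
    calc ((3 : ℝ) / 2) ^ (b' - b) * dist x y ≤ (3 / 2) ^ b' * (1 / 3 ^ b') :=
          mul_le_mul e1 hxy dist_nonneg (by positivity)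
      _ = 1 / 2 ^ b' := e2
  · have h5 : sM n b b' = fun x : XM n b' => (⟨sg n b b' x, (hsg b b' hb).2.1 x.2⟩ : XM n b) := by
      funext x
      exact Subtype.ext (hsM b b' hb x)
    rw [h5]
    exact Continuous.subtype_mk (continuousOn_iff_continuous_domRestrict.1 (hsg b b' hb).1) _
  · apply Subtype.ext
    rw [hsM b b le_rfl, hself]
  · apply Subtype.ext
    rw [hsM b b' hb, hsM b' b'' hb', hsM b b'' (hb.trans hb'), hcomp b b' b'' _ hb hb']
  · obtain ⟨-, ⟨p1, p2, -, -⟩, -⟩ := h1 n b hn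
    have h5 : pZ n b = fun x : XM n (b + 1) => (⟨pz n b x, p2 x.2⟩ : ZM n b) := by
      funext x
      exact Subtype.ext (SgFacts_toZ (p2 x.2))
    rw [h5]
    exact Continuous.subtype_mk (continuousOn_iff_continuous_domRestrict.1 p1) _
  · obtain ⟨-, ⟨p1, p2, -, -⟩, -⟩ := h1 n b hn
    exact SgFacts_toZ (p2 x.2)
  · have h5 : iZ n b c = fun x : ZM n b => (⟨x, m4 b c x.2⟩ : XM n c) := by
      funext x
      exact Subtype.ext (SgFacts_toM (m4 b c x.2))
    rw [h5]
    exact Continuous.subtype_mk continuous_subtype_val _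
  · exact SgFacts_toM (m4 b c x.2)
  · exact isCompact_iff_compactSpace.1 (m1 b).2.2.2.2.1
  · exact isCompact_iff_compactSpace.1 (m1 b).2.2.2.2.2
  · have h5 : IsClosed (Mu n) := isClosed_iInter (fun b => (m1 b).2.2.1)
    exact isCompact_iff_compactSpace.1 h5.isCompact

end M202

end

section

/-!
MP_202a65_gt, item SiFacts: the Menger compactum as the inverse limit of the stages M_b.
-/

open Set Topology unitInterval Filter

namespace M202

/-- the limit of the squeezes -/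
noncomputable def SiFacts_lm (n b : ℕ) (x : Cube (2 * n + 1)) : Cube (2 * n + 1) :=
  Filter.limUnder Filter.atTop (fun k => sgk n b k x)

theorem SiFacts_sgk (n b k : ℕ) (x : Cube (2 * n + 1)) : sgk n b k x = sg n b (b + k) x := by
  unfold sg; congr 1; omega

theorem SiFacts_faceDist (h5 : S_Grid) {N : ℕ} (b : ℕ) (x y : Cube N)
    (hy : y ∈ faceOf (3 ^ b) x) : dist y x ≤ 1 / 3 ^ b := by
  have hL : 1 ≤ 3 ^ b := Nat.one_le_pow _ _ (by norm_num)
  obtain ⟨hx, -, -, hd⟩ := h5.1 N (3 ^ b) x hL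
  have := hd y hy x hx
  simpa using this

section

variable {n : ℕ} (hn : 1 ≤ n) (h1 : S_SgFacts) (h2 : S_MbFacts) (h5 : S_Grid)

include hn h1 h2 h5

/-- one step of the sequence -/
theorem SiFacts_step (b k : ℕ) (x : Cube (2 * n + 1)) (hx : x ∈ Mu n) :
    dist (sgk n b k x) (sgk n b (k + 1) x) ≤ 1 / 2 / 2 ^ k * 2 := by
  obtain ⟨hA, hB, hC, -⟩ := h1 n hn
  obtain ⟨-, -, -, -, -, -, -, -, -, -, hmu, -⟩ := h2 n hn
  have hxM : ∀ c, x ∈ Mb n c := (hmu x).1 hx
  set c := b + k with hc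
  obtain ⟨-, hm1, hf1, -, -, -⟩ := hA c (c + 1) (Nat.le_succ c)
  obtain ⟨-, -, -, -, hd, -⟩ := hA b c (by omega)
  have hface := hf1 x (hxM (c + 1))
  have hdist : dist (sg n c (c + 1) x) x ≤ 1 / 3 ^ c := SiFacts_faceDist h5 c _ _ hface
  have hmem : sg n c (c + 1) x ∈ Mb n c := hm1 (hxM (c + 1))
  have h3 := hd _ hmem x (hxM c) hdist
  rw [hC b c (c + 1) x (by omega) (Nat.le_succ c)] at h3
  rw [SiFacts_sgk, SiFacts_sgk, dist_comm]
  have e : b + (k + 1) = c + 1 := by omega
  rw [e]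
  refine h3.trans ?_
  have h4 : (1 : ℝ) / 2 / 2 ^ k * 2 = 1 / 2 ^ k := by ring
  rw [h4]
  apply one_div_le_one_div_of_le (by positivity)
  exact pow_le_pow_right₀ (by norm_num) (by omega)

theorem SiFacts_tendsto (b : ℕ) (x : Cube (2 * n + 1)) (hx : x ∈ Mu n) :
    Tendsto (fun k => sgk n b k x) atTop (𝓝 (SiFacts_lm n b x)) := by
  have hc : CauchySeq (fun k => sgk n b k x) := by
    apply cauchySeq_of_le_geometric_two (C := 2)
    intro k
    refine (SiFacts_step hn h1 h2 h5 b k x hx).trans (le_of_eq (by ring))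
  exact hc.tendsto_limUnder

theorem SiFacts_dist (b k : ℕ) (x : Cube (2 * n + 1)) (hx : x ∈ Mu n) :
    dist (sgk n b k x) (SiFacts_lm n b x) ≤ 2 / 2 ^ k := by
  have := dist_le_of_le_geometric_two_of_tendsto (C := 2) (f := fun k => sgk n b k x)
    (fun k => (SiFacts_step hn h1 h2 h5 b k x hx).trans (le_of_eq (by ring)))
    (SiFacts_tendsto hn h1 h2 h5 b x hx) k
  exact this

theorem SiFacts_lmMem (b : ℕ) (x : Cube (2 * n + 1)) (hx : x ∈ Mu n) :
    SiFacts_lm n b x ∈ Mb n b := by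
  obtain ⟨hA, hB, hC, -⟩ := h1 n hn
  obtain ⟨hcl, -, -, -, -, -, -, -, -, -, hmu, -⟩ := h2 n hn
  have hxM : ∀ c, x ∈ Mb n c := (hmu x).1 hx
  refine (hcl b).2.2.1.mem_of_tendsto (SiFacts_tendsto hn h1 h2 h5 b x hx) ?_
  filter_upwards with k
  rw [SiFacts_sgk]
  exact (hA b (b + k) (by omega)).2.1 (hxM (b + k))

theorem SiFacts_coe (b : ℕ) (x : UM n) :
    (si n b x : Cube (2 * n + 1)) = SiFacts_lm n b (x : Cube (2 * n + 1)) := by
  have h := SiFacts_lmMem hn h1 h2 h5 b x.1 x.2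
  unfold SiFacts_lm at h ⊢
  unfold si toM
  rw [dif_pos h]

theorem SiFacts_lmFace (b : ℕ) (x : Cube (2 * n + 1)) (hx : x ∈ Mu n) :
    SiFacts_lm n b x ∈ faceOf (3 ^ b) x := by
  obtain ⟨hA, hB, hC, -⟩ := h1 n hn
  obtain ⟨hcl, -, -, -, -, -, -, -, -, -, hmu, -⟩ := h2 n hn
  have hxM : ∀ c, x ∈ Mb n c := (hmu x).1 hx
  have hL : 1 ≤ 3 ^ b := Nat.one_le_pow _ _ (by norm_num)
  refine (h5.1 _ (3 ^ b) x hL).2.1.mem_of_tendsto (SiFacts_tendsto hn h1 h2 h5 b x hx) ?_
  filter_upwards with k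
  rw [SiFacts_sgk]
  exact (hA b (b + k) (by omega)).2.2.1 x (hxM (b + k))

theorem SiFacts_cont (b : ℕ) : Continuous (si n b) := by
  obtain ⟨hA, hB, hC, -⟩ := h1 n hn
  obtain ⟨hcl, -, -, -, -, -, -, -, -, -, hmu, -⟩ := h2 n hn
  have key : ContinuousOn (SiFacts_lm n b) (Mu n) := by
    have hu : TendstoUniformlyOn (fun k x => sgk n b k x) (SiFacts_lm n b) atTop (Mu n) := by
      rw [Metric.tendstoUniformlyOn_iff]
      intro e he
      have h0 : Tendsto (fun k : ℕ => (2 : ℝ) / 2 ^ k) atTop (𝓝 0) := by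
        have := (tendsto_pow_atTop_nhds_zero_of_lt_one (r := (1 / 2 : ℝ)) (by norm_num)
          (by norm_num)).const_mul 2
        simp only [mul_zero] at this
        refine this.congr (fun k => ?_)
        rw [one_div, inv_pow]; rfl
      filter_upwards [h0.eventually (gt_mem_nhds he)] with k hk x hx
      rw [dist_comm]
      exact (SiFacts_dist hn h1 h2 h5 b k x hx).trans_lt hk
    refine hu.continuousOn (Frequently.of_forall (fun k => ?_))
    have h3 := (hA b (b + k) (by omega)).1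
    have h4 : ContinuousOn (sg n b (b + k)) (Mu n) :=
      h3.mono (fun x hx => (hmu x).1 hx (b + k))
    exact h4.congr (fun x _ => SiFacts_sgk n b k x)
  rw [continuous_induced_rng]
  have h6 : (Subtype.val ∘ si n b) = fun x : UM n => SiFacts_lm n b (x : Cube (2 * n + 1)) := by
    funext x
    exact SiFacts_coe hn h1 h2 h5 b x
  rw [h6]
  exact key.comp_continuous continuous_subtype_val (fun x => x.2)

theorem SiFacts_compat (b b' : ℕ) (x : UM n) (hb : b ≤ b') :
    sM n b b' (si n b' x) = si n b x := by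
  obtain ⟨hA, hB, hC, hM, -⟩ := h1 n hn
  obtain ⟨hcl, -, -, -, -, -, -, -, -, -, hmu, -⟩ := h2 n hn
  have hxM : ∀ c, x.1 ∈ Mb n c := (hmu x).1 x.2
  apply Subtype.ext
  rw [(hM b b' hb).2, SiFacts_coe hn h1 h2 h5, SiFacts_coe hn h1 h2 h5]
  have t1 := SiFacts_tendsto hn h1 h2 h5 b' x.1 x.2
  have hc := ((hA b b' hb).1) _ (SiFacts_lmMem hn h1 h2 h5 b' x.1 x.2)
  have t2 : Tendsto (fun k => sg n b b' (sgk n b' k x.1)) atTop
      (𝓝 (sg n b b' (SiFacts_lm n b' x.1))) := by
    refine hc.tendsto.comp (tendsto_nhdsWithin_iff.2 ⟨t1, ?_⟩)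
    filter_upwards with k
    rw [SiFacts_sgk]
    exact (hA b' (b' + k) (by omega)).2.1 (hxM (b' + k))
  have t3 : Tendsto (fun k => sgk n b ((b' - b) + k) x.1) atTop (𝓝 (SiFacts_lm n b x.1)) :=
    (SiFacts_tendsto hn h1 h2 h5 b x.1 x.2).comp (tendsto_atTop_mono (fun k => by simp only [id]; omega)
      tendsto_id)
  have e : (fun k => sg n b b' (sgk n b' k x.1)) = fun k => sgk n b ((b' - b) + k) x.1 := by
    funext k
    rw [SiFacts_sgk, SiFacts_sgk, hC b b' (b' + k) x.1 hb (by omega)]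
    congr 1
    omega
  rw [e] at t2
  exact tendsto_nhds_unique t2 t3

theorem SiFacts_surj (y : ∀ b, XM n b) (hy : ∀ b, sM n b (b + 1) (y (b + 1)) = y b) :
    ∃ x : UM n, ∀ b, si n b x = y b := by
  obtain ⟨hA, hB, hC, hM, hMr, hMc, -⟩ := h1 n hn
  obtain ⟨hcl, -, hanti, -, -, -, -, -, -, -, hmu, -⟩ := h2 n hn
  -- general compatibility
  have hcomp : ∀ b k, sM n b (b + k) (y (b + k)) = y b := by
    intro b k
    induction k with
    | zero => exact hMr b (y b)
    | succ k ih =>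
      have := hMc b (b + k) (b + k + 1) (y (b + k + 1)) (by omega) (by omega)
      rw [hy (b + k), ih] at this
      exact this.symm
  have hstep : ∀ b, dist (y b : Cube (2 * n + 1)) (y (b + 1) : Cube (2 * n + 1)) ≤ 1 / 3 ^ b := by
    intro b
    have h3 : (y b : Cube (2 * n + 1)) = sg n b (b + 1) (y (b + 1)) := by
      rw [← (hM b (b + 1) (Nat.le_succ b)).2, hy b]
    have h4 := (hA b (b + 1) (Nat.le_succ b)).2.2.1 _ (y (b + 1)).2
    rw [← h3] at h4
    exact SiFacts_faceDist h5 b _ _ h4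
  have hcau : CauchySeq (fun b => (y b : Cube (2 * n + 1))) := by
    apply cauchySeq_of_le_geometric (1 / 3) 1 (by norm_num)
    intro b
    refine (hstep b).trans (le_of_eq ?_)
    rw [one_mul, one_div_pow]
  obtain ⟨x, hx⟩ := cauchySeq_tendsto_of_complete hcau
  have hdx : ∀ b, dist (y b : Cube (2 * n + 1)) x ≤ 2 / 3 ^ b := by
    intro b
    have := dist_le_of_le_geometric_of_tendsto (1 / 3) 1 (by norm_num)
      (fun b => (hstep b).trans (le_of_eq (by rw [one_mul, one_div_pow]))) hx b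
    refine this.trans ?_
    rw [one_mul, one_div_pow, div_le_div_iff₀ (by norm_num) (by positivity)]
    rw [one_div, inv_mul_cancel₀ (by positivity)]
    norm_num
  have hxmu : x ∈ Mu n := by
    rw [hmu]
    intro c
    refine (hcl c).2.2.1.mem_of_tendsto hx ?_
    filter_upwards [eventually_ge_atTop c] with b hb
    exact hanti c b hb (y b).2
  have hxM : ∀ c, x ∈ Mb n c := (hmu x).1 hxmu
  refine ⟨⟨x, hxmu⟩, fun b => ?_⟩
  apply Subtype.ext
  rw [SiFacts_coe hn h1 h2 h5]
  refine tendsto_nhds_unique (SiFacts_tendsto hn h1 h2 h5 b x hxmu) ?_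
  rw [tendsto_iff_dist_tendsto_zero]
  have h0 : Tendsto (fun k : ℕ => (2 : ℝ) / 2 ^ k) atTop (𝓝 0) := by
    have := (tendsto_pow_atTop_nhds_zero_of_lt_one (r := (1 / 2 : ℝ)) (by norm_num)
      (by norm_num)).const_mul 2
    simp only [mul_zero] at this
    refine this.congr (fun k => ?_)
    rw [one_div, inv_pow]; rfl
  refine squeeze_zero (fun _ => dist_nonneg) (fun k => ?_) h0
  have h3 : (y b : Cube (2 * n + 1)) = sg n b (b + k) (y (b + k)) := by
    rw [← (hM b (b + k) (by omega)).2, hcomp b k]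
  rw [h3, SiFacts_sgk]
  refine ((hA b (b + k) (by omega)).2.2.2.1 x (hxM _) _ (y (b + k)).2).trans ?_
  rw [dist_comm]
  have h6 : b + k - b = k := by omega
  rw [h6]
  refine (mul_le_mul_of_nonneg_left (hdx (b + k)) (by positivity)).trans ?_
  rw [div_pow, pow_add, div_mul_div_comm, div_le_div_iff₀ (by positivity) (by positivity)]
  have h7 : (1 : ℝ) ≤ 3 ^ b := one_le_pow₀ (by norm_num)
  have h8 : (0 : ℝ) < 3 ^ k := by positivity
  have h9 : (0 : ℝ) < 2 ^ k := by positivity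
  nlinarith [mul_pos h8 h9, mul_pos (mul_pos h8 h9) (lt_of_lt_of_le one_pos h7)]

theorem SiFacts_inj (x x' : UM n) (h : ∀ b, si n b x = si n b x') : x = x' := by
  apply Subtype.ext
  rw [← dist_le_zero]
  have h0 : Tendsto (fun k : ℕ => (2 : ℝ) / 3 ^ k) atTop (𝓝 0) := by
    have := (tendsto_pow_atTop_nhds_zero_of_lt_one (r := (1 / 3 : ℝ)) (by norm_num)
      (by norm_num)).const_mul 2
    simp only [mul_zero] at this
    refine this.congr (fun k => ?_)
    rw [one_div, inv_pow]; rfl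
  refine ge_of_tendsto' h0 (fun b => ?_)
  have e1 := SiFacts_faceDist h5 b _ _ (SiFacts_lmFace hn h1 h2 h5 b x.1 x.2)
  have e2 := SiFacts_faceDist h5 b _ _ (SiFacts_lmFace hn h1 h2 h5 b x'.1 x'.2)
  have e3 : SiFacts_lm n b x.1 = SiFacts_lm n b x'.1 := by
    rw [← SiFacts_coe hn h1 h2 h5, ← SiFacts_coe hn h1 h2 h5, h b]
  rw [← e3] at e2
  calc dist x.1 x'.1 ≤ dist x.1 (SiFacts_lm n b x.1) + dist (SiFacts_lm n b x.1) x'.1 :=
        dist_triangle _ _ _
    _ ≤ 1 / 3 ^ b + 1 / 3 ^ b := by rw [dist_comm x.1]; exact add_le_add e1 e2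
    _ = 2 / 3 ^ b := by ring

theorem SiFacts_fix (b c : ℕ) (x : UM n) (hc : c ≤ b) (hx : (x : Cube (2 * n + 1)) ∈ Zb n c) :
    (si n b x : Cube (2 * n + 1)) = x := by
  obtain ⟨hA, -⟩ := h1 n hn
  rw [SiFacts_coe hn h1 h2 h5]
  refine tendsto_nhds_unique (SiFacts_tendsto hn h1 h2 h5 b x.1 x.2) ?_
  refine tendsto_const_nhds.congr (fun k => ?_)
  rw [SiFacts_sgk, (hA b (b + k) (by omega)).2.2.2.2.2 c hc x.1 hx]

end

theorem pr_SiFacts (h1 : S_SgFacts) (h2 : S_MbFacts) (h3 : S_X1all) (h4 : S_InvLim)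
    (h5 : S_Grid) : S_SiFacts := by
  intro n hn
  obtain ⟨hA, hB, hC, hM, hMr, hMc, -, -, hK⟩ := h1 n hn
  refine ⟨SiFacts_cont hn h1 h2 h5, SiFacts_compat hn h1 h2 h5, ?_, SiFacts_surj hn h1 h2 h5,
    SiFacts_inj hn h1 h2 h5, ?_, ?_⟩
  · intro b x
    rw [SiFacts_coe hn h1 h2 h5]
    exact SiFacts_lmFace hn h1 h2 h5 b x.1 x.2
  · intro b c x hc hx
    exact SiFacts_fix hn h1 h2 h5 b c x hc hx
  · have : ∀ b, CompactSpace (XM n b) := fun b => (hK b).1
    have : CompactSpace (UM n) := (hK 0).2.2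
    exact h4 n (XM n) (sM n) (UM n) (si n) (SiFacts_cont hn h1 h2 h5)
      (SiFacts_compat hn h1 h2 h5) hMr hMc (fun b b' hb => (hM b b' hb).1)
      (fun b b' hb => h3 n b b' hn hb) (SiFacts_surj hn h1 h2 h5) (SiFacts_inj hn h1 h2 h5)

end M202

end

section

/-!
MP_202a65_gt: item SoftOfRel (helper6).
-/

open Set Topology unitInterval

namespace M202

open CC in
theorem pr_SoftOfRel (h1 : S_HepMap) (h2 : S_TrackFix) : S_SoftOfRel := by
  intro n A B _ _ D eta th hD hth hR m hm eta' he ze be al ga hze hbe hal hga hg0 hg1 hgz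
  have hbe' : Continuous be := continuousOn_univ.mp hbe
  obtain ⟨ep, hep, hep3⟩ : ∃ ep : ℝ, 0 < ep ∧ eta + 3 * ep = eta' :=
    ⟨(eta' - eta) / 3, by linarith, by ring⟩
  -- uniform continuity
  obtain ⟨w, hw0, hw1, hw⟩ : ∃ w : ℝ, 0 < w ∧ w < 1 / 2 ∧
      ∀ y x : Cube m, dist y x ≤ w → D (be y) (be x) ≤ ep := by
    have hF : Continuous (fun p : Cube m × Cube m => D (be p.1) (be p.2)) :=
      hD.cont.comp ((hbe'.comp continuous_fst).prodMk (hbe'.comp continuous_snd))
    have hU := CompactSpace.uniformContinuous_of_continuous hF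
    rw [Metric.uniformContinuous_iff] at hU
    obtain ⟨δ, hδ, hU⟩ := hU ep hep
    refine ⟨min (δ / 2) (1 / 4), lt_min (by linarith) (by norm_num),
      lt_of_le_of_lt (min_le_right _ _) (by norm_num), fun y x hyx => ?_⟩
    have hd : dist (y, x) (x, x) < δ := by
      rw [Prod.dist_eq]
      simp only [dist_self]
      rw [max_eq_left dist_nonneg]
      have := min_le_left (δ / 2) (1 / 4)
      linarith
    have h3 := hU hd
    rw [Real.dist_eq] at h3
    simp only [hD.self, sub_zero] at h3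
    exact (lt_of_abs_lt h3).le
  -- the homotopy H
  obtain ⟨H, hHc, hH0, hHb, hHy⟩ := h1 m B be (fun p => ga (σ p.1, p.2)) w hbe'
    (by
      apply hga.comp
      · exact ((continuous_symm.comp continuous_fst).prodMk continuous_snd).continuousOn
      · intro p hp
        exact ⟨mem_univ _, hp.2⟩)
    (by
      intro x hx
      simp only [unitInterval.symm_zero]
      exact hg1 x hx)
    hw0 hw1
  have hHD : ∀ t x, D (H (t, x)) (be x) ≤ ze + ep := by
    intro t x
    obtain ⟨y, hy, h3 | ⟨hyb, s, -, h3⟩⟩ := hHy t x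
    · rw [h3]
      have := hw y x hy
      linarith
    · rw [h3]
      have h4 := hD.tri (ga (σ s, y)) (be y) (be x)
      have h5 := hgz (σ s) y hyb
      have h6 := hw y x hy
      simp only
      linarith
  -- relative softness
  obtain ⟨al', G1, hal'c, hG1c, hal'b, hG1b, hG10, hG11, hG1D⟩ :=
    hR m hm (eta + ep) (by linarith) (fun x => H (1, x)) al
      (hHc.comp (by fun_prop)) hal
      (by
        intro x hx
        rw [hHb 1 x hx]
        simp only [unitInterval.symm_one]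
        exact (hg0 x hx).symm)
  have hnn : 0 ≤ eta + ep := le_trans (nonneg hD _ _) (hG1D 0 (ctr m))
  -- concatenation
  obtain ⟨G2, hG2⟩ : ∃ G2, G2 = cc G1 (fun p : I × Cube m => H (σ p.1, p.2)) := ⟨_, rfl⟩
  have hG2c : Continuous G2 := by
    rw [hG2]
    refine cc_cont hG1c ?_ ?_
    · exact hHc.comp ((continuous_symm.comp continuous_fst).prodMk continuous_snd)
    · intro x
      simp only [unitInterval.symm_zero]
      exact hG11 x
  have hG20 : ∀ x, G2 (0, x) = th (al' x) := by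
    intro x
    rw [hG2, cc_zero]
    exact hG10 x
  have hG21 : ∀ x, G2 (1, x) = be x := by
    intro x
    rw [hG2, cc_one]
    simp only [unitInterval.symm_one]
    exact hH0 x
  have hG2D : ∀ t x, D (G2 (t, x)) (be x) ≤ ze + (eta + 2 * ep) := by
    intro t x
    rw [hG2]
    obtain ⟨s, hs⟩ | ⟨s, hs⟩ := cc_cases G1 (fun p : I × Cube m => H (σ p.1, p.2)) t x
    · rw [hs]
      have h3 := hD.tri (G1 (s, x)) (H (1, x)) (be x)
      have h4 := hG1D s x
      have h5 := hHD 1 x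
      linarith
    · rw [hs]
      have h5 := hHD (σ s) x
      linarith
  have hG2b : ∀ t, ∀ x ∈ bd m, G2 (t, x) = ga (fb t, x) := by
    intro t x hx
    rw [hG2]
    unfold cc
    by_cases ht : (t : ℝ) ≤ 1 / 2
    · rw [if_pos ht, fb_of_le ht]
      simp only
      rw [hG1b _ x hx, hHb 1 x hx]
      simp only [unitInterval.symm_one]
    · rw [if_neg ht]
      simp only
      rw [hHb _ x hx]
      simp only [unitInterval.symm_symm]
  -- the homotopy of tracks
  obtain ⟨pr, hpr⟩ : ∃ pr : I × I → I, pr = fun p => projIcc (0 : ℝ) 1 zero_le_one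
      ((1 - (p.1 : ℝ)) * (fb p.2 : ℝ) + (p.1 : ℝ) * (p.2 : ℝ)) := ⟨_, rfl⟩
  have hprc : Continuous pr := by
    rw [hpr]
    apply continuous_projIcc.comp
    have := fb_cont
    fun_prop
  have hpr0 : ∀ t, pr (0, t) = fb t := by
    intro t
    rw [hpr]
    simp
  have hpr1 : ∀ t, pr (1, t) = t := by
    intro t
    rw [hpr]
    simp
  have hprt0 : ∀ u, pr (u, 0) = 0 := by
    intro u
    rw [hpr]
    simp only
    rw [fb_of_le (by simp)]
    simp
  have hprt1 : ∀ u, pr (u, 1) = 1 := by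
    intro u
    rw [hpr]
    simp only
    rw [fb_one]
    simp
  obtain ⟨G, hGc, hG0, hG1, hGb, hGD⟩ := h2 m B D G2
    (fun p => ga (pr (p.1, p.2.1), p.2.2)) (ze + (eta + 2 * ep)) ep hD hG2c
    (by
      apply hga.comp
      · exact (by fun_prop : Continuous (fun p : I × (I × Cube m) =>
          (pr (p.1, p.2.1), p.2.2))).continuousOn
      · intro p hp
        exact ⟨mem_univ _, hp⟩)
    (by
      intro t x hx
      simp only
      rw [hpr0, hG2b t x hx])
    (by
      intro u x hx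
      simp only
      rw [hprt0, hG20, hg0 x hx, hal'b x hx])
    (by
      intro u x hx
      simp only
      rw [hprt1, hG21, hg1 x hx])
    (by
      intro t x
      rw [hG21]
      exact hG2D t x)
    (by
      intro u t x hx
      rw [hG21]
      have := hgz (pr (u, t)) x hx
      simp only
      linarith)
    hep
  refine ⟨al', G, hal'c.continuousOn, hGc.continuousOn, hal'b, ?_, ?_, ?_, ?_⟩
  · intro t x hx
    rw [hGb t x hx]
    simp only [hpr1]
  · intro x _
    rw [hG0, hG20]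
  · intro x _
    rw [hG1, hG21]
  · intro t x _
    have := hGD t x
    rw [hG21] at this
    linarith

end M202

end

section

/-!
# MP_202a65_gt, item SqzPz: squeeze and retraction to the skeleton
-/

open Set Topology unitInterval Filter

namespace M202

/-- the profile of the squeeze in the centred coordinate `v` -/
noncomputable def SqzPz_F (v r : ℝ) : ℝ := 3 / 2 * v - v / (4 * max |v| r)

theorem SqzPz_F_pos {v r : ℝ} (hr : 0 < r) (h : r ≤ v) : SqzPz_F v r = 3 / 2 * v - 1 / 4 := by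
  have hv : 0 < v := hr.trans_le h
  unfold SqzPz_F
  rw [abs_of_pos hv, max_eq_left h]
  field_simp

theorem SqzPz_F_neg {v r : ℝ} (hr : 0 < r) (h : v ≤ -r) : SqzPz_F v r = 3 / 2 * v + 1 / 4 := by
  have hv : v < 0 := by linarith
  unfold SqzPz_F
  have hv0 : v ≠ 0 := hv.ne
  rw [abs_of_neg hv, max_eq_left (by linarith)]
  field_simp
  ring

theorem SqzPz_F_mid {v r : ℝ} (h : |v| ≤ r) : SqzPz_F v r = 3 / 2 * v - v * (1 / (4 * r)) := by
  unfold SqzPz_F
  rw [max_eq_right h]
  ring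

/-- one sided Lipschitz estimate -/
theorem SqzPz_F_le {v r v' r' d : ℝ} (hr : 1 / 6 ≤ r) (hr' : 1 / 6 ≤ r')
    (hv : |v' - v| ≤ d) (hd : |r' - r| ≤ d) : SqzPz_F v' r' - SqzPz_F v r ≤ 3 / 2 * d := by
  have r0 : 0 < r := by linarith
  have r0' : 0 < r' := by linarith
  have c1 : 0 < 1 / (4 * r) := by positivity
  have c1' : 0 < 1 / (4 * r') := by positivity
  have c2 : 1 / (4 * r) ≤ 3 / 2 := by
    rw [div_le_iff₀ (by linarith)]
    linarith
  have c2' : 1 / (4 * r') ≤ 3 / 2 := by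
    rw [div_le_iff₀ (by linarith)]
    linarith
  have c3 : 1 / (4 * r) * r = 1 / 4 := by field_simp
  have c3' : 1 / (4 * r') * r' = 1 / 4 := by field_simp
  obtain ⟨hv1, hv2⟩ := abs_le.1 hv
  obtain ⟨hd1, hd2⟩ := abs_le.1 hd
  -- general bounds
  have lowF : ∀ {a s : ℝ}, 0 < s → 3 / 2 * a - 1 / 4 ≤ SqzPz_F a s := by
    intro a s hs
    rcases le_total s a with h | h
    · rw [SqzPz_F_pos hs h]
    · rcases le_total a (-s) with h' | h'
      · rw [SqzPz_F_neg hs h']; linarith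
      · rw [SqzPz_F_mid (abs_le.2 ⟨h', h⟩)]
        have e1 : a * (1 / (4 * s)) ≤ s * (1 / (4 * s)) :=
          mul_le_mul_of_nonneg_right h (by positivity)
        have e2 : s * (1 / (4 * s)) = 1 / 4 := by field_simp
        linarith
  have uppF : ∀ {a s : ℝ}, 0 < s → SqzPz_F a s ≤ 3 / 2 * a + 1 / 4 := by
    intro a s hs
    rcases le_total s a with h | h
    · rw [SqzPz_F_pos hs h]; linarith
    · rcases le_total a (-s) with h' | h'
      · rw [SqzPz_F_neg hs h']
      · rw [SqzPz_F_mid (abs_le.2 ⟨h', h⟩)]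
        have e1 : (-s) * (1 / (4 * s)) ≤ a * (1 / (4 * s)) :=
          mul_le_mul_of_nonneg_right h' (by positivity)
        have e2 : s * (1 / (4 * s)) = 1 / 4 := by field_simp
        linarith
  set c := 1 / (4 * r) with hc
  set c' := 1 / (4 * r') with hc'
  -- q in A
  rcases le_total r' v' with hA | hA
  · rw [SqzPz_F_pos r0' hA]
    have := lowF (a := v) r0
    linarith
  -- p in C
  rcases le_total v (-r) with hC | hC
  · rw [SqzPz_F_neg r0 hC]
    have := uppF (a := v') r0'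
    linarith
  rcases le_total r v with hpA | hpA
  · -- p in A
    rw [SqzPz_F_pos r0 hpA]
    rcases le_total v' (-r') with hqC | hqB
    · rw [SqzPz_F_neg r0' hqC]
      have : 0 ≤ d := (abs_nonneg _).trans hv
      linarith
    · rw [SqzPz_F_mid (abs_le.2 ⟨hqB, hA⟩), ← hc']
      have k1 : 0 ≤ c' * (v - r) := mul_nonneg c1'.le (by linarith)
      have k2 : 0 ≤ (3 / 2 - c') * (d - (v' - v)) := mul_nonneg (by linarith) (by linarith)
      have k3 : 0 ≤ c' * (d - (r' - r)) := mul_nonneg c1'.le (by linarith)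
      nlinarith
  · -- p in B
    rw [SqzPz_F_mid (abs_le.2 ⟨hC, hpA⟩), ← hc]
    rcases le_total v' (-r') with hqC | hqB
    · rw [SqzPz_F_neg r0' hqC]
      have k1 : 0 ≤ c * (-r' - v') := mul_nonneg c1.le (by linarith)
      have k2 : 0 ≤ (3 / 2 - c) * (d - (v' - v)) := mul_nonneg (by linarith) (by linarith)
      have k3 : 0 ≤ c * (d - (r - r')) := mul_nonneg c1.le (by linarith)
      nlinarith
    · rw [SqzPz_F_mid (abs_le.2 ⟨hqB, hA⟩), ← hc']
      -- v c - v' c' = - c' (v' - v) + v (c - c'), v (c - c') = c' (v / r) (r' - r)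
      have e1 : v * (c - c') = c' * ((v / r) * (r' - r)) := by
        rw [hc, hc']
        field_simp
      have hvr : |v / r| ≤ 1 := by
        rw [abs_div, abs_of_pos r0, div_le_one r0]
        exact abs_le.2 ⟨hC, hpA⟩
      have e2 : (v / r) * (r' - r) ≤ d := by
        calc (v / r) * (r' - r) ≤ |(v / r) * (r' - r)| := le_abs_self _
          _ = |v / r| * |r' - r| := abs_mul _ _
          _ ≤ 1 * |r' - r| := mul_le_mul_of_nonneg_right hvr (abs_nonneg _)
          _ ≤ d := by rw [one_mul]; exact hd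
      have k1 : c' * ((v / r) * (r' - r)) ≤ c' * d := mul_le_mul_of_nonneg_left e2 c1'.le
      have k2 : 0 ≤ (3 / 2 - c') * (d - (v' - v)) := mul_nonneg (by linarith) (by linarith)
      nlinarith

/-- Lipschitz estimate -/
theorem SqzPz_F_lip {v r v' r' d : ℝ} (hr : 1 / 6 ≤ r) (hr' : 1 / 6 ≤ r')
    (hv : |v' - v| ≤ d) (hd : |r' - r| ≤ d) : |SqzPz_F v' r' - SqzPz_F v r| ≤ 3 / 2 * d := by
  rw [abs_le]
  have h1 := SqzPz_F_le hr hr' hv hd
  have h2 := SqzPz_F_le hr' hr (by rwa [abs_sub_comm]) (by rwa [abs_sub_comm] : |r - r'| ≤ d)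
    (v := v') (v' := v)
  constructor <;> linarith

/-- the map in the coordinate `T = 3 ^ b t` -/
noncomputable def SqzPz_G (T r : ℝ) : ℝ := ⌊T⌋ + 1 / 2 + SqzPz_F (Int.fract T - 1 / 2) r

theorem SqzPz_G_up {T r : ℝ} (hr : 1 / 6 ≤ r) (hr2 : r ≤ 1 / 2) :
    |(⌊T⌋ + 1 : ℝ) - SqzPz_G T r| ≤ 3 / 2 * ((⌊T⌋ + 1 : ℝ) - T) := by
  have h1 : SqzPz_F (1 / 2) r = 1 / 2 := by
    rw [SqzPz_F_pos (by linarith) hr2]; norm_num
  have hf := Int.fract_lt_one T
  have hf2 : T = ⌊T⌋ + Int.fract T := (Int.floor_add_fract T).symm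
  have h2 := SqzPz_F_lip (v := Int.fract T - 1 / 2) (v' := 1 / 2) (d := 1 - Int.fract T) hr hr
    (by rw [abs_le]; constructor <;> linarith) (by rw [sub_self, abs_zero]; linarith)
  have e1 : (⌊T⌋ + 1 : ℝ) - SqzPz_G T r = SqzPz_F (1 / 2) r - SqzPz_F (Int.fract T - 1 / 2) r := by
    unfold SqzPz_G
    rw [h1]; ring
  rw [e1]
  linarith

theorem SqzPz_G_down {T r : ℝ} (hr : 1 / 6 ≤ r) (hr2 : r ≤ 1 / 2) :
    |SqzPz_G T r - ⌊T⌋| ≤ 3 / 2 * (T - ⌊T⌋) := by
  have h1 : SqzPz_F (-(1 / 2)) r = -(1 / 2) := by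
    rw [SqzPz_F_neg (by linarith) (by linarith)]; norm_num
  have hf := Int.fract_nonneg T
  have hf2 : T = ⌊T⌋ + Int.fract T := (Int.floor_add_fract T).symm
  have h2 := SqzPz_F_lip (v := -(1 / 2)) (v' := Int.fract T - 1 / 2) (d := Int.fract T) hr hr
    (by rw [abs_le]; constructor <;> linarith) (by rw [sub_self, abs_zero]; linarith)
  have e1 : SqzPz_G T r - ⌊T⌋ = SqzPz_F (Int.fract T - 1 / 2) r - SqzPz_F (-(1 / 2)) r := by
    unfold SqzPz_G
    rw [h1]; ring
  rw [e1]
  linarith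

theorem SqzPz_G_lip_aux {T r T' r' d : ℝ} (hr : 1 / 6 ≤ r) (hr' : 1 / 6 ≤ r') (hr2 : r ≤ 1 / 2)
    (hr2' : r' ≤ 1 / 2) (hT : |T' - T| ≤ d) (hd : |r' - r| ≤ d) (hle : T ≤ T') :
    |SqzPz_G T' r' - SqzPz_G T r| ≤ 3 / 2 * d := by
  have hfl : ⌊T⌋ ≤ ⌊T'⌋ := Int.floor_le_floor hle
  rcases hfl.eq_or_lt with h | h
  · have e1 : SqzPz_G T' r' - SqzPz_G T r =
        SqzPz_F (Int.fract T' - 1 / 2) r' - SqzPz_F (Int.fract T - 1 / 2) r := by
      unfold SqzPz_G
      rw [h]; ring
    rw [e1]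
    apply SqzPz_F_lip hr hr' _ hd
    have e2 : Int.fract T' - 1 / 2 - (Int.fract T - 1 / 2) = T' - T := by
      have h1 : T = ⌊T⌋ + Int.fract T := (Int.floor_add_fract T).symm
      have h2 : T' = ⌊T'⌋ + Int.fract T' := (Int.floor_add_fract T').symm
      rw [← h] at h2
      linarith
    rw [e2]
    exact hT
  · have h1 := SqzPz_G_down (T := T') hr' hr2'
    have h2 := SqzPz_G_up (T := T) hr hr2
    have h3 : (⌊T⌋ + 1 : ℝ) ≤ ⌊T'⌋ := by exact_mod_cast h
    rw [abs_le] at h1 h2 hT ⊢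
    constructor <;> linarith [h1.1, h1.2, h2.1, h2.2, hT.1, hT.2]

theorem SqzPz_G_lip {T r T' r' d : ℝ} (hr : 1 / 6 ≤ r) (hr' : 1 / 6 ≤ r') (hr2 : r ≤ 1 / 2)
    (hr2' : r' ≤ 1 / 2) (hT : |T' - T| ≤ d) (hd : |r' - r| ≤ d) :
    |SqzPz_G T' r' - SqzPz_G T r| ≤ 3 / 2 * d := by
  rcases le_total T T' with h | h
  · exact SqzPz_G_lip_aux hr hr' hr2 hr2' hT hd h
  · rw [abs_sub_comm]
    exact SqzPz_G_lip_aux hr' hr hr2' hr2 (by rwa [abs_sub_comm]) (by rwa [abs_sub_comm]) h

/-- the coordinate of the squeeze -/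
theorem SqzPz_mv (b : ℕ) (t r : ℝ) (hr : 0 < r) :
    3 ^ b * mv b (3 / 2 * (max (lev b t) r - 1 / 6) / max (lev b t) r) t =
      SqzPz_G (3 ^ b * t) r := by
  have hM : 0 < max (lev b t) r := lt_max_of_lt_right hr
  have h3 : (0 : ℝ) < 3 ^ b := by positivity
  unfold mv SqzPz_G SqzPz_F
  have hl : max |Int.fract ((3:ℝ) ^ b * t) - 1 / 2| r = max (lev b t) r := rfl
  rw [hl]
  set M := max (lev b t) r
  have hfl : (3:ℝ) ^ b * t = ⌊(3:ℝ) ^ b * t⌋ + Int.fract ((3:ℝ) ^ b * t) :=
    (Int.floor_add_fract _).symm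
  set v := Int.fract ((3:ℝ) ^ b * t) with hv
  have e1 : (3:ℝ) ^ b * (t + (v - 1 / 2) * (3 / 2 * (M - 1 / 6) / M - 1) / 3 ^ b) =
      3 ^ b * t + (v - 1 / 2) * (3 / 2 * (M - 1 / 6) / M - 1) := by
    field_simp
  rw [e1]
  have e2 : 3 / 2 * (M - 1 / 6) / M = 3 / 2 - 1 / (4 * M) := by
    field_simp
    ring
  rw [e2]
  have e3 : (3:ℝ) ^ b * t + (v - 1 / 2) * (3 / 2 - 1 / (4 * M) - 1) =
      (⌊(3:ℝ) ^ b * t⌋ + v) + (v - 1 / 2) * (3 / 2 - 1 / (4 * M) - 1) := by rw [← hfl]
  rw [e3]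
  ring

/-- profiles -/
noncomputable def SqzPz_hs (m : ℝ) : ℝ := max 0 (3 / 2 * (m - 1 / 6))

noncomputable def SqzPz_hi (m : ℝ) : ℝ := max 0 (2 / 3 * m + 1 / 6)

theorem pr_SqzPz (h1 : S_Lev) (h2 : S_Med) (h3 : S_MbFacts) (h4 : S_Radm) (h5 : S_Grid) :
    S_SqzPz := by
  intro n b hn
  obtain ⟨hcub, hsucc, hanti, hZM, hZmono, hZeq, hrbc, hrbb, -, -, -, -⟩ := h3 n hn
  obtain ⟨hR1, hR2, hR3, hR4, hR5⟩ := h4 n b hn
  have hM1 : ∀ x ∈ Mb n (b + 1), x ∈ Mb n b ∧ 1 / 6 ≤ rb n b x := by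
    intro x hx
    rw [hsucc b] at hx
    exact hx
  have hMc : ∀ x ∈ Mb n b, faceOf (3 ^ b) x ⊆ Mb n b := (hcub b).1
  -- the profiles
  have hs0 : ∀ m, 0 ≤ SqzPz_hs m := fun m => le_max_left _ _
  have hs1 : SqzPz_hs (1 / 2) = 1 / 2 := by unfold SqzPz_hs; norm_num
  have hs2 : ∀ m m', m ≤ m' → SqzPz_hs m ≤ SqzPz_hs m' := by
    intro m m' h
    unfold SqzPz_hs
    exact max_le_max le_rfl (by linarith)
  have hs3 : ∀ m, 1 / 6 ≤ m → SqzPz_hs m = 3 / 2 * (m - 1 / 6) := by
    intro m h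
    unfold SqzPz_hs
    exact max_eq_right (by linarith)
  have hi0 : ∀ m, 0 ≤ SqzPz_hi m := fun m => le_max_left _ _
  have hi1 : SqzPz_hi (1 / 2) = 1 / 2 := by unfold SqzPz_hi; norm_num
  have hi2 : ∀ m m', m ≤ m' → SqzPz_hi m ≤ SqzPz_hi m' := by
    intro m m' h
    unfold SqzPz_hi
    exact max_le_max le_rfl (by linarith)
  have hi3 : ∀ m, 0 ≤ m → SqzPz_hi m = 2 / 3 * m + 1 / 6 := by
    intro m h
    unfold SqzPz_hi
    exact max_eq_right (by linarith)
  have hsqz : ∀ x, 1 / 6 ≤ rb n b x → sqz n b x = radm n b SqzPz_hs x := by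
    intro x hx
    unfold sqz
    apply hR5
    intro m hm _
    rw [hs3 m (hx.trans hm)]
  have hfix : ∀ (h : ℝ → ℝ) (x : Cube (2 * n + 1)), h (1 / 2) = 1 / 2 → rb n b x = 1 / 2 →
      radm n b h x = x := by
    intro h x hh hx
    have e1 : radm n b h x = radm n b (fun m => m) x := by
      apply hR5
      intro m hm hm'
      rw [hx] at hm
      have : m = 1 / 2 := le_antisymm hm' hm
      rw [this, hh]
    rw [e1]
    apply hR3
    rw [hx]
    norm_num
  have hsface : ∀ x, 1 / 6 ≤ rb n b x → sqz n b x ∈ faceOf (3 ^ b) x ∧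
      rb n b (sqz n b x) = SqzPz_hs (rb n b x) := by
    intro x hx
    rw [hsqz x hx]
    obtain ⟨a1, a2, -⟩ := hR1 SqzPz_hs x (by linarith) hs0 hs1 (fun m m' _ h _ => hs2 m m' h)
    exact ⟨a1, a2⟩
  have hiface : ∀ x, 0 < rb n b x → radm n b SqzPz_hi x ∈ faceOf (3 ^ b) x ∧
      rb n b (radm n b SqzPz_hi x) = SqzPz_hi (rb n b x) := by
    intro x hx
    obtain ⟨a1, a2, -⟩ := hR1 SqzPz_hi x hx hi0 hi1 (fun m m' _ h _ => hi2 m m' h)
    exact ⟨a1, a2⟩
  have hpface : ∀ x, 0 < rb n b x → pz n b x ∈ faceOf (3 ^ b) x ∧ rb n b (pz n b x) = 1 / 2 := by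
    intro x hx
    obtain ⟨a1, a2, -⟩ := hR1 (fun _ => 1 / 2) x hx (fun _ => by norm_num) rfl
      (fun m m' _ h _ => le_rfl)
    exact ⟨a1, a2⟩
  refine ⟨⟨?_, ?_, ?_, ?_, ?_⟩, ⟨?_, ?_, ?_, ?_⟩, ?_⟩
  · -- continuity of sqz
    have := hR4 (Cube (2 * n + 1)) (Mb n (b + 1)) (fun x => x)
      (fun _ m => 3 / 2 * (m - 1 / 6)) continuousOn_id
      (fun x hx => by have := (hM1 x hx).2; linarith) (by fun_prop)
      (fun _ _ => by norm_num)
    exact this
  · intro x hx
    obtain ⟨a1, a2⟩ := hM1 x hx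
    exact hMc x a1 (hsface x a2).1
  · intro x hx
    exact (hsface x (hM1 x hx).2).1
  · -- Lipschitz estimate
    intro x hx y hy
    obtain ⟨-, hrx⟩ := hM1 x hx
    obtain ⟨-, hry⟩ := hM1 y hy
    have hrx2 := (hrbb b x).2
    have hry2 := (hrbb b y).2
    have hB : (0 : ℝ) < 3 ^ b := by positivity
    obtain ⟨-, -, hlip, -⟩ := h1
    obtain ⟨-, -, -, hmed, -⟩ := h2 n (2 * n + 1) (by omega)
    have hco : ∀ i, |((x i : unitInterval) : ℝ) - (y i : ℝ)| ≤ dist x y := by
      intro i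
      have := dist_le_pi_dist x y i
      rwa [Subtype.dist_eq, Real.dist_eq] at this
    have hrb : |rb n b x - rb n b y| ≤ 3 ^ b * dist x y := by
      apply hmed
      intro i
      exact (hlip b _ _).trans (mul_le_mul_of_nonneg_left (hco i) hB.le)
    rw [dist_pi_le_iff (by positivity)]
    intro i
    have e1 : dist (sqz n b x i) (sqz n b y i) ≤
        |mv b (3 / 2 * (max (lev b (x i)) (rb n b x) - 1 / 6) / max (lev b (x i)) (rb n b x)) (x i) -
          mv b (3 / 2 * (max (lev b (y i)) (rb n b y) - 1 / 6) / max (lev b (y i)) (rb n b y))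
            (y i)| := by
      have h := (LipschitzWith.projIcc (zero_le_one (α := ℝ))).dist_le_mul
        (mv b (3 / 2 * (max (lev b (x i)) (rb n b x) - 1 / 6) / max (lev b (x i)) (rb n b x)) (x i))
        (mv b (3 / 2 * (max (lev b (y i)) (rb n b y) - 1 / 6) / max (lev b (y i)) (rb n b y)) (y i))
      rw [NNReal.coe_one, one_mul, Real.dist_eq] at h
      exact h
    refine e1.trans ?_
    have e2 := SqzPz_G_lip (T := 3 ^ b * (y i : ℝ)) (T' := 3 ^ b * (x i : ℝ)) (d := 3 ^ b * dist x y)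
      hry hrx hry2 hrx2 (by
        rw [← mul_sub, abs_mul, abs_of_pos hB]
        exact mul_le_mul_of_nonneg_left (hco i) hB.le) hrb
    rw [← SqzPz_mv b _ _ (by linarith), ← SqzPz_mv b _ _ (by linarith), ← mul_sub, abs_mul,
      abs_of_pos hB] at e2
    have e3 : (3:ℝ) ^ b * |mv b (3 / 2 * (max (lev b (x i)) (rb n b x) - 1 / 6) /
          max (lev b (x i)) (rb n b x)) (x i) -
          mv b (3 / 2 * (max (lev b (y i)) (rb n b y) - 1 / 6) / max (lev b (y i)) (rb n b y))
            (y i)| ≤ 3 ^ b * (3 / 2 * dist x y) := by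
      refine e2.trans (le_of_eq ?_)
      ring
    exact le_of_mul_le_mul_left e3 hB
  · intro c hc x hx
    have hx' := hZmono c b hc hx
    rw [hZeq b] at hx'
    have hr : rb n b x = 1 / 2 := hx'.2
    exact hfix _ x (by norm_num) hr
  · -- pz
    have := hR4 (Cube (2 * n + 1)) (Mb n (b + 1)) (fun x => x)
      (fun _ _ => 1 / 2) continuousOn_id
      (fun x hx => by have := (hM1 x hx).2; linarith) (by fun_prop)
      (fun _ _ => rfl)
    exact this
  · intro x hx
    obtain ⟨a1, a2⟩ := hM1 x hx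
    obtain ⟨b1, b2⟩ := hpface x (by linarith)
    rw [hZeq b]
    exact ⟨hMc x a1 b1, b2⟩
  · intro x hx
    exact (hpface x (by have := (hM1 x hx).2; linarith)).1
  · intro x hx
    rw [hZeq b] at hx
    exact hfix _ x rfl hx.2
  · refine ⟨radm n b SqzPz_hi, ?_, ?_, ?_⟩
    · have := hR4 (Cube (2 * n + 1)) (Mb n b ∩ {x | 0 < rb n b x}) (fun x => x)
        (fun _ => SqzPz_hi) continuousOn_id (fun x hx => hx.2)
        (by unfold SqzPz_hi; fun_prop) (fun _ _ => hi1)
      exact this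
    · intro x hx hr
      obtain ⟨a1, a2⟩ := hiface x hr
      rw [hi3 _ hr.le] at a2
      have a3 : 1 / 6 < rb n b (radm n b SqzPz_hi x) := by rw [a2]; linarith
      refine ⟨?_, a3, ?_⟩
      · rw [hsucc b]
        exact ⟨hMc x hx a1, a3.le⟩
      · rw [hsqz _ a3.le]
        rw [hR2 SqzPz_hi SqzPz_hs x hr hi0 hi1 (fun m m' _ h _ => hi2 m m' h) hs0 hs1
          (by rw [hi3 _ hr.le]; linarith) (fun m m' _ h _ => hs2 m m' h)]
        have e1 : radm n b (fun m => SqzPz_hs (SqzPz_hi m)) x = radm n b (fun m => m) x := by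
          apply hR5
          intro m hm _
          have hm0 : 0 ≤ m := hr.le.trans hm
          rw [hi3 m hm0, hs3 _ (by linarith)]
          ring
        rw [e1]
        exact hR3 x hr
    · intro x hx hr
      obtain ⟨a1, a2⟩ := hsface x hr.le
      rw [hs3 _ hr.le] at a2
      refine ⟨by rw [a2]; linarith, ?_⟩
      rw [hsqz _ hr.le]
      rw [hR2 SqzPz_hs SqzPz_hi x (by linarith) hs0 hs1 (fun m m' _ h _ => hs2 m m' h) hi0 hi1
          (by rw [hs3 _ hr.le]; linarith) (fun m m' _ h _ => hi2 m m' h)]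
      have e1 : radm n b (fun m => SqzPz_hi (SqzPz_hs m)) x = radm n b (fun m => m) x := by
        apply hR5
        intro m hm _
        have hm6 : 1 / 6 ≤ m := hr.le.trans hm
        rw [hs3 m hm6, hi3 _ (by linarith)]
        ring
      rw [e1]
      exact hR3 x (by linarith)

end M202

end

section

/-!
MP_202a65_gt (captain helper47): statements of wave 3 (the tower engine).
-/

open Set Topology unitInterval Filter

namespace M202

/-- T1: composition with a fine soft map -/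
def S_F1 : Prop :=
  ∀ (n : ℕ) (c : TCtx n) (C C1 : Type) [TopologicalSpace C] [TopologicalSpace C1]
    (q : C → c.Y) (q1 : C1 → c.Y) (u : C → C1) (ph : c.X c.b0 → C) (eps e1 : ℝ),
    Continuous u → FineSoft n u → (∀ z, c.dY (q1 (u z)) (q z) ≤ e1) →
    FF c q ph eps → FF c q1 (fun x => u (ph x)) (eps + e1)

/-- T2: lifting of maps of cubes, spheres, points -/
def S_BLift : Prop :=
  ∀ n : ℕ, (∀ k, k ≤ n → BLift n (Cube k)) ∧ BLift n (↥(bd (n + 1))) ∧ BLift n Unit

/-- T3: the adjunction of a family of N+1 copies of T1 is obtained by first attaching N of them -/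
def S_AdjSplit : Prop :=
  ∀ (N : ℕ) (C T1 Z : Type) [TopologicalSpace C] [CompactSpace C] [T2Space C]
    [TopologicalSpace T1] [CompactSpace T1] [T2Space T1] [TopologicalSpace Z] [CompactSpace Z]
    [T2Space Z] (A1 : Set T1) (ph : Fin (N + 1) × T1 → C) (i : C → Z)
    (j : Fin (N + 1) × T1 → Z), IsAdj {p : Fin (N + 1) × T1 | p.2 ∈ A1} ph i j →
    ∃ (C' : Type) (_ : TopologicalSpace C') (_ : CompactSpace C') (_ : T2Space C')
      (i' : C → C') (j' : Fin N × T1 → C') (i'' : C' → Z) (j'' : T1 → Z),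
      IsAdj {p : Fin N × T1 | p.2 ∈ A1} (fun p => ph (p.1.castSucc, p.2)) i' j' ∧
      IsAdj A1 (fun t => i' (ph (Fin.last N, t))) i'' j'' ∧ (∀ c, i'' (i' c) = i c) ∧
      (∀ l t, i'' (j' (l, t)) = j (l.castSucc, t)) ∧ (∀ t, j'' t = j (Fin.last N, t))

/-- T4: attaching cells as adjunction spaces -/
def S_AttAdj : Prop :=
  ∀ (R : Type) [TopologicalSpace R] [CompactSpace R] [T2Space R] (C C1 : Set R) (k N : ℕ)
    (e : Fin N → Cube k → R) (hC : C.Nonempty), Att C C1 k N e →
    ∃ (hs : C ⊆ C1) (ph : Fin N × Cube k → ↥C) (j : Fin N × Cube k → ↥C1),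
      IsClosed C1 ∧ IsAdj {p : Fin N × Cube k | p.2 ∈ bd k} ph (Set.inclusion hs) j ∧
      (∀ p, (j p : R) = e p.1 p.2) ∧ (∀ p : Fin N × Cube k, p.2 ∈ bd k → (ph p : R) = e p.1 p.2)

/-- T5: attaching (T,A) along a map which factors through B -/
def S_F2 : Prop :=
  ∀ (n : ℕ) (c : TCtx n) (C T B Z : Type) [TopologicalSpace C] [CompactSpace C] [T2Space C]
    [TopologicalSpace T] [CompactSpace T] [T2Space T] [TopologicalSpace B] [CompactSpace B]
    [T2Space B] [TopologicalSpace Z] [CompactSpace Z] [T2Space Z] (A : Set T) (cc : A × I → T)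
    (pr : T → B) (g : B → C) (i : C → Z) (j : T → Z) (ka : Z → C) (q : C → c.Y)
    (ph : c.X c.b0 → C) (eps : ℝ),
    TP n c.X c.s T B A pr → BLift n B → IsClosed A → IsCollar A cc → Continuous pr →
    (∀ a t, pr (cc (a, t)) = pr a) → Continuous g → (∀ y, ∀ x ∈ c.F, g y ≠ ph x) →
    IsAdj A (fun t => g (pr t)) i j → Continuous ka → (∀ x, ka (i x) = x) →
    (∀ t, ka (j t) = g (pr t)) → Continuous q → ContinuousOn ph c.F →
    FF c q ph eps → FF c (fun z => q (ka z)) (fun x => i (ph x)) eps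

/-- T6: finite families of spheres S^n attached at points -/
def S_F3fam : Prop :=
  ∀ (n N : ℕ) (c : TCtx n) (C Z : Type) [TopologicalSpace C] [CompactSpace C] [T2Space C]
    [TopologicalSpace Z] [CompactSpace Z] [T2Space Z] (x0 : Fin N → C) (i : C → Z)
    (j : Fin N × Cube n → Z) (ka : Z → C) (q : C → c.Y) (ph : c.X c.b0 → C) (eps : ℝ),
    1 ≤ n → (∀ l, ∀ x ∈ c.F, x0 l ≠ ph x) →
    IsAdj {p : Fin N × Cube n | p.2 ∈ bd n} (fun p => x0 p.1) i j → Continuous ka →
    (∀ x, ka (i x) = x) → (∀ p, ka (j p) = x0 p.1) → Continuous q → ContinuousOn ph c.F →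
    FF c q ph eps → FF c (fun z => q (ka z)) (fun x => i (ph x)) eps

/-- T7: finite families of cylinders over the sphere bd (n+1) -/
def S_F6fam : Prop :=
  ∀ (n N : ℕ) (c : TCtx n) (C Z : Type) [TopologicalSpace C] [CompactSpace C] [T2Space C]
    [TopologicalSpace Z] [CompactSpace Z] [T2Space Z] (g : Fin N × ↥(bd (n + 1)) → C) (i : C → Z)
    (j : Fin N × (↥(bd (n + 1)) × I) → Z) (ka : Z → C) (q : C → c.Y) (ph : c.X c.b0 → C)
    (eps : ℝ), 1 ≤ n → Continuous g → (∀ y, ∀ x ∈ c.F, g y ≠ ph x) →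
    IsAdj {p : Fin N × (↥(bd (n + 1)) × I) | p.2 ∈ {p : ↥(bd (n + 1)) × I | p.2 = 0}}
      (fun p => g (p.1, p.2.1)) i j → Continuous ka →
    (∀ x, ka (i x) = x) → (∀ p, ka (j p) = g (p.1, p.2.1)) → Continuous q →
    ContinuousOn ph c.F →
    FF c q ph eps → FF c (fun z => q (ka z)) (fun x => i (ph x)) eps

/-- T8: finite families of reduced lenses over maps rho l : Cube k → C, k ≤ n -/
def S_F4fam : Prop :=
  ∀ (n k N : ℕ) (c : TCtx n) (C Z : Type) [TopologicalSpace C] [CompactSpace C] [T2Space C]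
    [TopologicalSpace Z] [CompactSpace Z] [T2Space Z] (rho : Fin N × Cube k → C) (i : C → Z)
    (j : Fin N × (Cube k × I) → Z) (ka : Z → C) (q : C → c.Y) (ph : c.X c.b0 → C)
    (eps : ℝ), 1 ≤ n → k ≤ n → Continuous rho → (∀ y, ∀ x ∈ c.F, rho y ≠ ph x) →
    IsAdj {p : Fin N × (Cube k × I) | p.2 ∈ {p : Cube k × I | p.2 = 0 ∨ p.1 ∈ bd k}}
      (fun p => rho (p.1, p.2.1)) i j → Continuous ka →
    (∀ x, ka (i x) = x) → (∀ p, ka (j p) = rho (p.1, p.2.1)) → Continuous q →
    ContinuousOn ph c.F →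
    FF c q ph eps → FF c (fun z => q (ka z)) (fun x => i (ph x)) eps

/-- T9: the collapse of a cylinder to the reduced lens is fine soft -/
def S_LensCollapse : Prop :=
  ∀ (n k : ℕ) (C Z Z1 : Type) [TopologicalSpace C] [CompactSpace C] [T2Space C]
    [TopologicalSpace Z] [CompactSpace Z] [T2Space Z] [TopologicalSpace Z1] [CompactSpace Z1]
    [T2Space Z1] (rho : Cube k → C) (i : C → Z) (j : Cube k × I → Z) (i1 : C → Z1)
    (j1 : Cube k × I → Z1) (u : Z1 → Z), Continuous rho →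
    IsAdj {p : Cube k × I | p.2 = 0 ∨ p.1 ∈ bd k} (fun p => rho p.1) i j →
    IsAdj {p : Cube k × I | p.2 = 0} (fun p => rho p.1) i1 j1 → Continuous u →
    (∀ x, u (i1 x) = i x) → (∀ p, u (j1 p) = j p) → FineSoft n u

/-- T10: existence of the radial map v -/
def S_V : Prop := ∀ k : ℕ, 1 ≤ k → ∃ v : Cube k × I → Cube k × I, IsV k v

/-- T11: (n+1)-cells Cube n × I attached along their sides -/
def S_F5a : Prop :=
  ∀ (n N : ℕ) (c : TCtx n) (C Z : Type) [TopologicalSpace C] [CompactSpace C] [T2Space C]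
    [TopologicalSpace Z] [CompactSpace Z] [T2Space Z] (rho : Fin N × Cube n → C)
    (ph' : Fin N × (Cube n × I) → C) (i : C → Z) (V : Fin N × (Cube n × I) → Z) (q : C → c.Y)
    (ph : c.X c.b0 → C) (eps : ℝ), 1 ≤ n → Continuous rho → (∀ y, ∀ x ∈ c.F, rho y ≠ ph x) →
    IsAdj {p : Fin N × (Cube n × I) | p.2.1 ∈ bd n} ph' i V →
    (∀ (l : Fin N) (y z : Cube n) (h : I), y ∈ bd n →
      (∀ m, (z m : ℝ) - 1 / 2 = (h : ℝ) * ((y m : ℝ) - 1 / 2)) → ph' (l, (y, h)) = rho (l, z)) →
    Continuous q → ContinuousOn ph c.F → FF c q ph eps →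
    ∃ ka : Z → C, Continuous ka ∧ (∀ x, ka (i x) = x) ∧
      (∀ l p, ∃ y, ka (V (l, p)) = rho (l, y)) ∧
      FF c (fun z => q (ka z)) (fun x => i (ph x)) eps

/-- T12: attaching n-cells whose attaching maps extend to maps rho l : Cube n → C -/
def S_F5 : Prop :=
  ∀ (n N : ℕ) (c : TCtx n) (C C1 : Type) [TopologicalSpace C] [CompactSpace C] [T2Space C]
    [TopologicalSpace C1] [CompactSpace C1] [T2Space C1] (rho ph' : Fin N × Cube n → C)
    (i : C → C1) (j : Fin N × Cube n → C1) (q1 : C1 → c.Y) (ph : c.X c.b0 → C) (eps e1 : ℝ),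
    1 ≤ n → Continuous rho → (∀ y, ∀ x ∈ c.F, rho y ≠ ph x) →
    IsAdj {p : Fin N × Cube n | p.2 ∈ bd n} ph' i j →
    (∀ l, ∀ y ∈ bd n, ph' (l, y) = rho (l, y)) → Continuous q1 → ContinuousOn ph c.F → 0 ≤ e1 →
    (∀ l y y', c.dY (q1 (j (l, y))) (q1 (i (rho (l, y')))) ≤ e1) →
    (∀ l y y', c.dY (q1 (i (rho (l, y)))) (q1 (i (rho (l, y')))) ≤ e1) →
    FF c (fun z => q1 (i z)) ph eps → FF c q1 (fun x => i (ph x)) (eps + e1)

/-- T13: collapsing the end spheres of cylinders to the centres of (n+1)-cells is fine soft -/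
def S_SphCollapse : Prop :=
  ∀ (n N : ℕ) (C C1 Cp : Type) [TopologicalSpace C] [CompactSpace C] [T2Space C]
    [TopologicalSpace C1] [CompactSpace C1] [T2Space C1] [TopologicalSpace Cp] [CompactSpace Cp]
    [T2Space Cp] (ph' : Fin N × Cube (n + 1) → C) (i : C → C1) (j : Fin N × Cube (n + 1) → C1)
    (ip : C → Cp) (jp : Fin N × (↥(bd (n + 1)) × I) → Cp) (u : Cp → C1), Nonempty C →
    IsAdj {p : Fin N × Cube (n + 1) | p.2 ∈ bd (n + 1)} ph' i j →
    IsAdj {p : Fin N × (↥(bd (n + 1)) × I) | p.2 ∈ {p : ↥(bd (n + 1)) × I | p.2 = 0}}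
      (fun p => ph' (p.1, (p.2.1 : Cube (n + 1)))) ip jp →
    Continuous u → (∀ x, u (ip x) = i x) →
    (∀ l (a : ↥(bd (n + 1))) (t : I) (z : Cube (n + 1)),
      (∀ m, (z m : ℝ) - 1 / 2 = (1 - (t : ℝ)) * (((a : Cube (n + 1)) m : ℝ) - 1 / 2)) →
      u (jp (l, (a, t))) = j (l, z)) → FineSoft n u

/-- T14: attaching (n+1)-cells -/
def S_F6 : Prop :=
  ∀ (n N : ℕ) (c : TCtx n) (C C1 : Type) [TopologicalSpace C] [CompactSpace C] [T2Space C]
    [TopologicalSpace C1] [CompactSpace C1] [T2Space C1] (ph' : Fin N × Cube (n + 1) → C)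
    (i : C → C1) (j : Fin N × Cube (n + 1) → C1) (q1 : C1 → c.Y) (ph : c.X c.b0 → C)
    (eps e1 : ℝ), 1 ≤ n → Nonempty C →
    (∀ l, ∀ y ∈ bd (n + 1), ∀ x ∈ c.F, ph' (l, y) ≠ ph x) →
    IsAdj {p : Fin N × Cube (n + 1) | p.2 ∈ bd (n + 1)} ph' i j →
    Continuous q1 → ContinuousOn ph c.F → 0 ≤ e1 →
    (∀ l y y', c.dY (q1 (j (l, y))) (q1 (j (l, y'))) ≤ e1) →
    FF c (fun z => q1 (i z)) ph eps → FF c q1 (fun x => i (ph x)) (eps + e1)

/-- T15: softness extends over cells of dimension at least n -/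
def S_SoftExt : Prop :=
  ∀ (n k N : ℕ) (R Y : Type) [TopologicalSpace R] [CompactSpace R] [T2Space R]
    [TopologicalSpace Y] (dY : Y → Y → ℝ) (C C1 : Set R) (e : Fin N → Cube k → R) (q : R → Y)
    (de : ℝ), 1 ≤ n → n ≤ k → IsCPM dY → Continuous q → Att C C1 k N e → 0 ≤ de →
    (∀ l y y', dY (q (e l y)) (q (e l y')) ≤ de) → Soft n dY de (fun z : ↥C => q z) →
    Soft n dY (2 * de) (fun z : ↥C1 => q z)

/-- T16: transporting relative complexes into a bigger space -/
def S_RCUnion : Prop :=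
  ∀ (R R' : Type) [TopologicalSpace R] [CompactSpace R] [T2Space R] [TopologicalSpace R']
    [CompactSpace R'] [T2Space R'] (i : R → R') (P : Set R → Prop) (P' : Set R' → Prop)
    (C C2 : Set R) (V : Set R') (ka : List ℕ),
    Continuous i → Function.Injective i → IsClosed V → (∀ z, i z ∈ V → z ∈ C) →
    (∀ e, P e → P' (i '' e)) → RC P C ka C2 → RC P' (V ∪ i '' C) ka (V ∪ i '' C2)

/-- T17: appending a last stage, and monotonicity of relative complexes -/
def S_RCAppend : Prop :=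
  (∀ (R : Type) [TopologicalSpace R] (P : Set R → Prop) (C C1 C2 : Set R) (ka ka' : List ℕ),
    RC P C ka C1 → RC P C1 ka' C2 → RC P C (ka ++ ka') C2) ∧
  (∀ (R : Type) [TopologicalSpace R] (P P' : Set R → Prop) (C C2 : Set R) (ka : List ℕ),
    (∀ e, P e → P' e) → RC P C ka C2 → RC P' C ka C2) ∧
  (∀ (R : Type) [TopologicalSpace R] (P : Set R → Prop) (C C2 : Set R) (ka : List ℕ),
    RC P C ka C2 → IsClosed C ∧ C ⊆ C2)

/-- T18: first stage of dimension n -/
def S_Tn : Prop :=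
  ∀ (n : ℕ) (ka : List ℕ) (K : ℝ), 1 ≤ n → 1 ≤ K → TConcl n ka K → TConcl n (n :: ka) (8 * K + 8)

/-- T19: first stage of dimension n+1 -/
def S_Tn1 : Prop :=
  ∀ (n : ℕ) (ka : List ℕ) (K : ℝ), 1 ≤ n → 1 ≤ K → TConcl n ka K →
    TConcl n ((n + 1) :: ka) (8 * K + 8)

/-- T20: the trade -/
def S_Ttrade : Prop :=
  ∀ (n k : ℕ) (ka : List ℕ) (K : ℝ), 1 ≤ n → k + 1 ≤ n → 1 ≤ K → TConcl n (ka ++ [k + 2]) K →
    TConcl n (k :: ka) (20 * K + 20)

/-- T21: the T-theorem -/
def S_T : Prop :=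
  ∀ (n : ℕ) (ka : List ℕ), 1 ≤ n → (∀ k ∈ ka, k ≤ n + 1) → ∃ K : ℝ, 1 ≤ K ∧ TConcl n ka K

end M202

end
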