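import Mathlib

/-! Bundle of small proof modules (one section per former module). -/

section

/-!
MP_202a65_gt (captain helper47): definitions shared by all items.
-/

open Set Topology unitInterval

namespace M202

/-- the cube I^m (sup metric) -/
abbrev Cube (m : ℕ) : Type := Fin m → unitInterval

/-- the boundary of the cube (empty for m = 0) -/
def bd (m : ℕ) : Set (Cube m) := {y | ∃ i, y i = 0 ∨ y i = 1}

/-- the centre of the cube -/
noncomputable def ctr (m : ℕ) : Cube m := fun _ => ⟨1 / 2, by norm_num, by norm_num⟩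

/-- continuous pseudometric on a space -/
structure IsCPM {B : Type} [TopologicalSpace B] (D : B → B → ℝ) : Prop where
  self : ∀ x, D x x = 0
  symm : ∀ x y, D x y = D y x
  tri : ∀ x y z, D x z ≤ D x y + D y z
  cont : Continuous (fun p : B × B => D p.1 p.2)

/-- Relative lifting property of the pair (W,S) (subsets of L, usually S ⊆ W) for the map th : A → B,
with tracks controlled by the pseudometric D: a map be on W, a partial lift al on S together with
a homotopy ga from th ∘ al to be on S with tracks ≤ ze extends to a lift on W, up to a homotopy G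
with tracks ≤ ze + eta which extends ga. -/
def LiftOn {L A B : Type} [TopologicalSpace L] [TopologicalSpace A] [TopologicalSpace B]
    (W S : Set L) (th : A → B) (D : B → B → ℝ) (eta : ℝ) : Prop :=
  ∀ (ze : ℝ) (be : L → B) (al : L → A) (ga : I × L → B),
    0 ≤ ze → ContinuousOn be W → ContinuousOn al S → ContinuousOn ga (univ ×ˢ S) →
    (∀ x ∈ S, ga (0, x) = th (al x)) → (∀ x ∈ S, ga (1, x) = be x) →
    (∀ t, ∀ x ∈ S, D (ga (t, x)) (be x) ≤ ze) →
    ∃ (al' : L → A) (G : I × L → B),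
      ContinuousOn al' W ∧ ContinuousOn G (univ ×ˢ W) ∧
      (∀ x ∈ S, al' x = al x) ∧ (∀ t, ∀ x ∈ S, G (t, x) = ga (t, x)) ∧
      (∀ x ∈ W, G (0, x) = th (al' x)) ∧ (∀ x ∈ W, G (1, x) = be x) ∧
      (∀ t, ∀ x ∈ W, D (G (t, x)) (be x) ≤ ze + eta)

/-- th : A → B is n-soft with error eta with respect to D (closed version: every eta' > eta) -/
def Soft {A B : Type} [TopologicalSpace A] [TopologicalSpace B]
    (n : ℕ) (D : B → B → ℝ) (eta : ℝ) (th : A → B) : Prop :=
  ∀ m, m ≤ n → ∀ eta', eta < eta' → LiftOn (univ : Set (Cube m)) (bd m) th D eta'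

/-- the same with the homotopy rel boundary -/
def RelSoft {A B : Type} [TopologicalSpace A] [TopologicalSpace B]
    (n : ℕ) (D : B → B → ℝ) (eta : ℝ) (th : A → B) : Prop :=
  ∀ m, m ≤ n → ∀ eta', eta < eta' → ∀ (be : Cube m → B) (al : Cube m → A),
    Continuous be → ContinuousOn al (bd m) → (∀ x ∈ bd m, th (al x) = be x) →
    ∃ (al' : Cube m → A) (G : I × Cube m → B),
      Continuous al' ∧ Continuous G ∧ (∀ x ∈ bd m, al' x = al x) ∧
      (∀ t, ∀ x ∈ bd m, G (t, x) = be x) ∧
      (∀ x, G (0, x) = th (al' x)) ∧ (∀ x, G (1, x) = be x) ∧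
      (∀ t x, D (G (t, x)) (be x) ≤ eta')

/-- th is n-soft for every control -/
def FineSoft {A B : Type} [TopologicalSpace A] [TopologicalSpace B]
    (n : ℕ) (th : A → B) : Prop :=
  ∀ D : B → B → ℝ, IsCPM D → Soft n D 0 th

/-- C1 is obtained from the closed set C ⊆ R by attaching finitely many k-cells with characteristic
maps e j -/
structure Att {R : Type} [TopologicalSpace R] (C C1 : Set R) (k N : ℕ)
    (e : Fin N → Cube k → R) : Prop where
  closed : IsClosed C
  cont : ∀ j, Continuous (e j)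
  bdry : ∀ j, ∀ y ∈ bd k, e j y ∈ C
  inj : ∀ j j' y y', y ∉ bd k → y' ∉ bd k → e j y = e j' y' → j = j' ∧ y = y'
  disj : ∀ j y, y ∉ bd k → e j y ∉ C
  union : C1 = C ∪ ⋃ j, range (e j)

/-- relative cube complex in R, from C to C2, of type ka (the list of the dimensions of the cells
attached in the successive stages); P is a predicate which all closed cells satisfy -/
inductive RC {R : Type} [TopologicalSpace R] (P : Set R → Prop) :
    Set R → List ℕ → Set R → Prop
  | nil (C : Set R) : IsClosed C → RC P C [] C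
  | cons (C C1 C2 : Set R) (k : ℕ) (ka : List ℕ) (N : ℕ) (e : Fin N → Cube k → R) :
      Att C C1 k N e → (∀ j, P (range (e j))) → RC P C1 ka C2 → RC P C (k :: ka) C2

/-- Z is the adjunction space C ∪_ph T, where T is attached along A by ph (only the values of ph
on A matter) -/
structure IsAdj {C T Z : Type} [TopologicalSpace C] [TopologicalSpace T] [TopologicalSpace Z]
    (A : Set T) (ph : T → C) (i : C → Z) (j : T → Z) : Prop where
  closed : IsClosed A
  contph : ContinuousOn ph A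
  conti : Continuous i
  contj : Continuous j
  inji : Function.Injective i
  agree : ∀ t ∈ A, j t = i (ph t)
  injj : InjOn j Aᶜ
  disj : ∀ t, t ∉ A → ∀ c, j t ≠ i c
  surj : ∀ z, (∃ c, i c = z) ∨ ∃ t, j t = z

/-- c is a collar of A in T -/
structure IsCollar {T : Type} [TopologicalSpace T] (A : Set T) (c : A × I → T) : Prop where
  cont : Continuous c
  inj : Function.Injective c
  zero : ∀ a, c (a, 0) = a
  isOpen : IsOpen (c '' {p | p.2 < 1})

/-- the coordinate s is a vertex of the grid of mesh 1/L -/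
def IsGrid (L : ℕ) (s : unitInterval) : Prop := ∃ k : ℤ, (L : ℝ) * (s : ℝ) = k

/-- the closed face of the grid of mesh 1/L spanned by x: all y with
⌊L x i⌋ ≤ L y i ≤ ⌈L x i⌉ for all i -/
def faceOf (L : ℕ) {N : ℕ} (x : Cube N) : Set (Cube N) :=
  {y | ∀ i, (⌊(L : ℝ) * (x i : ℝ)⌋ : ℝ) ≤ (L : ℝ) * (y i : ℝ) ∧
    (L : ℝ) * (y i : ℝ) ≤ (⌈(L : ℝ) * (x i : ℝ)⌉ : ℝ)}

/-- W is a union of faces of the grid of mesh 1/L -/
def Cubical (L : ℕ) {N : ℕ} (W : Set (Cube N)) : Prop := ∀ x ∈ W, faceOf L x ⊆ W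

/-- the j-skeleton of the grid of mesh 1/L: at most j coordinates are not vertices -/
def skel (L : ℕ) {N : ℕ} (j : ℕ) : Set (Cube N) := {x | {i | ¬ IsGrid L (x i)}.ncard ≤ j}

end M202

end

section

/-!
MP_202a65_gt (captain helper47): definitions for wave 2 (geometry of the stages of the Menger
compactum) and the abstract towers.
-/

open Set Topology unitInterval

namespace M202

/-- |fract(3^b t) - 1/2|: distance of the level-b coordinate from the centre of its interval -/
noncomputable def lev (b : ℕ) (t : ℝ) : ℝ := |Int.fract ((3 : ℝ) ^ b * t) - 1 / 2|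

/-- the b-th stage M_b of the construction of the Menger compactum mu^n, inside I^(2n+1):
for every j < b at most n coordinates lie in open middle thirds of level j -/
def Mb (n b : ℕ) : Set (Cube (2 * n + 1)) :=
  {x | ∀ j, j < b → {i | lev j (x i) < 1 / 6}.ncard ≤ n}

/-- the (n+1)-st smallest entry of the vector a -/
noncomputable def med (n : ℕ) {N : ℕ} (a : Fin N → ℝ) : ℝ :=
  sInf {r : ℝ | n + 1 ≤ {i | a i ≤ r}.ncard}

/-- r_b(x) = (n+1)-st smallest of the numbers lev b (x i) -/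
noncomputable def rb (n b : ℕ) (x : Cube (2 * n + 1)) : ℝ := med n (fun i => lev b (x i))

/-- the n-skeleton Z_b of M_b -/
def Zb (n b : ℕ) : Set (Cube (2 * n + 1)) := Mb n b ∩ skel (3 ^ b) n

/-- the Menger compactum mu^n, in the cube -/
def Mu (n : ℕ) : Set (Cube (2 * n + 1)) := ⋂ b, Mb n b

/-- multiply the centred level-b coordinate by k -/
noncomputable def mv (b : ℕ) (k t : ℝ) : ℝ :=
  t + (Int.fract ((3 : ℝ) ^ b * t) - 1 / 2) * (k - 1) / 3 ^ b

/-- radial map of level b with profile h: with m i = max (lev b (x i)) (r_b x), the i-th centred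
coordinate is multiplied by h (m i) / m i -/
noncomputable def radm (n b : ℕ) (h : ℝ → ℝ) (x : Cube (2 * n + 1)) : Cube (2 * n + 1) :=
  fun i => Set.projIcc (0 : ℝ) 1 zero_le_one
    (mv b (h (max (lev b (x i)) (rb n b x)) / max (lev b (x i)) (rb n b x)) (x i))

/-- the squeeze M_(b+1) -> M_b -/
noncomputable def sqz (n b : ℕ) : Cube (2 * n + 1) → Cube (2 * n + 1) :=
  radm n b (fun m => 3 / 2 * (m - 1 / 6))

/-- the retraction M_(b+1) -> Z_b -/
noncomputable def pz (n b : ℕ) : Cube (2 * n + 1) → Cube (2 * n + 1) :=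
  radm n b (fun _ => 1 / 2)

/-- composition of k squeezes: M_(b+k) -> M_b -/
noncomputable def sgk (n b : ℕ) : ℕ → Cube (2 * n + 1) → Cube (2 * n + 1)
  | 0 => id
  | k + 1 => fun x => sgk n b k (sqz n (b + k) x)

/-- M_b' -> M_b for b ≤ b' -/
noncomputable def sg (n b b' : ℕ) : Cube (2 * n + 1) → Cube (2 * n + 1) := sgk n b (b' - b)

/-- the space M_b -/
abbrev XM (n b : ℕ) : Type := ↥(Mb n b)

/-- the space Z_b -/
abbrev ZM (n b : ℕ) : Type := ↥(Zb n b)

/-- the space mu -/
abbrev UM (n : ℕ) : Type := ↥(Mu n)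

theorem lev_zero (j : ℕ) : lev j 0 = 1 / 2 := by
  simp [lev]

theorem zero_mem_Mb (n b : ℕ) : (0 : Cube (2 * n + 1)) ∈ Mb n b := by
  intro j _
  have : {i : Fin (2 * n + 1) | lev j (((0 : Cube (2 * n + 1)) i : unitInterval) : ℝ) < 1 / 6} = ∅ := by
    ext i
    simp only [mem_ofPred_eq, mem_empty_iff_false, iff_false, not_lt]
    have : (((0 : Cube (2 * n + 1)) i : unitInterval) : ℝ) = 0 := rfl
    rw [this, lev_zero]; norm_num
  rw [this]; simp

theorem zero_mem_Zb (n b : ℕ) : (0 : Cube (2 * n + 1)) ∈ Zb n b := by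
  refine ⟨zero_mem_Mb n b, ?_⟩
  have : {i : Fin (2 * n + 1) | ¬ IsGrid (3 ^ b) ((0 : Cube (2 * n + 1)) i)} = ∅ := by
    ext i
    simp only [mem_ofPred_eq, mem_empty_iff_false, iff_false, not_not]
    exact ⟨0, by simp⟩
  simp only [skel, mem_ofPred_eq]
  rw [this]; simp

open Classical in
/-- y as a point of M_b (0 if y is not in M_b) -/
noncomputable def toM (n b : ℕ) (y : Cube (2 * n + 1)) : XM n b :=
  if h : y ∈ Mb n b then ⟨y, h⟩ else ⟨0, zero_mem_Mb n b⟩

open Classical in
/-- y as a point of Z_b -/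
noncomputable def toZ (n b : ℕ) (y : Cube (2 * n + 1)) : ZM n b :=
  if h : y ∈ Zb n b then ⟨y, h⟩ else ⟨0, zero_mem_Zb n b⟩

/-- the bonding maps M_b' -> M_b (b ≤ b') -/
noncomputable def sM (n b b' : ℕ) (x : XM n b') : XM n b := toM n b (sg n b b' x)

/-- the retraction M_(b+1) -> Z_b as a map of spaces -/
noncomputable def pZ (n b : ℕ) (x : XM n (b + 1)) : ZM n b := toZ n b (pz n b x)

/-- inclusion Z_b -> M_c (Z_b is contained in all M_c) -/
noncomputable def iZ (n b c : ℕ) (x : ZM n b) : XM n c := toM n c x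

/-- the limit projection mu -> M_b -/
noncomputable def si (n b : ℕ) (x : UM n) : XM n b :=
  toM n b (Filter.limUnder Filter.atTop (fun k => sgk n b k (x : Cube (2 * n + 1))))

/-- tower property for the attachment (T, A, B, pr): every space X_b ∪ T, T attached along A by
g o pr (g : B -> X_b), is the image of some X_b' under a map which is as soft as we like, close
to the bonding map, and with values in X_b away from g(B) -/
def TP (n : ℕ) (X : ℕ → Type) [∀ b, MetricSpace (X b)] (s : ∀ b b', X b' → X b)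
    (T B : Type) [TopologicalSpace T] [TopologicalSpace B] (A : Set T) (pr : T → B) : Prop :=
  ∀ (b : ℕ) (g : B → X b), Continuous g →
    ∀ (Z : Type) [TopologicalSpace Z] [CompactSpace Z] [T2Space Z] (i : X b → Z) (j : T → Z)
      (ka : Z → X b), IsAdj A (fun t => g (pr t)) i j → Continuous ka → (∀ x, ka (i x) = x) →
      (∀ t, ka (j t) = g (pr t)) → ∀ (D : Z → Z → ℝ), IsCPM D → ∀ eta : ℝ, 0 < eta →
      ∃ (b' : ℕ) (psi : X b' → Z), b ≤ b' ∧ Continuous psi ∧ Soft n D eta psi ∧
        (∀ x, dist (ka (psi x)) (s b b' x) ≤ eta) ∧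
        ∀ x, (∀ y, eta ≤ dist (s b b' x) (g y)) → psi x ∈ range i

/-- abstract towers -/
structure IsTower (n : ℕ) (X : ℕ → Type) [∀ b, MetricSpace (X b)]
    (s : ∀ b b', X b' → X b) : Prop where
  compact : ∀ b, CompactSpace (X b)
  nonempty : ∀ b, Nonempty (X b)
  refl : ∀ b x, s b b x = x
  comp : ∀ b b' b'' x, b ≤ b' → b' ≤ b'' → s b b' (s b' b'' x) = s b b'' x
  cont : ∀ b b', b ≤ b' → Continuous (s b b')
  soft : ∀ b b', b ≤ b' → FineSoft n (s b b')
  cyl : ∀ k, k ≤ n → TP n X s (Cube k × I) (Cube k) {p | p.2 = 0} Prod.fst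
  cylS : TP n X s (↥(bd (n + 1)) × I) (↥(bd (n + 1))) {p | p.2 = 0} Prod.fst
  sph : TP n X s (Cube n) Unit (bd n) (fun _ => ())

end M202

end

section

/-!
MP_202a65_gt (captain helper47): statements of the items, wave 1 (soft calculus, relative cube
complexes, adjunction spaces, general position).
-/

open Set Topology unitInterval

namespace M202

/-! ### A. Soft calculus -/

/-- A1: retraction of I × I^m onto 0 × I^m ∪ I × ∂I^m moving the I^m-coordinate by at most w -/
def S_Hep : Prop :=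
  ∀ (m : ℕ) (w : ℝ), 0 < w → w < 1 / 2 →
    ∃ ret : I × Cube m → I × Cube m, Continuous ret ∧
      (∀ t, ∀ x ∈ bd m, ret (t, x) = (t, x)) ∧ (∀ x, ret (0, x) = (0, x)) ∧
      (∀ t x, (ret (t, x)).1 = 0 ∨ (ret (t, x)).2 ∈ bd m) ∧
      (∀ t x, dist (ret (t, x)).2 x ≤ w) ∧ (∀ t x, (ret (t, x)).1 ≤ t)

/-- A2: controlled homotopy extension -/
def S_HepMap : Prop :=
  ∀ (m : ℕ) (B : Type) [TopologicalSpace B] (f : Cube m → B) (h : I × Cube m → B) (w : ℝ),
    Continuous f → ContinuousOn h (univ ×ˢ bd m) → (∀ x ∈ bd m, h (0, x) = f x) →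
    0 < w → w < 1 / 2 →
    ∃ H : I × Cube m → B, Continuous H ∧ (∀ x, H (0, x) = f x) ∧
      (∀ t, ∀ x ∈ bd m, H (t, x) = h (t, x)) ∧
      ∀ t x, ∃ y, dist y x ≤ w ∧
        (H (t, x) = f y ∨ (y ∈ bd m ∧ ∃ s : I, s ≤ t ∧ H (t, x) = h (s, y)))

/-- A3: changing a homotopy along a homotopy of its restriction to the boundary -/
def S_TrackFix : Prop :=
  ∀ (m : ℕ) (B : Type) [TopologicalSpace B] (D : B → B → ℝ) (G2 : I × Cube m → B)
    (La : I × (I × Cube m) → B) (ze ep : ℝ),
    IsCPM D → Continuous G2 → ContinuousOn La {p | p.2.2 ∈ bd m} →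
    (∀ t, ∀ x ∈ bd m, La (0, (t, x)) = G2 (t, x)) →
    (∀ u, ∀ x ∈ bd m, La (u, (0, x)) = G2 (0, x)) →
    (∀ u, ∀ x ∈ bd m, La (u, (1, x)) = G2 (1, x)) →
    (∀ t x, D (G2 (t, x)) (G2 (1, x)) ≤ ze) →
    (∀ u t, ∀ x ∈ bd m, D (La (u, (t, x))) (G2 (1, x)) ≤ ze) → 0 < ep →
    ∃ G : I × Cube m → B, Continuous G ∧ (∀ x, G (0, x) = G2 (0, x)) ∧
      (∀ x, G (1, x) = G2 (1, x)) ∧ (∀ t, ∀ x ∈ bd m, G (t, x) = La (1, (t, x))) ∧
      ∀ t x, D (G (t, x)) (G2 (1, x)) ≤ ze + ep

/-- A4 -/
def S_SoftOfRel : Prop :=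
  ∀ (n : ℕ) (A B : Type) [TopologicalSpace A] [TopologicalSpace B] (D : B → B → ℝ) (eta : ℝ)
    (th : A → B), IsCPM D → Continuous th → RelSoft n D eta th → Soft n D eta th

/-- A5: transfer lemma -/
def S_TL : Prop :=
  ∀ (m : ℕ) (A B : Type) [TopologicalSpace A] [TopologicalSpace B] (D : B → B → ℝ)
    (th : A → B) (be : Cube m → B) (al : Cube m → A) (ga : I × Cube m → B)
    (K : I × Cube m → A) (al1 : Cube m → A) (G1 : I × Cube m → B) (ze ep : ℝ),
    IsCPM D → Continuous th → Continuous be →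
    ContinuousOn K (univ ×ˢ bd m) → (∀ x ∈ bd m, K (0, x) = al x) →
    ContinuousOn ga (univ ×ˢ bd m) → (∀ x ∈ bd m, ga (0, x) = th (al x)) →
    (∀ x ∈ bd m, ga (1, x) = be x) →
    Continuous al1 → (∀ x ∈ bd m, al1 x = K (1, x)) →
    Continuous G1 → (∀ x, G1 (0, x) = th (al1 x)) → (∀ x, G1 (1, x) = be x) →
    (∀ x ∈ bd m, ∀ t s : I, (t : ℝ) ≤ 1 / 2 → (s : ℝ) = 1 - 2 * t → G1 (t, x) = th (K (s, x))) →
    (∀ x ∈ bd m, ∀ t s : I, 1 / 2 ≤ (t : ℝ) → (s : ℝ) = 2 * t - 1 → G1 (t, x) = ga (s, x)) →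
    (∀ t, ∀ x ∈ bd m, D (th (K (t, x))) (be x) ≤ ze) →
    (∀ t x, D (G1 (t, x)) (be x) ≤ ze) → 0 < ep →
    ∃ (al' : Cube m → A) (G : I × Cube m → B),
      Continuous al' ∧ Continuous G ∧ (∀ x ∈ bd m, al' x = al x) ∧
      (∀ t, ∀ x ∈ bd m, G (t, x) = ga (t, x)) ∧
      (∀ x, G (0, x) = th (al' x)) ∧ (∀ x, G (1, x) = be x) ∧
      ∀ t x, D (G (t, x)) (be x) ≤ ze + ep

/-- A6: composition -/
def S_Comp : Prop :=
  ∀ (n : ℕ) (A B C : Type) [TopologicalSpace A] [TopologicalSpace B] [TopologicalSpace C]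
    (D : C → C → ℝ) (e1 e2 : ℝ) (th1 : A → B) (th2 : B → C),
    IsCPM D → Continuous th1 → Continuous th2 →
    Soft n (fun x y => D (th2 x) (th2 y)) e1 th1 → Soft n D e2 th2 →
    Soft n D (e1 + e2) (fun a => th2 (th1 a))

/-- A7: right cancellation -/
def S_Cancel : Prop :=
  ∀ (n : ℕ) (A B C : Type) [TopologicalSpace A] [TopologicalSpace B] [TopologicalSpace C]
    (D : C → C → ℝ) (e1 e2 : ℝ) (th1 : A → B) (th2 : B → C),
    Nonempty A → IsCPM D → Continuous th1 → Continuous th2 → 0 ≤ e1 →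
    Soft n (fun x y => D (th2 x) (th2 y)) e1 th1 → Soft n D e2 (fun a => th2 (th1 a)) →
    Soft n D (e2 + n * e1) th2

/-- A8: perturbation along a homotopy with short tracks -/
def S_Pert : Prop :=
  ∀ (n : ℕ) (A B : Type) [TopologicalSpace A] [TopologicalSpace B] (D : B → B → ℝ)
    (eta chi : ℝ) (th0 th1 : A → B) (Th : I × A → B),
    IsCPM D → Continuous Th → (∀ a, Th (0, a) = th0 a) → (∀ a, Th (1, a) = th1 a) →
    (∀ s t a, D (Th (s, a)) (Th (t, a)) ≤ chi) →
    Soft n D eta th0 → Soft n D (eta + 2 * chi) th1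

/-- A9a: supremum pseudometric -/
def S_SupCPM : Prop :=
  ∀ (B W : Type) [TopologicalSpace B] [TopologicalSpace W] [CompactSpace W] [Nonempty W]
    (D : B × W → B × W → ℝ), IsCPM D →
    IsCPM (fun b b' : B => ⨆ w : W, D (b, w) (b', w)) ∧
    ∀ b b' w, D (b, w) (b', w) ≤ ⨆ w : W, D (b, w) (b', w)

/-- A9: product with the identity -/
def S_ProdId : Prop :=
  ∀ (n : ℕ) (A B W : Type) [TopologicalSpace A] [TopologicalSpace B] [TopologicalSpace W]
    [CompactSpace W] [Nonempty W] (D : B × W → B × W → ℝ) (eta : ℝ) (th : A → B),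
    IsCPM D → Continuous th →
    Soft n (fun b b' : B => ⨆ w : W, D (b, w) (b', w)) eta th →
    Soft n D eta (fun p : A × W => (th p.1, p.2))

/-- A10: controlled deformation retractions are soft -/
def S_ASDR : Prop :=
  ∀ (n : ℕ) (A B : Type) [TopologicalSpace A] [TopologicalSpace B] (D : B → B → ℝ) (eta : ℝ)
    (r : A → B) (s : B → A) (K : I × A → A) (G : I × B → B),
    IsCPM D → Continuous r → Continuous s → Continuous K → Continuous G →
    (∀ a, K (0, a) = a) → (∀ a, K (1, a) = s (r a)) →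
    (∀ b, G (0, b) = b) → (∀ b, G (1, b) = r (s b)) →
    (∀ u a, r (K (u, a)) = G (u, r a)) → (∀ u b, D (G (u, b)) b ≤ eta) →
    Soft n D eta r

/-- A10b: exact strong deformation retractions are fine soft -/
def S_SDR : Prop :=
  ∀ (n : ℕ) (A B : Type) [TopologicalSpace A] [TopologicalSpace B]
    (r : A → B) (s : B → A) (K : I × A → A),
    Continuous r → Continuous s → Continuous K →
    (∀ a, K (0, a) = a) → (∀ a, K (1, a) = s (r a)) → (∀ b, r (s b) = b) →
    (∀ u a, r (K (u, a)) = r a) → FineSoft n r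

/-- A11: maps and lifts extend over relative cube complexes -/
def S_CE : Prop :=
  ∀ (R A B : Type) [TopologicalSpace R] [CompactSpace R] [T2Space R] [TopologicalSpace A]
    [TopologicalSpace B] (P : Set R → Prop) (C C2 : Set R) (ka : List ℕ) (n : ℕ)
    (D : B → B → ℝ) (eta : ℝ) (th : A → B),
    RC P C ka C2 → (∀ k ∈ ka, k ≤ n) → IsCPM D → Continuous th → Nonempty A → 0 ≤ eta →
    Soft n D eta th → ∀ eta', eta < eta' → LiftOn C2 C th D (ka.length * eta')

/-- A12: homeomorphisms -/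
def S_HomeoComp : Prop :=
  ∀ (n : ℕ) (A A' B B' : Type) [TopologicalSpace A] [TopologicalSpace A'] [TopologicalSpace B]
    [TopologicalSpace B'] (th : A → B) (h : A' ≃ₜ A) (k : B ≃ₜ B') (eta : ℝ),
    (∀ D : B → B → ℝ, Soft n D eta th → Soft n D eta (fun a => th (h a))) ∧
    (∀ D : B' → B' → ℝ, Soft n (fun x y => D (k x) (k y)) eta th →
      Soft n D eta (fun a => k (th a)))

/-- A13: simple closure properties -/
def S_Basics : Prop :=
  (∀ (n m : ℕ) (A B : Type) [TopologicalSpace A] [TopologicalSpace B] (D D' : B → B → ℝ)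
    (eta eta' : ℝ) (th : A → B), m ≤ n → eta ≤ eta' → IsCPM D → IsCPM D' → Continuous th →
    (∀ x y, D x y ≤ D' x y) → Soft n D' eta th → Soft m D eta' th) ∧
  (∀ (n : ℕ) (A B : Type) [TopologicalSpace A] [TopologicalSpace B] (D : B → B → ℝ)
    (eta : ℝ) (th : A → B), (∀ eta', eta < eta' → Soft n D eta' th) → Soft n D eta th) ∧
  (∀ (n : ℕ) (A : Type) [TopologicalSpace A], FineSoft n (id : A → A)) ∧
  (∀ (n : ℕ) (A B : Type) [TopologicalSpace A] [TopologicalSpace B] (th : A → B),
    Continuous th → (∀ D : B → B → ℝ, IsCPM D → RelSoft n D 0 th) → FineSoft n th) ∧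
  (∀ (n : ℕ) (A B : Type) [TopologicalSpace A] [TopologicalSpace B] (th : A → B) (D : B → B → ℝ)
    (eta : ℝ), IsCPM D → Soft n D eta th → RelSoft n D eta th) ∧
  (∀ (n : ℕ) (A B C : Type) [TopologicalSpace A] [TopologicalSpace B] [TopologicalSpace C]
    (th1 : A → B) (th2 : B → C), Continuous th1 → Continuous th2 → FineSoft n th1 →
    FineSoft n th2 → FineSoft n (fun a => th2 (th1 a))) ∧
  (∀ (n : ℕ) (A B C : Type) [TopologicalSpace A] [TopologicalSpace B] [TopologicalSpace C]
    (th1 : A → B) (th2 : B → C), Nonempty A → Continuous th1 → Continuous th2 → FineSoft n th1 →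
    FineSoft n (fun a => th2 (th1 a)) → FineSoft n th2) ∧
  (∀ (n : ℕ) (A B W : Type) [TopologicalSpace A] [TopologicalSpace B] [TopologicalSpace W]
    [CompactSpace W] (th : A → B), Continuous th → FineSoft n th →
    FineSoft n (fun p : A × W => (th p.1, p.2)))

/-- A14: uniform continuity of continuous pseudometrics on compact spaces -/
def S_UC : Prop :=
  (∀ (X : Type) [MetricSpace X] [CompactSpace X] (D : X → X → ℝ), IsCPM D → ∀ ep : ℝ, 0 < ep →
    ∃ de : ℝ, 0 < de ∧ ∀ x y, dist x y ≤ de → D x y ≤ ep) ∧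
  (∀ (X B : Type) [MetricSpace X] [CompactSpace X] [TopologicalSpace B] (D : B → B → ℝ)
    (f : X → B), IsCPM D → Continuous f → ∀ ep : ℝ, 0 < ep →
    ∃ de : ℝ, 0 < de ∧ ∀ x y, dist x y ≤ de → D (f x) (f y) ≤ ep) ∧
  (∀ (A B : Type) [TopologicalSpace A] [TopologicalSpace B] (D : B → B → ℝ) (f : A → B),
    IsCPM D → Continuous f → IsCPM (fun x y => D (f x) (f y))) ∧
  (∀ (B : Type) [TopologicalSpace B] (D D' : B → B → ℝ), IsCPM D → IsCPM D' →
    IsCPM (fun x y => max (D x y) (D' x y))) ∧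
  (∀ (B : Type) [TopologicalSpace B] (D : B → B → ℝ), IsCPM D → ∀ x y, 0 ≤ D x y) ∧
  (∀ (B : Type) [TopologicalSpace B] (f : B → ℝ), Continuous f → IsCPM (fun x y => |f x - f y|)) ∧
  (∀ (B : Type) [TopologicalSpace B] (D : B → B → ℝ) (k : ℝ), 0 ≤ k → IsCPM D →
    IsCPM (fun x y => k * D x y)) ∧
  (∀ (X : Type) [MetricSpace X], IsCPM (fun x y : X => dist x y))

/-! ### B. Relative cube complexes, adjunction spaces -/

/-- B1: skeletal filtration of a pair of cubical sets -/
def S_CubRC : Prop :=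
  ∀ (N L : ℕ) (W W' : Set (Cube N)) (P : Set (Cube N) → Prop),
    1 ≤ L → Cubical L W → Cubical L W' → W' ⊆ W → (∀ x ∈ W, x ∉ W' → P (faceOf L x)) →
    (∀ l, RC P W' (List.range (l + 1)) (W' ∪ (W ∩ skel L l))) ∧
    (∀ j l, RC P (W' ∪ (W ∩ skel L j)) (List.range' (j + 1) l) (W' ∪ (W ∩ skel L (j + l)))) ∧
    W' ∪ (W ∩ skel L N) = W ∧ IsClosed W

/-- B2: elementary facts about the grid -/
def S_Grid : Prop :=
  (∀ (N L : ℕ) (x : Cube N), 1 ≤ L → x ∈ faceOf L x ∧ IsClosed (faceOf L x) ∧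
    (∀ y ∈ faceOf L x, faceOf L y ⊆ faceOf L x) ∧
    (∀ y ∈ faceOf L x, ∀ z ∈ faceOf L x, dist y z ≤ 1 / L)) ∧
  (∀ (N : ℕ), Cubical 1 (bd N) ∧ Cubical 1 (univ : Set (Cube N)) ∧
    bd N = (univ : Set (Cube N)) ∩ {x | {i | ¬ IsGrid 1 (x i)}.ncard ≤ N - 1 ∧ 1 ≤ N}) ∧
  (∀ (N L : ℕ), 1 ≤ L → Cubical L (bd N) ∧ Cubical L (univ : Set (Cube N)) ∧
    ∀ l, Cubical L (skel L l : Set (Cube N))) ∧
  (∀ (N L : ℕ) (V W : Set (Cube N)), Cubical L V → Cubical L W →
    Cubical L (V ∪ W) ∧ Cubical L (V ∩ W)) ∧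
  (∀ (N L : ℕ) (V : Set (Cube N)), 1 ≤ L → Cubical L V → IsClosed V) ∧
  (∀ (N L M : ℕ) (V : Set (Cube N)), 1 ≤ L → 1 ≤ M → Cubical L V → Cubical (L * M) V)

/-- B3: maps of low dimensional compacta into C1 = C ∪ k-cells can be pushed into C -/
def S_Push : Prop :=
  ∀ (R : Type) [TopologicalSpace R] [CompactSpace R] [T2Space R] (C C1 : Set R) (k N : ℕ)
    (e : Fin N → Cube k → R) (m : ℕ) (S : Set (Cube m)) (F : Cube m → R),
    Att C C1 k N e → IsClosed S → dimH S < k → ContinuousOn F S → MapsTo F S C1 →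
    ∃ K : I × Cube m → R, ContinuousOn K (univ ×ˢ S) ∧ (∀ x ∈ S, K (0, x) = F x) ∧
      (∀ x ∈ S, K (1, x) ∈ C) ∧ (∀ t, ∀ x ∈ S, F x ∈ C → K (t, x) = F x) ∧
      (∀ t, ∀ x ∈ S, ∀ j, F x ∈ range (e j) → F x ∉ C → K (t, x) ∈ range (e j))

/-- B4: pushing into the n-skeleton of a cubical set -/
def S_SkelPush : Prop :=
  ∀ (N L n m : ℕ) (W : Set (Cube N)) (S : Set (Cube m)) (F : Cube m → Cube N),
    1 ≤ L → Cubical L W → IsClosed S → dimH S < (n + 1 : ℕ) → ContinuousOn F S → MapsTo F S W →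
    ∃ K : I × Cube m → Cube N, ContinuousOn K (univ ×ˢ S) ∧ (∀ x ∈ S, K (0, x) = F x) ∧
      (∀ x ∈ S, K (1, x) ∈ skel L n) ∧ (∀ t, ∀ x ∈ S, F x ∈ skel L n → K (t, x) = F x) ∧
      (∀ t, ∀ x ∈ S, K (t, x) ∈ faceOf L (F x))

/-- B5: existence of adjunction spaces -/
def S_AdjEx : Prop :=
  ∀ (C T : Type) [TopologicalSpace C] [CompactSpace C] [T2Space C] [TopologicalSpace T]
    [CompactSpace T] [T2Space T] (A : Set T) (ph : T → C),
    IsClosed A → ContinuousOn ph A →
    ∃ (Z : Type) (_ : TopologicalSpace Z) (_ : CompactSpace Z) (_ : T2Space Z)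
      (i : C → Z) (j : T → Z), IsAdj A ph i j

/-- B6: maps and homotopies out of adjunction spaces -/
def S_AdjDesc : Prop :=
  ∀ (C T Z X : Type) [TopologicalSpace C] [CompactSpace C] [T2Space C] [TopologicalSpace T]
    [CompactSpace T] [T2Space T] [TopologicalSpace Z] [CompactSpace Z] [T2Space Z]
    [TopologicalSpace X] (A : Set T) (ph : T → C) (i : C → Z) (j : T → Z), IsAdj A ph i j →
    (∀ (f : C → X) (g : T → X), Continuous f → Continuous g → (∀ t ∈ A, g t = f (ph t)) →
      ∃ h : Z → X, Continuous h ∧ (∀ c, h (i c) = f c) ∧ ∀ t, h (j t) = g t) ∧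
    (∀ (f : I × C → X) (g : I × T → X), Continuous f → Continuous g →
      (∀ u, ∀ t ∈ A, g (u, t) = f (u, ph t)) →
      ∃ h : I × Z → X, Continuous h ∧ (∀ u c, h (u, i c) = f (u, c)) ∧
        ∀ u t, h (u, j t) = g (u, t)) ∧
    (∀ f g : Z → X, (∀ c, f (i c) = g (i c)) → (∀ t, f (j t) = g (j t)) → f = g) ∧
    IsClosed (range i) ∧ IsOpen (j '' Aᶜ) ∧
    (∀ h : Z → X, Continuous (fun c => h (i c)) → Continuous (fun t => h (j t)) → Continuous h)

/-- B7: pushout lemma. Z0 = A0 ∪ T, Z = C ∪ T, the map thp : Z0 → Z is th on A0, the track Ga on the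
inner half of the collar, the stretched collar on the outer half, and the identity off the
collar -/
def S_PO : Prop :=
  ∀ (n : ℕ) (A0 C T Z0 Z : Type) [TopologicalSpace A0] [CompactSpace A0] [T2Space A0]
    [TopologicalSpace C] [CompactSpace C] [T2Space C] [TopologicalSpace T] [CompactSpace T]
    [T2Space T] [TopologicalSpace Z0] [CompactSpace Z0] [T2Space Z0] [TopologicalSpace Z]
    [CompactSpace Z] [T2Space Z] (A : Set T) (c : A × I → T) (ph0 : T → A0) (ph : T → C)
    (i0 : A0 → Z0) (j0 : T → Z0) (i : C → Z) (j : T → Z) (th : A0 → C) (Ga : I × A → C)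
    (thp : Z0 → Z) (D : Z → Z → ℝ) (eta chi : ℝ),
    IsClosed A → IsCollar A c → IsAdj A ph0 i0 j0 → IsAdj A ph i j → Continuous th →
    Continuous Ga → (∀ a : A, Ga (0, a) = th (ph0 a)) → (∀ a : A, Ga (1, a) = ph a) →
    Continuous thp → (∀ a0, thp (i0 a0) = i (th a0)) →
    (∀ (a : A) (t s : I), (t : ℝ) ≤ 1 / 2 → (s : ℝ) = 2 * t → thp (j0 (c (a, t))) = i (Ga (s, a))) →
    (∀ (a : A) (t s : I), 1 / 2 ≤ (t : ℝ) → (s : ℝ) = 2 * t - 1 →
      thp (j0 (c (a, t))) = j (c (a, s))) →
    (∀ t, t ∉ range c → thp (j0 t) = j t) →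
    Nonempty A0 → IsCPM D → 0 ≤ eta → 0 ≤ chi →
    (∀ (s t : I) (a : A), D (i (Ga (s, a))) (i (Ga (t, a))) ≤ chi) →
    Soft n (fun x y => D (i x) (i y)) eta th →
    Soft n D ((n + 1) * (eta + 2 * chi)) thp

/-- B7b: existence of the map thp of S_PO -/
def S_POmap : Prop :=
  ∀ (A0 C T Z0 Z : Type) [TopologicalSpace A0] [CompactSpace A0] [T2Space A0]
    [TopologicalSpace C] [CompactSpace C] [T2Space C] [TopologicalSpace T] [CompactSpace T]
    [T2Space T] [TopologicalSpace Z0] [CompactSpace Z0] [T2Space Z0] [TopologicalSpace Z]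
    [CompactSpace Z] [T2Space Z] (A : Set T) (c : A × I → T) (ph0 : T → A0) (ph : T → C)
    (i0 : A0 → Z0) (j0 : T → Z0) (i : C → Z) (j : T → Z) (th : A0 → C) (Ga : I × A → C),
    IsClosed A → IsCollar A c → IsAdj A ph0 i0 j0 → IsAdj A ph i j → Continuous th →
    Continuous Ga → (∀ a : A, Ga (0, a) = th (ph0 a)) → (∀ a : A, Ga (1, a) = ph a) →
    ∃ thp : Z0 → Z, Continuous thp ∧ (∀ a0, thp (i0 a0) = i (th a0)) ∧
      (∀ (a : A) (t s : I), (t : ℝ) ≤ 1 / 2 → (s : ℝ) = 2 * t →
        thp (j0 (c (a, t))) = i (Ga (s, a))) ∧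
      (∀ (a : A) (t s : I), 1 / 2 ≤ (t : ℝ) → (s : ℝ) = 2 * t - 1 →
        thp (j0 (c (a, t))) = j (c (a, s))) ∧
      (∀ t, t ∉ range c → thp (j0 t) = j t)

/-! ### C. General position -/

/-- C0: Hausdorff dimensions of cubes and their boundaries -/
def S_DimH : Prop :=
  (∀ m : ℕ, dimH (univ : Set (Cube m)) ≤ m) ∧
  (∀ m : ℕ, 1 ≤ m → dimH (bd m) ≤ (m - 1 : ℕ)) ∧ bd 0 = (∅ : Set (Cube 0)) ∧
  (∀ m k : ℕ, m ≤ k → 1 ≤ k → dimH (bd m) < k) ∧
  (∀ m k : ℕ, m < k → ∀ S : Set (Cube m), dimH S < k)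

/-- C1: maps from a compactum of dimension < k into R^k miss 0 after a small perturbation -/
def S_GP1 : Prop :=
  ∀ (m k : ℕ) (S : Set (Cube m)) (F : Cube m → (Fin k → ℝ)) (ep : ℝ),
    IsClosed S → dimH S < k → ContinuousOn F S → 0 < ep →
    ∃ F' : Cube m → (Fin k → ℝ), Continuous F' ∧ (∀ x ∈ S, dist (F' x) (F x) ≤ ep) ∧
      ∀ x ∈ S, F' x ≠ 0

/-- C2: at most n coordinates lie in a given finite set -/
def S_GP2 : Prop :=
  ∀ (m n N : ℕ) (S : Set (Cube m)) (F : Cube m → (Fin N → ℝ)) (E : Set ℝ) (ep : ℝ),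
    IsClosed S → dimH S < (n + 1 : ℕ) → ContinuousOn F S → E.Finite → 0 < ep →
    ∃ F' : Cube m → (Fin N → ℝ), Continuous F' ∧ (∀ x ∈ S, dist (F' x) (F x) ≤ ep) ∧
      ∀ x ∈ S, {i | F' x i ∈ E}.ncard ≤ n

/-- C3: maps from closed subsets of I^m to the sphere ∂I^{k+1} extend if m ≤ k -/
def S_Ext : Prop :=
  ∀ (m k : ℕ) (S : Set (Cube m)) (f : Cube m → Cube (k + 1)),
    m ≤ k → IsClosed S → ContinuousOn f S → MapsTo f S (bd (k + 1)) →
    ∃ f' : Cube m → Cube (k + 1), Continuous f' ∧ (∀ x ∈ S, f' x = f x) ∧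
      ∀ x, f' x ∈ bd (k + 1)

/-- C4: the same on open subsets of I^m -/
def S_ExtOpen : Prop :=
  ∀ (m k : ℕ) (U S : Set (Cube m)) (f : Cube m → Cube (k + 1)),
    m ≤ k → IsOpen U → IsClosed S → ContinuousOn f (S ∩ U) → MapsTo f (S ∩ U) (bd (k + 1)) →
    ∃ f' : Cube m → Cube (k + 1), ContinuousOn f' U ∧ (∀ x ∈ S ∩ U, f' x = f x) ∧
      ∀ x ∈ U, f' x ∈ bd (k + 1)

end M202

end

section

/-!
MP_202a65_gt: controlled deformation retractions are soft
-/

set_option autoImplicit false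

open Set Topology unitInterval

namespace M202

/-- `t ↦ 1 - 2 t`, clamped to the interval -/
noncomputable def ASDR_u (t : I) : I := Set.projIcc 0 1 zero_le_one (1 - 2 * (t : ℝ))

theorem ASDR_u_cont : Continuous ASDR_u := by
  unfold ASDR_u
  exact continuous_projIcc.comp (by fun_prop)

theorem ASDR_u_zero : ASDR_u 0 = 1 := by
  unfold ASDR_u
  apply Subtype.ext
  rw [Set.coe_projIcc]
  simp

theorem ASDR_u_half (t : I) (h : 1 / 2 ≤ (t : ℝ)) : ASDR_u t = 0 := by
  unfold ASDR_u
  apply Subtype.ext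
  rw [Set.coe_projIcc]
  have h1 : min 1 (1 - 2 * (t : ℝ)) ≤ 0 := (min_le_right _ _).trans (by linarith)
  rw [max_eq_left h1]
  rfl

theorem ASDR_u_lt (t s : I) (h : (s : ℝ) = 1 - 2 * t) : ASDR_u t = s := by
  unfold ASDR_u
  rw [← h]
  exact Set.projIcc_val zero_le_one s

theorem pr_ASDR (h1 : S_SoftOfRel) (h2 : S_TL) : S_ASDR := by
  intro n A B _ _ D eta r s K G hD hr hs hK hG hK0 hK1 hG0 hG1 hc hb
  refine h1 n A B D eta r hD hr ?_
  intro m hm eta' heta be al hbe hal hra
  have key := h2 m A B D r be al (fun p => be p.2)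
    (fun p => K (p.1, al p.2)) (fun x => s (be x)) (fun p => G (ASDR_u p.1, be p.2)) eta
    (eta' - eta) hD hr hbe
  have c1 : ContinuousOn (fun p : I × Cube m => K (p.1, al p.2)) (univ ×ˢ bd m) := by
    refine hK.comp_continuousOn ?_
    refine continuousOn_fst.prodMk (hal.comp continuousOn_snd ?_)
    rintro ⟨t, x⟩ ⟨_, hx⟩
    exact hx
  obtain ⟨al', G', a1, a2, a3, a4, a5, a6, a7⟩ := key c1 (fun x _ => hK0 _)
    (hbe.comp continuous_snd).continuousOn (fun x hx => (hra x hx).symm) (fun x _ => rfl)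
    (hs.comp hbe)
    (fun x hx => by
      show s (be x) = K (1, al x)
      rw [hK1, hra x hx])
    (hG.comp ((ASDR_u_cont.comp continuous_fst).prodMk (hbe.comp continuous_snd)))
    (fun x => by
      show G (ASDR_u 0, be x) = r (s (be x))
      rw [ASDR_u_zero, hG1])
    (fun x => by
      show G (ASDR_u 1, be x) = be x
      rw [ASDR_u_half 1 (by norm_num), hG0])
    (fun x hx t u _ hu => by
      show G (ASDR_u t, be x) = r (K (u, al x))
      rw [ASDR_u_lt t u hu, hc, hra x hx])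
    (fun x hx t u ht _ => by
      show G (ASDR_u t, be x) = be x
      rw [ASDR_u_half t ht, hG0])
    (fun t x hx => by
      show D (r (K (t, al x))) (be x) ≤ eta
      rw [hc, hra x hx]
      exact hb _ _)
    (fun t x => hb _ _) (by linarith)
  refine ⟨al', G', a1, a2, a3, fun t x hx => a4 t x hx, a5, a6, fun t x => ?_⟩
  have := a7 t x
  linarith

theorem pr_SDR (h : S_ASDR) : S_SDR := by
  intro n A B _ _ r s K hr hs hK hK0 hK1 hrs hc D hD
  refine h n A B D 0 r s K (fun p => p.2) hD hr hs hK continuous_snd hK0 hK1 (fun b => rfl)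
    (fun b => (hrs b).symm) (fun u a => hc u a) (fun u b => ?_)
  show D b b ≤ 0
  rw [hD.self]

end M202

end

section

/-!
MP_202a65_gt, item AdjDesc (helper61): maps and homotopies out of adjunction spaces.
-/

set_option linter.unusedSectionVars false

open Set Topology unitInterval

namespace M202

section

variable {C T Z X : Type} [TopologicalSpace C] [CompactSpace C] [T2Space C] [TopologicalSpace T]
  [CompactSpace T] [T2Space T] [TopologicalSpace Z] [CompactSpace Z] [T2Space Z]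
  [TopologicalSpace X] {A : Set T} {ph : T → C} {i : C → Z} {j : T → Z}

theorem adjDesc_surj (h : IsAdj A ph i j) : Function.Surjective (Sum.elim i j : C ⊕ T → Z) := by
  intro z
  rcases h.surj z with ⟨c, hc⟩ | ⟨t, ht⟩
  · exact ⟨Sum.inl c, hc⟩
  · exact ⟨Sum.inr t, ht⟩

theorem adjDesc_cont (h : IsAdj A ph i j) : Continuous (Sum.elim i j : C ⊕ T → Z) :=
  h.conti.sumElim h.contj

theorem adjDesc_quot (h : IsAdj A ph i j) : IsQuotientMap (Sum.elim i j : C ⊕ T → Z) :=
  (adjDesc_cont h).isClosedMap.isQuotientMap (adjDesc_cont h) (adjDesc_surj h)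

theorem adjDesc_compat (h : IsAdj A ph i j) (f : C → X) (g : T → X)
    (hfg : ∀ t ∈ A, g t = f (ph t)) (a b : C ⊕ T)
    (hab : (Sum.elim i j : C ⊕ T → Z) a = (Sum.elim i j : C ⊕ T → Z) b) :
    (Sum.elim f g : C ⊕ T → X) a = (Sum.elim f g : C ⊕ T → X) b := by
  have key : ∀ (c : C) (t : T), i c = j t → f c = g t := by
    intro c t hct
    have htA : t ∈ A := by
      by_contra hh
      exact h.disj t hh c hct.symm
    have h1 : c = ph t := h.inji (by rw [hct, h.agree t htA])
    rw [hfg t htA, h1]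
  rcases a with c | t <;> rcases b with c' | t' <;> simp only [Sum.elim_inl, Sum.elim_inr] at hab ⊢
  · rw [h.inji hab]
  · exact key c t' hab
  · exact (key c' t hab.symm).symm
  · by_cases ht : t ∈ A
    · by_cases ht' : t' ∈ A
      · have h1 : ph t = ph t' := h.inji (by rw [← h.agree t ht, ← h.agree t' ht', hab])
        rw [hfg t ht, hfg t' ht', h1]
      · exact absurd (by rw [← hab, h.agree t ht]) (h.disj t' ht' (ph t))
    · by_cases ht' : t' ∈ A
      · exact absurd (by rw [hab, h.agree t' ht']) (h.disj t ht (ph t'))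
      · rw [h.injj ht ht' hab]

theorem adjDesc_map (h : IsAdj A ph i j) (f : C → X) (g : T → X) (hf : Continuous f)
    (hg : Continuous g) (hfg : ∀ t ∈ A, g t = f (ph t)) :
    ∃ h : Z → X, Continuous h ∧ (∀ c, h (i c) = f c) ∧ ∀ t, h (j t) = g t := by
  have hs := adjDesc_surj h
  let k : Z → X := fun z => (Sum.elim f g : C ⊕ T → X) (Function.surjInv hs z)
  have hk : ∀ a : C ⊕ T, k ((Sum.elim i j : C ⊕ T → Z) a) = (Sum.elim f g : C ⊕ T → X) a := fun a =>
    adjDesc_compat h f g hfg _ _ (Function.surjInv_eq hs _)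
  refine ⟨k, ?_, fun c => hk (Sum.inl c), fun t => hk (Sum.inr t)⟩
  rw [(adjDesc_quot h).continuous_iff]
  have h1 : k ∘ (Sum.elim i j : C ⊕ T → Z) = Sum.elim f g := funext hk
  rw [h1]
  exact hf.sumElim hg

theorem adjDesc_prod (h : IsAdj A ph i j) :
    IsAdj ((univ : Set I) ×ˢ A) (Prod.map id ph : I × T → I × C) (Prod.map id i : I × C → I × Z)
      (Prod.map id j : I × T → I × Z) where
  closed := isClosed_univ.prod h.closed
  contph := by
    refine ContinuousOn.prodMk continuous_fst.continuousOn ?_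
    exact h.contph.comp continuous_snd.continuousOn fun p hp => hp.2
  conti := continuous_id.prodMap h.conti
  contj := continuous_id.prodMap h.contj
  inji := Function.injective_id.prodMap h.inji
  agree := by
    rintro ⟨u, t⟩ ht
    exact Prod.ext rfl (h.agree t ht.2)
  injj := by
    rintro ⟨u, t⟩ ht ⟨u', t'⟩ ht' heq
    have h1 : t ∉ A := fun hh => ht ⟨mem_univ _, hh⟩
    have h2 : t' ∉ A := fun hh => ht' ⟨mem_univ _, hh⟩
    have h3 := Prod.ext_iff.1 heq
    exact Prod.ext h3.1 (h.injj h1 h2 h3.2)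
  disj := by
    rintro ⟨u, t⟩ ht ⟨u', c⟩ heq
    exact h.disj t (fun hh => ht ⟨mem_univ _, hh⟩) c (Prod.ext_iff.1 heq).2
  surj := by
    rintro ⟨u, z⟩
    rcases h.surj z with ⟨c, hc⟩ | ⟨t, ht⟩
    · exact Or.inl ⟨(u, c), Prod.ext rfl hc⟩
    · exact Or.inr ⟨(u, t), Prod.ext rfl ht⟩

end

theorem pr_AdjDesc : S_AdjDesc := by
  intro C T Z X _ _ _ _ _ _ _ _ _ _ A ph i j h
  refine ⟨fun f g hf hg hfg => adjDesc_map h f g hf hg hfg, ?_, ?_, ?_, ?_, ?_⟩
  · intro f g hf hg hfg
    obtain ⟨k, hk, hk1, hk2⟩ := adjDesc_map (adjDesc_prod h) f g hf hg (by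
      rintro ⟨u, t⟩ ht
      exact hfg u t ht.2)
    exact ⟨k, hk, fun u c => hk1 (u, c), fun u t => hk2 (u, t)⟩
  · intro f g hf hg
    funext z
    rcases h.surj z with ⟨c, rfl⟩ | ⟨t, rfl⟩
    · exact hf c
    · exact hg t
  · exact (isCompact_range h.conti).isClosed
  · have h1 : j '' Aᶜ = (range i)ᶜ := by
      ext z
      constructor
      · rintro ⟨t, ht, rfl⟩ ⟨c, hc⟩
        exact h.disj t ht c hc.symm
      · intro hz
        rcases h.surj z with ⟨c, hc⟩ | ⟨t, rfl⟩
        · exact absurd ⟨c, hc⟩ hz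
        · refine ⟨t, fun ht => hz ?_, rfl⟩
          exact ⟨ph t, (h.agree t ht).symm⟩
    rw [h1]
    exact (isCompact_range h.conti).isClosed.isOpen_compl
  · intro k h1 h2
    rw [(adjDesc_quot h).continuous_iff]
    have h3 : k ∘ (Sum.elim i j : C ⊕ T → Z) = Sum.elim (fun c => k (i c)) (fun t => k (j t)) := by
      funext a
      rcases a with c | t <;> rfl
    rw [h3]
    exact h1.sumElim h2

end M202

end

section

/-!
MP_202a65_gt, item AdjEx (helper61): existence of adjunction spaces (compact T2).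
-/

set_option linter.unusedSectionVars false

open Set Topology unitInterval

namespace M202

section

variable {C T : Type} [TopologicalSpace C] [CompactSpace C] [T2Space C] [TopologicalSpace T]
  [CompactSpace T] [T2Space T]

open Classical in
/-- the canonical representative -/
noncomputable def adjExRep (A : Set T) (ph : T → C) : C ⊕ T → C ⊕ T
  | Sum.inl c => Sum.inl c
  | Sum.inr t => if t ∈ A then Sum.inl (ph t) else Sum.inr t

theorem adjExRep_mem {A : Set T} {ph : T → C} {t : T} (ht : t ∈ A) :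
    adjExRep A ph (Sum.inr t) = Sum.inl (ph t) := by
  simp [adjExRep, ht]

theorem adjExRep_notMem {A : Set T} {ph : T → C} {t : T} (ht : t ∉ A) :
    adjExRep A ph (Sum.inr t) = Sum.inr t := by
  simp [adjExRep, ht]

/-- the saturation of a closed set is closed -/
theorem adjEx_sat {A : Set T} {ph : T → C} (hA : IsClosed A) (hph : ContinuousOn ph A)
    {K : Set (C ⊕ T)} (hK : IsClosed K) :
    IsClosed {y | ∃ x ∈ K, adjExRep A ph x = adjExRep A ph y} := by
  have hKC : IsClosed (Sum.inl ⁻¹' K : Set C) := hK.preimage continuous_inl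
  have hKT : IsClosed (Sum.inr ⁻¹' K : Set T) := hK.preimage continuous_inr
  -- the part in C
  have h1 : IsClosed ((Sum.inl ⁻¹' K : Set C) ∪ ph '' ((Sum.inr ⁻¹' K : Set T) ∩ A)) := by
    refine hKC.union ?_
    refine IsCompact.isClosed ?_
    exact (hKT.inter hA).isCompact.image_of_continuousOn (hph.mono inter_subset_right)
  have h2 : IsClosed ((Sum.inr ⁻¹' K : Set T) ∪
      (A ∩ ph ⁻¹' ((Sum.inl ⁻¹' K : Set C) ∪ ph '' ((Sum.inr ⁻¹' K : Set T) ∩ A)))) :=
    hKT.union (hph.preimage_isClosed_of_isClosed hA h1)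
  rw [isClosed_sum_iff]
  constructor
  · convert h1 using 1
    ext c
    simp only [mem_preimage, mem_ofPred_eq, mem_union, mem_image, mem_inter_iff]
    constructor
    · rintro ⟨x, hx, hxc⟩
      rcases x with c' | t
      · left
        have : c' = c := Sum.inl_injective hxc
        exact this ▸ hx
      · right
        by_cases ht : t ∈ A
        · rw [adjExRep_mem ht] at hxc
          exact ⟨t, ⟨hx, ht⟩, Sum.inl_injective hxc⟩
        · rw [adjExRep_notMem ht] at hxc
          exact absurd hxc (by simp [adjExRep])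
    · rintro (hc | ⟨t, ⟨ht, htA⟩, rfl⟩)
      · exact ⟨Sum.inl c, hc, rfl⟩
      · exact ⟨Sum.inr t, ht, by rw [adjExRep_mem htA]; rfl⟩
  · convert h2 using 1
    ext t
    simp only [mem_preimage, mem_ofPred_eq, mem_union, mem_image, mem_inter_iff]
    constructor
    · rintro ⟨x, hx, hxt⟩
      by_cases ht : t ∈ A
      · right
        refine ⟨ht, ?_⟩
        rw [adjExRep_mem ht] at hxt
        rcases x with c | t'
        · left
          have : c = ph t := Sum.inl_injective hxt
          exact this ▸ hx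
        · right
          by_cases ht' : t' ∈ A
          · rw [adjExRep_mem ht'] at hxt
            exact ⟨t', ⟨hx, ht'⟩, Sum.inl_injective hxt⟩
          · rw [adjExRep_notMem ht'] at hxt
            exact absurd hxt (by simp)
      · left
        rw [adjExRep_notMem ht] at hxt
        rcases x with c | t'
        · exact absurd hxt (by simp [adjExRep])
        · by_cases ht' : t' ∈ A
          · rw [adjExRep_mem ht'] at hxt
            exact absurd hxt (by simp)
          · rw [adjExRep_notMem ht'] at hxt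
            have : t' = t := Sum.inr_injective hxt
            exact this ▸ hx
    · rintro (ht | ⟨htA, hc | ⟨t', ⟨ht', htA'⟩, htt⟩⟩)
      · exact ⟨Sum.inr t, ht, rfl⟩
      · exact ⟨Sum.inl (ph t), hc, by rw [adjExRep_mem htA]; rfl⟩
      · exact ⟨Sum.inr t', ht', by rw [adjExRep_mem htA, adjExRep_mem htA', htt]⟩

end

theorem pr_AdjEx : S_AdjEx := by
  intro C T _ _ _ _ _ _ A ph hA hph
  let s : Setoid (C ⊕ T) := Setoid.ker (adjExRep A ph)
  let q : C ⊕ T → Quotient s := Quotient.mk s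
  have hq : IsQuotientMap q := isQuotientMap_quotient_mk'
  have hqeq : ∀ x y, q x = q y ↔ adjExRep A ph x = adjExRep A ph y := fun x y =>
    Quotient.eq (r := s)
  have hqc : IsClosedMap q := by
    intro K hK
    rw [← hq.isClosed_preimage]
    have h1 : q ⁻¹' (q '' K) = {y | ∃ x ∈ K, adjExRep A ph x = adjExRep A ph y} := by
      ext y
      simp only [mem_preimage, mem_image, mem_ofPred_eq, hqeq]
    rw [h1]
    exact adjEx_sat hA hph hK
  have hcomp : CompactSpace (Quotient s) := inferInstance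
  have ht2 : T2Space (Quotient s) := by
    refine ⟨fun z z' hzz => ?_⟩
    have hcl : ∀ z : Quotient s, IsClosed (q ⁻¹' {z}) := by
      intro z
      obtain ⟨x, rfl⟩ := hq.surjective z
      have h1 : ({q x} : Set (Quotient s)) = q '' {x} := by simp
      rw [h1]
      exact (hqc _ isClosed_singleton).preimage hq.continuous
    have hd : Disjoint (q ⁻¹' {z}) (q ⁻¹' {z'}) := by
      rw [Set.disjoint_left]
      intro x hx hx'
      exact hzz ((mem_singleton_iff.1 hx).symm.trans (mem_singleton_iff.1 hx'))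
    obtain ⟨U, V, hU, hV, hzU, hzV, hUV⟩ := normal_separation (hcl z) (hcl z') hd
    refine ⟨(q '' Uᶜ)ᶜ, (q '' Vᶜ)ᶜ, (hqc _ hU.isClosed_compl).isOpen_compl,
      (hqc _ hV.isClosed_compl).isOpen_compl, ?_, ?_, ?_⟩
    · rintro ⟨x, hx, hxz⟩
      exact hx (hzU hxz)
    · rintro ⟨x, hx, hxz⟩
      exact hx (hzV hxz)
    · rw [Set.disjoint_left]
      intro w hw hw'
      obtain ⟨x, rfl⟩ := hq.surjective w
      have h1 : x ∈ U := by
        by_contra hh
        exact hw ⟨x, hh, rfl⟩
      have h2 : x ∈ V := by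
        by_contra hh
        exact hw' ⟨x, hh, rfl⟩
      exact Set.disjoint_left.1 hUV h1 h2
  refine ⟨Quotient s, inferInstance, hcomp, ht2, fun c => q (Sum.inl c), fun t => q (Sum.inr t), ?_⟩
  refine ⟨hA, hph, hq.continuous.comp continuous_inl, hq.continuous.comp continuous_inr, ?_, ?_,
    ?_, ?_, ?_⟩
  · intro c c' hcc
    exact Sum.inl_injective ((hqeq _ _).1 hcc)
  · intro t ht
    exact (hqeq _ _).2 (by rw [adjExRep_mem ht]; rfl)
  · intro t ht t' ht' htt
    have h1 := (hqeq _ _).1 htt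
    rw [adjExRep_notMem ht, adjExRep_notMem ht'] at h1
    exact Sum.inr_injective h1
  · intro t ht c hc
    have h1 := (hqeq _ _).1 hc
    rw [adjExRep_notMem ht] at h1
    exact absurd h1 (by simp [adjExRep])
  · intro z
    obtain ⟨x, rfl⟩ := hq.surjective z
    rcases x with c | t
    · exact Or.inl ⟨c, rfl⟩
    · exact Or.inr ⟨t, rfl⟩

end M202

end

section

/-!
MP_202a65_gt, item Basics: simple closure properties.
-/

open Set Topology unitInterval

namespace M202

namespace Basics89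

theorem rel_of_soft {n : ℕ} {A B : Type} [TopologicalSpace A] [TopologicalSpace B]
    {D : B → B → ℝ} {eta : ℝ} {th : A → B} (hD : IsCPM D) (h : Soft n D eta th) :
    RelSoft n D eta th := by
  intro m hm eta' he be al hbe hal hex
  obtain ⟨al', G, h1, h2, h3, h4, h5, h6, h7⟩ := h m hm eta' he 0 be al (fun p => be p.2)
    le_rfl hbe.continuousOn hal (hbe.comp continuous_snd).continuousOn
    (fun x hx => (hex x hx).symm) (fun x _ => rfl) (fun t x _ => (hD.self (be x)).le)
  rw [univ_prod_univ] at h2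
  refine ⟨al', G, continuousOn_univ.1 h1, continuousOn_univ.1 h2, h3, h4, ?_, ?_, ?_⟩
  · exact fun x => h5 x (mem_univ x)
  · exact fun x => h6 x (mem_univ x)
  · intro t x
    have := h7 t x (mem_univ x)
    rwa [zero_add] at this

end Basics89

open Basics89 in
theorem pr_Basics (h1 : S_Comp) (h2 : S_Cancel) (h3 : S_SoftOfRel) (h4 : S_ProdId)
    (h5 : S_SupCPM) (h6 : S_UC) : S_Basics := by
  refine ⟨?_, ?_, ?_, ?_, ?_, ?_, ?_, ?_⟩
  · intro n m A B _ _ D D' eta eta' th hmn he hD hD' hth hle hs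
    refine h3 m A B D eta' th hD hth ?_
    have hr := rel_of_soft hD' hs
    intro k hk eta'' hlt be al hbe hal hex
    obtain ⟨al', G, a1, a2, a3, a4, a5, a6, a7⟩ := hr k (hk.trans hmn) eta''
      (lt_of_le_of_lt he hlt) be al hbe hal hex
    exact ⟨al', G, a1, a2, a3, a4, a5, a6, fun t x => (hle _ _).trans (a7 t x)⟩
  · intro n A B _ _ D eta th h m hm eta' he
    exact h ((eta + eta') / 2) (by linarith) m hm eta' (by linarith)
  · intro n A _ D hD
    refine h3 n A A D 0 id hD continuous_id ?_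
    intro m hm eta' he be al hbe hal hex
    refine ⟨be, fun p => be p.2, hbe, hbe.comp continuous_snd, fun x hx => (hex x hx).symm,
      fun _ _ _ => rfl, fun _ => rfl, fun _ => rfl, fun t x => ?_⟩
    rw [hD.self]
    exact he.le
  · intro n A B _ _ th hth h D hD
    exact h3 n A B D 0 th hD hth (h D hD)
  · intro n A B _ _ th D eta hD h
    exact rel_of_soft hD h
  · intro n A B C _ _ _ th1 th2 hc1 hc2 hf1 hf2 D hD
    have := h1 n A B C D 0 0 th1 th2 hD hc1 hc2
      (hf1 _ (h6.2.2.1 B C D th2 hD hc2)) (hf2 D hD)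
    rwa [add_zero] at this
  · intro n A B C _ _ _ th1 th2 hne hc1 hc2 hf1 hf2 D hD
    have := h2 n A B C D 0 0 th1 th2 hne hD hc1 hc2 le_rfl
      (hf1 _ (h6.2.2.1 B C D th2 hD hc2)) (hf2 D hD)
    rwa [mul_zero, add_zero] at this
  · intro n A B W _ _ _ _ th hth hf D hD
    rcases isEmpty_or_nonempty W with hW | hW
    · intro m hm eta' he ze be al ga
      exact (hW.false (be (fun _ => 0)).2).elim
    · exact h4 n A B W D 0 th hD hth (hf _ (h5 B W D hD).1)

end M202

end

section

/-!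
MP_202a65_gt: concatenation of homotopies (helper6), used in SoftOfRel and Comp.
-/

open Set Topology unitInterval

namespace M202

namespace CC

/-- `t ↦ min (2 t) 1`. -/
noncomputable def fa (t : I) : I := projIcc 0 1 zero_le_one (2 * (t : ℝ))

/-- `t ↦ max (2 t - 1) 0`. -/
noncomputable def fb (t : I) : I := projIcc 0 1 zero_le_one (2 * (t : ℝ) - 1)

theorem fa_cont : Continuous fa := by
  unfold fa
  exact continuous_projIcc.comp (by fun_prop)

theorem fb_cont : Continuous fb := by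
  unfold fb
  exact continuous_projIcc.comp (by fun_prop)

theorem fa_zero : fa 0 = 0 := by
  unfold fa
  apply projIcc_of_le_left
  simp

theorem fb_one : fb 1 = 1 := by
  unfold fb
  apply projIcc_of_right_le
  norm_num

theorem fa_of_ge {t : I} (h : 1 / 2 ≤ (t : ℝ)) : fa t = 1 := by
  unfold fa
  apply projIcc_of_right_le
  linarith

theorem fb_of_le {t : I} (h : (t : ℝ) ≤ 1 / 2) : fb t = 0 := by
  unfold fb
  apply projIcc_of_le_left
  linarith

theorem fa_coe {t : I} (h : (t : ℝ) ≤ 1 / 2) : (fa t : ℝ) = 2 * t := by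
  unfold fa
  rw [projIcc_of_mem zero_le_one ⟨by have := t.2.1; positivity, by linarith⟩]

theorem fb_coe {t : I} (h : 1 / 2 ≤ (t : ℝ)) : (fb t : ℝ) = 2 * t - 1 := by
  unfold fb
  rw [projIcc_of_mem zero_le_one ⟨by linarith, by have := t.2.2; linarith⟩]

variable {X B : Type*}

open Classical in
/-- Concatenation of homotopies. -/
noncomputable def cc (G1 G2 : I × X → B) (p : I × X) : B :=
  if (p.1 : ℝ) ≤ 1 / 2 then G1 (fa p.1, p.2) else G2 (fb p.1, p.2)

theorem cc_zero (G1 G2 : I × X → B) (x : X) : cc G1 G2 (0, x) = G1 (0, x) := by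
  unfold cc
  rw [if_pos (by simp), fa_zero]

theorem cc_one (G1 G2 : I × X → B) (x : X) : cc G1 G2 (1, x) = G2 (1, x) := by
  unfold cc
  rw [if_neg (by norm_num), fb_one]

theorem cc_cases (G1 G2 : I × X → B) (t : I) (x : X) :
    (∃ s, cc G1 G2 (t, x) = G1 (s, x)) ∨ ∃ s, cc G1 G2 (t, x) = G2 (s, x) := by
  unfold cc
  by_cases h : (t : ℝ) ≤ 1 / 2
  · exact Or.inl ⟨fa t, if_pos h⟩
  · exact Or.inr ⟨fb t, if_neg h⟩

theorem cc_cont [TopologicalSpace X] [TopologicalSpace B] {G1 G2 : I × X → B}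
    (h1 : Continuous G1) (h2 : Continuous G2) (h : ∀ x, G1 (1, x) = G2 (0, x)) :
    Continuous (cc G1 G2) := by
  unfold cc
  refine Continuous.if_le ?_ ?_ (by fun_prop) continuous_const ?_
  · exact h1.comp ((fa_cont.comp continuous_fst).prodMk continuous_snd)
  · exact h2.comp ((fb_cont.comp continuous_fst).prodMk continuous_snd)
  · intro p hp
    rw [fa_of_ge hp.ge, fb_of_le hp.le]
    exact h p.2

theorem nonneg {B : Type} [TopologicalSpace B] {D : B → B → ℝ} (hD : IsCPM D) (x y : B) :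
    0 ≤ D x y := by
  have h1 := hD.tri x y x
  rw [hD.self, hD.symm y x] at h1
  linarith

end CC

end M202

end

section

/-!
MP_202a65_gt, item CE (helper61): lifts extend over relative cube complexes.
-/

set_option linter.unusedSectionVars false

open Set Topology unitInterval

namespace M202

section

variable {R : Type} [TopologicalSpace R] [T2Space R]

/-- the end of a relative cube complex contains the beginning -/
theorem ce_subset {P : Set R → Prop} {C C2 : Set R} {ka : List ℕ} (h : RC P C ka C2) :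
    C ⊆ C2 := by
  induction h with
  | nil C _ => exact Subset.rfl
  | cons C C1 C2 k ka N e hatt _ _ ih =>
    refine Subset.trans ?_ ih
    rw [hatt.union]
    exact subset_union_left

/-- gluing over cells, with a compact parameter space -/
theorem ce_glue {W Y : Type} [TopologicalSpace W] [CompactSpace W] [T2Space W]
    [TopologicalSpace Y] {C C1 : Set R} {k N : ℕ} {e : Fin N → Cube k → R}
    (hatt : Att C C1 k N e) (f : W × R → Y) (g : Fin N → W × Cube k → Y)
    (hf : ContinuousOn f (univ ×ˢ C)) (hg : ∀ j, Continuous (g j))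
    (hfg : ∀ j w, ∀ y ∈ bd k, g j (w, y) = f (w, e j y)) :
    ∃ F : W × R → Y, ContinuousOn F (univ ×ˢ C1) ∧ (∀ w, ∀ x ∈ C, F (w, x) = f (w, x)) ∧
      ∀ j w y, F (w, e j y) = g j (w, y) := by
  classical
  let F : W × R → Y := fun p =>
    if p.2 ∈ C then f p else
      if h : ∃ j y, e j y = p.2 then g h.choose (p.1, h.choose_spec.choose) else f p
  have hFC : ∀ w, ∀ x ∈ C, F (w, x) = f (w, x) := by
    intro w x hx
    show (if x ∈ C then f (w, x) else _) = _
    rw [if_pos hx]
  have hFe : ∀ j w y, F (w, e j y) = g j (w, y) := by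
    intro j w y
    by_cases hy : y ∈ bd k
    · rw [hFC w _ (hatt.bdry j y hy), hfg j w y hy]
    · have hnC : e j y ∉ C := hatt.disj j y hy
      have hex : ∃ j' y', e j' y' = e j y := ⟨j, y, rfl⟩
      have hF : F (w, e j y) = g hex.choose (w, hex.choose_spec.choose) := by
        show (if e j y ∈ C then f (w, e j y) else
          if h : ∃ j' y', e j' y' = e j y then g h.choose (w, h.choose_spec.choose)
            else f (w, e j y)) = _
        rw [if_neg hnC, dif_pos hex]
      have hspec : e hex.choose hex.choose_spec.choose = e j y := hex.choose_spec.choose_spec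
      rw [hF]
      generalize hex.choose_spec.choose = y' at hspec ⊢
      generalize hex.choose = j' at hspec ⊢
      have hy' : y' ∉ bd k := fun hb => hnC (hspec ▸ hatt.bdry j' y' hb)
      obtain ⟨rfl, rfl⟩ := hatt.inj j' j y' y hy' hy hspec
      rfl
  refine ⟨F, ?_, hFC, hFe⟩
  rw [continuousOn_iff_isClosed] at hf ⊢
  intro K hK
  obtain ⟨u0, hu0, hu0e⟩ := hf K hK
  refine ⟨(u0 ∩ univ ×ˢ C) ∪ ⋃ j, (Prod.map id (e j)) '' (g j ⁻¹' K), ?_, ?_⟩
  · refine (hu0.inter (isClosed_univ.prod hatt.closed)).union (isClosed_iUnion_of_finite ?_)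
    intro j
    have hcomp : IsCompact (g j ⁻¹' K) := (hK.preimage (hg j)).isCompact
    exact (hcomp.image (Continuous.prodMap continuous_id (hatt.cont j))).isClosed
  · ext ⟨w, x⟩
    constructor
    · rintro ⟨hFK, hx⟩
      refine ⟨?_, hx⟩
      have hFK' : F (w, x) ∈ K := hFK
      have hx1 : x ∈ C1 := hx.2
      by_cases hxC : x ∈ C
      · left
        rw [hFC w x hxC] at hFK'
        have : (w, x) ∈ f ⁻¹' K ∩ univ ×ˢ C := ⟨hFK', mem_univ _, hxC⟩
        rw [hu0e] at this
        exact this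
      · right
        rw [hatt.union] at hx1
        rcases hx1 with hx1 | hx1
        · exact absurd hx1 hxC
        · obtain ⟨j, hj⟩ := mem_iUnion.mp hx1
          obtain ⟨y, rfl⟩ := hj
          rw [hFe j w y] at hFK'
          exact mem_iUnion.mpr ⟨j, (w, y), hFK', rfl⟩
    · rintro ⟨hu, hx⟩
      refine ⟨?_, hx⟩
      show F (w, x) ∈ K
      rcases hu with hu | hu
      · rw [← hu0e] at hu
        rw [hFC w x hu.2.2]
        exact hu.1
      · obtain ⟨j, ⟨w', y⟩, hwy, he⟩ := mem_iUnion.mp hu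
        have e1 : w' = w := congrArg Prod.fst he
        have e2 : e j y = x := congrArg Prod.snd he
        subst e1
        subst e2
        rw [hFe j w' y]
        exact hwy

end

section

variable {R A B : Type} [TopologicalSpace R] [CompactSpace R] [T2Space R] [TopologicalSpace A]
  [TopologicalSpace B]

theorem ce_main {P : Set R → Prop} {C C2 : Set R} {ka : List ℕ} (n : ℕ) (D : B → B → ℝ)
    (eta : ℝ) (th : A → B) (h : RC P C ka C2) (hk : ∀ k ∈ ka, k ≤ n) (heta : 0 ≤ eta)
    (hs : Soft n D eta th) (eta' : ℝ) (he : eta < eta') :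
    LiftOn C2 C th D (ka.length * eta') := by
  induction h with
  | nil C _ =>
    intro ze be al ga hze hbe hal hga hg0 hg1 hgD
    refine ⟨al, ga, hal, hga, fun _ _ => rfl, fun _ _ _ => rfl, hg0, hg1, ?_⟩
    intro t x hx
    simpa using hgD t x hx
  | cons C C1 C2 k ka N e hatt hP hrc ih =>
    intro ze be al ga hze hbe hal hga hg0 hg1 hgD
    have hsub : C1 ⊆ C2 := ce_subset hrc
    have hCC1 : C ⊆ C1 := by
      rw [hatt.union]
      exact subset_union_left
    have hmem : ∀ j y, e j y ∈ C1 := by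
      intro j y
      rw [hatt.union]
      exact Or.inr (mem_iUnion.mpr ⟨j, mem_range_self y⟩)
    have hkn : k ≤ n := hk k (List.mem_cons_self ..)
    -- the lifts over the cells
    have hcell : ∀ j, ∃ (al' : Cube k → A) (G : I × Cube k → B),
        ContinuousOn al' univ ∧ ContinuousOn G (univ ×ˢ univ) ∧
        (∀ y ∈ bd k, al' y = al (e j y)) ∧ (∀ t, ∀ y ∈ bd k, G (t, y) = ga (t, e j y)) ∧
        (∀ y ∈ (univ : Set (Cube k)), G (0, y) = th (al' y)) ∧
        (∀ y ∈ (univ : Set (Cube k)), G (1, y) = be (e j y)) ∧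
        (∀ t, ∀ y ∈ (univ : Set (Cube k)), D (G (t, y)) (be (e j y)) ≤ ze + eta') := by
      intro j
      refine hs k hkn eta' he ze (fun y => be (e j y)) (fun y => al (e j y))
        (fun p => ga (p.1, e j p.2)) hze ?_ ?_ ?_ ?_ ?_ ?_
      · exact hbe.comp (hatt.cont j).continuousOn (fun y _ => hsub (hmem j y))
      · exact hal.comp (hatt.cont j).continuousOn (fun y hy => hatt.bdry j y hy)
      · refine hga.comp (Continuous.continuousOn (by
          have := hatt.cont j
          fun_prop)) ?_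
        rintro ⟨t, y⟩ hy
        exact ⟨mem_univ _, hatt.bdry j y hy.2⟩
      · intro y hy
        exact hg0 _ (hatt.bdry j y hy)
      · intro y hy
        exact hg1 _ (hatt.bdry j y hy)
      · intro t y hy
        exact hgD t _ (hatt.bdry j y hy)
    choose al' G hal' hG halb hGb hG0 hG1 hGD using hcell
    -- glue
    obtain ⟨FA, hFA, hFAC, hFAe⟩ := ce_glue (W := Unit) hatt (fun p => al p.2)
      (fun j p => al' j p.2) (hal.comp continuousOn_snd (fun p hp => hp.2))
      (fun j => (continuousOn_univ.mp (hal' j)).comp continuous_snd)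
      (fun j _ y hy => halb j y hy)
    obtain ⟨FG, hFG, hFGC, hFGe⟩ := ce_glue (W := I) hatt ga G hga
      (fun j => by
        have := hG j
        rw [univ_prod_univ] at this
        exact continuousOn_univ.mp this) (fun j t y hy => hGb j t y hy)
    have hcases : ∀ x ∈ C1, x ∈ C ∨ ∃ j y, e j y = x := by
      intro x hx
      rw [hatt.union] at hx
      rcases hx with hx | hx
      · exact Or.inl hx
      · obtain ⟨j, y, hy⟩ := mem_iUnion.mp hx
        exact Or.inr ⟨j, y, hy⟩
    obtain ⟨al2, G2, h1, h2, h3, h4, h5, h6, h7⟩ := ih (fun k' hk' => hk k' (List.mem_cons_of_mem _ hk'))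
      (ze + eta') be (fun x => FA ((), x)) FG (by linarith) hbe
      (hFA.comp (by fun_prop) (fun x hx => ⟨mem_univ _, hx⟩)) hFG
      (by
        intro x hx
        rcases hcases x hx with hx | ⟨j, y, rfl⟩
        · simp only [hFGC 0 x hx, hFAC () x hx]
          exact hg0 x hx
        · simp only [hFGe j 0 y, hFAe j () y]
          exact hG0 j y (mem_univ _))
      (by
        intro x hx
        rcases hcases x hx with hx | ⟨j, y, rfl⟩
        · simp only [hFGC 1 x hx]
          exact hg1 x hx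
        · simp only [hFGe j 1 y]
          exact hG1 j y (mem_univ _))
      (by
        intro t x hx
        rcases hcases x hx with hx | ⟨j, y, rfl⟩
        · simp only [hFGC t x hx]
          have := hgD t x hx
          linarith
        · simp only [hFGe j t y]
          exact hGD j t y (mem_univ _))
    refine ⟨al2, G2, h1, h2, ?_, ?_, h5, h6, ?_⟩
    · intro x hx
      rw [h3 x (hCC1 hx)]
      exact hFAC () x hx
    · intro t x hx
      rw [h4 t x (hCC1 hx)]
      exact hFGC t x hx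
    · intro t x hx
      have := h7 t x hx
      have e1 : (((k :: ka).length : ℕ) : ℝ) = (ka.length : ℝ) + 1 := by simp
      rw [e1]
      linarith

end

theorem pr_CE : S_CE := by
  intro R A B _ _ _ _ _ P C C2 ka n D eta th hrc hk _ _ _ heta hs eta' he
  exact ce_main n D eta th hrc hk heta hs eta' he

end M202

end

section

/-!
MP_202a65_gt: item Cancel (right cancellation), helper5
-/

open Set Topology unitInterval

namespace M202

/-- doubling, cut off at 1 -/
noncomputable def Cancel_dbl (t : unitInterval) : unitInterval :=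
  Set.projIcc (0 : ℝ) 1 zero_le_one (2 * (t : ℝ))

theorem Cancel_dbl_cont : Continuous Cancel_dbl := by
  unfold Cancel_dbl
  exact continuous_projIcc.comp (by fun_prop)

theorem Cancel_dbl_zero : Cancel_dbl 0 = 0 := by
  unfold Cancel_dbl
  apply Set.projIcc_of_le_left
  simp

theorem Cancel_dbl_ge {t : unitInterval} (h : 1 / 2 ≤ (t : ℝ)) : Cancel_dbl t = 1 := by
  unfold Cancel_dbl
  apply Set.projIcc_of_right_le
  linarith

theorem Cancel_dbl_le {t : unitInterval} (h : (t : ℝ) ≤ 1 / 2) :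
    (Cancel_dbl t : ℝ) = 2 * t := by
  unfold Cancel_dbl
  rw [Set.projIcc_of_mem zero_le_one (x := 2 * (t : ℝ)) ⟨by linarith [t.2.1], by linarith⟩]

theorem Cancel_nonneg {B : Type} [TopologicalSpace B] {D : B → B → ℝ} (hD : IsCPM D) (x y : B) :
    0 ≤ D x y := by
  have h1 := hD.tri x y x
  rw [hD.self, hD.symm y x] at h1
  linarith

theorem Cancel_bd_zero : bd 0 = ∅ := by
  ext x
  simp [bd]

theorem Cancel_e2 {n : ℕ} {A C : Type} [TopologicalSpace A] [TopologicalSpace C]
    {D : C → C → ℝ} {e2 : ℝ} {th : A → C} (hA : Nonempty A) (hD : IsCPM D)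
    (h : Soft n D e2 th) : 0 ≤ e2 := by
  by_contra he
  push Not at he
  obtain ⟨a⟩ := hA
  obtain ⟨al', G, -, -, -, -, -, -, h7⟩ := h 0 (Nat.zero_le n) (e2 / 2) (by linarith) 0
    (fun _ => th a) (fun _ => a) (fun _ => th a) le_rfl continuousOn_const continuousOn_const
    continuousOn_const (by simp [Cancel_bd_zero]) (by simp [Cancel_bd_zero])
    (by simp [Cancel_bd_zero])
  have h8 := h7 0 (ctr 0) (mem_univ _)
  have h9 := Cancel_nonneg hD (G (0, ctr 0)) (th a)
  linarith

theorem pr_Cancel (h1 : S_SoftOfRel) (h2 : S_TL) (h3 : S_CE) (h4 : S_CubRC) (h5 : S_Grid) :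
    S_Cancel := by
  intro n A B C _ _ _ D e1 e2 th1 th2 hA hD hth1 hth2 he1 hS1 hS2
  have he2 := Cancel_e2 hA hD hS2
  apply h1 n B C D _ th2 hD hth2
  intro m hm eta' heta be al hbe hal hbal
  -- the constants
  set de : ℝ := eta' - (e2 + n * e1) with hde
  have hde0 : 0 < de := by rw [hde]; linarith
  set e1' : ℝ := e1 + de / (3 * (n + 1)) with he1'
  have hn1 : (0 : ℝ) < n + 1 := by positivity
  have hq : 0 < de / (3 * (n + 1)) := by positivity
  have hq2 : n * (de / (3 * (n + 1))) ≤ de / 3 := by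
    rw [mul_div_assoc', div_le_div_iff₀ (by positivity) (by norm_num)]
    nlinarith
  have he1lt : e1 < e1' := by rw [he1']; linarith
  have he1'0 : 0 ≤ e1' := by linarith
  have hmn : (m : ℝ) ≤ n := by exact_mod_cast hm
  have hsum : m * e1' + (e2 + de / 3) + de / 3 ≤ eta' := by
    have h6 : m * e1' ≤ n * e1' := mul_le_mul_of_nonneg_right hmn he1'0
    have h7 : n * e1' = n * e1 + n * (de / (3 * (n + 1))) := by rw [he1']; ring
    have h8 : eta' = de + (e2 + n * e1) := by rw [hde]; ring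
    linarith
  have hD' : IsCPM (fun x y : B => D (th2 x) (th2 y)) := by
    refine ⟨fun x => hD.self _, fun x y => hD.symm _ _, fun x y z => hD.tri _ _ _, ?_⟩
    have h6 : Continuous fun p : B × B => ((th2 p.1, th2 p.2) : C × C) := by fun_prop
    exact hD.cont.comp h6
  -- the relative cube complex
  have hRC : RC (fun _ => True) (∅ : Set (Cube m)) (List.range m) (bd m) := by
    rcases Nat.eq_zero_or_pos m with h0 | h0
    · subst h0
      rw [Cancel_bd_zero]
      exact RC.nil ∅ isClosed_empty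
    · have hc := h5.2.1 m
      have hcub0 : Cubical 1 (∅ : Set (Cube m)) := fun x hx => hx.elim
      have h6 := (h4 m 1 (bd m) ∅ (fun _ => True) le_rfl hc.1 hcub0 (empty_subset _)
        (fun _ _ _ => trivial)).1 (m - 1)
      have h7 : m - 1 + 1 = m := by omega
      have h8 : (∅ : Set (Cube m)) ∪ (bd m ∩ skel 1 (m - 1)) = bd m := by
        rw [empty_union]
        apply inter_eq_left.2
        intro x hx
        rw [hc.2.2] at hx
        exact hx.2.1
      rw [h7, h8] at h6
      exact h6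
  have hLift := h3 (Cube m) A B (fun _ => True) ∅ (bd m) (List.range m) n
    (fun x y : B => D (th2 x) (th2 y)) e1 th1 hRC
    (fun k hk => by rw [List.mem_range] at hk; omega) hD' hth1 hA he1 hS1 e1' he1lt
  obtain ⟨a0⟩ := hA
  obtain ⟨al1, Ga, c1, c2, -, -, c5, c6, c7⟩ := hLift 0 al (fun _ => a0) (fun p => al p.2) le_rfl
    hal continuousOn_const (by simp) (by simp) (by simp) (by simp)
  rw [List.length_range] at c7
  beta_reduce at c7
  have hme : 0 ≤ (m : ℝ) * e1' := mul_nonneg (by positivity) he1'0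
  -- the second lift
  have hga : ContinuousOn (fun p : I × Cube m => th2 (Ga (Cancel_dbl p.1, p.2)))
      (univ ×ˢ bd m) := by
    apply hth2.comp_continuousOn
    apply c2.comp
    · exact ((Cancel_dbl_cont.comp continuous_fst).prodMk continuous_snd).continuousOn
    · intro p hp
      exact ⟨mem_univ _, hp.2⟩
  have hbb : ∀ x ∈ bd m, th2 (Ga (1, x)) = be x := fun x hx => by rw [c6 x hx, hbal x hx]
  obtain ⟨al1', G1, d1, d2, d3, d4, d5, d6, d7⟩ := hS2 m hm (e2 + de / 3) (by linarith)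
    (m * e1') be al1 (fun p => th2 (Ga (Cancel_dbl p.1, p.2))) hme hbe.continuousOn c1 hga
    (fun x hx => by simp only [Cancel_dbl_zero]; rw [c5 x hx])
    (fun x hx => by
      simp only [Cancel_dbl_ge (t := 1) (by norm_num)]
      exact hbb x hx)
    (fun t x hx => by
      have := c7 (Cancel_dbl t) x hx
      rw [hbal x hx] at this
      linarith)
  -- the transfer lemma
  have hK : ContinuousOn (fun p : I × Cube m => Ga (σ p.1, p.2)) (univ ×ˢ bd m) := by
    apply c2.comp
    · exact ((continuous_symm.comp continuous_fst).prodMk continuous_snd).continuousOn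
    · intro p hp
      exact ⟨mem_univ _, hp.2⟩
  have hal1' : Continuous al1' := by rwa [← continuousOn_univ]
  have hG1 : Continuous G1 := by
    rw [univ_prod_univ] at d2
    rwa [← continuousOn_univ]
  obtain ⟨al', G, f1, f2, f3, f4, f5, f6, f7⟩ := h2 m B C D th2 be al (fun p => be p.2)
    (fun p => Ga (σ p.1, p.2)) (fun x => th1 (al1' x)) G1 (m * e1' + (e2 + de / 3)) (de / 3)
    hD hth2 hbe hK
    (fun x hx => by simp only [symm_zero]; exact c6 x hx)
    (hbe.comp continuous_snd).continuousOn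
    (fun x hx => (hbal x hx).symm) (fun x hx => rfl)
    (hth1.comp hal1')
    (fun x hx => by simp only [symm_one]; rw [d3 x hx, c5 x hx])
    hG1 (fun x => d5 x (mem_univ _)) (fun x => d6 x (mem_univ _))
    (fun x hx t s ht hs => by
      rw [d4 t x hx]
      have h6 : Cancel_dbl t = σ s := by
        apply Subtype.ext
        rw [Cancel_dbl_le ht, coe_symm_eq, hs]
        ring
      simp only [h6])
    (fun x hx t s ht hs => by
      rw [d4 t x hx]
      simp only [Cancel_dbl_ge ht]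
      exact hbb x hx)
    (fun t x hx => by
      have := c7 (σ t) x hx
      rw [hbal x hx] at this
      linarith)
    (fun t x => d7 t x (mem_univ _)) (by linarith)
  refine ⟨al', G, f1, f2, f3, fun t x hx => f4 t x hx, f5, f6, fun t x => ?_⟩
  exact (f7 t x).trans hsum

end M202

end

section

/-!
MP_202a65_gt, item CubRC (helper67): skeletal filtration of a pair of cubical sets.
-/

open Set Topology unitInterval

namespace M202

namespace CubRC

/-- k-cells of the grid of mesh 1/L -/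
abbrev Cell (N L k : ℕ) : Type :=
  {p : Finset (Fin N) × (Fin N → Fin (L + 1)) // p.1.card = k ∧ ∀ i ∈ p.1, ((p.2 i : Fin (L+1)) : ℕ) < L}

/-- corner of a cell -/
def cv {N L k : ℕ} (p : Cell N L k) (i : Fin N) : ℕ := ((p.1.2 i : Fin (L + 1)) : ℕ)

/-- fractional part -/
noncomputable def cw {N L k : ℕ} (p : Cell N L k) (y : Cube k) (i : Fin N) : ℝ :=
  if hi : i ∈ p.1.1 then (y (p.1.1.equivFinOfCardEq p.2.1 ⟨i, hi⟩) : ℝ) else 0

/-- characteristic map -/
noncomputable def cE {N L k : ℕ} (p : Cell N L k) (y : Cube k) : Cube N :=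
  fun i => Set.projIcc (0 : ℝ) 1 zero_le_one (((cv p i : ℝ) + cw p y i) / L)

theorem cw_nonneg {N L k : ℕ} (p : Cell N L k) (y : Cube k) (i : Fin N) : 0 ≤ cw p y i := by
  unfold cw
  split_ifs with hi
  · exact (y _).2.1
  · exact le_refl _

theorem cw_le {N L k : ℕ} (p : Cell N L k) (y : Cube k) (i : Fin N) : cw p y i ≤ 1 := by
  unfold cw
  split_ifs with hi
  · exact (y _).2.2
  · exact zero_le_one

theorem cv_lt {N L k : ℕ} (p : Cell N L k) (i : Fin N) (hi : i ∈ p.1.1) : cv p i < L := p.2.2 i hi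

theorem cv_le {N L k : ℕ} (p : Cell N L k) (i : Fin N) : cv p i ≤ L :=
  Nat.lt_succ_iff.1 (p.1.2 i).2

theorem cvw_le {N L k : ℕ} (p : Cell N L k) (y : Cube k) (i : Fin N) :
    (cv p i : ℝ) + cw p y i ≤ L := by
  by_cases hi : i ∈ p.1.1
  · have h1 := cv_lt p i hi
    have h2 : (cv p i : ℝ) + 1 ≤ L := by exact_mod_cast h1
    have := cw_le p y i
    linarith
  · have h1 : cw p y i = 0 := by unfold cw; rw [dif_neg hi]
    have h2 : (cv p i : ℝ) ≤ L := by exact_mod_cast cv_le p i
    linarith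

theorem cE_mul {N L k : ℕ} (hL : 1 ≤ L) (p : Cell N L k) (y : Cube k) (i : Fin N) :
    (L : ℝ) * (cE p y i : ℝ) = (cv p i : ℝ) + cw p y i := by
  have hL' : (0 : ℝ) < L := by exact_mod_cast hL
  have h0 : (0 : ℝ) ≤ ((cv p i : ℝ) + cw p y i) / L :=
    div_nonneg (add_nonneg (Nat.cast_nonneg _) (cw_nonneg p y i)) hL'.le
  have h1 : ((cv p i : ℝ) + cw p y i) / L ≤ 1 := by
    rw [div_le_one hL']
    exact cvw_le p y i
  unfold cE
  rw [Set.projIcc_of_mem zero_le_one ⟨h0, h1⟩]
  field_simp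

theorem ext_mul {N L : ℕ} (hL : 1 ≤ L) {x y : Cube N}
    (h : ∀ i, (L : ℝ) * (x i : ℝ) = (L : ℝ) * (y i : ℝ)) : x = y := by
  have hL' : (L : ℝ) ≠ 0 := by
    have : (0 : ℝ) < L := by exact_mod_cast hL
    exact this.ne'
  funext i
  exact Subtype.ext (mul_left_cancel₀ hL' (h i))

theorem cE_cont {N L k : ℕ} (p : Cell N L k) : Continuous (cE p) := by
  refine continuous_pi fun i => ?_
  refine continuous_projIcc.comp ?_
  refine Continuous.div_const ?_ _
  refine continuous_const.add ?_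
  unfold cw
  by_cases hi : i ∈ p.1.1
  · simp only [dif_pos hi]
    exact continuous_subtype_val.comp (continuous_apply _)
  · simp only [dif_neg hi]
    exact continuous_const

theorem nbd_pos {k : ℕ} {y : Cube k} (hy : y ∉ bd k) (j : Fin k) :
    (0 : ℝ) < y j ∧ (y j : ℝ) < 1 := by
  have h0 : y j ≠ 0 := fun h => hy ⟨j, Or.inl h⟩
  have h1 : y j ≠ 1 := fun h => hy ⟨j, Or.inr h⟩
  constructor
  · exact lt_of_le_of_ne (y j).2.1 (fun h => h0 (Subtype.ext h.symm))
  · exact lt_of_le_of_ne (y j).2.2 (fun h => h1 (Subtype.ext h))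

theorem cw_pos {N L k : ℕ} (p : Cell N L k) {y : Cube k} (hy : y ∉ bd k) (i : Fin N)
    (hi : i ∈ p.1.1) : 0 < cw p y i ∧ cw p y i < 1 := by
  unfold cw
  rw [dif_pos hi]
  exact nbd_pos hy _

theorem cw_zero {N L k : ℕ} (p : Cell N L k) (y : Cube k) (i : Fin N)
    (hi : i ∉ p.1.1) : cw p y i = 0 := by
  unfold cw
  rw [dif_neg hi]

theorem notGrid {N L k : ℕ} (hL : 1 ≤ L) (p : Cell N L k) {y : Cube k} (hy : y ∉ bd k)
    (i : Fin N) (hi : i ∈ p.1.1) : ¬ IsGrid L (cE p y i) := by
  rintro ⟨m, hm⟩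
  rw [cE_mul hL] at hm
  obtain ⟨h0, h1⟩ := cw_pos p hy i hi
  have h2 : ((cv p i : ℤ) : ℝ) < (m : ℝ) := by push_cast; linarith
  have h3 : (m : ℝ) < ((cv p i : ℤ) : ℝ) + 1 := by push_cast; linarith
  have h2' : (cv p i : ℤ) < m := by exact_mod_cast h2
  have h3' : m < (cv p i : ℤ) + 1 := by exact_mod_cast h3
  omega

theorem isGrid {N L k : ℕ} (hL : 1 ≤ L) (p : Cell N L k) (y : Cube k)
    (i : Fin N) (hi : i ∉ p.1.1) : IsGrid L (cE p y i) := by
  refine ⟨(cv p i : ℤ), ?_⟩
  rw [cE_mul hL, cw_zero p y i hi]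
  push_cast
  ring

theorem nn_eq {N L k : ℕ} (hL : 1 ≤ L) (p : Cell N L k) {y : Cube k} (hy : y ∉ bd k) :
    {i | ¬ IsGrid L (cE p y i)} = (p.1.1 : Set (Fin N)) := by
  ext i
  constructor
  · intro h
    by_contra hi
    exact h (isGrid hL p y i hi)
  · intro hi
    exact notGrid hL p hy i hi

theorem nn_sub {N L k : ℕ} (hL : 1 ≤ L) (p : Cell N L k) (y : Cube k) :
    {i | ¬ IsGrid L (cE p y i)} ⊆ (p.1.1 : Set (Fin N)) := by
  intro i h
  by_contra hi
  exact h (isGrid hL p y i hi)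

theorem nn_card {N L k : ℕ} (hL : 1 ≤ L) (p : Cell N L k) {y : Cube k} (hy : y ∉ bd k) :
    {i | ¬ IsGrid L (cE p y i)}.ncard = k := by
  rw [nn_eq hL p hy, Set.ncard_coe_finset, p.2.1]

theorem nn_card_le {N L k : ℕ} (hL : 1 ≤ L) (p : Cell N L k) (y : Cube k) :
    {i | ¬ IsGrid L (cE p y i)}.ncard ≤ k := by
  have h := Set.ncard_le_ncard (nn_sub hL p y) (Set.toFinite _)
  rwa [Set.ncard_coe_finset, p.2.1] at h

theorem nn_card_lt {N L k : ℕ} (hL : 1 ≤ L) (p : Cell N L k) {y : Cube k} (hy : y ∈ bd k) :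
    {i | ¬ IsGrid L (cE p y i)}.ncard < k := by
  obtain ⟨j, hj⟩ := hy
  have hlt : {i | ¬ IsGrid L (cE p y i)} ⊂ (p.1.1 : Set (Fin N)) := by
    refine ⟨nn_sub hL p y, fun hsub => ?_⟩
    have hmem : (((p.1.1.equivFinOfCardEq p.2.1).symm j : p.1.1) : Fin N) ∈ p.1.1 :=
      ((p.1.1.equivFinOfCardEq p.2.1).symm j).2
    refine hsub hmem ?_
    have hw : cw p y (((p.1.1.equivFinOfCardEq p.2.1).symm j : p.1.1) : Fin N) = y j := by
      unfold cw
      rw [dif_pos hmem]
      simp
    rcases hj with hj | hj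
    · refine ⟨(cv p (((p.1.1.equivFinOfCardEq p.2.1).symm j : p.1.1) : Fin N) : ℤ), ?_⟩
      rw [cE_mul hL, hw, hj]
      push_cast
      simp
    · refine ⟨(cv p (((p.1.1.equivFinOfCardEq p.2.1).symm j : p.1.1) : Fin N) : ℤ) + 1, ?_⟩
      rw [cE_mul hL, hw, hj]
      push_cast
      simp
  have h := Set.ncard_lt_ncard hlt (Set.toFinite _)
  rwa [Set.ncard_coe_finset, p.2.1] at h

theorem face_eq {N L k : ℕ} (hL : 1 ≤ L) (p : Cell N L k) {y : Cube k} (hy : y ∉ bd k) :
    faceOf L (cE p y) = range (cE p) := by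
  have hfl : ∀ i, ⌊(L : ℝ) * (cE p y i : ℝ)⌋ = (cv p i : ℤ) := by
    intro i
    rw [cE_mul hL, Int.floor_eq_iff]
    push_cast
    refine ⟨by linarith [cw_nonneg p y i], ?_⟩
    by_cases hi : i ∈ p.1.1
    · linarith [(cw_pos p hy i hi).2]
    · linarith [cw_zero p y i hi]
  have hce : ∀ i, i ∈ p.1.1 → ⌈(L : ℝ) * (cE p y i : ℝ)⌉ = (cv p i : ℤ) + 1 := by
    intro i hi
    rw [cE_mul hL, Int.ceil_eq_iff]
    push_cast
    obtain ⟨h0, h1⟩ := cw_pos p hy i hi
    exact ⟨by linarith, by linarith⟩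
  have hce' : ∀ i, i ∉ p.1.1 → ⌈(L : ℝ) * (cE p y i : ℝ)⌉ = (cv p i : ℤ) := by
    intro i hi
    rw [cE_mul hL, cw_zero p y i hi, add_zero]
    exact_mod_cast Int.ceil_natCast (cv p i)
  ext z
  constructor
  · intro hz
    have hz1 : ∀ i, (cv p i : ℝ) ≤ (L : ℝ) * (z i : ℝ) := by
      intro i
      have := (hz i).1
      rw [hfl i] at this
      exact_mod_cast this
    have hz2 : ∀ i, i ∈ p.1.1 → (L : ℝ) * (z i : ℝ) ≤ (cv p i : ℝ) + 1 := by
      intro i hi
      have := (hz i).2
      rw [hce i hi] at this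
      push_cast at this
      exact this
    have hz3 : ∀ i, i ∉ p.1.1 → (L : ℝ) * (z i : ℝ) = (cv p i : ℝ) := by
      intro i hi
      have := (hz i).2
      rw [hce' i hi] at this
      push_cast at this
      exact le_antisymm this (hz1 i)
    refine ⟨fun j => ⟨(L : ℝ) * (z ((p.1.1.equivFinOfCardEq p.2.1).symm j : p.1.1) : ℝ)
      - (cv p ((p.1.1.equivFinOfCardEq p.2.1).symm j : p.1.1) : ℝ), ?_, ?_⟩, ?_⟩
    · linarith [hz1 ((p.1.1.equivFinOfCardEq p.2.1).symm j : p.1.1)]
    · linarith [hz2 ((p.1.1.equivFinOfCardEq p.2.1).symm j : p.1.1)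
        ((p.1.1.equivFinOfCardEq p.2.1).symm j).2]
    · refine ext_mul hL fun i => ?_
      rw [cE_mul hL]
      by_cases hi : i ∈ p.1.1
      · unfold cw
        rw [dif_pos hi]
        simp
      · rw [cw_zero p _ i hi, hz3 i hi]
        ring
  · rintro ⟨y', rfl⟩
    intro i
    rw [hfl i, cE_mul hL]
    by_cases hi : i ∈ p.1.1
    · rw [hce i hi]
      push_cast
      exact ⟨by linarith [cw_nonneg p y' i], by linarith [cw_le p y' i]⟩
    · rw [hce' i hi, cw_zero p y' i hi]
      push_cast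
      exact ⟨by linarith, by linarith⟩

theorem ctr_nbd (k : ℕ) : ctr k ∉ bd k := by
  rintro ⟨i, h | h⟩
  · have := congrArg Subtype.val h
    simp only [ctr] at this
    norm_num at this
  · have := congrArg Subtype.val h
    simp only [ctr] at this
    norm_num at this

theorem inj {N L k : ℕ} (hL : 1 ≤ L) (p q : Cell N L k) {y y' : Cube k} (hy : y ∉ bd k)
    (hy' : y' ∉ bd k) (h : cE p y = cE q y') : p = q ∧ y = y' := by
  have hS : p.1.1 = q.1.1 := by
    have h1 := nn_eq hL p hy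
    rw [h, nn_eq hL q hy'] at h1
    exact (Finset.coe_injective h1).symm
  have hv : ∀ i, cv p i = cv q i := by
    intro i
    have h1 : (cv p i : ℝ) + cw p y i = (cv q i : ℝ) + cw q y' i := by
      rw [← cE_mul hL, ← cE_mul hL, h]
    have hp : 0 ≤ cw p y i ∧ cw p y i < 1 := by
      refine ⟨cw_nonneg p y i, ?_⟩
      by_cases hi : i ∈ p.1.1
      · exact (cw_pos p hy i hi).2
      · rw [cw_zero p y i hi]; exact zero_lt_one
    have hq : 0 ≤ cw q y' i ∧ cw q y' i < 1 := by
      refine ⟨cw_nonneg q y' i, ?_⟩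
      by_cases hi : i ∈ q.1.1
      · exact (cw_pos q hy' i hi).2
      · rw [cw_zero q y' i hi]; exact zero_lt_one
    have h2 : (cv p i : ℝ) < (cv q i : ℝ) + 1 := by linarith
    have h3 : (cv q i : ℝ) < (cv p i : ℝ) + 1 := by linarith
    have h2' : cv p i < cv q i + 1 := by exact_mod_cast h2
    have h3' : cv q i < cv p i + 1 := by exact_mod_cast h3
    omega
  have hpq : p = q := by
    refine Subtype.ext (Prod.ext hS (funext fun i => Fin.ext (hv i)))
  subst hpq
  refine ⟨rfl, ?_⟩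
  funext j
  refine Subtype.ext ?_
  have hmem : (((p.1.1.equivFinOfCardEq p.2.1).symm j : p.1.1) : Fin N) ∈ p.1.1 :=
    ((p.1.1.equivFinOfCardEq p.2.1).symm j).2
  have hw : ∀ u : Cube k, cw p u (((p.1.1.equivFinOfCardEq p.2.1).symm j : p.1.1) : Fin N) = u j := by
    intro u
    unfold cw
    rw [dif_pos hmem]
    simp
  have h1 := cE_mul hL p y (((p.1.1.equivFinOfCardEq p.2.1).symm j : p.1.1) : Fin N)
  rw [h, cE_mul hL, hw, hw] at h1
  linarith

/-- every point lies in the interior of a cell -/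
theorem exists_cell {N L k : ℕ} (hL : 1 ≤ L) (x : Cube N)
    (hx : {i | ¬ IsGrid L (x i)}.ncard = k) :
    ∃ (p : Cell N L k) (y : Cube k), y ∉ bd k ∧ cE p y = x := by
  classical
  have hL' : (0 : ℝ) < L := by exact_mod_cast hL
  have hx0 : ∀ i, 0 ≤ (L : ℝ) * (x i : ℝ) := fun i => mul_nonneg hL'.le (x i).2.1
  have hx1 : ∀ i, (L : ℝ) * (x i : ℝ) ≤ L := fun i => by
    have := mul_le_mul_of_nonneg_left (x i).2.2 hL'.le
    linarith
  have hfle : ∀ i, ⌊(L : ℝ) * (x i : ℝ)⌋₊ ≤ L := by
    intro i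
    have := Nat.floor_le_floor (hx1 i)
    rwa [Nat.floor_natCast] at this
  have hmemS : ∀ i, i ∈ Finset.univ.filter (fun i => ¬ IsGrid L (x i)) ↔ ¬ IsGrid L (x i) := by
    intro i; simp
  have hflt : ∀ i, ¬ IsGrid L (x i) → ⌊(L : ℝ) * (x i : ℝ)⌋₊ < L := by
    intro i hi
    refine lt_of_le_of_ne (hfle i) fun h => hi ?_
    have h1 : (⌊(L : ℝ) * (x i : ℝ)⌋₊ : ℝ) ≤ (L : ℝ) * (x i : ℝ) := Nat.floor_le (hx0 i)
    rw [h] at h1
    refine ⟨(L : ℤ), ?_⟩
    push_cast
    exact le_antisymm (hx1 i) h1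
  have hcard : (Finset.univ.filter (fun i => ¬ IsGrid L (x i))).card = k := by
    rw [← hx, Set.ncard_eq_toFinset_card']
    congr 1
    ext i
    simp
  let p : Cell N L k := ⟨(Finset.univ.filter (fun i => ¬ IsGrid L (x i)),
    fun i => ⟨⌊(L : ℝ) * (x i : ℝ)⌋₊, Nat.lt_succ_iff.2 (hfle i)⟩), hcard, fun i hi =>
      hflt i ((hmemS i).1 hi)⟩
  have hcv : ∀ i, cv p i = ⌊(L : ℝ) * (x i : ℝ)⌋₊ := fun i => rfl
  have hfl0 : ∀ i, (cv p i : ℝ) ≤ (L : ℝ) * (x i : ℝ) := fun i => by
    rw [hcv]; exact Nat.floor_le (hx0 i)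
  have hfl1 : ∀ i, (L : ℝ) * (x i : ℝ) < (cv p i : ℝ) + 1 := fun i => by
    rw [hcv]; exact Nat.lt_floor_add_one _
  let y : Cube k := fun j => ⟨(L : ℝ) * (x ((p.1.1.equivFinOfCardEq p.2.1).symm j : p.1.1) : ℝ)
      - (cv p ((p.1.1.equivFinOfCardEq p.2.1).symm j : p.1.1) : ℝ),
      by linarith [hfl0 ((p.1.1.equivFinOfCardEq p.2.1).symm j : p.1.1)],
      by linarith [hfl1 ((p.1.1.equivFinOfCardEq p.2.1).symm j : p.1.1)]⟩
  have hyv : ∀ j, (y j : ℝ) = (L : ℝ) * (x ((p.1.1.equivFinOfCardEq p.2.1).symm j : p.1.1) : ℝ)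
      - (cv p ((p.1.1.equivFinOfCardEq p.2.1).symm j : p.1.1) : ℝ) := fun j => rfl
  refine ⟨p, y, ?_, ?_⟩
  · rintro ⟨j, hj⟩
    have hng : ¬ IsGrid L (x ((p.1.1.equivFinOfCardEq p.2.1).symm j : p.1.1)) :=
      (hmemS _).1 ((p.1.1.equivFinOfCardEq p.2.1).symm j).2
    rcases hj with hj | hj
    · have h1 : (y j : ℝ) = 0 := by rw [hj]; rfl
      rw [hyv] at h1
      refine hng ⟨(cv p ((p.1.1.equivFinOfCardEq p.2.1).symm j : p.1.1) : ℤ), ?_⟩
      push_cast
      linarith
    · have h1 : (y j : ℝ) = 1 := by rw [hj]; rfl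
      rw [hyv] at h1
      linarith [hfl1 ((p.1.1.equivFinOfCardEq p.2.1).symm j : p.1.1)]
  · refine ext_mul hL fun i => ?_
    rw [cE_mul hL]
    by_cases hi : i ∈ p.1.1
    · unfold cw
      rw [dif_pos hi, hyv]
      simp
    · rw [cw_zero p _ i hi]
      have hg : IsGrid L (x i) := by
        by_contra hg
        exact hi ((hmemS i).2 hg)
      obtain ⟨m, hm⟩ := hg
      have h0 := hfl0 i
      have h1 := hfl1 i
      rw [hm] at h0 h1 ⊢
      have h0' : (cv p i : ℤ) ≤ m := by exact_mod_cast h0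
      have h1' : m < (cv p i : ℤ) + 1 := by exact_mod_cast h1
      have h2 : (cv p i : ℤ) = m := by omega
      rw [← h2]
      push_cast
      ring

/-- the stages -/
def stg {N : ℕ} (L : ℕ) (W W' : Set (Cube N)) (k : ℕ) : Set (Cube N) :=
  W' ∪ (W ∩ {x | {i | ¬ IsGrid L (x i)}.ncard < k})

theorem stg_zero {N : ℕ} (L : ℕ) (W W' : Set (Cube N)) : stg L W W' 0 = W' := by
  unfold stg
  ext x
  simp

theorem stg_succ {N : ℕ} (L : ℕ) (W W' : Set (Cube N)) (k : ℕ) :
    stg L W W' (k + 1) = W' ∪ (W ∩ skel L k) := by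
  unfold stg skel
  ext x
  simp only [mem_union, mem_inter_iff, mem_ofPred_eq, Nat.lt_succ_iff]

theorem stage {N L : ℕ} (W W' : Set (Cube N)) (P : Set (Cube N) → Prop) (hL : 1 ≤ L)
    (hW : Cubical L W) (hW' : Cubical L W') (hsub : W' ⊆ W)
    (hP : ∀ x ∈ W, x ∉ W' → P (faceOf L x)) (k : ℕ) (hcl : IsClosed (stg L W W' k)) :
    ∃ (M : ℕ) (e : Fin M → Cube k → Cube N), Att (stg L W W' k) (stg L W W' (k + 1)) k M e ∧
      ∀ j, P (range (e j)) := by
  classical
  let J : Type := {p : Cell N L k // cE p (ctr k) ∈ W ∧ cE p (ctr k) ∉ W'}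
  have : Finite J := by
    have : Finite (Cell N L k) := Subtype.finite
    exact Subtype.finite
  obtain ⟨M, ⟨f⟩⟩ := Finite.exists_equiv_fin J
  have hface : ∀ (p : J) (y : Cube k), y ∉ bd k → faceOf L (cE p.1 y) = range (cE p.1) :=
    fun p y hy => face_eq hL p.1 hy
  have hinW : ∀ (p : J) (y : Cube k), cE p.1 y ∈ W := by
    intro p y
    have h1 := hW _ p.2.1
    rw [face_eq hL p.1 (ctr_nbd k)] at h1
    exact h1 (mem_range_self y)
  have hninW' : ∀ (p : J) (y : Cube k), y ∉ bd k → cE p.1 y ∉ W' := by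
    intro p y hy h
    have h1 := hW' _ h
    rw [face_eq hL p.1 hy] at h1
    exact p.2.2 (h1 (mem_range_self _))
  refine ⟨M, fun j => cE (f.symm j).1, ⟨hcl, fun j => cE_cont _, ?_, ?_, ?_, ?_⟩, ?_⟩
  · intro j y hy
    exact Or.inr ⟨hinW _ y, nn_card_lt hL _ hy⟩
  · intro j j' y y' hy hy' h
    obtain ⟨h1, h2⟩ := inj hL _ _ hy hy' h
    exact ⟨f.symm.injective (Subtype.ext h1), h2⟩
  · intro j y hy h
    rcases h with h | h
    · exact hninW' _ y hy h
    · have h1 : {i | ¬ IsGrid L (cE (f.symm j).1 y i)}.ncard < k := h.2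
      rw [nn_card hL _ hy] at h1
      exact lt_irrefl _ h1
  · apply Set.Subset.antisymm
    · intro x hx
      rcases hx with hx | hx
      · exact Or.inl (Or.inl hx)
      · have hxk : {i | ¬ IsGrid L (x i)}.ncard < k + 1 := hx.2
        by_cases hlt : {i | ¬ IsGrid L (x i)}.ncard < k
        · exact Or.inl (Or.inr ⟨hx.1, hlt⟩)
        · have heq : {i | ¬ IsGrid L (x i)}.ncard = k := by omega
          by_cases hxW' : x ∈ W'
          · exact Or.inl (Or.inl hxW')
          · obtain ⟨p, y, hy, rfl⟩ := exists_cell hL x heq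
            have hf := face_eq hL p hy
            have hc1 : cE p (ctr k) ∈ W := by
              have h1 := hW _ hx.1
              rw [hf] at h1
              exact h1 (mem_range_self _)
            have hc2 : cE p (ctr k) ∉ W' := by
              intro h
              have h1 := hW' _ h
              rw [face_eq hL p (ctr_nbd k)] at h1
              exact hxW' (h1 (mem_range_self _))
            refine Or.inr (mem_iUnion.2 ⟨f ⟨p, hc1, hc2⟩, ?_⟩)
            simp only [Equiv.symm_apply_apply]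
            exact mem_range_self y
    · intro x hx
      rcases hx with hx | hx
      · rcases hx with hx | hx
        · exact Or.inl hx
        · exact Or.inr ⟨hx.1, Nat.lt_succ_of_lt hx.2⟩
      · obtain ⟨j, y, rfl⟩ := mem_iUnion.1 hx
        exact Or.inr ⟨hinW _ y, Nat.lt_succ_of_le (nn_card_le hL _ y)⟩
  · intro j
    have h1 := hP _ (f.symm j).2.1 (f.symm j).2.2
    rwa [face_eq hL _ (ctr_nbd k)] at h1

end CubRC

open CubRC in
theorem pr_CubRC (h : S_Grid) : S_CubRC := by
  obtain ⟨hG1, hG2, hG3, hG4, hG5, hG6⟩ := h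
  intro N L W W' P hL hW hW' hsub hP
  have hcub : ∀ k, Cubical L (stg L W W' k) := by
    intro k
    rcases k with _ | k
    · rw [stg_zero]; exact hW'
    · rw [stg_succ]
      exact (hG4 N L _ _ hW' ((hG4 N L _ _ hW ((hG3 N L hL).2.2 k)).2)).1
  have hcl : ∀ k, IsClosed (stg L W W' k) := fun k => hG5 N L _ hL (hcub k)
  have hmain : ∀ l k, RC P (stg L W W' k) (List.range' k l) (stg L W W' (k + l)) := by
    intro l
    induction l with
    | zero =>
      intro k
      exact RC.nil _ (hcl k)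
    | succ l ih =>
      intro k
      obtain ⟨M, e, hA, hPe⟩ := stage W W' P hL hW hW' hsub hP k (hcl k)
      have h1 := ih (k + 1)
      rw [show k + 1 + l = k + (l + 1) by ring] at h1
      rw [List.range'_succ]
      exact RC.cons _ _ _ k _ M e hA hPe h1
  refine ⟨?_, ?_, ?_, hG5 N L W hL hW⟩
  · intro l
    have h1 := hmain (l + 1) 0
    rw [stg_zero, Nat.zero_add, stg_succ, ← List.range_eq_range'] at h1
    exact h1
  · intro j l
    have h1 := hmain l (j + 1)
    rw [stg_succ, show j + 1 + l = (j + l) + 1 by ring, stg_succ] at h1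
    exact h1
  · apply Set.Subset.antisymm
    · intro x hx
      rcases hx with hx | hx
      · exact hsub hx
      · exact hx.1
    · intro x hx
      refine Or.inr ⟨hx, ?_⟩
      have h1 := Set.ncard_le_ncard (Set.subset_univ {i | ¬ IsGrid L (x i)}) (Set.toFinite _)
      rw [Set.ncard_univ, Nat.card_eq_fintype_card, Fintype.card_fin] at h1
      exact h1

end M202

end

section

/-!
MP_202a65_gt (captain helper47): definitions for wave 3 (the tower engine).
-/

open Set Topology unitInterval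

namespace M202

/-- a tower X together with a control space Y, a map P from X_b0 to Y and a closed frozen set F in
X_b0 -/
structure TCtx (n : ℕ) where
  X : ℕ → Type
  ms : ∀ b, MetricSpace (X b)
  s : ∀ b b', X b' → X b
  tower : IsTower n X s
  b0 : ℕ
  Y : Type
  topY : TopologicalSpace Y
  dY : Y → Y → ℝ
  cpm : IsCPM dY
  P : X b0 → Y
  contP : Continuous P
  F : Set (X b0)
  closedF : IsClosed F

attribute [instance] TCtx.ms TCtx.topY

/-- the tower of the context c maps to C: as softly as we like, with control over Y up to eps (the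
map q : C → Y is compared with P o s), and close to ph over the frozen set F -/
def FF {n : ℕ} (c : TCtx n) {C : Type} [TopologicalSpace C] (q : C → c.Y) (ph : c.X c.b0 → C)
    (eps : ℝ) : Prop :=
  ∀ D : C → C → ℝ, IsCPM D → ∀ eta : ℝ, 0 < eta →
    ∃ (b : ℕ) (th : c.X b → C), c.b0 ≤ b ∧ Continuous th ∧ Soft n D eta th ∧
      (∀ x, c.dY (q (th x)) (c.P (c.s c.b0 b x)) ≤ eps + eta) ∧
      (∀ x, c.s c.b0 b x ∈ c.F → D (th x) (ph (c.s c.b0 b x)) ≤ eta)

/-- maps of B lift through n-soft maps (with a loss K) -/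
def BLift (n : ℕ) (B : Type) [TopologicalSpace B] : Prop :=
  ∃ K : ℝ, 0 ≤ K ∧ ∀ (A' B' : Type) [TopologicalSpace A'] [TopologicalSpace B']
    (D : B' → B' → ℝ) (eta : ℝ) (th : A' → B'), IsCPM D → Continuous th → Nonempty A' →
    0 ≤ eta → Soft n D eta th → ∀ eta', eta < eta' → LiftOn (univ : Set B) ∅ th D (K * eta')

/-- the conclusion of the T-theorem for complexes of type ka, with constant K: if (R,C) is a
relative complex of type ka whose cells are de-small over Y and at distance at least K de from the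
frozen set, q : R → Y and its restriction to C are Soft de, and the tower maps to C with control
de, then it maps to R with control K de -/
def TConcl (n : ℕ) (ka : List ℕ) (K : ℝ) : Prop :=
  ∀ (c : TCtx n) (R : Type) [TopologicalSpace R] [CompactSpace R] [T2Space R] (C : Set R)
    (q : R → c.Y) (ph : c.X c.b0 → ↥C) (de : ℝ), 0 < de →
    RC (fun e : Set R => (∀ z ∈ e, ∀ z' ∈ e, c.dY (q z) (q z') ≤ de) ∧
      ∀ z ∈ e, ∀ x ∈ c.F, K * de ≤ c.dY (q z) (q (ph x))) C ka univ →
    Continuous q → ContinuousOn ph c.F →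
    Soft n c.dY de (fun z : ↥C => q z) → Soft n c.dY de q →
    FF c (fun z : ↥C => q z) ph de →
    FF c q (fun x => (ph x : R)) (K * de)

/-- the radial map v of Cube k × I: y = ctr + z with |z| ≤ 1/4 goes to height s on the segment
from (ctr + 2z, 0) to (ctr + z, 1), for |z| ≥ 1/4 on the segment from the side point
(ctr + z/(2|z|), 4|z|-1) to (ctr + z, 1) -/
def IsV (k : ℕ) (v : Cube k × I → Cube k × I) : Prop :=
  Continuous v ∧ Function.Surjective v ∧
  (∀ (y : Cube k) (s : I), dist y (ctr k) ≤ 1 / 4 →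
    ((v (y, s)).2 : ℝ) = s ∧ ∀ l, (((v (y, s)).1 l : ℝ) - 1 / 2) = (2 - (s : ℝ)) * ((y l : ℝ) - 1 / 2)) ∧
  (∀ (y : Cube k) (s : I), 1 / 4 ≤ dist y (ctr k) →
    ((v (y, s)).2 : ℝ) = 1 - 2 * (1 - (s : ℝ)) * (1 - 2 * dist y (ctr k)) ∧
    ∀ l, (((v (y, s)).1 l : ℝ) - 1 / 2) * (2 * dist y (ctr k)) =
      (1 - (s : ℝ) * (1 - 2 * dist y (ctr k))) * ((y l : ℝ) - 1 / 2)) ∧
  (∀ y ∈ bd k, ∀ s, v (y, s) = (y, 1)) ∧ (∀ y, v (y, 1) = (y, 1)) ∧
  (∀ p, (p.2 = 0 ∨ p.1 ∈ bd k) → ((v p).2 = 0 ∨ (v p).1 ∈ bd k)) ∧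
  (∀ p, ¬ (p.2 = 0 ∨ p.1 ∈ bd k) → ¬ ((v p).2 = 0 ∨ (v p).1 ∈ bd k)) ∧
  (∀ p p', v p = v p' → ¬ ((v p).2 = 0 ∨ (v p).1 ∈ bd k) → p = p') ∧
  (∀ p p', v p = v p' → p = p' ∨ (p.1 ∈ bd k ∧ p'.1 = p.1))

end M202

end

section

/-!
MP_202a65_gt, item DimH: Hausdorff dimension of cubes and their boundaries.
-/

open Set Topology unitInterval

namespace M202

theorem DimH_univ (m : ℕ) : dimH (univ : Set (Cube m)) ≤ m := by
  let v : Cube m → (Fin m → ℝ) := fun x i => (x i : ℝ)
  have hv : Isometry v := fun x y => rfl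
  rw [← hv.dimH_image]
  calc dimH (v '' univ) ≤ dimH (univ : Set (Fin m → ℝ)) := dimH_mono (subset_univ _)
    _ = m := Real.dimH_univ_pi_fin m

theorem DimH_ins (k : ℕ) (i : Fin (k + 1)) (a : unitInterval) :
    LipschitzWith 1 (fun y : Cube k => (i.insertNth a y : Cube (k + 1))) := by
  intro x y
  rw [ENNReal.coe_one, one_mul]
  refine edist_pi_le_iff.mpr ?_
  intro j
  refine Fin.succAboveCases i ?_ ?_ j
  · simp
  · intro l
    simp only [Fin.insertNth_apply_succAbove]
    exact edist_le_pi_edist x y l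

theorem DimH_face (k : ℕ) (i : Fin (k + 1)) (a : unitInterval) :
    dimH {y : Cube (k + 1) | y i = a} ≤ k := by
  have hsub : {y : Cube (k + 1) | y i = a} ⊆
      (fun y : Cube k => (i.insertNth a y : Cube (k + 1))) '' univ := by
    intro y hy
    refine ⟨i.removeNth y, mem_univ _, ?_⟩
    have hy' : y i = a := hy
    simp only
    rw [← hy']
    exact Fin.insertNth_self_removeNth i y
  calc dimH {y : Cube (k + 1) | y i = a}
      ≤ dimH ((fun y : Cube k => (i.insertNth a y : Cube (k + 1))) '' univ) := dimH_mono hsub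
    _ ≤ dimH (univ : Set (Cube k)) := (DimH_ins k i a).dimH_image_le _
    _ ≤ k := DimH_univ k

theorem DimH_bd (k : ℕ) : dimH (bd (k + 1)) ≤ k := by
  have h : bd (k + 1) ⊆ ⋃ i : Fin (k + 1), ({y : Cube (k + 1) | y i = 0} ∪
      {y : Cube (k + 1) | y i = 1}) := by
    rintro y ⟨i, hi⟩
    exact mem_iUnion.mpr ⟨i, hi⟩
  refine (dimH_mono h).trans ?_
  rw [dimH_iUnion]
  refine iSup_le fun i => ?_
  rw [dimH_union]
  exact max_le (DimH_face k i 0) (DimH_face k i 1)

theorem DimH_bd0 : bd 0 = (∅ : Set (Cube 0)) := by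
  ext y
  simp [bd]

theorem pr_DimH : S_DimH := by
  refine ⟨DimH_univ, ?_, DimH_bd0, ?_, ?_⟩
  · intro m hm
    obtain ⟨k, rfl⟩ := Nat.exists_eq_succ_of_ne_zero (by omega : m ≠ 0)
    exact DimH_bd k
  · intro m k hmk hk
    rcases Nat.eq_zero_or_pos m with h | h
    · subst h
      rw [DimH_bd0, dimH_empty]
      exact_mod_cast hk
    · obtain ⟨l, rfl⟩ := Nat.exists_eq_succ_of_ne_zero (by omega : m ≠ 0)
      refine lt_of_le_of_lt (DimH_bd l) ?_
      exact_mod_cast hmk
  · intro m k hmk S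
    refine lt_of_le_of_lt ((dimH_mono (subset_univ S)).trans (DimH_univ m)) ?_
    exact_mod_cast hmk

end M202

end

section

/-!
MP_202a65_gt, item Ext: maps from closed subsets of a cube into a sphere of at least the same
dimension extend.
-/

open Set Topology unitInterval

namespace M202

/-- radial projection to the boundary of the cube, seen from the centre -/
noncomputable def Ext_rad (k : ℕ) (v : Fin (k + 1) → ℝ) : Cube (k + 1) :=
  fun i => Set.projIcc (0 : ℝ) 1 zero_le_one (1 / 2 + v i / (2 * ‖v‖))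

theorem Ext_rad_val {k : ℕ} {v : Fin (k + 1) → ℝ} (hv : v ≠ 0) (i : Fin (k + 1)) :
    (Ext_rad k v i : ℝ) = 1 / 2 + v i / (2 * ‖v‖) := by
  have hpos : 0 < ‖v‖ := norm_pos_iff.mpr hv
  have hle : |v i| ≤ ‖v‖ := norm_le_pi_norm v i
  have h1 := abs_le.mp hle
  have hmem : 1 / 2 + v i / (2 * ‖v‖) ∈ Set.Icc (0 : ℝ) 1 := by
    constructor
    · have : -(1 / 2) ≤ v i / (2 * ‖v‖) := by
        rw [le_div_iff₀ (by positivity)]
        nlinarith [h1.1]
      linarith
    · have : v i / (2 * ‖v‖) ≤ 1 / 2 := by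
        rw [div_le_iff₀ (by positivity)]
        nlinarith [h1.2]
      linarith
  unfold Ext_rad
  rw [Set.projIcc_of_mem zero_le_one hmem]

theorem Ext_rad_bd {k : ℕ} {v : Fin (k + 1) → ℝ} (hv : v ≠ 0) : Ext_rad k v ∈ bd (k + 1) := by
  have hpos : 0 < ‖v‖ := norm_pos_iff.mpr hv
  have hex : ∃ i, ‖v‖ ≤ |v i| := by
    by_contra hcon
    push Not at hcon
    have : ‖v‖ < ‖v‖ := (pi_norm_lt_iff hpos).mpr hcon
    exact lt_irrefl _ this
  obtain ⟨i, hi⟩ := hex
  have hi' : |v i| = ‖v‖ := le_antisymm (norm_le_pi_norm v i) hi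
  refine ⟨i, ?_⟩
  have hval := Ext_rad_val hv i
  rcases abs_choice (v i) with h | h
  · right
    apply Subtype.ext
    rw [hval]
    rw [h] at hi'
    rw [hi']
    have : ‖v‖ / (2 * ‖v‖) = 1 / 2 := by
      field_simp
    rw [this]
    norm_num
  · left
    apply Subtype.ext
    rw [hval]
    rw [h] at hi'
    have h2 : v i = -‖v‖ := by linarith
    rw [h2]
    have : -‖v‖ / (2 * ‖v‖) = -(1 / 2) := by
      field_simp
    rw [this]
    norm_num

theorem Ext_rad_cont {X : Type} [TopologicalSpace X] {k : ℕ} {F : X → Fin (k + 1) → ℝ}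
    (hF : Continuous F) (h0 : ∀ x, F x ≠ 0) : Continuous (fun x => Ext_rad k (F x)) := by
  refine continuous_pi fun i => ?_
  refine continuous_projIcc.comp ?_
  refine continuous_const.add ?_
  refine ((continuous_apply i).comp hF).div (continuous_const.mul hF.norm) ?_
  intro x
  have : 0 < ‖F x‖ := norm_pos_iff.mpr (h0 x)
  positivity

theorem Ext_norm {k : ℕ} {y : Cube (k + 1)} (hy : y ∈ bd (k + 1)) :
    ‖(fun i => (y i : ℝ) - 1 / 2 : Fin (k + 1) → ℝ)‖ = 1 / 2 := by
  apply le_antisymm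
  · rw [pi_norm_le_iff_of_nonneg (by norm_num)]
    intro i
    rw [Real.norm_eq_abs, abs_le]
    have h0 := (y i).2.1
    have h1 := (y i).2.2
    constructor <;> linarith
  · obtain ⟨i, hi⟩ := hy
    refine le_trans ?_ (norm_le_pi_norm _ i)
    rw [Real.norm_eq_abs]
    rcases hi with h | h
    · rw [h]
      norm_num
    · rw [h]
      norm_num

theorem pr_Ext (h1 : S_GP1) (h2 : S_DimH) : S_Ext := by
  intro m k S f hmk hS hf hmaps
  -- Tietze
  let g : C(S, Fin (k + 1) → ℝ) :=
    ⟨fun x i => (f x i : ℝ) - 1 / 2, by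
      refine continuous_pi fun i => ?_
      have hc : Continuous (fun x : S => f x) := continuousOn_iff_continuous_domRestrict.mp hf
      exact (continuous_subtype_val.comp ((continuous_apply i).comp hc)).sub continuous_const⟩
  obtain ⟨F1, hF1⟩ := ContinuousMap.exists_restrict_eq hS g
  have hF1S : ∀ x ∈ S, F1 x = fun i => (f x i : ℝ) - 1 / 2 := by
    intro x hx
    have := congrArg (fun q : C(S, Fin (k + 1) → ℝ) => q ⟨x, hx⟩) hF1
    exact this
  have hnS : ∀ x ∈ S, ‖F1 x‖ = 1 / 2 := by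
    intro x hx
    rw [hF1S x hx]
    exact Ext_norm (hmaps hx)
  -- general position
  have hKc : IsClosed {x : Cube m | ‖F1 x‖ ≤ 1 / 4} :=
    isClosed_le F1.continuous.norm continuous_const
  obtain ⟨F', hF'c, hF'd, hF'0⟩ := h1 m (k + 1) {x : Cube m | ‖F1 x‖ ≤ 1 / 4} (fun x => F1 x)
    (1 / 16) hKc (h2.2.2.2.2 m (k + 1) (by omega) _) F1.continuous.continuousOn (by norm_num)
  let ph : Cube m → ℝ := fun x => max 0 (min 1 (2 - 8 * ‖F1 x‖))
  have hphc : Continuous ph :=
    continuous_const.max (continuous_const.min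
      (continuous_const.sub (continuous_const.mul F1.continuous.norm)))
  let F2 : Cube m → (Fin (k + 1) → ℝ) := fun x => F1 x + ph x • (F' x - F1 x)
  have hF2c : Continuous F2 :=
    F1.continuous.add (hphc.smul (hF'c.sub F1.continuous))
  have hph01 : ∀ x, 0 ≤ ph x ∧ ph x ≤ 1 := by
    intro x
    exact ⟨le_max_left _ _, max_le zero_le_one (min_le_left _ _)⟩
  have hfar : ∀ x, 1 / 4 ≤ ‖F1 x‖ → F2 x = F1 x := by
    intro x hx
    have : ph x = 0 := by
      apply max_eq_left
      refine le_trans (min_le_right _ _) ?_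
      linarith
    simp only [F2, this, zero_smul, add_zero]
  have hF20 : ∀ x, F2 x ≠ 0 := by
    intro x
    by_cases hx : 1 / 4 ≤ ‖F1 x‖
    · rw [hfar x hx]
      intro h0
      rw [h0, norm_zero] at hx
      norm_num at hx
    · push Not at hx
      have hxK : x ∈ {x : Cube m | ‖F1 x‖ ≤ 1 / 4} := hx.le
      by_cases hx8 : ‖F1 x‖ ≤ 1 / 8
      · have : ph x = 1 := by
          have h3 : min 1 (2 - 8 * ‖F1 x‖) = 1 := by
            apply min_eq_left
            linarith
          simp only [ph, h3]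
          norm_num
        have h4 : F2 x = F' x := by
          simp only [F2, this, one_smul]
          abel
        rw [h4]
        exact hF'0 x hxK
      · push Not at hx8
        intro h0
        have h5 : F1 x = -(ph x • (F' x - F1 x)) := by
          have : F1 x + ph x • (F' x - F1 x) = 0 := h0
          exact eq_neg_of_add_eq_zero_left this
        have h6 : ‖F1 x‖ ≤ 1 / 16 := by
          rw [h5, norm_neg, norm_smul, Real.norm_eq_abs, abs_of_nonneg (hph01 x).1]
          have h7 : ‖F' x - F1 x‖ ≤ 1 / 16 := by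
            rw [← dist_eq_norm]
            exact hF'd x hxK
          have h8 := norm_nonneg (F' x - F1 x)
          nlinarith [(hph01 x).1, (hph01 x).2]
        linarith
  refine ⟨fun x => Ext_rad k (F2 x), Ext_rad_cont hF2c hF20, ?_, fun x => Ext_rad_bd (hF20 x)⟩
  intro x hx
  have h9 : F2 x = F1 x := hfar x (by rw [hnS x hx]; norm_num)
  funext i
  apply Subtype.ext
  rw [Ext_rad_val (hF20 x) i, h9, hnS x hx, hF1S x hx]
  ring

end M202

end

section

/-!
MP_202a65_gt, item ExtOpen: extension of maps into spheres over open subsets of a cube.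
-/

open Set Topology unitInterval

namespace M202

theorem ExtOpen_step {m k : ℕ} (h : S_Ext) (hmk : m ≤ k) {K K' S : Set (Cube m)}
    (hK : IsClosed K) (hK' : IsClosed K') (hS : IsClosed S) {f g : Cube m → Cube (k + 1)}
    (hf : ContinuousOn f (S ∩ K')) (hfm : MapsTo f (S ∩ K') (bd (k + 1)))
    (hg : Continuous g) (hgm : ∀ x, g x ∈ bd (k + 1)) (hgf : ∀ x ∈ S ∩ K, g x = f x) :
    ∃ g' : Cube m → Cube (k + 1), Continuous g' ∧ (∀ x, g' x ∈ bd (k + 1)) ∧
      (∀ x ∈ S ∩ K', g' x = f x) ∧ ∀ x ∈ K, g' x = g x := by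
  classical
  let q : Cube m → Cube (k + 1) := fun x => if x ∈ K then g x else f x
  have hqK : ∀ x ∈ K, q x = g x := fun x hx => if_pos hx
  have hqS : ∀ x ∈ S ∩ K', q x = f x := by
    intro x hx
    by_cases hxK : x ∈ K
    · rw [hqK x hxK]
      exact hgf x ⟨hx.1, hxK⟩
    · exact if_neg hxK
  have hc1 : ContinuousOn q K := hg.continuousOn.congr hqK
  have hc2 : ContinuousOn q (S ∩ K') := hf.congr hqS
  have hc : ContinuousOn q (K ∪ (S ∩ K')) := hc1.union_of_isClosed hc2 hK (hS.inter hK')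
  have hm : MapsTo q (K ∪ (S ∩ K')) (bd (k + 1)) := by
    rintro x (hx | hx)
    · rw [hqK x hx]
      exact hgm x
    · rw [hqS x hx]
      exact hfm hx
  obtain ⟨g', hg'c, hg'e, hg'b⟩ := h m k (K ∪ (S ∩ K')) q hmk (hK.union (hS.inter hK')) hc hm
  refine ⟨g', hg'c, hg'b, ?_, ?_⟩
  · intro x hx
    rw [hg'e x (Or.inr hx), hqS x hx]
  · intro x hx
    rw [hg'e x (Or.inl hx), hqK x hx]

theorem pr_ExtOpen (h : S_Ext) : S_ExtOpen := by
  classical
  intro m k U S f hmk hU hS hf hfm
  rcases (Uᶜ).eq_empty_or_nonempty with hUe | hne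
  · have hUu : U = univ := by
      rw [← compl_empty_iff]
      exact hUe
    subst hUu
    rw [inter_univ] at hf hfm
    obtain ⟨f', hc, he, hb⟩ := h m k S f hmk hS hf hfm
    refine ⟨f', hc.continuousOn, ?_, fun x _ => hb x⟩
    intro x hx
    exact he x hx.1
  · let K : ℕ → Set (Cube m) := fun i => {x | 1 / ((i : ℝ) + 1) ≤ Metric.infDist x Uᶜ}
    have hKc : ∀ i, IsClosed (K i) := fun i =>
      isClosed_le continuous_const (Metric.continuous_infDist_pt _)
    have hKU : ∀ i, K i ⊆ U := by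
      intro i x hx
      by_contra hxU
      have h0 : Metric.infDist x Uᶜ = 0 := Metric.infDist_zero_of_mem hxU
      have h1 : 1 / ((i : ℝ) + 1) ≤ Metric.infDist x Uᶜ := hx
      have h2 : (0 : ℝ) < 1 / ((i : ℝ) + 1) := by positivity
      linarith
    have hUK : ∀ x ∈ U, ∃ i, x ∈ K i := by
      intro x hx
      have h1 : 0 < Metric.infDist x Uᶜ := by
        rw [← (hU.isClosed_compl).notMem_iff_infDist_pos hne]
        exact fun hx' => hx' hx
      obtain ⟨i, hi⟩ := exists_nat_one_div_lt h1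
      exact ⟨i, hi.le⟩
    have hmono : ∀ i j, i ≤ j → K i ⊆ K j := by
      intro i j hij x hx
      have h1 : 1 / ((i : ℝ) + 1) ≤ Metric.infDist x Uᶜ := hx
      have h2 : 1 / ((j : ℝ) + 1) ≤ 1 / ((i : ℝ) + 1) := by
        apply one_div_le_one_div_of_le (by positivity)
        have : (i : ℝ) ≤ j := by exact_mod_cast hij
        linarith
      exact h2.trans h1
    have hnhds : ∀ i, ∀ x ∈ K i, K (i + 1) ∈ 𝓝 x := by
      intro i x hx
      have h1 : 1 / ((i : ℝ) + 1) ≤ Metric.infDist x Uᶜ := hx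
      have h2 : 1 / (((i + 1 : ℕ) : ℝ) + 1) < 1 / ((i : ℝ) + 1) := by
        apply one_div_lt_one_div_of_lt (by positivity)
        push_cast
        linarith
      have hop : IsOpen {y : Cube m | 1 / (((i + 1 : ℕ) : ℝ) + 1) < Metric.infDist y Uᶜ} :=
        isOpen_lt continuous_const (Metric.continuous_infDist_pt _)
      refine Filter.mem_of_superset (hop.mem_nhds (lt_of_lt_of_le h2 h1)) ?_
      intro y hy
      have hy' : 1 / (((i + 1 : ℕ) : ℝ) + 1) < Metric.infDist y Uᶜ := hy
      exact hy'.le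
    have hfc : ∀ i, ContinuousOn f (S ∩ K i) := fun i =>
      hf.mono (inter_subset_inter_right S (hKU i))
    have hfb : ∀ i, MapsTo f (S ∩ K i) (bd (k + 1)) := fun i =>
      hfm.mono_left (inter_subset_inter_right S (hKU i))
    let T : ℕ → Type := fun i => {g : Cube m → Cube (k + 1) //
      Continuous g ∧ (∀ x, g x ∈ bd (k + 1)) ∧ ∀ x ∈ S ∩ K i, g x = f x}
    have hbase : Nonempty (T 0) := by
      obtain ⟨f', hc, he, hb⟩ := h m k (S ∩ K 0) f hmk (hS.inter (hKc 0)) (hfc 0) (hfb 0)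
      exact ⟨⟨f', hc, hb, he⟩⟩
    have hstep : ∀ (i : ℕ) (g : T i), ∃ g' : T (i + 1), ∀ x ∈ K i, g'.1 x = g.1 x := by
      intro i g
      obtain ⟨g', hc, hb, he, hk⟩ := ExtOpen_step h hmk (hKc i) (hKc (i + 1)) hS (hfc (i + 1))
        (hfb (i + 1)) g.2.1 g.2.2.1 g.2.2.2
      exact ⟨⟨g', hc, hb, he⟩, hk⟩
    choose step hstep using hstep
    let F : ∀ i, T i := fun i => Nat.rec (motive := fun i => T i) hbase.some
      (fun i g => step i g) i
    have hFs : ∀ i, ∀ x ∈ K i, (F (i + 1)).1 x = (F i).1 x := by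
      intro i x hx
      exact hstep i (F i) x hx
    have hFm : ∀ i j, i ≤ j → ∀ x ∈ K i, (F j).1 x = (F i).1 x := by
      intro i j hij
      induction hij with
      | refl => intro x _; rfl
      | step hij ih =>
        intro x hx
        rw [hFs _ x (hmono _ _ hij hx)]
        exact ih x hx
    let f' : Cube m → Cube (k + 1) := fun x =>
      if hx : ∃ i, x ∈ K i then (F (Nat.find hx)).1 x else f x
    have hf' : ∀ i, ∀ x ∈ K i, f' x = (F i).1 x := by
      intro i x hx
      have hex : ∃ i, x ∈ K i := ⟨i, hx⟩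
      have h1 : f' x = (F (Nat.find hex)).1 x := dif_pos hex
      rw [h1]
      exact (hFm (Nat.find hex) i (Nat.find_le hx) x (Nat.find_spec hex)).symm
    refine ⟨f', ?_, ?_, ?_⟩
    · intro x hx
      obtain ⟨i, hi⟩ := hUK x hx
      apply ContinuousAt.continuousWithinAt
      have h1 : f' =ᶠ[𝓝 x] (F (i + 1)).1 :=
        Filter.eventuallyEq_of_mem (hnhds i x hi) (fun y hy => hf' (i + 1) y hy)
      exact ((F (i + 1)).2.1.continuousAt).congr h1.symm
    · intro x hx
      obtain ⟨i, hi⟩ := hUK x hx.2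
      rw [hf' i x hi]
      exact (F i).2.2.2 x ⟨hx.1, hi⟩
    · intro x hx
      obtain ⟨i, hi⟩ := hUK x hx
      rw [hf' i x hi]
      exact (F i).2.2.1 x

end M202

end

section

/-!
MP_202a65_gt, items GP1 and common lemmas (helper40): approximation by Lipschitz functions and
general position.
-/

open Set Topology unitInterval

namespace M202

/-- Lipschitz functions are uniformly dense in the continuous functions on a compact metric
space. -/
lemma GP_lip_real {X : Type} [MetricSpace X] [CompactSpace X] [Nonempty X] (f : X → ℝ)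
    (hf : Continuous f) (ep : ℝ) (hep : 0 < ep) :
    ∃ (K : NNReal) (g : X → ℝ), LipschitzWith K g ∧ ∀ x, |g x - f x| ≤ ep := by
  obtain ⟨M, hM⟩ : ∃ M : ℝ, ∀ x, |f x| ≤ M := by
    obtain ⟨C, hC⟩ := isCompact_univ.exists_bound_of_continuousOn hf.continuousOn
    exact ⟨C, fun x => by simpa using hC x (mem_univ x)⟩
  have hM0 : 0 ≤ M := le_trans (abs_nonneg _) (hM (Classical.arbitrary X))
  have huc := CompactSpace.uniformContinuous_of_continuous hf
  rw [Metric.uniformContinuous_iff] at huc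
  obtain ⟨δ, hδ, hfd⟩ := huc ep hep
  set L : ℝ := 2 * M / δ with hL
  have hL0 : 0 ≤ L := by positivity
  have hbdd : ∀ x, BddBelow (range fun y => f y + L * dist x y) := by
    intro x
    refine ⟨-M, ?_⟩
    rintro _ ⟨y, rfl⟩
    have h1 := (abs_le.mp (hM y)).1
    have h2 : 0 ≤ L * dist x y := by positivity
    show -M ≤ f y + L * dist x y
    linarith
  refine ⟨⟨L, hL0⟩, fun x => ⨅ y, (f y + L * dist x y), ?_, ?_⟩
  · refine LipschitzWith.of_le_add_mul _ ?_
    intro x y
    show (⨅ z, (f z + L * dist x z)) ≤ (⨅ z, (f z + L * dist y z)) + L * dist x y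
    rw [← sub_le_iff_le_add]
    refine le_ciInf fun z => ?_
    have h1 : (⨅ z, (f z + L * dist x z)) ≤ f z + L * dist x z := ciInf_le (hbdd x) z
    have h2 : dist x z ≤ dist x y + dist y z := dist_triangle _ _ _
    nlinarith [mul_le_mul_of_nonneg_left h2 hL0]
  · intro x
    have h1 : (⨅ y, (f y + L * dist x y)) ≤ f x := by
      have := ciInf_le (hbdd x) x
      simpa using this
    have h2 : f x - ep ≤ ⨅ y, (f y + L * dist x y) := by
      refine le_ciInf fun y => ?_
      rcases lt_or_ge (dist x y) δ with h | h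
      · have h3 := hfd h
        rw [Real.dist_eq] at h3
        have h4 := (abs_lt.mp h3).2
        have h5 : 0 ≤ L * dist x y := by positivity
        linarith
      · have h3 := (abs_le.mp (hM x)).2
        have h4 := (abs_le.mp (hM y)).1
        have h5 : 2 * M ≤ L * dist x y := by
          calc 2 * M = L * δ := by rw [hL]; field_simp
            _ ≤ L * dist x y := mul_le_mul_of_nonneg_left h hL0
        linarith
    rw [abs_le]
    constructor <;> linarith

lemma GP_lip {m k : ℕ} (S : Set (Cube m)) (F : Cube m → (Fin k → ℝ)) (ep : ℝ)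
    (hS : IsClosed S) (hF : ContinuousOn F S) (hep : 0 < ep) :
    ∃ (K : NNReal) (F1 : Cube m → (Fin k → ℝ)), LipschitzWith K F1 ∧
      ∀ x ∈ S, dist (F1 x) (F x) ≤ ep := by
  obtain ⟨g, hg⟩ := ContinuousMap.exists_restrict_eq (Y := Fin k → ℝ) hS
    ⟨S.domRestrict F, hF.domRestrict⟩
  have hg' : ∀ x ∈ S, g x = F x := by
    intro x hx
    exact congrArg (fun h : C(S, Fin k → ℝ) => h ⟨x, hx⟩) hg
  have hc : ∀ i, Continuous fun x => g x i := fun i => (continuous_apply i).comp g.continuous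
  choose K f hK hf using fun i => GP_lip_real (fun x => g x i) (hc i) ep hep
  refine ⟨Finset.univ.sup K, fun x i => f i x, ?_, ?_⟩
  · refine LipschitzWith.of_dist_le_mul fun x y => ?_
    rw [dist_pi_le_iff (by positivity)]
    intro i
    refine ((hK i).dist_le_mul x y).trans ?_
    refine mul_le_mul_of_nonneg_right ?_ dist_nonneg
    exact_mod_cast Finset.le_sup (f := K) (Finset.mem_univ i)
  · intro x hx
    rw [dist_pi_le_iff hep.le]
    intro i
    rw [← hg' x hx, Real.dist_eq]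
    exact hf i x

theorem pr_GP1 : S_GP1 := by
  intro m k S F ep hS hdim hF hep
  obtain ⟨K, F1, hK, hF1⟩ := GP_lip S F (ep / 2) hS hF (by positivity)
  have hd : Dense (F1 '' S)ᶜ := by
    apply dense_compl_of_dimH_lt_finrank
    rw [Module.finrank_fin_fun]
    exact (hK.dimH_image_le S).trans_lt hdim
  obtain ⟨v, hv, hvd⟩ := hd.exists_dist_lt 0 (half_pos hep)
  refine ⟨fun x => F1 x - v, hK.continuous.sub continuous_const, ?_, ?_⟩
  · intro x hx
    have h1 : dist (F1 x - v) (F1 x) ≤ ep / 2 := by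
      rw [dist_eq_norm]
      have : F1 x - v - F1 x = -v := by abel
      rw [this, norm_neg]
      rw [dist_zero_left] at hvd
      exact hvd.le
    calc dist (F1 x - v) (F x) ≤ dist (F1 x - v) (F1 x) + dist (F1 x) (F x) := dist_triangle _ _ _
      _ ≤ ep / 2 + ep / 2 := add_le_add h1 (hF1 x hx)
      _ = ep := by ring
  · intro x hx h0
    apply hv
    exact ⟨x, hx, sub_eq_zero.mp h0⟩

end M202

end
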