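import Pool.Agent.Work.MP_202a65_gt.Bd.B02
import Pool.Agent.Work.MP_202a65_gt.Bd.B01
import Pool.Agent.Work.MP_202a65_gt.Bd.B03

/-! Bundle of small proof modules (one section per former module). -/

section

/-!
MP_202a65_gt, item TcylM: tower property for the cylinders.
-/

set_option autoImplicit false

open Set Topology unitInterval Filter

namespace M202
namespace TcylM

/-- the maps om u on M_b -/
theorem omega' (h3 : S_Omega) (n b : ℕ) (hn : 1 ≤ n) :
    ∃ (OM : I × XM n b → XM n b) (C u0 : ℝ), 0 < C ∧ 0 < u0 ∧ Continuous OM ∧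
      (∀ x, OM (0, x) = x) ∧ (∀ s x, dist (OM (s, x)) x ≤ C * ((s : ℝ) * u0)) ∧
      (∀ (s : I) (x : XM n b) (v : Fin (2 * n + 1) → ℝ),
        (∀ k, |v k - ((OM (s, x) : Cube (2 * n + 1)) k : ℝ)| ≤ (s : ℝ) * u0) →
        (∀ k, 0 ≤ v k ∧ v k ≤ 1) ∧ ∀ l, l < b → {k | lev l (v k) < 1 / 6}.ncard ≤ n) := by
  obtain ⟨om, C, u0, hC, hu0, homc, hom1, hom2, -, hom4⟩ := h3 n b hn
  have hs0 : ∀ s : I, 0 ≤ (s : ℝ) * u0 := fun s => mul_nonneg s.2.1 hu0.le
  have hs1 : ∀ s : I, (s : ℝ) * u0 ≤ u0 := fun s => by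
    have := mul_le_mul_of_nonneg_right s.2.2 hu0.le
    rwa [one_mul] at this
  have hr : ∀ (s : I) (t : I), |om (s * u0) t - t| ≤ C * (s * u0) ∧ 0 ≤ om (s * u0) t ∧
      om (s * u0) t ≤ 1 := fun s t => hom1 _ _ (hs0 s) (hs1 s) t.2.1 t.2.2
  have hM : ∀ (s : I) (x : XM n b),
      (fun k => (⟨om (s * u0) (x.1 k), (hr s (x.1 k)).2⟩ : unitInterval)) ∈ Mb n b := by
    intro s x j hj
    refine (hom4 (s * u0) (hs0 s) (hs1 s) x.1 x.2 (fun k => om (s * u0) (x.1 k)) ?_).2 j hj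
    intro i
    rw [sub_self, abs_zero]
    exact hs0 s
  refine ⟨fun p => ⟨fun k => ⟨om (p.1 * u0) (p.2.1 k), (hr p.1 (p.2.1 k)).2⟩, hM p.1 p.2⟩, C, u0,
    hC, hu0, ?_, ?_, ?_, ?_⟩
  · refine Continuous.subtype_mk (continuous_pi fun k => Continuous.subtype_mk ?_ _) _
    refine homc.comp (Continuous.prodMk ?_ ?_)
    · exact (continuous_subtype_val.comp continuous_fst).mul continuous_const
    · exact continuous_subtype_val.comp ((continuous_apply k).comp
        (continuous_subtype_val.comp continuous_snd))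
  · intro x
    apply Subtype.ext
    funext k
    apply Subtype.ext
    show om (((0 : I) : ℝ) * u0) (x.1 k) = x.1 k
    have : ((0 : I) : ℝ) = 0 := rfl
    rw [this, zero_mul]
    exact hom2 _
  · intro s x
    rw [Subtype.dist_eq]
    refine (dist_pi_le_iff (mul_nonneg hC.le (hs0 s))).2 fun k => ?_
    rw [Subtype.dist_eq, Real.dist_eq]
    exact (hr s (x.1 k)).1
  · intro s x v hv
    exact hom4 (s * u0) (hs0 s) (hs1 s) x.1 x.2 v hv

/-- the collar of B × 0 in B × I -/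
theorem collar (B : Type) [TopologicalSpace B] :
    IsCollar {p : B × I | p.2 = 0} (fun q : {p : B × I | p.2 = 0} × I => (q.1.1.1, q.2)) := by
  refine ⟨?_, ?_, ?_, ?_⟩
  · exact (continuous_fst.comp (continuous_subtype_val.comp continuous_fst)).prodMk continuous_snd
  · intro q q' h
    have h1 : q.1.1.1 = q'.1.1.1 := (Prod.mk.inj h).1
    have h2 : q.2 = q'.2 := (Prod.mk.inj h).2
    have h3 : q.1.1.2 = q'.1.1.2 := by
      rw [show q.1.1.2 = 0 from q.1.2, show q'.1.1.2 = 0 from q'.1.2]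
    exact Prod.ext (Subtype.ext (Prod.ext h1 h3)) h2
  · intro a
    exact Prod.ext rfl (show (0 : I) = a.1.2 from (show a.1.2 = 0 from a.2).symm)
  · have h1 : (fun q : {p : B × I | p.2 = 0} × I => (q.1.1.1, q.2)) '' {p | p.2 < 1} =
        {p : B × I | p.2 < 1} := by
      ext p
      constructor
      · rintro ⟨q, hq, rfl⟩
        exact hq
      · intro hp
        exact ⟨(⟨(p.1, 0), rfl⟩, p.2), hp, rfl⟩
    rw [h1]
    exact isOpen_lt continuous_snd continuous_const

/-- I^(N+1) = I^N × I -/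
def consH (N : ℕ) : Cube (N + 1) ≃ₜ Cube N × I where
  toFun p := (fun k => p k.succ, p 0)
  invFun q := Fin.cons q.2 q.1
  left_inv p := by
    funext k
    refine Fin.cases ?_ (fun i => ?_) k
    · rfl
    · simp
  right_inv q := by
    refine Prod.ext ?_ ?_
    · funext k
      simp
    · simp
  continuous_toFun := (continuous_pi fun k => continuous_apply k.succ).prodMk (continuous_apply 0)
  continuous_invFun := by
    refine continuous_pi fun k => ?_
    refine Fin.cases ?_ (fun i => ?_) k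
    · simpa using continuous_snd
    · have : Continuous (fun a : Cube N × I => a.1 i) := (continuous_apply i).comp continuous_fst
      simpa using this

theorem common (h1 : S_Psi) (h2 : S_X2) (h3 : S_Omega) (h4 : S_PO) (h5 : S_POmap)
    (h6 : S_AdjEx) (h7 : S_AdjDesc) (h8 : S_Comp) (h9 : S_Basics) (h10 : S_SgFacts) (h11 : S_UC)
    (h12 : S_HomeoComp) (n N : ℕ) (hn : 1 ≤ n) (B : Type) [TopologicalSpace B] [CompactSpace B]
    [T2Space B] (io : B → Cube N) (vp : Cube N → B) (w : Cube N → ℝ) (hio : Continuous io)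
    (hw : Continuous w) (hvp : ContinuousOn vp {x | w x ≤ 1}) (hw0 : ∀ x, 0 ≤ w x)
    (hwi : ∀ y, w (io y) = 0 ∧ vp (io y) = y) (hwv : ∀ x, w x = 0 → io (vp x) = x)
    (hseg : ∀ x x' : Cube N, ∀ la : ℝ, 0 ≤ la → la ≤ 1 → w x ≤ 1 →
      (∀ k, (x' k : ℝ) = (io (vp x) k : ℝ) + la * ((x k : ℝ) - (io (vp x) k : ℝ))) →
      vp x' = vp x ∧ w x' = la * w x) :
    TP n (XM n) (sM n) (B × I) B {p | p.2 = 0} Prod.fst := by
  intro b g hg Z _ _ _ i j ka hadj hka hkai hkaj D hD eta heta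
  have hcX : CompactSpace (XM n b) := ((h10 n hn).2.2.2.2.2.2.2.2 b).1
  obtain ⟨OM, C, u0, hC, hu0, hOM, hOM0, hOMd, hOMm⟩ := omega' h3 n b hn
  have hn1 : (0 : ℝ) < n + 1 := by positivity
  -- parameters
  set chi : ℝ := eta / (4 * (n + 1)) with hchi
  have hchi0 : 0 < chi := by positivity
  obtain ⟨de, hde, hunif⟩ := h11.2.1 (XM n b) Z D i hD hadj.conti chi hchi0
  set u : ℝ := min u0 (min (de / (2 * C)) (min (eta / (8 * C)) (eta / 8))) with hu
  have hupos : 0 < u := by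
    refine lt_min hu0 (lt_min (by positivity) (lt_min (by positivity) (by positivity)))
  have hu1 : u ≤ u0 := min_le_left _ _
  have hu2 : C * u ≤ de / 2 := by
    have : u ≤ de / (2 * C) := (min_le_right _ _).trans (min_le_left _ _)
    calc C * u ≤ C * (de / (2 * C)) := mul_le_mul_of_nonneg_left this hC.le
      _ = de / 2 := by field_simp
  have hu3 : C * u ≤ eta / 8 := by
    have : u ≤ eta / (8 * C) :=
      (min_le_right _ _).trans ((min_le_right _ _).trans (min_le_left _ _))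
    calc C * u ≤ C * (eta / (8 * C)) := mul_le_mul_of_nonneg_left this hC.le
      _ = eta / 8 := by field_simp
  have hu4 : u ≤ eta / 8 :=
    (min_le_right _ _).trans ((min_le_right _ _).trans (min_le_right _ _))
  set s0 : I := ⟨u / u0, by positivity, by rw [div_le_one hu0]; exact hu1⟩ with hs0
  have hs0u : (s0 : ℝ) * u0 = u := by
    show u / u0 * u0 = u
    field_simp
  have hsu : ∀ t : I, ((t * s0 : I) : ℝ) * u0 ≤ u := by
    intro t
    have h := mul_le_mul_of_nonneg_right t.2.2 hupos.le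
    have h' : ((t * s0 : I) : ℝ) * u0 = t * u := by
      rw [← hs0u]
      show ((t : ℝ) * s0) * u0 = t * (s0 * u0)
      ring
    rw [h']
    rwa [one_mul] at h
  have hOMs : ∀ (t : I) (x : XM n b), dist (OM (t * s0, x)) x ≤ C * u := fun t x =>
    (hOMd _ x).trans (mul_le_mul_of_nonneg_left (hsu t) hC.le)
  have hOMs0 : ∀ x : XM n b, dist (OM (s0, x)) x ≤ C * u := fun x => by
    have := hOMd s0 x
    rwa [hs0u] at this
  -- the moved attaching map
  set g' : B → XM n b := fun y => OM (s0, g y) with hg'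
  have hg'c : Continuous g' := hOM.comp (continuous_const.prodMk hg)
  have hAcl : IsClosed {p : B × I | p.2 = 0} := isClosed_eq continuous_snd continuous_const
  obtain ⟨Z0, _, _, _, i0, j0, hadj0⟩ := h6 (XM n b) (B × I) {p : B × I | p.2 = 0}
    (fun p => g' p.1) hAcl (hg'c.comp continuous_fst).continuousOn
  have hcol := collar B
  set Ga : I × ↥{p : B × I | p.2 = 0} → XM n b := fun q => OM (σ q.1 * s0, g q.2.1.1) with hGa
  have hGac : Continuous Ga := hOM.comp (Continuous.prodMk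
    ((unitInterval.continuous_symm.comp continuous_fst).mul continuous_const)
    (hg.comp (continuous_fst.comp (continuous_subtype_val.comp continuous_snd))))
  have hGa0 : ∀ a : ↥{p : B × I | p.2 = 0}, Ga (0, a) = (fun x : XM n b => x) (g' a.1.1) := by
    intro a
    show OM (σ 0 * s0, g a.1.1) = OM (s0, g a.1.1)
    rw [unitInterval.symm_zero, one_mul]
  have hGa1 : ∀ a : ↥{p : B × I | p.2 = 0}, Ga (1, a) = g a.1.1 := by
    intro a
    show OM (σ 1 * s0, g a.1.1) = g a.1.1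
    rw [unitInterval.symm_one, zero_mul]
    exact hOM0 _
  obtain ⟨thp, hthp, ht1, ht2, ht3, ht4⟩ := h5 (XM n b) (XM n b) (B × I) Z0 Z
    {p : B × I | p.2 = 0} _ (fun p => g' p.1) (fun p => g p.1) i0 j0 i j (fun x => x) Ga
    hAcl hcol hadj0 hadj continuous_id hGac hGa0 hGa1
  have hsoft1 : Soft n D ((n + 1) * (0 + 2 * chi)) thp := by
    refine h4 n (XM n b) (XM n b) (B × I) Z0 Z
      {p : B × I | p.2 = 0} _ (fun p => g' p.1) (fun p => g p.1) i0 j0 i j (fun x => x) Ga thp D 0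
      chi hAcl hcol hadj0 hadj continuous_id hGac hGa0 hGa1 hthp ht1 ht2 ht3 ht4
      ⟨⟨0, zero_mem_Mb n b⟩⟩ hD le_rfl hchi0.le ?_ ?_
    · intro s t a
      refine hunif _ _ ?_
      have h21 := hOMs (σ s) (g a.1.1)
      have h22 := hOMs (σ t) (g a.1.1)
      have h23 := dist_triangle_right (Ga (s, a)) (Ga (t, a)) (g a.1.1)
      have h24 : dist (Ga (s, a)) (g a.1.1) ≤ C * u := h21
      have h25 : dist (Ga (t, a)) (g a.1.1) ≤ C * u := h22
      linarith
    · exact h9.2.2.1 n (XM n b) _ ⟨fun x => hD.self _, fun x y => hD.symm _ _,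
        fun x y z => hD.tri _ _ _, hD.cont.comp ((hadj.conti.comp continuous_fst).prodMk
          (hadj.conti.comp continuous_snd))⟩
  -- Psi
  obtain ⟨Psi, hPsi, hPsiS, hPsi1, hPsi2⟩ := h1 n b N B io vp w g' u Z0 i0 j0 hn hupos hio hw hvp
    hw0 hwi hwv hseg hg'c (by
      intro y v hv
      refine hOMm s0 (g y) v ?_
      rw [hs0u]
      exact hv) hadj0
  -- homeomorphism
  let hom : XM n b × Cube (N + 1) ≃ₜ XM n b × (Cube N × I) :=
    (Homeomorph.refl (XM n b)).prodCongr (consH N)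
  have hD1 : IsCPM (fun x y : Z0 => D (thp x) (thp y)) :=
    ⟨fun x => hD.self _, fun x y => hD.symm _ _, fun x y z => hD.tri _ _ _,
      hD.cont.comp ((hthp.comp continuous_fst).prodMk (hthp.comp continuous_snd))⟩
  have hD2 : IsCPM (fun x y : XM n b × (Cube N × I) => D (thp (Psi x)) (thp (Psi y))) :=
    ⟨fun x => hD.self _, fun x y => hD.symm _ _, fun x y z => hD.tri _ _ _,
      hD.cont.comp (((hthp.comp hPsi).comp continuous_fst).prodMk
        ((hthp.comp hPsi).comp continuous_snd))⟩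
  have hD3 : IsCPM (fun x y : XM n b × Cube (N + 1) =>
      D (thp (Psi (hom x))) (thp (Psi (hom y)))) :=
    ⟨fun x => hD.self _, fun x y => hD.symm _ _, fun x y z => hD.tri _ _ _,
      hD.cont.comp (((hthp.comp (hPsi.comp hom.continuous)).comp continuous_fst).prodMk
        ((hthp.comp (hPsi.comp hom.continuous)).comp continuous_snd))⟩
  obtain ⟨b', th, hbb, hth, hthS, hthd⟩ := h2 n b (N + 1) _ (eta / 4) hn hD3 (by positivity)
  have hsoft2 : Soft n (fun x y : XM n b × (Cube N × I) => D (thp (Psi x)) (thp (Psi y)))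
      (eta / 4) (fun a => hom (th a)) :=
    (h12 n (XM n b') (XM n b') (XM n b × Cube (N + 1)) (XM n b × (Cube N × I)) th
      (Homeomorph.refl _) hom (eta / 4)).2 _ hthS
  have hsoft3 : Soft n (fun x y : Z0 => D (thp x) (thp y)) (eta / 4 + 0)
      (fun a => Psi (hom (th a))) :=
    h8 n (XM n b') (XM n b × (Cube N × I)) Z0 _ (eta / 4) 0 (fun a => hom (th a)) Psi hD1
      (hom.continuous.comp hth) hPsi hsoft2 (hPsiS _ hD1)
  have hsoft4 : Soft n D (eta / 4 + 0 + (n + 1) * (0 + 2 * chi))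
      (fun a => thp (Psi (hom (th a)))) :=
    h8 n (XM n b') Z0 Z D (eta / 4 + 0) _ (fun a => Psi (hom (th a))) thp hD
      (hPsi.comp (hom.continuous.comp hth)) hthp hsoft3 hsoft1
  -- the retraction of Z0
  obtain ⟨d1, -, -, -, -, -⟩ := h7 (XM n b) (B × I) Z0 (XM n b) _ _ i0 j0 hadj0
  obtain ⟨ka', -, hka'i, hka'j⟩ := d1 id (fun p => g' p.1) continuous_id
    (hg'c.comp continuous_fst) (fun t _ => rfl)
  have hkk : ∀ z, dist (ka (thp z)) (ka' z) ≤ 2 * (C * u) := by
    intro z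
    rcases hadj0.surj z with ⟨a0, rfl⟩ | ⟨⟨y, t⟩, rfl⟩
    · rw [ht1, hkai, hka'i]
      simp only [id, dist_self]
      positivity
    · rw [hka'j]
      have hy := hOMs0 (g y)
      by_cases ht : (t : ℝ) ≤ 1 / 2
      · have h31 := ht2 ⟨(y, 0), rfl⟩ t ⟨2 * t, by linarith [t.2.1], by linarith⟩ ht rfl
        have h32 : thp (j0 (y, t)) = i (Ga (⟨2 * t, by linarith [t.2.1], by linarith⟩,
          ⟨(y, 0), rfl⟩)) := h31
        rw [h32, hkai]
        have h33 : dist (Ga (⟨2 * t, by linarith [t.2.1], by linarith⟩, ⟨(y, 0), rfl⟩)) (g y) ≤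
          C * u := hOMs _ (g y)
        have h34 := dist_triangle_right
          (Ga (⟨2 * t, by linarith [t.2.1], by linarith⟩, ⟨(y, 0), rfl⟩)) (g' y) (g y)
        have h35 : dist (g' y) (g y) ≤ C * u := hy
        show dist _ (g' y) ≤ _
        linarith
      · rw [not_le] at ht
        have h31 := ht3 ⟨(y, 0), rfl⟩ t ⟨2 * t - 1, by linarith, by linarith [t.2.2]⟩ ht.le rfl
        have h32 : thp (j0 (y, t)) = j (y, ⟨2 * t - 1, by linarith, by linarith [t.2.2]⟩) := h31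
        rw [h32, hkaj]
        have h35 : dist (g' y) (g y) ≤ C * u := hy
        rw [dist_comm] at h35
        show dist (g y) (g' y) ≤ _
        have : 0 ≤ C * u := by positivity
        linarith
  have hPd := hPsi2 ka' (fun x => hka'i x) (fun t => hka'j t)
  refine ⟨b', fun a => thp (Psi (hom (th a))), hbb,
    hthp.comp (hPsi.comp (hom.continuous.comp hth)), ?_, ?_, ?_⟩
  · refine h9.1 n n (XM n b') Z D D _ eta _ le_rfl ?_ hD hD
      (hthp.comp (hPsi.comp (hom.continuous.comp hth))) (fun _ _ => le_rfl) hsoft4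
    have : ((n : ℝ) + 1) * (0 + 2 * chi) = eta / 2 := by
      rw [hchi]
      field_simp
      ring
    rw [this]
    linarith
  · intro x
    have h41 := hkk (Psi (hom (th x)))
    have h42 := hPd (hom (th x))
    have h43 : dist (hom (th x)).1 (sM n b b' x) ≤ eta / 4 := hthd x
    have h44 := dist_triangle4 (ka (thp (Psi (hom (th x))))) (ka' (Psi (hom (th x))))
      (hom (th x)).1 (sM n b b' x)
    show dist (ka (thp (Psi (hom (th x))))) (sM n b b' x) ≤ eta
    linarith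
  · intro x hx
    have h51 : Psi (hom (th x)) = i0 (hom (th x)).1 := by
      refine hPsi1 _ fun y => ?_
      have h52 := hx y
      have h53 : dist (hom (th x)).1 (sM n b b' x) ≤ eta / 4 := hthd x
      have h54 : dist (g' y) (g y) ≤ C * u := hOMs0 (g y)
      have h55 := dist_triangle4 (sM n b b' x) (hom (th x)).1 (g' y) (g y)
      have h56 := dist_comm (sM n b b' x) (hom (th x)).1
      by_contra hcon
      rw [not_le] at hcon
      linarith
    refine ⟨(hom (th x)).1, ?_⟩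
    show i _ = thp (Psi (hom (th x)))
    rw [h51, ht1]

/-! ### the sphere -/

/-- distance from the centre -/
noncomputable def R (N : ℕ) (x : Cube N) : ℝ := dist x (ctr N)

theorem R_cont (N : ℕ) : Continuous (R N) := continuous_id.dist continuous_const

theorem coord_le (N : ℕ) (x : Cube N) (k : Fin N) : |(x k : ℝ) - 1 / 2| ≤ R N x := by
  have := dist_le_pi_dist x (ctr N) k
  rw [Subtype.dist_eq, Real.dist_eq] at this
  exact this

theorem R_le (N : ℕ) (x : Cube N) (r : ℝ) (hr : 0 ≤ r) (h : ∀ k, |(x k : ℝ) - 1 / 2| ≤ r) :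
    R N x ≤ r := by
  refine (dist_pi_le_iff hr).2 fun k => ?_
  rw [Subtype.dist_eq, Real.dist_eq]
  exact h k

theorem R_half (N : ℕ) (x : Cube N) : R N x ≤ 1 / 2 := by
  refine R_le N x _ (by norm_num) fun k => ?_
  have h1 := (x k).2.1
  have h2 := (x k).2.2
  rw [abs_le]
  constructor <;> linarith

theorem R_nonneg (N : ℕ) (x : Cube N) : 0 ≤ R N x := dist_nonneg

theorem R_att (n : ℕ) (x : Cube (n + 1)) : ∃ k, |(x k : ℝ) - 1 / 2| = R (n + 1) x := by
  by_contra hcon
  have hlt : ∀ k, |(x k : ℝ) - 1 / 2| < R (n + 1) x := fun k =>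
    lt_of_le_of_ne (coord_le _ x k) (fun h => hcon ⟨k, h⟩)
  have hpos : 0 < R (n + 1) x := lt_of_le_of_lt (abs_nonneg _) (hlt 0)
  have : dist x (ctr (n + 1)) < R (n + 1) x := by
    refine (dist_pi_lt_iff hpos).2 fun k => ?_
    rw [Subtype.dist_eq, Real.dist_eq]
    exact hlt k
  exact lt_irrefl _ this

theorem R_bd (n : ℕ) (x : Cube (n + 1)) (hx : x ∈ bd (n + 1)) : R (n + 1) x = 1 / 2 := by
  refine le_antisymm (R_half _ x) ?_
  obtain ⟨k, hk⟩ := hx
  refine le_trans ?_ (coord_le _ x k)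
  rcases hk with h | h
  · rw [h]
    norm_num
  · rw [h]
    norm_num

/-- radial projection -/
noncomputable def vf (N : ℕ) (x : Cube N) : Cube N := fun k =>
  Set.projIcc (0 : ℝ) 1 zero_le_one (1 / 2 + ((x k : ℝ) - 1 / 2) / (2 * R N x))

theorem vf_coord (N : ℕ) (x : Cube N) (hx : 0 < R N x) (k : Fin N) :
    (vf N x k : ℝ) = 1 / 2 + ((x k : ℝ) - 1 / 2) / (2 * R N x) := by
  have h1 := coord_le N x k
  rw [abs_le] at h1
  have h2 : (1 / 2 + ((x k : ℝ) - 1 / 2) / (2 * R N x)) ∈ Set.Icc (0 : ℝ) 1 := by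
    constructor
    · have : -(1 / 2) ≤ ((x k : ℝ) - 1 / 2) / (2 * R N x) := by
        rw [le_div_iff₀ (by positivity)]
        linarith
      linarith
    · have : ((x k : ℝ) - 1 / 2) / (2 * R N x) ≤ 1 / 2 := by
        rw [div_le_iff₀ (by positivity)]
        linarith
      linarith
  show ((Set.projIcc (0 : ℝ) 1 zero_le_one _ : unitInterval) : ℝ) = _
  rw [Set.projIcc_of_mem zero_le_one h2]

theorem vf_bd (n : ℕ) (x : Cube (n + 1)) (hx : 0 < R (n + 1) x) : vf (n + 1) x ∈ bd (n + 1) := by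
  obtain ⟨k, hk⟩ := R_att n x
  refine ⟨k, ?_⟩
  have h1 := vf_coord (n + 1) x hx k
  rcases abs_choice ((x k : ℝ) - 1 / 2) with h | h
  · right
    apply Subtype.ext
    rw [h1]
    rw [h] at hk
    rw [hk]
    show 1 / 2 + R (n + 1) x / (2 * R (n + 1) x) = 1
    field_simp
    norm_num
  · left
    apply Subtype.ext
    rw [h1]
    rw [h] at hk
    have h2 : (x k : ℝ) - 1 / 2 = - R (n + 1) x := by linarith
    rw [h2]
    show 1 / 2 + -R (n + 1) x / (2 * R (n + 1) x) = 0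
    field_simp
    norm_num

theorem zero_bd (n : ℕ) : (fun _ => 0 : Cube (n + 1)) ∈ bd (n + 1) := ⟨0, Or.inl rfl⟩

open Classical in
/-- radial projection as a map to the boundary -/
noncomputable def vb (n : ℕ) (x : Cube (n + 1)) : ↥(bd (n + 1)) :=
  if h : vf (n + 1) x ∈ bd (n + 1) then ⟨vf (n + 1) x, h⟩ else ⟨_, zero_bd n⟩

theorem vb_val (n : ℕ) (x : Cube (n + 1)) (hx : 0 < R (n + 1) x) :
    ((vb n x : ↥(bd (n + 1))) : Cube (n + 1)) = vf (n + 1) x := by
  rw [vb, dif_pos (vf_bd n x hx)]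

theorem vf_id (n : ℕ) (x : Cube (n + 1)) (hx : R (n + 1) x = 1 / 2) : vf (n + 1) x = x := by
  funext k
  apply Subtype.ext
  rw [vf_coord (n + 1) x (by rw [hx]; norm_num), hx]
  ring

end TcylM

open TcylM in
theorem pr_TcylM (h1 : S_Psi) (h2 : S_X2) (h3 : S_Omega) (h4 : S_PO) (h5 : S_POmap)
    (h6 : S_AdjEx) (h7 : S_AdjDesc) (h8 : S_Comp) (h9 : S_Basics) (h10 : S_SgFacts) (h11 : S_UC)
    (h12 : S_HomeoComp) : S_TcylM := by
  intro n hn
  constructor
  · intro k _
    refine common h1 h2 h3 h4 h5 h6 h7 h8 h9 h10 h11 h12 n k hn (Cube k) id id (fun _ => 0)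
      continuous_id continuous_const continuous_id.continuousOn (fun _ => le_rfl)
      (fun _ => ⟨rfl, rfl⟩) (fun _ _ => rfl) ?_
    intro x x' la _ _ _ hx
    refine ⟨?_, by simp⟩
    funext k
    apply Subtype.ext
    have := hx k
    simp only [id] at this ⊢
    rw [this]
    ring
  · have hcl : IsClosed (bd (n + 1)) := by
      have : bd (n + 1) = ⋃ i : Fin (n + 1), {y : Cube (n + 1) | y i = 0 ∨ y i = 1} := by
        ext y
        simp [bd]
      rw [this]
      refine isClosed_iUnion_of_finite fun i => ?_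
      exact (isClosed_eq (continuous_apply i) continuous_const).union
        (isClosed_eq (continuous_apply i) continuous_const)
    have : CompactSpace ↥(bd (n + 1)) := isCompact_iff_compactSpace.1 hcl.isCompact
    refine common h1 h2 h3 h4 h5 h6 h7 h8 h9 h10 h11 h12 n (n + 1) hn (↥(bd (n + 1)))
      Subtype.val (vb n) (fun x => 4 * (1 / 2 - R (n + 1) x)) continuous_subtype_val
      (continuous_const.mul (continuous_const.sub (R_cont _))) ?_ ?_ ?_ ?_ ?_
    · rw [Topology.IsInducing.subtypeVal.continuousOn_iff]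
      have hpos : ∀ x ∈ {x | 4 * (1 / 2 - R (n + 1) x) ≤ 1}, 0 < R (n + 1) x := by
        intro x hx
        have : 4 * (1 / 2 - R (n + 1) x) ≤ 1 := hx
        linarith
      have hc : ContinuousOn (vf (n + 1)) {x | 4 * (1 / 2 - R (n + 1) x) ≤ 1} := by
        refine continuousOn_pi.2 fun k => ?_
        refine continuous_projIcc.comp_continuousOn ?_
        refine continuousOn_const.add (ContinuousOn.div ?_ ?_ ?_)
        · exact ((continuous_subtype_val.comp (continuous_apply k)).sub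
            continuous_const).continuousOn
        · exact (continuous_const.mul (R_cont _)).continuousOn
        · intro x hx
          have := hpos x hx
          positivity
      exact hc.congr fun x hx => vb_val n x (hpos x hx)
    · intro x
      have := R_half (n + 1) x
      linarith
    · intro y
      have hy := R_bd n y.1 y.2
      refine ⟨by simp only [hy]; norm_num, ?_⟩
      apply Subtype.ext
      rw [vb_val n _ (by rw [hy]; norm_num)]
      exact vf_id n _ hy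
    · intro x hx
      have hx' : R (n + 1) x = 1 / 2 := by linarith
      rw [vb_val n x (by rw [hx']; norm_num)]
      exact vf_id n x hx'
    · intro x x' la hla hla1 hx hxx
      have hr4 : 1 / 4 ≤ R (n + 1) x := by linarith
      have hr : 0 < R (n + 1) x := by linarith
      rw [vb_val n x hr] at hxx
      set r := R (n + 1) x with hrdef
      set lam : ℝ := (1 - la) / (2 * r) + la with hlam
      have hlam0 : 0 < lam := by
        rcases eq_or_lt_of_le hla with h | h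
        · rw [hlam, ← h]
          simp only [sub_zero, add_zero]
          positivity
        · have : 0 ≤ (1 - la) / (2 * r) := div_nonneg (by linarith) (by linarith)
          rw [hlam]
          linarith
      have hxk : ∀ k, (x' k : ℝ) - 1 / 2 = lam * ((x k : ℝ) - 1 / 2) := by
        intro k
        rw [hxx k, vf_coord (n + 1) x hr k, hlam, ← hrdef]
        field_simp
        ring
      have hR' : R (n + 1) x' = lam * r := by
        apply le_antisymm
        · refine R_le _ _ _ (by positivity) fun k => ?_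
          rw [hxk k, abs_mul, abs_of_pos hlam0]
          exact mul_le_mul_of_nonneg_left (coord_le _ x k) hlam0.le
        · obtain ⟨k, hk⟩ := R_att n x
          have h := coord_le (n + 1) x' k
          rw [hxk k, abs_mul, abs_of_pos hlam0, hk] at h
          exact h
      have hlr : lam * r = (1 - la) / 2 + la * r := by
        rw [hlam]
        field_simp
      constructor
      · apply Subtype.ext
        have hpos' : 0 < R (n + 1) x' := by rw [hR']; positivity
        rw [vb_val n x hr, vb_val n x' hpos']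
        funext k
        apply Subtype.ext
        rw [vf_coord _ _ hpos' k, vf_coord _ _ hr k, hR', hxk k, ← hrdef]
        field_simp
      · rw [hR', hlr]
        ring

end M202

end

section

/-!
MP_202a65_gt, item TowerM: the stages of the Menger compactum form a tower.
-/

open Set Topology unitInterval Filter

namespace M202

theorem pr_TowerM (h1 : S_SgFacts) (h2 : S_X1all) (h3 : S_TcylM) (h4 : S_TsphM) : S_TowerM := by
  intro n hn
  obtain ⟨_, _, _, g4, g5, g6, _, _, g9⟩ := h1 n hn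
  exact
    { compact := fun b => (g9 b).1
      nonempty := fun b => ⟨⟨0, zero_mem_Mb n b⟩⟩
      refl := fun b x => g5 b x
      comp := fun b b' b'' x hb hb' => g6 b b' b'' x hb hb'
      cont := fun b b' hb => (g4 b b' hb).1
      soft := fun b b' hb => h2 n b b' hn hb
      cyl := fun k hk => (h3 n hn).1 k hk
      cylS := (h3 n hn).2
      sph := h4 n hn }

end M202

end

section

/-!
MP_202a65_gt, item TsphM: tower property for the sphere wedge (helper69).
-/

open Set Topology unitInterval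

namespace M202

theorem TsphM_toM_val {n b : ℕ} {y : Cube (2 * n + 1)} (h : y ∈ Mb n b) :
    (toM n b y : Cube (2 * n + 1)) = y := by
  unfold toM
  rw [dif_pos h]

/-! ### the characteristic map -/

noncomputable def TsphM_s {n : ℕ} (y : Cube n) (i : Fin (2 * n + 1)) : ℝ :=
  if h : (i : ℕ) < n then (y ⟨i, h⟩ : ℝ) else 0

noncomputable def TsphM_J (n L : ℕ) (lo : Fin (2 * n + 1) → ℤ) (y : Cube n) :
    Cube (2 * n + 1) :=
  fun i => projIcc (0 : ℝ) 1 zero_le_one (((lo i : ℝ) + TsphM_s y i) / L)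

theorem TsphM_s_nonneg {n : ℕ} (y : Cube n) (i : Fin (2 * n + 1)) : 0 ≤ TsphM_s y i := by
  unfold TsphM_s
  split_ifs with h
  · exact (y _).2.1
  · exact le_rfl

theorem TsphM_s_le {n : ℕ} (y : Cube n) (i : Fin (2 * n + 1)) :
    TsphM_s y i ≤ if (i : ℕ) < n then 1 else 0 := by
  unfold TsphM_s
  split_ifs with h
  · exact (y _).2.2
  · exact le_rfl

theorem TsphM_s_le_one {n : ℕ} (y : Cube n) (i : Fin (2 * n + 1)) : TsphM_s y i ≤ 1 := by
  unfold TsphM_s
  split_ifs with h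
  · exact (y _).2.2
  · exact zero_le_one

theorem TsphM_J_val {n L : ℕ} (hL : 1 ≤ L) {lo : Fin (2 * n + 1) → ℤ} (h0 : ∀ i, 0 ≤ lo i)
    (h1 : ∀ i, (lo i : ℝ) + 1 ≤ L) (y : Cube n) (i : Fin (2 * n + 1)) :
    (L : ℝ) * ((TsphM_J n L lo y i : unitInterval) : ℝ) = lo i + TsphM_s y i := by
  have hL' : (0 : ℝ) < L := by exact_mod_cast hL
  have h0' : (0 : ℝ) ≤ lo i := by exact_mod_cast h0 i
  have hs0 := TsphM_s_nonneg y i
  have hs1 := TsphM_s_le_one y i
  have hmem : ((lo i : ℝ) + TsphM_s y i) / L ∈ Icc (0 : ℝ) 1 := by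
    constructor
    · positivity
    · rw [div_le_one hL']
      linarith [h1 i]
  unfold TsphM_J
  rw [projIcc_of_mem zero_le_one hmem]
  show (L : ℝ) * (((lo i : ℝ) + TsphM_s y i) / L) = _
  field_simp

theorem TsphM_J_cont (n L : ℕ) (lo : Fin (2 * n + 1) → ℤ) : Continuous (TsphM_J n L lo) := by
  refine continuous_pi fun i => ?_
  unfold TsphM_J TsphM_s
  refine continuous_projIcc.comp ?_
  split_ifs with h
  · fun_prop
  · fun_prop

theorem TsphM_J_inj {n L : ℕ} (hL : 1 ≤ L) {lo : Fin (2 * n + 1) → ℤ} (h0 : ∀ i, 0 ≤ lo i)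
    (h1 : ∀ i, (lo i : ℝ) + 1 ≤ L) : Function.Injective (TsphM_J n L lo) := by
  intro y y' hyy
  funext i
  have hi : (i : ℕ) < 2 * n + 1 := by omega
  have e1 := TsphM_J_val hL h0 h1 y ⟨i, hi⟩
  have e2 := TsphM_J_val hL h0 h1 y' ⟨i, hi⟩
  rw [hyy, e2] at e1
  have e3 : TsphM_s y ⟨i, hi⟩ = (y i : ℝ) := by
    unfold TsphM_s
    simp
  have e4 : TsphM_s y' ⟨i, hi⟩ = (y' i : ℝ) := by
    unfold TsphM_s
    simp
  apply Subtype.ext
  linarith

theorem TsphM_mem_face {n L : ℕ} (hL : 1 ≤ L) {lo : Fin (2 * n + 1) → ℤ} (h0 : ∀ i, 0 ≤ lo i)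
    (h1 : ∀ i, (lo i : ℝ) + 1 ≤ L) {y : Cube n} (hy : y ∉ bd n) (w : Cube (2 * n + 1)) :
    w ∈ faceOf L (TsphM_J n L lo y) ↔
      ∀ i, (lo i : ℝ) ≤ (L : ℝ) * (w i : ℝ) ∧
        (L : ℝ) * (w i : ℝ) ≤ lo i + if (i : ℕ) < n then 1 else 0 := by
  have key : ∀ i, ((⌊(L : ℝ) * ((TsphM_J n L lo y i : unitInterval) : ℝ)⌋ : ℤ) : ℝ) = lo i ∧
      ((⌈(L : ℝ) * ((TsphM_J n L lo y i : unitInterval) : ℝ)⌉ : ℤ) : ℝ) =
        lo i + if (i : ℕ) < n then 1 else 0 := by
    intro i
    rw [TsphM_J_val hL h0 h1]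
    by_cases hi : (i : ℕ) < n
    · have hs : TsphM_s y i = (y ⟨i, hi⟩ : ℝ) := by
        unfold TsphM_s
        rw [dif_pos hi]
      have hpos : 0 < (y ⟨i, hi⟩ : ℝ) := by
        rcases (y ⟨i, hi⟩).2.1.eq_or_lt with h | h
        · exfalso
          exact hy ⟨_, Or.inl (Subtype.ext h.symm)⟩
        · exact h
      have hlt : (y ⟨i, hi⟩ : ℝ) < 1 := by
        rcases (y ⟨i, hi⟩).2.2.eq_or_lt with h | h
        · exfalso
          exact hy ⟨_, Or.inr (Subtype.ext h)⟩
        · exact h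
      rw [hs, if_pos hi]
      constructor
      · have : ⌊(lo i : ℝ) + (y ⟨i, hi⟩ : ℝ)⌋ = lo i := by
          rw [Int.floor_eq_iff]
          constructor <;> linarith
        rw [this]
      · have : ⌈(lo i : ℝ) + (y ⟨i, hi⟩ : ℝ)⌉ = lo i + 1 := by
          rw [Int.ceil_eq_iff]
          push_cast
          constructor <;> linarith
        rw [this]
        push_cast
        ring
    · have hs : TsphM_s y i = 0 := by
        unfold TsphM_s
        rw [dif_neg hi]
      rw [hs, if_neg hi, add_zero]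
      constructor
      · rw [Int.floor_intCast]
      · rw [Int.ceil_intCast]
  unfold faceOf
  simp only [mem_ofPred_eq]
  refine forall_congr' fun i => ?_
  rw [(key i).1, (key i).2]

theorem TsphM_ctr (n : ℕ) : ctr n ∉ bd n := by
  rintro ⟨i, h | h⟩
  · have := congrArg (fun s : unitInterval => (s : ℝ)) h
    simp [ctr] at this
  · have := congrArg (fun s : unitInterval => (s : ℝ)) h
    simp [ctr] at this

theorem TsphM_J_surj {n L : ℕ} (hL : 1 ≤ L) {lo : Fin (2 * n + 1) → ℤ} (h0 : ∀ i, 0 ≤ lo i)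
    (h1 : ∀ i, (lo i : ℝ) + 1 ≤ L) {w : Cube (2 * n + 1)}
    (hw : w ∈ faceOf L (TsphM_J n L lo (ctr n))) : ∃ y, TsphM_J n L lo y = w := by
  rw [TsphM_mem_face hL h0 h1 (TsphM_ctr n)] at hw
  have hL' : (0 : ℝ) < L := by exact_mod_cast hL
  refine ⟨fun i => ⟨(L : ℝ) * (w ⟨i, by omega⟩ : ℝ) - lo ⟨i, by omega⟩, ?_, ?_⟩, ?_⟩
  · have := (hw ⟨i, by omega⟩).1
    linarith
  · have := (hw ⟨i, by omega⟩).2
    rw [if_pos i.2] at this
    linarith
  · funext i
    apply Subtype.ext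
    have e1 := TsphM_J_val hL h0 h1 (fun i : Fin n => ⟨(L : ℝ) * (w ⟨i, by omega⟩ : ℝ) -
      lo ⟨i, by omega⟩, by
        have := (hw ⟨i, by omega⟩).1
        linarith, by
        have := (hw ⟨i, by omega⟩).2
        rw [if_pos i.2] at this
        linarith⟩) i
    have e2 : (L : ℝ) * (w i : ℝ) = lo i + TsphM_s (fun i : Fin n =>
      (⟨(L : ℝ) * (w ⟨i, by omega⟩ : ℝ) - lo ⟨i, by omega⟩, by
        have := (hw ⟨i, by omega⟩).1
        linarith, by
        have := (hw ⟨i, by omega⟩).2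
        rw [if_pos i.2] at this
        linarith⟩ : unitInterval)) i := by
      unfold TsphM_s
      by_cases hi : (i : ℕ) < n
      · rw [dif_pos hi]
        simp
      · rw [dif_neg hi]
        have h2 := hw i
        rw [if_neg hi] at h2
        linarith [h2.1, h2.2]
    have e3 := e1.trans e2.symm
    exact mul_left_cancel₀ hL'.ne' e3

theorem TsphM_J_bd {n L : ℕ} (hL : 1 ≤ L) {lo : Fin (2 * n + 1) → ℤ} (h0 : ∀ i, 0 ≤ lo i)
    (h1 : ∀ i, (lo i : ℝ) + 1 ≤ L) {y : Cube n} (hy : y ∈ bd n)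
    (hself : ∀ x : Cube (2 * n + 1), x ∈ faceOf L x) :
    faceOf L (TsphM_J n L lo y) ≠ faceOf L (TsphM_J n L lo (ctr n)) := by
  intro he
  have hz : TsphM_J n L lo (ctr n) ∈ faceOf L (TsphM_J n L lo y) := he ▸ hself _
  obtain ⟨i, hi⟩ := hy
  have hi2 : (i : ℕ) < 2 * n + 1 := by omega
  have h2 := hz ⟨i, hi2⟩
  rw [TsphM_J_val hL h0 h1, TsphM_J_val hL h0 h1] at h2
  have e3 : TsphM_s y ⟨i, hi2⟩ = (y i : ℝ) := by
    unfold TsphM_s
    simp
  have e4 : TsphM_s (ctr n) ⟨i, hi2⟩ = 1 / 2 := by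
    unfold TsphM_s
    simp [ctr]
  rw [e3, e4] at h2
  rcases hi with hi | hi
  · rw [hi] at h2
    have : ((0 : unitInterval) : ℝ) = 0 := rfl
    rw [this, add_zero, Int.floor_intCast, Int.ceil_intCast] at h2
    linarith [h2.1, h2.2]
  · rw [hi] at h2
    have : ((1 : unitInterval) : ℝ) = 1 := rfl
    rw [this] at h2
    have h3 : ⌊(lo ⟨i, hi2⟩ : ℝ) + 1⌋ = lo ⟨i, hi2⟩ + 1 := by
      rw [Int.floor_add_one, Int.floor_intCast]
    rw [h3] at h2
    push_cast at h2
    linarith [h2.1, h2.2]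

theorem TsphM_J_grid {n L : ℕ} (hL : 1 ≤ L) {lo : Fin (2 * n + 1) → ℤ} (h0 : ∀ i, 0 ≤ lo i)
    (h1 : ∀ i, (lo i : ℝ) + 1 ≤ L) :
    {i | ¬ IsGrid L (TsphM_J n L lo (ctr n) i)} = {i : Fin (2 * n + 1) | (i : ℕ) < n} := by
  ext i
  simp only [mem_ofPred_eq, IsGrid]
  rw [TsphM_J_val hL h0 h1]
  by_cases hi : (i : ℕ) < n
  · have e4 : TsphM_s (ctr n) i = 1 / 2 := by
      unfold TsphM_s
      simp [ctr, hi]
    rw [e4]
    constructor
    · intro _
      exact hi
    · rintro - ⟨k, hk⟩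
      have : (2 * (k - lo i) : ℤ) = 1 := by
        have : (2 * ((k : ℝ) - lo i) : ℝ) = 1 := by linarith
        exact_mod_cast this
      omega
  · have e4 : TsphM_s (ctr n) i = 0 := by
      unfold TsphM_s
      simp [hi]
    rw [e4]
    constructor
    · intro h
      exact absurd ⟨lo i, by simp⟩ h
    · intro h
      exact absurd h hi

theorem TsphM_ncard (n : ℕ) : {i : Fin (2 * n + 1) | (i : ℕ) < n}.ncard = n := by
  have : {i : Fin (2 * n + 1) | (i : ℕ) < n} =
      (Finset.univ.image (fun i : Fin n => (⟨i, by omega⟩ : Fin (2 * n + 1))) :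
        Finset (Fin (2 * n + 1))) := by
    ext i
    simp only [mem_ofPred_eq, Finset.coe_image, Finset.coe_univ, image_univ, mem_range]
    constructor
    · intro h
      exact ⟨⟨i, h⟩, rfl⟩
    · rintro ⟨k, rfl⟩
      exact k.2
  rw [this, ncard_coe_finset, Finset.card_image_of_injective]
  · simp
  · intro a a' h
    have := congrArg (fun s : Fin (2 * n + 1) => (s : ℕ)) h
    exact Fin.ext this

/-! ### faces -/

theorem TsphM_face_grid {N L : ℕ} {x z : Cube N} (hz : z ∈ faceOf L x) {i : Fin N}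
    (hi : IsGrid L (x i)) : (L : ℝ) * (z i : ℝ) = (L : ℝ) * (x i : ℝ) := by
  obtain ⟨k, hk⟩ := hi
  have := hz i
  rw [hk, Int.floor_intCast, Int.ceil_intCast] at this
  rw [hk]
  exact le_antisymm this.2 this.1

theorem TsphM_face_eq {N L : ℕ} {x z : Cube N} (hz : z ∈ faceOf L x)
    (hc : {i | ¬ IsGrid L (x i)}.ncard ≤ {i | ¬ IsGrid L (z i)}.ncard) :
    faceOf L x = faceOf L z := by
  have hsub : {i | ¬ IsGrid L (z i)} ⊆ {i | ¬ IsGrid L (x i)} := by
    intro i hi hx
    apply hi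
    obtain ⟨k, hk⟩ := hx
    exact ⟨k, by rw [TsphM_face_grid hz ⟨k, hk⟩, hk]⟩
  have heq := Set.eq_of_subset_of_ncard_le hsub hc (Set.toFinite _)
  have key : ∀ i, ⌊(L : ℝ) * (x i : ℝ)⌋ = ⌊(L : ℝ) * (z i : ℝ)⌋ ∧
      ⌈(L : ℝ) * (x i : ℝ)⌉ = ⌈(L : ℝ) * (z i : ℝ)⌉ := by
    intro i
    by_cases hx : IsGrid L (x i)
    · rw [TsphM_face_grid hz hx]
      exact ⟨rfl, rfl⟩
    · have hzi : ¬ IsGrid L (z i) := by
        have : i ∈ {i | ¬ IsGrid L (z i)} := by
          rw [heq]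
          exact hx
        exact this
      have h2 := hz i
      have hlt1 : ((⌊(L : ℝ) * (x i : ℝ)⌋ : ℤ) : ℝ) < (L : ℝ) * (z i : ℝ) := by
        rcases h2.1.eq_or_lt with h | h
        · exact absurd ⟨_, h.symm⟩ hzi
        · exact h
      have hlt2 : (L : ℝ) * (z i : ℝ) < ((⌈(L : ℝ) * (x i : ℝ)⌉ : ℤ) : ℝ) := by
        rcases h2.2.eq_or_lt with h | h
        · exact absurd ⟨_, h⟩ hzi
        · exact h
      have hce : ((⌈(L : ℝ) * (x i : ℝ)⌉ : ℤ) : ℝ) ≤ ((⌊(L : ℝ) * (x i : ℝ)⌋ : ℤ) : ℝ) + 1 := by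
        exact_mod_cast Int.ceil_le_floor_add_one _
      constructor
      · symm
        rw [Int.floor_eq_iff]
        exact ⟨hlt1.le, by linarith⟩
      · symm
        rw [Int.ceil_eq_iff]
        exact ⟨by linarith, hlt2.le⟩
  ext w
  unfold faceOf
  simp only [mem_ofPred_eq]
  refine forall_congr' fun i => ?_
  rw [(key i).1, (key i).2]

theorem TsphM_closed {n b : ℕ} (hcub : Cubical (3 ^ b) (Zb n b))
    (hself : ∀ x : Cube (2 * n + 1), x ∈ faceOf (3 ^ b) x)
    (hsub : ∀ x : Cube (2 * n + 1), ∀ y ∈ faceOf (3 ^ b) x, faceOf (3 ^ b) y ⊆ faceOf (3 ^ b) x)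
    {z : Cube (2 * n + 1)} (hz : {i | ¬ IsGrid (3 ^ b) (z i)}.ncard = n) :
    Cubical (3 ^ b) {x : Cube (2 * n + 1) | x ∈ Zb n b ∧ faceOf (3 ^ b) x ≠ faceOf (3 ^ b) z} := by
  intro x hx y hy
  refine ⟨hcub x hx.1 hy, fun he => hx.2 ?_⟩
  have h1 : z ∈ faceOf (3 ^ b) x := by
    refine hsub x y hy ?_
    rw [he]
    exact hself z
  refine TsphM_face_eq h1 ?_
  rw [hz]
  exact hx.1.2

/-! ### the collar of the boundary of the cube -/

theorem TsphM_col_mem {n : ℕ} (a : Cube n) (t : I) (i : Fin n) :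
    1 / 2 + (1 - (t : ℝ) / 2) * ((a i : ℝ) - 1 / 2) ∈ Icc (0 : ℝ) 1 := by
  have h1 := (a i).2.1
  have h2 := (a i).2.2
  have h3 := t.2.1
  have h4 := t.2.2
  constructor
  · nlinarith
  · nlinarith

noncomputable def TsphM_col (n : ℕ) (p : ↥(bd n) × I) : Cube n :=
  fun i => ⟨_, TsphM_col_mem (p.1 : Cube n) p.2 i⟩

theorem TsphM_bd_abs {n : ℕ} {a : Cube n} (ha : a ∈ bd n) :
    ∃ i, |(a i : ℝ) - 1 / 2| = 1 / 2 := by
  obtain ⟨i, h | h⟩ := ha
  · refine ⟨i, ?_⟩
    rw [h]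
    have : ((0 : unitInterval) : ℝ) = 0 := rfl
    rw [this]
    norm_num [abs_of_nonneg]
  · refine ⟨i, ?_⟩
    rw [h]
    have : ((1 : unitInterval) : ℝ) = 1 := rfl
    rw [this]
    norm_num [abs_of_nonneg]

theorem TsphM_abs_le (s : unitInterval) : |(s : ℝ) - 1 / 2| ≤ 1 / 2 := by
  rw [abs_le]
  constructor <;> linarith [s.2.1, s.2.2]

theorem TsphM_collar (n : ℕ) : IsCollar (bd n) (TsphM_col n) := by
  refine ⟨?_, ?_, ?_, ?_⟩
  · refine continuous_pi fun i => ?_
    unfold TsphM_col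
    refine Continuous.subtype_mk ?_ _
    have hc : Continuous (fun p : ↥(bd n) × I => (((p.1 : Cube n) i : unitInterval) : ℝ)) :=
      continuous_subtype_val.comp ((continuous_apply i).comp
        (continuous_subtype_val.comp continuous_fst))
    have ht : Continuous (fun p : ↥(bd n) × I => ((p.2 : unitInterval) : ℝ)) :=
      continuous_subtype_val.comp continuous_snd
    exact continuous_const.add
      ((continuous_const.sub (ht.div_const 2)).mul (hc.sub continuous_const))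
  · have aux : ∀ p p' : ↥(bd n) × I, TsphM_col n p = TsphM_col n p' → (p'.2 : ℝ) ≤ p.2 := by
      intro p p' h
      obtain ⟨i, hi⟩ := TsphM_bd_abs p.1.2
      have h2 := congrArg (fun y : Cube n => |((y i : unitInterval) : ℝ) - 1 / 2|) h
      simp only [TsphM_col] at h2
      rw [add_sub_cancel_left, add_sub_cancel_left, abs_mul, abs_mul, hi] at h2
      have h3 := TsphM_abs_le ((p'.1 : Cube n) i)
      have h4 : (0 : ℝ) ≤ 1 - (p.2 : ℝ) / 2 := by linarith [p.2.2.2]
      have h5 : (0 : ℝ) ≤ 1 - (p'.2 : ℝ) / 2 := by linarith [p'.2.2.2]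
      rw [abs_of_nonneg h4, abs_of_nonneg h5] at h2
      nlinarith [mul_le_mul_of_nonneg_left h3 h5]
    intro p p' h
    have h1 := aux p p' h
    have h2 := aux p' p h.symm
    have ht : p.2 = p'.2 := Subtype.ext (le_antisymm h2 h1)
    refine Prod.ext (Subtype.ext (funext fun i => Subtype.ext ?_)) ht
    have h3 := congrArg (fun y : Cube n => ((y i : unitInterval) : ℝ)) h
    simp only [TsphM_col] at h3
    rw [← ht] at h3
    have h4 : (0 : ℝ) < 1 - (p.2 : ℝ) / 2 := by linarith [p.2.2.2]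
    have h5 := mul_left_cancel₀ h4.ne' (add_left_cancel h3)
    linarith
  · intro a
    funext i
    apply Subtype.ext
    show 1 / 2 + (1 - ((0 : unitInterval) : ℝ) / 2) * (((a : Cube n) i : ℝ) - 1 / 2) = _
    have : ((0 : unitInterval) : ℝ) = 0 := rfl
    rw [this]
    ring
  · have himg : TsphM_col n '' {p | p.2 < 1} =
        ⋃ i : Fin n, {y : Cube n | 1 / 4 < |(y i : ℝ) - 1 / 2|} := by
      ext y
      simp only [mem_image, mem_ofPred_eq, mem_iUnion]
      constructor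
      · rintro ⟨p, hp, rfl⟩
        obtain ⟨i, hi⟩ := TsphM_bd_abs p.1.2
        refine ⟨i, ?_⟩
        simp only [TsphM_col]
        rw [add_sub_cancel_left, abs_mul, hi]
        have hp' : (p.2 : ℝ) < 1 := hp
        have h4 : (0 : ℝ) ≤ 1 - (p.2 : ℝ) / 2 := by linarith [p.2.2.2]
        rw [abs_of_nonneg h4]
        linarith
      · rintro ⟨i, hi⟩
        obtain ⟨i0, -, hmax⟩ := Finset.exists_max_image Finset.univ
          (fun k => |(y k : ℝ) - 1 / 2|) ⟨i, Finset.mem_univ i⟩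
        set r := |(y i0 : ℝ) - 1 / 2| with hr
        have hr1 : 1 / 4 < r := hi.trans_le (hmax i (Finset.mem_univ i))
        have hr2 : r ≤ 1 / 2 := TsphM_abs_le _
        have hr0 : 0 < 2 * r := by linarith
        have hb : ∀ k, |((y k : ℝ) - 1 / 2) / (2 * r)| ≤ 1 / 2 := by
          intro k
          rw [abs_div, abs_of_pos hr0, div_le_iff₀ hr0]
          have h7 : |(y k : ℝ) - 1 / 2| ≤ r := hmax k (Finset.mem_univ k)
          linarith
        have hmem : ∀ k, 1 / 2 + ((y k : ℝ) - 1 / 2) / (2 * r) ∈ Icc (0 : ℝ) 1 := by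
          intro k
          have := abs_le.1 (hb k)
          constructor <;> linarith [this.1, this.2]
        have hbd : (fun k => (⟨_, hmem k⟩ : unitInterval)) ∈ bd n := by
          refine ⟨i0, ?_⟩
          rcases abs_cases ((y i0 : ℝ) - 1 / 2) with ⟨h, -⟩ | ⟨h, -⟩
          · right
            apply Subtype.ext
            show 1 / 2 + ((y i0 : ℝ) - 1 / 2) / (2 * r) = 1
            rw [← h, ← hr]
            field_simp
            norm_num
          · left
            apply Subtype.ext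
            show 1 / 2 + ((y i0 : ℝ) - 1 / 2) / (2 * r) = 0
            have h' : (y i0 : ℝ) - 1 / 2 = - r := by linarith
            rw [h']
            field_simp
            norm_num
        refine ⟨(⟨_, hbd⟩, ⟨2 - 4 * r, by linarith, by linarith⟩), ?_, ?_⟩
        · show (2 - 4 * r : ℝ) < 1
          linarith
        · funext k
          apply Subtype.ext
          show 1 / 2 + (1 - (2 - 4 * r) / 2) * (1 / 2 + ((y k : ℝ) - 1 / 2) / (2 * r) - 1 / 2) = _
          field_simp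
          ring
    rw [himg]
    refine isOpen_iUnion fun i => ?_
    exact isOpen_lt continuous_const (by fun_prop)

theorem TsphM_J_skel {n L : ℕ} (hL : 1 ≤ L) {lo : Fin (2 * n + 1) → ℤ} (h0 : ∀ i, 0 ≤ lo i)
    (h1 : ∀ i, (lo i : ℝ) + 1 ≤ L) (y : Cube n) : TsphM_J n L lo y ∈ skel L n := by
  have hsub : {i | ¬ IsGrid L (TsphM_J n L lo y i)} ⊆ {i : Fin (2 * n + 1) | (i : ℕ) < n} := by
    intro i hi
    by_contra hc
    apply hi
    refine ⟨lo i, ?_⟩
    rw [TsphM_J_val hL h0 h1]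
    have hs : TsphM_s y i = 0 := by
      unfold TsphM_s
      exact dif_neg hc
    rw [hs, add_zero]
  have := Set.ncard_le_ncard hsub (Set.toFinite _)
  rw [TsphM_ncard] at this
  exact this

theorem TsphM_bd_closed (n : ℕ) : IsClosed (bd n) := by
  have : bd n = ⋃ i : Fin n, ({y : Cube n | y i = 0} ∪ {y | y i = 1}) := by
    ext y
    simp [bd]
  rw [this]
  refine isClosed_iUnion_of_finite fun i => ?_
  exact (isClosed_eq (continuous_apply i) continuous_const).union
    (isClosed_eq (continuous_apply i) continuous_const)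

/-! ### the main proof -/

theorem pr_TsphM (h1 : S_Zminus) (h2 : S_PO) (h3 : S_X1all) (h4 : S_X5) (h5 : S_MbFacts)
    (h6 : S_SgFacts) (h7 : S_Near) (h8 : S_Comp) (h9 : S_Basics) (h10 : S_UC) (h11 : S_AdjDesc)
    (h12 : S_Grid) (h13 : S_HomeoComp) (h14 : S_POmap) : S_TsphM := by
  classical
  intro n hn b g hg Z _ _ _ i j ka hadj hka hkai hkaj D hD eta heta
  obtain ⟨H, C, de0, hC1, hde0, hHc, hHp, hHd⟩ := h7 n b hn
  obtain ⟨hUC1, hUC2, hUC3, -, -, -, -, hUC8⟩ := h10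
  obtain ⟨hB1, -, -, -, -, -, -, -⟩ := h9
  obtain ⟨hM1, hM2, hM3, hM4, hM5, hM6, hM7, hM8, hM9, hM10, hM11, hM12⟩ := h5 n hn
  obtain ⟨hS1, hS2, hS3, hS4, hS5, hS6, hS7, hS8, hS9⟩ := h6 n hn
  obtain ⟨hG1, hG2, hG3, hG4, hG5, hG6⟩ := h12
  haveI hcomp : ∀ c, CompactSpace (XM n c) := fun c => (hS9 c).1
  haveI hcompZ : ∀ c, CompactSpace (ZM n c) := fun c => (hS9 c).2.1
  obtain ⟨x0, hx0⟩ : ∃ x0 : XM n b, x0 = g () := ⟨_, rfl⟩
  -- constants
  have hn1 : (0 : ℝ) < (n : ℝ) + 1 := by positivity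
  obtain ⟨e', he'⟩ : ∃ e' : ℝ, e' = eta / (3 * ((n : ℝ) + 1)) := ⟨_, rfl⟩
  have he'0 : 0 < e' := by rw [he']; positivity
  have he'e : ((n : ℝ) + 1) * (e' + 2 * e') ≤ eta := by
    rw [he']
    apply le_of_eq
    field_simp
    ring
  obtain ⟨de1, hde1, hD1⟩ := hUC2 (XM n b) Z D i hD hadj.conti e' he'0
  have hC0 : 0 < C := by linarith
  obtain ⟨de, hde⟩ : ∃ de : ℝ, de = min de0 (min de1 eta) / (8 * C) := ⟨_, rfl⟩
  have hmin : 0 < min de0 (min de1 eta) := lt_min hde0 (lt_min hde1 heta)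
  have hdep : 0 < de := by rw [hde]; positivity
  have hde8 : 8 * C * de = min de0 (min de1 eta) := by
    rw [hde]
    field_simp
  have hdd0 : 8 * C * de ≤ de0 := by rw [hde8]; exact min_le_left _ _
  have hdd1 : 8 * C * de ≤ de1 := by
    rw [hde8]
    exact (min_le_right _ _).trans (min_le_left _ _)
  have hdde : 8 * C * de ≤ eta := by
    rw [hde8]
    exact (min_le_right _ _).trans (min_le_right _ _)
  have hdC : de ≤ C * de := by nlinarith
  -- b1
  obtain ⟨N, hN⟩ := exists_pow_lt_of_lt_one hdep (by norm_num : (1 / 2 : ℝ) < 1)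
  obtain ⟨b1, hb1, hb1N⟩ : ∃ b1, b ≤ b1 ∧ N ≤ b1 := ⟨max b N, le_max_left _ _, le_max_right _ _⟩
  have hb1d : (1 : ℝ) / 2 ^ b1 ≤ de := by
    refine le_trans ?_ hN.le
    rw [one_div_pow]
    exact one_div_le_one_div_of_le (by positivity) (pow_le_pow_right₀ (by norm_num) hb1N)
  have hL : 1 ≤ 3 ^ b1 := Nat.one_le_pow _ _ (by norm_num)
  have hself : ∀ x : Cube (2 * n + 1), x ∈ faceOf (3 ^ b1) x := fun x => (hG1 _ _ x hL).1
  have hfs : ∀ x : Cube (2 * n + 1), ∀ y ∈ faceOf (3 ^ b1) x,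
      faceOf (3 ^ b1) y ⊆ faceOf (3 ^ b1) x := fun x => (hG1 _ _ x hL).2.2.1
  have hfd : ∀ x : Cube (2 * n + 1), ∀ y ∈ faceOf (3 ^ b1) x, ∀ z ∈ faceOf (3 ^ b1) x,
      dist y z ≤ 1 / 3 ^ b1 := by
    intro x y hy z hz
    have := (hG1 _ _ x hL).2.2.2 y hy z hz
    push_cast at this
    exact this
  -- contraction of the bonding map
  have hsc : Continuous (sM n b b1) := (hS4 b b1 hb1).1
  have hsd : ∀ x y : XM n b1, dist x y ≤ 1 / 3 ^ b1 →
      dist (sM n b b1 x) (sM n b b1 y) ≤ de := by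
    intro x y hxy
    rw [Subtype.dist_eq, (hS4 b b1 hb1).2, (hS4 b b1 hb1).2]
    exact ((hS1 b b1 hb1).2.2.2.2.1 x x.2 y y.2 hxy).trans hb1d
  have hsd2 : ∀ x y : XM n b1, dist x y ≤ 2 / 3 ^ b1 →
      dist (sM n b b1 x) (sM n b b1 y) ≤ 2 * de := by
    intro x y hxy
    rw [Subtype.dist_eq, (hS4 b b1 hb1).2, (hS4 b b1 hb1).2]
    refine ((hS1 b b1 hb1).2.2.2.1 x x.2 y y.2).trans ?_
    have h21 : ((3 : ℝ) / 2) ^ (b1 - b) ≤ (3 / 2) ^ b1 :=
      pow_le_pow_right₀ (by norm_num) (Nat.sub_le _ _)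
    have h22 : ((3 : ℝ) / 2) ^ (b1 - b) * dist (x : Cube (2 * n + 1)) y ≤
        (3 / 2) ^ b1 * (2 / 3 ^ b1) :=
      mul_le_mul h21 hxy dist_nonneg (by positivity)
    refine h22.trans ?_
    have h23 : ((3 : ℝ) / 2) ^ b1 * (2 / 3 ^ b1) = 2 * (1 / 2 ^ b1) := by
      rw [div_pow]
      field_simp
    rw [h23]
    linarith
  -- the point x1
  obtain ⟨x1, hx1⟩ : ∃ x1 : XM n b1, dist (sM n b b1 x1) x0 ≤ de := by
    obtain ⟨al', G, -, -, -, -, hG0', -, hGd⟩ := h3 n b b1 hn hb1 (fun x y => dist x y)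
      (hUC8 _) 0 (Nat.zero_le n) de hdep 0 (fun _ => x0) (fun _ => ⟨0, zero_mem_Mb n b1⟩)
      (fun _ => x0) le_rfl continuousOn_const continuousOn_const continuousOn_const
      (by rintro x ⟨k, -⟩; exact k.elim0) (by rintro x ⟨k, -⟩; exact k.elim0)
      (by rintro t x ⟨k, -⟩; exact k.elim0)
    refine ⟨al' (ctr 0), ?_⟩
    have := hGd 0 (ctr 0) (mem_univ _)
    rw [hG0' _ (mem_univ _), zero_add] at this
    exact this
  obtain ⟨z1, hz1g, hz1x, hz1M⟩ := hM9 b1 x1.1 x1.2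
  obtain ⟨lo, hlo⟩ : ∃ lo : Fin (2 * n + 1) → ℤ,
    lo = fun k => ⌊((3 ^ b1 : ℕ) : ℝ) * (z1 k : ℝ)⌋ := ⟨_, rfl⟩
  have hlo0 : ∀ k, 0 ≤ lo k := by
    intro k
    rw [hlo]
    exact Int.floor_nonneg.2 (mul_nonneg (Nat.cast_nonneg _) (z1 k).2.1)
  have hlo1 : ∀ k, (lo k : ℝ) + 1 ≤ ((3 ^ b1 : ℕ) : ℝ) := by
    intro k
    have hlt : (z1 k : ℝ) < 1 := by
      rcases (z1 k).2.2.eq_or_lt with h | h
      · exfalso
        exact hz1g k ⟨(3 ^ b1 : ℕ), by rw [h]; push_cast; ring⟩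
      · exact h
    have hLp : (0 : ℝ) < ((3 ^ b1 : ℕ) : ℝ) := by positivity
    have h31 : lo k < ((3 ^ b1 : ℕ) : ℤ) := by
      rw [hlo]
      rw [Int.floor_lt]
      have : ((3 ^ b1 : ℕ) : ℝ) * (z1 k : ℝ) < ((3 ^ b1 : ℕ) : ℝ) * 1 :=
        mul_lt_mul_of_pos_left hlt hLp
      rw [mul_one] at this
      exact_mod_cast this
    exact_mod_cast h31
  have hJf : ∀ y : Cube n, TsphM_J n (3 ^ b1) lo y ∈ faceOf (3 ^ b1) z1 := by
    intro y k
    rw [TsphM_J_val hL hlo0 hlo1]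
    have hs0 := TsphM_s_nonneg y k
    have hs1 := TsphM_s_le_one y k
    have hfl : ((⌊((3 ^ b1 : ℕ) : ℝ) * (z1 k : ℝ)⌋ : ℤ) : ℝ) = lo k := by rw [hlo]
    have hlt : (lo k : ℝ) < ((3 ^ b1 : ℕ) : ℝ) * (z1 k : ℝ) := by
      have h41 : ((⌊((3 ^ b1 : ℕ) : ℝ) * (z1 k : ℝ)⌋ : ℤ) : ℝ) ≤
          ((3 ^ b1 : ℕ) : ℝ) * (z1 k : ℝ) := Int.floor_le _
      rw [hfl] at h41
      rcases h41.eq_or_lt with h | h
      · exact absurd ⟨lo k, h.symm⟩ (hz1g k)
      · exact h
    have hce : (lo k : ℝ) + 1 ≤ ((⌈((3 ^ b1 : ℕ) : ℝ) * (z1 k : ℝ)⌉ : ℤ) : ℝ) := by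
      have : lo k < ⌈((3 ^ b1 : ℕ) : ℝ) * (z1 k : ℝ)⌉ := Int.lt_ceil.2 hlt
      exact_mod_cast this
    rw [hfl]
    constructor <;> linarith
  have hJM : ∀ y : Cube n, TsphM_J n (3 ^ b1) lo y ∈ Mb n b1 := fun y => hz1M (hJf y)
  have hJZ : ∀ y : Cube n, TsphM_J n (3 ^ b1) lo y ∈ Zb n b1 := fun y =>
    ⟨hJM y, TsphM_J_skel hL hlo0 hlo1 y⟩
  obtain ⟨z, hz⟩ : ∃ z, z = TsphM_J n (3 ^ b1) lo (ctr n) := ⟨_, rfl⟩
  have hzM : z ∈ Mb n b1 := hz ▸ hJM _
  have hzc : {k | ¬ IsGrid (3 ^ b1) (z k)}.ncard = n := by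
    rw [hz, TsphM_J_grid hL hlo0 hlo1, TsphM_ncard]
  -- all points of the cell are mapped close to x0
  have hJx0 : ∀ y : Cube n, ∀ h : TsphM_J n (3 ^ b1) lo y ∈ Mb n b1,
      dist (sM n b b1 ⟨TsphM_J n (3 ^ b1) lo y, h⟩) x0 ≤ 2 * de := by
    intro y h
    have h51 : dist (⟨TsphM_J n (3 ^ b1) lo y, h⟩ : XM n b1) x1 ≤ 1 / 3 ^ b1 := by
      rw [Subtype.dist_eq]
      exact hfd z1 _ (hJf y) _ hz1x
    have h52 := hsd _ _ h51
    have h53 := dist_triangle (sM n b b1 ⟨TsphM_J n (3 ^ b1) lo y, h⟩) (sM n b b1 x1) x0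
    linarith
  -- the space A0
  let A0 : Type := {x : Cube (2 * n + 1) // x ∈ Zb n b1 ∧ faceOf (3 ^ b1) x ≠ faceOf (3 ^ b1) z}
  have hA0cl : IsClosed {x : Cube (2 * n + 1) | x ∈ Zb n b1 ∧
      faceOf (3 ^ b1) x ≠ faceOf (3 ^ b1) z} :=
    hG5 _ _ _ hL (TsphM_closed (hM1 b1).2.1 hself hfs hzc)
  haveI hA0c : CompactSpace A0 := isCompact_iff_compactSpace.1 hA0cl.isCompact
  let i0 : A0 → ZM n b1 := fun a => ⟨a.1, a.2.1⟩
  let j0 : Cube n → ZM n b1 := fun y => ⟨TsphM_J n (3 ^ b1) lo y, hJZ y⟩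
  have hJbd : ∀ y ∈ bd n, faceOf (3 ^ b1) (TsphM_J n (3 ^ b1) lo y) ≠ faceOf (3 ^ b1) z := by
    intro y hy
    rw [hz]
    exact TsphM_J_bd hL hlo0 hlo1 hy hself
  have hJint : ∀ y, y ∉ bd n → faceOf (3 ^ b1) (TsphM_J n (3 ^ b1) lo y) = faceOf (3 ^ b1) z := by
    intro y hy
    ext w
    rw [hz, TsphM_mem_face hL hlo0 hlo1 hy, TsphM_mem_face hL hlo0 hlo1 (TsphM_ctr n)]
  have h0bd : (fun _ => 0 : Cube n) ∈ bd n := ⟨⟨0, hn⟩, Or.inl rfl⟩
  let a00 : A0 := ⟨TsphM_J n (3 ^ b1) lo (fun _ => 0), hJZ _, hJbd _ h0bd⟩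
  let ph0 : Cube n → A0 := fun y =>
    if h : y ∈ bd n then ⟨TsphM_J n (3 ^ b1) lo y, hJZ y, hJbd y h⟩ else a00
  have hph0 : ∀ y ∈ bd n, (ph0 y).1 = TsphM_J n (3 ^ b1) lo y := by
    intro y hy
    show ((if h : y ∈ bd n then (⟨TsphM_J n (3 ^ b1) lo y, hJZ y, hJbd y h⟩ : A0) else a00) :
      A0).1 = _
    rw [dif_pos hy]
  have hi0c : Continuous i0 := Continuous.subtype_mk continuous_subtype_val _
  have hj0c : Continuous j0 := Continuous.subtype_mk (TsphM_J_cont n (3 ^ b1) lo) _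
  have hph0c : ContinuousOn ph0 (bd n) := by
    rw [continuousOn_iff_continuous_restrict]
    refine Topology.IsInducing.subtypeVal.continuous_iff.2 ?_
    have hc : Continuous (fun y : ↥(bd n) => TsphM_J n (3 ^ b1) lo (y : Cube n)) :=
      (TsphM_J_cont n (3 ^ b1) lo).comp continuous_subtype_val
    exact hc.congr fun y => (hph0 y.1 y.2).symm
  have hadj0 : IsAdj (bd n) ph0 i0 j0 := by
    refine ⟨TsphM_bd_closed n, hph0c, hi0c, hj0c, ?_, ?_, ?_, ?_, ?_⟩
    · intro a a' h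
      have := congrArg (fun w : ZM n b1 => (w : Cube (2 * n + 1))) h
      exact Subtype.ext this
    · intro t ht
      apply Subtype.ext
      exact (hph0 t ht).symm
    · intro t _ t' _ h
      have := congrArg (fun w : ZM n b1 => (w : Cube (2 * n + 1))) h
      exact TsphM_J_inj hL hlo0 hlo1 this
    · intro t ht c h
      have h61 : TsphM_J n (3 ^ b1) lo t = c.1 :=
        congrArg (fun w : ZM n b1 => (w : Cube (2 * n + 1))) h
      exact c.2.2 (by rw [← h61]; exact hJint t ht)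
    · intro w
      by_cases hf : faceOf (3 ^ b1) (w : Cube (2 * n + 1)) = faceOf (3 ^ b1) z
      · right
        have h62 : (w : Cube (2 * n + 1)) ∈ faceOf (3 ^ b1) (TsphM_J n (3 ^ b1) lo (ctr n)) := by
          rw [← hz, ← hf]
          exact hself _
        obtain ⟨y, hy⟩ := TsphM_J_surj hL hlo0 hlo1 h62
        exact ⟨y, Subtype.ext hy⟩
      · left
        exact ⟨⟨w.1, w.2, hf⟩, rfl⟩
  -- the map th
  let th : A0 → XM n b := fun a => sM n b b1 (toM n b1 a.1)
  have htoM : ∀ a : A0, toM n b1 a.1 = ⟨a.1, a.2.1.1⟩ := fun a =>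
    Subtype.ext (TsphM_toM_val a.2.1.1)
  have htoMc : Continuous (fun a : A0 => toM n b1 a.1) := by
    have : (fun a : A0 => toM n b1 a.1) = fun a : A0 => (⟨a.1, a.2.1.1⟩ : XM n b1) := by
      funext a
      exact htoM a
    rw [this]
    exact Continuous.subtype_mk continuous_subtype_val _
  have hthc : Continuous th := hsc.comp htoMc
  have hthx0 : ∀ y ∈ bd n, dist (th (ph0 y)) x0 ≤ 2 * de := by
    intro y hy
    have h71 : toM n b1 (ph0 y).1 = ⟨TsphM_J n (3 ^ b1) lo y, hJM y⟩ := by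
      apply Subtype.ext
      rw [hph0 y hy]
      exact TsphM_toM_val (hJM y)
    show dist (sM n b b1 (toM n b1 (ph0 y).1)) x0 ≤ 2 * de
    rw [h71]
    exact hJx0 y _
  have hthx0' : ∀ y ∈ bd n, dist (th (ph0 y)) x0 ≤ de0 := by
    intro y hy
    refine (hthx0 y hy).trans ?_
    nlinarith
  let Ga : I × ↥(bd n) → XM n b := fun p => H (p.1, (th (ph0 p.2), x0))
  have hGac : Continuous Ga := by
    have hphc : Continuous (fun a : ↥(bd n) => ph0 a) :=
      continuousOn_iff_continuous_restrict.1 hph0c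
    have hcc : Continuous (fun p : I × ↥(bd n) => ((p.1, (th (ph0 p.2), x0)) :
        I × (XM n b × XM n b))) :=
      continuous_fst.prodMk ((hthc.comp (hphc.comp continuous_snd)).prodMk continuous_const)
    exact hHc.comp_continuous hcc (fun p => hthx0' _ p.2.2)
  have hGa0 : ∀ a : ↥(bd n), Ga (0, a) = th (ph0 a) := fun a => (hHp _ _ (hthx0' _ a.2)).1
  have hGa1 : ∀ a : ↥(bd n), Ga (1, a) = g () := by
    intro a
    rw [← hx0]
    exact (hHp _ _ (hthx0' _ a.2)).2.1
  have hGad : ∀ (t : I) (a : ↥(bd n)), dist (Ga (t, a)) (th (ph0 a)) ≤ 2 * C * de := by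
    intro t a
    refine ((hHp _ _ (hthx0' _ a.2)).2.2 t).trans ?_
    have := mul_le_mul_of_nonneg_left (hthx0 _ a.2) hC0.le
    linarith
  obtain ⟨thp, hthpc, hthpi, hthp1, hthp2, hthp3⟩ := h14 A0 (XM n b) (Cube n) (ZM n b1) Z (bd n)
    (TsphM_col n) ph0 (fun _ => g ()) i0 j0 i j th Ga (TsphM_bd_closed n) (TsphM_collar n) hadj0
    hadj hthc hGac hGa0 hGa1
  -- softness of th
  have hDi : IsCPM (fun x y : XM n b => D (i x) (i y)) := hUC3 _ _ D i hD hadj.conti
  have hDs : IsCPM (fun x y : XM n b1 => D (i (sM n b b1 x)) (i (sM n b b1 y))) :=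
    hUC3 _ _ _ (sM n b b1) hDi hsc
  have hsoft1 : Soft n (fun x y : XM n b1 => D (i (sM n b b1 x)) (i (sM n b b1 y))) e'
      (fun a : A0 => toM n b1 a.1) := by
    refine h1 n b1 z _ e' hn hDs ?_ hzM hzc
    intro x y hxy
    refine hD1 _ _ ((hsd2 x y hxy).trans ?_)
    nlinarith
  have hsoft2 : Soft n (fun x y : XM n b => D (i x) (i y)) 0 (sM n b b1) :=
    h3 n b b1 hn hb1 _ hDi
  have hsoft3 : Soft n (fun x y : XM n b => D (i x) (i y)) e' th := by
    have := h8 n A0 (XM n b1) (XM n b) (fun x y : XM n b => D (i x) (i y)) e' 0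
      (fun a : A0 => toM n b1 a.1) (sM n b b1) hDi htoMc hsc hsoft1 hsoft2
    rw [add_zero] at this
    exact this
  have hsoft4 : Soft n D (((n : ℝ) + 1) * (e' + 2 * e')) thp := by
    refine h2 n A0 (XM n b) (Cube n) (ZM n b1) Z (bd n) (TsphM_col n) ph0 (fun _ => g ()) i0 j0
      i j th Ga thp D e' e' (TsphM_bd_closed n) (TsphM_collar n) hadj0 hadj hthc hGac hGa0 hGa1
      hthpc hthpi hthp1 hthp2 hthp3 ⟨a00⟩ hD he'0.le he'0.le ?_ hsoft3
    intro s t a
    refine hD1 _ _ ?_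
    have h81 := hGad s a
    have h82 := hGad t a
    have h83 := dist_triangle_right (Ga (s, a)) (Ga (t, a)) (th (ph0 a))
    nlinarith
  have hpZc : Continuous (pZ n b1) := (hS7 b1 ⟨0, zero_mem_Mb n (b1 + 1)⟩).1
  have hpsic : Continuous (fun x => thp (pZ n b1 x)) := hthpc.comp hpZc
  have hsoft5 : Soft n D (0 + ((n : ℝ) + 1) * (e' + 2 * e')) (fun x => thp (pZ n b1 x)) :=
    h8 n (XM n (b1 + 1)) (ZM n b1) Z D 0 _ (pZ n b1) thp hD hpZc hthpc
      ((h4 n b1 hn).1 _ (hUC3 _ _ D thp hD hthpc)) hsoft4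
  have hsoft6 : Soft n D eta (fun x => thp (pZ n b1 x)) :=
    hB1 n n (XM n (b1 + 1)) Z D D _ eta _ le_rfl (by linarith) hD hD hpsic (fun _ _ => le_rfl)
      hsoft5
  -- closeness
  have hpf : ∀ x : XM n (b1 + 1), (pZ n b1 x : Cube (2 * n + 1)) ∈
      faceOf (3 ^ b1) (x : Cube (2 * n + 1)) := by
    intro x
    obtain ⟨K, -, -, hK1, -, hKf⟩ := (h4 n b1 hn).2
    have := hKf 1 x
    rw [hK1 x, (hS8 b1 (b1 + 1) _).2] at this
    exact this
  have hsf : ∀ x : XM n (b1 + 1), (sM n b1 (b1 + 1) x : Cube (2 * n + 1)) ∈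
      faceOf (3 ^ b1) (x : Cube (2 * n + 1)) := by
    intro x
    rw [(hS4 b1 (b1 + 1) (Nat.le_succ _)).2]
    exact (hS1 b1 (b1 + 1) (Nat.le_succ _)).2.2.1 x x.2
  have hclose : ∀ (x : XM n (b1 + 1)) (h : (pZ n b1 x : Cube (2 * n + 1)) ∈ Mb n b1),
      dist (sM n b b1 ⟨_, h⟩) (sM n b (b1 + 1) x) ≤ de := by
    intro x h
    rw [← hS6 b b1 (b1 + 1) x hb1 (Nat.le_succ _)]
    refine hsd _ _ ?_
    rw [Subtype.dist_eq]
    exact hfd _ _ (hpf x) _ (hsf x)
  have hkaJ : ∀ y : Cube n, dist (ka (thp (j0 y))) x0 ≤ 4 * C * de := by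
    intro y
    by_cases hy : y ∈ range (TsphM_col n)
    · obtain ⟨⟨a, t⟩, rfl⟩ := hy
      rcases le_total (t : ℝ) (1 / 2) with ht | ht
      · have hs : 2 * (t : ℝ) ∈ Icc (0 : ℝ) 1 := ⟨by linarith [t.2.1], by linarith⟩
        rw [hthp1 a t ⟨2 * (t : ℝ), hs⟩ ht rfl, hkai]
        have h91 := hGad ⟨2 * (t : ℝ), hs⟩ a
        have h92 := hthx0 _ a.2
        have h93 := dist_triangle (Ga (⟨2 * (t : ℝ), hs⟩, a)) (th (ph0 a)) x0
        nlinarith
      · have hs : 2 * (t : ℝ) - 1 ∈ Icc (0 : ℝ) 1 := ⟨by linarith, by linarith [t.2.2]⟩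
        rw [hthp2 a t ⟨2 * (t : ℝ) - 1, hs⟩ ht rfl, hkaj, ← hx0, dist_self]
        positivity
    · rw [hthp3 y hy, hkaj, ← hx0, dist_self]
      positivity
  have hcase : ∀ x : XM n (b1 + 1), (∃ a : A0, pZ n b1 x = i0 a) ∨ ∃ y, pZ n b1 x = j0 y := by
    intro x
    rcases hadj0.surj (pZ n b1 x) with ⟨a, ha⟩ | ⟨y, hy⟩
    · exact Or.inl ⟨a, ha.symm⟩
    · exact Or.inr ⟨y, hy.symm⟩
  refine ⟨b1 + 1, fun x => thp (pZ n b1 x), hb1.trans (Nat.le_succ _), hpsic, hsoft6, ?_, ?_⟩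
  · intro x
    rcases hcase x with ⟨a, ha⟩ | ⟨y, hy⟩
    · have h101 : ka (thp (pZ n b1 x)) = sM n b b1 ⟨(pZ n b1 x : Cube (2 * n + 1)),
          (pZ n b1 x).2.1⟩ := by
        rw [ha, hthpi, hkai]
        show sM n b b1 (toM n b1 a.1) = _
        rw [htoM a]
      rw [h101]
      refine (hclose x _).trans ?_
      nlinarith
    · have h102 := hkaJ y
      have h103 := hclose x (pZ n b1 x).2.1
      have h104 : sM n b b1 ⟨(pZ n b1 x : Cube (2 * n + 1)), (pZ n b1 x).2.1⟩ =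
          sM n b b1 ⟨TsphM_J n (3 ^ b1) lo y, hJM y⟩ := by
        congr 1
        apply Subtype.ext
        show (pZ n b1 x : Cube (2 * n + 1)) = _
        rw [hy]
      rw [h104] at h103
      have h105 := hJx0 y (hJM y)
      rw [← hy] at h102
      have h106 := dist_triangle (ka (thp (pZ n b1 x))) x0 (sM n b (b1 + 1) x)
      have h107 := dist_triangle x0 (sM n b b1 ⟨TsphM_J n (3 ^ b1) lo y, hJM y⟩)
        (sM n b (b1 + 1) x)
      rw [dist_comm x0 (sM n b b1 ⟨TsphM_J n (3 ^ b1) lo y, hJM y⟩)] at h107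
      nlinarith
  · intro x hx
    rcases hcase x with ⟨a, ha⟩ | ⟨y, hy⟩
    · show thp (pZ n b1 x) ∈ range i
      rw [ha, hthpi]
      exact ⟨_, rfl⟩
    · exfalso
      have h111 := hx ()
      rw [← hx0] at h111
      have h103 := hclose x (pZ n b1 x).2.1
      have h104 : sM n b b1 ⟨(pZ n b1 x : Cube (2 * n + 1)), (pZ n b1 x).2.1⟩ =
          sM n b b1 ⟨TsphM_J n (3 ^ b1) lo y, hJM y⟩ := by
        congr 1
        apply Subtype.ext
        show (pZ n b1 x : Cube (2 * n + 1)) = _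
        rw [hy]
      rw [h104] at h103
      have h105 := hJx0 y (hJM y)
      have h106 := dist_triangle (sM n b (b1 + 1) x)
        (sM n b b1 ⟨TsphM_J n (3 ^ b1) lo y, hJM y⟩) x0
      rw [dist_comm] at h103
      nlinarith

end M202

end

section

/-!
MP_202a65_gt, item U1 (helper40): M_(b+1) -> M_b × I is soft.
-/

open Set Topology unitInterval

namespace M202

/-- exceptional coordinates: the points `k / (2 * 3^b)` of the unit interval -/
def U1E (b : ℕ) : Set ℝ := {t | (0 ≤ t ∧ t ≤ 1) ∧ ∃ k : ℤ, 2 * (3 : ℝ) ^ b * t = k}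

lemma U1E_finite (b : ℕ) : (U1E b).Finite := by
  have h : U1E b ⊆ (fun k : ℤ => (k : ℝ) / (2 * 3 ^ b)) '' (Set.Icc 0 (2 * 3 ^ b)) := by
    rintro t ⟨⟨h0, h1⟩, k, hk⟩
    have h3 : (0 : ℝ) < 2 * 3 ^ b := by positivity
    refine ⟨k, ⟨?_, ?_⟩, ?_⟩
    · have : (0 : ℝ) ≤ (k : ℝ) := by rw [← hk]; positivity
      exact_mod_cast this
    · have : (k : ℝ) ≤ 2 * 3 ^ b := by rw [← hk]; nlinarith
      exact_mod_cast this
    · show (k : ℝ) / (2 * 3 ^ b) = t
      rw [← hk]
      field_simp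
  exact ((Set.finite_Icc _ _).image _).subset h

lemma U1E_iff (hL : S_Lev) {b : ℕ} (t : unitInterval) :
    (t : ℝ) ∈ U1E b ↔ lev b t = 0 ∨ lev b t = 1 / 2 := by
  obtain ⟨-, -, -, hhalf, hzero, -⟩ := hL
  rw [hhalf, hzero]
  constructor
  · rintro ⟨-, k, hk⟩
    rcases Int.even_or_odd' k with ⟨j, rfl | rfl⟩
    · right
      refine ⟨j, ?_⟩
      push_cast at hk
      linarith
    · left
      refine ⟨j, ?_⟩
      push_cast at hk
      linarith
  · rintro (⟨k, hk⟩ | ⟨k, hk⟩)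
    · refine ⟨⟨t.2.1, t.2.2⟩, 2 * k + 1, ?_⟩
      push_cast
      linarith
    · refine ⟨⟨t.2.1, t.2.2⟩, 2 * k, ?_⟩
      push_cast
      linarith

/-- the points of M_c with at most n coordinates in the exceptional set of level b -/
abbrev U1A (n b c : ℕ) : Type :=
  {x : Cube (2 * n + 1) // x ∈ Mb n c ∧ {i | (x i : ℝ) ∈ U1E b}.ncard ≤ n}

lemma U1A_nonempty (n b : ℕ) : Nonempty (U1A n b (b + 1)) := by
  have h3 : (0 : ℝ) < 3 ^ b := by positivity
  have h31 : (1 : ℝ) ≤ 3 ^ b := one_le_pow₀ (by norm_num)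
  have hc0 : (0 : ℝ) ≤ 1 / (8 * 3 ^ b) := by positivity
  have hc1 : (1 : ℝ) / (8 * 3 ^ b) ≤ 1 := by
    rw [div_le_one (by positivity)]
    linarith
  refine ⟨⟨fun _ => ⟨1 / (8 * 3 ^ b), hc0, hc1⟩, ?_, ?_⟩⟩
  · intro j hj
    have he : {i : Fin (2 * n + 1) | lev j ((⟨1 / (8 * 3 ^ b), hc0, hc1⟩ : unitInterval) : ℝ) < 1 / 6}
        = ∅ := by
      rw [Set.eq_empty_iff_forall_notMem]
      intro i hi
      rw [Set.mem_ofPred_eq] at hi
      have hj3 : (3 : ℝ) ^ j ≤ 3 ^ b := pow_le_pow_right₀ (by norm_num) (by omega)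
      have hj0 : (0 : ℝ) < 3 ^ j := by positivity
      have hx0 : 0 ≤ (3 : ℝ) ^ j * (1 / (8 * 3 ^ b)) := by positivity
      have hx1 : (3 : ℝ) ^ j * (1 / (8 * 3 ^ b)) ≤ 1 / 8 := by
        rw [mul_one_div, div_le_iff₀ (by positivity)]
        linarith
      have hf : Int.fract ((3 : ℝ) ^ j * (1 / (8 * 3 ^ b))) = (3 : ℝ) ^ j * (1 / (8 * 3 ^ b)) :=
        Int.fract_eq_self.2 ⟨hx0, by linarith⟩
      have hl : lev j ((⟨1 / (8 * 3 ^ b), hc0, hc1⟩ : unitInterval) : ℝ) =
          |Int.fract ((3 : ℝ) ^ j * (1 / (8 * 3 ^ b))) - 1 / 2| := rfl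
      rw [hl, hf, abs_sub_comm, abs_of_nonneg (by linarith)] at hi
      linarith
    show {i : Fin (2 * n + 1) | lev j ((⟨1 / (8 * 3 ^ b), hc0, hc1⟩ : unitInterval) : ℝ) < 1 / 6}.ncard
      ≤ n
    rw [he]
    simp
  · have he : {i : Fin (2 * n + 1) | ((⟨1 / (8 * 3 ^ b), hc0, hc1⟩ : unitInterval) : ℝ) ∈ U1E b}
        = ∅ := by
      rw [Set.eq_empty_iff_forall_notMem]
      rintro i ⟨-, k, hk⟩
      have hk' : (2 : ℝ) * 3 ^ b * (1 / (8 * 3 ^ b)) = 1 / 4 := by
        field_simp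
        norm_num
      have hk2 : (k : ℝ) = 1 / 4 := by
        rw [← hk, ← hk']
      have hk3 : (4 * k : ℤ) = 1 := by
        have : (4 : ℝ) * k = 1 := by rw [hk2]; norm_num
        exact_mod_cast this
      omega
    show {i : Fin (2 * n + 1) | ((⟨1 / (8 * 3 ^ b), hc0, hc1⟩ : unitInterval) : ℝ) ∈ U1E b}.ncard ≤ n
    rw [he]
    simp

lemma U1_rb_pos (hL : S_Lev) (hM : S_MbFacts) {n b : ℕ} (hn : 1 ≤ n) {x : Cube (2 * n + 1)}
    (hx : {i | (x i : ℝ) ∈ U1E b}.ncard ≤ n) : 0 < rb n b x := by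
  obtain ⟨-, -, -, -, -, -, -, hrb, -, hz, -⟩ := hM n hn
  rcases (hrb b x).1.lt_or_eq with h | h
  · exact h
  · exfalso
    have h1 := (hz b x).1 h.symm
    have h2 : {i | ∃ k : ℤ, (3 : ℝ) ^ b * (x i : ℝ) = k + 1 / 2}.ncard ≤
        {i | (x i : ℝ) ∈ U1E b}.ncard := by
      refine Set.ncard_le_ncard ?_ (Set.toFinite _)
      intro i hi
      rw [Set.mem_ofPred_eq] at hi ⊢
      rw [U1E_iff hL]
      left
      exact (hL.2.2.2.2.1 b _).2 hi
    omega

lemma U1_rb_lt (hL : S_Lev) (hMed : S_Med) {n b : ℕ} {x : Cube (2 * n + 1)}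
    (hx : {i | (x i : ℝ) ∈ U1E b}.ncard ≤ n) : rb n b x < 1 / 2 := by
  by_contra hcon
  rw [not_lt] at hcon
  obtain ⟨-, hle, -⟩ := hMed n (2 * n + 1) (by omega)
  have h1 := (hle (fun i => lev b (x i)) (1 / 2)).1 hcon
  have h2 : (Set.univ : Set (Fin (2 * n + 1))) ⊆
      {i | lev b (x i) < 1 / 2} ∪ {i | (x i : ℝ) ∈ U1E b} := by
    intro i _
    rcases lt_or_ge (lev b (x i)) (1 / 2) with h | h
    · exact Or.inl h
    · right
      rw [Set.mem_ofPred_eq, U1E_iff hL]
      right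
      exact le_antisymm (hL.2.1 b _).2 h
  have h3 := Set.ncard_le_ncard h2 (Set.toFinite _)
  have h4 := Set.ncard_union_le {i | lev b (x i) < 1 / 2} {i | (x i : ℝ) ∈ U1E b}
  have h5 : (Set.univ : Set (Fin (2 * n + 1))).ncard = 2 * n + 1 := by
    rw [Set.ncard_univ, Nat.card_eq_fintype_card, Fintype.card_fin]
  omega

lemma U1_toM {n b : ℕ} {y : Cube (2 * n + 1)} (h : y ∈ Mb n b) : toM n b y = ⟨y, h⟩ := by
  unfold toM
  rw [dif_pos h]

lemma U1_toM_cont {X : Type*} [TopologicalSpace X] {n b : ℕ} {F : X → Cube (2 * n + 1)}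
    (hF : Continuous F) (h : ∀ x, F x ∈ Mb n b) : Continuous (fun x => toM n b (F x)) := by
  have h1 : (fun x => toM n b (F x)) = fun x => (⟨F x, h x⟩ : XM n b) := by
    funext x
    exact U1_toM (h x)
  rw [h1]
  exact hF.subtype_mk h

/-- the profiles -/
noncomputable def U1h (rho r m : ℝ) : ℝ := max 0 (1 / 2 - (1 / 2 - m) * (1 / 2 - rho) / (1 / 2 - r))

lemma U1h_nonneg (rho r m : ℝ) : 0 ≤ U1h rho r m := le_max_left _ _

lemma U1h_half (rho r : ℝ) : U1h rho r (1 / 2) = 1 / 2 := by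
  unfold U1h
  norm_num

lemma U1h_mono {rho r : ℝ} (hr : r < 1 / 2) (hrho : rho < 1 / 2) {m m' : ℝ} (h : m ≤ m') :
    U1h rho r m ≤ U1h rho r m' := by
  unfold U1h
  apply max_le_max le_rfl
  have h1 : 0 < 1 / 2 - r := by linarith
  have h2 : (1 / 2 - m') * (1 / 2 - rho) / (1 / 2 - r) ≤ (1 / 2 - m) * (1 / 2 - rho) / (1 / 2 - r) := by
    apply div_le_div_of_nonneg_right _ h1.le
    exact mul_le_mul_of_nonneg_right (by linarith) (by linarith)
  linarith

lemma U1h_self {rho r : ℝ} (hr : r < 1 / 2) (hrho : 0 ≤ rho) : U1h rho r r = rho := by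
  unfold U1h
  have h1 : (1 / 2 - r : ℝ) ≠ 0 := by linarith
  rw [mul_comm (1 / 2 - r), mul_div_cancel_right₀ _ h1]
  rw [max_eq_right] <;> linarith

lemma U1h_lt {rho r m : ℝ} (hr : r < 1 / 2) (hrho : rho < 1 / 2) (hm : m < 1 / 2) :
    U1h rho r m < 1 / 2 := by
  unfold U1h
  have h1 : 0 < 1 / 2 - r := by linarith
  have h2 : 0 < (1 / 2 - m) * (1 / 2 - rho) / (1 / 2 - r) := by
    apply div_pos _ h1
    exact mul_pos (by linarith) (by linarith)
  rw [max_lt_iff]
  constructor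
  · norm_num
  · linarith

lemma U1h_id {r m : ℝ} (hr : r < 1 / 2) (hm : 0 ≤ m) : U1h r r m = m := by
  unfold U1h
  have h1 : (1 / 2 - r : ℝ) ≠ 0 := by linarith
  rw [mul_div_cancel_right₀ _ h1]
  rw [max_eq_right] <;> linarith

lemma U1_isClosed_bd (m : ℕ) : IsClosed (bd m) := by
  have h : bd m = ⋃ i : Fin m, ({y : Cube m | y i = 0} ∪ {y : Cube m | y i = 1}) := by
    ext y
    simp only [bd, Set.mem_ofPred_eq, Set.mem_iUnion, Set.mem_union]
  rw [h]
  refine isClosed_iUnion_of_finite fun i => ?_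
  exact (isClosed_eq (continuous_apply i) continuous_const).union
    (isClosed_eq (continuous_apply i) continuous_const)

/-- the relative lifting property -/
theorem U1_rel (h1 : S_GPM) (h2 : S_Radm) (h3 : S_MbFacts) (h6 : S_Basics) (h7 : S_UC)
    (h8 : S_Lev) (h9 : S_Med) (h10 : S_Grid) (n b : ℕ) (D : XM n b × I → XM n b × I → ℝ)
    (eta : ℝ) (hn : 1 ≤ n) (hD : IsCPM D) (heta : 0 ≤ eta)
    (hDe : ∀ x y t, dist x y ≤ 1 / 3 ^ b → D (x, t) (y, t) ≤ eta) :
    RelSoft n D eta (fun a : U1A n b (b + 1) =>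
      (toM n b a.1, (Set.projIcc (0 : ℝ) 1 zero_le_one (3 * (rb n b a.1 - 1 / 6)) :
        unitInterval))) := by
  obtain ⟨hM1, hM2, hM3, -, -, -, hMrb, hMrb2, -⟩ := h3 n hn
  obtain ⟨hcub, -, -, -, hcpt, -⟩ := hM1 b
  obtain ⟨hR1, -, hRid, hRc, hRcongr⟩ := h2 n b hn
  have hcs : CompactSpace (XM n b) := isCompact_iff_compactSpace.1 hcpt
  intro m hm eta' heta' be al hbe hal hbdry
  set ep : ℝ := eta' - eta with hep
  have hep0 : 0 < ep := by rw [hep]; linarith
  obtain ⟨de, hde, hDd⟩ := h7.1 (XM n b × I) D hD ep hep0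
  set v : Cube m → XM n b := fun x => (be x).1 with hv
  set ta : Cube m → I := fun x => (be x).2 with hta
  have hvc : Continuous v := continuous_fst.comp hbe
  have htac : Continuous ta := continuous_snd.comp hbe
  have hsub : Mb n (b + 1) ⊆ Mb n b := hM3 b (b + 1) (Nat.le_succ b)
  have hrA : ∀ a : U1A n b (b + 1), 1 / 6 ≤ rb n b a.1 ∧ rb n b a.1 < 1 / 2 := by
    intro a
    have ha : a.1 ∈ Mb n b ∩ {x | 1 / 6 ≤ rb n b x} := by
      rw [← hM2 b]
      exact a.2.1
    exact ⟨ha.2, U1_rb_lt h8 h9 a.2.2⟩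
  have hbv : ∀ x ∈ bd m, ((v x : XM n b) : Cube (2 * n + 1)) = (al x).1 := by
    intro x hx
    have h := congrArg Prod.fst (hbdry x hx)
    show (((be x).1 : XM n b) : Cube (2 * n + 1)) = (al x).1
    rw [← h]
    show ((toM n b (al x).1 : XM n b) : Cube (2 * n + 1)) = (al x).1
    rw [U1_toM (hsub (al x).2.1)]
  have hbt : ∀ x ∈ bd m, (ta x : ℝ) = 3 * (rb n b (al x).1 - 1 / 6) := by
    intro x hx
    have h := congrArg Prod.snd (hbdry x hx)
    show (((be x).2 : I) : ℝ) = _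
    rw [← h]
    show ((Set.projIcc (0 : ℝ) 1 zero_le_one (3 * (rb n b (al x).1 - 1 / 6)) : I) : ℝ) = _
    rw [Set.coe_projIcc]
    have h' := hrA (al x)
    rw [min_eq_right (by linarith), max_eq_right (by linarith)]
  obtain ⟨w, hw0, hwde, hw2, hwta⟩ : ∃ w : ℝ, 0 < w ∧ w ≤ de ∧ w ≤ 1 / 2 ∧
      ∀ x ∈ bd m, (ta x : ℝ) ≤ 1 - w := by
    rcases (bd m).eq_empty_or_nonempty with he | hne
    · refine ⟨min de (1 / 2), lt_min hde (by norm_num), min_le_left _ _, min_le_right _ _, ?_⟩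
      intro x hx
      rw [he] at hx
      exact absurd hx (Set.notMem_empty x)
    · have hc : IsCompact (bd m) := (U1_isClosed_bd m).isCompact
      have htac' : ContinuousOn (fun x => (ta x : ℝ)) (bd m) :=
        (continuous_subtype_val.comp htac).continuousOn
      obtain ⟨x₀, hx₀, hmax⟩ := hc.exists_isMaxOn hne htac'
      have hlt : (ta x₀ : ℝ) < 1 := by
        rw [hbt x₀ hx₀]
        have h' := hrA (al x₀)
        linarith
      refine ⟨min (min de (1 / 2)) (1 - (ta x₀ : ℝ)), ?_, ?_, ?_, ?_⟩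
      · exact lt_min (lt_min hde (by norm_num)) (by linarith)
      · exact (min_le_left _ _).trans (min_le_left _ _)
      · exact (min_le_left _ _).trans (min_le_right _ _)
      · intro x hx
        have hm1 : (ta x : ℝ) ≤ (ta x₀ : ℝ) := hmax hx
        have hm2 : min (min de (1 / 2)) (1 - (ta x₀ : ℝ)) ≤ 1 - (ta x₀ : ℝ) := min_le_right _ _
        linarith
  -- general position
  have hrel := h6.2.2.2.2.1 n (U1A n b b) (XM n b) (fun x : U1A n b b => (⟨x.1, x.2.1⟩ : XM n b))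
    (fun x y => dist x y) 0 (h7.2.2.2.2.2.2.2 (XM n b))
    (h1 n b (U1E b) hn (U1E_finite b) (fun x y => dist x y) (h7.2.2.2.2.2.2.2 (XM n b)))
  have hjc : Continuous (fun a : U1A n b (b + 1) => (⟨a.1, hsub a.2.1, a.2.2⟩ : U1A n b b)) :=
    continuous_subtype_val.subtype_mk _
  obtain ⟨v', V, hv'c, hVc, hv'b, hVb, hV0, hV1, hVd⟩ := hrel m hm de hde v
    (fun x => (⟨(al x).1, hsub (al x).2.1, (al x).2.2⟩ : U1A n b b)) hvc
    (hjc.comp_continuousOn hal) (by
      intro x hx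
      apply Subtype.ext
      exact (hbv x hx).symm)
  have hv'b' : ∀ x ∈ bd m, (v' x).1 = (al x).1 := by
    intro x hx
    rw [hv'b x hx]
  set r : Cube m → ℝ := fun x => rb n b (v' x).1 with hr
  have hrc : Continuous r := (hMrb b).comp (continuous_subtype_val.comp hv'c)
  have hr0 : ∀ x, 0 < r x := fun x => U1_rb_pos h8 h3 hn (v' x).2.2
  have hr1 : ∀ x, r x < 1 / 2 := fun x => U1_rb_lt h8 h9 (v' x).2.2
  set tp : Cube m → ℝ := fun x => min (ta x : ℝ) (1 - w) with htp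
  have htpc : Continuous tp := (continuous_subtype_val.comp htac).min continuous_const
  have htp0 : ∀ x, 0 ≤ tp x := fun x => le_min (ta x).2.1 (by linarith)
  have htp1 : ∀ x, tp x ≤ 1 - w := fun x => min_le_right _ _
  have htpd : ∀ x, |tp x - (ta x : ℝ)| ≤ w := by
    intro x
    have h' := (ta x).2.2
    show |min (ta x : ℝ) (1 - w) - (ta x : ℝ)| ≤ w
    rcases le_total (ta x : ℝ) (1 - w) with hle | hle
    · rw [min_eq_left hle, sub_self, abs_zero]
      exact hw0.le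
    · rw [min_eq_right hle, abs_sub_comm, abs_of_nonneg (by linarith)]
      linarith
  -- the deformation inside the faces
  set rh : I × Cube m → ℝ := fun p => (1 - (p.1 : ℝ)) * (1 / 6 + tp p.2 / 3) + (p.1 : ℝ) * r p.2
    with hrh
  have hrhc : Continuous rh := by
    have c1 : Continuous fun p : I × Cube m => (p.1 : ℝ) := continuous_subtype_val.comp continuous_fst
    have c2 : Continuous fun p : I × Cube m => tp p.2 := htpc.comp continuous_snd
    have c3 : Continuous fun p : I × Cube m => r p.2 := hrc.comp continuous_snd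
    exact ((continuous_const.sub c1).mul (continuous_const.add (c2.div_const 3))).add (c1.mul c3)
  have hrh0 : ∀ p, 0 < rh p := by
    intro p
    have a1 := p.1.2.1
    have a2 := p.1.2.2
    have a3 := htp0 p.2
    have a4 := hr0 p.2
    show 0 < (1 - (p.1 : ℝ)) * (1 / 6 + tp p.2 / 3) + (p.1 : ℝ) * r p.2
    rcases a1.lt_or_eq with h | h
    · have b1 : 0 < (p.1 : ℝ) * r p.2 := mul_pos h a4
      have b2 : 0 ≤ (1 - (p.1 : ℝ)) * (1 / 6 + tp p.2 / 3) :=
        mul_nonneg (by linarith) (by linarith)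
      linarith
    · rw [← h]
      linarith
  have hrh1 : ∀ p, rh p < 1 / 2 := by
    intro p
    have a1 := p.1.2.1
    have a2 := p.1.2.2
    have a3 := htp1 p.2
    have a4 := hr1 p.2
    show (1 - (p.1 : ℝ)) * (1 / 6 + tp p.2 / 3) + (p.1 : ℝ) * r p.2 < 1 / 2
    have b0 : 1 / 6 + tp p.2 / 3 ≤ 1 / 2 - w / 3 := by linarith
    have b1 : (1 - (p.1 : ℝ)) * (1 / 6 + tp p.2 / 3) ≤ (1 - (p.1 : ℝ)) * (1 / 2 - w / 3) :=
      mul_le_mul_of_nonneg_left b0 (by linarith)
    rcases a1.lt_or_eq with h | h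
    · have b2 : (p.1 : ℝ) * r p.2 < (p.1 : ℝ) * (1 / 2) := mul_lt_mul_of_pos_left a4 h
      nlinarith
    · rw [← h] at b1 ⊢
      nlinarith
  set W : I × Cube m → Cube (2 * n + 1) := fun p => radm n b (U1h (rh p) (r p.2)) (v' p.2).1
    with hW
  have hWfacts := fun p : I × Cube m => hR1 (U1h (rh p) (r p.2)) (v' p.2).1 (hr0 p.2)
    (U1h_nonneg _ _) (U1h_half _ _) (fun m₁ m₂ _ h _ => U1h_mono (hr1 p.2) (hrh1 p) h)
  have hWM : ∀ p, W p ∈ Mb n b := by
    intro p
    exact hcub _ (v' p.2).2.1 (hWfacts p).1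
  have hWrb : ∀ p, rb n b (W p) = rh p := by
    intro p
    have h := (hWfacts p).2.1
    rw [show rb n b (v' p.2).1 = r p.2 from rfl, U1h_self (hr1 p.2) (hrh0 p).le] at h
    exact h
  have hWid : ∀ p, rh p = r p.2 → W p = (v' p.2).1 := by
    intro p hp
    have e1 : W p = radm n b (fun m => m) (v' p.2).1 := by
      apply hRcongr
      intro m₁ hm₁ _
      rw [hp]
      exact U1h_id (hr1 p.2) ((hr0 p.2).le.trans hm₁)
    rw [e1]
    exact hRid _ (hr0 p.2)
  have hWE : ∀ p, {i | ((W p) i : ℝ) ∈ U1E b}.ncard ≤ n := by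
    intro p
    refine le_trans (Set.ncard_le_ncard ?_ (Set.toFinite _)) (v' p.2).2.2
    intro i hi
    rw [Set.mem_ofPred_eq, U1E_iff h8] at hi ⊢
    have hlev := (hWfacts p).2.2.2.1 i
    rw [show radm n b (U1h (rh p) (r p.2)) (v' p.2).1 = W p from rfl,
      show rb n b (v' p.2).1 = r p.2 from rfl] at hlev
    set mi : ℝ := max (lev b ((v' p.2).1 i)) (r p.2) with hmi
    have hmi0 : 0 < mi := lt_of_lt_of_le (hr0 p.2) (le_max_right _ _)
    have hmi1 : mi ≤ 1 / 2 := max_le (h8.2.1 b _).2 (hr1 p.2).le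
    have hh0 : 0 < U1h (rh p) (r p.2) mi := by
      refine lt_of_lt_of_le (hrh0 p) ?_
      calc rh p = U1h (rh p) (r p.2) (r p.2) := (U1h_self (hr1 p.2) (hrh0 p).le).symm
        _ ≤ U1h (rh p) (r p.2) mi := U1h_mono (hr1 p.2) (hrh1 p) (le_max_right _ _)
    rcases hi with hi | hi
    · left
      rw [hi] at hlev
      have := (mul_eq_zero.1 hlev.symm).resolve_right (div_pos hh0 hmi0).ne'
      exact this
    · right
      rw [hi] at hlev
      have hle : lev b ((v' p.2).1 i) ≤ mi := le_max_left _ _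
      have hlev' : U1h (rh p) (r p.2) mi * lev b ((v' p.2).1 i) = 1 / 2 * mi := by
        rw [hlev]
        field_simp
      rcases hmi1.lt_or_eq with hlt | heq
      · exfalso
        have h5 := U1h_lt (hr1 p.2) (hrh1 p) hlt
        have h6 : U1h (rh p) (r p.2) mi * lev b ((v' p.2).1 i) ≤
            U1h (rh p) (r p.2) mi * mi := mul_le_mul_of_nonneg_left hle hh0.le
        have h7 : U1h (rh p) (r p.2) mi * mi < 1 / 2 * mi := mul_lt_mul_of_pos_right h5 hmi0
        linarith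
      · rw [heq, U1h_half] at hlev'
        linarith
  have hWc : Continuous W := by
    rw [← continuousOn_univ]
    refine hRc (I × Cube m) Set.univ (fun p => (v' p.2).1) (fun p => U1h (rh p) (r p.2)) ?_ ?_ ?_ ?_
    · exact (continuous_subtype_val.comp (hv'c.comp continuous_snd)).continuousOn
    · intro p _
      exact hr0 p.2
    · apply Continuous.continuousOn
      have d1 : Continuous fun q : (I × Cube m) × ℝ => rh q.1 := hrhc.comp continuous_fst
      have d2 : Continuous fun q : (I × Cube m) × ℝ => r q.1.2 :=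
        hrc.comp (continuous_snd.comp continuous_fst)
      have d3 : Continuous fun q : (I × Cube m) × ℝ => q.2 := continuous_snd
      show Continuous fun q : (I × Cube m) × ℝ =>
        max 0 (1 / 2 - (1 / 2 - q.2) * (1 / 2 - rh q.1) / (1 / 2 - r q.1.2))
      refine continuous_const.max (continuous_const.sub ?_)
      refine ((continuous_const.sub d3).mul (continuous_const.sub d1)).div
        (continuous_const.sub d2) ?_
      intro q
      have := hr1 q.1.2
      linarith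
    · intro p _
      exact U1h_half _ _
  have hWbd : ∀ s, ∀ x ∈ bd m, W (s, x) = (al x).1 := by
    intro s x hx
    rw [← hv'b' x hx]
    apply hWid
    have e1 : tp x = (ta x : ℝ) := min_eq_left (hwta x hx)
    show (1 - (s : ℝ)) * (1 / 6 + tp x / 3) + (s : ℝ) * r x = r x
    have e2 : r x = rb n b (al x).1 := by
      show rb n b (v' x).1 = _
      rw [hv'b' x hx]
    rw [e1, hbt x hx, e2]
    ring
  have hTc : Continuous fun p : I × Cube m =>
      (Set.projIcc (0 : ℝ) 1 zero_le_one ((1 - (p.1 : ℝ)) * tp p.2 + (p.1 : ℝ) * (ta p.2 : ℝ)) : I) := by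
    refine continuous_projIcc.comp ?_
    have c1 : Continuous fun p : I × Cube m => (p.1 : ℝ) := continuous_subtype_val.comp continuous_fst
    have c2 : Continuous fun p : I × Cube m => tp p.2 := htpc.comp continuous_snd
    have c3 : Continuous fun p : I × Cube m => (ta p.2 : ℝ) :=
      continuous_subtype_val.comp (htac.comp continuous_snd)
    exact ((continuous_const.sub c1).mul c2).add (c1.mul c3)
  set T : I × Cube m → I := fun p =>
    Set.projIcc (0 : ℝ) 1 zero_le_one ((1 - (p.1 : ℝ)) * tp p.2 + (p.1 : ℝ) * (ta p.2 : ℝ)) with hT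
  have hTval : ∀ p, (T p : ℝ) = (1 - (p.1 : ℝ)) * tp p.2 + (p.1 : ℝ) * (ta p.2 : ℝ) := by
    intro p
    have a1 := p.1.2.1
    have a2 := p.1.2.2
    have a3 := htp0 p.2
    have a4 := htp1 p.2
    have a5 := (ta p.2).2.1
    have a6 := (ta p.2).2.2
    show ((Set.projIcc (0 : ℝ) 1 zero_le_one
      ((1 - (p.1 : ℝ)) * tp p.2 + (p.1 : ℝ) * (ta p.2 : ℝ)) : I) : ℝ) = _
    rw [Set.coe_projIcc]
    have b1 : 0 ≤ (1 - (p.1 : ℝ)) * tp p.2 + (p.1 : ℝ) * (ta p.2 : ℝ) :=
      add_nonneg (mul_nonneg (by linarith) a3) (mul_nonneg a1 a5)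
    have b2 : (1 - (p.1 : ℝ)) * tp p.2 + (p.1 : ℝ) * (ta p.2 : ℝ) ≤ 1 := by
      have c1 : (1 - (p.1 : ℝ)) * tp p.2 ≤ (1 - (p.1 : ℝ)) * 1 :=
        mul_le_mul_of_nonneg_left (by linarith) (by linarith)
      have c2 : (p.1 : ℝ) * (ta p.2 : ℝ) ≤ (p.1 : ℝ) * 1 := mul_le_mul_of_nonneg_left a6 a1
      linarith
    rw [min_eq_right b2, max_eq_right b1]
  have hTd : ∀ p, dist (T p) (ta p.2) ≤ de := by
    intro p
    have a1 := p.1.2.1
    have a2 := p.1.2.2
    rw [Subtype.dist_eq, Real.dist_eq, hTval]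
    have e1 : (1 - (p.1 : ℝ)) * tp p.2 + (p.1 : ℝ) * (ta p.2 : ℝ) - (ta p.2 : ℝ) =
        (1 - (p.1 : ℝ)) * (tp p.2 - (ta p.2 : ℝ)) := by ring
    rw [e1, abs_mul, abs_of_nonneg (by linarith : (0 : ℝ) ≤ 1 - (p.1 : ℝ))]
    have b1 := htpd p.2
    have b2 : (1 - (p.1 : ℝ)) * |tp p.2 - (ta p.2 : ℝ)| ≤ 1 * |tp p.2 - (ta p.2 : ℝ)| :=
      mul_le_mul_of_nonneg_right (by linarith) (abs_nonneg _)
    linarith
  have hTbd : ∀ s, ∀ x ∈ bd m, T (s, x) = ta x := by
    intro s x hx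
    apply Subtype.ext
    rw [hTval]
    have e1 : tp x = (ta x : ℝ) := min_eq_left (hwta x hx)
    show (1 - (s : ℝ)) * tp x + (s : ℝ) * (ta x : ℝ) = (ta x : ℝ)
    rw [e1]
    ring
  have hTd0 : ∀ x, (T (0, x) : ℝ) = tp x := by
    intro x
    rw [hTval]
    simp
  -- time changes
  set s1 : I → I := fun t => Set.projIcc (0 : ℝ) 1 zero_le_one (2 * (t : ℝ)) with hs1
  set s2 : I → I := fun t => Set.projIcc (0 : ℝ) 1 zero_le_one (2 * (t : ℝ) - 1) with hs2
  have hs1c : Continuous s1 := continuous_projIcc.comp (continuous_const.mul continuous_subtype_val)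
  have hs2c : Continuous s2 := continuous_projIcc.comp
    ((continuous_const.mul continuous_subtype_val).sub continuous_const)
  have hs10 : s1 0 = 0 := by
    apply Subtype.ext
    show ((Set.projIcc (0 : ℝ) 1 zero_le_one (2 * ((0 : I) : ℝ)) : I) : ℝ) = 0
    rw [Set.coe_projIcc]
    simp
  have hs21 : s2 1 = 1 := by
    apply Subtype.ext
    show ((Set.projIcc (0 : ℝ) 1 zero_le_one (2 * ((1 : I) : ℝ) - 1) : I) : ℝ) = 1
    rw [Set.coe_projIcc]
    norm_num
  have hs1h : ∀ t : I, (t : ℝ) = 1 / 2 → s1 t = 1 := by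
    intro t ht
    apply Subtype.ext
    show ((Set.projIcc (0 : ℝ) 1 zero_le_one (2 * (t : ℝ)) : I) : ℝ) = 1
    rw [Set.coe_projIcc, ht]
    norm_num
  have hs2h : ∀ t : I, (t : ℝ) ≤ 1 / 2 → s2 t = 0 := by
    intro t ht
    apply Subtype.ext
    show ((Set.projIcc (0 : ℝ) 1 zero_le_one (2 * (t : ℝ) - 1) : I) : ℝ) = 0
    rw [Set.coe_projIcc]
    have : min 1 (2 * (t : ℝ) - 1) ≤ 0 := (min_le_right _ _).trans (by linarith)
    exact max_eq_left this
  have hG1c : Continuous fun p : I × Cube m => ((toM n b (W (s1 p.1, p.2)), T (0, p.2)) : XM n b × I) := by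
    refine Continuous.prodMk ?_ ?_
    · refine U1_toM_cont (hWc.comp ((hs1c.comp continuous_fst).prodMk continuous_snd)) ?_
      intro p
      exact hWM _
    · exact hTc.comp (continuous_const.prodMk continuous_snd)
  have hG2c : Continuous fun p : I × Cube m => ((V (s2 p.1, p.2), T (s2 p.1, p.2)) : XM n b × I) := by
    refine Continuous.prodMk ?_ ?_
    · exact hVc.comp ((hs2c.comp continuous_fst).prodMk continuous_snd)
    · exact hTc.comp ((hs2c.comp continuous_fst).prodMk continuous_snd)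
  have hW1 : ∀ x, W (1, x) = (v' x).1 := by
    intro x
    apply hWid
    show (1 - ((1 : I) : ℝ)) * (1 / 6 + tp x / 3) + ((1 : I) : ℝ) * r x = r x
    simp
  have hal'M : ∀ x, W (0, x) ∈ Mb n (b + 1) := by
    intro x
    rw [hM2 b]
    refine ⟨hWM _, ?_⟩
    show 1 / 6 ≤ rb n b (W (0, x))
    rw [hWrb]
    show 1 / 6 ≤ (1 - ((0 : I) : ℝ)) * (1 / 6 + tp x / 3) + ((0 : I) : ℝ) * r x
    have := htp0 x
    simp
    linarith
  refine ⟨fun x => ⟨W (0, x), hal'M x, hWE _⟩,
    fun p => if (p.1 : ℝ) ≤ 1 / 2 then (toM n b (W (s1 p.1, p.2)), T (0, p.2))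
      else (V (s2 p.1, p.2), T (s2 p.1, p.2)), ?_, ?_, ?_, ?_, ?_, ?_, ?_⟩
  · exact (hWc.comp (continuous_const.prodMk continuous_id)).subtype_mk _
  · refine Continuous.if_le hG1c hG2c (continuous_subtype_val.comp continuous_fst)
      continuous_const ?_
    intro p hp
    have hp' : (p.1 : ℝ) = 1 / 2 := hp
    rw [hs1h p.1 hp', hs2h p.1 hp'.le, hW1, hV0, U1_toM (v' p.2).2.1]
  · intro x hx
    apply Subtype.ext
    exact hWbd 0 x hx
  · intro t x hx
    show (if (t : ℝ) ≤ 1 / 2 then ((toM n b (W (s1 t, x)), T (0, x)) : XM n b × I)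
      else (V (s2 t, x), T (s2 t, x))) = be x
    have hbx : be x = (v x, ta x) := rfl
    split_ifs
    · rw [hWbd _ x hx, hTbd _ x hx, hbx, U1_toM (hsub (al x).2.1)]
      congr 1
      apply Subtype.ext
      exact (hbv x hx).symm
    · rw [hVb _ x hx, hTbd _ x hx]
  · intro x
    show (if (((0 : I) : I) : ℝ) ≤ 1 / 2 then ((toM n b (W (s1 0, x)), T (0, x)) : XM n b × I)
      else (V (s2 0, x), T (s2 0, x))) = (toM n b (W (0, x)), Set.projIcc (0 : ℝ) 1 zero_le_one
        (3 * (rb n b (W (0, x)) - 1 / 6)))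
    rw [if_pos (by norm_num), hs10]
    congr 1
    apply Subtype.ext
    rw [hTd0, Set.coe_projIcc, hWrb]
    have e1 : 3 * (rh (0, x) - 1 / 6) = tp x := by
      show 3 * ((1 - ((0 : I) : ℝ)) * (1 / 6 + tp x / 3) + ((0 : I) : ℝ) * r x - 1 / 6) = tp x
      simp
      ring
    rw [e1, min_eq_right (by have := htp1 x; linarith), max_eq_right (htp0 x)]
  · intro x
    show (if (((1 : I) : I) : ℝ) ≤ 1 / 2 then ((toM n b (W (s1 1, x)), T (0, x)) : XM n b × I)
      else (V (s2 1, x), T (s2 1, x))) = be x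
    rw [if_neg (by norm_num), hs21, hV1]
    have e1 : T (1, x) = ta x := by
      apply Subtype.ext
      rw [hTval]
      simp
    rw [e1]
  · intro t x
    show D (if (t : ℝ) ≤ 1 / 2 then ((toM n b (W (s1 t, x)), T (0, x)) : XM n b × I)
      else (V (s2 t, x), T (s2 t, x))) (be x) ≤ eta'
    have hbx : be x = (v x, ta x) := rfl
    split_ifs
    · have e1 : dist (toM n b (W (s1 t, x))) (⟨(v' x).1, (v' x).2.1⟩ : XM n b) ≤ 1 / 3 ^ b := by
        rw [U1_toM (hWM _), Subtype.dist_eq]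
        have hg := (h10.1 (2 * n + 1) (3 ^ b) (v' x).1 (Nat.one_le_pow _ _ (by norm_num))).2.2.2 (W (s1 t, x))
          (hWfacts (s1 t, x)).1 (v' x).1
          (h10.1 (2 * n + 1) (3 ^ b) (v' x).1 (Nat.one_le_pow _ _ (by norm_num))).1
        push_cast at hg
        exact hg
      have e2 := hDe _ _ (T (0, x)) e1
      have e3 : dist ((⟨(v' x).1, (v' x).2.1⟩ : XM n b), T (0, x)) (v x, ta x) ≤ de := by
        rw [Prod.dist_eq]
        refine max_le ?_ (hTd (0, x))
        have := hVd 0 x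
        rw [hV0] at this
        exact this
      have e4 := hDd _ _ e3
      have e5 := hD.tri (toM n b (W (s1 t, x)), T (0, x)) ((⟨(v' x).1, (v' x).2.1⟩ : XM n b), T (0, x))
        (v x, ta x)
      rw [hbx]
      linarith
    · have e3 : dist (V (s2 t, x), T (s2 t, x)) (v x, ta x) ≤ de := by
        rw [Prod.dist_eq]
        exact max_le (hVd (s2 t) x) (hTd (s2 t, x))
      have e4 := hDd _ _ e3
      rw [hbx]
      linarith

theorem pr_U1 (h1 : S_GPM) (h2 : S_Radm) (h3 : S_MbFacts) (h4 : S_Cancel) (h5 : S_SoftOfRel)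
    (h6 : S_Basics) (h7 : S_UC) (h8 : S_Lev) (h9 : S_Med) (h10 : S_Grid) : S_U1 := by
  intro n b D eta hn hD heta hDe
  obtain ⟨hM1, hM2, hM3, -, -, -, hMrb, hMrb2, -⟩ := h3 n hn
  have hsub : Mb n (b + 1) ⊆ Mb n b := hM3 b (b + 1) (Nat.le_succ b)
  have huc : Continuous (fun x : XM n (b + 1) =>
      ((toM n b x, (Set.projIcc (0 : ℝ) 1 zero_le_one (3 * (rb n b x - 1 / 6)) : unitInterval)) :
        XM n b × I)) := by
    refine Continuous.prodMk ?_ ?_
    · exact U1_toM_cont continuous_subtype_val fun x => hsub x.2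
    · refine continuous_projIcc.comp ?_
      exact continuous_const.mul (((hMrb b).comp continuous_subtype_val).sub continuous_const)
  have hincl : Continuous (fun x : U1A n b (b + 1) => (⟨x.1, x.2.1⟩ : XM n (b + 1))) :=
    continuous_subtype_val.subtype_mk _
  have hfs : FineSoft n (fun x : U1A n b (b + 1) => (⟨x.1, x.2.1⟩ : XM n (b + 1))) :=
    h1 n (b + 1) (U1E b) hn (U1E_finite b)
  have hne : Nonempty (U1A n b (b + 1)) := U1A_nonempty n b
  have hcomp : Soft n D eta (fun a : U1A n b (b + 1) =>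
      (fun x : XM n (b + 1) =>
      ((toM n b x, (Set.projIcc (0 : ℝ) 1 zero_le_one (3 * (rb n b x - 1 / 6)) : unitInterval)) :
        XM n b × I)) ((fun x : U1A n b (b + 1) => (⟨x.1, x.2.1⟩ : XM n (b + 1))) a)) := by
    refine h5 n _ _ D eta _ hD (huc.comp hincl) ?_
    exact U1_rel h1 h2 h3 h6 h7 h8 h9 h10 n b D eta hn hD heta hDe
  have := h4 n (U1A n b (b + 1)) (XM n (b + 1)) (XM n b × I) D 0 eta _ _ hne hD hincl huc le_rfl
    (hfs _ (h7.2.2.1 _ _ D _ hD huc)) hcomp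
  simpa using this

end M202

end

section

/-!
MP_202a65_gt: the squeeze is fine soft
-/

set_option autoImplicit false

open Set Topology unitInterval

namespace M202

/-- profile -/
noncomputable def X1_h (s μ : ℝ) : ℝ := min (1 / 2) ((1 + s) * |μ|)

theorem X1_h_nonneg (s μ : ℝ) (hs : 0 ≤ s) : 0 ≤ X1_h s μ :=
  le_min (by norm_num) (by positivity)

theorem X1_h_half (s : ℝ) (hs : 0 ≤ s) : X1_h s (1 / 2) = 1 / 2 := by
  unfold X1_h
  rw [abs_of_pos (by norm_num : (0 : ℝ) < 1 / 2)]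
  exact min_eq_left (by linarith)

theorem X1_h_zero (μ : ℝ) (h0 : 0 ≤ μ) (h1 : μ ≤ 1 / 2) : X1_h 0 μ = μ := by
  unfold X1_h
  rw [abs_of_nonneg h0, add_zero, one_mul, min_eq_right h1]

theorem X1_h_mono (s μ μ' : ℝ) (hs : 0 ≤ s) (h0 : 0 ≤ μ) (h : μ ≤ μ') :
    X1_h s μ ≤ X1_h s μ' := by
  unfold X1_h
  rw [abs_of_nonneg h0, abs_of_nonneg (h0.trans h)]
  exact min_le_min_left _ (mul_le_mul_of_nonneg_left h (by linarith))

/-- vanishes exactly on the boundary -/
noncomputable def X1_rho {m : ℕ} (x : Cube m) : ℝ := ∏ i, ((x i : ℝ) * (1 - (x i : ℝ)))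

theorem X1_rho_cont {m : ℕ} : Continuous (X1_rho : Cube m → ℝ) := by
  unfold X1_rho
  fun_prop

theorem X1_rho_mem {m : ℕ} (x : Cube m) : 0 ≤ X1_rho x ∧ X1_rho x ≤ 1 := by
  unfold X1_rho
  have h : ∀ i, 0 ≤ (x i : ℝ) * (1 - (x i : ℝ)) ∧ (x i : ℝ) * (1 - (x i : ℝ)) ≤ 1 := by
    intro i
    have h1 := (x i).2.1
    have h2 := (x i).2.2
    constructor
    · exact mul_nonneg h1 (by linarith)
    · nlinarith
  exact ⟨Finset.prod_nonneg fun i _ => (h i).1,
    Finset.prod_le_one (fun i _ => (h i).1) fun i _ => (h i).2⟩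

theorem X1_rho_bd {m : ℕ} (x : Cube m) (hx : x ∈ bd m) : X1_rho x = 0 := by
  obtain ⟨i, hi⟩ := hx
  unfold X1_rho
  refine Finset.prod_eq_zero (Finset.mem_univ i) ?_
  rcases hi with hi | hi
  · rw [hi]; simp
  · rw [hi]; simp

theorem X1_rho_pos {m : ℕ} (x : Cube m) (hx : x ∉ bd m) : 0 < X1_rho x := by
  unfold X1_rho
  refine Finset.prod_pos fun i _ => ?_
  have h1 : x i ≠ 0 := fun h => hx ⟨i, Or.inl h⟩
  have h2 : x i ≠ 1 := fun h => hx ⟨i, Or.inr h⟩
  have h3 : (0 : ℝ) < x i := lt_of_le_of_ne (x i).2.1 (fun h => h1 (Subtype.ext h.symm))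
  have h4 : (x i : ℝ) < 1 := lt_of_le_of_ne (x i).2.2 (fun h => h2 (Subtype.ext h))
  exact mul_pos h3 (by linarith)

/-- points of `M_(b+1)` with `r_b > 1/6` -/
abbrev X1_A (n b : ℕ) : Type :=
  {x : Cube (2 * n + 1) // x ∈ Mb n (b + 1) ∧ 1 / 6 < rb n b x}

/-- inclusion -/
def X1_inc (n b : ℕ) (x : X1_A n b) : XM n (b + 1) := ⟨x.1, x.2.1⟩

theorem X1_inc_soft (h3 : S_Radm) (h4 : S_MbFacts) (h5 : S_Basics) (h9 : S_UC) (n b : ℕ)
    (hn : 1 ≤ n) : FineSoft n (X1_inc n b) := by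
  obtain ⟨hM1, hM2, hM3, hM4, hM5, hM6, hM7, hM8, hM9, hM10, hM11, hM12⟩ := h4 n hn
  obtain ⟨hR1, hR2, hR3, hR4, hR5⟩ := h3 n b hn
  obtain ⟨-, -, -, hB4, -, -, -, -⟩ := h5
  obtain ⟨hU1, -⟩ := h9
  have : CompactSpace (XM n (b + 1)) := isCompact_iff_compactSpace.mp (hM1 (b + 1)).2.2.2.2.1
  refine hB4 n _ _ (X1_inc n b) (by unfold X1_inc; fun_prop) ?_
  intro D hD m _ eta' heta be al hbe hal hra
  obtain ⟨w, hw, hwD⟩ := hU1 (XM n (b + 1)) D hD eta' heta
  set s : I × Cube m → ℝ := fun p => (1 - (p.1 : ℝ)) * (w * X1_rho p.2) with hs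
  have hs0 : ∀ p, 0 ≤ s p := fun p => mul_nonneg (by linarith [p.1.2.2])
    (mul_nonneg hw.le (X1_rho_mem p.2).1)
  have hsw : ∀ p, s p ≤ w := by
    intro p
    have h1 := (X1_rho_mem p.2).2
    have h2 := (X1_rho_mem p.2).1
    have h3 : w * X1_rho p.2 ≤ w := by nlinarith
    have h4 : 0 ≤ w * X1_rho p.2 := by positivity
    have h5 := p.1.2.1
    simp only [hs]
    nlinarith
  have hsc : Continuous s := by
    simp only [hs]
    exact (by fun_prop : Continuous fun p : I × Cube m => 1 - (p.1 : ℝ)).mul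
      (continuous_const.mul (X1_rho_cont.comp continuous_snd))
  set g : I × Cube m → Cube (2 * n + 1) := fun p => radm n b (X1_h (s p)) (be p.2 : Cube (2 * n + 1))
    with hg
  have hbeM : ∀ x, (be x : Cube (2 * n + 1)) ∈ Mb n b ∧ 1 / 6 ≤ rb n b (be x) := by
    intro x
    exact (Set.ext_iff.mp (hM2 b) (be x : Cube (2 * n + 1))).mp (be x).2
  have hrb0 : ∀ x, 0 < rb n b (be x) := fun x => by linarith [(hbeM x).2]
  have hfac : ∀ p, _ := fun p : I × Cube m => hR1 (X1_h (s p)) (be p.2) (hrb0 p.2)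
    (fun μ => X1_h_nonneg _ _ (hs0 p)) (X1_h_half _ (hs0 p))
    (fun μ μ' h1 h2 _ => X1_h_mono _ _ _ (hs0 p) (by linarith [hrb0 p.2]) h2)
  have hgrb : ∀ p, rb n b (g p) = X1_h (s p) (rb n b (be p.2)) := fun p => (hfac p).2.1
  have hge : ∀ p, 1 / 6 ≤ rb n b (g p) := by
    intro p
    rw [hgrb]
    unfold X1_h
    have h1 := (hbeM p.2).2
    rw [abs_of_pos (hrb0 p.2)]
    refine le_min (by norm_num) ?_
    have := hs0 p
    nlinarith
  have hgM : ∀ p, g p ∈ Mb n (b + 1) := by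
    intro p
    rw [hM2 b]
    exact ⟨(hM1 b).1 _ (hbeM p.2).1 (hfac p).1, hge p⟩
  have hgc : Continuous g := by
    rw [← continuousOn_univ]
    refine hR4 (I × Cube m) univ (fun p => (be p.2 : Cube (2 * n + 1))) (fun p => X1_h (s p)) ?_ ?_
      ?_ ?_
    · exact (continuous_subtype_val.comp (hbe.comp continuous_snd)).continuousOn
    · intro p _
      exact hrb0 p.2
    · refine Continuous.continuousOn ?_
      unfold X1_h
      refine continuous_const.min ?_
      exact (continuous_const.add (hsc.comp continuous_fst)).mul (continuous_abs.comp continuous_snd)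
    · intro p _
      exact X1_h_half _ (hs0 p)
  have hid : ∀ p, s p = 0 → g p = be p.2 := by
    intro p hp
    simp only [hg]
    rw [hR5 (X1_h (s p)) (fun μ => μ) _ (by
      intro μ h1 h2
      rw [hp]
      exact X1_h_zero μ (by linarith [hrb0 p.2]) h2), hR3 _ (hrb0 p.2)]
  have hbd : ∀ t : I, ∀ x ∈ bd m, g (t, x) = be x := by
    intro t x hx
    refine hid (t, x) ?_
    simp only [hs]
    rw [X1_rho_bd x hx, mul_zero, mul_zero]
  have h16 : ∀ x, 1 / 6 < rb n b (g (0, x)) := by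
    intro x
    by_cases hx : x ∈ bd m
    · rw [hbd 0 x hx, ← hra x hx]
      exact (al x).2.2
    · rw [hgrb]
      unfold X1_h
      have h1 := (hbeM x).2
      have h2 : 0 < s (0, x) := by
        simp only [hs]
        have := X1_rho_pos x hx
        have h0 : ((0 : I) : ℝ) = 0 := rfl
        rw [h0, sub_zero, one_mul]
        positivity
      rw [abs_of_pos (hrb0 x)]
      refine lt_min (by norm_num) ?_
      nlinarith
  refine ⟨fun x => ⟨g (0, x), hgM _, h16 x⟩, fun p => ⟨g p, hgM p⟩, ?_, ?_, ?_, ?_, ?_, ?_, ?_⟩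
  · exact Continuous.subtype_mk (hgc.comp (by fun_prop)) _
  · exact Continuous.subtype_mk hgc _
  · intro x hx
    apply Subtype.ext
    show g (0, x) = (al x).1
    rw [hbd 0 x hx, ← hra x hx]
    rfl
  · intro t x hx
    apply Subtype.ext
    exact hbd t x hx
  · intro x
    rfl
  · intro x
    apply Subtype.ext
    refine hid (1, x) ?_
    simp only [hs]
    have h0 : ((1 : I) : ℝ) = 1 := rfl
    rw [h0, sub_self, zero_mul]
  · intro t x
    refine hwD _ _ ?_
    rw [Subtype.dist_eq]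
    rw [dist_pi_le_iff hw.le]
    intro i
    rw [Subtype.dist_eq]
    show dist ((g (t, x) i : I) : ℝ) (((be x : Cube (2 * n + 1)) i : I) : ℝ) ≤ w
    rw [(hfac (t, x)).2.2.1 i]
    set M := max (lev b (((be x : Cube (2 * n + 1)) i : I) : ℝ)) (rb n b (be x)) with hM
    have hM0 : 1 / 6 ≤ M := (hbeM x).2.trans (le_max_right _ _)
    have hM1' : M ≤ 1 / 2 := by
      refine max_le ?_ (hM8 b _).2
      unfold lev
      rw [abs_le]
      have h1 := Int.fract_nonneg ((3 : ℝ) ^ b * (((be x : Cube (2 * n + 1)) i : I) : ℝ))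
      have h2 := (Int.fract_lt_one ((3 : ℝ) ^ b * (((be x : Cube (2 * n + 1)) i : I) : ℝ))).le
      constructor <;> linarith
    have hk0 : 0 ≤ X1_h (s (t, x)) M / M - 1 := by
      rw [sub_nonneg, le_div_iff₀ (by linarith), one_mul]
      unfold X1_h
      rw [abs_of_pos (by linarith : 0 < M)]
      refine le_min hM1' ?_
      have := hs0 (t, x)
      nlinarith
    have hk1 : X1_h (s (t, x)) M / M - 1 ≤ w := by
      rw [sub_le_iff_le_add, div_le_iff₀ (by linarith)]
      unfold X1_h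
      rw [abs_of_pos (by linarith : 0 < M)]
      refine (min_le_right _ _).trans ?_
      have := hsw (t, x)
      nlinarith
    unfold mv
    rw [Real.dist_eq, add_sub_cancel_left, abs_div, abs_mul, abs_of_nonneg hk0]
    have h1 := Int.fract_nonneg ((3 : ℝ) ^ b * (((be x : Cube (2 * n + 1)) i : I) : ℝ))
    have h2 := (Int.fract_lt_one ((3 : ℝ) ^ b * (((be x : Cube (2 * n + 1)) i : I) : ℝ))).le
    have h3 : |Int.fract ((3 : ℝ) ^ b * (((be x : Cube (2 * n + 1)) i : I) : ℝ)) - 1 / 2| ≤ 1 := by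
      rw [abs_le]
      constructor <;> linarith
    have h4 : (1 : ℝ) ≤ |(3 : ℝ) ^ b| := by
      rw [abs_of_pos (by positivity)]
      exact one_le_pow₀ (by norm_num)
    rw [div_le_iff₀ (by linarith)]
    have h5 : |Int.fract ((3 : ℝ) ^ b * (((be x : Cube (2 * n + 1)) i : I) : ℝ)) - 1 / 2| *
        (X1_h (s (t, x)) M / M - 1) ≤ 1 * w := mul_le_mul h3 hk1 hk0 zero_le_one
    have h6 : w * 1 ≤ w * |(3 : ℝ) ^ b| := mul_le_mul_of_nonneg_left h4 hw.le
    linarith

theorem pr_X1 (h1 : S_GPM) (h2 : S_SqzPz) (h3 : S_Radm) (h4 : S_MbFacts) (h5 : S_Basics)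
    (h6 : S_HomeoComp) (h7 : S_SgFacts) (_h8 : S_Lev) (h9 : S_UC) : S_X1 := by
  intro n b hn
  have hsoftA := X1_inc_soft h3 h4 h5 h9 n b hn
  obtain ⟨hM1, hM2, hM3, hM4, hM5, hM6, hM7, hM8, hM9, hM10, hM11, hM12⟩ := h4 n hn
  obtain ⟨⟨q1, q2, q3, q4, q5⟩, -, inv, v1, v2, v3⟩ := h2 n b hn
  obtain ⟨-, -, -, -, -, -, hB7, -⟩ := h5
  obtain ⟨-, -, -, hS4, -, -, -, -, -⟩ := h7 n hn
  set E : Set ℝ := {t : ℝ | 0 ≤ t ∧ t ≤ 1 ∧ ∃ k : ℤ, (3 : ℝ) ^ b * t = k + 1 / 2} with hE
  have hEfin : E.Finite := by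
    refine ((Set.finite_Icc (0 : ℤ) (3 ^ b)).image fun k : ℤ => ((k : ℝ) + 1 / 2) / 3 ^ b).subset ?_
    rintro t ⟨ht0, ht1, k, hk⟩
    have h3 : (0 : ℝ) < 3 ^ b := by positivity
    refine ⟨k, ⟨?_, ?_⟩, ?_⟩
    · have : (0 : ℝ) ≤ (3 : ℝ) ^ b * t := by positivity
      rw [hk] at this
      have h' : (-1 : ℝ) < k := by linarith
      have : (-1 : ℤ) < k := by exact_mod_cast h'
      omega
    · have : (3 : ℝ) ^ b * t ≤ 3 ^ b := by nlinarith
      rw [hk] at this
      have h' : (k : ℝ) ≤ 3 ^ b := by linarith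
      exact_mod_cast h'
    · show ((k : ℝ) + 1 / 2) / 3 ^ b = t
      rw [← hk]
      field_simp
  have hiff : ∀ x : Cube (2 * n + 1), {i | ((x i : I) : ℝ) ∈ E}.ncard ≤ n ↔ 0 < rb n b x := by
    intro x
    have h1 : {i | ((x i : I) : ℝ) ∈ E} = {i | ∃ k : ℤ, (3 : ℝ) ^ b * (x i : ℝ) = k + 1 / 2} := by
      ext i
      constructor
      · intro h
        exact h.2.2
      · intro h
        exact ⟨(x i).2.1, (x i).2.2, h⟩
    rw [h1]
    have h2 := hM10 b x
    have h3 := (hM8 b x).1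
    constructor
    · intro h
      refine lt_of_le_of_ne h3 fun h' => ?_
      have := h2.mp h'.symm
      omega
    · intro h
      by_contra hc
      have : rb n b x = 0 := h2.mpr (by omega)
      linarith
  have hGP := h1 n b E hn hEfin
  have hA0 : Nonempty (X1_A n b) := by
    refine ⟨⟨0, zero_mem_Mb n (b + 1), ?_⟩⟩
    have := zero_mem_Zb n b
    rw [hM6 b] at this
    have h' : rb n b 0 = 1 / 2 := this.2
    rw [h']
    norm_num
  -- the homeomorphism
  let hh : X1_A n b ≃ₜ {x : Cube (2 * n + 1) // x ∈ Mb n b ∧ {i | ((x i : I) : ℝ) ∈ E}.ncard ≤ n} :=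
    { toFun := fun x => ⟨sqz n b x.1, q2 x.2.1, (hiff _).mpr (v3 x.1 x.2.1 x.2.2).1⟩
      invFun := fun y => ⟨inv y.1, (v2 y.1 y.2.1 ((hiff _).mp y.2.2)).1,
        (v2 y.1 y.2.1 ((hiff _).mp y.2.2)).2.1⟩
      left_inv := fun x => Subtype.ext (v3 x.1 x.2.1 x.2.2).2
      right_inv := fun y => Subtype.ext (v2 y.1 y.2.1 ((hiff _).mp y.2.2)).2.2
      continuous_toFun := by
        refine Continuous.subtype_mk ?_ _
        exact q1.comp_continuous continuous_subtype_val fun x => x.2.1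
      continuous_invFun := by
        refine Continuous.subtype_mk ?_ _
        exact v1.comp_continuous continuous_subtype_val fun y => ⟨y.2.1, (hiff _).mp y.2.2⟩ }
  have hcomp : FineSoft n (fun a : X1_A n b => sM n b (b + 1) (X1_inc n b a)) := by
    intro D hD
    have e := (h6 n _ _ _ _ _ hh (Homeomorph.refl (XM n b)) 0).1 D (hGP D hD)
    have e2 : (fun a : X1_A n b => sM n b (b + 1) (X1_inc n b a)) =
        fun a => (⟨(hh a).1, (hh a).2.1⟩ : XM n b) := by
      funext a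
      apply Subtype.ext
      rw [(hS4 b (b + 1) (Nat.le_succ b)).2]
      show sg n b (b + 1) a.1 = sqz n b a.1
      unfold sg
      rw [show b + 1 - b = 1 by omega]
      rfl
    rw [e2]
    exact e
  exact hB7 n _ _ _ (X1_inc n b) (sM n b (b + 1)) hA0 (by unfold X1_inc; fun_prop)
    (hS4 b (b + 1) (Nat.le_succ b)).1 hsoftA hcomp

end M202

end

section

/-!
MP_202a65_gt, item X1all (helper61): all bonding maps are fine soft.
-/

set_option linter.unusedSectionVars false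

open Set Topology unitInterval Filter

namespace M202

theorem pr_X1all (h1 : S_X1) (h2 : S_SgFacts) (h3 : S_Basics) : S_X1all := by
  intro n b b' hn hbb
  obtain ⟨-, -, hid, -, -, hcomp, -, -⟩ := h3
  obtain ⟨-, -, -, hcont, hrefl, htr, -, -, -⟩ := h2 n hn
  induction b', hbb using Nat.le_induction with
  | base =>
    have e : sM n b b = (id : XM n b → XM n b) := by
      funext x
      exact hrefl b x
    rw [e]
    exact hid n (XM n b)
  | succ b' hbb ih =>
    have e : sM n b (b' + 1) = fun x => sM n b b' (sM n b' (b' + 1) x) := by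
      funext x
      exact (htr b b' (b' + 1) x hbb (Nat.le_succ b')).symm
    rw [e]
    exact hcomp n _ _ _ (sM n b' (b' + 1)) (sM n b b') (hcont b' (b' + 1) (Nat.le_succ b')).1
      (hcont b b' hbb).1 (h1 n b' hn) ih

end M202

end

section

/-!
MP_202a65_gt item X2 (helper63): some M_b' maps softly onto M_b × I^N.
-/

open Set Topology unitInterval Filter

namespace M202

theorem X2_face_dist {L N : ℕ} (hL : 1 ≤ L) (x y : Cube N) (h : y ∈ faceOf L x) :
    dist x y ≤ 1 / (L : ℝ) := by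
  have hL' : (0 : ℝ) < L := by exact_mod_cast hL
  rw [dist_pi_le_iff (by positivity)]
  intro i
  obtain ⟨h1, h2⟩ := h i
  have h3 : (⌊(L : ℝ) * (x i : ℝ)⌋ : ℝ) ≤ (L : ℝ) * (x i : ℝ) := Int.floor_le _
  have h4 : (L : ℝ) * (x i : ℝ) ≤ (⌈(L : ℝ) * (x i : ℝ)⌉ : ℝ) := Int.le_ceil _
  have h5 : (⌈(L : ℝ) * (x i : ℝ)⌉ : ℝ) ≤ (⌊(L : ℝ) * (x i : ℝ)⌋ : ℝ) + 1 := by
    exact_mod_cast Int.ceil_le_floor_add_one _
  have h6 : |(L : ℝ) * (x i : ℝ) - (L : ℝ) * (y i : ℝ)| ≤ 1 := by
    rw [abs_le]; constructor <;> linarith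
  have h7 : dist (x i) (y i) = |(x i : ℝ) - (y i : ℝ)| := rfl
  rw [h7, le_div_iff₀ hL']
  calc |(x i : ℝ) - (y i : ℝ)| * L = |(L : ℝ) * (x i : ℝ) - (L : ℝ) * (y i : ℝ)| := by
        rw [← mul_sub, abs_mul, abs_of_pos hL', mul_comm]
    _ ≤ 1 := h6

/-- the homeomorphism (X × I^N) × I = X × I^(N+1) -/
noncomputable def X2_homeo (X : Type) [TopologicalSpace X] (N : ℕ) :
    (X × Cube N) × I ≃ₜ X × Cube (N + 1) where
  toFun p := (p.1.1, Fin.cons p.2 p.1.2)
  invFun q := ((q.1, fun i => q.2 i.succ), q.2 0)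
  left_inv p := by
    rcases p with ⟨⟨a, f⟩, t⟩
    simp
  right_inv q := by
    rcases q with ⟨a, f⟩
    simp only [Prod.mk.injEq, true_and]
    funext i
    refine Fin.cases ?_ (fun j => ?_) i <;> simp
  continuous_toFun := by
    refine Continuous.prodMk (by fun_prop) ?_
    refine continuous_pi fun i => ?_
    refine Fin.cases ?_ (fun j => ?_) i
    · simp only [Fin.cons_zero]; fun_prop
    · simp only [Fin.cons_succ]; fun_prop
  continuous_invFun := by fun_prop

/-- the homeomorphism X = X × I^0 -/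
noncomputable def X2_homeo0 (X : Type) [TopologicalSpace X] : X ≃ₜ X × Cube 0 where
  toFun x := (x, fun i => i.elim0)
  invFun q := q.1
  left_inv p := rfl
  right_inv q := by
    rcases q with ⟨a, f⟩
    simp only [Prod.mk.injEq, true_and]
    funext i
    exact i.elim0
  continuous_toFun := by fun_prop
  continuous_invFun := by fun_prop

/-- the case N = 1 -/
theorem X2_one (h1 : S_U1) (h2 : S_X1all) (h5 : S_Comp) (h6 : S_SgFacts)
    (h7 : S_UC) (h8 : S_Basics) (h10 : S_MbFacts) (n b : ℕ) (D : XM n b × I → XM n b × I → ℝ)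
    (eta : ℝ) (hn : 1 ≤ n) (hD : IsCPM D) (heta : 0 < eta) :
    ∃ (b' : ℕ) (u : XM n b' → XM n b × I), b ≤ b' ∧ Continuous u ∧ Soft n D eta u ∧
      ∀ x, dist (u x).1 (sM n b b' x) ≤ eta := by
  obtain ⟨s1, s2, s3, s4, s5, s6, s7, s8, s9⟩ := h6 n hn
  obtain ⟨c1, c2, c3, c4, c5, c6, c7, c8⟩ := h7
  obtain ⟨m1, m2, m3, m4, m5, m6, m7, m8, -, -, -, -⟩ := h10 n hn
  obtain ⟨a1, a2, a3, a4, a5, a6, a7, a8⟩ := h8
  have : CompactSpace (XM n b) := (s9 b).1
  obtain ⟨de, hde, hde'⟩ := c1 (XM n b × I) D hD (eta / 2) (by linarith)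
  -- choice of b1
  obtain ⟨k, hk⟩ := exists_pow_lt_of_lt_one (lt_min hde heta) (by norm_num : (1 / 2 : ℝ) < 1)
  set b1 := max b k with hb1
  have hb1b : b ≤ b1 := le_max_left _ _
  have hb1k : (1 : ℝ) / 2 ^ b1 ≤ min de eta := by
    have : (1 / 2 : ℝ) ^ b1 ≤ (1 / 2 : ℝ) ^ k :=
      pow_le_pow_of_le_one (by norm_num) (by norm_num) (le_max_right _ _)
    have e : (1 : ℝ) / 2 ^ b1 = (1 / 2 : ℝ) ^ b1 := by rw [one_div_pow]
    rw [e]; linarith
  have hclose : ∀ x y : XM n b1, dist x y ≤ 1 / 3 ^ b1 →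
      dist (sM n b b1 x) (sM n b b1 y) ≤ 1 / 2 ^ b1 := by
    intro x y hxy
    have := (s1 b b1 hb1b).2.2.2.2.1 x.1 x.2 y.1 y.2 (by simpa [Subtype.dist_eq] using hxy)
    rw [Subtype.dist_eq, (s4 b b1 hb1b).2, (s4 b b1 hb1b).2]
    exact this
  set D' : XM n b1 × I → XM n b1 × I → ℝ :=
    fun p q => D (sM n b b1 p.1, p.2) (sM n b b1 q.1, q.2) with hD'
  have hcs : Continuous (sM n b b1) := (s4 b b1 hb1b).1
  have hD'c : IsCPM D' :=
    c3 (XM n b1 × I) (XM n b × I) D (fun p => (sM n b b1 p.1, p.2)) hD (by fun_prop)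
  -- the map of U1
  set u1 : XM n (b1 + 1) → XM n b1 × I := fun x =>
    (toM n b1 x, (Set.projIcc (0 : ℝ) 1 zero_le_one (3 * (rb n b1 x - 1 / 6)) : unitInterval))
    with hu1
  have htoM : ∀ x : XM n (b1 + 1), toM n b1 x = ⟨x.1, m3 b1 (b1 + 1) (Nat.le_succ _) x.2⟩ := by
    intro x
    unfold toM
    rw [dif_pos (m3 b1 (b1 + 1) (Nat.le_succ _) x.2)]
  have hu1c : Continuous u1 := by
    refine Continuous.prodMk ?_ ?_
    · have : (fun x : XM n (b1 + 1) => toM n b1 x) =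
          fun x => (⟨x.1, m3 b1 (b1 + 1) (Nat.le_succ _) x.2⟩ : XM n b1) := by
        funext x; exact htoM x
      rw [this]
      exact Continuous.subtype_mk continuous_subtype_val _
    · refine continuous_projIcc.comp ?_
      have := (m7 b1).comp (continuous_subtype_val : Continuous (fun x : XM n (b1 + 1) => x.1))
      exact continuous_const.mul (this.sub continuous_const)
  have hu1s : Soft n D' (eta / 2) u1 := by
    refine h1 n b1 D' (eta / 2) hn hD'c (by linarith) ?_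
    intro x y t hxy
    refine hde' _ _ ?_
    rw [Prod.dist_eq]
    simp only [dist_self]
    refine max_le ?_ hde.le
    exact (hclose x y hxy).trans (hb1k.trans (min_le_left _ _))
  have hth2 : FineSoft n (fun p : XM n b1 × I => (sM n b b1 p.1, p.2)) :=
    a8 n (XM n b1) (XM n b) I (sM n b b1) hcs (h2 n b b1 hn hb1b)
  have hcomp := h5 n (XM n (b1 + 1)) (XM n b1 × I) (XM n b × I) D (eta / 2) 0 u1
    (fun p : XM n b1 × I => (sM n b b1 p.1, p.2)) hD hu1c (by fun_prop) hu1s (hth2 D hD)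
  have hcc : Continuous (fun a => (fun p : XM n b1 × I => (sM n b b1 p.1, p.2)) (u1 a)) := by
    fun_prop
  refine ⟨b1 + 1, fun a => (fun p : XM n b1 × I => (sM n b b1 p.1, p.2)) (u1 a),
    hb1b.trans (Nat.le_succ _), hcc, ?_, ?_⟩
  · exact a1 n n _ _ D D (eta / 2 + 0) eta _ le_rfl (by linarith) hD hD hcc (fun _ _ => le_rfl) hcomp
  · intro x
    have e1 : sM n b (b1 + 1) x = sM n b b1 (sM n b1 (b1 + 1) x) :=
      (s6 b b1 (b1 + 1) x hb1b (Nat.le_succ _)).symm
    rw [e1]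
    refine (hclose _ _ ?_).trans (hb1k.trans (min_le_right _ _))
    rw [Subtype.dist_eq, (s4 b1 (b1 + 1) (Nat.le_succ _)).2]
    simp only [hu1, htoM]
    have hf := (s1 b1 (b1 + 1) (Nat.le_succ _)).2.2.1 x.1 x.2
    have := X2_face_dist (L := 3 ^ b1) (Nat.one_le_pow _ _ (by norm_num)) x.1 _ hf
    simpa using this

theorem pr_X2 (h1 : S_U1) (h2 : S_X1all) (h3 : S_ProdId) (h4 : S_SupCPM) (h5 : S_Comp)
    (h6 : S_SgFacts) (h7 : S_UC) (h8 : S_Basics) (h9 : S_HomeoComp) (h10 : S_MbFacts) :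
    S_X2 := by
  intro n b N
  induction N with
  | zero =>
    intro D eta hn hD heta
    obtain ⟨a1, a2, a3, a4, a5, a6, a7, a8⟩ := h8
    obtain ⟨c1, c2, c3, c4, c5, c6, c7, c8⟩ := h7
    obtain ⟨s1, s2, s3, s4, s5, s6, s7, s8, s9⟩ := h6 n hn
    have hk := (X2_homeo0 (XM n b)).continuous
    have hD' : IsCPM (fun x y => D (X2_homeo0 (XM n b) x) (X2_homeo0 (XM n b) y)) :=
      c3 _ _ D _ hD hk
    have hs := (h9 n (XM n b) (XM n b) (XM n b) (XM n b × Cube 0) id (Homeomorph.refl _)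
      (X2_homeo0 (XM n b)) 0).2 D (a3 n (XM n b) _ hD')
    refine ⟨b, fun a => X2_homeo0 (XM n b) (id a), le_rfl, hk, ?_, ?_⟩
    · exact a1 n n _ _ D D 0 eta _ le_rfl heta.le hD hD hk (fun _ _ => le_rfl) hs
    · intro x
      have : (X2_homeo0 (XM n b) (id x)).1 = x := rfl
      rw [this, s5 b x, dist_self]
      exact heta.le
  | succ N ih =>
    intro D eta hn hD heta
    have h8' := h8
    have h7' := h7
    have h6' := h6
    obtain ⟨a1, a2, a3, a4, a5, a6, a7, a8⟩ := h8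
    obtain ⟨c1, c2, c3, c4, c5, c6, c7, c8⟩ := h7
    obtain ⟨s1, s2, s3, s4, s5, s6, s7, s8, s9⟩ := h6 n hn
    set k := X2_homeo (XM n b) N with hk
    set Dk : (XM n b × Cube N) × I → (XM n b × Cube N) × I → ℝ := fun p q => D (k p) (k q)
      with hDk
    have hDkc : IsCPM Dk := c3 _ _ D _ hD k.continuous
    obtain ⟨hD1, -⟩ := h4 (XM n b × Cube N) I Dk hDkc
    obtain ⟨b', th', hbb', hth'c, hth's, hth'd⟩ := ih _ (eta / 2) hn hD1 (by linarith)
    have hprod : Soft n Dk (eta / 2) (fun p : XM n b' × I => (th' p.1, p.2)) :=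
      h3 n (XM n b') (XM n b × Cube N) I Dk (eta / 2) th' hDkc hth'c hth's
    have hpc : Continuous (fun p : XM n b' × I => (th' p.1, p.2)) := by fun_prop
    have hD2 : IsCPM (fun p q : XM n b' × I => Dk (th' p.1, p.2) (th' q.1, q.2)) :=
      c3 _ _ Dk _ hDkc hpc
    have : CompactSpace (XM n b') := (s9 b').1
    obtain ⟨de, hde, hde'⟩ := c2 (XM n b') (XM n b) (fun x y => dist x y) (sM n b b')
      (c8 _) (s4 b b' hbb').1 (eta / 2) (by linarith)
    obtain ⟨b'', u', hb'b'', hu'c, hu's, hu'd⟩ := X2_one h1 h2 h5 h6' h7' h8' h10 n b'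
      (fun p q : XM n b' × I => Dk (th' p.1, p.2) (th' q.1, q.2)) (min (eta / 2) de) hn hD2
      (lt_min (by linarith) hde)
    have hcomp := h5 n (XM n b'') (XM n b' × I) ((XM n b × Cube N) × I) Dk (min (eta / 2) de)
      (eta / 2) u' (fun p : XM n b' × I => (th' p.1, p.2)) hDkc hu'c hpc hu's hprod
    have hcc : Continuous (fun a => (fun p : XM n b' × I => (th' p.1, p.2)) (u' a)) := by fun_prop
    have hcomp' : Soft n Dk eta (fun a => (fun p : XM n b' × I => (th' p.1, p.2)) (u' a)) :=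
      a1 n n _ _ Dk Dk (min (eta / 2) de + eta / 2) eta _ le_rfl
        (by have := min_le_left (eta / 2) de; linarith) hDkc hDkc hcc (fun _ _ => le_rfl) hcomp
    have hfin := (h9 n (XM n b'') (XM n b'') ((XM n b × Cube N) × I) (XM n b × Cube (N + 1))
      (fun a => (fun p : XM n b' × I => (th' p.1, p.2)) (u' a)) (Homeomorph.refl _) k eta).2 D
      hcomp'
    refine ⟨b'', _, hbb'.trans hb'b'', ?_, hfin, ?_⟩
    · exact k.continuous.comp hcc
    · intro x
      have e1 : (k ((fun p : XM n b' × I => (th' p.1, p.2)) (u' x))).1 = (th' (u' x).1).1 := rfl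
      rw [e1]
      have e2 : sM n b b'' x = sM n b b' (sM n b' b'' x) := (s6 b b' b'' x hbb' hb'b'').symm
      rw [e2]
      have e3 := hth'd (u' x).1
      have e4 := hde' (u' x).1 (sM n b' b'' x) ((hu'd x).trans (min_le_right _ _))
      calc dist (th' (u' x).1).1 (sM n b b' (sM n b' b'' x))
          ≤ dist (th' (u' x).1).1 (sM n b b' (u' x).1) +
            dist (sM n b b' (u' x).1) (sM n b b' (sM n b' b'' x)) := dist_triangle _ _ _
        _ ≤ eta / 2 + eta / 2 := add_le_add e3 e4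
        _ = eta := by ring

end M202

end

section

open Set Topology unitInterval

namespace M202

/-- the factor of the deformation -/
noncomputable def X5_la (r t : ℝ) : ℝ := 1 + t * (1 / (2 * r) - 1)

/-- the profile of the deformation -/
noncomputable def X5_h (r t m : ℝ) : ℝ := min (1 / 2) (X5_la r t * |m|)

theorem X5_la_ge (r t : ℝ) (hr : 0 < r) (hr2 : r ≤ 1 / 2) (ht : 0 ≤ t) : 1 ≤ X5_la r t := by
  unfold X5_la
  have h1 : 1 ≤ 1 / (2 * r) := by
    rw [le_div_iff₀ (by linarith)]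
    linarith
  nlinarith

theorem X5_h_nonneg (r t m : ℝ) (hr : 0 < r) (hr2 : r ≤ 1 / 2) (ht : 0 ≤ t) : 0 ≤ X5_h r t m := by
  unfold X5_h
  have h1 := X5_la_ge r t hr hr2 ht
  refine le_min (by norm_num) ?_
  have := abs_nonneg m
  nlinarith

theorem X5_h_half (r t : ℝ) (hr : 0 < r) (hr2 : r ≤ 1 / 2) (ht : 0 ≤ t) :
    X5_h r t (1 / 2) = 1 / 2 := by
  unfold X5_h
  have h1 := X5_la_ge r t hr hr2 ht
  rw [abs_of_nonneg (by norm_num : (0 : ℝ) ≤ 1 / 2)]
  apply min_eq_left
  linarith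

theorem X5_h_mono (r t m m' : ℝ) (hr : 0 < r) (hr2 : r ≤ 1 / 2) (ht : 0 ≤ t) (hm : r ≤ m)
    (hmm : m ≤ m') : X5_h r t m ≤ X5_h r t m' := by
  unfold X5_h
  have h1 := X5_la_ge r t hr hr2 ht
  rw [abs_of_nonneg (by linarith), abs_of_nonneg (by linarith)]
  refine min_le_min (le_refl _) ?_
  nlinarith

theorem X5_h_r (r t : ℝ) (hr : 1 / 6 ≤ r) (hr2 : r ≤ 1 / 2) (ht : 0 ≤ t) :
    1 / 6 ≤ X5_h r t r := by
  unfold X5_h
  have h1 := X5_la_ge r t (by linarith) hr2 ht
  rw [abs_of_nonneg (by linarith)]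
  refine le_min (by norm_num) ?_
  nlinarith

theorem pr_X5 (h1 : S_Radm) (h2 : S_SqzPz) (h3 : S_MbFacts) (h4 : S_SgFacts) (h5 : S_SDR)
    (_h6 : S_Lev) (_h7 : S_Grid) : S_X5 := by
  intro n b hn
  obtain ⟨R1, R2, R3, R4, R5⟩ := h1 n b hn
  obtain ⟨-, ⟨-, -, -, hpzid⟩, -⟩ := h2 n b hn
  obtain ⟨M1, M2, -, -, -, -, M7, M8, -, -, -, -⟩ := h3 n hn
  obtain ⟨-, -, -, -, -, -, G7, G8, -⟩ := h4 n hn
  have hcub : Cubical (3 ^ b) (Mb n b) := (M1 b).1
  have hr6 : ∀ x ∈ Mb n (b + 1), 1 / 6 ≤ rb n b x := by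
    intro x hx
    rw [M2 b] at hx
    exact hx.2
  have hMb : ∀ x ∈ Mb n (b + 1), x ∈ Mb n b := by
    intro x hx
    rw [M2 b] at hx
    exact hx.1
  have hr2 : ∀ x, rb n b x ≤ 1 / 2 := fun x => (M8 b x).2
  let Kc : I × XM n (b + 1) → Cube (2 * n + 1) := fun p =>
    radm n b (X5_h (rb n b p.2) p.1) p.2
  have hbase : ∀ p : I × XM n (b + 1),
      Kc p ∈ faceOf (3 ^ b) (p.2 : Cube (2 * n + 1)) ∧
        rb n b (Kc p) = X5_h (rb n b p.2) p.1 (rb n b p.2) := by
    intro p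
    have hx := hr6 _ p.2.2
    have hx2 := hr2 (p.2 : Cube (2 * n + 1))
    obtain ⟨e1, e2, -⟩ := R1 (X5_h (rb n b p.2) p.1) p.2 (by linarith)
      (fun m => X5_h_nonneg _ _ _ (by linarith) hx2 p.1.2.1)
      (X5_h_half _ _ (by linarith) hx2 p.1.2.1)
      (fun m m' hm hmm _ => X5_h_mono _ _ _ _ (by linarith) hx2 p.1.2.1 hm hmm)
    exact ⟨e1, e2⟩
  have hmem : ∀ p, Kc p ∈ Mb n (b + 1) := by
    intro p
    have hx := hr6 _ p.2.2
    have hx2 := hr2 (p.2 : Cube (2 * n + 1))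
    obtain ⟨e1, e2⟩ := hbase p
    have hp2 : (p.2 : Cube (2 * n + 1)) ∈ Mb n b := hMb _ p.2.2
    rw [M2 b]
    refine ⟨hcub _ hp2 e1, ?_⟩
    show 1 / 6 ≤ rb n b (Kc p)
    rw [e2]
    exact X5_h_r _ _ hx hx2 p.1.2.1
  let K : I × XM n (b + 1) → XM n (b + 1) := fun p => ⟨Kc p, hmem p⟩
  have hKcont : Continuous K := by
    refine Continuous.subtype_mk ?_ _
    rw [← continuousOn_univ]
    refine R4 (I × XM n (b + 1)) univ (fun p => (p.2 : Cube (2 * n + 1)))
      (fun p => X5_h (rb n b p.2) p.1) ?_ ?_ ?_ ?_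
    · exact (continuous_subtype_val.comp continuous_snd).continuousOn
    · intro p _
      have := hr6 _ p.2.2
      linarith
    · apply Continuous.continuousOn
      have c1 : Continuous fun q : (I × XM n (b + 1)) × ℝ =>
          rb n b (q.1.2 : Cube (2 * n + 1)) :=
        (M7 b).comp (continuous_subtype_val.comp (continuous_snd.comp continuous_fst))
      have c2 : Continuous fun q : (I × XM n (b + 1)) × ℝ => ((q.1.1 : I) : ℝ) :=
        continuous_subtype_val.comp (continuous_fst.comp continuous_fst)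
      have c3 : Continuous fun q : (I × XM n (b + 1)) × ℝ =>
          1 / (2 * rb n b (q.1.2 : Cube (2 * n + 1))) := by
        refine continuous_const.div (continuous_const.mul c1) ?_
        intro q
        have := hr6 _ q.1.2.2
        intro e
        linarith
      have c4 : Continuous fun q : (I × XM n (b + 1)) × ℝ =>
          X5_la (rb n b (q.1.2 : Cube (2 * n + 1))) q.1.1 :=
        continuous_const.add (c2.mul (c3.sub continuous_const))
      exact continuous_const.min (c4.mul continuous_snd.abs)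
    · intro p _
      have hx := hr6 _ p.2.2
      exact X5_h_half _ _ (by linarith) (hr2 _) p.1.2.1
  have hK0 : ∀ x, K (0, x) = x := by
    intro x
    apply Subtype.ext
    have hx := hr6 _ x.2
    show radm n b (X5_h (rb n b x) ((0 : I) : ℝ)) x = x
    conv_rhs => rw [← R3 (x : Cube (2 * n + 1)) (by linarith)]
    apply R5
    intro m hm1 hm2
    unfold X5_h X5_la
    rw [abs_of_nonneg (by linarith)]
    simp only [Icc.coe_zero, zero_mul, add_zero, one_mul]
    exact min_eq_right hm2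
  have hK1' : ∀ x, (K (1, x) : Cube (2 * n + 1)) = pz n b x := by
    intro x
    have hx := hr6 _ x.2
    show radm n b (X5_h (rb n b x) ((1 : I) : ℝ)) x = radm n b (fun _ => 1 / 2) x
    apply R5
    intro m hm1 hm2
    unfold X5_h X5_la
    rw [abs_of_nonneg (by linarith)]
    apply min_eq_left
    have h7 : (1 + ((1 : I) : ℝ) * (1 / (2 * rb n b x) - 1)) * m = m / (2 * rb n b x) := by
      simp only [Icc.coe_one]
      ring
    rw [h7, le_div_iff₀ (by linarith)]
    linarith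
  have hK1 : ∀ x, K (1, x) = iZ n b (b + 1) (pZ n b x) := by
    intro x
    apply Subtype.ext
    rw [hK1' x, (G8 b (b + 1) (pZ n b x)).2, (G7 b x).2]
  have hpK : ∀ t x, pZ n b (K (t, x)) = pZ n b x := by
    intro t x
    apply Subtype.ext
    rw [(G7 b _).2, (G7 b _).2]
    have hx := hr6 _ x.2
    have hx2 := hr2 (x : Cube (2 * n + 1))
    have h8 := X5_h_r (rb n b x) t hx hx2 t.2.1
    exact R2 (X5_h (rb n b x) t) (fun _ => 1 / 2) x (by linarith)
      (fun m => X5_h_nonneg _ _ _ (by linarith) hx2 t.2.1)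
      (X5_h_half _ _ (by linarith) hx2 t.2.1)
      (fun m m' hm hmm _ => X5_h_mono _ _ _ _ (by linarith) hx2 t.2.1 hm hmm)
      (fun _ => by norm_num) rfl (by linarith) (fun _ _ _ _ _ => le_refl _)
  have x0 : XM n (b + 1) := ⟨0, zero_mem_Mb n (b + 1)⟩
  refine ⟨?_, K, hKcont, hK0, hK1, hpK, fun t x => (hbase (t, x)).1⟩
  refine h5 n (XM n (b + 1)) (ZM n b) (pZ n b) (iZ n b (b + 1)) K (G7 b x0).1
    (G8 b (b + 1) (pZ n b x0)).1 hKcont hK0 hK1 ?_ hpK
  intro z
  apply Subtype.ext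
  rw [(G7 b _).2, (G8 b (b + 1) z).2]
  exact hpzid _ z.2

end M202

end

section

/-!
MP_202a65_gt, item X6: the inclusion Z_b -> M_b is soft at scale 3^-b (helper69).
-/

open Set Topology unitInterval

namespace M202

theorem pr_X6 (h1 : S_SkelPush) (h2 : S_MbFacts) (h3 : S_SoftOfRel) (h4 : S_SgFacts)
    (h5 : S_DimH) (h6 : S_Grid) : S_X6 := by
  intro n b D eta hn hD hDe
  obtain ⟨hcub, -, -, -, -, -, -, -, -, -, -, -⟩ := h2 n hn
  obtain ⟨-, -, -, -, -, -, -, hiZ, -⟩ := h4 n hn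
  have hiZc : Continuous (iZ n b b) := (hiZ b b ⟨0, zero_mem_Zb n b⟩).1
  have hiZv : ∀ x : ZM n b, (iZ n b b x : Cube (2 * n + 1)) = x := fun x => (hiZ b b x).2
  have hL : 1 ≤ 3 ^ b := Nat.one_le_pow _ _ (by norm_num)
  refine h3 n (ZM n b) (XM n b) D eta (iZ n b b) hD hiZc ?_
  intro m hm eta' heta' be al hbe hal hag
  obtain ⟨K, hKc, hK0, hK1, hKs, hKf⟩ := h1 (2 * n + 1) (3 ^ b) n m (Mb n b) univ
    (fun x => (be x : Cube (2 * n + 1))) hL (hcub b).1 isClosed_univ
    (h5.2.2.2.2 m (n + 1) (by omega) univ) (continuous_subtype_val.comp hbe).continuousOn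
    (fun x _ => (be x).2)
  have hKc' : Continuous K := by
    rw [univ_prod_univ] at hKc
    exact continuousOn_univ.1 hKc
  have hKM : ∀ t x, K (t, x) ∈ Mb n b := fun t x =>
    (hcub b).1 _ (be x).2 (hKf t x (mem_univ x))
  have hKe : ∀ x ∈ bd m, ∀ t, K (t, x) = (be x : Cube (2 * n + 1)) := by
    intro x hx t
    refine hKs t x (mem_univ x) ?_
    have : (be x : Cube (2 * n + 1)) = (al x : Cube (2 * n + 1)) := by
      rw [← hag x hx, hiZv]
    show (be x : Cube (2 * n + 1)) ∈ skel (3 ^ b) n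
    rw [this]
    exact (al x).2.2
  refine ⟨fun x => ⟨K (1, x), hKM 1 x, hK1 x (mem_univ x)⟩, fun p => ⟨K (σ p.1, p.2), hKM _ _⟩,
    ?_, ?_, ?_, ?_, ?_, ?_, ?_⟩
  · exact Continuous.subtype_mk (hKc'.comp (by fun_prop)) _
  · exact Continuous.subtype_mk (hKc'.comp (by fun_prop)) _
  · intro x hx
    apply Subtype.ext
    show K (1, x) = (al x : Cube (2 * n + 1))
    rw [hKe x hx 1, ← hag x hx, hiZv]
  · intro t x hx
    apply Subtype.ext
    exact hKe x hx _
  · intro x
    apply Subtype.ext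
    rw [hiZv]
    show K (σ 0, x) = K (1, x)
    rw [symm_zero]
  · intro x
    apply Subtype.ext
    show K (σ 1, x) = (be x : Cube (2 * n + 1))
    rw [symm_one]
    exact hK0 x (mem_univ x)
  · intro t x
    refine (hDe _ _ ?_).trans heta'.le
    have h := (h6.1 (2 * n + 1) (3 ^ b) (be x : Cube (2 * n + 1)) hL)
    have h' := h.2.2.2 _ (hKf (σ t) x (mem_univ x)) _ h.1
    push_cast at h'
    exact h'

end M202

end

section

/-!
MP_202a65_gt, item Zminus: removing an open n-cell from Z_b.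
-/

open Set Topology unitInterval Filter

namespace M202

theorem Zminus_floor {a b : ℝ} (h1 : (⌊a⌋ : ℝ) ≤ b) (h2 : b ≤ (⌈a⌉ : ℝ))
    (hb : ¬ ∃ k : ℤ, b = k) : ⌊b⌋ = ⌊a⌋ ∧ ⌈a⌉ = ⌊a⌋ + 1 := by
  have h3 : (⌊a⌋ : ℝ) < b := lt_of_le_of_ne h1 (fun h => hb ⟨_, h.symm⟩)
  have h4 : b < (⌈a⌉ : ℝ) := lt_of_le_of_ne h2 (fun h => hb ⟨_, h⟩)
  have h5 : ⌈a⌉ ≤ ⌊a⌋ + 1 := Int.ceil_le_floor_add_one a
  have h6 : (⌈a⌉ : ℝ) ≤ (⌊a⌋ : ℝ) + 1 := by exact_mod_cast h5
  have h8 : ⌊a⌋ < ⌈a⌉ := by exact_mod_cast h3.trans h4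
  refine ⟨?_, by omega⟩
  rw [Int.floor_eq_iff]
  exact ⟨h1, by linarith⟩

/-- The data of the push. -/
structure ZmD (N L n : ℕ) where
  z : Cube N
  z' : Cube N
  i0 : Fin N
  de : ℝ
  hL : 1 ≤ L
  hcard : {i | ¬ IsGrid L (z i)}.ncard = n
  hi0 : IsGrid L (z i0)
  hz' : z ∈ faceOf L z'
  hde : de = 1 ∨ de = -1
  hseg : ∀ t : ℝ, 0 ≤ t → t ≤ 1 → (⌊(L : ℝ) * (z' i0 : ℝ)⌋ : ℝ) ≤ (L : ℝ) * (z i0 : ℝ) + de * t ∧
    (L : ℝ) * (z i0 : ℝ) + de * t ≤ (⌈(L : ℝ) * (z' i0 : ℝ)⌉ : ℝ)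

namespace ZmD

variable {N L n : ℕ} (S : ZmD N L n)

open Classical in
/-- the deviations -/
noncomputable def fv (y : Cube N) (i : Fin N) : ℝ :=
  if IsGrid L (S.z i) then ((L : ℝ) * (y i : ℝ) - (L : ℝ) * (S.z i : ℝ)) / 2
  else (L : ℝ) * (y i : ℝ) - ⌊(L : ℝ) * (S.z i : ℝ)⌋ - 1 / 2

/-- the size of the deviations -/
noncomputable def rho (y : Cube N) : ℝ := ‖S.fv y‖

/-- the height of the push -/
noncomputable def ht (y : Cube N) : ℝ := max 0 (1 / (2 * max (S.rho y) (1 / 4)) - 1)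

open Classical in
/-- the direction of the push -/
noncomputable def vv (y : Cube N) (i : Fin N) : ℝ :=
  if IsGrid L (S.z i) then (if i = S.i0 then S.de else 0)
  else (L : ℝ) * (y i : ℝ) - ⌊(L : ℝ) * (S.z i : ℝ)⌋ - 1 / 2

/-- the moved coordinates, multiplied by `L` -/
noncomputable def lp (s : ℝ) (y : Cube N) (i : Fin N) : ℝ :=
  (L : ℝ) * (y i : ℝ) + s * S.ht y * S.vv y i

/-- the moved point -/
noncomputable def pt (s : ℝ) (y : Cube N) : Cube N :=
  fun i => Set.projIcc (0 : ℝ) 1 zero_le_one (S.lp s y i / L)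

theorem L_pos (S : ZmD N L n) : (0 : ℝ) < L := by exact_mod_cast S.hL

theorem fv_cont : Continuous S.fv := by
  refine continuous_pi fun i => ?_
  unfold fv
  have h : Continuous (fun y : Cube N => ((y i : I) : ℝ)) :=
    continuous_subtype_val.comp (continuous_apply i)
  split_ifs
  · exact ((continuous_const.mul h).sub continuous_const).div_const 2
  · exact ((continuous_const.mul h).sub continuous_const).sub continuous_const

theorem ht_cont : Continuous S.ht := by
  unfold ht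
  refine continuous_const.max (Continuous.sub ?_ continuous_const)
  refine Continuous.div continuous_const
    (continuous_const.mul (S.fv_cont.norm.max continuous_const)) fun y => ?_
  have : (1 / 4 : ℝ) ≤ max (S.rho y) (1 / 4) := le_max_right _ _
  have h2 : (0 : ℝ) < 2 * max (S.rho y) (1 / 4) := by linarith
  exact h2.ne'

theorem pt_cont : Continuous (fun p : ℝ × Cube N => S.pt p.1 p.2) := by
  unfold pt lp
  refine continuous_pi fun i => continuous_projIcc.comp (Continuous.div_const ?_ _)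
  have h : Continuous (fun p : ℝ × Cube N => ((p.2 i : I) : ℝ)) :=
    continuous_subtype_val.comp ((continuous_apply i).comp continuous_snd)
  refine (continuous_const.mul h).add ((continuous_fst.mul
    (S.ht_cont.comp continuous_snd)).mul ?_)
  unfold vv
  split_ifs
  · exact continuous_const
  · exact continuous_const
  · exact ((continuous_const.mul h).sub continuous_const).sub continuous_const

theorem rho_le (y : Cube N) (i : Fin N) : |S.fv y i| ≤ S.rho y := by
  have := norm_le_pi_norm (S.fv y) i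
  rwa [Real.norm_eq_abs] at this

theorem ht_zero {y : Cube N} (h : 1 / 2 ≤ S.rho y) : S.ht y = 0 := by
  unfold ht
  refine max_eq_left ?_
  have h1 : (1 / 2 : ℝ) ≤ max (S.rho y) (1 / 4) := h.trans (le_max_left _ _)
  rw [sub_nonpos, div_le_one (by linarith)]
  linarith

theorem ht_pos {y : Cube N} (h : S.rho y < 1 / 2) :
    0 < S.ht y ∧ (1 + S.ht y) * max (S.rho y) (1 / 4) = 1 / 2 := by
  have h1 : max (S.rho y) (1 / 4) < 1 / 2 := max_lt h (by norm_num)
  have h2 : (0 : ℝ) < max (S.rho y) (1 / 4) := lt_of_lt_of_le (by norm_num) (le_max_right _ _)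
  have h3 : 0 < 1 / (2 * max (S.rho y) (1 / 4)) - 1 := by
    rw [sub_pos, one_lt_div (by linarith)]
    linarith
  have h4 : S.ht y = 1 / (2 * max (S.rho y) (1 / 4)) - 1 := max_eq_right h3.le
  refine ⟨by rw [h4]; exact h3, ?_⟩
  rw [h4]
  field_simp
  ring

theorem ht_le (y : Cube N) : 0 ≤ S.ht y ∧ S.ht y ≤ 1 := by
  refine ⟨le_max_left _ _, ?_⟩
  unfold ht
  refine max_le zero_le_one ?_
  have h2 : (1 / 4 : ℝ) ≤ max (S.rho y) (1 / 4) := le_max_right _ _
  have h3 : 1 / (2 * max (S.rho y) (1 / 4)) ≤ 2 := by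
    rw [div_le_iff₀ (by linarith)]
    linarith
  linarith

/-- Points of the open cell. -/
theorem cell {y : Cube N} (hy : y ∈ (skel L n : Set (Cube N))) (h : S.rho y < 1 / 2) :
    (∀ i, IsGrid L (S.z i) → (L : ℝ) * (y i : ℝ) = (L : ℝ) * (S.z i : ℝ)) ∧
    ∀ i, ¬ IsGrid L (S.z i) →
      |(L : ℝ) * (y i : ℝ) - ⌊(L : ℝ) * (S.z i : ℝ)⌋ - 1 / 2| < 1 / 2 := by
  have hJ : ∀ i, ¬ IsGrid L (S.z i) →
      |(L : ℝ) * (y i : ℝ) - ⌊(L : ℝ) * (S.z i : ℝ)⌋ - 1 / 2| < 1 / 2 := by
    intro i hi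
    have h1 := S.rho_le y i
    unfold fv at h1
    rw [if_neg hi] at h1
    linarith
  have hsub : {i | ¬ IsGrid L (S.z i)} ⊆ {i | ¬ IsGrid L (y i)} := by
    intro i hi
    have h2 := hJ i hi
    rintro ⟨k, hk⟩
    rw [hk, abs_lt] at h2
    have h3 : (⌊(L : ℝ) * (S.z i : ℝ)⌋ : ℝ) < k := by linarith [h2.1]
    have h4 : (k : ℝ) < ⌊(L : ℝ) * (S.z i : ℝ)⌋ + 1 := by linarith [h2.2]
    have h5 : ⌊(L : ℝ) * (S.z i : ℝ)⌋ < k := by exact_mod_cast h3
    have h6 : k < ⌊(L : ℝ) * (S.z i : ℝ)⌋ + 1 := by exact_mod_cast h4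
    omega
  have heq : {i | ¬ IsGrid L (S.z i)} = {i | ¬ IsGrid L (y i)} := by
    refine Set.eq_of_subset_of_ncard_le hsub ?_ (Set.toFinite _)
    rw [S.hcard]
    exact hy
  refine ⟨fun i hi => ?_, hJ⟩
  have h7 : IsGrid L (y i) := by
    by_contra hcon
    have : i ∈ {i | ¬ IsGrid L (S.z i)} := by
      rw [heq]
      exact hcon
    exact this hi
  have h8 := S.rho_le y i
  unfold fv at h8
  rw [if_pos hi] at h8
  obtain ⟨k, hk⟩ := h7
  obtain ⟨k', hk'⟩ := hi
  rw [hk, hk'] at h8 ⊢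
  have h9 : |(k : ℝ) - k'| < 1 := by
    rw [abs_div, abs_two] at h8
    linarith
  have h10 : |k - k'| < 1 := by exact_mod_cast h9
  have h11 : k = k' := by
    rw [Int.abs_lt_one_iff] at h10
    omega
  rw [h11]

/-- The moved point lies in the big face. -/
theorem lp_mem {y : Cube N} (hy : y ∈ (skel L n : Set (Cube N))) (h : S.rho y < 1 / 2) {s : ℝ}
    (hs0 : 0 ≤ s) (hs1 : s ≤ 1) (i : Fin N) :
    (⌊(L : ℝ) * (S.z' i : ℝ)⌋ : ℝ) ≤ S.lp s y i ∧
      S.lp s y i ≤ (⌈(L : ℝ) * (S.z' i : ℝ)⌉ : ℝ) := by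
  obtain ⟨hg, hJ⟩ := S.cell hy h
  obtain ⟨h1, h2⟩ := S.ht_pos h
  have h3 := S.ht_le y
  by_cases hi : IsGrid L (S.z i)
  · by_cases hi0 : i = S.i0
    · subst hi0
      unfold lp vv
      rw [if_pos hi, if_pos rfl, hg _ hi]
      have := S.hseg (s * S.ht y) (by positivity) (by nlinarith)
      rw [mul_comm (S.de)] at this
      exact this
    · unfold lp vv
      rw [if_pos hi, if_neg hi0, hg _ hi, mul_zero, add_zero]
      exact S.hz' i
  · obtain ⟨e1, e2⟩ := Zminus_floor (S.hz' i).1 (S.hz' i).2 (fun ⟨k, hk⟩ => hi ⟨k, hk⟩)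
    unfold lp vv
    rw [if_neg hi, ← e1] at *
    rw [e2, ← e1]
    push_cast
    obtain ⟨d, hd⟩ : ∃ d, d = (L : ℝ) * (y i : ℝ) - ⌊(L : ℝ) * (S.z i : ℝ)⌋ - 1 / 2 := ⟨_, rfl⟩
    have h4 : |d| ≤ max (S.rho y) (1 / 4) := by
      have h5 := S.rho_le y i
      unfold fv at h5
      rw [if_neg hi, ← hd] at h5
      exact h5.trans (le_max_left _ _)
    have h6 : |d * (1 + s * S.ht y)| ≤ 1 / 2 := by
      rw [abs_mul, abs_of_nonneg (by positivity : 0 ≤ 1 + s * S.ht y)]
      have h7 : 1 + s * S.ht y ≤ 1 + S.ht y := by nlinarith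
      calc |d| * (1 + s * S.ht y) ≤ max (S.rho y) (1 / 4) * (1 + S.ht y) :=
            mul_le_mul h4 h7 (by positivity) (le_trans (abs_nonneg _) h4)
        _ = 1 / 2 := by rw [mul_comm]; exact h2
    rw [abs_le] at h6
    rw [← hd]
    have h8 : (L : ℝ) * (y i : ℝ) = ⌊(L : ℝ) * (S.z i : ℝ)⌋ + 1 / 2 + d := by rw [hd]; ring
    rw [h8]
    constructor
    · nlinarith [h6.1]
    · nlinarith [h6.2]

theorem pt_val {y : Cube N} (hy : y ∈ (skel L n : Set (Cube N))) {s : ℝ}
    (hs0 : 0 ≤ s) (hs1 : s ≤ 1) (i : Fin N) : (L : ℝ) * ((S.pt s y i : I) : ℝ) = S.lp s y i := by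
  have hL := S.L_pos
  have key : 0 ≤ S.lp s y i ∧ S.lp s y i ≤ L := by
    rcases lt_or_ge (S.rho y) (1 / 2) with h | h
    · obtain ⟨h1, h2⟩ := S.lp_mem hy h hs0 hs1 i
      have h3 : 0 ≤ ⌊(L : ℝ) * (S.z' i : ℝ)⌋ :=
        Int.floor_nonneg.2 (mul_nonneg hL.le (S.z' i).2.1)
      have h4 : ⌈(L : ℝ) * (S.z' i : ℝ)⌉ ≤ (L : ℤ) := by
        rw [Int.ceil_le]
        push_cast
        have := (S.z' i).2.2
        nlinarith
      have h5 : (0 : ℝ) ≤ (⌊(L : ℝ) * (S.z' i : ℝ)⌋ : ℝ) := by exact_mod_cast h3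
      have h6 : (⌈(L : ℝ) * (S.z' i : ℝ)⌉ : ℝ) ≤ (L : ℝ) := by exact_mod_cast h4
      exact ⟨h5.trans h1, h2.trans h6⟩
    · unfold lp
      rw [S.ht_zero h, mul_zero, zero_mul, add_zero]
      have h7 := (y i).2.1
      have h8 := (y i).2.2
      exact ⟨by positivity, by nlinarith⟩
  unfold pt
  rw [Set.projIcc_of_mem zero_le_one
    ⟨div_nonneg key.1 hL.le, (div_le_one hL).2 key.2⟩]
  field_simp

theorem pt_fix {y : Cube N} (hy : y ∈ (skel L n : Set (Cube N))) (h : 1 / 2 ≤ S.rho y) {s : ℝ}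
    (hs0 : 0 ≤ s) (hs1 : s ≤ 1) : S.pt s y = y := by
  funext i
  refine Subtype.ext ?_
  have h1 := S.pt_val hy hs0 hs1 i
  unfold lp at h1
  rw [S.ht_zero h, mul_zero, zero_mul, add_zero] at h1
  exact mul_left_cancel₀ S.L_pos.ne' h1

theorem pt_zero {y : Cube N} (hy : y ∈ (skel L n : Set (Cube N))) : S.pt 0 y = y := by
  funext i
  refine Subtype.ext ?_
  have h1 := S.pt_val hy le_rfl zero_le_one i
  unfold lp at h1
  rw [zero_mul, zero_mul, add_zero] at h1
  exact mul_left_cancel₀ S.L_pos.ne' h1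

theorem pt_mem {y : Cube N} (hy : y ∈ (skel L n : Set (Cube N))) (h : S.rho y < 1 / 2) {s : ℝ}
    (hs0 : 0 ≤ s) (hs1 : s ≤ 1) : S.pt s y ∈ faceOf L S.z' := by
  intro i
  rw [S.pt_val hy hs0 hs1 i]
  exact S.lp_mem hy h hs0 hs1 i

theorem vv_le {y : Cube N} (hy : y ∈ (skel L n : Set (Cube N))) (h : S.rho y < 1 / 2)
    (i : Fin N) : |S.vv y i| ≤ 1 := by
  unfold vv
  split_ifs with h1 h2
  · rcases S.hde with h3 | h3 <;> rw [h3] <;> norm_num
  · simp
  · have := (S.cell hy h).2 i h1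
    linarith

theorem pt_dist {y : Cube N} (hy : y ∈ (skel L n : Set (Cube N))) {s : ℝ}
    (hs0 : 0 ≤ s) (hs1 : s ≤ 1) : dist (S.pt s y) y ≤ 1 / L := by
  have hL := S.L_pos
  rcases lt_or_ge (S.rho y) (1 / 2) with h | h
  · refine (dist_pi_le_iff (by positivity)).2 fun i => ?_
    rw [Subtype.dist_eq, Real.dist_eq]
    have h1 := S.pt_val hy hs0 hs1 i
    unfold lp at h1
    have h2 : (L : ℝ) * (((S.pt s y i : I) : ℝ) - ((y i : I) : ℝ)) = s * S.ht y * S.vv y i := by
      rw [mul_sub, h1]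
      ring
    rw [le_div_iff₀ hL]
    have h3 : |(L : ℝ) * (((S.pt s y i : I) : ℝ) - ((y i : I) : ℝ))| ≤ 1 := by
      rw [h2, abs_mul, abs_of_nonneg (mul_nonneg hs0 (S.ht_le y).1)]
      have h4 := S.vv_le hy h i
      have h5 := S.ht_le y
      have h6 : s * S.ht y ≤ 1 := by nlinarith
      have h7 : 0 ≤ s * S.ht y := mul_nonneg hs0 h5.1
      have h8 := abs_nonneg (S.vv y i)
      nlinarith
    rw [abs_mul, abs_of_pos hL] at h3
    linarith
  · rw [S.pt_fix hy h hs0 hs1, dist_self]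
    positivity

/-- Points whose cell is the given one. -/
theorem face_eq {y : Cube N} (hy : y ∈ (skel L n : Set (Cube N))) (h : S.rho y < 1 / 2) :
    faceOf L y = faceOf L S.z := by
  obtain ⟨hg, hJ⟩ := S.cell hy h
  have key : ∀ i, ⌊(L : ℝ) * (y i : ℝ)⌋ = ⌊(L : ℝ) * (S.z i : ℝ)⌋ ∧
      ⌈(L : ℝ) * (y i : ℝ)⌉ = ⌈(L : ℝ) * (S.z i : ℝ)⌉ := by
    intro i
    by_cases hi : IsGrid L (S.z i)
    · rw [hg i hi]
      exact ⟨rfl, rfl⟩
    · have h1 := abs_lt.1 (hJ i hi)
      have h2 : ⌊(L : ℝ) * (y i : ℝ)⌋ = ⌊(L : ℝ) * (S.z i : ℝ)⌋ := by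
        rw [Int.floor_eq_iff]
        constructor <;> linarith [h1.1, h1.2]
      have h3 : ⌈(L : ℝ) * (y i : ℝ)⌉ = ⌊(L : ℝ) * (S.z i : ℝ)⌋ + 1 := by
        rw [Int.ceil_eq_iff]
        push_cast
        constructor <;> linarith [h1.1, h1.2]
      have h4 := Zminus_floor (Int.floor_le ((L : ℝ) * (S.z i : ℝ))) (Int.le_ceil _)
        (fun ⟨k, hk⟩ => hi ⟨k, hk⟩)
      exact ⟨h2, by rw [h3, h4.2]⟩
  ext w
  constructor
  · intro hw i
    rw [← (key i).1, ← (key i).2]
    exact hw i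
  · intro hw i
    rw [(key i).1, (key i).2]
    exact hw i

theorem rho_ge {y : Cube N} (hy : y ∈ (skel L n : Set (Cube N)))
    (h : faceOf L y ≠ faceOf L S.z) : 1 / 2 ≤ S.rho y := by
  by_contra hcon
  exact h (S.face_eq hy (not_le.1 hcon))

/-- The end of the push. -/
theorem pt_end {y : Cube N} (hy : y ∈ (skel L n : Set (Cube N))) (h : S.rho y < 1 / 2) :
    S.pt 1 y ∈ (skel L n : Set (Cube N)) ∧ faceOf L (S.pt 1 y) ≠ faceOf L S.z := by
  obtain ⟨hg, hJ⟩ := S.cell hy h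
  obtain ⟨h1, h2⟩ := S.ht_pos h
  have hv : ∀ i, (L : ℝ) * ((S.pt 1 y i : I) : ℝ) = S.lp 1 y i :=
    fun i => S.pt_val hy zero_le_one le_rfl i
  constructor
  · show {i | ¬ IsGrid L (S.pt 1 y i)}.ncard ≤ n
    have hout : ∀ i, IsGrid L (S.z i) → i ≠ S.i0 → IsGrid L (S.pt 1 y i) := by
      intro i hi hi0
      obtain ⟨k, hk⟩ := hi
      refine ⟨k, ?_⟩
      rw [hv i]
      unfold lp vv
      rw [if_pos ⟨k, hk⟩, if_neg hi0, mul_zero, add_zero, hg i ⟨k, hk⟩, hk]
    rcases le_or_gt (S.rho y) (1 / 4) with h3 | h3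
    · have h4 : S.ht y = 1 := by
        rw [max_eq_right h3] at h2
        linarith
      have hi0 : IsGrid L (S.pt 1 y S.i0) := by
        obtain ⟨k, hk⟩ := S.hi0
        have h5 : S.lp 1 y S.i0 = k + S.de := by
          unfold lp vv
          rw [if_pos S.hi0, if_pos rfl, h4, hg _ S.hi0, hk]
          ring
        rcases S.hde with h6 | h6
        · exact ⟨k + 1, by rw [hv, h5, h6]; push_cast; ring⟩
        · exact ⟨k - 1, by rw [hv, h5, h6]; push_cast; ring⟩
      have hsub : {i | ¬ IsGrid L (S.pt 1 y i)} ⊆ {i | ¬ IsGrid L (S.z i)} := by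
        intro i hi hcon
        by_cases hii : i = S.i0
        · rw [hii] at hi
          exact hi hi0
        · exact hi (hout i hcon hii)
      exact (Set.ncard_le_ncard hsub (Set.toFinite _)).trans S.hcard.le
    · -- a coordinate with maximal deviation
      obtain ⟨i1, hi1⟩ : ∃ i, S.rho y ≤ |S.fv y i| := by
        by_contra hcon
        push Not at hcon
        have : ‖S.fv y‖ < S.rho y := (pi_norm_lt_iff (by linarith)).2 fun i => by
          rw [Real.norm_eq_abs]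
          exact hcon i
        exact lt_irrefl _ this
      have hi1J : ¬ IsGrid L (S.z i1) := by
        intro hcon
        unfold fv at hi1
        rw [if_pos hcon, hg i1 hcon, sub_self, zero_div, abs_zero] at hi1
        linarith
      have hi1g : IsGrid L (S.pt 1 y i1) := by
        obtain ⟨d, hd⟩ : ∃ d, d = (L : ℝ) * (y i1 : ℝ) - ⌊(L : ℝ) * (S.z i1 : ℝ)⌋ - 1 / 2 :=
          ⟨_, rfl⟩
        have h5 : |d| = S.rho y := by
          have h6 := S.rho_le y i1
          unfold fv at h6 hi1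
          rw [if_neg hi1J, ← hd] at h6 hi1
          exact le_antisymm h6 hi1
        have h7 : S.lp 1 y i1 = ⌊(L : ℝ) * (S.z i1 : ℝ)⌋ + 1 / 2 + d * (1 + S.ht y) := by
          unfold lp vv
          rw [if_neg hi1J, ← hd, hd]
          ring
        rw [max_eq_left h3.le, ← h5] at h2
        rcases abs_cases d with ⟨h8, _⟩ | ⟨h8, _⟩
        · rw [h8] at h2
          exact ⟨⌊(L : ℝ) * (S.z i1 : ℝ)⌋ + 1, by rw [hv, h7]; push_cast; linarith⟩
        · rw [h8] at h2
          exact ⟨⌊(L : ℝ) * (S.z i1 : ℝ)⌋, by rw [hv, h7]; linarith⟩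
      have hsub : {i | ¬ IsGrid L (S.pt 1 y i)} ⊆
          insert S.i0 ({i | ¬ IsGrid L (S.z i)} \ {i1}) := by
        intro i hi
        by_cases hii : i = S.i0
        · exact Or.inl hii
        · right
          refine ⟨fun hcon => hi (hout i hcon hii), fun hcon => ?_⟩
          have : i = i1 := hcon
          rw [this] at hi
          exact hi hi1g
      refine (Set.ncard_le_ncard hsub (Set.toFinite _)).trans ?_
      refine (Set.ncard_insert_le _ _).trans ?_
      have h9 : ({i | ¬ IsGrid L (S.z i)} \ {i1}).ncard + 1 = {i | ¬ IsGrid L (S.z i)}.ncard :=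
        Set.ncard_sdiff_singleton_add_one hi1J (Set.toFinite _)
      rw [h9, S.hcard]
  · intro hcon
    have h5 : S.pt 1 y ∈ faceOf L S.z := by
      rw [← hcon]
      intro i
      exact ⟨Int.floor_le _, Int.le_ceil _⟩
    have h6 := h5 S.i0
    rw [hv S.i0] at h6
    obtain ⟨k, hk⟩ := S.hi0
    have h7 : S.lp 1 y S.i0 = k + S.ht y * S.de := by
      unfold lp vv
      rw [if_pos S.hi0, if_pos rfl, hg _ S.hi0, hk]
      ring
    rw [h7, hk, Int.floor_intCast, Int.ceil_intCast] at h6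
    rcases S.hde with h8 | h8 <;> rw [h8] at h6 <;> linarith [h6.1, h6.2]

end ZmD

/-- The data exist. -/
theorem Zminus_data {N L n : ℕ} (hL : 1 ≤ L) (hn : n < N) (z z' : Cube N)
    (hcard : {i | ¬ IsGrid L (z i)}.ncard = n) (hz' : z ∈ faceOf L z')
    (hz'' : ∀ i, ¬ IsGrid L (z' i)) : ∃ S : ZmD N L n, S.z = z ∧ S.z' = z' := by
  obtain ⟨i0, hi0⟩ : ∃ i, IsGrid L (z i) := by
    by_contra hcon
    push Not at hcon
    have : {i | ¬ IsGrid L (z i)} = univ := by
      ext i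
      simp [hcon i]
    rw [this, Set.ncard_univ, Nat.card_eq_fintype_card, Fintype.card_fin] at hcard
    omega
  have e2 : ⌈(L : ℝ) * (z' i0 : ℝ)⌉ = ⌊(L : ℝ) * (z' i0 : ℝ)⌋ + 1 :=
    (Zminus_floor (Int.floor_le _) (Int.le_ceil _) (fun ⟨k, hk⟩ => hz'' i0 ⟨k, hk⟩)).2
  obtain ⟨k, hk⟩ := id hi0
  have h1 := (hz' i0).1
  have h2 := (hz' i0).2
  rw [hk] at h1 h2
  rw [e2] at h2
  have h3 : ⌊(L : ℝ) * (z' i0 : ℝ)⌋ ≤ k := by exact_mod_cast h1
  have h4 : k ≤ ⌊(L : ℝ) * (z' i0 : ℝ)⌋ + 1 := by exact_mod_cast h2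
  rcases lt_or_ge ⌊(L : ℝ) * (z' i0 : ℝ)⌋ k with h5 | h5
  · have h6 : k = ⌊(L : ℝ) * (z' i0 : ℝ)⌋ + 1 := by omega
    refine ⟨⟨z, z', i0, -1, hL, hcard, hi0, hz', Or.inr rfl, fun t ht0 ht1 => ?_⟩, rfl, rfl⟩
    rw [e2, hk, h6]
    push_cast
    constructor <;> linarith
  · have h6 : k = ⌊(L : ℝ) * (z' i0 : ℝ)⌋ := by omega
    refine ⟨⟨z, z', i0, 1, hL, hcard, hi0, hz', Or.inl rfl, fun t ht0 ht1 => ?_⟩, rfl, rfl⟩
    rw [e2, hk, h6]
    push_cast
    constructor <;> linarith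

theorem pr_Zminus (h1 : S_SkelPush) (h2 : S_MbFacts) (h3 : S_SoftOfRel) (_h4 : S_SgFacts)
    (h5 : S_DimH) (h6 : S_Grid) : S_Zminus := by
  intro n b z D eta hn hD hDe hz hzc
  obtain ⟨hcub, -, -, -, -, -, -, -, hbig, -, -, -⟩ := h2 n hn
  have hL : 1 ≤ 3 ^ b := Nat.one_le_pow _ _ (by norm_num)
  obtain ⟨z', hz'1, hz'2, hz'3⟩ := hbig b z hz
  obtain ⟨S, hS1, hS2⟩ := Zminus_data hL (by omega : n < 2 * n + 1) z z' hzc hz'2 hz'1
  have htoM : ∀ y : Cube (2 * n + 1), y ∈ Mb n b → (toM n b y : Cube (2 * n + 1)) = y := by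
    intro y hy
    unfold toM
    rw [dif_pos hy]
  have hthc : Continuous (fun x : {x : Cube (2 * n + 1) // x ∈ Zb n b ∧
      faceOf (3 ^ b) x ≠ faceOf (3 ^ b) z} => toM n b x.1) := by
    rw [Topology.IsInducing.subtypeVal.continuous_iff]
    refine continuous_subtype_val.congr fun x => ?_
    exact (htoM _ x.2.1.1).symm
  refine h3 n _ (XM n b) D eta _ hD hthc ?_
  intro m hm eta' heta' be al hbe hal hag
  obtain ⟨K, hKc, hK0, hK1, hKs, hKf⟩ := h1 (2 * n + 1) (3 ^ b) n m (Mb n b) univ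
    (fun x => (be x : Cube (2 * n + 1))) hL (hcub b).1 isClosed_univ
    (h5.2.2.2.2 m (n + 1) (by omega) univ) (continuous_subtype_val.comp hbe).continuousOn
    (fun x _ => (be x).2)
  have hKc' : Continuous K := by
    rw [univ_prod_univ] at hKc
    exact continuousOn_univ.1 hKc
  have hKM : ∀ t x, K (t, x) ∈ Mb n b := fun t x =>
    (hcub b).1 _ (be x).2 (hKf t x (mem_univ x))
  have hK1s : ∀ x, K (1, x) ∈ (skel (3 ^ b) n : Set (Cube (2 * n + 1))) :=
    fun x => hK1 x (mem_univ x)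
  have hbeal : ∀ x ∈ bd m, (be x : Cube (2 * n + 1)) = (al x).1 := by
    intro x hx
    rw [← hag x hx]
    exact htoM _ (al x).2.1.1
  have hKe : ∀ x ∈ bd m, ∀ t, K (t, x) = (be x : Cube (2 * n + 1)) := by
    intro x hx t
    refine hKs t x (mem_univ x) ?_
    show (be x : Cube (2 * n + 1)) ∈ skel (3 ^ b) n
    rw [hbeal x hx]
    exact (al x).2.1.2
  have hptM : ∀ (s : ℝ) (y : Cube (2 * n + 1)), 0 ≤ s → s ≤ 1 → y ∈ Mb n b →
      y ∈ (skel (3 ^ b) n : Set (Cube (2 * n + 1))) → S.pt s y ∈ Mb n b := by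
    intro s y hs0 hs1 hy hys
    rcases lt_or_ge (S.rho y) (1 / 2) with h | h
    · have := S.pt_mem hys h hs0 hs1
      rw [hS2] at this
      exact hz'3 this
    · rw [S.pt_fix hys h hs0 hs1]
      exact hy
  have hend : ∀ y : Cube (2 * n + 1), y ∈ Mb n b →
      y ∈ (skel (3 ^ b) n : Set (Cube (2 * n + 1))) →
      S.pt 1 y ∈ Zb n b ∧ faceOf (3 ^ b) (S.pt 1 y) ≠ faceOf (3 ^ b) z := by
    intro y hy hys
    rcases lt_or_ge (S.rho y) (1 / 2) with h | h
    · have := S.pt_end hys h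
      rw [hS1] at this
      exact ⟨⟨hptM 1 y zero_le_one le_rfl hy hys, this.1⟩, this.2⟩
    · rw [S.pt_fix hys h zero_le_one le_rfl]
      refine ⟨⟨hy, hys⟩, fun hcon => ?_⟩
      -- a point of the open cell has small rho
      rw [← hS1] at hcon
      have hz1 : S.rho y < 1 / 2 := by
        have hyz : y ∈ faceOf (3 ^ b) S.z := by
          rw [← hcon]
          exact fun i => ⟨Int.floor_le _, Int.le_ceil _⟩
        have hzy : S.z ∈ faceOf (3 ^ b) y := by
          rw [hcon]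
          exact fun i => ⟨Int.floor_le _, Int.le_ceil _⟩
        refine (pi_norm_lt_iff (by norm_num)).2 fun i => ?_
        rw [Real.norm_eq_abs]
        unfold ZmD.fv
        split_ifs with hi
        · obtain ⟨k, hk⟩ := hi
          have h7 := hyz i
          rw [hk, Int.floor_intCast, Int.ceil_intCast] at h7
          have h8 : (((3 ^ b : ℕ) : ℝ)) * (y i : ℝ) = k := le_antisymm h7.2 h7.1
          rw [h8, hk]
          norm_num
        · have h7 := hyz i
          have h8 := hzy i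
          have h9 := Zminus_floor (Int.floor_le (((3 ^ b : ℕ) : ℝ) * (S.z i : ℝ))) (Int.le_ceil _)
            (fun ⟨k, hk⟩ => hi ⟨k, hk⟩)
          rw [h9.2] at h7
          push_cast at h7
          have h10 : ¬ ∃ k : ℤ, ((3 ^ b : ℕ) : ℝ) * (y i : ℝ) = k := by
            rintro ⟨k, hk⟩
            rw [hk, Int.floor_intCast, Int.ceil_intCast] at h8
            exact hi ⟨k, le_antisymm h8.2 h8.1⟩
          have h11 : (⌊((3 ^ b : ℕ) : ℝ) * (S.z i : ℝ)⌋ : ℝ) < ((3 ^ b : ℕ) : ℝ) * (y i : ℝ) := by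
            refine lt_of_le_of_ne ?_ fun hh => h10 ⟨_, hh.symm⟩
            push_cast
            exact h7.1
          have h12 : ((3 ^ b : ℕ) : ℝ) * (y i : ℝ) <
              (⌊((3 ^ b : ℕ) : ℝ) * (S.z i : ℝ)⌋ : ℝ) + 1 := by
            refine lt_of_le_of_ne ?_ fun hh =>
              h10 ⟨⌊((3 ^ b : ℕ) : ℝ) * (S.z i : ℝ)⌋ + 1, by rw [hh]; push_cast; ring⟩
            push_cast
            exact h7.2
          rw [abs_lt]
          constructor <;> linarith
      linarith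
  -- the two halves of the homotopy
  obtain ⟨g1, hg1⟩ : ∃ g1 : I × Cube m → Cube (2 * n + 1), g1 = fun p =>
      S.pt (max 0 (1 - 2 * (p.1 : ℝ))) (K (1, p.2)) := ⟨_, rfl⟩
  obtain ⟨g2, hg2⟩ : ∃ g2 : I × Cube m → Cube (2 * n + 1), g2 = fun p =>
      K (Set.projIcc (0 : ℝ) 1 zero_le_one (2 - 2 * (p.1 : ℝ)), p.2) := ⟨_, rfl⟩
  have hg1c : Continuous g1 := by
    rw [hg1]
    refine S.pt_cont.comp (Continuous.prodMk ?_ ?_)
    · exact continuous_const.max (continuous_const.sub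
        (continuous_const.mul (continuous_subtype_val.comp continuous_fst)))
    · exact hKc'.comp (continuous_const.prodMk continuous_snd)
  have hg2c : Continuous g2 := by
    rw [hg2]
    refine hKc'.comp (Continuous.prodMk (continuous_projIcc.comp ?_) continuous_snd)
    exact continuous_const.sub
      (continuous_const.mul (continuous_subtype_val.comp continuous_fst))
  have hms : ∀ t : I, 0 ≤ max 0 (1 - 2 * (t : ℝ)) ∧ max 0 (1 - 2 * (t : ℝ)) ≤ 1 := by
    intro t
    exact ⟨le_max_left _ _, max_le zero_le_one (by linarith [t.2.1])⟩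
  obtain ⟨G, hG⟩ : ∃ G : I × Cube m → Cube (2 * n + 1), G = fun p =>
      if (p.1 : ℝ) ≤ 1 / 2 then g1 p else g2 p := ⟨_, rfl⟩
  have hGc : Continuous G := by
    rw [hG]
    refine Continuous.if_le hg1c hg2c (continuous_subtype_val.comp continuous_fst)
      continuous_const fun p hp => ?_
    rw [hg1, hg2]
    dsimp only
    have e1 : max 0 (1 - 2 * ((p.1 : I) : ℝ)) = 0 := by
      rw [hp]
      norm_num
    have e2 : Set.projIcc (0 : ℝ) 1 zero_le_one (2 - 2 * ((p.1 : I) : ℝ)) = 1 := by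
      rw [hp]
      refine Set.projIcc_of_right_le zero_le_one (by norm_num)
    rw [e1, e2, S.pt_zero (hK1s p.2)]
  have hGM : ∀ p, G p ∈ Mb n b := by
    intro p
    rw [hG]
    dsimp only
    split_ifs
    · rw [hg1]
      exact hptM _ _ (hms p.1).1 (hms p.1).2 (hKM _ _) (hK1s _)
    · rw [hg2]
      exact hKM _ _
  have hGd : ∀ p : I × Cube m, dist (G p) (be p.2 : Cube (2 * n + 1)) ≤ 2 / 3 ^ b := by
    intro p
    have hface : ∀ t, dist (K (t, p.2)) (be p.2 : Cube (2 * n + 1)) ≤ 1 / 3 ^ b := by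
      intro t
      have h := (h6.1 (2 * n + 1) (3 ^ b) (be p.2 : Cube (2 * n + 1)) hL)
      have h' := h.2.2.2 _ (hKf t p.2 (mem_univ p.2)) _ h.1
      push_cast at h'
      exact h'
    have h2 : (2 : ℝ) / 3 ^ b = 1 / 3 ^ b + 1 / 3 ^ b := by ring
    have h3 : (0 : ℝ) ≤ 1 / 3 ^ b := by positivity
    rw [hG]
    dsimp only
    split_ifs
    · rw [hg1]
      dsimp only
      have h4 := S.pt_dist (hK1s p.2) (hms p.1).1 (hms p.1).2
      push_cast at h4
      refine (dist_triangle _ (K (1, p.2)) _).trans ?_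
      rw [h2]
      exact add_le_add h4 (hface 1)
    · rw [hg2, h2]
      exact (hface _).trans (by linarith)
  have hGb : ∀ t, ∀ x ∈ bd m, G (t, x) = (be x : Cube (2 * n + 1)) := by
    intro t x hx
    have hxs : (be x : Cube (2 * n + 1)) ∈ (skel (3 ^ b) n : Set (Cube (2 * n + 1))) := by
      rw [hbeal x hx]
      exact (al x).2.1.2
    have hxr : 1 / 2 ≤ S.rho (be x : Cube (2 * n + 1)) := by
      refine S.rho_ge hxs ?_
      rw [hbeal x hx, hS1]
      exact (al x).2.2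
    rw [hG]
    dsimp only
    split_ifs
    · rw [hg1]
      dsimp only
      rw [hKe x hx 1]
      exact S.pt_fix hxs hxr (hms t).1 (hms t).2
    · rw [hg2]
      exact hKe x hx _
  refine ⟨fun x => ⟨S.pt 1 (K (1, x)), hend _ (hKM _ _) (hK1s x)⟩, fun p => ⟨G p, hGM p⟩,
    ?_, ?_, ?_, ?_, ?_, ?_, ?_⟩
  · refine Continuous.subtype_mk ?_ _
    exact S.pt_cont.comp (continuous_const.prodMk (hKc'.comp (continuous_const.prodMk
      continuous_id)))
  · exact Continuous.subtype_mk hGc _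
  · intro x hx
    apply Subtype.ext
    show S.pt 1 (K (1, x)) = (al x).1
    have hxs : (be x : Cube (2 * n + 1)) ∈ (skel (3 ^ b) n : Set (Cube (2 * n + 1))) := by
      rw [hbeal x hx]
      exact (al x).2.1.2
    have hxr : 1 / 2 ≤ S.rho (be x : Cube (2 * n + 1)) := by
      refine S.rho_ge hxs ?_
      rw [hbeal x hx, hS1]
      exact (al x).2.2
    rw [hKe x hx 1, S.pt_fix hxs hxr zero_le_one le_rfl, hbeal x hx]
  · intro t x hx
    apply Subtype.ext
    exact hGb t x hx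
  · intro x
    apply Subtype.ext
    have h7 := (hend (K (1, x)) (hKM _ _) (hK1s x)).1.1
    rw [htoM _ h7]
    show G (0, x) = S.pt 1 (K (1, x))
    rw [hG]
    dsimp only
    rw [if_pos (by show ((0 : I) : ℝ) ≤ 1 / 2; norm_num), hg1]
    dsimp only
    have e1 : max 0 (1 - 2 * ((0 : I) : ℝ)) = 1 := by
      show max 0 (1 - 2 * (0 : ℝ)) = 1
      norm_num
    rw [e1]
  · intro x
    apply Subtype.ext
    show G (1, x) = (be x : Cube (2 * n + 1))
    rw [hG]
    dsimp only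
    rw [if_neg (by show ¬ ((1 : I) : ℝ) ≤ 1 / 2; norm_num), hg2]
    dsimp only
    have e2 : Set.projIcc (0 : ℝ) 1 zero_le_one (2 - 2 * ((1 : I) : ℝ)) = 0 := by
      refine Set.projIcc_of_le_left zero_le_one ?_
      show 2 - 2 * (1 : ℝ) ≤ 0
      norm_num
    rw [e2]
    exact hK0 x (mem_univ x)
  · intro t x
    exact (hDe _ _ (hGd (t, x))).trans heta'.le

end M202

end

section

/-!
MP_202a65_gt (captain helper47), item AdjSplit (helper43).
-/

open Set Topology unitInterval Filter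

namespace M202

theorem pr_AdjSplit (_h1 : S_AdjEx) (_h2 : S_AdjDesc) : S_AdjSplit := by
  intro N C T1 Z _ _ _ _ _ _ _ _ _ A1 ph i j hZ
  have hA1 : IsClosed A1 := by
    have h := hZ.closed.preimage
      (f := fun t : T1 => ((Fin.last N, t) : Fin (N + 1) × T1)) (by fun_prop)
    exact h
  have hcs : Continuous (fun p : Fin N × T1 => ((p.1.castSucc, p.2) : Fin (N + 1) × T1)) := by
    refine Continuous.prodMk ?_ continuous_snd
    exact (continuous_of_discreteTopology (f := fun l : Fin N => l.castSucc)).comp continuous_fst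
  have hls : Continuous (fun t : T1 => ((Fin.last N, t) : Fin (N + 1) × T1)) := by fun_prop
  set S : Set Z := range i ∪ range (fun p : Fin N × T1 => j (p.1.castSucc, p.2)) with hS
  have hScl : IsClosed S :=
    (isCompact_range hZ.conti).isClosed.union (isCompact_range (hZ.contj.comp hcs)).isClosed
  have hcomp : CompactSpace ↥S := isCompact_iff_compactSpace.mp hScl.isCompact
  let i' : C → ↥S := fun c => ⟨i c, Or.inl ⟨c, rfl⟩⟩
  let j' : Fin N × T1 → ↥S := fun p => ⟨j (p.1.castSucc, p.2), Or.inr ⟨p, rfl⟩⟩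
  have hi' : Continuous i' := hZ.conti.subtype_mk _
  have hj' : Continuous j' := (hZ.contj.comp hcs).subtype_mk _
  refine ⟨↥S, inferInstance, hcomp, inferInstance, i', j', Subtype.val,
    fun t => j (Fin.last N, t), ?_, ?_, fun _ => rfl, fun _ _ => rfl, fun _ => rfl⟩
  · exact
      { closed := hA1.preimage continuous_snd
        contph := hZ.contph.comp hcs.continuousOn (fun p hp => hp)
        conti := hi'
        contj := hj'
        inji := fun a b h => hZ.inji (congrArg Subtype.val h)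
        agree := fun p hp => Subtype.ext (hZ.agree (p.1.castSucc, p.2) hp)
        injj := by
          rintro ⟨l, t⟩ hp ⟨l', t'⟩ hq h
          have h1 : j (l.castSucc, t) = j (l'.castSucc, t') := congrArg Subtype.val h
          have h2 := hZ.injj (show ((l.castSucc, t) : Fin (N + 1) × T1) ∈ _ from hp)
            (show ((l'.castSucc, t') : Fin (N + 1) × T1) ∈ _ from hq) h1
          rw [Prod.mk.injEq] at h2
          rw [Prod.mk.injEq]
          exact ⟨Fin.castSucc_injective N h2.1, h2.2⟩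
        disj := fun p hp c h => hZ.disj (p.1.castSucc, p.2) hp c (congrArg Subtype.val h)
        surj := by
          rintro ⟨z, ⟨c, hc⟩ | ⟨p, hp⟩⟩
          · exact Or.inl ⟨c, Subtype.ext hc⟩
          · exact Or.inr ⟨p, Subtype.ext hp⟩ }
  · exact
      { closed := hA1
        contph := hi'.comp_continuousOn (hZ.contph.comp hls.continuousOn (fun t ht => ht))
        conti := continuous_subtype_val
        contj := hZ.contj.comp hls
        inji := Subtype.val_injective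
        agree := fun t ht => hZ.agree (Fin.last N, t) ht
        injj := by
          intro t ht t' ht' h
          have h2 := hZ.injj (show ((Fin.last N, t) : Fin (N + 1) × T1) ∈ _ from ht)
            (show ((Fin.last N, t') : Fin (N + 1) × T1) ∈ _ from ht') h
          exact (Prod.mk.injEq _ _ _ _ ▸ h2).2
        disj := by
          rintro t ht ⟨z, ⟨c, hc⟩ | ⟨⟨l, t'⟩, hp⟩⟩ h
          · exact hZ.disj (Fin.last N, t) ht c (h.trans hc.symm)
          · have h' : j (Fin.last N, t) = j (l.castSucc, t') := h.trans hp.symm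
            by_cases ht' : t' ∈ A1
            · exact hZ.disj (Fin.last N, t) ht _ (h'.trans (hZ.agree (l.castSucc, t') ht'))
            · have h2 := hZ.injj (show ((Fin.last N, t) : Fin (N + 1) × T1) ∈ _ from ht)
                (show ((l.castSucc, t') : Fin (N + 1) × T1) ∈ _ from ht') h'
              rw [Prod.mk.injEq] at h2
              exact (Fin.castSucc_lt_last l).ne h2.1.symm
        surj := by
          intro z
          rcases hZ.surj z with ⟨c, hc⟩ | ⟨⟨l, t⟩, hp⟩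
          · exact Or.inl ⟨i' c, hc⟩
          · refine Fin.lastCases (motive := fun l => j (l, t) = z → _) ?_ ?_ l hp
            · intro h
              exact Or.inr ⟨t, h⟩
            · intro l' h
              exact Or.inl ⟨j' (l', t), h⟩ }

end M202

end

section

/-!
MP_202a65_gt, item AttAdj (helper61): attaching cells as an adjunction space.
-/

set_option linter.unusedSectionVars false

open Set Topology unitInterval

namespace M202

theorem attAdj_bd_closed (k : ℕ) : IsClosed (bd k) := by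
  have : bd k = ⋃ i : Fin k, {y : Cube k | y i = 0 ∨ y i = 1} := by
    ext y
    simp [bd]
  rw [this]
  refine isClosed_iUnion_of_finite fun i => ?_
  exact (isClosed_eq (continuous_apply i) continuous_const).union
    (isClosed_eq (continuous_apply i) continuous_const)

theorem attAdj_cont {R : Type} [TopologicalSpace R] {k N : ℕ} {e : Fin N → Cube k → R}
    (he : ∀ j, Continuous (e j)) : Continuous (fun p : Fin N × Cube k => e p.1 p.2) :=
  continuous_prod_of_discrete_left.mpr he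

theorem pr_AttAdj : S_AttAdj := by
  classical
  intro R _ _ _ C C1 k N e hC hatt
  have hs : C ⊆ C1 := by
    rw [hatt.union]
    exact subset_union_left
  have hmem : ∀ j y, e j y ∈ C1 := by
    intro j y
    rw [hatt.union]
    exact Or.inr (mem_iUnion.mpr ⟨j, mem_range_self y⟩)
  have hecont := attAdj_cont hatt.cont
  obtain ⟨c0, hc0⟩ := hC
  let ph : Fin N × Cube k → ↥C := fun p =>
    if h : e p.1 p.2 ∈ C then ⟨e p.1 p.2, h⟩ else ⟨c0, hc0⟩
  have hph : ∀ p : Fin N × Cube k, p.2 ∈ bd k → (ph p : R) = e p.1 p.2 := by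
    intro p hp
    have h : e p.1 p.2 ∈ C := hatt.bdry p.1 p.2 hp
    show ((if h : e p.1 p.2 ∈ C then (⟨e p.1 p.2, h⟩ : ↥C) else ⟨c0, hc0⟩ : ↥C) : R) = _
    rw [dif_pos h]
  refine ⟨hs, ph, fun p => ⟨e p.1 p.2, hmem p.1 p.2⟩, ?_, ?_, fun p => rfl, hph⟩
  · rw [hatt.union]
    refine hatt.closed.union (isClosed_iUnion_of_finite fun j => ?_)
    exact (isCompact_range (hatt.cont j)).isClosed
  · refine ⟨?_, ?_, ?_, ?_, ?_, ?_, ?_, ?_, ?_⟩
    · exact (attAdj_bd_closed k).preimage continuous_snd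
    · rw [Topology.IsInducing.subtypeVal.continuousOn_iff]
      exact hecont.continuousOn.congr fun p hp => hph p hp
    · exact continuous_inclusion hs
    · exact hecont.subtype_mk _
    · exact inclusion_injective hs
    · intro p hp
      apply Subtype.ext
      exact (hph p hp).symm
    · intro p hp p' hp' hpp
      obtain ⟨h1, h2⟩ := hatt.inj p.1 p'.1 p.2 p'.2 hp hp' (congrArg Subtype.val hpp)
      exact Prod.ext h1 h2
    · intro p hp c hpc
      have h1 : e p.1 p.2 = (c : R) := congrArg Subtype.val hpc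
      exact hatt.disj p.1 p.2 hp (h1 ▸ c.2)
    · rintro ⟨z, hz⟩
      have hz' := hz
      rw [hatt.union] at hz'
      rcases hz' with hz' | hz'
      · exact Or.inl ⟨⟨z, hz'⟩, rfl⟩
      · obtain ⟨j, y, hy⟩ := mem_iUnion.mp hz'
        exact Or.inr ⟨(j, y), Subtype.ext hy⟩

end M202

end

section

/-!
MP_202a65_gt (captain helper47), item BLift (helper43).
-/

open Set Topology unitInterval Filter

namespace M202

theorem bLift_trans {L L' A B : Type} [TopologicalSpace L] [TopologicalSpace L']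
    [TopologicalSpace A] [TopologicalSpace B] (W : Set L) (i : L' → L) (hi : Continuous i)
    (him : ∀ x, i x ∈ W)
    (hext : ∀ be : L' → B, Continuous be → ∃ be' : L → B, ContinuousOn be' W ∧
      ∀ x, be' (i x) = be x) {th : A → B} (hA : Nonempty A) {D : B → B → ℝ} {eta : ℝ}
    (h : LiftOn W ∅ th D eta) : LiftOn (univ : Set L') ∅ th D eta := by
  obtain ⟨a0⟩ := hA
  intro ze be al ga hze hbe _ _ _ _ _
  obtain ⟨be', hbe', hbb⟩ := hext be (continuousOn_univ.mp hbe)
  obtain ⟨al', G, hal', hG, -, -, h3, h4, h5⟩ := h ze be' (fun _ => a0) (fun _ => th a0) hze hbe'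
    (continuousOn_empty _) (by simp) (by simp) (by simp) (by simp)
  refine ⟨fun x => al' (i x), fun p => G (p.1, i p.2), ?_, ?_, by simp, by simp, ?_, ?_, ?_⟩
  · exact hal'.comp hi.continuousOn fun x _ => him x
  · have hc : Continuous (fun p : I × L' => (p.1, i p.2)) := by fun_prop
    exact hG.comp hc.continuousOn fun p _ => ⟨mem_univ _, him p.2⟩
  · exact fun x _ => h3 _ (him x)
  · exact fun x _ => (h4 _ (him x)).trans (hbb x)
  · intro t x _
    rw [← hbb x]
    exact h5 t _ (him x)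

theorem bLift_cube (h1 : S_CE) (h2 : S_CubRC) (n k : ℕ) (hk : k ≤ n) {A B : Type}
    [TopologicalSpace A] [TopologicalSpace B] (D : B → B → ℝ) (eta : ℝ) (th : A → B)
    (hD : IsCPM D) (hth : Continuous th) (hA : Nonempty A) (h0 : 0 ≤ eta)
    (hs : Soft n D eta th) (eta' : ℝ) (he : eta < eta') :
    LiftOn (univ : Set (Cube k)) ∅ th D ((k + 1 : ℝ) * eta') := by
  have h := h2 k 1 univ ∅ (fun _ => True) le_rfl (fun x _ => subset_univ _)
    (fun x hx => absurd hx (notMem_empty x)) (empty_subset _) (fun _ _ _ => trivial)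
  have hRC := h.1 k
  rw [h.2.2.1] at hRC
  have := h1 (Cube k) A B _ _ _ _ n D eta th hRC
    (fun l hl => by rw [List.mem_range] at hl; omega) hD hth hA h0 hs eta' he
  rw [List.length_range] at this
  push_cast at this
  exact this

theorem bLift_sph (h1 : S_CE) (h2 : S_CubRC) (h3 : S_Grid) (n : ℕ) {A B : Type}
    [TopologicalSpace A] [TopologicalSpace B] (D : B → B → ℝ) (eta : ℝ) (th : A → B)
    (hD : IsCPM D) (hth : Continuous th) (hA : Nonempty A) (h0 : 0 ≤ eta)
    (hs : Soft n D eta th) (eta' : ℝ) (he : eta < eta') :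
    LiftOn (bd (n + 1)) ∅ th D ((n + 1 : ℝ) * eta') := by
  have h := h2 (n + 1) 1 (bd (n + 1)) ∅ (fun _ => True) le_rfl (h3.2.1 (n + 1)).1
    (fun x hx => absurd hx (notMem_empty x)) (empty_subset _) (fun _ _ _ => trivial)
  have hRC := h.1 n
  have hbd : (∅ : Set (Cube (n + 1))) ∪ (bd (n + 1) ∩ skel 1 n) = bd (n + 1) := by
    rw [empty_union, inter_eq_left]
    intro x hx
    rw [(h3.2.1 (n + 1)).2.2] at hx
    exact hx.2.1
  rw [hbd] at hRC
  have := h1 (Cube (n + 1)) A B _ _ _ _ n D eta th hRC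
    (fun l hl => by rw [List.mem_range] at hl; omega) hD hth hA h0 hs eta' he
  rw [List.length_range] at this
  push_cast at this
  exact this

theorem pr_BLift (h1 : S_CE) (h2 : S_CubRC) (h3 : S_Grid) : S_BLift := by
  intro n
  refine ⟨fun k hk => ⟨k + 1, by positivity, ?_⟩, ⟨n + 1, by positivity, ?_⟩,
    ⟨((0 : ℕ) : ℝ) + 1, by positivity, ?_⟩⟩
  · intro A' B' _ _ D eta th hD hth hA h0 hs eta' he
    exact bLift_cube h1 h2 n k hk D eta th hD hth hA h0 hs eta' he
  · intro A' B' _ _ D eta th hD hth hA h0 hs eta' he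
    refine bLift_trans (bd (n + 1)) Subtype.val continuous_subtype_val (fun x => x.2) ?_ hA
      (bLift_sph h1 h2 h3 n D eta th hD hth hA h0 hs eta' he)
    intro be hbe
    obtain ⟨a0⟩ := hA
    classical
    refine ⟨fun x => if h : x ∈ bd (n + 1) then be ⟨x, h⟩ else th a0, ?_, fun x => ?_⟩
    · rw [continuousOn_iff_continuous_domRestrict]
      have : (bd (n + 1)).domRestrict
          (fun x => if h : x ∈ bd (n + 1) then be ⟨x, h⟩ else th a0) = be := by
        funext x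
        simp [Set.domRestrict_apply, x.2]
      rw [this]
      exact hbe
    · simp [x.2]
  · intro A' B' _ _ D eta th hD hth hA h0 hs eta' he
    refine bLift_trans (univ : Set (Cube 0)) (fun _ => default) continuous_const
      (fun x => mem_univ _) ?_ hA
      (bLift_cube h1 h2 n 0 (Nat.zero_le _) D eta th hD hth hA h0 hs eta' he)
    intro be hbe
    exact ⟨fun _ => be (), continuousOn_const, fun _ => rfl⟩

end M202

end

section

/-!
MP_202a65_gt (captain helper47), item F1 (helper43).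
-/

open Set Topology unitInterval Filter

namespace M202

theorem pr_F1 (h1 : S_Comp) (_h2 : S_Basics) (h3 : S_UC) : S_F1 := by
  intro n c C C1 _ _ q q1 u ph eps e1 hu hfs hq hFF D hD eta heta
  have hD' : IsCPM (fun x y : C => D (u x) (u y)) := h3.2.2.1 C C1 D u hD hu
  obtain ⟨b, th, hb, hth, hsoft, hctrl, hfr⟩ := hFF _ hD' eta heta
  refine ⟨b, fun x => u (th x), hb, hu.comp hth, ?_, ?_, fun x hx => hfr x hx⟩
  · have := h1 n (c.X b) C C1 D eta 0 th u hD hth hu hsoft (hfs D hD)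
    rwa [add_zero] at this
  · intro x
    have ha := hctrl x
    have hb' := hq (th x)
    have hc := c.cpm.tri (q1 (u (th x))) (q (th x)) (c.P (c.s c.b0 b x))
    linarith

end M202

end

section

/-!
MP_202a65_gt, item F2: attaching (T,A) along a map which factors through B.
-/

open Set Topology unitInterval Filter

namespace M202

/-- lifting a map of B through a soft map, absolute form -/
theorem F2_lift {n : ℕ} {B : Type} [TopologicalSpace B] {K : ℝ}
    (hK : ∀ (A' B' : Type) [TopologicalSpace A'] [TopologicalSpace B']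
      (D : B' → B' → ℝ) (eta : ℝ) (th : A' → B'), IsCPM D → Continuous th → Nonempty A' →
      0 ≤ eta → Soft n D eta th → ∀ eta', eta < eta' → LiftOn (univ : Set B) ∅ th D (K * eta'))
    {X C : Type} [TopologicalSpace X] [TopologicalSpace C] (D : C → C → ℝ) (hD : IsCPM D)
    (th : X → C) (hth : Continuous th) (hX : Nonempty X) (g : B → C) (hg : Continuous g)
    (e : ℝ) (he : 0 < e) (hs : Soft n D e th) :
    ∃ (gh : B → X) (G : I × B → C), Continuous gh ∧ Continuous G ∧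
      (∀ y, G (0, y) = th (gh y)) ∧ (∀ y, G (1, y) = g y) ∧
      (∀ t y, D (G (t, y)) (g y) ≤ K * (2 * e)) := by
  have h := hK X C D e th hD hth hX he.le hs (2 * e) (by linarith)
  obtain ⟨al', G, h1, h2, -, -, h5, h6, h7⟩ := h 0 g (fun _ => hX.some) (fun p => g p.2) le_rfl
    hg.continuousOn (by simp) (by simp) (by simp) (by simp) (by simp)
  refine ⟨al', G, continuousOn_univ.1 h1, ?_, fun y => h5 y (mem_univ _),
    fun y => h6 y (mem_univ _), fun t y => ?_⟩
  · rw [← continuousOn_univ, ← univ_prod_univ]; exact h2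
  · have := h7 t y (mem_univ _)
    linarith

/-- the map thp followed by ka is close to ka0 followed by th -/
theorem F2_close {X C T B Z0 Z : Type} [TopologicalSpace X] [TopologicalSpace C]
    [TopologicalSpace T] [TopologicalSpace B] [TopologicalSpace Z0] [TopologicalSpace Z]
    {A : Set T} {cc : A × I → T} {pr : T → B} {g : B → C} {gh : B → X} {G : I × B → C}
    {i0 : X → Z0} {j0 : T → Z0} {i : C → Z} {j : T → Z} {ka0 : Z0 → X} {ka : Z → C}
    {th : X → C} {thp : Z0 → Z} {D1 : C → C → ℝ} {chi : ℝ}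
    (hD : IsCPM D1) (hchi : 0 ≤ chi)
    (hprc : ∀ a t, pr (cc (a, t)) = pr a)
    (hadj0 : IsAdj A (fun t => gh (pr t)) i0 j0)
    (hG0 : ∀ y, G (0, y) = th (gh y)) (hG1 : ∀ y, G (1, y) = g y)
    (hGd : ∀ t y, D1 (G (t, y)) (g y) ≤ chi)
    (hka0i : ∀ x, ka0 (i0 x) = x) (hka0j : ∀ t, ka0 (j0 t) = gh (pr t))
    (hkai : ∀ x, ka (i x) = x) (hkaj : ∀ t, ka (j t) = g (pr t))
    (h1 : ∀ a0, thp (i0 a0) = i (th a0))
    (h2 : ∀ (a : A) (t s : I), (t : ℝ) ≤ 1 / 2 → (s : ℝ) = 2 * t →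
      thp (j0 (cc (a, t))) = i (G (s, pr a)))
    (h3 : ∀ (a : A) (t s : I), 1 / 2 ≤ (t : ℝ) → (s : ℝ) = 2 * t - 1 →
      thp (j0 (cc (a, t))) = j (cc (a, s)))
    (h4 : ∀ t, t ∉ range cc → thp (j0 t) = j t) (z : Z0) :
    D1 (ka (thp z)) (th (ka0 z)) ≤ 2 * chi := by
  have hsym : ∀ y, D1 (g y) (th (gh y)) ≤ chi := by
    intro y
    have := hGd 0 y
    rw [hG0, hD.symm] at this
    exact this
  rcases hadj0.surj z with ⟨a, rfl⟩ | ⟨t, rfl⟩
  · rw [h1, hkai, hka0i, hD.self]; linarith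
  · rw [hka0j]
    by_cases ht : t ∈ range cc
    · obtain ⟨⟨a, r⟩, rfl⟩ := ht
      rw [hprc]
      rcases le_total (r : ℝ) (1 / 2) with hr | hr
      · have hs : (2 * (r : ℝ)) ∈ I := ⟨by have := r.2.1; linarith, by linarith⟩
        rw [h2 a r ⟨2 * r, hs⟩ hr rfl, hkai]
        have e1 := hGd ⟨2 * r, hs⟩ (pr a)
        have e2 := hsym (pr a)
        have e3 := hD.tri (G (⟨2 * r, hs⟩, pr a)) (g (pr a)) (th (gh (pr a)))
        linarith
      · have hs : (2 * (r : ℝ) - 1) ∈ I := ⟨by linarith, by have := r.2.2; linarith⟩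
        rw [h3 a r ⟨2 * r - 1, hs⟩ hr rfl, hkaj, hprc]
        have e2 := hsym (pr a)
        linarith
    · rw [h4 t ht, hkaj]
      have e2 := hsym (pr t)
      linarith

theorem pr_F2 (h1 : S_PO) (h2 : S_POmap) (h3 : S_AdjEx) (h4 : S_AdjDesc) (h5 : S_Comp)
    (h6 : S_Basics) (h7 : S_UC) : S_F2 := by
  intro n c C T B Z _ _ _ _ _ _ _ _ _ _ _ _ A cc pr g i j ka q ph eps hTP hBL hA hcol hpr hprc
    hg hgF hadj hka hkai hkaj hq hph hFF D hD eta heta
  obtain ⟨hUC1, hUC2, hUC3, hUC4, hUC5, hUC6, -, -⟩ := h7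
  obtain ⟨hB1, -⟩ := h6
  obtain ⟨K, hK0, hK⟩ := hBL
  have hcomp : ∀ b, CompactSpace (c.X b) := c.tower.compact
  have hne : ∀ b, Nonempty (c.X b) := c.tower.nonempty
  -- the Urysohn function
  have hFc : IsCompact c.F := c.closedF.isCompact
  have hphc : IsClosed (ph '' c.F) := (hFc.image_of_continuousOn hph).isClosed
  have hgc : IsClosed (range g) := (isCompact_range hg).isClosed
  have hdisj : Disjoint (range g) (ph '' c.F) := by
    rw [Set.disjoint_left]
    rintro _ ⟨y, rfl⟩ ⟨x, hx, hxy⟩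
    exact hgF y x hx hxy.symm
  obtain ⟨f, hf0, hf1, -⟩ := exists_continuous_zero_one_of_isClosed hgc hphc hdisj
  have hf0' : ∀ y, f (g y) = 0 := fun y => hf0 (mem_range_self y)
  have hf1' : ∀ x ∈ c.F, f (ph x) = 1 := fun x hx => hf1 (mem_image_of_mem _ hx)
  -- the pseudometric D1
  set Di : C → C → ℝ := fun x y => D (i x) (i y) with hDi
  have hDic : IsCPM Di := hUC3 C Z D i hD hadj.conti
  set Dq : C → C → ℝ := fun x y => c.dY (q x) (q y) with hDq
  have hDqc : IsCPM Dq := hUC3 C c.Y c.dY q c.cpm hq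
  set Df : C → C → ℝ := fun x y => |f x - f y| with hDf
  have hDfc : IsCPM Df := hUC6 C f f.continuous
  set D2 : C → C → ℝ := fun x y => max (Di x y) (Dq x y) with hD2
  have hD2c : IsCPM D2 := hUC4 C Di Dq hDic hDqc
  set D1 : C → C → ℝ := fun x y => max (D2 x y) (Df x y) with hD1
  have hD1c : IsCPM D1 := hUC4 C D2 Df hD2c hDfc
  have hleI : ∀ x y, D (i x) (i y) ≤ D1 x y := fun x y =>
    (le_max_left (Di x y) (Dq x y)).trans (le_max_left _ _)
  have hleq : ∀ x y, c.dY (q x) (q y) ≤ D1 x y := fun x y =>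
    (le_max_right (Di x y) (Dq x y)).trans (le_max_left _ _)
  have hlef : ∀ x y, |f x - f y| ≤ D1 x y := fun x y => le_max_right _ _
  -- parameters
  set M : ℝ := (n + 1) * (1 + 8 * K) + 3 + 4 * K with hM
  have hnn : (0 : ℝ) ≤ n := Nat.cast_nonneg n
  have hMa : 0 ≤ ((n : ℝ) + 1) * (1 + 8 * K) := by positivity
  have hMpos : 0 < M := by rw [hM]; linarith
  set e1 : ℝ := min eta (1 / 2) / M with he1
  have hmin : 0 < min eta (1 / 2) := lt_min heta (by norm_num)
  have he1pos : 0 < e1 := div_pos hmin hMpos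
  have he1M : e1 * M = min eta (1 / 2) := div_mul_cancel₀ _ hMpos.ne'
  have hpa : 0 ≤ e1 * (((n : ℝ) + 1) * (1 + 8 * K)) := by positivity
  have hpK : 0 ≤ e1 * K := by positivity
  have hexp : e1 * M = e1 * (((n : ℝ) + 1) * (1 + 8 * K)) + 3 * e1 + 4 * (e1 * K) := by
    rw [hM]; ring
  have hleeta : e1 * M ≤ eta := by rw [he1M]; exact min_le_left _ _
  have hlehalf : e1 * M ≤ 1 / 2 := by rw [he1M]; exact min_le_right _ _
  -- the map th
  obtain ⟨b, th, hb, hth, hths, hthY, hthF⟩ := hFF D1 hD1c e1 he1pos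
  -- lift of g
  obtain ⟨gh, G, hgh, hG, hG0, hG1, hGd⟩ :=
    F2_lift hK D1 hD1c th hth (hne b) g hg e1 he1pos hths
  set chi0 : ℝ := K * (2 * e1) with hchi0
  have hchi0pos : 0 ≤ chi0 := by positivity
  -- Z0
  obtain ⟨Z0, tZ0, cZ0, sZ0, i0, j0, hadj0⟩ := h3 (c.X b) T A (fun t => gh (pr t)) hA
    (hgh.comp hpr).continuousOn
  obtain ⟨ka0, hka0, hka0i, hka0j⟩ := (h4 (c.X b) T Z0 (c.X b) A (fun t => gh (pr t)) i0 j0
    hadj0).1 id (fun t => gh (pr t)) continuous_id (hgh.comp hpr) (fun t _ => rfl)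
  -- Ga
  have hGac : Continuous (fun p : I × A => G (p.1, pr p.2)) :=
    hG.comp (continuous_fst.prodMk (hpr.comp (continuous_subtype_val.comp continuous_snd)))
  obtain ⟨thp, hthp, hp1, hp2, hp3, hp4⟩ := h2 (c.X b) C T Z0 Z A cc (fun t => gh (pr t))
    (fun t => g (pr t)) i0 j0 i j th (fun p => G (p.1, pr p.2)) hA hcol hadj0 hadj hth hGac
    (fun a => hG0 (pr a)) (fun a => hG1 (pr a))
  have htrack : ∀ (s t : I) (a : A), D (i (G (s, pr a))) (i (G (t, pr a))) ≤ 2 * chi0 := by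
    intro s t a
    refine (hleI _ _).trans ?_
    have e1' := hGd s (pr a)
    have e2' := hGd t (pr a)
    rw [hD1c.symm] at e2'
    have e3' := hD1c.tri (G (s, pr a)) (g (pr a)) (G (t, pr a))
    linarith
  have hthsoft : Soft n (fun x y => D (i x) (i y)) e1 th :=
    hB1 n n (c.X b) C (fun x y => D (i x) (i y)) D1 e1 e1 th le_rfl le_rfl hDic hD1c hth hleI hths
  have hthpsoft : Soft n D ((n + 1) * (e1 + 2 * (2 * chi0))) thp :=
    h1 n (c.X b) C T Z0 Z A cc (fun t => gh (pr t)) (fun t => g (pr t)) i0 j0 i j th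
      (fun p => G (p.1, pr p.2)) thp D e1 (2 * chi0) hA hcol hadj0 hadj hth hGac
      (fun a => hG0 (pr a)) (fun a => hG1 (pr a)) hthp hp1 hp2 hp3 hp4 (hne b) hD he1pos.le
      (by linarith) htrack hthsoft
  -- uniform continuity
  obtain ⟨de, hde, hdeu⟩ := hUC2 (c.X b) C D1 th hD1c hth e1 he1pos
  set eta2 : ℝ := min e1 de with heta2
  have heta2pos : 0 < eta2 := lt_min he1pos hde
  have heta2e : eta2 ≤ e1 := min_le_left _ _
  have heta2d : eta2 ≤ de := min_le_right _ _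
  have hDp : IsCPM (fun x y => D (thp x) (thp y)) := hUC3 Z0 Z D thp hD hthp
  obtain ⟨b', psi, hbb', hpsi, hpsis, hpsid, hpsiF⟩ := hTP b gh hgh Z0 i0 j0 ka0 hadj0 hka0
    hka0i hka0j _ hDp eta2 heta2pos
  have hclose := F2_close (G := G) (chi := chi0) hD1c hchi0pos hprc hadj0 hG0 hG1 hGd hka0i hka0j
    hkai hkaj hp1 hp2 hp3 hp4
  refine ⟨b', fun x => thp (psi x), hb.trans hbb', hthp.comp hpsi, ?_, ?_, ?_⟩
  · have h8 := h5 n (c.X b') Z0 Z D eta2 ((n + 1) * (e1 + 2 * (2 * chi0))) psi thp hD hpsi hthp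
      hpsis hthpsoft
    refine hB1 n n (c.X b') Z D D (eta2 + (n + 1) * (e1 + 2 * (2 * chi0))) eta
      (fun x => thp (psi x)) le_rfl ?_ hD hD (hthp.comp hpsi) (fun _ _ => le_rfl) h8
    have h9 : ((n : ℝ) + 1) * (e1 + 2 * (2 * chi0)) = e1 * (((n : ℝ) + 1) * (1 + 8 * K)) := by
      rw [hchi0]; ring
    rw [h9]
    linarith
  · intro x
    have e1' := hclose (psi x)
    have e2' := (hleq _ _).trans e1'
    have e3' := (hleq _ _).trans (hdeu _ _ ((hpsid x).trans heta2d))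
    have e4' := hthY (c.s b b' x)
    rw [c.tower.comp c.b0 b b' x hb hbb'] at e4'
    have t1 := c.cpm.tri (q (ka (thp (psi x)))) (q (th (ka0 (psi x)))) (c.P (c.s c.b0 b' x))
    have t2 := c.cpm.tri (q (th (ka0 (psi x)))) (q (th (c.s b b' x))) (c.P (c.s c.b0 b' x))
    have h10 : 2 * chi0 = 4 * (e1 * K) := by rw [hchi0]; ring
    linarith
  · intro x hx
    have hx' : c.s c.b0 b (c.s b b' x) ∈ c.F := by
      rw [c.tower.comp c.b0 b b' x hb hbb']; exact hx
    have e1' := hthF (c.s b b' x) hx'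
    have e2' := (hlef _ _).trans e1'
    rw [hf1' _ hx'] at e2'
    have hfar : ∀ y, eta2 ≤ dist (c.s b b' x) (gh y) := by
      intro y
      by_contra hcon
      push Not at hcon
      have e3' := (hlef _ _).trans (hdeu _ _ (hcon.le.trans heta2d))
      have e4' := (hlef _ _).trans (hGd 0 y)
      rw [hG0, hf0'] at e4'
      have h11 : chi0 = 2 * (e1 * K) := by rw [hchi0]; ring
      have a1 := abs_le.1 e2'
      have a2 := abs_le.1 e3'
      have a3 := abs_le.1 e4'
      linarith [a1.1, a2.2, a3.2]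
    obtain ⟨w, hw⟩ := hpsiF x hfar
    have hw' : ka0 (psi x) = w := by rw [← hw, hka0i]; rfl
    have e3' := hdeu _ _ ((hpsid x).trans heta2d)
    rw [hw'] at e3'
    have e5 : D (thp (psi x)) (i (ph (c.s c.b0 b' x))) ≤ e1 + e1 := by
      rw [← hw, hp1]
      refine (hleI _ _).trans ?_
      rw [c.tower.comp c.b0 b b' x hb hbb'] at e1'
      have t1 := hD1c.tri (th w) (th (c.s b b' x)) (ph (c.s c.b0 b' x))
      linarith
    linarith

end M202

end

section

/-!
MP_202a65_gt, item F3fam (helper26): finite families of spheres attached at points.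
-/

open Set Topology unitInterval Filter

namespace M202

theorem F3fam_cpm {A B : Type} [TopologicalSpace A] [TopologicalSpace B] {D : B → B → ℝ}
    (hD : IsCPM D) {f : A → B} (hf : Continuous f) : IsCPM (fun x y => D (f x) (f y)) :=
  ⟨fun _ => hD.self _, fun _ _ => hD.symm _ _, fun _ _ _ => hD.tri _ _ _,
    hD.cont.comp ((hf.comp continuous_fst).prodMk (hf.comp continuous_snd))⟩

/-- a map with a continuous two-sided inverse is fine soft -/
theorem F3fam_inv (h6 : S_Basics) {n : ℕ} {C Z : Type} [TopologicalSpace C] [TopologicalSpace Z]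
    {i : C → Z} {ka : Z → C} (hi : Continuous i) (hka : Continuous ka) (h1 : ∀ x, ka (i x) = x)
    (h2 : ∀ z, i (ka z) = z) : FineSoft n i := by
  intro D hD m hm eta' heta' ze be al ga hze hbe hal hga hg0 hg1 hgD
  obtain ⟨-, -, hid, -⟩ := h6
  have hS := hid n C (fun x y => D (i x) (i y)) (F3fam_cpm hD hi) m hm eta' heta' ze
    (fun x => ka (be x)) al (fun p => ka (ga p)) hze (hka.comp_continuousOn hbe) hal
    (hka.comp_continuousOn hga) (fun x hx => by simp [hg0 x hx, h1])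
    (fun x hx => by simp [hg1 x hx])
    (fun t x hx => by simpa [h2] using hgD t x hx)
  obtain ⟨al', G, h3, h4, h5, h6, h7, h8, h9⟩ := hS
  refine ⟨al', fun p => i (G p), h3, hi.comp_continuousOn h4, h5, fun t x hx => ?_, fun x hx => ?_,
    fun x hx => ?_, fun t x hx => ?_⟩
  · show i (G (t, x)) = _
    rw [h6 t x hx, h2]
  · show i (G (0, x)) = _
    rw [h7 x hx]
    rfl
  · show i (G (1, x)) = _
    rw [h8 x hx, h2]
  · have := h9 t x hx
    simpa [h2] using this

theorem pr_F3fam (h1 : S_F2) (h2 : S_AdjSplit) (h3 : S_BLift) (h4 : S_AdjDesc) (h5 : S_F1)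
    (h6 : S_Basics) : S_F3fam := by
  intro n N
  induction N with
  | zero =>
    intro c C Z _ _ _ _ _ _ x0 i j ka q ph eps hn hx0 hadj hkac hkai hkaj hq hph hFF
    have hs : ∀ z, i (ka z) = z := by
      intro z
      rcases hadj.surj z with ⟨x, hx⟩ | ⟨t, ht⟩
      · rw [← hx, hkai]
      · exact t.1.elim0
    have hfs : FineSoft n i := F3fam_inv h6 hadj.conti hkac hkai hs
    have := h5 n c C Z q (fun z => q (ka z)) i ph eps 0 hadj.conti hfs
      (fun z => by rw [hkai, c.cpm.self]) hFF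
    rwa [add_zero] at this
  | succ N ih =>
    intro c C Z _ _ _ _ _ _ x0 i j ka q ph eps hn hx0 hadj hkac hkai hkaj hq hph hFF
    obtain ⟨C', tC', cC', hC', i', j', i'', j'', had1, had2, hii, hjj, hj⟩ :=
      h2 N C (Cube n) Z (bd n) (fun p => x0 p.1) i j hadj
    have hd1 := h4 C (Fin N × Cube n) C' C _ _ i' j' had1
    obtain ⟨ka', hka'c, hka'i, hka'j⟩ := hd1.1 id (fun p => x0 p.1.castSucc) continuous_id
      ((continuous_of_discreteTopology (f := fun l : Fin N => x0 l.castSucc)).comp continuous_fst)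
      (fun t ht => rfl)
    have hIH := ih c C C' (fun l => x0 l.castSucc) i' j' ka' q ph eps hn
      (fun l x hx => hx0 l.castSucc x hx) had1 hka'c hka'i hka'j hq hph hFF
    have hd2 := h4 C' (Cube n) Z C' _ _ i'' j'' had2
    obtain ⟨ka'', hka''c, hka''i, hka''j⟩ := hd2.1 id (fun _ => i' (x0 (Fin.last N)))
      continuous_id continuous_const (fun t ht => rfl)
    have hcomp : ∀ z, ka' (ka'' z) = ka z := by
      have hd := (h4 C (Fin (N + 1) × Cube n) Z C _ _ i j hadj).2.2.1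
        (fun z => ka' (ka'' z)) ka (fun x => by
          show ka' (ka'' (i x)) = ka (i x)
          rw [← hii x, hka''i, hii x, hkai]
          exact hka'i x) (fun p => by
          show ka' (ka'' (j p)) = ka (j p)
          rw [hkaj]
          obtain ⟨l, t⟩ := p
          induction l using Fin.lastCases with
          | last =>
            rw [← hj t, hka''j]
            exact hka'i _
          | cast l =>
            rw [← hjj l t, hka''i]
            exact hka'j (l, t))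
      intro z
      exact congrFun hd z
    have hF2 := h1 n c C' (Cube n) Unit Z (bd n) (TsphM_col n) (fun _ => ())
      (fun _ => i' (x0 (Fin.last N))) i'' j'' ka'' (fun z => q (ka' z)) (fun x => i' (ph x)) eps
      c.tower.sph (h3 n).2.2 (TsphM_bd_closed n) (TsphM_collar n) continuous_const
      (fun a t => rfl) continuous_const
      (fun _ x hx h => hx0 (Fin.last N) x hx (had1.inji h))
      had2 hka''c hka''i hka''j (hq.comp hka'c) (had1.conti.comp_continuousOn hph) hIH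
    have e1 : (fun z => q (ka z)) = (fun z => q (ka' (ka'' z))) := by
      funext z
      rw [hcomp]
    have e2 : (fun x => i (ph x)) = (fun x => i'' (i' (ph x))) := by
      funext x
      rw [hii]
    rw [e1, e2]
    exact hF2

end M202

end
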