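import Pool.Agent.Work.MP_202a65_gt.Bd.B03
import Pool.Agent.Work.MP_202a65_gt.Bd.B02

/-! Bundle of small proof modules (one section per former module). -/

section

/-!
MP_202a65_gt, item F4fam: finite families of reduced lenses.
-/

open Set Topology unitInterval Filter

namespace M202

/-- softness is transported by a homeomorphism i with inverse ka -/
theorem F4fam_softHomeo {n : ℕ} {X C Z : Type} [TopologicalSpace X] [TopologicalSpace C]
    [TopologicalSpace Z] {i : C → Z} {ka : Z → C} (hi : Continuous i) (hka : Continuous ka)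
    (hik : ∀ z, i (ka z) = z) (hki : ∀ x, ka (i x) = x) (D : Z → Z → ℝ) (eta : ℝ) (th : X → C)
    (hs : Soft n (fun x y => D (i x) (i y)) eta th) : Soft n D eta (fun x => i (th x)) := by
  intro m hm eta' he ze be al ga hze hbe hal hga h0 h1 htr
  obtain ⟨al', G, g1, g2, g3, g4, g5, g6, g7⟩ := hs m hm eta' he ze (fun x => ka (be x)) al
    (fun p => ka (ga p)) hze (hka.comp_continuousOn hbe) hal (hka.comp_continuousOn hga)
    (fun x hx => by rw [h0 x hx, hki]) (fun x hx => by rw [h1 x hx])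
    (fun t x hx => by simp only [hik]; exact htr t x hx)
  refine ⟨al', fun p => i (G p), g1, hi.comp_continuousOn g2, g3, fun t x hx => ?_,
    fun x hx => ?_, fun x hx => ?_, fun t x hx => ?_⟩
  · simp only [g4 t x hx, hik]
  · simp only [g5 x hx]
  · simp only [g6 x hx, hik]
  · have := g7 t x hx
    simp only [hik] at this
    exact this

/-- the collar of the bottom of the cylinder -/
theorem F4fam_collar (k : ℕ) :
    IsCollar {p : Cube k × I | p.2 = 0}
      (fun a : {p : Cube k × I | p.2 = 0} × I => ((a.1 : Cube k × I).1, a.2)) := by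
  refine ⟨?_, ?_, ?_, ?_⟩
  · exact (continuous_fst.comp (continuous_subtype_val.comp continuous_fst)).prodMk continuous_snd
  · rintro ⟨⟨⟨y, s⟩, hs⟩, t⟩ ⟨⟨⟨y', s'⟩, hs'⟩, t'⟩ h
    simp only [mem_ofPred_eq] at hs hs'
    simp only [Prod.mk.injEq] at h
    obtain ⟨rfl, rfl⟩ := h
    subst hs hs'
    rfl
  · rintro ⟨⟨y, s⟩, hs⟩
    simp only [mem_ofPred_eq] at hs
    subst hs
    rfl
  · have : (fun a : {p : Cube k × I | p.2 = 0} × I => ((a.1 : Cube k × I).1, a.2)) ''
        {p | p.2 < 1} = {p : Cube k × I | p.2 < 1} := by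
      ext ⟨y, t⟩
      constructor
      · rintro ⟨⟨a, s⟩, hs, h⟩
        simp only [mem_ofPred_eq] at hs ⊢
        simp only [Prod.mk.injEq] at h
        rw [← h.2]; exact hs
      · intro ht
        exact ⟨(⟨(y, 0), rfl⟩, t), ht, rfl⟩
    rw [this]
    exact isOpen_lt continuous_snd continuous_const

/-- one reduced lens -/
theorem F4fam_single (h1 : S_F2) (h2 : S_LensCollapse) (h4 : S_BLift) (h5 : S_AdjDesc)
    (h6 : S_AdjEx) (h7 : S_F1) (n k : ℕ) (c : TCtx n) (C Z : Type) [TopologicalSpace C]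
    [CompactSpace C] [T2Space C] [TopologicalSpace Z] [CompactSpace Z] [T2Space Z]
    (rho : Cube k → C) (i : C → Z) (j : Cube k × I → Z) (ka : Z → C) (q : C → c.Y)
    (ph : c.X c.b0 → C) (eps : ℝ) (hk : k ≤ n) (hrho : Continuous rho)
    (hrF : ∀ y, ∀ x ∈ c.F, rho y ≠ ph x)
    (hadj : IsAdj {p : Cube k × I | p.2 = 0 ∨ p.1 ∈ bd k} (fun p => rho p.1) i j)
    (hkai : ∀ x, ka (i x) = x) (hkaj : ∀ p, ka (j p) = rho p.1)
    (hq : Continuous q) (hph : ContinuousOn ph c.F) (hFF : FF c q ph eps) :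
    FF c (fun z => q (ka z)) (fun x => i (ph x)) eps := by
  have hA1 : IsClosed {p : Cube k × I | p.2 = 0} := isClosed_eq continuous_snd continuous_const
  have hph1 : Continuous (fun p : Cube k × I => rho p.1) := hrho.comp continuous_fst
  obtain ⟨Z1, tZ1, cZ1, sZ1, i1, j1, hadj1⟩ := h6 C (Cube k × I) {p : Cube k × I | p.2 = 0}
    (fun p => rho p.1) hA1 hph1.continuousOn
  obtain ⟨ka1, hka1, hka1i, hka1j⟩ := (h5 C (Cube k × I) Z1 C {p : Cube k × I | p.2 = 0}
    (fun p => rho p.1) i1 j1 hadj1).1 id (fun p => rho p.1) continuous_id hph1 (fun t _ => rfl)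
  obtain ⟨u, hu, hui, huj⟩ := (h5 C (Cube k × I) Z1 Z {p : Cube k × I | p.2 = 0}
    (fun p => rho p.1) i1 j1 hadj1).1 i j hadj.conti hadj.contj
    (fun t ht => hadj.agree t (Or.inl ht))
  have hF2 : FF c (fun z => q (ka1 z)) (fun x => i1 (ph x)) eps :=
    h1 n c C (Cube k × I) (Cube k) Z1 {p : Cube k × I | p.2 = 0}
      (fun a => ((a.1 : Cube k × I).1, a.2)) Prod.fst rho i1 j1 ka1 q ph eps
      (c.tower.cyl k hk) ((h4 n).1 k hk) hA1 (F4fam_collar k) continuous_fst (fun _ _ => rfl)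
      hrho hrF hadj1 hka1 hka1i hka1j hq hph hFF
  have hfs : FineSoft n u := h2 n k C Z Z1 rho i j i1 j1 u hrho hadj hadj1 hu hui huj
  have heq : ∀ z, ka (u z) = ka1 z := by
    intro z
    rcases hadj1.surj z with ⟨x, rfl⟩ | ⟨t, rfl⟩
    · rw [hui, hkai, hka1i]; rfl
    · rw [huj, hkaj, hka1j]
  have hres := h7 n c Z1 Z (fun z => q (ka1 z)) (fun z => q (ka z)) u (fun x => i1 (ph x)) eps 0
    hu hfs (fun z => by simp only [heq]; rw [c.cpm.self]) hF2
  simp only [hui, add_zero] at hres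
  exact hres

theorem pr_F4fam (h1 : S_F2) (h2 : S_LensCollapse) (h3 : S_AdjSplit) (h4 : S_BLift)
    (h5 : S_AdjDesc) (h6 : S_AdjEx) (h7 : S_F1) (h8 : S_Basics) : S_F4fam := by
  intro n k N
  induction N with
  | zero =>
    intro c C Z _ _ _ _ _ _ rho i j ka q ph eps hn hk hrho hrF hadj hka hkai hkaj hq hph hFF
    have hik : ∀ z, i (ka z) = z := by
      intro z
      rcases hadj.surj z with ⟨x, rfl⟩ | ⟨t, rfl⟩
      · rw [hkai]
      · exact t.1.elim0
    intro D hD eta heta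
    have hD' : IsCPM (fun x y => D (i x) (i y)) :=
      ⟨fun x => hD.self _, fun x y => hD.symm _ _, fun x y z => hD.tri _ _ _,
        hD.cont.comp ((hadj.conti.comp continuous_fst).prodMk
          (hadj.conti.comp continuous_snd))⟩
    obtain ⟨b, th, hb, hth, hs, hY, hF⟩ := hFF _ hD' eta heta
    refine ⟨b, fun x => i (th x), hb, hadj.conti.comp hth,
      F4fam_softHomeo hadj.conti hka hik hkai D eta th hs, ?_, ?_⟩
    · intro x; simp only [hkai]; exact hY x
    · intro x hx; exact hF x hx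
  | succ N ih =>
    intro c C Z _ _ _ _ _ _ rho i j ka q ph eps hn hk hrho hrF hadj hka hkai hkaj hq hph hFF
    obtain ⟨C', tC', cC', sC', i', j', i'', j'', ha1, ha2, e1, e2, e3⟩ :=
      h3 N C (Cube k × I) Z {p : Cube k × I | p.2 = 0 ∨ p.1 ∈ bd k}
        (fun p => rho (p.1, p.2.1)) i j hadj
    have hka' : Continuous (fun z => ka (i'' z)) := hka.comp ha2.conti
    have hkai' : ∀ x, ka (i'' (i' x)) = x := fun x => by rw [e1, hkai]
    have hrho' : Continuous (fun p : Fin N × Cube k => rho (p.1.castSucc, p.2)) :=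
      hrho.comp ((continuous_of_discreteTopology.comp continuous_fst).prodMk continuous_snd)
    have hI := ih c C C' (fun p => rho (p.1.castSucc, p.2)) i' j' (fun z => ka (i'' z)) q ph eps
      hn hk hrho' (fun y x hx => hrF _ x hx) ha1 hka' hkai'
      (fun p => by
        obtain ⟨l, t⟩ := p
        simp only [e2, hkaj]) hq hph hFF
    have hr1 : Continuous (fun y : Cube k => i' (rho (Fin.last N, y))) :=
      ha1.conti.comp (hrho.comp (continuous_const.prodMk continuous_id))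
    obtain ⟨ka'', hka'', hkai'', hkaj''⟩ := (h5 C' (Cube k × I) Z C'
      {p : Cube k × I | p.2 = 0 ∨ p.1 ∈ bd k} (fun t => i' (rho (Fin.last N, t.1))) i'' j''
      ha2).1 id (fun t => i' (rho (Fin.last N, t.1))) continuous_id (hr1.comp continuous_fst)
      (fun t _ => rfl)
    have hS := F4fam_single h1 h2 h4 h5 h6 h7 n k c C' Z (fun y => i' (rho (Fin.last N, y)))
      i'' j'' ka'' (fun z => q (ka (i'' z))) (fun x => i' (ph x)) eps hk hr1
      (fun y x hx h => hrF _ x hx (ha1.inji h)) ha2 hkai'' hkaj'' (hq.comp hka')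
      (ha1.conti.comp_continuousOn hph) hI
    have heq : ∀ z, ka (i'' (ka'' z)) = ka z := by
      intro z
      rcases ha2.surj z with ⟨x, rfl⟩ | ⟨t, rfl⟩
      · rw [hkai'']; rfl
      · rw [hkaj'', hkai', e3, hkaj]
    simp only [heq, e1] at hS
    exact hS

end M202

end

section

/-!
MP_202a65_gt: item T12 (S_F5), attaching n-cells whose attaching maps extend to maps
rho l : Cube n → C.
-/

open Set Topology unitInterval

namespace M202

/-- the sup distance of y to the centre is at most 1/2 -/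
lemma F5_dist_le (n : ℕ) (y : Cube n) : dist y (ctr n) ≤ 1 / 2 := by
  refine (dist_pi_le_iff (by norm_num)).2 fun m => ?_
  rw [Subtype.dist_eq, Real.dist_eq]
  have h0 := (y m).2.1
  have h1 := (y m).2.2
  show |(y m : ℝ) - 1 / 2| ≤ 1 / 2
  rw [abs_le]; constructor <;> linarith

lemma F5_abs_le (n : ℕ) (y : Cube n) (m : Fin n) : |(y m : ℝ) - 1 / 2| ≤ dist y (ctr n) := by
  have := dist_le_pi_dist y (ctr n) m
  rw [Subtype.dist_eq, Real.dist_eq] at this
  exact this

/-- the denominator -/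
noncomputable def F5_M {n : ℕ} (p : Cube n × I) : ℝ :=
  max (2 * dist p.1 (ctr n)) (((p.2 : ℝ) + 1) / 2)

lemma F5_M_ge {n : ℕ} (p : Cube n × I) : 1 / 2 ≤ F5_M p := by
  unfold F5_M
  refine le_trans ?_ (le_max_right _ _)
  have := p.2.2.1
  linarith

lemma F5_M_pos {n : ℕ} (p : Cube n × I) : 0 < F5_M p := lt_of_lt_of_le (by norm_num) (F5_M_ge p)

lemma F5_M_le {n : ℕ} (p : Cube n × I) : F5_M p ≤ 1 := by
  unfold F5_M
  have h1 := F5_dist_le n p.1
  have h2 := p.2.2.2
  refine max_le (by linarith) (by linarith)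

lemma F5_M_cont {n : ℕ} : Continuous (F5_M : Cube n × I → ℝ) := by
  unfold F5_M
  fun_prop

/-- the radial projection from (ctr, -1) to top and sides -/
noncomputable def F5_rr {n : ℕ} (p : Cube n × I) : Cube n × I :=
  (fun m => ⟨1 / 2 + ((p.1 m : ℝ) - 1 / 2) / F5_M p, by
      have h1 : |(p.1 m : ℝ) - 1 / 2| / F5_M p ≤ 1 / 2 := by
        rw [div_le_iff₀ (F5_M_pos p)]
        have h2 := F5_abs_le n p.1 m
        have h3 : 2 * dist p.1 (ctr n) ≤ F5_M p := le_max_left _ _
        linarith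
      have h4 : |((p.1 m : ℝ) - 1 / 2) / F5_M p| ≤ 1 / 2 := by
        rw [abs_div, abs_of_pos (F5_M_pos p)]; exact h1
      rw [abs_le] at h4
      constructor <;> linarith [h4.1, h4.2]⟩,
    ⟨((p.2 : ℝ) + 1) / F5_M p - 1, by
      have h0 := p.2.2.1
      have h1 : ((p.2 : ℝ) + 1) / F5_M p ≤ 2 := by
        rw [div_le_iff₀ (F5_M_pos p)]
        have h3 : ((p.2 : ℝ) + 1) / 2 ≤ F5_M p := le_max_right _ _
        linarith
      have h2 : 1 ≤ ((p.2 : ℝ) + 1) / F5_M p := by
        rw [le_div_iff₀ (F5_M_pos p)]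
        have := F5_M_le p
        linarith
      constructor <;> linarith⟩)

lemma F5_rr_fst {n : ℕ} (p : Cube n × I) (m : Fin n) :
    (((F5_rr p).1 m : I) : ℝ) = 1 / 2 + ((p.1 m : ℝ) - 1 / 2) / F5_M p := rfl

lemma F5_rr_snd {n : ℕ} (p : Cube n × I) :
    (((F5_rr p).2 : I) : ℝ) = ((p.2 : ℝ) + 1) / F5_M p - 1 := rfl

lemma F5_rr_cont {n : ℕ} : Continuous (F5_rr : Cube n × I → Cube n × I) := by
  refine Continuous.prodMk ?_ ?_
  · refine continuous_pi fun m => ?_
    refine Continuous.subtype_mk ?_ _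
    refine Continuous.add continuous_const (Continuous.div ?_ F5_M_cont fun p => (F5_M_pos p).ne')
    fun_prop
  · refine Continuous.subtype_mk ?_ _
    refine Continuous.sub (Continuous.div ?_ F5_M_cont fun p => (F5_M_pos p).ne') continuous_const
    fun_prop

/-- a point of the boundary is at distance 1/2 from the centre -/
lemma F5_dist_bd {n : ℕ} {y : Cube n} (hy : y ∈ bd n) : dist y (ctr n) = 1 / 2 := by
  refine le_antisymm (F5_dist_le n y) ?_
  obtain ⟨m, hm⟩ := hy
  refine le_trans ?_ (F5_abs_le n y m)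
  rcases hm with hm | hm
  · rw [hm]; norm_num
  · rw [hm]; norm_num

lemma F5_M_bd {n : ℕ} {y : Cube n} (hy : y ∈ bd n) (h : I) : F5_M (y, h) = 1 := by
  unfold F5_M
  rw [F5_dist_bd hy]
  have := h.2.2
  rw [max_eq_left] <;> norm_num
  linarith

lemma F5_M_top {n : ℕ} (y : Cube n) : F5_M (y, (1 : I)) = 1 := by
  unfold F5_M
  have := F5_dist_le n y
  rw [max_eq_right]
  · norm_num
  · norm_num
    linarith

lemma F5_rr_eq_self {n : ℕ} {p : Cube n × I} (h : F5_M p = 1) : F5_rr p = p := by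
  refine Prod.ext ?_ ?_
  · funext m
    apply Subtype.ext
    rw [F5_rr_fst, h]; ring
  · apply Subtype.ext
    rw [F5_rr_snd, h]; ring

/-- the top case -/
lemma F5_rr_top {n : ℕ} {p : Cube n × I} (h : 2 * dist p.1 (ctr n) ≤ ((p.2 : ℝ) + 1) / 2) :
    (F5_rr p).2 = 1 := by
  apply Subtype.ext
  rw [F5_rr_snd]
  have h1 : F5_M p = ((p.2 : ℝ) + 1) / 2 := max_eq_right h
  have h0 := p.2.2.1
  rw [h1]
  have : ((p.2 : ℝ) + 1) ≠ 0 := by linarith
  field_simp
  norm_num

/-- the side case -/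
lemma F5_rr_side {n : ℕ} {p : Cube n × I} (h : ((p.2 : ℝ) + 1) / 2 ≤ 2 * dist p.1 (ctr n)) :
    (F5_rr p).1 ∈ bd n := by
  have h0 := p.2.2.1
  have h1 : F5_M p = 2 * dist p.1 (ctr n) := max_eq_left h
  have h2 : 0 < dist p.1 (ctr n) := by linarith
  -- the sup is attained
  obtain ⟨m, hm⟩ : ∃ m, dist (p.1 m) (ctr n m) = dist p.1 (ctr n) := by
    by_contra hcon
    push Not at hcon
    have h3 : ∀ m, dist (p.1 m) (ctr n m) < dist p.1 (ctr n) := fun m =>
      lt_of_le_of_ne (dist_le_pi_dist _ _ m) (hcon m)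
    have := (dist_pi_lt_iff h2).2 h3
    exact lt_irrefl _ this
  have hm' : |(p.1 m : ℝ) - 1 / 2| = dist p.1 (ctr n) := by
    rw [← hm, Subtype.dist_eq, Real.dist_eq]; rfl
  refine ⟨m, ?_⟩
  rcases abs_cases ((p.1 m : ℝ) - 1 / 2) with h4 | h4
  · right
    apply Subtype.ext
    rw [F5_rr_fst, h1, ← hm', h4.1]
    have h6 : ((p.1 m : ℝ) - 1 / 2) ≠ 0 := by
      rw [← h4.1, hm']; exact h2.ne'
    have h5 : ((p.1 m : ℝ) - 1 / 2) / (2 * ((p.1 m : ℝ) - 1 / 2)) = 1 / 2 := by
      generalize ((p.1 m : ℝ) - 1 / 2) = a at h6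
      field_simp
    rw [h5]; norm_num
  · left
    apply Subtype.ext
    rw [F5_rr_fst, h1, ← hm', h4.1]
    have h6 : ((p.1 m : ℝ) - 1 / 2) ≠ 0 := h4.2.ne
    have h5 : ((p.1 m : ℝ) - 1 / 2) / (2 * -((p.1 m : ℝ) - 1 / 2)) = -1 / 2 := by
      generalize ((p.1 m : ℝ) - 1 / 2) = a at h6
      field_simp
    rw [h5]; norm_num

/-- the contraction of the coordinate y to the centre by the factor h -/
noncomputable def F5_W {n : ℕ} (p : Cube n × I) : Cube n :=
  fun m => ⟨1 / 2 + (p.2 : ℝ) * ((p.1 m : ℝ) - 1 / 2), by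
    have h0 := p.2.2.1
    have h1 := p.2.2.2
    have h2 := (p.1 m).2.1
    have h3 := (p.1 m).2.2
    constructor <;> nlinarith⟩

lemma F5_W_val {n : ℕ} (p : Cube n × I) (m : Fin n) :
    ((F5_W p m : I) : ℝ) = 1 / 2 + (p.2 : ℝ) * ((p.1 m : ℝ) - 1 / 2) := rfl

lemma F5_W_cont {n : ℕ} : Continuous (F5_W : Cube n × I → Cube n) := by
  refine continuous_pi fun m => ?_
  refine Continuous.subtype_mk ?_ _
  fun_prop

lemma F5_W_one {n : ℕ} (y : Cube n) : F5_W (y, (1 : I)) = y := by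
  funext m
  apply Subtype.ext
  rw [F5_W_val]
  simp

/-- the straight line from p to rr p -/
noncomputable def F5_L {n : ℕ} (t : I) (p : Cube n × I) : Cube n × I :=
  (fun m => ⟨(1 - (t : ℝ)) * (p.1 m : ℝ) + (t : ℝ) * ((F5_rr p).1 m : ℝ), by
      have h0 := t.2.1
      have h1 := t.2.2
      have h2 := (p.1 m).2.1
      have h3 := (p.1 m).2.2
      have h4 := ((F5_rr p).1 m).2.1
      have h5 := ((F5_rr p).1 m).2.2
      constructor <;> nlinarith⟩,
    ⟨(1 - (t : ℝ)) * (p.2 : ℝ) + (t : ℝ) * ((F5_rr p).2 : ℝ), by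
      have h0 := t.2.1
      have h1 := t.2.2
      have h2 := p.2.2.1
      have h3 := p.2.2.2
      have h4 := ((F5_rr p).2).2.1
      have h5 := ((F5_rr p).2).2.2
      constructor <;> nlinarith⟩)

lemma F5_L_fst {n : ℕ} (t : I) (p : Cube n × I) (m : Fin n) :
    (((F5_L t p).1 m : I) : ℝ) = (1 - (t : ℝ)) * (p.1 m : ℝ) + (t : ℝ) * ((F5_rr p).1 m : ℝ) := rfl

lemma F5_L_snd {n : ℕ} (t : I) (p : Cube n × I) :
    (((F5_L t p).2 : I) : ℝ) = (1 - (t : ℝ)) * (p.2 : ℝ) + (t : ℝ) * ((F5_rr p).2 : ℝ) := rfl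

lemma F5_L_cont {n : ℕ} : Continuous (fun q : I × (Cube n × I) => F5_L q.1 q.2) := by
  have hr : Continuous (fun q : I × (Cube n × I) => F5_rr q.2) := F5_rr_cont.comp continuous_snd
  refine Continuous.prodMk ?_ ?_
  · refine continuous_pi fun m => ?_
    refine Continuous.subtype_mk ?_ _
    have h1 : Continuous (fun q : I × (Cube n × I) => (((F5_rr q.2).1 m : I) : ℝ)) :=
      continuous_subtype_val.comp ((continuous_apply m).comp (continuous_fst.comp hr))
    have h2 : Continuous (fun q : I × (Cube n × I) => (q.1 : ℝ)) := by fun_prop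
    have h3 : Continuous (fun q : I × (Cube n × I) => (q.2.1 m : ℝ)) := by fun_prop
    exact ((continuous_const.sub h2).mul h3).add (h2.mul h1)
  · refine Continuous.subtype_mk ?_ _
    have h1 : Continuous (fun q : I × (Cube n × I) => (((F5_rr q.2).2 : I) : ℝ)) :=
      continuous_subtype_val.comp (continuous_snd.comp hr)
    have h2 : Continuous (fun q : I × (Cube n × I) => (q.1 : ℝ)) := by fun_prop
    have h3 : Continuous (fun q : I × (Cube n × I) => (q.2.2 : ℝ)) := by fun_prop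
    exact ((continuous_const.sub h2).mul h3).add (h2.mul h1)

lemma F5_L_zero {n : ℕ} (p : Cube n × I) : F5_L 0 p = p := by
  refine Prod.ext ?_ ?_
  · funext m
    apply Subtype.ext
    rw [F5_L_fst]; simp
  · apply Subtype.ext
    rw [F5_L_snd]; simp

lemma F5_L_one {n : ℕ} (p : Cube n × I) : F5_L 1 p = F5_rr p := by
  refine Prod.ext ?_ ?_
  · funext m
    apply Subtype.ext
    rw [F5_L_fst]; simp
  · apply Subtype.ext
    rw [F5_L_snd]; simp

lemma F5_L_self {n : ℕ} (t : I) {p : Cube n × I} (h : F5_M p = 1) : F5_L t p = p := by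
  refine Prod.ext ?_ ?_
  · funext m
    apply Subtype.ext
    rw [F5_L_fst, F5_rr_eq_self h]; ring
  · apply Subtype.ext
    rw [F5_L_snd, F5_rr_eq_self h]; ring

/-- the factor along the ray -/
noncomputable def F5_lam {n : ℕ} (t : I) (p : Cube n × I) : ℝ := 1 - (t : ℝ) + (t : ℝ) / F5_M p

lemma F5_lam_pos {n : ℕ} (t : I) (p : Cube n × I) : 0 < F5_lam t p := by
  unfold F5_lam
  have h0 := t.2.1
  have h1 := t.2.2
  have h2 : (t : ℝ) ≤ (t : ℝ) / F5_M p := by
    rw [le_div_iff₀ (F5_M_pos p)]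
    have := F5_M_le p
    nlinarith
  linarith

lemma F5_L_lam_fst {n : ℕ} (t : I) (p : Cube n × I) (m : Fin n) :
    (((F5_L t p).1 m : I) : ℝ) - 1 / 2 = F5_lam t p * ((p.1 m : ℝ) - 1 / 2) := by
  rw [F5_L_fst, F5_rr_fst]
  unfold F5_lam
  have := (F5_M_pos p).ne'
  field_simp
  ring

lemma F5_L_lam_snd {n : ℕ} (t : I) (p : Cube n × I) :
    (((F5_L t p).2 : I) : ℝ) + 1 = F5_lam t p * ((p.2 : ℝ) + 1) := by
  rw [F5_L_snd, F5_rr_snd]
  unfold F5_lam
  have := (F5_M_pos p).ne'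
  field_simp
  ring

lemma F5_L_dist {n : ℕ} (t : I) (p : Cube n × I) :
    dist (F5_L t p).1 (ctr n) = F5_lam t p * dist p.1 (ctr n) := by
  have hl := F5_lam_pos t p
  have hd : ∀ m, dist ((F5_L t p).1 m) (ctr n m) = F5_lam t p * dist (p.1 m) (ctr n m) := by
    intro m
    rw [Subtype.dist_eq, Subtype.dist_eq, Real.dist_eq, Real.dist_eq]
    show |(((F5_L t p).1 m : I) : ℝ) - 1 / 2| = F5_lam t p * |(p.1 m : ℝ) - 1 / 2|
    rw [F5_L_lam_fst, abs_mul, abs_of_pos hl]
  refine le_antisymm ?_ ?_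
  · refine (dist_pi_le_iff (by positivity)).2 fun m => ?_
    rw [hd]
    exact mul_le_mul_of_nonneg_left (dist_le_pi_dist _ _ m) hl.le
  · rw [mul_comm, ← le_div_iff₀ hl]
    refine (dist_pi_le_iff (by positivity)).2 fun m => ?_
    rw [le_div_iff₀ hl, mul_comm, ← hd]
    exact dist_le_pi_dist _ _ m

lemma F5_L_M {n : ℕ} (t : I) (p : Cube n × I) : F5_M (F5_L t p) = F5_lam t p * F5_M p := by
  have hl := F5_lam_pos t p
  unfold F5_M
  rw [F5_L_dist, F5_L_lam_snd, mul_max_of_nonneg _ _ hl.le]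
  congr 1 <;> ring

lemma F5_rr_L {n : ℕ} (t : I) (p : Cube n × I) : F5_rr (F5_L t p) = F5_rr p := by
  have hl := (F5_lam_pos t p).ne'
  have hM := (F5_M_pos p).ne'
  refine Prod.ext ?_ ?_
  · funext m
    apply Subtype.ext
    rw [F5_rr_fst, F5_rr_fst, F5_L_M, F5_L_lam_fst]
    field_simp
  · apply Subtype.ext
    rw [F5_rr_snd, F5_rr_snd, F5_L_M, F5_L_lam_snd]
    field_simp

lemma F5_cond_L {n : ℕ} (t : I) (p : Cube n × I) :
    (2 * dist (F5_L t p).1 (ctr n) ≤ (((F5_L t p).2 : ℝ) + 1) / 2) ↔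
      (2 * dist p.1 (ctr n) ≤ ((p.2 : ℝ) + 1) / 2) := by
  have hl := F5_lam_pos t p
  rw [F5_L_dist, F5_L_lam_snd]
  constructor
  · intro h
    have : F5_lam t p * (2 * dist p.1 (ctr n)) ≤ F5_lam t p * (((p.2 : ℝ) + 1) / 2) := by
      linarith
    exact le_of_mul_le_mul_left this hl
  · intro h
    have := mul_le_mul_of_nonneg_left h hl.le
    linarith

theorem pr_F5 (h1 : S_F5a) (h2 : S_AdjEx) (h3 : S_AdjDesc) (h4 : S_SDR) (h5 : S_F1)
    (_h6 : S_Basics) : S_F5 := by
  intro n N c C C1 _ _ _ _ _ _ rho ph' i j q1 ph eps e1 hn hrho hne hadj hph hq1 hcph he1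
    hd1 hd2 hFF
  classical
  -- the adjunction space Z
  obtain ⟨Z, _, _, _, i3, V, hZ⟩ := h2 C (Fin N × (Cube n × I)) {p | p.2.1 ∈ bd n}
    (fun p => rho (p.1, F5_W p.2))
    (by
      have h := hadj.closed
      -- bd n is closed
      have hbd : IsClosed (bd n) := by
        have : bd n = ⋃ m : Fin n, ({y | y m = 0} ∪ {y | y m = 1}) := by
          ext y; simp [bd]
        rw [this]
        refine isClosed_iUnion_of_finite fun m => ?_
        exact (isClosed_eq (continuous_apply m) continuous_const).union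
          (isClosed_eq (continuous_apply m) continuous_const)
      exact hbd.preimage (continuous_fst.comp continuous_snd))
    (by
      refine Continuous.continuousOn ?_
      exact hrho.comp (continuous_fst.prodMk (F5_W_cont.comp continuous_snd)))
  -- F5a
  obtain ⟨ka, hkac, hka3, hkaV, hFFZ⟩ := h1 n N c C Z rho (fun p => rho (p.1, F5_W p.2)) i3 V
    (fun z => q1 (i z)) ph eps hn hrho hne hZ
    (by
      intro l y z h _ hz
      show rho (l, F5_W (y, h)) = rho (l, z)
      congr 2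
      funext m
      apply Subtype.ext
      rw [F5_W_val]
      have := hz m
      linarith)
    (hq1.comp hadj.conti) hcph hFF
  -- the map g on the attached part
  set g : Fin N × (Cube n × I) → C1 := fun p =>
    if 2 * dist p.2.1 (ctr n) ≤ ((p.2.2 : ℝ) + 1) / 2 then j (p.1, (F5_rr p.2).1)
      else i (rho (p.1, F5_W (F5_rr p.2))) with hgdef
  have hjbd : ∀ l, ∀ y ∈ bd n, j (l, y) = i (rho (l, y)) := by
    intro l y hy
    rw [hadj.agree (l, y) hy, hph l y hy]
  have hgc : Continuous g := by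
    refine Continuous.if_le ?_ ?_ ?_ ?_ ?_
    · exact hadj.contj.comp (continuous_fst.prodMk
        (continuous_fst.comp (F5_rr_cont.comp continuous_snd)))
    · exact hadj.conti.comp (hrho.comp (continuous_fst.prodMk
        (F5_W_cont.comp (F5_rr_cont.comp continuous_snd))))
    · fun_prop
    · fun_prop
    · intro p hp
      have ht : (F5_rr p.2).2 = 1 := F5_rr_top hp.le
      have hs : (F5_rr p.2).1 ∈ bd n := F5_rr_side hp.ge
      have hW : F5_W (F5_rr p.2) = (F5_rr p.2).1 := by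
        have : F5_rr p.2 = ((F5_rr p.2).1, (1 : I)) := Prod.ext rfl ht
        rw [this, F5_W_one]
      rw [hW, hjbd _ _ hs]
  have hgtop : ∀ p : Fin N × (Cube n × I), 2 * dist p.2.1 (ctr n) ≤ ((p.2.2 : ℝ) + 1) / 2 →
      g p = j (p.1, (F5_rr p.2).1) := by
    intro p hp
    simp only [hgdef]; rw [if_pos hp]
  have hgside : ∀ p : Fin N × (Cube n × I), ¬ (2 * dist p.2.1 (ctr n) ≤ ((p.2.2 : ℝ) + 1) / 2) →
      g p = i (rho (p.1, F5_W (F5_rr p.2))) := by
    intro p hp
    simp only [hgdef]; rw [if_neg hp]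
  have hgbd : ∀ p : Fin N × (Cube n × I), p.2.1 ∈ bd n → g p = i (rho (p.1, F5_W p.2)) := by
    intro p hp
    have hM : F5_M p.2 = 1 := F5_M_bd hp p.2.2
    have hr : F5_rr p.2 = p.2 := F5_rr_eq_self hM
    by_cases hc : 2 * dist p.2.1 (ctr n) ≤ ((p.2.2 : ℝ) + 1) / 2
    · have ht : (F5_rr p.2).2 = 1 := F5_rr_top hc
      rw [hgtop p hc, hr, hjbd _ _ hp]
      rw [hr] at ht
      have : p.2 = (p.2.1, (1 : I)) := Prod.ext rfl ht
      rw [this, F5_W_one]
    · rw [hgside p hc, hr]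
  -- the map u
  obtain ⟨u, huc, hui, huV⟩ := (h3 C (Fin N × (Cube n × I)) Z C1 {p | p.2.1 ∈ bd n}
    (fun p => rho (p.1, F5_W p.2)) i3 V hZ).1 i g hadj.conti hgc hgbd
  -- the section
  obtain ⟨sct, hsc, hsi, hsj⟩ := (h3 C (Fin N × Cube n) C1 Z {p : Fin N × Cube n | p.2 ∈ bd n}
    ph' i j hadj).1 i3 (fun p => V (p.1, (p.2, (1 : I)))) hZ.conti
    (hZ.contj.comp (continuous_fst.prodMk (continuous_snd.prodMk continuous_const)))
    (by
      rintro ⟨l, y⟩ hy
      show V (l, (y, (1 : I))) = i3 (ph' (l, y))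
      rw [hZ.agree (l, (y, (1 : I))) hy, F5_W_one, hph l y hy])
  -- the homotopy
  obtain ⟨K, hKc, hKi, hKV⟩ := (h3 C (Fin N × (Cube n × I)) Z Z {p | p.2.1 ∈ bd n}
    (fun p => rho (p.1, F5_W p.2)) i3 V hZ).2.1 (fun q => i3 q.2)
    (fun q => V (q.2.1, F5_L q.1 q.2.2)) (hZ.conti.comp continuous_snd)
    (by
      refine hZ.contj.comp ((continuous_fst.comp continuous_snd).prodMk ?_)
      exact F5_L_cont.comp (continuous_fst.prodMk (continuous_snd.comp continuous_snd)))
    (by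
      rintro t ⟨l, p⟩ hp
      show V (l, F5_L t p) = i3 (rho (l, F5_W p))
      rw [F5_L_self t (F5_M_bd hp p.2)]
      exact hZ.agree (l, p) hp)
  have hVs : ∀ (l : Fin N) (p : Cube n × I), sct (g (l, p)) = V (l, F5_rr p) := by
    intro l p
    by_cases hc : 2 * dist p.1 (ctr n) ≤ ((p.2 : ℝ) + 1) / 2
    · rw [hgtop (l, p) hc, hsj]
      have ht : (F5_rr p).2 = 1 := F5_rr_top hc
      show V (l, ((F5_rr p).1, (1 : I))) = V (l, F5_rr p)
      rw [← ht]
    · rw [hgside (l, p) hc, hsi]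
      have hs : (F5_rr p).1 ∈ bd n := F5_rr_side (not_le.1 hc).le
      exact (hZ.agree (l, F5_rr p) hs).symm
  have hfs : FineSoft n u := by
    refine h4 n Z C1 u sct K huc hsc hKc ?_ ?_ ?_ ?_
    · intro a
      rcases hZ.surj a with ⟨x, rfl⟩ | ⟨⟨l, p⟩, rfl⟩
      · rw [hKi]
      · rw [hKV, F5_L_zero]
    · intro a
      rcases hZ.surj a with ⟨x, rfl⟩ | ⟨⟨l, p⟩, rfl⟩
      · rw [hKi, hui, hsi]
      · rw [hKV, F5_L_one, huV, hVs]
    · intro b
      rcases hadj.surj b with ⟨x, rfl⟩ | ⟨⟨l, y⟩, rfl⟩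
      · rw [hsi, hui]
      · rw [hsj, huV]
        have hc : 2 * dist y (ctr n) ≤ (((1 : I) : ℝ) + 1) / 2 := by
          have := F5_dist_le n y
          simp only [Set.Icc.coe_one]
          linarith
        rw [hgtop (l, (y, (1 : I))) hc]
        show j (l, (F5_rr (y, (1 : I))).1) = j (l, y)
        rw [F5_rr_eq_self (F5_M_top y)]
    · intro t a
      rcases hZ.surj a with ⟨x, rfl⟩ | ⟨⟨l, p⟩, rfl⟩
      · rw [hKi]
      · rw [hKV, huV, huV]
        show g (l, F5_L t p) = g (l, p)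
        by_cases hc : 2 * dist p.1 (ctr n) ≤ ((p.2 : ℝ) + 1) / 2
        · rw [hgtop (l, p) hc, hgtop (l, F5_L t p) ((F5_cond_L t p).2 hc)]
          show j (l, (F5_rr (F5_L t p)).1) = j (l, (F5_rr p).1)
          rw [F5_rr_L]
        · rw [hgside (l, p) hc, hgside (l, F5_L t p) (fun h => hc ((F5_cond_L t p).1 h))]
          show i (rho (l, F5_W (F5_rr (F5_L t p)))) = i (rho (l, F5_W (F5_rr p)))
          rw [F5_rr_L]
  -- the conclusion
  have key := h5 n c Z C1 (fun z => q1 (i (ka z))) q1 u (fun x => i3 (ph x)) eps e1 huc hfs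
    (by
      intro z
      rcases hZ.surj z with ⟨x, rfl⟩ | ⟨⟨l, p⟩, rfl⟩
      · rw [hui, hka3, c.cpm.self]; exact he1
      · obtain ⟨y', hy'⟩ := hkaV l p
        rw [huV, hy']
        by_cases hc : 2 * dist p.1 (ctr n) ≤ ((p.2 : ℝ) + 1) / 2
        · rw [hgtop (l, p) hc]; exact hd1 l _ _
        · rw [hgside (l, p) hc]; exact hd2 l _ _) hFFZ
  have hph2 : (fun x => u (i3 (ph x))) = fun x => i (ph x) := by
    funext x; exact hui _
  rw [hph2] at key
  exact key

end M202

end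

section

/-!
MP_202a65_gt, item F5a (helper59): (n+1)-cells attached along their sides.
-/

open Set Topology unitInterval Filter

namespace M202

theorem F5a_bdclosed (k : ℕ) : IsClosed (bd k) := by
  have : bd k = ⋃ i : Fin k, ({y | y i = 0} ∪ {y | y i = 1}) := by
    ext y; simp [bd]
  rw [this]
  refine isClosed_iUnion_of_finite fun i => ?_
  exact (isClosed_eq (continuous_apply i) continuous_const).union
    (isClosed_eq (continuous_apply i) continuous_const)

theorem F5a_z (n : ℕ) (y : Cube n) (h : I) :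
    ∃ z : Cube n, ∀ m, (z m : ℝ) - 1 / 2 = (h : ℝ) * ((y m : ℝ) - 1 / 2) := by
  refine ⟨fun m => ⟨1 / 2 + (h : ℝ) * ((y m : ℝ) - 1 / 2), ?_, ?_⟩, fun m => by simp⟩
  · have h1 := h.2.1
    have h2 := h.2.2
    have h3 := (y m).2.1
    nlinarith [mul_nonneg h1 h3]
  · have h1 := h.2.1
    have h2 := h.2.2
    have h3 := (y m).2.2
    nlinarith [mul_nonneg h1 (sub_nonneg.2 h3)]

/-- the intermediate space -/
def F5aC2 {C Z : Type} {n N : ℕ} (i : C → Z) (V : Fin N × (Cube n × I) → Z) : Set Z :=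
  range i ∪ range (fun p : Fin N × Cube n => V (p.1, (p.2, 0)))

def F5ai2 {C Z : Type} {n N : ℕ} (i : C → Z) (V : Fin N × (Cube n × I) → Z) (x : C) :
    ↥(F5aC2 i V) := ⟨i x, Or.inl ⟨x, rfl⟩⟩

def F5aj2 {C Z : Type} {n N : ℕ} (i : C → Z) (V : Fin N × (Cube n × I) → Z)
    (p : Fin N × Cube n) : ↥(F5aC2 i V) := ⟨V (p.1, (p.2, 0)), Or.inr ⟨p, rfl⟩⟩

theorem F5a_closed {C Z : Type} [TopologicalSpace C] [CompactSpace C] [TopologicalSpace Z]
    [T2Space Z] {n N : ℕ} (i : C → Z) (V : Fin N × (Cube n × I) → Z) (hi : Continuous i)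
    (hV : Continuous V) : IsClosed (F5aC2 i V) :=
  (isCompact_range hi).isClosed.union
    (isCompact_range (hV.comp (by fun_prop))).isClosed

/-- hypothesis on ph' -/
def F5aH {C : Type} {n N : ℕ} (rho : Fin N × Cube n → C)
    (ph' : Fin N × (Cube n × I) → C) : Prop :=
  ∀ (l : Fin N) (y z : Cube n) (h : I), y ∈ bd n →
      (∀ m, (z m : ℝ) - 1 / 2 = (h : ℝ) * ((y m : ℝ) - 1 / 2)) → ph' (l, (y, h)) = rho (l, z)

theorem F5a_side {C Z : Type} [TopologicalSpace C] [TopologicalSpace Z] {n N : ℕ}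
    {rho : Fin N × Cube n → C} {ph' : Fin N × (Cube n × I) → C} {i : C → Z}
    {V : Fin N × (Cube n × I) → Z} (hadj : IsAdj {p : Fin N × (Cube n × I) | p.2.1 ∈ bd n} ph' i V)
    (hH : F5aH rho ph') (l : Fin N) (y : Cube n) (hy : y ∈ bd n) (h : I) :
    ∃ z, V (l, (y, h)) = i (rho (l, z)) := by
  obtain ⟨z, hz⟩ := F5a_z n y h
  refine ⟨z, ?_⟩
  rw [hadj.agree _ (show (l, (y, h)) ∈ {p : Fin N × (Cube n × I) | p.2.1 ∈ bd n} from hy),
    hH l y z h hy hz]

/-- step (1) -/
theorem F5a_adj2 {C Z : Type} [TopologicalSpace C] [TopologicalSpace Z] {n N : ℕ}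
    {rho : Fin N × Cube n → C} {ph' : Fin N × (Cube n × I) → C} {i : C → Z}
    {V : Fin N × (Cube n × I) → Z} (hadj : IsAdj {p : Fin N × (Cube n × I) | p.2.1 ∈ bd n} ph' i V)
    (hH : F5aH rho ph') :
    IsAdj {p : Fin N × Cube n | p.2 ∈ bd n} (fun p => rho (p.1, ctr n)) (F5ai2 i V)
      (F5aj2 i V) := by
  refine ⟨(F5a_bdclosed n).preimage continuous_snd, ?_, ?_, ?_, ?_, ?_, ?_, ?_, ?_⟩
  · have : Continuous (fun l : Fin N => rho (l, ctr n)) := continuous_of_discreteTopology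
    exact (this.comp continuous_fst).continuousOn
  · exact Continuous.subtype_mk hadj.conti _
  · exact Continuous.subtype_mk (hadj.contj.comp (by fun_prop)) _
  · intro x x' hx
    exact hadj.inji (congrArg Subtype.val hx)
  · rintro ⟨l, y⟩ hy
    refine Subtype.ext ?_
    show V (l, (y, 0)) = i (rho (l, ctr n))
    rw [hadj.agree _ (show (l, (y, (0 : I))) ∈ {p : Fin N × (Cube n × I) | p.2.1 ∈ bd n} from hy),
      hH l y (ctr n) 0 hy (fun m => by simp [ctr])]
  · rintro ⟨l, y⟩ hy ⟨l', y'⟩ hy' heq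
    have heq' : V (l, (y, 0)) = V (l', (y', 0)) := congrArg Subtype.val heq
    have := hadj.injj (show (l, (y, (0 : I))) ∈ {p : Fin N × (Cube n × I) | p.2.1 ∈ bd n}ᶜ from hy)
      (show (l', (y', (0 : I))) ∈ {p : Fin N × (Cube n × I) | p.2.1 ∈ bd n}ᶜ from hy') heq'
    simp only [Prod.mk.injEq] at this ⊢
    tauto
  · rintro ⟨l, y⟩ hy x heq
    have heq' : V (l, (y, 0)) = i x := congrArg Subtype.val heq
    exact hadj.disj (l, (y, 0)) hy x heq'
  · rintro ⟨z, hz⟩
    rcases hz with ⟨x, rfl⟩ | ⟨p, rfl⟩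
    · exact Or.inl ⟨x, rfl⟩
    · exact Or.inr ⟨p, rfl⟩

theorem F5a_mem {C Z : Type} [TopologicalSpace C] [TopologicalSpace Z] {n N : ℕ}
    {ph' : Fin N × (Cube n × I) → C} {i : C → Z}
    {V : Fin N × (Cube n × I) → Z} (hadj : IsAdj {p : Fin N × (Cube n × I) | p.2.1 ∈ bd n} ph' i V)
    (l : Fin N) (p : Cube n × I) (hp : p.2 = 0 ∨ p.1 ∈ bd n) : V (l, p) ∈ F5aC2 i V := by
  obtain ⟨y, h⟩ := p
  rcases hp with hp | hp
  · have : h = 0 := hp
    subst this
    exact Or.inr ⟨(l, y), rfl⟩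
  · rw [hadj.agree (l, (y, h)) hp]
    exact Or.inl ⟨_, rfl⟩

theorem pr_F5a (h1 : S_F3fam) (h2 : S_F4fam) (h3 : S_V) (h4 : S_AdjDesc) (_h5 : S_Basics) :
    S_F5a := by
  intro n N c C Z _ _ _ _ _ _ rho ph' i V q ph eps hn hrho hfar hadj hH hq hphF hF
  have hH' : F5aH rho ph' := hH
  obtain ⟨v, v1, v2, _, _, v5, v6, v7, v8, v9, v10⟩ := h3 n hn
  have hclosed : IsClosed (F5aC2 i V) := F5a_closed i V hadj.conti hadj.contj
  haveI : CompactSpace ↥(F5aC2 i V) := isCompact_iff_compactSpace.1 hclosed.isCompact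
  have hadj2 := F5a_adj2 hadj hH'
  have hx0 : Continuous (fun p : Fin N × Cube n => rho (p.1, ctr n)) := by
    have : Continuous (fun l : Fin N => rho (l, ctr n)) := continuous_of_discreteTopology
    exact this.comp continuous_fst
  obtain ⟨ka2, k1, k2, k3⟩ := (h4 C (Fin N × Cube n) ↥(F5aC2 i V) C _ _ _ _ hadj2).1 id
    (fun p => rho (p.1, ctr n)) continuous_id hx0 (fun t _ => rfl)
  have hF2 := h1 n N c C ↥(F5aC2 i V) (fun l => rho (l, ctr n)) (F5ai2 i V) (F5aj2 i V) ka2 q ph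
    eps hn (fun l x hx => hfar _ x hx) hadj2 k1 k2 k3 hq hphF hF
  -- the second stage
  let b : Fin N × Cube n → ↥(F5aC2 i V) := fun p =>
    ⟨V (p.1, v (p.2, 0)), F5a_mem hadj p.1 _ (v7 (p.2, 0) (Or.inl rfl))⟩
  have hbc : Continuous b := Continuous.subtype_mk (hadj.contj.comp
    (continuous_fst.prodMk (v1.comp (continuous_snd.prodMk continuous_const)))) _
  have hb : ∀ l y, (∃ z, b (l, y) = F5ai2 i V (rho (l, z))) ∨
      ∃ z, z ∉ bd n ∧ b (l, y) = F5aj2 i V (l, z) := by
    intro l y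
    by_cases hy : (v (y, 0)).1 ∈ bd n
    · obtain ⟨z, hz⟩ := F5a_side hadj hH' l (v (y, 0)).1 hy (v (y, 0)).2
      exact Or.inl ⟨z, Subtype.ext hz⟩
    · right
      refine ⟨(v (y, 0)).1, hy, Subtype.ext ?_⟩
      have h0 : (v (y, 0)).2 = 0 := by
        rcases v7 (y, 0) (Or.inl rfl) with h | h
        · exact h
        · exact absurd h hy
      have h1 : v (y, 0) = ((v (y, 0)).1, 0) := Prod.ext rfl h0
      exact congrArg (fun p => V (l, p)) h1
  have hadj3 : IsAdj {p : Fin N × (Cube n × I) | p.2 ∈ {p : Cube n × I | p.2 = 0 ∨ p.1 ∈ bd n}}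
      (fun p => b (p.1, p.2.1)) (Subtype.val : ↥(F5aC2 i V) → Z)
      (fun p : Fin N × (Cube n × I) => V (p.1, v p.2)) := by
    have c1 : Continuous (fun p : Fin N × (Cube n × I) => p.2.1) := by fun_prop
    have c2 : Continuous (fun p : Fin N × (Cube n × I) => p.2.2) := by fun_prop
    refine ⟨?_, ?_, ?_, ?_, ?_, ?_, ?_, ?_, ?_⟩
    · exact (isClosed_eq c2 continuous_const).union ((F5a_bdclosed n).preimage c1)
    · exact (hbc.comp (by fun_prop)).continuousOn
    · exact continuous_subtype_val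
    · exact hadj.contj.comp (continuous_fst.prodMk (v1.comp continuous_snd))
    · exact Subtype.val_injective
    · rintro ⟨l, y, s⟩ hp
      show V (l, v (y, s)) = V (l, v (y, 0))
      rcases hp with hp | hp
      · have : s = 0 := hp
        rw [this]
      · rw [v5 y hp, v5 y hp]
    · rintro ⟨l, p⟩ hp ⟨l', p'⟩ hp' heq
      have w1 := v8 p hp
      have w2 := v8 p' hp'
      have heq' : V (l, v p) = V (l', v p') := heq
      have := hadj.injj (show (l, v p) ∈ {p : Fin N × (Cube n × I) | p.2.1 ∈ bd n}ᶜ from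
        fun h => w1 (Or.inr h)) (show (l', v p') ∈ {p : Fin N × (Cube n × I) | p.2.1 ∈ bd n}ᶜ from
        fun h => w2 (Or.inr h)) heq'
      have e1 : l = l' := congrArg Prod.fst this
      have e2 : v p = v p' := congrArg Prod.snd this
      rw [e1, v9 p p' e2 w1]
    · rintro ⟨l, p⟩ hp ⟨z, hz⟩ heq
      have w1 := v8 p hp
      have n1 : (l, v p) ∉ {p : Fin N × (Cube n × I) | p.2.1 ∈ bd n} := fun h => w1 (Or.inr h)
      have heq' : V (l, v p) = z := heq
      rcases hz with ⟨x, rfl⟩ | ⟨⟨l', y'⟩, rfl⟩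
      · exact hadj.disj _ n1 x heq'
      · have heq'' : V (l, v p) = V (l', (y', 0)) := heq'
        by_cases hy' : y' ∈ bd n
        · rw [hadj.agree (l', (y', 0)) hy'] at heq''
          exact hadj.disj _ n1 _ heq''
        · have := hadj.injj n1 (show (l', (y', (0 : I))) ∈
            {p : Fin N × (Cube n × I) | p.2.1 ∈ bd n}ᶜ from hy') heq''
          have e2 : v p = (y', 0) := congrArg Prod.snd this
          exact w1 (Or.inl (by rw [e2]))
    · intro z
      rcases hadj.surj z with ⟨x, rfl⟩ | ⟨⟨l, p⟩, rfl⟩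
      · exact Or.inl ⟨⟨i x, Or.inl ⟨x, rfl⟩⟩, rfl⟩
      · obtain ⟨p', rfl⟩ := v2 p
        exact Or.inr ⟨(l, p'), rfl⟩
  obtain ⟨ka3, m1, m2, m3⟩ := (h4 ↥(F5aC2 i V) (Fin N × (Cube n × I)) Z ↥(F5aC2 i V) _ _ _ _
    hadj3).1 id (fun p => b (p.1, p.2.1)) continuous_id (hbc.comp (by fun_prop))
    (fun t _ => rfl)
  have hi2 : Continuous (F5ai2 i V) := hadj2.conti
  have hfar2 : ∀ y, ∀ x ∈ c.F, b y ≠ F5ai2 i V (ph x) := by
    rintro ⟨l, y⟩ x hx heq
    rcases hb l y with ⟨z, hz⟩ | ⟨z, hz, hz'⟩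
    · rw [hz] at heq
      exact hfar _ x hx (hadj2.inji heq)
    · rw [hz'] at heq
      exact hadj2.disj (l, z) hz _ heq
  have hF3 := h2 n n N c ↥(F5aC2 i V) Z b Subtype.val (fun p => V (p.1, v p.2)) ka3
    (fun z => q (ka2 z)) (fun x => F5ai2 i V (ph x)) eps hn le_rfl hbc hfar2 hadj3 m1 m2 m3
    (hq.comp k1) (hi2.comp_continuousOn hphF) hF2
  refine ⟨fun z => ka2 (ka3 z), k1.comp m1, ?_, ?_, hF3⟩
  · intro x
    have : ka3 (i x) = F5ai2 i V x := m2 (F5ai2 i V x)
    show ka2 (ka3 (i x)) = x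
    rw [this]
    exact k2 x
  · intro l p
    obtain ⟨p', rfl⟩ := v2 p
    have : ka3 (V (l, v p')) = b (l, p'.1) := m3 (l, p')
    show ∃ y, ka2 (ka3 (V (l, v p'))) = rho (l, y)
    rw [this]
    rcases hb l p'.1 with ⟨z, hz⟩ | ⟨z, hz, hz'⟩
    · exact ⟨z, by rw [hz]; exact k2 _⟩
    · exact ⟨ctr n, by rw [hz']; exact k3 _⟩

end M202

end

section

/-!
MP_202a65_gt, item F6: attaching (n+1)-cells (helper69).
-/

open Set Topology unitInterval

namespace M202

theorem F6_cone_mem {m : ℕ} (a : Cube m) (t : I) (i : Fin m) :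
    1 / 2 + (1 - (t : ℝ)) * ((a i : ℝ) - 1 / 2) ∈ Icc (0 : ℝ) 1 := by
  have h1 := (a i).2.1
  have h2 := (a i).2.2
  have h3 := t.2.1
  have h4 := t.2.2
  constructor
  · nlinarith
  · nlinarith

noncomputable def F6_cone (m : ℕ) (p : ↥(bd m) × I) : Cube m :=
  fun i => ⟨_, F6_cone_mem (p.1 : Cube m) p.2 i⟩

theorem F6_cone_cont (m : ℕ) : Continuous (F6_cone m) := by
  refine continuous_pi fun i => ?_
  unfold F6_cone
  refine Continuous.subtype_mk ?_ _
  have hc : Continuous (fun p : ↥(bd m) × I => (((p.1 : Cube m) i : unitInterval) : ℝ)) :=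
    continuous_subtype_val.comp ((continuous_apply i).comp
      (continuous_subtype_val.comp continuous_fst))
  have ht : Continuous (fun p : ↥(bd m) × I => ((p.2 : unitInterval) : ℝ)) :=
    continuous_subtype_val.comp continuous_snd
  exact continuous_const.add ((continuous_const.sub ht).mul (hc.sub continuous_const))

theorem F6_cone_zero (m : ℕ) (a : ↥(bd m)) : F6_cone m (a, 0) = a := by
  funext i
  apply Subtype.ext
  show 1 / 2 + (1 - ((0 : unitInterval) : ℝ)) * (((a : Cube m) i : ℝ) - 1 / 2) = _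
  have : ((0 : unitInterval) : ℝ) = 0 := rfl
  rw [this]
  ring

theorem F6_bd_closed (m : ℕ) : IsClosed (bd m) := by
  have : bd m = ⋃ i : Fin m, ({y : Cube m | y i = 0} ∪ {y | y i = 1}) := by
    ext y
    simp [bd]
  rw [this]
  refine isClosed_iUnion_of_finite fun i => ?_
  exact (isClosed_eq (continuous_apply i) continuous_const).union
    (isClosed_eq (continuous_apply i) continuous_const)

theorem pr_F6 (h1 : S_F6fam) (h2 : S_SphCollapse) (h3 : S_AdjEx) (h4 : S_AdjDesc) (h5 : S_F1)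
    (h6 : S_Basics) : S_F6 := by
  intro n N c C C1 _ _ _ _ _ _ ph' i j q1 ph eps e1 hn hne hfr hadj hq1 hph he1 hsm hFF
  haveI : CompactSpace ↥(bd (n + 1)) :=
    isCompact_iff_compactSpace.1 (F6_bd_closed (n + 1)).isCompact
  let g : Fin N × ↥(bd (n + 1)) → C := fun p => ph' (p.1, (p.2 : Cube (n + 1)))
  have hg : Continuous g := by
    refine hadj.contph.comp_continuous
      (continuous_fst.prodMk (continuous_subtype_val.comp continuous_snd)) ?_
    intro p
    exact p.2.2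
  have hgc : Continuous (fun p : Fin N × (↥(bd (n + 1)) × I) => g (p.1, p.2.1)) :=
    hg.comp (continuous_fst.prodMk (continuous_fst.comp continuous_snd))
  have hAcl : IsClosed {p : Fin N × (↥(bd (n + 1)) × I) |
      p.2 ∈ {p : ↥(bd (n + 1)) × I | p.2 = 0}} := by
    have : IsClosed {p : Fin N × (↥(bd (n + 1)) × I) | p.2.2 = 0} :=
      isClosed_eq (continuous_snd.comp continuous_snd) continuous_const
    exact this
  obtain ⟨Cp, _, _, _, ip, jp, hadjp⟩ := h3 C (Fin N × (↥(bd (n + 1)) × I))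
    {p : Fin N × (↥(bd (n + 1)) × I) | p.2 ∈ {p : ↥(bd (n + 1)) × I | p.2 = 0}}
    (fun p => g (p.1, p.2.1)) hAcl hgc.continuousOn
  obtain ⟨kap, hkap, hkapi, hkapj⟩ := (h4 C (Fin N × (↥(bd (n + 1)) × I)) Cp C
    {p : Fin N × (↥(bd (n + 1)) × I) | p.2 ∈ {p : ↥(bd (n + 1)) × I | p.2 = 0}}
    (fun p => g (p.1, p.2.1)) ip jp hadjp).1 (fun x => x) (fun p => g (p.1, p.2.1))
    continuous_id hgc (fun _ _ => rfl)
  have hqc : Continuous (fun z => q1 (i z)) := hq1.comp hadj.conti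
  have hFFp : FF c (fun z => q1 (i (kap z))) (fun x => ip (ph x)) eps :=
    h1 n N c C Cp g ip jp kap (fun z => q1 (i z)) ph eps hn hg
      (fun y x hx => hfr y.1 y.2 y.2.2 x hx) hadjp hkap hkapi hkapj hqc hph hFF
  have hjc : Continuous (fun p : Fin N × (↥(bd (n + 1)) × I) =>
      j (p.1, F6_cone (n + 1) p.2)) :=
    hadj.contj.comp (continuous_fst.prodMk ((F6_cone_cont (n + 1)).comp continuous_snd))
  obtain ⟨u, hu, hui, huj⟩ := (h4 C (Fin N × (↥(bd (n + 1)) × I)) Cp C1
    {p : Fin N × (↥(bd (n + 1)) × I) | p.2 ∈ {p : ↥(bd (n + 1)) × I | p.2 = 0}}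
    (fun p => g (p.1, p.2.1)) ip jp hadjp).1 i (fun p => j (p.1, F6_cone (n + 1) p.2))
    hadj.conti hjc (by
      rintro ⟨l, a, t⟩ ht
      have ht' : t = 0 := ht
      subst ht'
      show j (l, F6_cone (n + 1) (a, 0)) = i (ph' (l, (a : Cube (n + 1))))
      rw [F6_cone_zero]
      exact hadj.agree (l, (a : Cube (n + 1))) a.2)
  have hufs : FineSoft n u := by
    refine h2 n N C C1 Cp ph' i j ip jp u hne hadj hadjp hu hui ?_
    intro l a t z hz
    rw [huj]
    show j (l, F6_cone (n + 1) (a, t)) = j (l, z)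
    have : F6_cone (n + 1) (a, t) = z := by
      funext m
      apply Subtype.ext
      show 1 / 2 + (1 - (t : ℝ)) * (((a : Cube (n + 1)) m : ℝ) - 1 / 2) = z m
      rw [← hz m]
      ring
    rw [this]
  have hclose : ∀ z, c.dY (q1 (u z)) (q1 (i (kap z))) ≤ e1 := by
    intro z
    rcases hadjp.surj z with ⟨x, rfl⟩ | ⟨⟨l, a, t⟩, rfl⟩
    · rw [hui, hkapi, c.cpm.self]
      exact he1
    · rw [huj, hkapj]
      have : i (g (l, a)) = j (l, (a : Cube (n + 1))) :=
        (hadj.agree (l, (a : Cube (n + 1))) a.2).symm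
      show c.dY (q1 (j (l, F6_cone (n + 1) (a, t)))) (q1 (i (g (l, a)))) ≤ e1
      rw [this]
      exact hsm _ _ _
  have hfin := h5 n c Cp C1 (fun z => q1 (i (kap z))) q1 u (fun x => ip (ph x)) eps e1 hu hufs
    hclose hFFp
  have : (fun x => u (ip (ph x))) = fun x => i (ph x) := funext fun x => hui _
  rw [this] at hfin
  exact hfin

end M202

end

section

/-!
MP_202a65_gt, item F6fam: families of cylinders over spheres (helper69). The lemma F6fam_gen is
the general statement for families of copies of (T1, A1), attached along maps which factor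
through B.
-/

open Set Topology unitInterval

namespace M202

/-- a homeomorphism is fine soft -/
theorem F6fam_homeo (hB : S_Basics) (n : ℕ) (C Z : Type) [TopologicalSpace C]
    [TopologicalSpace Z] (i : C → Z) (ka : Z → C) (hi : Continuous i) (hka : Continuous ka)
    (h1 : ∀ x, ka (i x) = x) (h2 : ∀ z, i (ka z) = z) : FineSoft n i := by
  refine hB.2.2.2.1 n C Z i hi ?_
  intro D hD m _ eta' heta' be al hbe _ hag
  refine ⟨fun x => ka (be x), fun p => be p.2, hka.comp hbe, hbe.comp continuous_snd, ?_, ?_,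
    ?_, ?_, ?_⟩
  · intro x hx
    show ka (be x) = al x
    rw [← hag x hx, h1]
  · intro t x _
    rfl
  · intro x
    show be x = i (ka (be x))
    rw [h2]
  · intro x
    rfl
  · intro t x
    show D (be x) (be x) ≤ eta'
    rw [hD.self]
    exact heta'.le

theorem F6fam_gen (h1 : S_F2) (h2 : S_AdjSplit) (h4 : S_AdjDesc) (h5 : S_F1) (h6 : S_Basics)
    (n : ℕ) (c : TCtx n) (T1 B : Type) [TopologicalSpace T1] [CompactSpace T1] [T2Space T1]
    [TopologicalSpace B] [CompactSpace B] [T2Space B] (A1 : Set T1) (cc : A1 × I → T1)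
    (pr : T1 → B) (hTP : TP n c.X c.s T1 B A1 pr) (hBL : BLift n B) (hA1 : IsClosed A1)
    (hcc : IsCollar A1 cc) (hpr : Continuous pr) (hprc : ∀ a t, pr (cc (a, t)) = pr a) :
    ∀ (N : ℕ) (C Z : Type) [TopologicalSpace C] [CompactSpace C] [T2Space C]
      [TopologicalSpace Z] [CompactSpace Z] [T2Space Z] (g : Fin N × B → C) (i : C → Z)
      (j : Fin N × T1 → Z) (ka : Z → C) (q : C → c.Y) (ph : c.X c.b0 → C) (eps : ℝ),
      Continuous g → (∀ y, ∀ x ∈ c.F, g y ≠ ph x) →
      IsAdj {p : Fin N × T1 | p.2 ∈ A1} (fun p => g (p.1, pr p.2)) i j → Continuous ka →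
      (∀ x, ka (i x) = x) → (∀ p, ka (j p) = g (p.1, pr p.2)) → Continuous q →
      ContinuousOn ph c.F → FF c q ph eps → FF c (fun z => q (ka z)) (fun x => i (ph x)) eps := by
  intro N
  induction N with
  | zero =>
    intro C Z _ _ _ _ _ _ g i j ka q ph eps hg hfr hadj hka hkai hkaj hq hph hFF
    have hs : ∀ z, i (ka z) = z := by
      intro z
      rcases hadj.surj z with ⟨x, rfl⟩ | ⟨p, -⟩
      · rw [hkai]
      · exact p.1.elim0
    have hfs : FineSoft n i := F6fam_homeo h6 n C Z i ka hadj.conti hka hkai hs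
    have := h5 n c C Z q (fun z => q (ka z)) i ph eps 0 hadj.conti hfs (by
      intro z
      show c.dY (q (ka (i z))) (q z) ≤ 0
      rw [hkai, c.cpm.self]) hFF
    rw [add_zero] at this
    exact this
  | succ N ih =>
    intro C Z _ _ _ _ _ _ g i j ka q ph eps hg hfr hadj hka hkai hkaj hq hph hFF
    obtain ⟨C', _, _, _, i', j', i'', j'', hadj1, hadj2, hi1, hj1, hj2⟩ :=
      h2 N C T1 Z A1 (fun p => g (p.1, pr p.2)) i j hadj
    have hka'c : Continuous (fun z => ka (i'' z)) := hka.comp hadj2.conti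
    have hka'i : ∀ x, ka (i'' (i' x)) = x := by
      intro x
      rw [hi1, hkai]
    have hka'j : ∀ p : Fin N × T1, ka (i'' (j' p)) = g (p.1.castSucc, pr p.2) := by
      rintro ⟨l, t⟩
      rw [hj1, hkaj]
    have hg' : Continuous (fun p : Fin N × B => g (p.1.castSucc, p.2)) :=
      hg.comp ((continuous_of_discreteTopology.comp continuous_fst).prodMk continuous_snd)
    have hFF' := ih C C' (fun p => g (p.1.castSucc, p.2)) i' j' (fun z => ka (i'' z)) q ph eps
      hg' (fun y x hx => hfr _ x hx) hadj1 hka'c hka'i hka'j hq hph hFF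
    have hgl : Continuous (fun y : B => i' (g (Fin.last N, y))) :=
      hadj1.conti.comp (hg.comp (continuous_const.prodMk continuous_id))
    obtain ⟨ka'', hka''c, hka''i, hka''j⟩ := (h4 C' T1 Z C' A1
      (fun t => i' (g (Fin.last N, pr t))) i'' j'' hadj2).1 (fun x => x)
      (fun t => i' (g (Fin.last N, pr t))) continuous_id (hgl.comp hpr) (fun _ _ => rfl)
    have hfin := h1 n c C' T1 B Z A1 cc pr (fun y => i' (g (Fin.last N, y))) i'' j'' ka''
      (fun z => q (ka (i'' z))) (fun x => i' (ph x)) eps hTP hBL hA1 hcc hpr hprc hgl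
      (fun y x hx h => hfr _ x hx (hadj1.inji h)) hadj2 hka''c hka''i hka''j
      (hq.comp hka'c) (hadj1.conti.comp_continuousOn hph) hFF'
    have huniq : (fun z => ka (i'' (ka'' z))) = ka := by
      refine (h4 C' T1 Z C A1 (fun t => i' (g (Fin.last N, pr t))) i'' j'' hadj2).2.2.1 _ _ ?_ ?_
      · intro x
        show ka (i'' (ka'' (i'' x))) = ka (i'' x)
        rw [hka''i]
      · intro t
        show ka (i'' (ka'' (j'' t))) = ka (j'' t)
        rw [hka''j, hka'i, hj2, hkaj]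
    have e1 : (fun z => q (ka (i'' (ka'' z)))) = fun z => q (ka z) := by
      funext z
      exact congrArg q (congrFun huniq z)
    have e2 : (fun x => i'' (i' (ph x))) = fun x => i (ph x) := funext fun x => hi1 _
    rw [e2] at hfin
    exact e1 ▸ hfin

theorem F6fam_bd_closed (m : ℕ) : IsClosed (bd m) := by
  have : bd m = ⋃ i : Fin m, ({y : Cube m | y i = 0} ∪ {y | y i = 1}) := by
    ext y
    simp [bd]
  rw [this]
  refine isClosed_iUnion_of_finite fun i => ?_
  exact (isClosed_eq (continuous_apply i) continuous_const).union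
    (isClosed_eq (continuous_apply i) continuous_const)

/-- the collar of the bottom of a cylinder -/
theorem F6fam_collar (B : Type) [TopologicalSpace B] :
    IsCollar {p : B × I | p.2 = 0} (fun p => (p.1.1.1, p.2)) := by
  refine ⟨?_, ?_, ?_, ?_⟩
  · exact (continuous_fst.comp (continuous_subtype_val.comp continuous_fst)).prodMk continuous_snd
  · rintro ⟨⟨⟨a, s⟩, hs⟩, t⟩ ⟨⟨⟨a', s'⟩, hs'⟩, t'⟩ h
    have hs0 : s = 0 := hs
    have hs0' : s' = 0 := hs'
    subst hs0
    subst hs0'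
    simp only [Prod.mk.injEq] at h
    obtain ⟨rfl, rfl⟩ := h
    rfl
  · rintro ⟨⟨a, s⟩, hs⟩
    have hs0 : s = 0 := hs
    subst hs0
    rfl
  · have : (fun p : ↥{p : B × I | p.2 = 0} × I => ((p.1.1.1, p.2) : B × I)) '' {p | p.2 < 1} =
        {p : B × I | p.2 < 1} := by
      ext ⟨b, t⟩
      constructor
      · rintro ⟨p, hp, h⟩
        rw [← h]
        exact hp
      · intro h
        exact ⟨(⟨(b, 0), rfl⟩, t), h, rfl⟩
    rw [this]
    exact isOpen_lt continuous_snd continuous_const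

theorem pr_F6fam (h1 : S_F2) (h2 : S_AdjSplit) (h3 : S_BLift) (h4 : S_AdjDesc) (h5 : S_F1)
    (h6 : S_Basics) : S_F6fam := by
  intro n N c C Z _ _ _ _ _ _ g i j ka q ph eps _ hg hfr hadj hka hkai hkaj hq hph hFF
  have : CompactSpace ↥(bd (n + 1)) :=
    isCompact_iff_compactSpace.1 (F6fam_bd_closed (n + 1)).isCompact
  exact F6fam_gen h1 h2 h4 h5 h6 n c (↥(bd (n + 1)) × I) (↥(bd (n + 1))) {p | p.2 = 0}
    (fun p => (p.1.1.1, p.2)) Prod.fst c.tower.cylS (h3 n).2.1
    (isClosed_eq continuous_snd continuous_const) (F6fam_collar _) continuous_fst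
    (fun _ _ => rfl) N C Z g i j ka q ph eps hg hfr hadj hka hkai hkaj hq hph hFF

end M202

end

section

/-!
MP_202a65_gt (captain helper47), item RCAppend (helper43).
-/

open Set Topology unitInterval Filter

namespace M202

theorem rcAppend_append {R : Type} [TopologicalSpace R] {P : Set R → Prop} {C C1 : Set R}
    {ka : List ℕ} (h : RC P C ka C1) :
    ∀ (C2 : Set R) (ka' : List ℕ), RC P C1 ka' C2 → RC P C (ka ++ ka') C2 := by
  induction h with
  | nil C hC => intro C2 ka' h2; simpa using h2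
  | cons C C1 C2 k ka N e hA hP _ ih =>
    intro C3 ka' h2
    exact RC.cons C C1 C3 k (ka ++ ka') N e hA hP (ih C3 ka' h2)

theorem rcAppend_mono {R : Type} [TopologicalSpace R] {P P' : Set R → Prop}
    (hPP : ∀ e, P e → P' e) {C C1 : Set R} {ka : List ℕ} (h : RC P C ka C1) :
    RC P' C ka C1 := by
  induction h with
  | nil C hC => exact RC.nil C hC
  | cons C C1 C2 k ka N e hA hP _ ih =>
    exact RC.cons C C1 C2 k ka N e hA (fun j => hPP _ (hP j)) ih

theorem rcAppend_sub {R : Type} [TopologicalSpace R] {P : Set R → Prop} {C C1 : Set R}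
    {ka : List ℕ} (h : RC P C ka C1) : IsClosed C ∧ C ⊆ C1 := by
  induction h with
  | nil C hC => exact ⟨hC, Subset.rfl⟩
  | cons C C1 C2 k ka N e hA hP _ ih =>
    refine ⟨hA.closed, Subset.trans ?_ ih.2⟩
    rw [hA.union]
    exact subset_union_left

theorem pr_RCAppend : S_RCAppend :=
  ⟨fun _ _ _ _ _ C2 _ ka' h1 h2 => rcAppend_append h1 C2 ka' h2,
    fun _ _ _ _ _ _ _ hPP h => rcAppend_mono hPP h, fun _ _ _ _ _ _ h => rcAppend_sub h⟩

end M202

end

section

/-!
MP_202a65_gt (captain helper47), item RCUnion (helper43).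
-/

open Set Topology unitInterval Filter

namespace M202

theorem rcUnion_att {R R' : Type} [TopologicalSpace R] [CompactSpace R] [TopologicalSpace R']
    [T2Space R'] {i : R → R'} {C C1 : Set R} {V : Set R'} (hi : Continuous i)
    (hinj : Function.Injective i) (hV : IsClosed V) (hVC : ∀ z, i z ∈ V → z ∈ C) {k N : ℕ}
    {e : Fin N → Cube k → R} (hA : Att C C1 k N e) :
    Att (V ∪ i '' C) (V ∪ i '' C1) k N (fun j y => i (e j y)) where
  closed := hV.union ((hA.closed.isCompact.image hi).isClosed)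
  cont := fun j => hi.comp (hA.cont j)
  bdry := fun j y hy => Or.inr ⟨_, hA.bdry j y hy, rfl⟩
  inj := fun j j' y y' hy hy' h => hA.inj j j' y y' hy hy' (hinj h)
  disj := by
    rintro j y hy (h | ⟨z, hz, hzz⟩)
    · exact hA.disj j y hy (hVC _ h)
    · rw [hinj hzz] at hz
      exact hA.disj j y hy hz
  union := by
    rw [hA.union, image_union, image_iUnion, union_assoc]
    congr 1
    congr 1
    refine iUnion_congr fun j => ?_
    rw [← range_comp]
    rfl

theorem pr_RCUnion : S_RCUnion := by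
  intro R R' _ _ _ _ _ _ i P P' C C2 V ka hi hinj hV hVC hPP h
  induction h with
  | nil C hC => exact RC.nil _ (hV.union ((hC.isCompact.image hi).isClosed))
  | cons C C1 C2 k ka N e hA hP _ ih =>
    have hsub : C ⊆ C1 := by
      rw [hA.union]
      exact subset_union_left
    refine RC.cons _ (V ∪ i '' C1) _ k ka N (fun j y => i (e j y))
      (rcUnion_att hi hinj hV hVC hA) (fun j => ?_) (ih fun z hz => hsub (hVC z hz))
    have := hPP _ (hP j)
    rwa [← range_comp] at this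

end M202

end

section

/-!
MP_202a65_gt (captain helper47): item SoftExt (softness extends over high dimensional cells).
-/

open Set Topology unitInterval Filter

namespace M202

theorem softExt_closed_bd (m : ℕ) : IsClosed (bd m) := by
  have : bd m = ⋃ i : Fin m, ({y : Cube m | y i = 0} ∪ {y : Cube m | y i = 1}) := by
    ext y
    simp only [bd, mem_iUnion, mem_union]
    rfl
  rw [this]
  refine isClosed_iUnion_of_finite (fun i => ?_)
  exact (isClosed_eq (continuous_apply i) continuous_const).union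
    (isClosed_eq (continuous_apply i) continuous_const)

/-- the reversed, doubled parameter 1 - 2t, clamped -/
noncomputable def softExt_par (t : I) : I := projIcc (0 : ℝ) 1 zero_le_one (1 - 2 * (t : ℝ))

theorem softExt_par_cont : Continuous softExt_par := by
  unfold softExt_par
  exact continuous_projIcc.comp (by fun_prop)

theorem softExt_par_zero : softExt_par 0 = 1 := by
  unfold softExt_par
  have h : (1 : ℝ) ≤ 1 - 2 * ((0 : I) : ℝ) := by simp
  rw [projIcc_of_right_le zero_le_one h]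
  rfl

theorem softExt_par_ge (t : I) (ht : 1 / 2 ≤ (t : ℝ)) : softExt_par t = 0 := by
  unfold softExt_par
  have h : 1 - 2 * (t : ℝ) ≤ 0 := by linarith
  rw [projIcc_of_le_left zero_le_one h]
  rfl

theorem softExt_par_le (t s : I) (hs : (s : ℝ) = 1 - 2 * t) : softExt_par t = s := by
  unfold softExt_par
  rw [← hs]
  exact projIcc_val zero_le_one s

open Classical in
theorem pr_SoftExt (h1 : S_Push) (h2 : S_DimH) (h3 : S_TL) (h4 : S_SoftOfRel) (_h5 : S_UC) :
    S_SoftExt := by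
  intro n k N R Y _ _ _ _ dY C C1 e q de hn hnk hD hq hatt hde hcell hsoft
  have hq1 : Continuous (fun z : ↥C1 => q z) := hq.comp continuous_subtype_val
  refine h4 n (↥C1) Y dY (2 * de) (fun z : ↥C1 => q z) hD hq1 ?_
  intro m hm eta' heta' be al hbe hal hth
  have hk1 : 1 ≤ k := le_trans hn hnk
  have hCC1 : C ⊆ C1 := by
    rw [hatt.union]; exact subset_union_left
  have heC1 : ∀ j y, e j y ∈ C1 := by
    intro j y
    rw [hatt.union]
    exact Or.inr (mem_iUnion.2 ⟨j, y, rfl⟩)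
  have hmem : ∀ z ∈ C1, z ∈ C ∨ ∃ j, z ∈ range (e j) := by
    intro z hz
    rw [hatt.union] at hz
    rcases hz with hz | hz
    · exact Or.inl hz
    · exact Or.inr (mem_iUnion.1 hz)
  -- C is nonempty
  have hCne : Nonempty ↥C := by
    rcases hmem _ (al (fun _ => 0)).2 with hx | ⟨j, _⟩
    · exact ⟨⟨_, hx⟩⟩
    · exact ⟨⟨e j (fun _ => 0), hatt.bdry j _ ⟨⟨0, hk1⟩, Or.inl rfl⟩⟩⟩
  -- push
  obtain ⟨K, hKc, hK0, hK1, hKC, hKj⟩ := h1 R C C1 k N e m (bd m) (fun x => (al x : R)) hatt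
    (softExt_closed_bd m) (h2.2.2.2.1 m k (le_trans hm hnk) hk1)
    (continuous_subtype_val.comp_continuousOn hal) (fun x _ => (al x).2)
  have hKC1 : ∀ t, ∀ x ∈ bd m, K (t, x) ∈ C1 := by
    intro t x hx
    by_cases hc : (al x : R) ∈ C
    · rw [hKC t x hx hc]; exact (al x).2
    · rcases hmem _ (al x).2 with hx1 | ⟨j, hj⟩
      · exact absurd hx1 hc
      · obtain ⟨y, hy⟩ := hKj t x hx j hj hc
        rw [← hy]; exact heC1 j y
  have hKd : ∀ t, ∀ x ∈ bd m, dY (q (K (t, x))) (be x) ≤ de := by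
    intro t x hx
    rw [← hth x hx]
    by_cases hc : (al x : R) ∈ C
    · rw [hKC t x hx hc, hD.self]; exact hde
    · rcases hmem _ (al x).2 with hx1 | ⟨j, hj⟩
      · exact absurd hx1 hc
      · obtain ⟨y, hy⟩ := hKj t x hx j hj hc
        obtain ⟨y', hy'⟩ := hj
        have := hcell j y y'
        rw [hy, hy'] at this
        exact this
  -- the data for the softness of q|C
  set eta1 : ℝ := de + (eta' - 2 * de) / 2 with heta1
  have he1 : de < eta1 := by rw [heta1]; linarith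
  obtain ⟨c0⟩ := hCne
  let al2 : Cube m → ↥C := fun x => if h : K (1, x) ∈ C then ⟨K (1, x), h⟩ else c0
  have hal2v : ∀ x ∈ bd m, (al2 x : R) = K (1, x) := by
    intro x hx
    show ((if h : K (1, x) ∈ C then (⟨K (1, x), h⟩ : ↥C) else c0 : ↥C) : R) = K (1, x)
    rw [dif_pos (hK1 x hx)]
  have hal2c : ContinuousOn al2 (bd m) := by
    rw [Topology.IsInducing.subtypeVal.continuousOn_iff]
    have : ContinuousOn (fun x : Cube m => K (1, x)) (bd m) :=
      hKc.comp (by fun_prop) (fun x hx => ⟨mem_univ _, hx⟩)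
    exact this.congr (fun x hx => hal2v x hx)
  let ga : I × Cube m → Y := fun p => q (K (softExt_par p.1, p.2))
  have hgac : ContinuousOn ga (univ ×ˢ bd m) := by
    refine hq.comp_continuousOn ?_
    refine hKc.comp ?_ (fun p hp => ⟨mem_univ _, hp.2⟩)
    exact ((softExt_par_cont.comp continuous_fst).prodMk continuous_snd).continuousOn
  have hga0 : ∀ x ∈ bd m, ga (0, x) = q (al2 x) := by
    intro x hx
    show q (K (softExt_par 0, x)) = _
    rw [softExt_par_zero, hal2v x hx]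
  have hgage : ∀ (t : I), 1 / 2 ≤ (t : ℝ) → ∀ x ∈ bd m, ga (t, x) = be x := by
    intro t ht x hx
    show q (K (softExt_par t, x)) = _
    rw [softExt_par_ge t ht, hK0 x hx]
    exact hth x hx
  have hga1 : ∀ x ∈ bd m, ga (1, x) = be x := by
    intro x hx
    exact hgage 1 (by norm_num) x hx
  obtain ⟨al1, G, hal1c, hGc, hal1b, hGb, hG0, hG1, hGd⟩ :=
    hsoft m hm eta1 he1 de be al2 ga hde hbe.continuousOn hal2c hgac hga0 hga1
      (fun t x hx => hKd _ x hx)
  have hal1c' : Continuous al1 := continuousOn_univ.1 hal1c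
  have hGc' : Continuous G := by
    rw [univ_prod_univ] at hGc
    exact continuousOn_univ.1 hGc
  -- corestriction of K
  let K' : I × Cube m → ↥C1 := fun p => if h : K p ∈ C1 then ⟨K p, h⟩ else al p.2
  have hK'v : ∀ t, ∀ x ∈ bd m, (K' (t, x) : R) = K (t, x) := by
    intro t x hx
    show ((if h : K (t, x) ∈ C1 then (⟨K (t, x), h⟩ : ↥C1) else al x : ↥C1) : R) = K (t, x)
    rw [dif_pos (hKC1 t x hx)]
  have hK'c : ContinuousOn K' (univ ×ˢ bd m) := by
    rw [Topology.IsInducing.subtypeVal.continuousOn_iff]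
    exact hKc.congr (fun p hp => hK'v p.1 p.2 hp.2)
  have hep : 0 < (eta' - 2 * de) / 2 := by linarith
  obtain ⟨al', G', ha', hG', hab, hGb', hG0', hG1', hGd'⟩ :=
    h3 m (↥C1) Y dY (fun z : ↥C1 => q z) be al (fun p => be p.2) K'
      (fun x => Set.inclusion hCC1 (al1 x)) G (de + eta1) ((eta' - 2 * de) / 2) hD hq1 hbe hK'c
      (fun x hx => Subtype.ext (by rw [hK'v 0 x hx, hK0 x hx]))
      (hbe.comp continuous_snd).continuousOn
      (fun x hx => (hth x hx).symm) (fun x _ => rfl)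
      ((continuous_inclusion hCC1).comp hal1c')
      (fun x hx => Subtype.ext (by
        rw [hK'v 1 x hx]
        show (al1 x : R) = _
        rw [hal1b x hx, hal2v x hx]))
      hGc' (fun x => hG0 x (mem_univ _)) (fun x => hG1 x (mem_univ _))
      (fun x hx t s _ hs => by
        rw [hGb t x hx]
        show q (K (softExt_par t, x)) = q (K' (s, x))
        rw [softExt_par_le t s hs, hK'v s x hx])
      (fun x hx t s ht _ => by
        rw [hGb t x hx]
        exact hgage t ht x hx)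
      (fun t x hx => by
        have h := hKd t x hx
        rw [← hK'v t x hx] at h
        refine le_trans h ?_
        linarith)
      (fun t x => hGd t x (mem_univ _)) hep
  refine ⟨al', G', ha', hG', hab, ?_, hG0', hG1', ?_⟩
  · intro t x hx
    exact hGb' t x hx
  · intro t x
    refine le_trans (hGd' t x) ?_
    rw [heta1]; linarith

end M202

end

section

/-!
MP_202a65_gt, item SphCollapse: collapsing the end spheres of cylinders to the centres of
(n+1)-cells is fine soft.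
-/

open Set Topology unitInterval

namespace M202

theorem SphCollapse_bdiff {n : ℕ} (y : Cube (n + 1)) : y ∈ bd (n + 1) ↔ ‖pushH y‖ = 1 / 2 := by
  refine ⟨pushH_bd, fun h => ?_⟩
  obtain ⟨i, hi⟩ : ∃ i, ‖pushH y i‖ = ‖pushH y‖ := by
    obtain ⟨i, _, hi⟩ := Finset.exists_mem_eq_sup' (Finset.univ_nonempty (α := Fin (n + 1)))
      (fun i => ‖pushH y i‖)
    refine ⟨i, le_antisymm (norm_le_pi_norm _ i) ?_⟩
    rw [pi_norm_le_iff_of_nonneg (norm_nonneg _)]
    intro j
    rw [← hi]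
    exact Finset.le_sup' (fun i => ‖pushH y i‖) (Finset.mem_univ j)
  rw [h, Real.norm_eq_abs] at hi
  refine ⟨i, ?_⟩
  have h0 := (y i).2.1
  have h1 := (y i).2.2
  rcases abs_choice (pushH y i) with ha | ha
  · right
    rw [ha] at hi
    simp only [pushH] at hi
    apply Subtype.ext
    simp only [Icc.coe_one]
    linarith
  · left
    rw [ha] at hi
    simp only [pushH] at hi
    apply Subtype.ext
    simp only [Icc.coe_zero]
    linarith

theorem SphCollapse_bdClosed (m : ℕ) : IsClosed (bd m) := by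
  have : bd m = ⋃ i : Fin m, ({y : Cube m | y i = 0} ∪ {y : Cube m | y i = 1}) := by
    ext y
    simp [bd]
  rw [this]
  refine isClosed_iUnion_of_finite fun i => ?_
  exact (isClosed_eq (continuous_apply i) continuous_const).union
    (isClosed_eq (continuous_apply i) continuous_const)

theorem SphCollapse_ctr (k : ℕ) : pushH (ctr k) = 0 := by
  funext i
  simp [pushH, ctr]

/-- the point with coordinates v (clamped) -/
noncomputable def SphCollapse_pt {k : ℕ} (v : Fin k → ℝ) : Cube k := fun i =>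
  projIcc 0 1 zero_le_one (1 / 2 + v i)

theorem SphCollapse_pt_cont {k : ℕ} : Continuous (SphCollapse_pt : (Fin k → ℝ) → Cube k) := by
  refine continuous_pi fun i => ?_
  exact continuous_projIcc.comp (continuous_const.add (continuous_apply i))

theorem SphCollapse_pt_H {k : ℕ} {v : Fin k → ℝ} (h : ‖v‖ ≤ 1 / 2) :
    pushH (SphCollapse_pt v) = v := by
  funext i
  have h1 : ‖v i‖ ≤ 1 / 2 := le_trans (norm_le_pi_norm v i) h
  rw [Real.norm_eq_abs, abs_le] at h1
  simp only [pushH, SphCollapse_pt]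
  rw [projIcc_of_mem zero_le_one (show (1 / 2 + v i : ℝ) ∈ Icc (0 : ℝ) 1 from
    ⟨by linarith, by linarith⟩)]
  simp

theorem SphCollapse_dist {k : ℕ} (y z : Cube k) : dist y z = ‖pushH y - pushH z‖ := by
  rw [← dist_eq_norm]
  apply le_antisymm
  · rw [dist_pi_le_iff dist_nonneg]
    intro i
    refine le_trans (le_of_eq ?_) (dist_le_pi_dist (pushH y) (pushH z) i)
    rw [Subtype.dist_eq, Real.dist_eq, Real.dist_eq]
    simp [pushH]
  · rw [dist_pi_le_iff dist_nonneg]
    intro i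
    refine le_trans (le_of_eq ?_) (dist_le_pi_dist y z i)
    rw [Subtype.dist_eq, Real.dist_eq, Real.dist_eq]
    simp [pushH]

/-- a compact subset of a family on which a positive continuous function is bounded below -/
theorem SphCollapse_min {X : Type} [TopologicalSpace X] [CompactSpace X] (K : Set X)
    (hK : IsClosed K) (f : X → ℝ) (hf : Continuous f) (hp : ∀ x ∈ K, 0 < f x) :
    ∃ r : ℝ, 0 < r ∧ ∀ x ∈ K, r ≤ f x := by
  rcases K.eq_empty_or_nonempty with h | h
  · exact ⟨1, one_pos, fun x hx => by rw [h] at hx; exact absurd hx (notMem_empty x)⟩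
  · obtain ⟨x0, hx0, hm⟩ := hK.isCompact.exists_isMinOn h hf.continuousOn
    exact ⟨f x0, hp x0 hx0, fun x hx => hm hx⟩

/-- uniform continuity on a finite family -/
theorem SphCollapse_uc (h6 : S_UC) (N : ℕ) (T B : Type) [MetricSpace T] [CompactSpace T]
    [TopologicalSpace B] (D : B → B → ℝ) (f : Fin N × T → B) (hD : IsCPM D) (hf : Continuous f)
    (ep : ℝ) (hep : 0 < ep) :
    ∃ de : ℝ, 0 < de ∧ ∀ l x y, dist x y ≤ de → D (f (l, x)) (f (l, y)) ≤ ep := by
  have h : ∀ l : Fin N, ∃ de : ℝ, 0 < de ∧ ∀ x y, dist x y ≤ de → D (f (l, x)) (f (l, y)) ≤ ep :=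
    fun l => h6.2.1 T B D (fun x => f (l, x)) hD (hf.comp (continuous_const.prodMk continuous_id))
      ep hep
  choose d hd hd' using h
  obtain ⟨r, hr, hr'⟩ := SphCollapse_min (univ : Set (Fin N)) isClosed_univ d
    continuous_of_discreteTopology (fun l _ => hd l)
  exact ⟨r, hr, fun l x y hxy => hd' l x y (le_trans hxy (hr' l (mem_univ l)))⟩

/-- second part: the complement of the centres -/
theorem SphCollapse_B (h1 : S_GP1) (h2 : S_DimH) (h3 : S_Basics) (h6 : S_UC)
    (n N : ℕ) (C C1 : Type) [TopologicalSpace C] [CompactSpace C] [T2Space C]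
    [TopologicalSpace C1] [CompactSpace C1] [T2Space C1]
    (ph' : Fin N × Cube (n + 1) → C) (i : C → C1) (j : Fin N × Cube (n + 1) → C1)
    (hadj : IsAdj {p : Fin N × Cube (n + 1) | p.2 ∈ bd (n + 1)} ph' i j) :
    FineSoft n (Subtype.val : ↥{z : C1 | ∀ l, z ≠ j (l, ctr (n + 1))} → C1) := by
  refine h3.2.2.2.1 n _ _ _ continuous_subtype_val ?_
  intro D hD m hm eta' heta be al hbe hal hal2
  -- points in the boundary
  have hctr : ctr (n + 1) ∉ bd (n + 1) := by
    intro h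
    have := pushH_bd h
    rw [SphCollapse_ctr, norm_zero] at this
    norm_num at this
  -- first constant
  have hbdc : IsCompact (be '' bd m) := (SphCollapse_bdClosed m).isCompact.image hbe
  obtain ⟨r0, hr0, hr0'⟩ := SphCollapse_min (j ⁻¹' (be '' bd m))
    (hbdc.isClosed.preimage hadj.contj) (fun p => ‖pushH p.2‖)
    (pushH_cont.norm.comp continuous_snd) (by
      rintro ⟨l, y⟩ ⟨x, hx, hxe⟩
      rw [norm_pos_iff]
      intro h0
      have hy : y = ctr (n + 1) := pushH_inj (by rw [SphCollapse_ctr]; exact h0)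
      have := (al x).2 l
      rw [hal2 x hx, hxe, hy] at this
      exact this rfl)
  -- second constant
  obtain ⟨de, hde, hde'⟩ := SphCollapse_uc h6 N (Cube (n + 1)) C1 D j hD hadj.contj eta' heta
  set r : ℝ := min (min r0 (de / 2)) (1 / 4) with hr
  have hrpos : 0 < r := by
    rw [hr]; exact lt_min (lt_min hr0 (by linarith)) (by norm_num)
  have hrr0 : r ≤ r0 := le_trans (min_le_left _ _) (min_le_left _ _)
  have hrde : 2 * r ≤ de := by
    have : r ≤ de / 2 := le_trans (min_le_left _ _) (min_le_right _ _)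
    linarith
  have hr4 : r ≤ 1 / 4 := min_le_right _ _
  -- small cells
  set e' : Fin N → Cube (n + 1) → C1 := fun l y => j (l, SphCollapse_pt ((2 * r) • pushH y))
    with he'
  set C' : Set C1 := range i ∪ j '' {p | r ≤ ‖pushH p.2‖} with hC'
  have hpn : ∀ y : Cube (n + 1), ‖(2 * r) • pushH y‖ = 2 * r * ‖pushH y‖ := by
    intro y
    rw [norm_smul, Real.norm_eq_abs, abs_of_pos (by linarith)]
  have hpn2 : ∀ y : Cube (n + 1), ‖(2 * r) • pushH y‖ ≤ 1 / 2 := by
    intro y
    rw [hpn]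
    have := pushH_norm y
    nlinarith [norm_nonneg (pushH y)]
  have hpH : ∀ y : Cube (n + 1),
      pushH (SphCollapse_pt ((2 * r) • pushH y)) = (2 * r) • pushH y :=
    fun y => SphCollapse_pt_H (hpn2 y)
  have hpbd : ∀ y : Cube (n + 1), SphCollapse_pt ((2 * r) • pushH y) ∉ bd (n + 1) := by
    intro y h
    have h1 := pushH_bd h
    rw [hpH, hpn] at h1
    have := pushH_norm y
    nlinarith [norm_nonneg (pushH y)]
  have hin : ∀ l y, j (l, y) ∈ C' → y ∈ bd (n + 1) ∨ r ≤ ‖pushH y‖ := by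
    intro l y h
    rcases h with ⟨c, hc⟩ | ⟨⟨l', y'⟩, hy', he⟩
    · left
      by_contra hn
      exact hadj.disj (l, y) hn c hc.symm
    · by_cases hn : y ∈ bd (n + 1)
      · exact Or.inl hn
      · right
        by_cases hn' : y' ∈ bd (n + 1)
        · have := hadj.agree (l', y') hn'
          rw [he] at this
          exact absurd this (hadj.disj (l, y) hn _)
        · have := hadj.injj hn' hn he
          simp only [Prod.mk.injEq] at this
          rw [← this.2]
          exact hy'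
  have hC'closed : IsClosed C' := by
    have hcl : IsClosed {p : Fin N × Cube (n + 1) | r ≤ ‖pushH p.2‖} :=
      isClosed_le continuous_const (pushH_cont.norm.comp continuous_snd)
    exact (isCompact_range hadj.conti).isClosed.union (hcl.isCompact.image hadj.contj).isClosed
  have hAtt : Att C' (univ : Set C1) (n + 1) N e' := by
    refine ⟨hC'closed, ?_, ?_, ?_, ?_, ?_⟩
    · intro l
      refine hadj.contj.comp (continuous_const.prodMk ?_)
      exact SphCollapse_pt_cont.comp (pushH_cont.const_smul (2 * r))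
    · intro l y hy
      right
      refine ⟨_, ?_, rfl⟩
      change r ≤ ‖pushH (SphCollapse_pt ((2 * r) • pushH y))‖
      rw [hpH, hpn, pushH_bd hy]
      linarith
    · intro l l' y y' hy hy' he
      have h5 := hadj.injj (show (l, SphCollapse_pt ((2 * r) • pushH y)) ∈
        {p : Fin N × Cube (n + 1) | p.2 ∈ bd (n + 1)}ᶜ from hpbd y)
        (show (l', SphCollapse_pt ((2 * r) • pushH y')) ∈
        {p : Fin N × Cube (n + 1) | p.2 ∈ bd (n + 1)}ᶜ from hpbd y') he
      simp only [Prod.mk.injEq] at h5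
      refine ⟨h5.1, ?_⟩
      have h7 := congrArg pushH h5.2
      rw [hpH, hpH] at h7
      exact pushH_inj (smul_right_injective _ (by linarith : (2 * r) ≠ 0) h7)
    · intro l y hy h
      rcases hin _ _ h with h8 | h8
      · exact hpbd y h8
      · rw [hpH, hpn] at h8
        have h9 : ‖pushH y‖ = 1 / 2 := by
          refine le_antisymm (pushH_norm y) ?_
          by_contra hlt
          push Not at hlt
          nlinarith
        exact hy ((SphCollapse_bdiff y).mpr h9)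
    · refine (eq_univ_of_forall fun z => ?_).symm
      rcases hadj.surj z with ⟨c, rfl⟩ | ⟨⟨l, y⟩, rfl⟩
      · exact Or.inl (Or.inl ⟨c, rfl⟩)
      · by_cases hy : r ≤ ‖pushH y‖
        · exact Or.inl (Or.inr ⟨(l, y), hy, rfl⟩)
        · right
          push Not at hy
          refine mem_iUnion.mpr ⟨l, SphCollapse_pt ((1 / (2 * r)) • pushH y), ?_⟩
          have hnn : ‖(1 / (2 * r)) • pushH y‖ ≤ 1 / 2 := by
            rw [norm_smul, Real.norm_eq_abs, abs_of_pos (by positivity)]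
            rw [div_mul_eq_mul_div, one_mul, div_le_iff₀ (by linarith)]
            linarith
          simp only [he']
          congr 1
          refine Prod.ext rfl ?_
          apply pushH_inj
          simp only
          rw [hpH, SphCollapse_pt_H hnn, smul_smul]
          rw [mul_one_div_cancel (by linarith : (2 * r) ≠ 0), one_smul]
  have hnotC : ∀ l, j (l, ctr (n + 1)) ∉ C' := by
    intro l h
    rcases hin _ _ h with h8 | h8
    · exact hctr h8
    · rw [SphCollapse_ctr, norm_zero] at h8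
      linarith
  obtain ⟨K, hKc, hK0, hK1, hKs, hKe⟩ := pr_Push h1 C1 C' univ (n + 1) N e' m univ be hAtt
    isClosed_univ (by
      have := h2.2.2.2.2 m (n + 1) (Nat.lt_succ_of_le hm) univ
      exact_mod_cast this) hbe.continuousOn (mapsTo_univ _ _)
  have hKcont : Continuous K := by
    rw [univ_prod_univ] at hKc
    exact continuousOn_univ.mp hKc
  have hbeC : ∀ x ∈ bd m, be x ∈ C' := by
    intro x hx
    rcases hadj.surj (be x) with ⟨c, hc⟩ | ⟨⟨l, y⟩, hy⟩
    · exact Or.inl ⟨c, hc⟩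
    · right
      refine ⟨(l, y), ?_, hy⟩
      exact le_trans hrr0 (hr0' (l, y) ⟨x, hx, hy.symm⟩)
  refine ⟨fun x => ⟨K (1, x), ?_⟩, fun p => K (σ p.1, p.2), ?_, ?_, ?_, ?_, ?_, ?_, ?_⟩
  · intro l hl
    exact hnotC l (hl ▸ hK1 x (mem_univ x))
  · exact (hKcont.comp (continuous_const.prodMk continuous_id)).subtype_mk _
  · exact hKcont.comp ((continuous_symm.comp continuous_fst).prodMk continuous_snd)
  · intro x hx
    apply Subtype.ext
    simp only
    rw [hKs 1 x (mem_univ x) (hbeC x hx)]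
    exact (hal2 x hx).symm
  · intro t x hx
    exact hKs _ x (mem_univ x) (hbeC x hx)
  · intro x
    simp only [symm_zero]
  · intro x
    simp only [symm_one]
    exact hK0 x (mem_univ x)
  · intro t x
    simp only
    by_cases hx : be x ∈ C'
    · rw [hKs _ x (mem_univ x) hx, hD.self]
      exact heta.le
    · have hu : be x ∈ C' ∪ ⋃ l, range (e' l) := by
        rw [← hAtt.union]; exact mem_univ _
      rcases hu with hu | hu
      · exact absurd hu hx
      · obtain ⟨l, hl⟩ := mem_iUnion.mp hu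
        obtain ⟨y', hy'⟩ := hKe (σ t) x (mem_univ x) l hl hx
        obtain ⟨y, hy⟩ := hl
        rw [← hy', ← hy]
        refine hde' l _ _ ?_
        rw [SphCollapse_dist, hpH, hpH]
        refine le_trans (norm_sub_le _ _) ?_
        rw [hpn, hpn]
        have q1 := pushH_norm y
        have q2 := pushH_norm y'
        nlinarith

/-- first part: the complement of the end spheres -/
theorem SphCollapse_A (h3 : S_Basics) (h5 : S_AdjDesc) (h6 : S_UC)
    (n N : ℕ) (C Cp : Type) [TopologicalSpace C] [CompactSpace C] [T2Space C]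
    [TopologicalSpace Cp] [CompactSpace Cp] [T2Space Cp]
    (ph : Fin N × (↥(bd (n + 1)) × I) → C) (ip : C → Cp)
    (jp : Fin N × (↥(bd (n + 1)) × I) → Cp)
    (hadj : IsAdj {p : Fin N × (↥(bd (n + 1)) × I) | p.2 ∈ {p : ↥(bd (n + 1)) × I | p.2 = 0}}
      ph ip jp) (hph : ∀ l a t t', ph (l, (a, t)) = ph (l, (a, t')))
    (A : Set Cp) (hA : ∀ z, z ∈ A ↔ ∀ l a, z ≠ jp (l, (a, 1))) :
    FineSoft n (Subtype.val : ↥A → Cp) := by
  refine h3.2.2.2.1 n _ _ _ continuous_subtype_val ?_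
  intro D hD m hm eta' heta be al hbe hal hal2
  haveI : CompactSpace ↥(bd (n + 1)) := isCompact_iff_compactSpace.mp
    (SphCollapse_bdClosed (n + 1)).isCompact
  have hbdc : IsCompact (be '' bd m) := (SphCollapse_bdClosed m).isCompact.image hbe
  obtain ⟨w0, hw0, hw0'⟩ := SphCollapse_min (jp ⁻¹' (be '' bd m))
    (hbdc.isClosed.preimage hadj.contj) (fun p => 1 - (p.2.2 : ℝ))
    (continuous_const.sub (continuous_subtype_val.comp (continuous_snd.comp continuous_snd))) (by
      rintro ⟨l, a, t⟩ ⟨x, hx, hxe⟩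
      have h0 : (t : ℝ) ≤ 1 := t.2.2
      rcases h0.lt_or_eq with h1 | h1
      · simp only; linarith
      · exfalso
        have ht : t = 1 := Subtype.ext h1
        have := (hA _).mp (al x).2 l a
        rw [hal2 x hx, hxe, ht] at this
        exact this rfl)
  obtain ⟨de, hde, hde'⟩ := SphCollapse_uc h6 N (↥(bd (n + 1)) × I) Cp D jp hD hadj.contj eta' heta
  set w : ℝ := min (min w0 de) (1 / 2) with hw
  have hwpos : 0 < w := lt_min (lt_min hw0 hde) (by norm_num)
  have hww0 : w ≤ w0 := le_trans (min_le_left _ _) (min_le_left _ _)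
  have hwde : w ≤ de := le_trans (min_le_left _ _) (min_le_right _ _)
  have hw2 : w ≤ 1 / 2 := min_le_right _ _
  -- the moved parameter
  let mvt : I → I → I := fun s t => projIcc 0 1 zero_le_one (min (t : ℝ) (1 - (1 - (s : ℝ)) * w))
  have hmv : ∀ s t : I, (mvt s t : ℝ) = min (t : ℝ) (1 - (1 - (s : ℝ)) * w) := by
    intro s t
    have s0 := s.2.1
    have s1 := s.2.2
    have t0 := t.2.1
    have t1 := t.2.2
    simp only [mvt]
    rw [projIcc_of_mem zero_le_one]
    refine ⟨le_min t0 ?_, le_trans (min_le_left _ _) t1⟩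
    nlinarith
  have hmvc : Continuous (fun p : I × I => mvt p.1 p.2) := by
    refine continuous_projIcc.comp ?_
    fun_prop
  have hmv0 : ∀ s : I, mvt s 0 = 0 := by
    intro s
    apply Subtype.ext
    rw [hmv]
    have s0 := s.2.1
    have s1 := s.2.2
    simp only [Icc.coe_zero]
    apply min_eq_left
    nlinarith
  have hmv1 : ∀ t : I, mvt 1 t = t := by
    intro t
    apply Subtype.ext
    rw [hmv]
    simp only [Icc.coe_one, sub_self, zero_mul, sub_zero]
    exact min_eq_left t.2.2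
  have hmvs : ∀ s t : I, (t : ℝ) ≤ 1 - w → mvt s t = t := by
    intro s t ht
    apply Subtype.ext
    rw [hmv]
    have s0 := s.2.1
    apply min_eq_left
    nlinarith
  have hmvd : ∀ s t : I, dist (mvt s t) t ≤ w := by
    intro s t
    rw [Subtype.dist_eq, hmv, Real.dist_eq, abs_le]
    have s0 := s.2.1
    have s1 := s.2.2
    have t1 := t.2.2
    constructor
    · have : (t : ℝ) - w ≤ min (t : ℝ) (1 - (1 - (s : ℝ)) * w) := by
        apply le_min <;> nlinarith
      linarith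
    · have := min_le_left (t : ℝ) (1 - (1 - (s : ℝ)) * w)
      linarith
  obtain ⟨H, hHc, hHi, hHj⟩ := (h5 C (Fin N × (↥(bd (n + 1)) × I)) Cp Cp _ ph ip jp hadj).2.1
    (fun p => ip p.2) (fun p => jp (p.2.1, (p.2.2.1, mvt p.1 p.2.2.2)))
    (hadj.conti.comp continuous_snd)
    (hadj.contj.comp ((continuous_fst.comp continuous_snd).prodMk
      ((continuous_fst.comp (continuous_snd.comp continuous_snd)).prodMk
      (hmvc.comp (continuous_fst.prodMk
        (continuous_snd.comp (continuous_snd.comp continuous_snd)))))))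
    (by
      rintro s ⟨l, a, t⟩ ht
      have ht0 : t = 0 := ht
      subst ht0
      simp only
      rw [hmv0]
      exact hadj.agree (l, (a, 0)) rfl)
  have hH1 : ∀ z, H (1, z) = z := by
    intro z
    rcases hadj.surj z with ⟨c, rfl⟩ | ⟨⟨l, a, t⟩, rfl⟩
    · exact hHi 1 c
    · rw [hHj 1]
      simp only
      rw [hmv1]
  have hend : ∀ l a c, jp (l, (a, 1)) ≠ ip c := by
    intro l a c
    refine hadj.disj _ ?_ c
    intro h
    have h0 : (1 : I) = 0 := h
    exact one_ne_zero h0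
  have hH0 : ∀ z, H (0, z) ∈ A := by
    intro z
    rw [hA]
    intro l' a'
    rcases hadj.surj z with ⟨c, rfl⟩ | ⟨⟨l, a, t⟩, rfl⟩
    · rw [hHi 0 c]
      exact (hend l' a' c).symm
    · rw [hHj 0]
      simp only
      intro he
      have hne : mvt 0 t ≠ 1 := by
        intro h
        have h8 := congrArg Subtype.val h
        rw [hmv] at h8
        have := min_le_right (t : ℝ) (1 - (1 - ((0 : I) : ℝ)) * w)
        rw [h8] at this
        simp only [Icc.coe_one, Icc.coe_zero, sub_zero, one_mul] at this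
        linarith
      by_cases h0 : mvt 0 t = 0
      · have := hadj.agree (l, (a, mvt 0 t)) h0
        rw [he] at this
        exact hend _ _ _ this
      · have := hadj.injj (show (l, (a, mvt 0 t)) ∈ _ from h0)
          (show (l', (a', (1 : I))) ∈ _ from (one_ne_zero : (1 : I) ≠ 0)) he
        simp only [Prod.mk.injEq] at this
        exact hne this.2.2
  have hHs : ∀ s, ∀ x ∈ bd m, H (s, be x) = be x := by
    intro s x hx
    rcases hadj.surj (be x) with ⟨c, hc⟩ | ⟨⟨l, a, t⟩, hp⟩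
    · rw [← hc]; exact hHi s c
    · rw [← hp, hHj s]
      simp only
      rw [hmvs s t]
      have := hw0' (l, (a, t)) ⟨x, hx, hp.symm⟩
      simp only at this
      linarith
  refine ⟨fun x => ⟨H (0, be x), hH0 _⟩, fun p => H (p.1, be p.2), ?_, ?_, ?_, ?_, ?_, ?_, ?_⟩
  · exact (hHc.comp (continuous_const.prodMk hbe)).subtype_mk _
  · exact hHc.comp (continuous_fst.prodMk (hbe.comp continuous_snd))
  · intro x hx
    apply Subtype.ext
    simp only
    rw [hHs 0 x hx]
    exact (hal2 x hx).symm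
  · intro t x hx
    exact hHs t x hx
  · intro x
    rfl
  · intro x
    exact hH1 _
  · intro s x
    simp only
    rcases hadj.surj (be x) with ⟨c, hc⟩ | ⟨⟨l, a, t⟩, hp⟩
    · rw [← hc, hHi s c, hD.self]
      exact heta.le
    · rw [← hp, hHj s]
      simp only
      refine hde' l _ _ ?_
      rw [Prod.dist_eq]
      simp only [dist_self]
      rw [max_eq_right dist_nonneg]
      exact le_trans (hmvd s t) hwde

theorem pr_SphCollapse (h1 : S_GP1) (h2 : S_DimH) (h3 : S_Basics) (h4 : S_HomeoComp)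
    (h5 : S_AdjDesc) (h6 : S_UC) : S_SphCollapse := by
  intro n N C C1 Cp _ _ _ _ _ _ _ _ _ ph' i j ip jp u hne hadj hadjp hu hui huj
  -- scaled points
  have hsc : ∀ (a : ↥(bd (n + 1))) (t : I),
      ‖(1 - (t : ℝ)) • pushH (a : Cube (n + 1))‖ = (1 - (t : ℝ)) * (1 / 2) := by
    intro a t
    have t1 := t.2.2
    rw [norm_smul, Real.norm_eq_abs, abs_of_nonneg (by linarith), pushH_bd a.2]
  have hzH : ∀ (a : ↥(bd (n + 1))) (t : I),
      pushH (SphCollapse_pt ((1 - (t : ℝ)) • pushH (a : Cube (n + 1)))) =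
        (1 - (t : ℝ)) • pushH (a : Cube (n + 1)) := by
    intro a t
    apply SphCollapse_pt_H
    rw [hsc]
    have t0 := t.2.1
    linarith
  have huj' : ∀ l (a : ↥(bd (n + 1))) (t : I), u (jp (l, (a, t))) =
      j (l, SphCollapse_pt ((1 - (t : ℝ)) • pushH (a : Cube (n + 1)))) := by
    intro l a t
    apply huj
    intro m
    have := congrFun (hzH a t) m
    simpa [pushH] using this
  have hnz : ∀ (a : ↥(bd (n + 1))) (t : I),
      ‖pushH (SphCollapse_pt ((1 - (t : ℝ)) • pushH (a : Cube (n + 1))))‖ =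
        (1 - (t : ℝ)) * (1 / 2) := by
    intro a t
    rw [hzH, hsc]
  have hctr : ctr (n + 1) ∉ bd (n + 1) := by
    intro h
    have := pushH_bd h
    rw [SphCollapse_ctr, norm_zero] at this
    norm_num at this
  have hjc : ∀ l l' y, j (l, y) = j (l', ctr (n + 1)) → y = ctr (n + 1) := by
    intro l l' y h
    by_cases hy : y ∈ bd (n + 1)
    · have := hadj.agree (l, y) hy
      rw [h] at this
      exact absurd this (hadj.disj (l', ctr (n + 1)) hctr _)
    · have := hadj.injj (show (l, y) ∈ _ from hy) (show (l', ctr (n + 1)) ∈ _ from hctr) h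
      simp only [Prod.mk.injEq] at this
      exact this.2
  set B : Set C1 := {z : C1 | ∀ l, z ≠ j (l, ctr (n + 1))} with hB
  have hA : ∀ z, z ∈ u ⁻¹' B ↔ ∀ l a, z ≠ jp (l, (a, 1)) := by
    intro z
    constructor
    · intro hz l a he
      apply hz l
      rw [he, huj']
      congr 2
      apply pushH_inj
      rw [hzH, SphCollapse_ctr]
      simp
    · intro hz l he
      rcases hadjp.surj z with ⟨c, rfl⟩ | ⟨⟨l', a, t⟩, rfl⟩
      · rw [hui] at he
        exact hadj.disj (l, ctr (n + 1)) hctr c he.symm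
      · rw [huj'] at he
        have h7 := hjc _ _ _ he
        have h8 := hnz a t
        rw [h7, SphCollapse_ctr, norm_zero] at h8
        have ht : t = 1 := by
          apply Subtype.ext
          simp only [Icc.coe_one]
          linarith
        subst ht
        exact hz l' a rfl
  have hFA : FineSoft n (Subtype.val : ↥(u ⁻¹' B) → Cp) :=
    SphCollapse_A h3 h5 h6 n N C Cp _ ip jp hadjp (fun _ _ _ _ => rfl) _ hA
  have hFB : FineSoft n (Subtype.val : ↥B → C1) :=
    SphCollapse_B h1 h2 h3 h6 n N C C1 ph' i j hadj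
  -- injectivity
  have hinj0 : ∀ c p, i c = u p → ip c = p := by
    intro c p h
    rcases hadjp.surj p with ⟨c', rfl⟩ | ⟨⟨l, a, t⟩, rfl⟩
    · rw [hui] at h
      rw [hadj.inji h]
    · rw [huj'] at h
      set z := SphCollapse_pt ((1 - (t : ℝ)) • pushH (a : Cube (n + 1))) with hz
      have hzb : z ∈ bd (n + 1) := by
        by_contra hzb
        exact hadj.disj (l, z) hzb c h.symm
      have h8 := pushH_bd hzb
      rw [hz, hnz] at h8
      have ht : t = 0 := by
        apply Subtype.ext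
        simp only [Icc.coe_zero]
        linarith
      subst ht
      have hza : z = a := by
        apply pushH_inj
        rw [hz, hzH]
        simp
      have h9 := hadj.agree (l, z) hzb
      rw [← h] at h9
      have h10 := hadj.inji h9
      rw [h10, hza]
      exact (hadjp.agree (l, (a, 0)) rfl).symm
  have hinj : ∀ p p', p ∈ u ⁻¹' B → u p = u p' → p = p' := by
    intro p p' hp he
    rcases hadjp.surj p with ⟨c, rfl⟩ | ⟨⟨l, a, t⟩, rfl⟩
    · rw [hui] at he
      exact hinj0 c p' he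
    · rcases hadjp.surj p' with ⟨c', rfl⟩ | ⟨⟨l', a', t'⟩, rfl⟩
      · rw [hui] at he
        exact (hinj0 c' _ he.symm).symm
      · by_cases ht : t = 0
        · subst ht
          have h9 := hadjp.agree (l, (a, 0)) rfl
          rw [h9, hui] at he
          rw [h9]
          exact hinj0 _ _ he
        · by_cases ht' : t' = 0
          · subst ht'
            have h9 := hadjp.agree (l', (a', 0)) rfl
            rw [h9, hui] at he
            rw [h9]
            exact (hinj0 _ _ he.symm).symm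
          · rw [huj', huj'] at he
            have hpos : ∀ s : I, s ≠ 0 → 0 < (s : ℝ) := fun s hs =>
              lt_of_le_of_ne s.2.1 (fun h => hs (Subtype.ext h.symm))
            have hzb : ∀ (a : ↥(bd (n + 1))) (t : I), t ≠ 0 →
                SphCollapse_pt ((1 - (t : ℝ)) • pushH (a : Cube (n + 1))) ∉ bd (n + 1) := by
              intro a t ht h
              have h8 := pushH_bd h
              rw [hnz] at h8
              have := hpos t ht
              linarith
            have h11 := hadj.injj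
              (show (l, SphCollapse_pt ((1 - (t : ℝ)) • pushH (a : Cube (n + 1)))) ∈ _ from
                hzb a t ht)
              (show (l', SphCollapse_pt ((1 - (t' : ℝ)) • pushH (a' : Cube (n + 1)))) ∈ _ from
                hzb a' t' ht') he
            simp only [Prod.mk.injEq] at h11
            obtain ⟨hl, hz⟩ := h11
            have h12 := congrArg pushH hz
            have h13 : (1 - (t : ℝ)) * (1 / 2) = (1 - (t' : ℝ)) * (1 / 2) := by
              rw [← hnz a t, ← hnz a' t', h12]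
            have htt : t = t' := by
              apply Subtype.ext
              linarith
            have ht1 : (1 - (t : ℝ)) ≠ 0 := by
              intro h0
              have ht1 : t = 1 := by
                apply Subtype.ext
                simp only [Icc.coe_one]
                linarith
              exact (hA _).mp hp l a (by rw [ht1])
            rw [hzH, hzH, ← htt] at h12
            have h14 := pushH_inj (smul_right_injective _ ht1 h12)
            rw [hl, ← htt, Subtype.ext h14]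
  -- surjectivity
  have hsurj : ∀ z ∈ B, ∃ p, u p = z := by
    intro z hz
    rcases hadj.surj z with ⟨c, rfl⟩ | ⟨⟨l, y⟩, rfl⟩
    · exact ⟨ip c, hui c⟩
    · have hy : y ≠ ctr (n + 1) := fun h => hz l (by rw [h])
      have hn : 0 < ‖pushH y‖ := by
        rw [norm_pos_iff]
        intro h0
        exact hy (pushH_inj (by rw [SphCollapse_ctr]; exact h0))
      have hn2 := pushH_norm y
      have hnorm : ‖(1 / (2 * ‖pushH y‖)) • pushH y‖ = 1 / 2 := by
        rw [norm_smul, Real.norm_eq_abs, abs_of_pos (by positivity)]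
        field_simp
      have haH : pushH (SphCollapse_pt ((1 / (2 * ‖pushH y‖)) • pushH y)) =
          (1 / (2 * ‖pushH y‖)) • pushH y := SphCollapse_pt_H hnorm.le
      have hab : SphCollapse_pt ((1 / (2 * ‖pushH y‖)) • pushH y) ∈ bd (n + 1) := by
        rw [SphCollapse_bdiff, haH, hnorm]
      refine ⟨jp (l, (⟨_, hab⟩, ⟨1 - 2 * ‖pushH y‖, by linarith, by linarith⟩)), ?_⟩
      rw [huj']
      congr 2
      apply pushH_inj
      rw [hzH]
      simp only
      rw [haH, smul_smul]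
      have : (1 - (1 - 2 * ‖pushH y‖)) * (1 / (2 * ‖pushH y‖)) = 1 := by
        field_simp
        ring
      rw [this, one_smul]
  -- the homeomorphism
  have hclosed : IsClosedMap (B.restrictPreimage u) := hu.isClosedMap.restrictPreimage B
  let h : ↥(u ⁻¹' B) ≃ₜ ↥B := Equiv.toHomeomorphOfContinuousClosed
    (Equiv.ofBijective (B.restrictPreimage u) ⟨by
      rintro ⟨p, hp⟩ ⟨p', hp'⟩ he
      apply Subtype.ext
      exact hinj p p' hp (congrArg Subtype.val he), by
      rintro ⟨z, hz⟩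
      obtain ⟨p, hp⟩ := hsurj z hz
      refine ⟨⟨p, ?_⟩, Subtype.ext hp⟩
      change u p ∈ B
      rw [hp]
      exact hz⟩) (hu.restrictPreimage) hclosed
  have hcomp : FineSoft n (fun a : ↥(u ⁻¹' B) => u (a : Cp)) := by
    intro D hD
    have := (h4 n ↥B ↥(u ⁻¹' B) C1 C1 (Subtype.val) h (Homeomorph.refl C1) 0).1 D (hFB D hD)
    exact this
  obtain ⟨c0⟩ := hne
  refine h3.2.2.2.2.2.2.1 n _ _ _ (Subtype.val : ↥(u ⁻¹' B) → Cp) u ⟨⟨ip c0, ?_⟩⟩
    continuous_subtype_val hu hFA hcomp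
  rw [hA]
  intro l a he
  refine hadjp.disj (l, (a, 1)) ?_ c0 he.symm
  intro h0
  exact one_ne_zero (h0 : (1 : I) = 0)

end M202

end

section

/-!
MP_202a65_gt (captain helper47): statements of wave 4 (P-lemma, engine E, zigzag, core lemma,
assembly).
-/

open Set Topology unitInterval Filter

namespace M202

/-! ### General lemmas -/

/-- H1: restriction of a relative complex to a closed subspace -/
def S_RCRestrict : Prop :=
  ∀ (R : Type) [TopologicalSpace R] [CompactSpace R] [T2Space R] (V : Set R) (P : Set R → Prop)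
    (C C2 : Set R) (ka : List ℕ), IsClosed V → C2 ⊆ V → RC P C ka C2 →
    RC (fun e : Set ↥V => P (Subtype.val '' e)) (Subtype.val ⁻¹' C) ka (Subtype.val ⁻¹' C2)

/-- H2: change of the control pseudometric -/
def S_SoftMod : Prop :=
  ∀ (n : ℕ) (A B : Type) [TopologicalSpace A] [TopologicalSpace B] (D D' : B → B → ℝ)
    (e e2 e' : ℝ) (th : A → B), IsCPM D → IsCPM D' → Continuous th → e < e2 →
    (∀ x y, D x y ≤ e2 → D' x y ≤ e') → Soft n D e th → Soft n D' e' th

/-- H3: relative complex structure of the mapping cylinder of psi : Z → Z, psi = id on ZF,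
collapsed over ZF -/
def S_CylRC : Prop :=
  ∀ (Z R : Type) [TopologicalSpace Z] [CompactSpace Z] [T2Space Z] [TopologicalSpace R]
    [CompactSpace R] [T2Space R] (P : Set Z → Prop) (P' : Set R → Prop) (ZF : Set Z)
    (ka : List ℕ) (psi : Z → Z) (i : Z → R) (j : Z × I → R),
    IsClosed ZF → Continuous psi → (∀ y ∈ ZF, psi y = y) → RC P ZF ka univ →
    IsAdj {p : Z × I | p.2 = 1 ∨ p.1 ∈ ZF} (fun p => psi p.1) i j →
    (∀ e, P e → P' (i '' e) ∧ P' (j '' (e ×ˢ univ))) →
    RC P' (range fun y => j (y, 0)) ka ((range fun y => j (y, 0)) ∪ range i) ∧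
    RC P' ((range fun y => j (y, 0)) ∪ range i) (ka.map (· + 1)) univ ∧
    Function.Injective (fun y => j (y, 0)) ∧ IsClosed (range fun y => j (y, 0))

/-- H4: homotopy extension over relative complexes, controlled (maps into B) -/
def S_HepRC : Prop :=
  ∀ (R B : Type) [TopologicalSpace R] [CompactSpace R] [T2Space R] [TopologicalSpace B]
    (P : Set R → Prop) (C : Set R) (ka : List ℕ) (D : B → B → ℝ) (be : R → B) (al : R → B)
    (ga : I × R → B) (ze ep : ℝ),
    RC P C ka univ → IsCPM D → Nonempty B → Continuous be → ContinuousOn al C →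
    ContinuousOn ga (univ ×ˢ C) → (∀ x ∈ C, ga (0, x) = al x) → (∀ x ∈ C, ga (1, x) = be x) →
    (∀ t, ∀ x ∈ C, D (ga (t, x)) (be x) ≤ ze) → 0 ≤ ze → 0 < ep →
    ∃ (al' : R → B) (G : I × R → B), Continuous al' ∧ Continuous G ∧ (∀ x ∈ C, al' x = al x) ∧
      (∀ t, ∀ x ∈ C, G (t, x) = ga (t, x)) ∧ (∀ x, G (0, x) = al' x) ∧ (∀ x, G (1, x) = be x) ∧
      ∀ t x, D (G (t, x)) (be x) ≤ ze + ep

/-! ### P-lemma -/

/-- P1: some M_b1 maps softly onto M_b0 × S^(n+1), close to the bonding map -/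
def S_P : Prop :=
  ∀ (n b0 : ℕ) (D : XM n b0 × SS n → XM n b0 × SS n → ℝ) (eta : ℝ), 1 ≤ n → IsCPM D → 0 < eta →
    ∃ (b1 : ℕ) (th : XM n b1 → XM n b0 × SS n), b0 ≤ b1 ∧ Continuous th ∧ Soft n D eta th ∧
      ∀ x, dist (th x).1 (sM n b0 b1 x) ≤ eta

/-! ### Engine -/

/-- E1: the liftings f0 : Z_c → M_a of P through Q and psi : Z_c → Z_c of f0 through the bonding
map, relative to a subcomplex ZF on which P ≃ Q o sZ -/
def S_E2a : Prop :=
  ∀ (n : ℕ) (Y : Type) [TopologicalSpace Y] (dY : Y → Y → ℝ) (z : Y → ℝ) (a c : ℕ)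
    (Q : XM n a → Y) (P : ZM n c → Y) (Ga : I × ZM n c → Y) (D' : XM n a → XM n a → ℝ)
    (de z0 tau1 : ℝ), 1 ≤ n → IsCPM dY → IsCPM D' → (∀ y y', |z y - z y'| ≤ dY y y') → a ≤ c →
    Continuous Q → Continuous P → 0 < de → Soft n dY de Q → Soft n dY de P → 0 < tau1 →
    tau1 ≤ de →
    (∀ x y : XM n a, dist x y ≤ 1 / 2 ^ c → D' x y ≤ tau1 ∧ dY (Q x) (Q y) ≤ tau1) →
    (∀ x y : ZM n c, dist x y ≤ 1 / 3 ^ c → dY (P x) (P y) ≤ de) →
    ContinuousOn Ga (univ ×ˢ {x | z0 ≤ z (P x)}) →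
    (∀ x, z0 ≤ z (P x) → Ga (0, x) = Q (sZ n a c x) ∧ Ga (1, x) = P x ∧
      ∀ t, dY (Ga (t, x)) (P x) ≤ de) →
    ∃ (ZF : Set (ZM n c)) (f0 : ZM n c → XM n a) (G0 : I × ZM n c → Y) (psi : ZM n c → ZM n c)
      (H0 : I × ZM n c → XM n a),
      IsClosed ZF ∧ (∀ x ∈ ZF, z0 ≤ z (P x)) ∧ (∀ x, z0 + de ≤ z (P x) → x ∈ ZF) ∧
      RC (fun e : Set (ZM n c) => (∀ x ∈ e, ∀ y ∈ e, dist x y ≤ 1 / 3 ^ c) ∧
        ∃ y ∈ e, z (P y) < z0) ZF (List.range (n + 1)) univ ∧
      Continuous f0 ∧ (∀ x ∈ ZF, f0 x = sZ n a c x) ∧ Continuous G0 ∧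
      (∀ x, G0 (0, x) = Q (f0 x)) ∧ (∀ x, G0 (1, x) = P x) ∧
      (∀ t, ∀ x ∈ ZF, G0 (t, x) = Ga (t, x)) ∧
      (∀ t x, dY (G0 (t, x)) (P x) ≤ (2 * n + 4) * de) ∧
      Continuous psi ∧ (∀ x ∈ ZF, psi x = x) ∧ Continuous H0 ∧
      (∀ x, H0 (0, x) = sZ n a c (psi x)) ∧ (∀ x, H0 (1, x) = f0 x) ∧
      (∀ t, ∀ x ∈ ZF, H0 (t, x) = f0 x) ∧
      (∀ t x, D' (H0 (t, x)) (f0 x) ≤ (2 * n + 2) * tau1 ∧
        dY (Q (H0 (t, x))) (Q (f0 x)) ≤ (2 * n + 2) * tau1) ∧
      Soft n D' tau1 (sZ n a c) ∧ Soft n (fun x y => dY (Q x) (Q y)) tau1 (sZ n a c)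

/-- E2: the complex R with its maps p and q -/
def S_E2b : Prop :=
  ∀ (n : ℕ) (Z A Y : Type) [TopologicalSpace Z] [CompactSpace Z] [T2Space Z] [TopologicalSpace A]
    [TopologicalSpace Y] (dY : Y → Y → ℝ) (DA : A → A → ℝ) (Pc : Set Z → Prop) (ka : List ℕ)
    (si : Z → A) (Q : A → Y) (P : Z → Y) (ZF : Set Z) (f0 : Z → A) (G0 : I × Z → Y)
    (psi : Z → Z) (H0 : I × Z → A) (e1 e2 de g : ℝ),
    IsCPM dY → IsCPM DA → RC Pc ZF ka univ → IsClosed ZF → Nonempty Z → Continuous si →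
    Continuous Q → Continuous P → Soft n dY de Q → Soft n DA e1 si →
    Soft n (fun x y => dY (Q x) (Q y)) e1 si → Continuous f0 → Continuous G0 → Continuous psi →
    Continuous H0 → 0 < g → 0 ≤ e1 → 0 ≤ e2 → 0 < de →
    (∀ x ∈ ZF, f0 x = si x) → (∀ x, G0 (0, x) = Q (f0 x)) → (∀ x, G0 (1, x) = P x) →
    (∀ t x, dY (G0 (t, x)) (P x) ≤ g) → (∀ x ∈ ZF, psi x = x) → (∀ x, H0 (0, x) = si (psi x)) →
    (∀ x, H0 (1, x) = f0 x) → (∀ t, ∀ x ∈ ZF, H0 (t, x) = f0 x) →
    (∀ t x, DA (H0 (t, x)) (f0 x) ≤ e2 ∧ dY (Q (H0 (t, x))) (Q (f0 x)) ≤ e2) →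
    ∃ (R : Type) (_ : TopologicalSpace R) (_ : CompactSpace R) (_ : T2Space R) (i : Z → R)
      (j : Z × I → R) (p : R → A) (q : R → Y),
      IsAdj {p : Z × I | p.2 = 1 ∨ p.1 ∈ ZF} (fun p => psi p.1) i j ∧
      Continuous p ∧ Continuous q ∧ (∀ x, p (i x) = si x) ∧ (∀ y, p (j (y, 0)) = f0 y) ∧
      (∀ t y, DA (p (j (y, t))) (f0 y) ≤ e2 ∧ dY (Q (p (j (y, t)))) (Q (f0 y)) ≤ e2) ∧
      Soft n DA (e1 + 4 * e2) p ∧ (∀ y, q (j (y, 0)) = P y) ∧
      (∀ r, dY (q r) (Q (p r)) ≤ 3 * g) ∧ Soft n dY (de + e1 + 4 * e2 + 12 * g) q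

/-- E3: the engine at a fine level c -/
def S_E2 : Prop :=
  ∀ n : ℕ, 1 ≤ n → ∃ ka : ℝ, 1 ≤ ka ∧ ∀ (Y : Type) [TopologicalSpace Y] (dY : Y → Y → ℝ)
    (z : Y → ℝ) (a c : ℕ) (Q : XM n a → Y) (P : ZM n c → Y) (Ga : I × ZM n c → Y)
    (D' : XM n a → XM n a → ℝ) (de z0 z1 tau tau1 : ℝ), IsCPM dY → IsCPM D' →
    (∀ y y', |z y - z y'| ≤ dY y y') → a ≤ c → Continuous Q → Continuous P → 0 < de →
    Soft n dY de Q → Soft n dY de P → z0 ≤ z1 → 0 < tau1 → 100 * (n + 2) * tau1 ≤ tau →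
    100 * (n + 2) * tau1 ≤ de →
    (∀ x y : XM n a, dist x y ≤ 1 / 2 ^ c → D' x y ≤ tau1 ∧ dY (Q x) (Q y) ≤ tau1) →
    (∀ x y : ZM n c, dist x y ≤ 1 / 3 ^ c → dY (P x) (P y) ≤ de) →
    ContinuousOn Ga (univ ×ˢ {x | z0 ≤ z (P x)}) →
    (∀ x, z0 ≤ z (P x) → Ga (0, x) = Q (sZ n a c x) ∧ Ga (1, x) = P x ∧
      ∀ t, dY (Ga (t, x)) (P x) ≤ de) →
    (∀ x, z (P x) < z0 → z (Q (sZ n a c x)) < z1) →
    ∃ (c' : ℕ) (f : XM n c' → XM n a), c + 1 ≤ c' ∧ Continuous f ∧ Soft n D' tau f ∧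
      (∀ w, dY (Q (f w)) (P (rZ n c c' w)) ≤ ka * de) ∧
      (∀ w, z1 + ka * de ≤ z (P (rZ n c c' w)) → D' (f w) (sM n a c' w) ≤ tau)

/-- E4: the engine -/
def S_E : Prop :=
  ∀ n : ℕ, 1 ≤ n → ∃ ka : ℝ, 1 ≤ ka ∧ ∀ (Y : Type) [TopologicalSpace Y] (dY : Y → Y → ℝ)
    (z : Y → ℝ) (a c : ℕ) (Q : XM n a → Y) (P : ZM n c → Y) (Ga : I × ZM n c → Y)
    (de z0 z1 : ℝ), IsCPM dY →
    (∀ y y', |z y - z y'| ≤ dY y y') → a ≤ c → Continuous Q → Continuous P → 0 < de →
    Soft n dY de Q → Soft n dY de P → z0 ≤ z1 →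
    (∀ x y : XM n a, dist x y ≤ 1 / 2 ^ c → dY (Q x) (Q y) ≤ de) →
    ContinuousOn Ga (univ ×ˢ {x | z0 ≤ z (P x)}) →
    (∀ x, z0 ≤ z (P x) → Ga (0, x) = Q (sZ n a c x) ∧ Ga (1, x) = P x ∧
      ∀ t, dY (Ga (t, x)) (P x) ≤ de) →
    (∀ x, z (P x) < z0 → z (Q (sZ n a c x)) < z1) →
    ∀ (D' : XM n a → XM n a → ℝ) (tau : ℝ), IsCPM D' → 0 < tau →
    ∃ (c' : ℕ) (f : XM n c' → XM n a), c + 1 ≤ c' ∧ Continuous f ∧ Soft n D' tau f ∧
      (∀ w, dY (Q (f w)) (P (rZ n c c' w)) ≤ ka * de) ∧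
      (∀ w, z1 + ka * de ≤ z (P (rZ n c c' w)) → D' (f w) (sM n a c' w) ≤ tau)

/-! ### Zigzag -/

/-- Z1: one step of the zigzag -/
def S_Step : Prop :=
  ∀ n : ℕ, 1 ≤ n → ∃ ka : ℝ, 1 ≤ ka ∧ ∀ (bs : ℕ) (ze : XM n bs → ℝ) (a b : ℕ)
    (f : XM n b → XM n a) (de z om de' : ℝ), Continuous ze → ZSt n bs ze a b f de z om → 0 < de →
    0 < de' → ∃ (c : ℕ) (g : XM n c → XM n b), b < c ∧
      ZSt n bs ze b c g de' (z + om + ka * de) (ka * de) ∧
      ∀ w, dst n bs ze a (f (g w)) (sM n a c w) ≤ ka * de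

/-- Z2: Mioduszewski's lemma -/
def S_Mio : Prop :=
  ∀ (n : ℕ) (c : ℕ → ℕ) (F : ∀ m, XM n (c (m + 1)) → XM n (c m)) (eta : ℝ), 1 ≤ n → 0 < eta →
    (∀ m, c m ≤ c (m + 1)) → Tendsto c atTop atTop → (∀ m, Continuous (F m)) →
    (∀ m j, j ≤ m → ∀ y : XM n (c (m + 2)),
      dist (sM n (c j) (c m) (F m (F (m + 1) y))) (sM n (c j) (c (m + 2)) y) ≤ eta / 2 ^ m) →
    (∀ m j, j ≤ m → ∀ y : XM n (c (m + 3)),
      dist (sM n (c j) (c m) (F m (F (m + 1) (F (m + 2) y))))
        (sM n (c j) (c m) (F m (sM n (c (m + 1)) (c (m + 3)) y))) ≤ eta / 2 ^ m) →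
    ∃ h : UM n ≃ₜ UM n, (∀ x, dist (si n (c 0) (h x)) (F 0 (si n (c 1) x)) ≤ 4 * eta) ∧
      ∀ x j, Tendsto (fun i => sM n (c j) (c (2 * i)) (F (2 * i) (si n (c (2 * i + 1)) x)))
        atTop (𝓝 (si n (c j) (h x)))

/-- Z3: a state of the zigzag produces a homeomorphism of mu -/
def S_Zig : Prop :=
  ∀ n : ℕ, 1 ≤ n → ∃ ka : ℝ, 1 ≤ ka ∧ ∀ (bs : ℕ) (ze : XM n bs → ℝ) (a b : ℕ)
    (f : XM n b → XM n a) (de z om eta : ℝ), Continuous ze → ZSt n bs ze a b f de z om →
    0 < eta → ka * de ≤ eta →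
    ∃ h : UM n ≃ₜ UM n, (∀ x, dist (si n a (h x)) (f (si n b x)) ≤ 4 * eta) ∧
      ∀ x, z + om + ka * de + eta ≤ ze (si n bs x) → h x = x

/-! ### Core lemma -/

/-- C1: existence of the pinching map, and of the map pp -/
def S_PinEx : Prop :=
  ∀ (n bs : ℕ) (la : XM n bs → ℝ), 1 ≤ n → Continuous la → (∀ v, 0 ≤ la v) → (∀ v, la v ≤ 1) →
    (∃ th, IsPinch n bs la th) ∧
    (∀ (K : Set (UM n)) (u : UM n → SS n), IsCompact K → ContinuousOn u K →
      (∀ x, 0 < la (si n bs x) → x ∈ K) → (∃ pp, IsPP n bs la u pp)) ∧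
    CompactSpace ↥(Pin n bs la)

/-- C2: the pinching map is fine soft -/
def S_Pinch : Prop :=
  ∀ (n bs : ℕ) (la : XM n bs → ℝ) (th : XM n bs × SS n → ↥(Pin n bs la)), 1 ≤ n →
    Continuous la → (∀ v, 0 ≤ la v) → (∀ v, la v ≤ 1) → IsPinch n bs la th → FineSoft n th

/-- C3: softness of pp, the part where la is not small: lifting problems on cubical sets W rel W'
with la > 0 -/
def S_PPhi : Prop :=
  ∀ (n bs : ℕ) (la ze : XM n bs → ℝ) (V' K : Set (UM n)) (g : UM n → UM n) (d1 : ℝ)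
    (dY : ↥(Pin n bs la) → ↥(Pin n bs la) → ℝ) (de : ℝ),
    1 ≤ n → CoreData n bs la ze V' K g d1 → IsCPM dY → 0 < de →
    ∃ (b2 : ℕ) (eta : ℝ), bs ≤ b2 ∧ 0 < eta ∧ ∀ (a : ℕ) (th : XM n a → XM n b2 × SS n)
      (u : UM n → SS n) (pp : UM n → ↥(Pin n bs la)), b2 ≤ a → Continuous th →
      Soft n (fun p p' => dist p p') eta th → (∀ x, dist (th x).1 (sM n b2 a x) ≤ eta) →
      (∀ x ∈ V', u x = (th (si n a (g x))).2) → IsPP n bs la u pp →
      ∀ (m L : ℕ) (W W' : Set (Cube m)) (be : Cube m → ↥(Pin n bs la)) (al : Cube m → UM n),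
        m ≤ n → 1 ≤ L → Cubical L W → Cubical L W' → W' ⊆ W → ContinuousOn be W →
        ContinuousOn al W' → (∀ x ∈ W', pp (al x) = be x) → (∀ x ∈ W, 0 < la (be x).1.1) →
        ∃ (al' : Cube m → UM n) (G : I × Cube m → ↥(Pin n bs la)), ContinuousOn al' W ∧
          ContinuousOn G (univ ×ˢ W) ∧ (∀ x ∈ W', al' x = al x) ∧
          (∀ t, ∀ x ∈ W', G (t, x) = be x) ∧ (∀ x ∈ W, G (0, x) = pp (al' x)) ∧
          (∀ x ∈ W, G (1, x) = be x) ∧ ∀ t, ∀ x ∈ W, dY (G (t, x)) (be x) ≤ de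

/-- C4: softness of pp, the part where la is small -/
def S_PPlo : Prop :=
  ∀ (n bs : ℕ) (la ze : XM n bs → ℝ) (V' K : Set (UM n)) (g : UM n → UM n) (d1 : ℝ)
    (dY : ↥(Pin n bs la) → ↥(Pin n bs la) → ℝ) (de : ℝ),
    1 ≤ n → CoreData n bs la ze V' K g d1 → IsCPM dY → 0 < de →
    ∃ vt dp : ℝ, 0 < vt ∧ 0 < dp ∧ ∀ (u : UM n → SS n) (pp : UM n → ↥(Pin n bs la)),
      ContinuousOn u K → IsPP n bs la u pp →
      ∀ (m L : ℕ) (W W' : Set (Cube m)) (be : Cube m → ↥(Pin n bs la)) (al : Cube m → UM n)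
        (ga : I × Cube m → ↥(Pin n bs la)),
        m ≤ n → 1 ≤ L → Cubical L W → Cubical L W' → W' ⊆ W → ContinuousOn be W →
        ContinuousOn al W' → ContinuousOn ga (univ ×ˢ W') → (∀ x ∈ W', ga (0, x) = pp (al x)) →
        (∀ x ∈ W', ga (1, x) = be x) → (∀ t, ∀ x ∈ W', dist (ga (t, x)) (be x) ≤ dp) →
        (∀ x ∈ W, la (be x).1.1 ≤ vt) →
        ∃ (al' : Cube m → UM n) (G : I × Cube m → ↥(Pin n bs la)), ContinuousOn al' W ∧
          ContinuousOn G (univ ×ˢ W) ∧ (∀ x ∈ W', al' x = al x) ∧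
          (∀ t, ∀ x ∈ W', G (t, x) = ga (t, x)) ∧ (∀ x ∈ W, G (0, x) = pp (al' x)) ∧
          (∀ x ∈ W, G (1, x) = be x) ∧ ∀ t, ∀ x ∈ W, dY (G (t, x)) (be x) ≤ de

/-- C5: softness of pp -/
def S_PPSoft : Prop :=
  ∀ (n bs : ℕ) (la ze : XM n bs → ℝ) (V' K : Set (UM n)) (g : UM n → UM n) (d1 : ℝ)
    (dY : ↥(Pin n bs la) → ↥(Pin n bs la) → ℝ) (de : ℝ),
    1 ≤ n → CoreData n bs la ze V' K g d1 → IsCPM dY → 0 < de →
    ∃ (b2 : ℕ) (eta : ℝ), bs ≤ b2 ∧ 0 < eta ∧ ∀ (a : ℕ) (th : XM n a → XM n b2 × SS n)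
      (u : UM n → SS n) (pp : UM n → ↥(Pin n bs la)), b2 ≤ a → Continuous th →
      Soft n (fun p p' => dist p p') eta th → (∀ x, dist (th x).1 (sM n b2 a x) ≤ eta) →
      (∀ x ∈ V', u x = (th (si n a (g x))).2) → IsPP n bs la u pp → Soft n dY de pp

/-- C6: the finite level version P of pp -/
def S_PExt : Prop :=
  ∀ (n bs : ℕ) (la : XM n bs → ℝ) (K : Set (UM n)) (u : UM n → SS n) (d1 : ℝ)
    (pp : UM n → ↥(Pin n bs la)) (dY : ↥(Pin n bs la) → ↥(Pin n bs la) → ℝ) (de : ℝ),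
    1 ≤ n → Continuous la → (∀ v, 0 ≤ la v) → (∀ v, la v ≤ 1) → IsCompact K →
    ContinuousOn u K → 0 < d1 →
    (∀ (x : UM n) (v : XM n bs), dist v (si n bs x) ≤ d1 → 0 < la v → x ∈ K) →
    IsPP n bs la u pp → IsCPM dY → 0 < de → Soft n dY de pp →
    ∃ c0 : ℕ, bs ≤ c0 ∧ ∀ c, c0 ≤ c → ∃ P : ZM n c → ↥(Pin n bs la), Continuous P ∧
      Soft n dY (2 * de) P ∧ (∀ x, (P x).1.1 = sZ n bs c x) ∧
      (∀ x : UM n, dY (P (pZ n c (si n (c + 1) x))) (pp x) ≤ de)

/-- C7: the initial state of the zigzag for the core lemma -/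
def S_Init : Prop :=
  ∀ (n bs : ℕ) (la ze : XM n bs → ℝ) (V' K : Set (UM n)) (g : UM n → UM n) (d1 : ℝ) (ka e : ℝ),
    1 ≤ n → CoreData n bs la ze V' K g d1 → 1 ≤ ka → 0 < e →
    ∃ (a c : ℕ) (f : XM n c → XM n a) (s : XM n a → SS n) (de z om eta : ℝ),
      ZSt n bs ze a c f de z om ∧ 0 < de ∧ 0 < eta ∧ ka * de ≤ eta ∧
      z + om + ka * de + eta ≤ 1 / 2 ∧ Continuous s ∧
      ∀ x y : UM n, dist (si n a y) (f (si n c x)) ≤ 4 * eta →
        dist (si n bs y) (si n bs x) ≤ e ∧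
        (la (si n bs x) = 1 → ∀ l,
          |((((s (si n a y) : Cube (n + 2)) l : unitInterval) : ℝ) - 1 / 2) +
            ((((s (si n a (g x)) : Cube (n + 2)) l : unitInterval) : ℝ) - 1 / 2)| ≤ e)

/-- C8: the core lemma -/
def S_Core : Prop :=
  ∀ (n : ℕ) (V V' C : Set (UM n)) (g : UM n → UM n) (ep : ℝ), 1 ≤ n → IsOpen V → IsOpen V' →
    IsCompact C → C ⊆ V → C ⊆ V' → ContinuousOn g V' → InjOn g V' →
    (∀ W, W ⊆ V' → IsOpen W → IsOpen (g '' W)) → 0 < ep →
    ∃ k : UM n ≃ₜ UM n, (∀ x, x ∉ V → k x = x) ∧ (∀ x, dist (k x) x ≤ ep) ∧ ∀ x ∈ C, k x ≠ g x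

/-! ### Assembly -/

/-- A chart: an open set O of X with an open embedding into mu (given by a partial map) -/
structure IsChart {X : Type*} [TopologicalSpace X] (n : ℕ) (O : Set X) (phi : X → UM n)
    (inv : UM n → X) : Prop where
  isOpen : IsOpen O
  cont : ContinuousOn phi O
  openImage : IsOpen (phi '' O)
  contInv : ContinuousOn inv (phi '' O)
  left : ∀ x ∈ O, inv (phi x) = x

/-- X1: the Menger compactum as defined in the problem is homeomorphic to mu, and a Menger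
manifold has charts around every point -/
def S_Bridge : Prop :=
  ∀ n : ℕ, 1 ≤ n → Nonempty (↥(Menger n) ≃ₜ UM n)

/-- X2 -/
def S_Charts.{u} : Prop :=
  ∀ (n : ℕ) (X : Type u) [TopologicalSpace X], 1 ≤ n → IsMengerManifold n X →
    ∀ (x : X) (U : Set X), IsOpen U → x ∈ U →
      ∃ (O : Set X) (phi : X → UM n) (inv : UM n → X), IsChart n O phi inv ∧ x ∈ O ∧ O ⊆ U

/-- X3: one step -/
def S_AsmStep.{u} : Prop :=
  ∀ (n : ℕ) (X : Type u) [MetricSpace X] (O C : Set X) (phi : X → UM n) (inv : UM n → X)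
    (h : X ≃ₜ X) (ep : ℝ), 1 ≤ n → IsChart n O phi inv → IsCompact C → C ⊆ O → 0 < ep →
    ∃ k : X ≃ₜ X, (∀ x, x ∉ O → k x = x) ∧ (∀ x, dist (k x) x ≤ ep) ∧ ∀ x ∈ C, h (k x) ≠ x

/-- X4: locally finite families of charts -/
def S_LocFin.{u} : Prop :=
  ∀ (n : ℕ) (X : Type u) [MetricSpace X] [SecondCountableTopology X] [Nonempty X] (U : Set X),
    1 ≤ n → IsOpen U → (∀ x ∈ U, ∀ W : Set X, IsOpen W → x ∈ W →
      ∃ (O : Set X) (phi : X → UM n) (inv : UM n → X), IsChart n O phi inv ∧ x ∈ O ∧ O ⊆ W) →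
    ∃ (O C : ℕ → Set X) (phi : ℕ → X → UM n) (inv : ℕ → UM n → X),
      (∀ l, IsChart n (O l) (phi l) (inv l)) ∧ (∀ l, IsCompact (C l)) ∧ (∀ l, C l ⊆ O l) ∧
      (∀ l, IsCompact (closure (O l))) ∧ (∀ l, closure (O l) ⊆ U) ∧ (⋃ l, C l) = U ∧
      ∀ x ∈ U, ∃ W : Set X, IsOpen W ∧ x ∈ W ∧ ∃ N : ℕ, ∀ l, N ≤ l → Disjoint W (O l)

/-- X5: a gauge function -/
def S_Gauge.{u} : Prop :=
  ∀ (X : Type u) [MetricSpace X] (U : Set X), IsOpen U →
    (∀ x ∈ U, ∃ r : ℝ, 0 < r ∧ IsCompact (Metric.closedBall x r)) → U ≠ univ →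
    ∃ rho : X → ℝ, (∀ x y, |rho x - rho y| ≤ dist x y) ∧ (∀ x ∈ U, 0 < rho x) ∧
      (∀ x, x ∉ U → rho x = 0) ∧ (∀ x ∈ U, IsCompact (Metric.closedBall x (rho x))) ∧
      (∀ x ∈ U, Metric.closedBall x (rho x) ⊆ U)

/-- X6: infinite composition -/
def S_AsmLimit.{u} : Prop :=
  ∀ (X : Type u) [MetricSpace X] (U : Set X) (O C : ℕ → Set X) (rho : X → ℝ),
    IsOpen U → (∀ l, IsOpen (O l)) → (∀ l, IsCompact (C l)) → (∀ l, C l ⊆ O l) →
    (∀ l, IsCompact (closure (O l))) → (∀ l, closure (O l) ⊆ U) → (⋃ l, C l) = U →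
    (∀ x ∈ U, ∃ W : Set X, IsOpen W ∧ x ∈ W ∧ ∃ N : ℕ, ∀ l, N ≤ l → Disjoint W (O l)) →
    (∀ x y, |rho x - rho y| ≤ dist x y) → (∀ x ∈ U, 0 < rho x) → (∀ x, x ∉ U → rho x = 0) →
    (∀ x ∈ U, IsCompact (Metric.closedBall x (rho x))) →
    (∀ x ∈ U, Metric.closedBall x (rho x) ⊆ U) →
    (∀ (l : ℕ) (h : X ≃ₜ X) (ep : ℝ), 0 < ep →
      ∃ k : X ≃ₜ X, (∀ x, x ∉ O l → k x = x) ∧ (∀ x, dist (k x) x ≤ ep) ∧
        ∀ x ∈ C l, h (k x) ≠ x) →
    ∃ h : X ≃ₜ X, {x | h x = x} = Uᶜ

/-- the target -/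
def S_Target.{u} : Prop :=
  ∀ (n : ℕ), 1 ≤ n → ∀ (X : Type u) [TopologicalSpace X] [TopologicalSpace.MetrizableSpace X]
    [TopologicalSpace.SeparableSpace X], IsMengerManifold n X → HasCIPH X

end M202

end

section

/-!
MP_202a65_gt (captain helper47), item T (helper43).
-/

open Set Topology unitInterval Filter

namespace M202

theorem t_fine {R : Type} [TopologicalSpace R] (h5 : S_Basics) (n : ℕ) :
    FineSoft n (Subtype.val : ↥(univ : Set R) → R) := by
  intro D hD m hm eta' heta ze be al ga hze hbe hal hga h0 h1 hctrl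
  obtain ⟨al', G, hal', hG, hx1, hx2, hx3, hx4, hx5⟩ := (h5.2.2.1 n R) D hD m hm eta' heta ze be
    (fun x => (al x : R)) ga hze hbe (continuous_subtype_val.comp_continuousOn hal) hga h0 h1 hctrl
  refine ⟨fun x => ⟨al' x, trivial⟩, G, ?_, hG, fun x hx => Subtype.ext (hx1 x hx), hx2, hx3, hx4,
    hx5⟩
  rw [continuousOn_univ] at hal' ⊢
  exact hal'.subtype_mk _

theorem t_nil (h4 : S_F1) (h5 : S_Basics) (n : ℕ) : TConcl n [] 1 := by
  intro c R _ _ _ C q ph de hde hRC hq hph hs1 hs2 hFF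
  have hC : C = univ := by
    cases hRC
    rfl
  subst hC
  have := h4 n c ↥(univ : Set R) R (fun z => q z) q Subtype.val ph de 0 continuous_subtype_val
    (t_fine h5 n) (fun z => le_of_eq (c.cpm.self _)) hFF
  rwa [add_zero, ← one_mul de] at this

/-- the measure -/
def tMu (n : ℕ) (ka : List ℕ) : ℕ := (ka.map (fun k => 3 ^ (n + 2 - k))).sum

theorem pr_T (h1 : S_Tn) (h2 : S_Tn1) (h3 : S_Ttrade) (h4 : S_F1) (h5 : S_Basics) : S_T := by
  intro n ka hn
  induction hm : tMu n ka using Nat.strong_induction_on generalizing ka with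
  | _ m ih =>
    intro hka
    cases ka with
    | nil => exact ⟨1, le_rfl, t_nil h4 h5 n⟩
    | cons k ka =>
      have hk : k ≤ n + 1 := hka k (by simp)
      have hka' : ∀ l ∈ ka, l ≤ n + 1 := fun l hl => hka l (by simp [hl])
      have hmu : tMu n (k :: ka) = 3 ^ (n + 2 - k) + tMu n ka := by
        simp [tMu]
      have hpos : 0 < 3 ^ (n + 2 - k) := by positivity
      rcases Nat.lt_or_ge k n with hlt | hge
      · have hmu' : tMu n (ka ++ [k + 2]) = tMu n ka + 3 ^ (n - k) := by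
          simp only [tMu, List.map_append, List.sum_append, List.map_cons, List.map_nil,
            List.sum_cons, List.sum_nil, add_zero]
          congr 2
          omega
        have hpow : 3 ^ (n - k) < 3 ^ (n + 2 - k) :=
          Nat.pow_lt_pow_right (by norm_num) (by omega)
        obtain ⟨K, hK, hT⟩ := ih (tMu n (ka ++ [k + 2])) (by omega) (ka ++ [k + 2]) rfl (by
          intro l hl
          rcases List.mem_append.mp hl with hl | hl
          · exact hka' l hl
          · rw [List.mem_singleton] at hl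
            omega)
        exact ⟨20 * K + 20, by linarith, h3 n k ka K hn (by omega) hK hT⟩
      · obtain ⟨K, hK, hT⟩ := ih (tMu n ka) (by omega) ka rfl hka'
        rcases Nat.eq_or_lt_of_le hge with he | hg
        · refine ⟨8 * K + 8, by linarith, ?_⟩
          rw [← he]
          exact h1 n ka K hn hK hT
        · have he : k = n + 1 := by omega
          refine ⟨8 * K + 8, by linarith, ?_⟩
          rw [he]
          exact h2 n ka K hn hK hT

end M202

end

section

/-!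
MP_202a65_gt (captain helper47): item Tn (T-theorem, first stage of dimension n).
-/

open Set Topology unitInterval Filter

namespace M202

theorem Tn_FFmono {n : ℕ} (c : TCtx n) {C : Type} [TopologicalSpace C] (q : C → c.Y)
    (ph : c.X c.b0 → C) (eps eps' : ℝ) (h : eps ≤ eps') (hF : FF c q ph eps) :
    FF c q ph eps' := by
  intro D hD eta heta
  obtain ⟨b, th, hb, hth, hs, h1, h2⟩ := hF D hD eta heta
  exact ⟨b, th, hb, hth, hs, fun x => le_trans (h1 x) (by linarith), h2⟩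

theorem Tn_FFne {n : ℕ} (c : TCtx n) {C : Type} [TopologicalSpace C] (q : C → c.Y)
    (ph : c.X c.b0 → C) (eps : ℝ) (hF : FF c q ph eps) : Nonempty C := by
  have hD : IsCPM (fun _ _ : C => (0 : ℝ)) :=
    ⟨fun _ => rfl, fun _ _ => rfl, fun _ _ _ => by simp, continuous_const⟩
  obtain ⟨b, th, _⟩ := hF _ hD 1 one_pos
  obtain ⟨x⟩ := c.tower.nonempty b
  exact ⟨th x⟩

open Classical in
theorem pr_Tn (h1 : S_F5) (h2 : S_AttAdj) (h3 : S_SoftExt) (h4 : S_Basics) (h5 : S_RCAppend)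
    (_h6 : S_F1) (_h7 : S_UC) : S_Tn := by
  intro n ka K hn hK hT c R _ _ _ C q ph de hde hRC hq hph hsC hs hFF
  have hdY : IsCPM c.dY := c.cpm
  cases hRC with
  | cons _ C1 _ _ _ N e hatt hcells hRC1 =>
  obtain ⟨c0⟩ := Tn_FFne c _ _ _ hFF
  have hqC : Continuous (fun z : ↥C => q z) := hq.comp continuous_subtype_val
  have hrel := h4.2.2.2.2.1 n (↥C) c.Y (fun z : ↥C => q z) c.dY de hdY hsC
  have hcell : ∀ l y y', c.dY (q (e l y)) (q (e l y')) ≤ de :=
    fun l y y' => (hcells l).1 _ ⟨y, rfl⟩ _ ⟨y', rfl⟩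
  have hfar : ∀ l y, ∀ x ∈ c.F, (8 * K + 8) * de ≤ c.dY (q (e l y)) (q (ph x)) :=
    fun l y x hx => (hcells l).2 _ ⟨y, rfl⟩ x hx
  have hex : ∀ l : Fin N, ∃ rho : Cube n → ↥C, Continuous rho ∧
      (∀ y ∈ bd n, (rho y : R) = e l y) ∧ ∀ y, c.dY (q (rho y)) (q (e l y)) ≤ 2 * de := by
    intro l
    let al : Cube n → ↥C := fun y => if h : e l y ∈ C then ⟨e l y, h⟩ else c0
    have halv : ∀ y ∈ bd n, (al y : R) = e l y := by
      intro y hy
      show ((if h : e l y ∈ C then (⟨e l y, h⟩ : ↥C) else c0 : ↥C) : R) = e l y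
      rw [dif_pos (hatt.bdry l y hy)]
    have halc : ContinuousOn al (bd n) := by
      rw [Topology.IsInducing.subtypeVal.continuousOn_iff]
      exact (hatt.cont l).continuousOn.congr (fun y hy => halv y hy)
    obtain ⟨rho, G, hr, _, hrb, _, hG0, _, hGd⟩ := hrel n le_rfl (2 * de) (by linarith)
      (fun y => q (e l y)) al (hq.comp (hatt.cont l)) halc
      (fun y hy => by
        show q (al y) = q (e l y)
        rw [halv y hy])
    refine ⟨rho, hr, fun y hy => ?_, fun y => ?_⟩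
    · rw [hrb y hy]; exact halv y hy
    · have := hGd 0 y
      rw [hG0 y] at this
      exact this
  choose rho hrc hrb hrd using hex
  obtain ⟨hss, ph2, j, hC1, hadj, hjv, hphv⟩ := h2 R C C1 n N e ⟨c0.1, c0.2⟩ hatt
  have : CompactSpace ↥C := isCompact_iff_compactSpace.1 hatt.closed.isCompact
  have : CompactSpace ↥C1 := isCompact_iff_compactSpace.1 hC1.isCompact
  have hrd' : ∀ l y, c.dY (q (e l y)) (q (rho l y)) ≤ 2 * de := by
    intro l y
    rw [hdY.symm]; exact hrd l y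
  have hFF1 : FF c (fun z : ↥C1 => q z) (fun x => Set.inclusion hss (ph x)) (de + 5 * de) := by
    refine h1 n N c (↥C) (↥C1) (fun p => rho p.1 p.2) ph2 (Set.inclusion hss) j
      (fun z : ↥C1 => q z) ph de (5 * de) hn ?_ ?_ hadj ?_ (hq.comp continuous_subtype_val) hph
      (by linarith) ?_ ?_ hFF
    · exact continuous_prod_of_discrete_left.2 (fun l => hrc l)
    · rintro ⟨l, y⟩ x hx heq
      have ha := hfar l y x hx
      have hb := hrd' l y
      have hc : rho l y = ph x := heq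
      rw [hc] at hb
      nlinarith
    · intro l y hy
      apply Subtype.ext
      rw [hphv (l, y) hy, hrb l y hy]
    · intro l y y'
      show c.dY (q (j (l, y) : R)) (q (rho l y' : R)) ≤ 5 * de
      rw [hjv (l, y)]
      have ha := hdY.tri (q (e l y)) (q (e l y')) (q (rho l y'))
      have hb := hcell l y y'
      have hc := hrd' l y'
      linarith
    · intro l y y'
      show c.dY (q (rho l y : R)) (q (rho l y' : R)) ≤ 5 * de
      have ha := hdY.tri (q (rho l y)) (q (e l y)) (q (rho l y'))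
      have ha' := hdY.tri (q (e l y)) (q (e l y')) (q (rho l y'))
      have hb := hcell l y y'
      have hc := hrd' l y'
      have hd := hrd l y
      linarith
  have hsC1 : Soft n c.dY (2 * de) (fun z : ↥C1 => q z) :=
    h3 n n N R c.Y c.dY C C1 e q de hn le_rfl hdY hq hatt hde.le hcell hsC
  have hfin := hT c R C1 q (fun x => Set.inclusion hss (ph x)) (8 * de) (by linarith)
    (h5.2.1 R _ _ C1 univ ka (fun E hE => ⟨fun z hz z' hz' => ?_, fun z hz x hx => ?_⟩) hRC1)
    hq ((continuous_inclusion hss).comp_continuousOn hph)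
    (h4.1 n n _ _ c.dY c.dY (2 * de) (8 * de) _ le_rfl (by linarith) hdY hdY
      (hq.comp continuous_subtype_val) (fun _ _ => le_rfl) hsC1)
    (h4.1 n n _ _ c.dY c.dY de (8 * de) _ le_rfl (by linarith) hdY hdY hq
      (fun _ _ => le_rfl) hs)
    (Tn_FFmono c _ _ _ _ (by linarith) hFF1)
  · exact Tn_FFmono c _ _ _ _ (by nlinarith) hfin
  · exact le_trans (hE.1 z hz z' hz') (by linarith)
  · refine le_trans ?_ (hE.2 z hz x hx)
    nlinarith

end M202

end

section

/-!
MP_202a65_gt (captain helper47): item Tn1 (T-theorem, first stage of dimension n+1).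
-/

open Set Topology unitInterval Filter

namespace M202

theorem Tn1_FFmono {n : ℕ} (c : TCtx n) {C : Type} [TopologicalSpace C] (q : C → c.Y)
    (ph : c.X c.b0 → C) (eps eps' : ℝ) (h : eps ≤ eps') (hF : FF c q ph eps) :
    FF c q ph eps' := by
  intro D hD eta heta
  obtain ⟨b, th, hb, hth, hs, h1, h2⟩ := hF D hD eta heta
  exact ⟨b, th, hb, hth, hs, fun x => le_trans (h1 x) (by linarith), h2⟩

theorem Tn1_FFne {n : ℕ} (c : TCtx n) {C : Type} [TopologicalSpace C] (q : C → c.Y)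
    (ph : c.X c.b0 → C) (eps : ℝ) (hF : FF c q ph eps) : Nonempty C := by
  have hD : IsCPM (fun _ _ : C => (0 : ℝ)) :=
    ⟨fun _ => rfl, fun _ _ => rfl, fun _ _ _ => by simp, continuous_const⟩
  obtain ⟨b, th, _⟩ := hF _ hD 1 one_pos
  obtain ⟨x⟩ := c.tower.nonempty b
  exact ⟨th x⟩

theorem pr_Tn1 (h1 : S_F6) (h2 : S_AttAdj) (h3 : S_SoftExt) (h4 : S_Basics) (h5 : S_RCAppend)
    (_h6 : S_F1) (_h7 : S_UC) : S_Tn1 := by
  intro n ka K hn hK hT c R _ _ _ C q ph de hde hRC hq hph hsC hs hFF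
  have hdY : IsCPM c.dY := c.cpm
  cases hRC with
  | cons _ C1 _ _ _ N e hatt hcells hRC1 =>
  obtain ⟨c0⟩ := Tn1_FFne c _ _ _ hFF
  have hcell : ∀ l y y', c.dY (q (e l y)) (q (e l y')) ≤ de :=
    fun l y y' => (hcells l).1 _ ⟨y, rfl⟩ _ ⟨y', rfl⟩
  have hfar : ∀ l y, ∀ x ∈ c.F, (8 * K + 8) * de ≤ c.dY (q (e l y)) (q (ph x)) :=
    fun l y x hx => (hcells l).2 _ ⟨y, rfl⟩ x hx
  obtain ⟨hss, ph2, j, hC1, hadj, hjv, hphv⟩ := h2 R C C1 (n + 1) N e ⟨c0.1, c0.2⟩ hatt
  have : CompactSpace ↥C := isCompact_iff_compactSpace.1 hatt.closed.isCompact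
  have : CompactSpace ↥C1 := isCompact_iff_compactSpace.1 hC1.isCompact
  have hFF1 : FF c (fun z : ↥C1 => q z) (fun x => Set.inclusion hss (ph x)) (de + de) := by
    refine h1 n N c (↥C) (↥C1) ph2 (Set.inclusion hss) j
      (fun z : ↥C1 => q z) ph de de hn ⟨c0⟩ ?_ hadj (hq.comp continuous_subtype_val) hph
      hde.le ?_ hFF
    · intro l y hy x hx heq
      have ha := hfar l y x hx
      have hc : (ph2 (l, y) : R) = (ph x : R) := by rw [heq]
      rw [hphv (l, y) hy] at hc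
      have hc' : e l y = (ph x : R) := hc
      rw [hc', hdY.self] at ha
      nlinarith
    · intro l y y'
      show c.dY (q (j (l, y) : R)) (q (j (l, y') : R)) ≤ de
      rw [hjv (l, y), hjv (l, y')]
      exact hcell l y y'
  have hsC1 : Soft n c.dY (2 * de) (fun z : ↥C1 => q z) :=
    h3 n (n + 1) N R c.Y c.dY C C1 e q de hn (Nat.le_succ n) hdY hq hatt hde.le hcell hsC
  have hfin := hT c R C1 q (fun x => Set.inclusion hss (ph x)) (8 * de) (by linarith)
    (h5.2.1 R _ _ C1 univ ka (fun E hE => ⟨fun z hz z' hz' => ?_, fun z hz x hx => ?_⟩) hRC1)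
    hq ((continuous_inclusion hss).comp_continuousOn hph)
    (h4.1 n n _ _ c.dY c.dY (2 * de) (8 * de) _ le_rfl (by linarith) hdY hdY
      (hq.comp continuous_subtype_val) (fun _ _ => le_rfl) hsC1)
    (h4.1 n n _ _ c.dY c.dY de (8 * de) _ le_rfl (by linarith) hdY hdY hq
      (fun _ _ => le_rfl) hs)
    (Tn1_FFmono c _ _ _ _ (by linarith) hFF1)
  · exact Tn1_FFmono c _ _ _ _ (by nlinarith) hfin
  · exact le_trans (hE.1 z hz z' hz') (by linarith)
  · refine le_trans ?_ (hE.2 z hz x hx)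
    nlinarith

end M202

end

section

/-!
MP_202a65_gt, item Ttrade (helper59): the trade of a k-cell for a (k+2)-cell.
-/

open Set Topology unitInterval Filter

namespace M202

theorem Ttrade_FFmono {n : ℕ} (c : TCtx n) {C : Type} [TopologicalSpace C] (q : C → c.Y)
    (ph : c.X c.b0 → C) {eps eps' : ℝ} (h : eps ≤ eps') (hF : FF c q ph eps) :
    FF c q ph eps' := by
  intro D hD eta heta
  obtain ⟨b, th, h1, h2, h3, h4, h5⟩ := hF D hD eta heta
  exact ⟨b, th, h1, h2, h3, fun x => (h4 x).trans (by linarith), h5⟩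

theorem Ttrade_softmono (h10 : S_Basics) {n : ℕ} {A B : Type} [TopologicalSpace A]
    [TopologicalSpace B] (D : B → B → ℝ) (hD : IsCPM D) (th : A → B) (hth : Continuous th)
    {eta eta' : ℝ} (h : eta ≤ eta') (hS : Soft n D eta th) : Soft n D eta' th :=
  h10.1 n n A B D D eta eta' th le_rfl h hD hD hth (fun _ _ => le_rfl) hS

theorem Ttrade_bd (k : ℕ) (t : I) (y : Cube k) :
    (Fin.cons t y : Cube (k + 1)) ∈ bd (k + 1) ↔ t = 0 ∨ t = 1 ∨ y ∈ bd k := by
  constructor
  · rintro ⟨i, hi⟩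
    induction i using Fin.cases with
    | zero =>
      rcases hi with hi | hi
      · left; simpa using hi
      · right; left; simpa using hi
    | succ i =>
      right; right
      exact ⟨i, by simpa using hi⟩
  · rintro (h | h | ⟨i, hi⟩)
    · exact ⟨0, Or.inl (by simpa using h)⟩
    · exact ⟨0, Or.inr (by simpa using h)⟩
    · exact ⟨i.succ, by simpa using hi⟩

theorem Ttrade_bdclosed (k : ℕ) : IsClosed (bd k) := by
  have : bd k = ⋃ i : Fin k, ({y | y i = 0} ∪ {y | y i = 1}) := by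
    ext y; simp [bd]
  rw [this]
  refine isClosed_iUnion_of_finite fun i => ?_
  exact (isClosed_eq (continuous_apply i) continuous_const).union
    (isClosed_eq (continuous_apply i) continuous_const)

theorem Ttrade_cons_cont (k : ℕ) :
    Continuous (fun p : Cube k × I => (Fin.cons p.2 p.1 : Cube (k + 1))) := by
  refine continuous_pi fun i => ?_
  induction i using Fin.cases with
  | zero => simpa using continuous_snd
  | succ i =>
    show Continuous (fun p : Cube k × I => p.1 i)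
    exact (continuous_apply i).comp continuous_fst

/-- steps (1) and (2) -/
theorem Ttrade_lift (h10 : S_Basics) {n k : ℕ} (hk : k + 1 ≤ n) {R Y : Type}
    [TopologicalSpace R] [TopologicalSpace Y] (dY : Y → Y → ℝ) (hD : IsCPM dY) (C : Set R)
    (hCne : C.Nonempty) (q : R → Y) (hq : Continuous q) (de : ℝ) (hde : 0 < de)
    (hs : Soft n dY de (fun z : ↥C => q z)) (hs' : Soft n dY de q) (e : Cube k → R)
    (he : Continuous e) (heb : ∀ y ∈ bd k, e y ∈ C) :
    ∃ (rho : Cube k → ↥C) (h : Cube k × I → R), Continuous rho ∧ Continuous h ∧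
      (∀ y ∈ bd k, (rho y : R) = e y) ∧ (∀ y, h (y, 0) = rho y) ∧ (∀ y, h (y, 1) = e y) ∧
      (∀ y ∈ bd k, ∀ t, h (y, t) = e y) ∧ (∀ y, dY (q (rho y)) (q (e y)) ≤ 2 * de) ∧
      (∀ y t, dY (q (h (y, t))) (q (e y)) ≤ 4 * de) := by
  classical
  obtain ⟨c0, hc0⟩ := hCne
  have b5 := h10.2.2.2.2.1
  have hR1 := b5 n _ _ (fun z : ↥C => q z) dY de hD hs
  have hR2 := b5 n _ _ q dY de hD hs'
  let al : Cube k → ↥C := fun y => if h : e y ∈ C then ⟨e y, h⟩ else ⟨c0, hc0⟩
  have hal : ∀ y ∈ bd k, (al y : R) = e y := by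
    intro y hy
    simp only [al]
    rw [dif_pos (heb y hy)]
  have halc : ContinuousOn al (bd k) := by
    rw [IsEmbedding.subtypeVal.continuousOn_iff]
    exact he.continuousOn.congr fun y hy => hal y hy
  obtain ⟨rho, G, r1, r2, r3, r4, r5, r6, r7⟩ := hR1 k (by omega) (2 * de) (by linarith)
    (fun y => q (e y)) al (hq.comp he) halc (fun y hy => by
      show q (al y) = q (e y)
      rw [hal y hy])
  have hrb : ∀ y ∈ bd k, (rho y : R) = e y := fun y hy => by rw [r3 y hy, hal y hy]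
  -- the second lift
  let be : Cube (k + 1) → Y := fun y => G (y 0, Fin.tail y)
  have htail : Continuous (fun y : Cube (k + 1) => (Fin.tail y : Cube k)) :=
    continuous_pi fun i => continuous_apply _
  have hbe : Continuous be := r2.comp ((continuous_apply 0).prodMk htail)
  let al2 : Cube (k + 1) → R := fun y => if y 0 = 0 then (rho (Fin.tail y) : R) else e (Fin.tail y)
  have hbdsub : bd (k + 1) ⊆ {y | y 0 = 0} ∪ {y | y 0 = 1 ∨ (Fin.tail y : Cube k) ∈ bd k} := by
    intro y hy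
    have : (Fin.cons (y 0) (Fin.tail y) : Cube (k + 1)) ∈ bd (k + 1) := by
      rw [Fin.cons_self_tail]; exact hy
    rw [Ttrade_bd] at this
    rcases this with h | h | h
    · exact Or.inl h
    · exact Or.inr (Or.inl h)
    · exact Or.inr (Or.inr h)
  have hal2' : ∀ y : Cube (k + 1), y 0 = 1 ∨ (Fin.tail y : Cube k) ∈ bd k →
      al2 y = e (Fin.tail y) := by
    intro y hy
    simp only [al2]
    split_ifs with h0
    · rcases hy with hy | hy
      · rw [h0] at hy; exact absurd hy (by simp)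
      · exact hrb _ hy
    · rfl
  have hal2c : ContinuousOn al2 (bd (k + 1)) := by
    refine ContinuousOn.mono ?_ hbdsub
    refine ContinuousOn.union_of_isClosed ?_ ?_ ?_ ?_
    · refine ContinuousOn.congr (f := fun y : Cube (k + 1) => (rho (Fin.tail y) : R)) ?_ ?_
      · exact (continuous_subtype_val.comp (r1.comp htail)).continuousOn
      · intro y hy
        have : y 0 = 0 := hy
        simp only [al2, if_pos this]
    · refine ContinuousOn.congr (f := fun y : Cube (k + 1) => e (Fin.tail y)) ?_ ?_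
      · exact (he.comp htail).continuousOn
      · intro y hy
        exact hal2' y hy
    · exact isClosed_eq (continuous_apply 0) continuous_const
    · exact (isClosed_eq (continuous_apply 0) continuous_const).union
        ((Ttrade_bdclosed k).preimage htail)
  obtain ⟨h', H, s1, s2, s3, s4, s5, s6, s7⟩ := hR2 (k + 1) hk (2 * de) (by linarith)
    be al2 hbe hal2c (by
      intro y hy
      rcases hbdsub hy with h0 | h0
      · have h0' : y 0 = 0 := h0
        simp only [al2, be]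
        rw [if_pos h0', h0']
        exact (r5 _).symm
      · rw [hal2' y h0]
        simp only [be]
        rcases h0 with h1 | h1
        · rw [h1]; exact (r6 _).symm
        · exact (r4 _ _ h1).symm)
  refine ⟨rho, fun p => h' (Fin.cons p.2 p.1), r1, s1.comp (Ttrade_cons_cont k), hrb, ?_, ?_, ?_,
    ?_, ?_⟩
  · intro y
    show h' (Fin.cons 0 y) = rho y
    rw [s3 _ ((Ttrade_bd k 0 y).2 (Or.inl rfl))]
    simp only [al2]
    rw [if_pos (by simp), Fin.tail_cons]
  · intro y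
    show h' (Fin.cons 1 y) = e y
    rw [s3 _ ((Ttrade_bd k 1 y).2 (Or.inr (Or.inl rfl))), hal2' _ (Or.inl (by simp)),
      Fin.tail_cons]
  · intro y hy t
    show h' (Fin.cons t y) = e y
    rw [s3 _ ((Ttrade_bd k t y).2 (Or.inr (Or.inr hy))), hal2' _ (Or.inr (by
      rw [Fin.tail_cons]; exact hy)), Fin.tail_cons]
  · intro y
    have := r7 0 y
    rw [r5] at this
    exact this
  · intro y t
    show dY (q (h' (Fin.cons t y))) (q (e y)) ≤ 4 * de
    have h1 := s7 0 (Fin.cons t y)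
    rw [s5] at h1
    have h2 : be (Fin.cons t y) = G (t, y) := by
      simp only [be, Fin.tail_cons, Fin.cons_zero]
    rw [h2] at h1
    have h3 := r7 t y
    have h4 := hD.tri (q (h' (Fin.cons t y))) (G (t, y)) (q (e y))
    linarith

/-- the data of the trade -/
structure Ttrade_data {R Y : Type} [TopologicalSpace R] [TopologicalSpace Y] (k N : ℕ)
    (C : Set R) (q : R → Y) (dY : Y → Y → ℝ) (de : ℝ) (e : Fin N → Cube k → R)
    (rho : Fin N × Cube k → ↥C) (h : Fin N × (Cube k × I) → R) : Prop where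
  contr : Continuous rho
  conth : Continuous h
  rb : ∀ l, ∀ y ∈ bd k, (rho (l, y) : R) = e l y
  h0 : ∀ l y, h (l, (y, 0)) = rho (l, y)
  h1 : ∀ l y, h (l, (y, 1)) = e l y
  hb : ∀ l, ∀ y ∈ bd k, ∀ t, h (l, (y, t)) = e l y
  d1 : ∀ l y, dY (q (rho (l, y))) (q (e l y)) ≤ 2 * de
  d2 : ∀ l y t, dY (q (h (l, (y, t)))) (q (e l y)) ≤ 4 * de

theorem Ttrade_data_ex (h10 : S_Basics) {n k N : ℕ} (hk : k + 1 ≤ n) {R Y : Type}
    [TopologicalSpace R] [TopologicalSpace Y] (dY : Y → Y → ℝ) (hD : IsCPM dY) (C : Set R)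
    (hCne : C.Nonempty) (q : R → Y) (hq : Continuous q) (de : ℝ) (hde : 0 < de)
    (hs : Soft n dY de (fun z : ↥C => q z)) (hs' : Soft n dY de q) (e : Fin N → Cube k → R)
    (he : ∀ l, Continuous (e l)) (heb : ∀ l, ∀ y ∈ bd k, e l y ∈ C) :
    ∃ (rho : Fin N × Cube k → ↥C) (h : Fin N × (Cube k × I) → R),
      Ttrade_data k N C q dY de e rho h := by
  have hh := fun l => Ttrade_lift h10 hk dY hD C hCne q hq de hde hs hs' (e l) (he l) (heb l)
  choose rho h a1 a2 a3 a4 a5 a6 a7 a8 using hh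
  refine ⟨fun p => rho p.1 p.2, fun p => h p.1 p.2, ?_, ?_, a3, a4, a5, a6, a7, a8⟩
  · rw [continuous_prod_of_discrete_left]; exact a1
  · rw [continuous_prod_of_discrete_left]; exact a2

/-- the set A of the big adjunction space -/
def TtradeA (k N : ℕ) : Set (Fin N × (Cube k × (I × I))) :=
  {p | p.2.2.2 = 1 ∨ p.2.2.1 = 0 ∨ p.2.2.1 = 1 ∨ p.2.1 ∈ bd k}

theorem TtradeA_closed (k N : ℕ) : IsClosed (TtradeA k N) := by
  have c1 : Continuous (fun p : Fin N × (Cube k × (I × I)) => p.2.1) := by fun_prop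
  have c2 : Continuous (fun p : Fin N × (Cube k × (I × I)) => p.2.2.1) := by fun_prop
  have c3 : Continuous (fun p : Fin N × (Cube k × (I × I)) => p.2.2.2) := by fun_prop
  exact (isClosed_eq c3 continuous_const).union ((isClosed_eq c2 continuous_const).union
    ((isClosed_eq c2 continuous_const).union ((Ttrade_bdclosed k).preimage c1)))

/-- s + u (1 - s) -/
def Ttrade_up (u s : I) : I := σ (σ s * σ u)

theorem Ttrade_up_zero (s : I) : Ttrade_up 0 s = s := by
  simp [Ttrade_up]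

theorem Ttrade_up_one (s : I) : Ttrade_up 1 s = 1 := by
  simp [Ttrade_up]

theorem Ttrade_up_one' (u : I) : Ttrade_up u 1 = 1 := by
  simp [Ttrade_up]

theorem Ttrade_up_cont : Continuous (fun p : I × I => Ttrade_up p.1 p.2) := by
  unfold Ttrade_up
  exact continuous_symm.comp ((continuous_symm.comp continuous_snd).mul
    (continuous_symm.comp continuous_fst))

/-- the attaching map of the big adjunction space -/
def TtradePh {R : Type} {k N : ℕ} (h : Fin N × (Cube k × I) → R)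
    (p : Fin N × (Cube k × (I × I))) : R := h (p.1, (p.2.1, p.2.2.1))

/-- step (3): the retraction R' → R is fine soft -/
theorem Ttrade_retr (h4 : S_AdjDesc) (h5 : S_SDR) (n : ℕ) {k N : ℕ} {R R' : Type}
    [TopologicalSpace R] [CompactSpace R] [T2Space R] [TopologicalSpace R'] [CompactSpace R']
    [T2Space R'] (h : Fin N × (Cube k × I) → R) (hh : Continuous h) (i : R → R')
    (j : Fin N × (Cube k × (I × I)) → R') (hadj : IsAdj (TtradeA k N) (TtradePh h) i j) :
    ∃ r : R' → R, Continuous r ∧ (∀ x, r (i x) = x) ∧ (∀ p, r (j p) = TtradePh h p) ∧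
      FineSoft n r := by
  have hph : Continuous (TtradePh h) := by
    unfold TtradePh
    exact hh.comp (by fun_prop)
  obtain ⟨r, r1, r2, r3⟩ := (h4 R (Fin N × (Cube k × (I × I))) R' R (TtradeA k N) (TtradePh h)
    i j hadj).1 id (TtradePh h) continuous_id hph (fun t _ => rfl)
  obtain ⟨K, k1, k2, k3⟩ := (h4 R (Fin N × (Cube k × (I × I))) R' R' (TtradeA k N) (TtradePh h)
    i j hadj).2.1 (fun p => i p.2)
    (fun p => j (p.2.1, (p.2.2.1, (p.2.2.2.1, Ttrade_up p.1 p.2.2.2.2))))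
    (hadj.conti.comp continuous_snd)
    (by
      refine hadj.contj.comp ?_
      refine Continuous.prodMk (by fun_prop) (Continuous.prodMk (by fun_prop)
        (Continuous.prodMk (by fun_prop) ?_))
      exact Ttrade_up_cont.comp (f := fun p : I × (Fin N × (Cube k × (I × I))) =>
        (p.1, p.2.2.2.2)) (by fun_prop))
    (by
      rintro u ⟨l, y, t, s⟩ ht
      have : (l, (y, (t, Ttrade_up u s))) ∈ TtradeA k N := by
        rcases ht with ht | ht | ht | ht
        · left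
          have hs : s = 1 := ht
          show Ttrade_up u s = 1
          rw [hs, Ttrade_up_one']
        · right; left; exact ht
        · right; right; left; exact ht
        · right; right; right; exact ht
      exact hadj.agree _ this)
  refine ⟨r, r1, r2, r3, ?_⟩
  have hcases : ∀ (P : R' → Prop), (∀ x, P (i x)) → (∀ p, P (j p)) → ∀ z, P z := by
    intro P p1 p2 z
    rcases hadj.surj z with ⟨x, rfl⟩ | ⟨t, rfl⟩
    · exact p1 x
    · exact p2 t
  refine h5 n R' R r i K r1 hadj.conti k1 ?_ ?_ r2 ?_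
  · refine hcases _ (fun x => k2 0 x) ?_
    rintro ⟨l, y, t, s⟩
    rw [k3]
    simp only [Ttrade_up_zero]
  · refine hcases _ (fun x => by rw [k2, r2]; rfl) ?_
    rintro ⟨l, y, t, s⟩
    rw [k3, r3]
    simp only [Ttrade_up_one]
    exact hadj.agree _ (Or.inl rfl)
  · intro u
    refine hcases _ (fun x => by rw [k2]) ?_
    rintro ⟨l, y, t, s⟩
    rw [k3, r3, r3]
    rfl

/-- the base of the last stage -/
def TtradeC' {R R' : Type} {k N : ℕ} (C : Set R) (i : R → R')
    (j : Fin N × (Cube k × (I × I)) → R') : Set R' :=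
  i '' C ∪ range (fun p : Fin N × (Cube k × I) => j (p.1, (p.2.1, (p.2.2, 0))))

theorem TtradeC'_closed {R R' : Type} [TopologicalSpace R] [CompactSpace R] [T2Space R]
    [TopologicalSpace R'] [CompactSpace R'] [T2Space R'] {k N : ℕ} (C : Set R) (hC : IsClosed C)
    (i : R → R') (hi : Continuous i)
    (j : Fin N × (Cube k × (I × I)) → R') (hj : Continuous j) :
    IsClosed (TtradeC' C i j) := by
  refine (hC.isCompact.image hi).isClosed.union ?_
  exact (isCompact_range (hj.comp (by fun_prop))).isClosed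

/-- the inclusion of C in C' -/
def Ttradei' {R R' : Type} {k N : ℕ} (C : Set R) (i : R → R')
    (j : Fin N × (Cube k × (I × I)) → R') (x : ↥C) : ↥(TtradeC' C i j) :=
  ⟨i x, Or.inl ⟨x, x.2, rfl⟩⟩

/-- the lenses in C' -/
def Ttradej' {R R' : Type} {k N : ℕ} (C : Set R) (i : R → R')
    (j : Fin N × (Cube k × (I × I)) → R') (p : Fin N × (Cube k × I)) : ↥(TtradeC' C i j) :=
  ⟨j (p.1, (p.2.1, (p.2.2, 0))), Or.inr ⟨p, rfl⟩⟩

/-- facts about j on the bottom -/
theorem Ttrade_j_A {R R' Y : Type} [TopologicalSpace R] [TopologicalSpace R']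
    [TopologicalSpace Y] {k N : ℕ} {C : Set R} {q : R → Y} {dY : Y → Y → ℝ} {de : ℝ}
    {e : Fin N → Cube k → R} {rho : Fin N × Cube k → ↥C} {h : Fin N × (Cube k × I) → R}
    (hdat : Ttrade_data k N C q dY de e rho h) {i : R → R'}
    {j : Fin N × (Cube k × (I × I)) → R'} (hadj : IsAdj (TtradeA k N) (TtradePh h) i j) :
    (∀ l y s, j (l, (y, (0, s))) = i (rho (l, y))) ∧
    (∀ l y s, j (l, (y, (1, s))) = i (e l y)) ∧
    (∀ l, ∀ y ∈ bd k, ∀ t s, j (l, (y, (t, s))) = i (e l y)) ∧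
    (∀ l y t, j (l, (y, (t, 1))) = i (h (l, (y, t)))) := by
  refine ⟨fun l y s => ?_, fun l y s => ?_, fun l y hy t s => ?_, fun l y t => ?_⟩
  · rw [hadj.agree _ (Or.inr (Or.inl rfl))]
    show i (h (l, (y, 0))) = _
    rw [hdat.h0]
  · rw [hadj.agree _ (Or.inr (Or.inr (Or.inl rfl)))]
    show i (h (l, (y, 1))) = _
    rw [hdat.h1]
  · rw [hadj.agree _ (Or.inr (Or.inr (Or.inr hy)))]
    show i (h (l, (y, t))) = _
    rw [hdat.hb _ _ hy]
  · exact hadj.agree _ (Or.inl rfl)

theorem Ttrade_notA {k N : ℕ} (l : Fin N) (y : Cube k) (t s : I) (hy : y ∉ bd k) (h0 : t ≠ 0)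
    (h1 : t ≠ 1) (hs : s ≠ 1) : (l, (y, (t, s))) ∉ TtradeA k N := by
  rintro (h | h | h | h)
  · exact hs h
  · exact h0 h
  · exact h1 h
  · exact hy h

/-- step (4): the reduced lenses -/
theorem Ttrade_adj' {R R' Y : Type} [TopologicalSpace R] [TopologicalSpace R']
    [TopologicalSpace Y] {k N : ℕ} {C C1 : Set R} {q : R → Y} {dY : Y → Y → ℝ} {de : ℝ}
    {e : Fin N → Cube k → R} {rho : Fin N × Cube k → ↥C} {h : Fin N × (Cube k × I) → R}
    (hatt : Att C C1 k N e)
    (hdat : Ttrade_data k N C q dY de e rho h) {i : R → R'}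
    {j : Fin N × (Cube k × (I × I)) → R'} (hadj : IsAdj (TtradeA k N) (TtradePh h) i j) :
    IsAdj {p : Fin N × (Cube k × I) | p.2 ∈ {p : Cube k × I | p.2 = 0 ∨ p.1 ∈ bd k}}
      (fun p => rho (p.1, p.2.1)) (Ttradei' C i j) (Ttradej' C i j) := by
  obtain ⟨j0, j1, jb, js⟩ := Ttrade_j_A hdat hadj
  have c1 : Continuous (fun p : Fin N × (Cube k × I) => p.2.1) := by fun_prop
  have c2 : Continuous (fun p : Fin N × (Cube k × I) => p.2.2) := by fun_prop
  refine ⟨?_, ?_, ?_, ?_, ?_, ?_, ?_, ?_, ?_⟩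
  · exact (isClosed_eq c2 continuous_const).union ((Ttrade_bdclosed k).preimage c1)
  · exact (hdat.contr.comp (by fun_prop)).continuousOn
  · exact Continuous.subtype_mk (hadj.conti.comp continuous_subtype_val) _
  · exact Continuous.subtype_mk (hadj.contj.comp (by fun_prop)) _
  · intro x x' hx
    have : i x = i x' := congrArg Subtype.val hx
    exact Subtype.ext (hadj.inji this)
  · rintro ⟨l, y, t⟩ ht
    refine Subtype.ext ?_
    show j (l, (y, (t, 0))) = i (rho (l, y))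
    rcases ht with ht | ht
    · have ht' : t = 0 := ht
      rw [ht', j0]
    · rw [jb l y ht, hdat.rb l y ht]
  · rintro ⟨l, y, t⟩ ht ⟨l', y', t'⟩ ht' heq
    have ht0 : t ≠ 0 := fun h => ht (Or.inl h)
    have hy : y ∉ bd k := fun h => ht (Or.inr h)
    have ht0' : t' ≠ 0 := fun h => ht' (Or.inl h)
    have hy' : y' ∉ bd k := fun h => ht' (Or.inr h)
    have heq' : j (l, (y, (t, 0))) = j (l', (y', (t', 0))) := congrArg Subtype.val heq
    by_cases h1 : t = 1
    · by_cases h1' : t' = 1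
      · subst h1; subst h1'
        rw [j1, j1] at heq'
        obtain ⟨e1, e2⟩ := hatt.inj _ _ _ _ hy hy' (hadj.inji heq')
        rw [e1, e2]
      · subst h1
        rw [j1] at heq'
        exact absurd heq'.symm (hadj.disj _ (Ttrade_notA l' y' t' 0 hy' ht0' h1' (by simp)) _)
    · by_cases h1' : t' = 1
      · subst h1'
        rw [j1] at heq'
        exact absurd heq' (hadj.disj _ (Ttrade_notA l y t 0 hy ht0 h1 (by simp)) _)
      · have := hadj.injj (Ttrade_notA l y t 0 hy ht0 h1 (by simp))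
          (Ttrade_notA l' y' t' 0 hy' ht0' h1' (by simp)) heq'
        simp only [Prod.mk.injEq] at this ⊢
        tauto
  · rintro ⟨l, y, t⟩ ht x heq
    have ht0 : t ≠ 0 := fun h => ht (Or.inl h)
    have hy : y ∉ bd k := fun h => ht (Or.inr h)
    have heq' : j (l, (y, (t, 0))) = i x := congrArg Subtype.val heq
    by_cases h1 : t = 1
    · subst h1
      rw [j1] at heq'
      have := hadj.inji heq'
      exact hatt.disj l y hy (this ▸ x.2)
    · exact hadj.disj _ (Ttrade_notA l y t 0 hy ht0 h1 (by simp)) _ heq'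
  · rintro ⟨z, hz⟩
    rcases hz with ⟨x, hx, rfl⟩ | ⟨p, rfl⟩
    · exact Or.inl ⟨⟨x, hx⟩, rfl⟩
    · exact Or.inr ⟨p, rfl⟩

/-- i z ∈ C' implies z ∈ C1 -/
theorem Ttrade_C1 {R R' Y : Type} [TopologicalSpace R] [TopologicalSpace R']
    [TopologicalSpace Y] {k N : ℕ} {C C1 : Set R} {q : R → Y} {dY : Y → Y → ℝ} {de : ℝ}
    {e : Fin N → Cube k → R} {rho : Fin N × Cube k → ↥C} {h : Fin N × (Cube k × I) → R}
    (hatt : Att C C1 k N e)
    (hdat : Ttrade_data k N C q dY de e rho h) {i : R → R'}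
    {j : Fin N × (Cube k × (I × I)) → R'} (hadj : IsAdj (TtradeA k N) (TtradePh h) i j) :
    (∀ z, i z ∈ TtradeC' C i j → z ∈ C1) ∧ i '' C1 ⊆ TtradeC' C i j := by
  obtain ⟨j0, j1, jb, js⟩ := Ttrade_j_A hdat hadj
  constructor
  · rintro z (⟨x, hx, hxz⟩ | ⟨⟨l, y, t⟩, hp⟩)
    · rw [hatt.union, ← hadj.inji hxz]; exact Or.inl hx
    · have hp' : j (l, (y, (t, 0))) = i z := hp
      by_cases hy : y ∈ bd k
      · rw [jb l y hy] at hp'
        rw [hatt.union, ← hadj.inji hp']
        exact Or.inl (hatt.bdry l y hy)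
      · by_cases h0 : t = 0
        · subst h0
          rw [j0] at hp'
          rw [hatt.union, ← hadj.inji hp']
          exact Or.inl (rho (l, y)).2
        · by_cases h1 : t = 1
          · subst h1
            rw [j1] at hp'
            rw [hatt.union, ← hadj.inji hp']
            exact Or.inr (mem_iUnion.2 ⟨l, ⟨y, rfl⟩⟩)
          · exact absurd hp' (hadj.disj _ (Ttrade_notA l y t 0 hy h0 h1 (by simp)) _)
  · rintro _ ⟨z, hz, rfl⟩
    rw [hatt.union] at hz
    rcases hz with hz | hz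
    · exact Or.inl ⟨z, hz, rfl⟩
    · obtain ⟨l, y, rfl⟩ := mem_iUnion.1 hz
      refine Or.inr ⟨(l, (y, 1)), ?_⟩
      exact j1 l y 0

theorem Ttrade_mulcont : Continuous (fun p : I × I => p.1 * p.2) :=
  continuous_fst.mul continuous_snd

/-- the retraction ka : C' → C and the homotopy Th -/
theorem Ttrade_ka (h4 : S_AdjDesc) (h5 : S_SDR) (n : ℕ) {R C' Y : Type}
    [TopologicalSpace R] [TopologicalSpace Y] {k N : ℕ} {C : Set R} [CompactSpace ↥C]
    [T2Space ↥C] [TopologicalSpace C'] [CompactSpace C'] [T2Space C']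
    {q : R → Y} (hq : Continuous q) {dY : Y → Y → ℝ} {de : ℝ}
    {e : Fin N → Cube k → R} {rho : Fin N × Cube k → ↥C} {h : Fin N × (Cube k × I) → R}
    (hdat : Ttrade_data k N C q dY de e rho h) (i' : ↥C → C') (j' : Fin N × (Cube k × I) → C')
    (hadj' : IsAdj {p : Fin N × (Cube k × I) | p.2 ∈ {p : Cube k × I | p.2 = 0 ∨ p.1 ∈ bd k}}
      (fun p => rho (p.1, p.2.1)) i' j') :
    ∃ (ka : C' → ↥C) (Th : I × C' → Y), Continuous ka ∧ (∀ x, ka (i' x) = x) ∧
      (∀ p, ka (j' p) = rho (p.1, p.2.1)) ∧ FineSoft n ka ∧ Continuous Th ∧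
      (∀ u x, Th (u, i' x) = q x) ∧ ∀ u l y t, Th (u, j' (l, (y, t))) = q (h (l, (y, u * t))) := by
  have hph : Continuous (fun p : Fin N × (Cube k × I) => rho (p.1, p.2.1)) :=
    hdat.contr.comp (by fun_prop)
  have hD1 := h4 ↥C (Fin N × (Cube k × I)) C' ↥C _ _ i' j' hadj'
  have hD2 := h4 ↥C (Fin N × (Cube k × I)) C' C' _ _ i' j' hadj'
  have hD3 := h4 ↥C (Fin N × (Cube k × I)) C' Y _ _ i' j' hadj'
  obtain ⟨ka, r1, r2, r3⟩ := hD1.1 id (fun p => rho (p.1, p.2.1)) continuous_id hph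
    (fun t _ => rfl)
  have hscale : Continuous (fun p : I × (Fin N × (Cube k × I)) =>
      ((p.2.1, (p.2.2.1, p.1 * p.2.2.2)) : Fin N × (Cube k × I))) := by
    refine Continuous.prodMk (by fun_prop) (Continuous.prodMk (by fun_prop) ?_)
    exact Ttrade_mulcont.comp (f := fun p : I × (Fin N × (Cube k × I)) =>
        (p.1, p.2.2.2)) (by fun_prop)
  obtain ⟨K, k1, k2, k3⟩ := hD2.2.1 (fun p => i' p.2)
    (fun p => j' (p.2.1, (p.2.2.1, σ p.1 * p.2.2.2)))
    (hadj'.conti.comp continuous_snd)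
    (by
      refine hadj'.contj.comp ?_
      exact hscale.comp (f := fun p : I × (Fin N × (Cube k × I)) => (σ p.1, p.2)) (by fun_prop))
    (by
      rintro u ⟨l, y, t⟩ ht
      have : (l, (y, σ u * t)) ∈ {p : Fin N × (Cube k × I) |
          p.2 ∈ {p : Cube k × I | p.2 = 0 ∨ p.1 ∈ bd k}} := by
        rcases ht with ht | ht
        · left
          have hs : t = 0 := ht
          show σ u * t = 0
          rw [hs, mul_zero]
        · right; exact ht
      exact hadj'.agree _ this)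
  obtain ⟨Th, t1, t2, t3⟩ := hD3.2.1 (fun p => q p.2)
    (fun p => q (h (p.2.1, (p.2.2.1, p.1 * p.2.2.2))))
    (hq.comp (continuous_subtype_val.comp continuous_snd))
    (hq.comp (hdat.conth.comp hscale))
    (by
      rintro u ⟨l, y, t⟩ ht
      show q (h (l, (y, u * t))) = q (rho (l, y))
      rcases ht with ht | ht
      · have hs : t = 0 := ht
        rw [hs, mul_zero, hdat.h0]
      · have ht' : y ∈ bd k := ht
        rw [hdat.hb l y ht', hdat.rb l y ht'])
  refine ⟨ka, Th, r1, r2, r3, ?_, t1, t2, fun u l y t => t3 u (l, (y, t))⟩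
  have hcases : ∀ (P : C' → Prop), (∀ x, P (i' x)) → (∀ p, P (j' p)) → ∀ z, P z := by
    intro P p1 p2 z
    rcases hadj'.surj z with ⟨x, rfl⟩ | ⟨t, rfl⟩
    · exact p1 x
    · exact p2 t
  refine h5 n C' ↥C ka i' K r1 hadj'.conti k1 ?_ ?_ r2 ?_
  · refine hcases _ (fun x => k2 0 x) ?_
    rintro ⟨l, y, t⟩
    rw [k3]
    simp
  · refine hcases _ (fun x => by rw [k2, r2]; rfl) ?_
    rintro ⟨l, y, t⟩
    rw [k3, r3]
    simp only [symm_one, zero_mul]
    exact hadj'.agree _ (Or.inl rfl)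
  · intro u
    refine hcases _ (fun x => by rw [k2]) ?_
    rintro ⟨l, y, t⟩
    rw [k3, r3, r3]

/-- step (5) and step (4), second part: FF and Soft for C' -/
theorem Ttrade_C' (h1 : S_F4fam) (h2 : S_F1) (h4 : S_AdjDesc) (h5 : S_SDR) (h8 : S_Pert)
    (h9 : S_Comp) (h10 : S_Basics) (h11 : S_UC) {n k N : ℕ} (hn : 1 ≤ n) (hk : k + 1 ≤ n)
    (c : TCtx n) {R C' : Type} [TopologicalSpace R] {C : Set R} [CompactSpace ↥C]
    [T2Space ↥C] [TopologicalSpace C'] [CompactSpace C'] [T2Space C']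
    {q : R → c.Y} (hq : Continuous q) {de : ℝ} (hde : 0 < de)
    {e : Fin N → Cube k → R} {rho : Fin N × Cube k → ↥C} {h : Fin N × (Cube k × I) → R}
    (hdat : Ttrade_data k N C q c.dY de e rho h) (i' : ↥C → C')
    (j' : Fin N × (Cube k × I) → C')
    (hadj' : IsAdj {p : Fin N × (Cube k × I) | p.2 ∈ {p : Cube k × I | p.2 = 0 ∨ p.1 ∈ bd k}}
      (fun p => rho (p.1, p.2.1)) i' j') (q' : C' → c.Y) (hq' : Continuous q')
    (hq'i : ∀ x, q' (i' x) = q x) (hq'j : ∀ p, q' (j' p) = q (h p)) (ph : c.X c.b0 → ↥C)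
    (hphF : ContinuousOn ph c.F) (hfar : ∀ y, ∀ x ∈ c.F, rho y ≠ ph x)
    (hS : Soft n c.dY de (fun z : ↥C => q z)) (hF : FF c (fun z : ↥C => q z) ph de) :
    FF c q' (fun x => i' (ph x)) (7 * de) ∧ Soft n c.dY (17 * de) q' := by
  obtain ⟨ka, Th, k1, k2, k3, k4, k5, k6, k7⟩ := Ttrade_ka h4 h5 n hq hdat i' j' hadj'
  have hcases : ∀ (P : C' → Prop), (∀ x, P (i' x)) → (∀ p, P (j' p)) → ∀ z, P z := by
    intro P p1 p2 z
    rcases hadj'.surj z with ⟨x, rfl⟩ | ⟨t, rfl⟩
    · exact p1 x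
    · exact p2 t
  have hqC : Continuous (fun z : ↥C => q z) := hq.comp continuous_subtype_val
  have hcpm := c.cpm
  constructor
  · have hF1 := h1 n k N c ↥C C' rho i' j' ka (fun z : ↥C => q z) ph de hn (by omega) hdat.contr
      hfar hadj' k1 k2 k3 hqC hphF hF
    have hF2 := h2 n c C' C' (fun z => q (ka z)) q' id (fun x => i' (ph x)) de (6 * de)
      continuous_id (h10.2.2.1 n C') (by
        refine hcases _ (fun x => ?_) ?_
        · show c.dY (q' (i' x)) (q (ka (i' x))) ≤ 6 * de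
          rw [hq'i, k2, hcpm.self]; positivity
        · rintro ⟨l, y, t⟩
          show c.dY (q' (j' (l, (y, t)))) (q (ka (j' (l, (y, t))))) ≤ 6 * de
          rw [hq'j, k3]
          have a1 := hdat.d2 l y t
          have a2 := hdat.d1 l y
          have a3 := hcpm.tri (q (h (l, (y, t)))) (q (e l y)) (q (rho (l, y)))
          rw [hcpm.symm (q (e l y)) (q (rho (l, y)))] at a3
          show c.dY (q (h (l, (y, t)))) (q (rho (l, y))) ≤ 6 * de
          linarith) hF1
    exact Ttrade_FFmono c _ _ (by linarith) hF2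
  · have hpull : IsCPM (fun x y : ↥C => c.dY (q x) (q y)) := h11.2.2.1 ↥C c.Y c.dY _ hcpm hqC
    have hS1 : Soft n c.dY (0 + de) (fun z => q (ka z)) :=
      h9 n C' ↥C c.Y c.dY 0 de ka (fun z : ↥C => q z) hcpm k1 hqC (k4 _ hpull) hS
    have hS2 := h8 n C' c.Y c.dY (0 + de) (8 * de) (fun z => q (ka z)) q' Th hcpm k5 (by
      refine hcases _ (fun x => by rw [k6, k2]) ?_
      rintro ⟨l, y, t⟩
      rw [k7, k3, zero_mul, hdat.h0]) (by
      refine hcases _ (fun x => by rw [k6, hq'i]) ?_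
      rintro ⟨l, y, t⟩
      rw [k7, one_mul, hq'j]) (by
      intro s t
      refine hcases _ (fun x => ?_) ?_
      · rw [k6, k6, hcpm.self]; positivity
      · rintro ⟨l, y, r⟩
        rw [k7, k7]
        have a1 := hdat.d2 l y (s * r)
        have a2 := hdat.d2 l y (t * r)
        have a3 := hcpm.tri (q (h (l, (y, s * r)))) (q (e l y)) (q (h (l, (y, t * r))))
        rw [hcpm.symm (q (e l y)) (q (h (l, (y, t * r))))] at a3
        linarith) hS1
    exact Ttrade_softmono h10 c.dY hcpm q' hq' (by linarith) hS2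

/-- decoding of the coordinates of the (k+2)-cell -/
def Ttrade_dec {k : ℕ} (y : Cube (k + 2)) : Cube k × (I × I) :=
  (Fin.tail (Fin.tail (α := fun _ => I) y), (Fin.tail (α := fun _ => I) y 0, y 0))

theorem Ttrade_dec_cont (k : ℕ) : Continuous (Ttrade_dec (k := k)) := by
  unfold Ttrade_dec
  refine Continuous.prodMk (continuous_pi fun i => ?_) (Continuous.prodMk ?_ ?_)
  · exact continuous_apply (A := fun _ : Fin (k + 2) => I) i.succ.succ
  · exact continuous_apply (A := fun _ : Fin (k + 2) => I) (Fin.succ 0)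
  · exact continuous_apply (A := fun _ : Fin (k + 2) => I) 0

theorem Ttrade_dec_cons {k : ℕ} (y : Cube k) (t s : I) :
    Ttrade_dec (Fin.cons s (Fin.cons t y : Cube (k + 1)) : Cube (k + 2)) = (y, (t, s)) := by
  simp [Ttrade_dec]

theorem Ttrade_cons_dec {k : ℕ} (y : Cube (k + 2)) :
    (Fin.cons (Ttrade_dec y).2.2 (Fin.cons (Ttrade_dec y).2.1 (Ttrade_dec y).1 : Cube (k + 1)) :
      Cube (k + 2)) = y := by
  simp only [Ttrade_dec]
  rw [Fin.cons_self_tail, Fin.cons_self_tail]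

theorem Ttrade_dec_inj (k : ℕ) : Function.Injective (Ttrade_dec (k := k)) := by
  intro y y' h
  rw [← Ttrade_cons_dec y, ← Ttrade_cons_dec y', h]

theorem Ttrade_dec_bd {k : ℕ} (y : Cube (k + 2)) : y ∈ bd (k + 2) ↔
    (Ttrade_dec y).2.2 = 0 ∨ (Ttrade_dec y).2.2 = 1 ∨ (Ttrade_dec y).2.1 = 0 ∨
      (Ttrade_dec y).2.1 = 1 ∨ (Ttrade_dec y).1 ∈ bd k := by
  conv_lhs => rw [← Ttrade_cons_dec y]
  rw [Ttrade_bd, Ttrade_bd]

/-- step (6) -/
theorem Ttrade_RC (h6 : S_RCUnion) (h7 : S_RCAppend) {n k N : ℕ} {ka : List ℕ}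
    (c : TCtx n) {R R' : Type} [TopologicalSpace R] [CompactSpace R] [T2Space R]
    [TopologicalSpace R'] [CompactSpace R'] [T2Space R'] {C C1 : Set R}
    {q : R → c.Y} {de K : ℝ} (hde : 0 < de) (hK : 1 ≤ K)
    {e : Fin N → Cube k → R} {rho : Fin N × Cube k → ↥C} {h : Fin N × (Cube k × I) → R}
    (hatt : Att C C1 k N e) (hdat : Ttrade_data k N C q c.dY de e rho h) {i : R → R'}
    {j : Fin N × (Cube k × (I × I)) → R'} (hadj : IsAdj (TtradeA k N) (TtradePh h) i j)
    (q' : R' → c.Y) (hq'i : ∀ x, q' (i x) = q x)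
    (hq'j : ∀ l y t s, q' (j (l, (y, (t, s)))) = q (h (l, (y, t)))) (ph : c.X c.b0 → ↥C)
    (hP : ∀ l, (∀ z ∈ range (e l), ∀ z' ∈ range (e l), c.dY (q z) (q z') ≤ de) ∧
      ∀ z ∈ range (e l), ∀ x ∈ c.F, (20 * K + 20) * de ≤ c.dY (q z) (q (ph x)))
    (hRC : RC (fun e : Set R => (∀ z ∈ e, ∀ z' ∈ e, c.dY (q z) (q z') ≤ de) ∧
      ∀ z ∈ e, ∀ x ∈ c.F, (20 * K + 20) * de ≤ c.dY (q z) (q (ph x))) C1 ka univ) :
    RC (fun e : Set R' => (∀ z ∈ e, ∀ z' ∈ e, c.dY (q' z) (q' z') ≤ 20 * de) ∧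
      ∀ z ∈ e, ∀ x ∈ c.F, K * (20 * de) ≤
        c.dY (q' z) (q' (Ttradei' C i j (ph x) : ↥(TtradeC' C i j))))
      (TtradeC' C i j) (ka ++ [k + 2]) univ := by
  have hcpm := c.cpm
  have hKd : 0 ≤ K * de := by positivity
  have hclosed : IsClosed (TtradeC' C i j) :=
    TtradeC'_closed C hatt.closed i hadj.conti j hadj.contj
  obtain ⟨u1, u2⟩ := Ttrade_C1 hatt hdat hadj
  have hqi' : ∀ x : ↥C, q' (Ttradei' C i j x : ↥(TtradeC' C i j)) = q x := fun x => hq'i x
  have hRC1 := h6 R R' i (fun e : Set R => (∀ z ∈ e, ∀ z' ∈ e, c.dY (q z) (q z') ≤ de) ∧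
      ∀ z ∈ e, ∀ x ∈ c.F, (20 * K + 20) * de ≤ c.dY (q z) (q (ph x)))
    (fun e : Set R' => (∀ z ∈ e, ∀ z' ∈ e, c.dY (q' z) (q' z') ≤ 20 * de) ∧
      ∀ z ∈ e, ∀ x ∈ c.F, K * (20 * de) ≤
        c.dY (q' z) (q' (Ttradei' C i j (ph x) : ↥(TtradeC' C i j)))) C1 univ (TtradeC' C i j) ka
    hadj.conti hadj.inji hclosed u1 (by
      rintro e ⟨e1, e2⟩
      refine ⟨?_, ?_⟩
      · rintro _ ⟨z, hz, rfl⟩ _ ⟨z', hz', rfl⟩
        rw [hq'i, hq'i]
        exact (e1 z hz z' hz').trans (by linarith)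
      · rintro _ ⟨z, hz, rfl⟩ x hx
        rw [hq'i, hqi']
        refine le_trans ?_ (e2 z hz x hx)
        nlinarith) hRC
  rw [union_eq_self_of_subset_right u2] at hRC1
  refine h7.1 R' _ _ _ _ _ _ hRC1 ?_
  refine RC.cons _ univ univ (k + 2) [] N (fun l y => j (l, Ttrade_dec y)) ?_ ?_
    (RC.nil univ isClosed_univ)
  · refine ⟨?_, ?_, ?_, ?_, ?_, ?_⟩
    · refine hclosed.union ?_
      rw [image_univ]
      exact (isCompact_range hadj.conti).isClosed
    · intro l
      exact hadj.contj.comp (Continuous.prodMk continuous_const (Ttrade_dec_cont k))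
    · intro l y hy
      rw [Ttrade_dec_bd] at hy
      rcases hy with hy | hy | hy | hy | hy
      · left; right
        refine ⟨(l, ((Ttrade_dec y).1, (Ttrade_dec y).2.1)), ?_⟩
        show j (l, ((Ttrade_dec y).1, ((Ttrade_dec y).2.1, 0))) = j (l, Ttrade_dec y)
        rw [← hy]
      · right; exact ⟨_, mem_univ _, (hadj.agree (l, Ttrade_dec y) (Or.inl hy)).symm⟩
      · right; exact ⟨_, mem_univ _, (hadj.agree (l, Ttrade_dec y) (Or.inr (Or.inl hy))).symm⟩
      · right
        exact ⟨_, mem_univ _, (hadj.agree (l, Ttrade_dec y) (Or.inr (Or.inr (Or.inl hy)))).symm⟩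
      · right
        exact ⟨_, mem_univ _, (hadj.agree (l, Ttrade_dec y) (Or.inr (Or.inr (Or.inr hy)))).symm⟩
    · intro l l' y y' hy hy' heq
      rw [Ttrade_dec_bd] at hy hy'
      push Not at hy hy'
      have n1 : (l, Ttrade_dec y) ∉ TtradeA k N :=
        Ttrade_notA l _ _ _ hy.2.2.2.2 hy.2.2.1 hy.2.2.2.1 hy.2.1
      have n2 : (l', Ttrade_dec y') ∉ TtradeA k N :=
        Ttrade_notA l' _ _ _ hy'.2.2.2.2 hy'.2.2.1 hy'.2.2.2.1 hy'.2.1
      have := hadj.injj n1 n2 heq
      simp only [Prod.mk.injEq] at this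
      exact ⟨this.1, Ttrade_dec_inj k this.2⟩
    · intro l y hy
      rw [Ttrade_dec_bd] at hy
      push Not at hy
      have n1 : (l, Ttrade_dec y) ∉ TtradeA k N :=
        Ttrade_notA l _ _ _ hy.2.2.2.2 hy.2.2.1 hy.2.2.2.1 hy.2.1
      rintro ((⟨x, _, hx⟩ | ⟨⟨l', y', t'⟩, hp⟩) | ⟨x, _, hx⟩)
      · exact hadj.disj _ n1 _ hx.symm
      · have hp' : j (l', (y', (t', 0))) = j (l, Ttrade_dec y) := hp
        by_cases hA : (l', (y', (t', 0))) ∈ TtradeA k N
        · rw [hadj.agree _ hA] at hp'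
          exact hadj.disj _ n1 _ hp'.symm
        · have := hadj.injj hA n1 hp'
          simp only [Prod.mk.injEq] at this
          exact hy.1 (by rw [← this.2])
      · exact hadj.disj _ n1 _ hx.symm
    · refine Subset.antisymm ?_ (subset_univ _)
      intro z _
      rcases hadj.surj z with ⟨x, rfl⟩ | ⟨⟨l, y, t, s⟩, rfl⟩
      · exact Or.inl (Or.inr ⟨x, mem_univ _, rfl⟩)
      · right
        refine mem_iUnion.2 ⟨l, ⟨(Fin.cons s (Fin.cons t y : Cube (k + 1)) : Cube (k + 2)), ?_⟩⟩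
        show j (l, Ttrade_dec _) = _
        rw [Ttrade_dec_cons]
  · intro l
    obtain ⟨p1, p2⟩ := hP l
    have hq'' : ∀ y : Cube (k + 2), q' (j (l, Ttrade_dec y)) =
        q (h (l, ((Ttrade_dec y).1, (Ttrade_dec y).2.1))) := fun y => hq'j _ _ _ _
    refine ⟨?_, ?_⟩
    · rintro _ ⟨y, rfl⟩ _ ⟨y', rfl⟩
      show c.dY (q' (j (l, Ttrade_dec y))) (q' (j (l, Ttrade_dec y'))) ≤ _
      rw [hq'', hq'']
      have a1 := hdat.d2 l (Ttrade_dec y).1 (Ttrade_dec y).2.1
      have a2 := hdat.d2 l (Ttrade_dec y').1 (Ttrade_dec y').2.1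
      have a3 := p1 _ ⟨(Ttrade_dec y).1, rfl⟩ _ ⟨(Ttrade_dec y').1, rfl⟩
      have a4 := hcpm.tri (q (h (l, ((Ttrade_dec y).1, (Ttrade_dec y).2.1))))
        (q (e l (Ttrade_dec y).1)) (q (h (l, ((Ttrade_dec y').1, (Ttrade_dec y').2.1))))
      have a5 := hcpm.tri (q (e l (Ttrade_dec y).1)) (q (e l (Ttrade_dec y').1))
        (q (h (l, ((Ttrade_dec y').1, (Ttrade_dec y').2.1))))
      rw [hcpm.symm (q (e l (Ttrade_dec y').1))
        (q (h (l, ((Ttrade_dec y').1, (Ttrade_dec y').2.1))))] at a5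
      linarith
    · rintro _ ⟨y, rfl⟩ x hx
      show _ ≤ c.dY (q' (j (l, Ttrade_dec y))) _
      rw [hq'', hqi']
      have a1 := hdat.d2 l (Ttrade_dec y).1 (Ttrade_dec y).2.1
      have a3 := p2 _ ⟨(Ttrade_dec y).1, rfl⟩ x hx
      have a4 := hcpm.tri (q (e l (Ttrade_dec y).1))
        (q (h (l, ((Ttrade_dec y).1, (Ttrade_dec y).2.1)))) (q (ph x))
      rw [hcpm.symm (q (e l (Ttrade_dec y).1))
        (q (h (l, ((Ttrade_dec y).1, (Ttrade_dec y).2.1))))] at a4
      nlinarith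

theorem pr_Ttrade (h1 : S_F4fam) (h2 : S_F1) (h3 : S_AdjEx) (h4 : S_AdjDesc) (h5 : S_SDR)
    (h6 : S_RCUnion) (h7 : S_RCAppend) (h8 : S_Pert) (h9 : S_Comp) (h10 : S_Basics)
    (h11 : S_UC) (_h12 : S_AttAdj) : S_Ttrade := by
  intro n k ka K hn hk hK hT c R _ _ _ C q ph de hde hRC hq hphF hS1 hS2 hF
  cases hRC with
  | cons _ C1 _ _ _ N e hatt hP hRC1 =>
    have hcpm := c.cpm
    have hKd : 0 ≤ K * de := by positivity
    have hqC : Continuous (fun z : ↥C => q z) := hq.comp continuous_subtype_val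
    -- C is nonempty
    have hCne : C.Nonempty := by
      obtain ⟨b, th, _⟩ := hF (fun x y => c.dY (q x) (q y)) (h11.2.2.1 ↥C c.Y c.dY _ hcpm hqC)
        1 one_pos
      obtain ⟨x⟩ := c.tower.nonempty b
      exact ⟨th x, (th x).2⟩
    obtain ⟨rho, h, hdat⟩ := Ttrade_data_ex h10 hk c.dY hcpm C hCne q hq de hde hS1 hS2 e
      hatt.cont hatt.bdry
    have hph' : Continuous (TtradePh h) := by
      unfold TtradePh
      exact hdat.conth.comp (by fun_prop)
    obtain ⟨R', _, _, _, i, j, hadj⟩ := h3 R (Fin N × (Cube k × (I × I))) (TtradeA k N)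
      (TtradePh h) (TtradeA_closed k N) hph'.continuousOn
    obtain ⟨r, r1, r2, r3, r4⟩ := Ttrade_retr h4 h5 n h hdat.conth i j hadj
    have hclosed : IsClosed (TtradeC' C i j) :=
      TtradeC'_closed C hatt.closed i hadj.conti j hadj.contj
    haveI : CompactSpace ↥(TtradeC' C i j) := isCompact_iff_compactSpace.1 hclosed.isCompact
    haveI : CompactSpace ↥C := isCompact_iff_compactSpace.1 hatt.closed.isCompact
    have hadj' := Ttrade_adj' hatt hdat hadj
    have hfar : ∀ y, ∀ x ∈ c.F, rho y ≠ ph x := by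
      rintro ⟨l, y⟩ x hx heq
      have a1 := (hP l).2 _ ⟨y, rfl⟩ x hx
      have a2 := hdat.d1 l y
      rw [heq, hcpm.symm] at a2
      nlinarith
    have hq' : Continuous (fun z => q (r z)) := hq.comp r1
    obtain ⟨f1, f2⟩ := Ttrade_C' h1 h2 h4 h5 h8 h9 h10 h11 hn hk c hq hde hdat (Ttradei' C i j)
      (Ttradej' C i j) hadj' (fun z => q (r z)) (hq'.comp continuous_subtype_val)
      (fun x => by
        show q (r (i x)) = q x
        rw [r2])
      (fun p => by
        show q (r (j (p.1, (p.2.1, (p.2.2, 0))))) = q (h p)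
        rw [r3]
        rfl) ph hphF hfar hS1 hF
    have hRC' := Ttrade_RC h6 h7 c hde hK hatt hdat hadj (fun z => q (r z))
      (fun x => by
        show q (r (i x)) = q x
        rw [r2])
      (fun l y t s => by
        show q (r (j (l, (y, (t, s))))) = q (h (l, (y, t)))
        rw [r3]
        rfl) ph hP hRC1
    have hS3 : Soft n c.dY (0 + de) (fun z => q (r z)) :=
      h9 n R' R c.Y c.dY 0 de r q hcpm r1 hq (r4 _ (h11.2.2.1 R c.Y c.dY _ hcpm hq)) hS2
    have hi' : Continuous (Ttradei' C i j) :=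
      Continuous.subtype_mk (hadj.conti.comp continuous_subtype_val) _
    have hfin := hT c R' (TtradeC' C i j) (fun z => q (r z)) (fun x => Ttradei' C i j (ph x))
      (20 * de) (by positivity) hRC' hq' (hi'.comp_continuousOn hphF)
      (Ttrade_softmono h10 c.dY hcpm _ (hq'.comp continuous_subtype_val) (by linarith) f2)
      (Ttrade_softmono h10 c.dY hcpm _ hq' (by linarith) hS3)
      (Ttrade_FFmono c _ _ (by linarith) f1)
    have hfin2 := h2 n c R' R (fun z => q (r z)) q r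
      (fun x => (Ttradei' C i j (ph x) : R')) (K * (20 * de)) 0 r1 r4
      (fun z => by rw [hcpm.self]) hfin
    have hfin3 := Ttrade_FFmono c _ _ (show K * (20 * de) + 0 ≤ (20 * K + 20) * de by nlinarith)
      hfin2
    have heq : (fun x => r (Ttradei' C i j (ph x) : R')) = fun x => (ph x : R) := by
      funext x
      exact r2 _
    rw [heq] at hfin3
    exact hfin3

end M202

end

section

/-!
MP_202a65_gt, item V (helper61): existence of the radial map v.
-/

set_option linter.unusedSectionVars false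

open Set Topology unitInterval

namespace M202

theorem v_dist_coord {k : ℕ} (y : Cube k) (l : Fin k) :
    dist (y l) (ctr k l) = |(y l : ℝ) - 1 / 2| := by
  rw [Subtype.dist_eq, Real.dist_eq]
  rfl

theorem v_le_dist {k : ℕ} (y : Cube k) (l : Fin k) : |(y l : ℝ) - 1 / 2| ≤ dist y (ctr k) := by
  rw [← v_dist_coord]
  exact dist_le_pi_dist y (ctr k) l

theorem v_dist_le {k : ℕ} (y : Cube k) {c : ℝ} (hc : 0 ≤ c)
    (h : ∀ l, |(y l : ℝ) - 1 / 2| ≤ c) : dist y (ctr k) ≤ c := by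
  rw [dist_pi_le_iff hc]
  intro l
  rw [v_dist_coord]
  exact h l

theorem v_coord_le {k : ℕ} (y : Cube k) (l : Fin k) : |(y l : ℝ) - 1 / 2| ≤ 1 / 2 := by
  rw [abs_le]
  constructor
  · linarith [(y l).2.1]
  · linarith [(y l).2.2]

theorem v_dist_half {k : ℕ} (y : Cube k) : dist y (ctr k) ≤ 1 / 2 :=
  v_dist_le y (by norm_num) (v_coord_le y)

theorem v_scale_le {k : ℕ} {y y' : Cube k} {c : ℝ} (hc : 0 ≤ c)
    (h : ∀ l, (y' l : ℝ) - 1 / 2 = c * ((y l : ℝ) - 1 / 2)) :
    dist y' (ctr k) ≤ c * dist y (ctr k) := by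
  refine v_dist_le y' (mul_nonneg hc dist_nonneg) fun l => ?_
  rw [h l, abs_mul, abs_of_nonneg hc]
  exact mul_le_mul_of_nonneg_left (v_le_dist y l) hc

theorem v_scale {k : ℕ} {y y' : Cube k} {c : ℝ} (hc : 0 < c)
    (h : ∀ l, (y' l : ℝ) - 1 / 2 = c * ((y l : ℝ) - 1 / 2)) :
    dist y' (ctr k) = c * dist y (ctr k) := by
  refine le_antisymm (v_scale_le hc.le h) ?_
  have h2 := v_scale_le (y := y') (y' := y) (inv_pos.mpr hc).le (fun l => by
    rw [h l, ← mul_assoc, inv_mul_cancel₀ hc.ne', one_mul])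
  calc c * dist y (ctr k) ≤ c * (c⁻¹ * dist y' (ctr k)) := mul_le_mul_of_nonneg_left h2 hc.le
    _ = dist y' (ctr k) := by rw [← mul_assoc, mul_inv_cancel₀ hc.ne', one_mul]

theorem v_mem_bd {k : ℕ} (y : Cube k) : y ∈ bd k ↔ dist y (ctr k) = 1 / 2 := by
  constructor
  · rintro ⟨l, hl⟩
    refine le_antisymm (v_dist_half y) ?_
    refine le_trans ?_ (v_le_dist y l)
    rcases hl with hl | hl
    · rw [hl]; norm_num
    · rw [hl]; norm_num
  · intro h
    by_contra hy
    have h2 : dist y (ctr k) < 1 / 2 := by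
      rw [dist_pi_lt_iff (by norm_num)]
      intro l
      rw [v_dist_coord]
      have h0 : (y l : ℝ) ≠ 0 := fun h0 => hy ⟨l, Or.inl (Subtype.ext h0)⟩
      have h1 : (y l : ℝ) ≠ 1 := fun h1 => hy ⟨l, Or.inr (Subtype.ext h1)⟩
      have h0' := lt_of_le_of_ne (y l).2.1 (Ne.symm h0)
      have h1' := lt_of_le_of_ne (y l).2.2 h1
      rw [abs_lt]
      constructor <;> linarith
    linarith

/-- the cut-off distance -/
noncomputable def vM {k : ℕ} (y : Cube k) : ℝ := max (dist y (ctr k)) (1 / 4)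

/-- the factor -/
noncomputable def vC {k : ℕ} (y : Cube k) (s : I) : ℝ :=
  (1 - (s : ℝ) * (1 - 2 * vM y)) / (2 * vM y)

/-- the radial map v -/
noncomputable def vMap (k : ℕ) (p : Cube k × I) : Cube k × I :=
  (fun l => projIcc 0 1 zero_le_one (1 / 2 + vC p.1 p.2 * ((p.1 l : ℝ) - 1 / 2)),
    projIcc 0 1 zero_le_one (1 - 2 * (1 - (p.2 : ℝ)) * (1 - 2 * vM p.1)))

theorem vM_ge {k : ℕ} (y : Cube k) : 1 / 4 ≤ vM y := le_max_right _ _

theorem vM_le {k : ℕ} (y : Cube k) : vM y ≤ 1 / 2 := max_le (v_dist_half y) (by norm_num)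

theorem vM_dist {k : ℕ} (y : Cube k) : dist y (ctr k) ≤ vM y := le_max_left _ _

theorem vC_pos {k : ℕ} (y : Cube k) (s : I) : 0 < vC y s := by
  have h1 := vM_ge y
  have h2 := vM_le y
  have h3 := s.2.1
  have h4 := s.2.2
  unfold vC
  refine div_pos ?_ (by linarith)
  nlinarith

theorem vC_mul {k : ℕ} (y : Cube k) (s : I) :
    vC y s * (2 * vM y) = 1 - (s : ℝ) * (1 - 2 * vM y) := by
  have h1 := vM_ge y
  unfold vC
  rw [div_mul_cancel₀]
  linarith

theorem vMap_snd {k : ℕ} (y : Cube k) (s : I) :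
    ((vMap k (y, s)).2 : ℝ) = 1 - 2 * (1 - (s : ℝ)) * (1 - 2 * vM y) := by
  have h1 := vM_ge y
  have h2 := vM_le y
  have h3 := s.2.1
  have h4 := s.2.2
  show ((projIcc 0 1 zero_le_one (1 - 2 * (1 - (s : ℝ)) * (1 - 2 * vM y)) : I) : ℝ) = _
  rw [projIcc_of_mem zero_le_one (by constructor <;> nlinarith)]

theorem vMap_fst {k : ℕ} (y : Cube k) (s : I) (l : Fin k) :
    ((vMap k (y, s)).1 l : ℝ) - 1 / 2 = vC y s * ((y l : ℝ) - 1 / 2) := by
  have h1 := vM_ge y
  have h2 := vM_le y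
  have h3 := s.2.1
  have h4 := s.2.2
  have h5 := vC_pos y s
  have h6 := vC_mul y s
  have h7 : |vC y s * ((y l : ℝ) - 1 / 2)| ≤ 1 / 2 := by
    rw [abs_mul, abs_of_pos h5]
    have h8 := mul_le_mul_of_nonneg_left ((v_le_dist y l).trans (vM_dist y)) h5.le
    nlinarith
  rw [abs_le] at h7
  show ((projIcc 0 1 zero_le_one (1 / 2 + vC y s * ((y l : ℝ) - 1 / 2)) : I) : ℝ) - 1 / 2 = _
  rw [projIcc_of_mem zero_le_one (by constructor <;> linarith)]
  show (1 / 2 + vC y s * ((y l : ℝ) - 1 / 2)) - 1 / 2 = _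
  ring

theorem vMap_dist {k : ℕ} (y : Cube k) (s : I) :
    dist (vMap k (y, s)).1 (ctr k) = vC y s * dist y (ctr k) :=
  v_scale (vC_pos y s) (vMap_fst y s)

theorem vM_in {k : ℕ} {y : Cube k} (h : dist y (ctr k) ≤ 1 / 4) : vM y = 1 / 4 := max_eq_right h

theorem vM_out {k : ℕ} {y : Cube k} (h : 1 / 4 ≤ dist y (ctr k)) : vM y = dist y (ctr k) :=
  max_eq_left h

theorem vC_in {k : ℕ} {y : Cube k} (h : dist y (ctr k) ≤ 1 / 4) (s : I) : vC y s = 2 - s := by
  unfold vC
  rw [vM_in h]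
  ring

theorem vMap_cont (k : ℕ) : Continuous (vMap k) := by
  have hM : Continuous (fun p : Cube k × I => vM p.1) :=
    (continuous_fst.dist continuous_const).max continuous_const
  have hC : Continuous (fun p : Cube k × I => vC p.1 p.2) := by
    unfold vC
    refine Continuous.div ?_ ?_ ?_
    · fun_prop
    · fun_prop
    · intro p
      have := vM_ge p.1
      linarith
  unfold vMap
  refine Continuous.prodMk ?_ ?_
  · refine continuous_pi fun l => continuous_projIcc.comp ?_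
    fun_prop
  · refine continuous_projIcc.comp ?_
    fun_prop

/-- inner formulas -/
theorem vMap_in {k : ℕ} {y : Cube k} (h : dist y (ctr k) ≤ 1 / 4) (s : I) :
    ((vMap k (y, s)).2 : ℝ) = s ∧
    (∀ l, ((vMap k (y, s)).1 l : ℝ) - 1 / 2 = (2 - (s : ℝ)) * ((y l : ℝ) - 1 / 2)) ∧
    dist (vMap k (y, s)).1 (ctr k) = (2 - (s : ℝ)) * dist y (ctr k) := by
  refine ⟨?_, ?_, ?_⟩
  · rw [vMap_snd, vM_in h]
    ring
  · intro l
    rw [vMap_fst, vC_in h]
  · rw [vMap_dist, vC_in h]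

/-- outer formulas -/
theorem vMap_out {k : ℕ} {y : Cube k} (h : 1 / 4 ≤ dist y (ctr k)) (s : I) :
    ((vMap k (y, s)).2 : ℝ) = 1 - 2 * (1 - (s : ℝ)) * (1 - 2 * dist y (ctr k)) ∧
    (∀ l, (((vMap k (y, s)).1 l : ℝ) - 1 / 2) * (2 * dist y (ctr k)) =
      (1 - (s : ℝ) * (1 - 2 * dist y (ctr k))) * ((y l : ℝ) - 1 / 2)) ∧
    2 * dist (vMap k (y, s)).1 (ctr k) = 1 - (s : ℝ) * (1 - 2 * dist y (ctr k)) := by
  have h6 := vC_mul y s
  rw [vM_out h] at h6
  refine ⟨?_, ?_, ?_⟩
  · rw [vMap_snd, vM_out h]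
  · intro l
    rw [vMap_fst, ← h6]
    ring
  · rw [vMap_dist, ← h6]
    ring

theorem vMap_bd {k : ℕ} {y : Cube k} (h : y ∈ bd k) (s : I) : vMap k (y, s) = (y, 1) := by
  rw [v_mem_bd] at h
  obtain ⟨h1, h2, h3⟩ := vMap_out (y := y) (by rw [h]; norm_num) s
  refine Prod.ext ?_ ?_
  · funext l
    apply Subtype.ext
    have := h2 l
    rw [h] at this
    show ((vMap k (y, s)).1 l : ℝ) = y l
    nlinarith
  · apply Subtype.ext
    rw [h1, h]
    norm_num

theorem vMap_one {k : ℕ} (y : Cube k) : vMap k (y, 1) = (y, 1) := by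
  have h0 := vM_ge y
  have h6 := vC_mul y 1
  have hc : vC y 1 = 1 := by
    have e : (((1 : I) : ℝ)) = 1 := rfl
    rw [e] at h6
    have : vC y 1 * (2 * vM y) = 1 * (2 * vM y) := by rw [h6]; ring
    exact mul_right_cancel₀ (by linarith) this
  refine Prod.ext ?_ ?_
  · funext l
    apply Subtype.ext
    have := vMap_fst y 1 l
    rw [hc] at this
    show ((vMap k (y, 1)).1 l : ℝ) = y l
    linarith
  · apply Subtype.ext
    rw [vMap_snd]
    norm_num

theorem vMap_inj_in {k : ℕ} {y y' : Cube k} {s s' : I} (h : vMap k (y, s) = vMap k (y', s'))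
    (hy : dist y (ctr k) ≤ 1 / 4) (hy' : dist y' (ctr k) ≤ 1 / 4) : (y, s) = (y', s') := by
  obtain ⟨h1, h2, -⟩ := vMap_in hy s
  obtain ⟨h1', h2', -⟩ := vMap_in hy' s'
  rw [h] at h1 h2
  have hs : (s : ℝ) = s' := h1.symm.trans h1'
  refine Prod.ext ?_ (Subtype.ext hs)
  funext l
  apply Subtype.ext
  have e := (h2 l).symm.trans (h2' l)
  rw [hs] at e
  have h4 := s'.2.2
  have := mul_left_cancel₀ (by linarith : (2 - (s' : ℝ)) ≠ 0) e
  show (y l : ℝ) = y' l
  linarith

theorem vMap_inj_out {k : ℕ} {y y' : Cube k} {s s' : I} (h : vMap k (y, s) = vMap k (y', s'))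
    (hy : 1 / 4 ≤ dist y (ctr k)) (hy' : 1 / 4 ≤ dist y' (ctr k)) :
    (y, s) = (y', s') ∨ (y ∈ bd k ∧ y' = y) := by
  obtain ⟨h1, h2, h3⟩ := vMap_out hy s
  obtain ⟨h1', h2', h3'⟩ := vMap_out hy' s'
  rw [h] at h1 h2 h3
  have hd : dist y (ctr k) = dist y' (ctr k) := by
    have e1 := h1.symm.trans h1'
    have e3 := h3.symm.trans h3'
    nlinarith
  rw [← hd] at h1' h2' h3'
  have e3 : (s : ℝ) * (1 - 2 * dist y (ctr k)) = s' * (1 - 2 * dist y (ctr k)) := by
    linarith
  have hpos : (0 : ℝ) < 1 - (s : ℝ) * (1 - 2 * dist y (ctr k)) := by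
    have := s.2.2
    have := s.2.1
    have := v_dist_half y
    nlinarith
  have hyy : y = y' := by
    funext l
    apply Subtype.ext
    have e := (h2 l).symm.trans (h2' l)
    rw [← e3] at e
    have := mul_left_cancel₀ hpos.ne' e
    show (y l : ℝ) = y' l
    linarith
  by_cases hb : dist y (ctr k) = 1 / 2
  · exact Or.inr ⟨(v_mem_bd y).mpr hb, hyy.symm⟩
  · left
    refine Prod.ext hyy (Subtype.ext ?_)
    have hlt := lt_of_le_of_ne (v_dist_half y) hb
    exact mul_right_cancel₀ (by linarith : (1 - 2 * dist y (ctr k)) ≠ 0) e3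

theorem vMap_mixed {k : ℕ} {y y' : Cube k} {s s' : I} (h : vMap k (y, s) = vMap k (y', s'))
    (hy : dist y (ctr k) ≤ 1 / 4) (hy' : 1 / 4 ≤ dist y' (ctr k)) :
    dist y' (ctr k) ≤ 1 / 4 := by
  obtain ⟨h1, -, h3⟩ := vMap_in hy s
  obtain ⟨h1', -, h3'⟩ := vMap_out hy' s'
  rw [h] at h1 h3
  have := s.2.2
  nlinarith

theorem vMap_inj {k : ℕ} (p p' : Cube k × I) (h : vMap k p = vMap k p') :
    p = p' ∨ (p.1 ∈ bd k ∧ p'.1 = p.1) := by
  obtain ⟨y, s⟩ := p
  obtain ⟨y', s'⟩ := p'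
  rcases le_total (dist y (ctr k)) (1 / 4) with hy | hy
  · rcases le_total (dist y' (ctr k)) (1 / 4) with hy' | hy'
    · exact Or.inl (vMap_inj_in h hy hy')
    · exact Or.inl (vMap_inj_in h hy (vMap_mixed h hy hy'))
  · rcases le_total (dist y' (ctr k)) (1 / 4) with hy' | hy'
    · exact Or.inl (vMap_inj_in h (vMap_mixed h.symm hy' hy) hy')
    · exact vMap_inj_out h hy hy'

theorem vMap_surj (k : ℕ) : Function.Surjective (vMap k) := by
  rintro ⟨y', h⟩
  have hh0 := h.2.1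
  have hh1 := h.2.2
  have hd0 : 0 ≤ dist y' (ctr k) := dist_nonneg
  have hd1 := v_dist_half y'
  by_cases h1 : (h : ℝ) = 1
  · refine ⟨(y', 1), ?_⟩
    rw [vMap_one]
    exact Prod.ext rfl (Subtype.ext h1.symm)
  have h1' : (h : ℝ) < 1 := lt_of_le_of_ne hh1 h1
  rcases le_total (2 * dist y' (ctr k)) (1 - h / 2) with hR | hR
  · -- inner
    have h2h : (0 : ℝ) < 2 - h := by linarith
    let y : Cube k := fun l => projIcc 0 1 zero_le_one (1 / 2 + (2 - (h : ℝ))⁻¹ * ((y' l : ℝ) - 1 / 2))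
    have hy : ∀ l, (y l : ℝ) - 1 / 2 = (2 - (h : ℝ))⁻¹ * ((y' l : ℝ) - 1 / 2) := by
      intro l
      have h7 : |(2 - (h : ℝ))⁻¹ * ((y' l : ℝ) - 1 / 2)| ≤ 1 / 2 := by
        rw [abs_mul, abs_of_pos (inv_pos.mpr h2h)]
        have h8 : (2 - (h : ℝ))⁻¹ ≤ 1 := inv_le_one_of_one_le₀ (by linarith)
        have h9 := v_coord_le y' l
        have h10 := abs_nonneg ((y' l : ℝ) - 1 / 2)
        have h11 := inv_pos.mpr h2h
        nlinarith
      rw [abs_le] at h7
      show ((projIcc 0 1 zero_le_one (1 / 2 + (2 - (h : ℝ))⁻¹ * ((y' l : ℝ) - 1 / 2)) : I) : ℝ)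
        - 1 / 2 = _
      rw [projIcc_of_mem zero_le_one (by constructor <;> linarith)]
      show (1 / 2 + (2 - (h : ℝ))⁻¹ * ((y' l : ℝ) - 1 / 2)) - 1 / 2 = _
      ring
    have hdy : dist y (ctr k) ≤ 1 / 4 := by
      have := v_scale_le (y := y') (y' := y) (inv_pos.mpr h2h).le hy
      refine this.trans ?_
      rw [inv_mul_le_iff₀ h2h]
      linarith
    obtain ⟨e1, e2, -⟩ := vMap_in hdy h
    refine ⟨(y, h), Prod.ext ?_ (Subtype.ext e1)⟩
    funext l
    apply Subtype.ext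
    have e := e2 l
    rw [hy l, ← mul_assoc, mul_inv_cancel₀ h2h.ne', one_mul] at e
    show ((vMap k (y, h)).1 l : ℝ) = y' l
    linarith
  · -- outer
    set R : ℝ := 2 * dist y' (ctr k) with hRd
    have hRpos : 0 < R := by linarith
    set p : ℝ := (1 - h) / 2 + (1 - R) with hp
    have hp0 : 0 < p := by rw [hp]; linarith
    have hp1 : p ≤ 1 / 2 := by rw [hp]; linarith
    have hc0 : 0 < (1 - p) / R := div_pos (by linarith) hRpos
    have hcR : (1 - p) / R * R = 1 - p := div_mul_cancel₀ _ hRpos.ne'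
    let y : Cube k := fun l => projIcc 0 1 zero_le_one (1 / 2 + (1 - p) / R * ((y' l : ℝ) - 1 / 2))
    have hy : ∀ l, (y l : ℝ) - 1 / 2 = (1 - p) / R * ((y' l : ℝ) - 1 / 2) := by
      intro l
      have h7 : |(1 - p) / R * ((y' l : ℝ) - 1 / 2)| ≤ 1 / 2 := by
        rw [abs_mul, abs_of_pos hc0]
        have h8 := mul_le_mul_of_nonneg_left (v_le_dist y' l) hc0.le
        have h9 : (1 - p) / R * dist y' (ctr k) = (1 - p) / 2 := by
          rw [hRd] at hcR ⊢
          linarith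
        linarith
      rw [abs_le] at h7
      show ((projIcc 0 1 zero_le_one (1 / 2 + (1 - p) / R * ((y' l : ℝ) - 1 / 2)) : I) : ℝ)
        - 1 / 2 = _
      rw [projIcc_of_mem zero_le_one (by constructor <;> linarith)]
      show (1 / 2 + (1 - p) / R * ((y' l : ℝ) - 1 / 2)) - 1 / 2 = _
      ring
    have hdy : 2 * dist y (ctr k) = 1 - p := by
      have := v_scale (y := y') (y' := y) hc0 hy
      rw [this]
      have e : 2 * ((1 - p) / R * dist y' (ctr k)) = (1 - p) / R * R := by rw [hRd]; ring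
      rw [e, hcR]
    have hs0 : 0 ≤ (1 - R) / p := div_nonneg (by linarith) hp0.le
    have hs1 : (1 - R) / p ≤ 1 := by
      rw [div_le_one hp0, hp]
      linarith
    have hsp : (1 - R) / p * p = 1 - R := div_mul_cancel₀ _ hp0.ne'
    obtain ⟨e1, e2, -⟩ := vMap_out (y := y) (by linarith) ⟨(1 - R) / p, hs0, hs1⟩
    refine ⟨(y, ⟨(1 - R) / p, hs0, hs1⟩), Prod.ext ?_ (Subtype.ext ?_)⟩
    · funext l
      apply Subtype.ext
      have e := e2 l
      rw [hdy, hy l] at e
      have e4 : (1 : ℝ) - (1 - R) / p * (1 - (1 - p)) = R := by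
        have : (1 : ℝ) - (1 - p) = p := by ring
        rw [this, hsp]
        ring
      have e5 : ((vMap k (y, ⟨(1 - R) / p, hs0, hs1⟩)).1 l - 1 / 2 : ℝ) * (1 - p) =
          ((y' l : ℝ) - 1 / 2) * (1 - p) := by
        rw [e]
        show (1 - (1 - R) / p * (1 - (1 - p))) * ((1 - p) / R * ((y' l : ℝ) - 1 / 2)) = _
        rw [e4]
        calc R * ((1 - p) / R * ((y' l : ℝ) - 1 / 2)) = ((1 - p) / R * R) * ((y' l : ℝ) - 1 / 2) := by
              ring
          _ = _ := by rw [hcR]; ring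
      have := mul_right_cancel₀ (by linarith : (1 - p) ≠ 0) e5
      show ((vMap k (y, ⟨(1 - R) / p, hs0, hs1⟩)).1 l : ℝ) = y' l
      linarith
    · rw [e1, hdy]
      show 1 - 2 * (1 - (1 - R) / p) * (1 - (1 - p)) = (h : ℝ)
      have : 1 - 2 * (1 - (1 - R) / p) * (1 - (1 - p)) = 1 - 2 * p + 2 * ((1 - R) / p * p) := by
        ring
      rw [this, hsp, hp]
      ring

theorem pr_V : S_V := by
  intro k _
  have h7 : ∀ p : Cube k × I, (p.2 = 0 ∨ p.1 ∈ bd k) →
      ((vMap k p).2 = 0 ∨ (vMap k p).1 ∈ bd k) := by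
    rintro ⟨y, s⟩ (hs | hy)
    · have hs' : s = 0 := hs
      subst hs'
      rcases le_total (dist y (ctr k)) (1 / 4) with hy | hy
      · left
        exact Subtype.ext (vMap_in hy 0).1
      · right
        rw [v_mem_bd]
        have := (vMap_out hy 0).2.2
        have e : ((0 : I) : ℝ) = 0 := rfl
        rw [e] at this
        linarith
    · right
      rw [vMap_bd hy s]
      exact hy
  refine ⟨vMap k, vMap_cont k, vMap_surj k, ?_, ?_, ?_, vMap_one, h7, ?_, ?_, vMap_inj⟩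
  · intro y s hy
    exact ⟨(vMap_in hy s).1, (vMap_in hy s).2.1⟩
  · intro y s hy
    exact ⟨(vMap_out hy s).1, (vMap_out hy s).2.1⟩
  · intro y hy s
    exact vMap_bd hy s
  · rintro ⟨y, s⟩ hn hv
    apply hn
    have hs0 := s.2.1
    have hs1 := s.2.2
    rcases le_total (dist y (ctr k)) (1 / 4) with hy | hy
    · obtain ⟨e1, -, e3⟩ := vMap_in hy s
      rcases hv with hv | hv
      · left
        apply Subtype.ext
        rw [hv] at e1
        exact e1.symm
      · rw [v_mem_bd] at hv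
        have e3' : (2 - (s : ℝ)) * dist y (ctr k) = 1 / 2 := e3.symm.trans hv
        left
        apply Subtype.ext
        show (s : ℝ) = 0
        nlinarith
    · obtain ⟨e1, -, e3⟩ := vMap_out hy s
      have hd := v_dist_half y
      rcases hv with hv | hv
      · left
        apply Subtype.ext
        rw [hv] at e1
        have e0 : ((0 : I) : ℝ) = 0 := rfl
        rw [e0] at e1
        show (s : ℝ) = 0
        nlinarith
      · rw [v_mem_bd] at hv
        have e3' : 2 * (1 / 2 : ℝ) = 1 - (s : ℝ) * (1 - 2 * dist y (ctr k)) := by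
          rw [← e3, hv]
        have e4 : (s : ℝ) * (1 - 2 * dist y (ctr k)) = 0 := by linarith
        rcases mul_eq_zero.mp e4 with e4 | e4
        · exact Or.inl (Subtype.ext e4)
        · right
          rw [v_mem_bd]
          linarith
  · intro p p' hpp hn
    rcases vMap_inj p p' hpp with h | ⟨h, -⟩
    · exact h
    · exact absurd (h7 p (Or.inr h)) hn

end M202

end

section

/-!
MP_202a65_gt (captain helper47): infinite composition of homeomorphisms (X6).
-/

open Set Topology unitInterval Filter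

namespace M202

namespace AsmLimit

theorem exists_pos_le {X : Type*} [TopologicalSpace X] {K : Set X} (hK : IsCompact K)
    {f : X → ℝ} (hf : ContinuousOn f K) (hpos : ∀ x ∈ K, 0 < f x) :
    ∃ η : ℝ, 0 < η ∧ ∀ x ∈ K, η ≤ f x := by
  rcases K.eq_empty_or_nonempty with he | hne
  · exact ⟨1, one_pos, by rw [he]; simp⟩
  · obtain ⟨x₀, hx₀, hmin⟩ := hK.exists_isMinOn hne hf
    exact ⟨f x₀, hpos x₀ hx₀, fun x hx => hmin hx⟩

section

variable {X : Type*} [MetricSpace X] {U : Set X} {O C : ℕ → Set X} {rho : X → ℝ}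

/-- One step. -/
theorem step (hC : ∀ l, IsCompact (C l)) (hK : ∀ l, IsCompact (closure (O l)))
    (hKU : ∀ l, closure (O l) ⊆ U) (hrho : ∀ x y, |rho x - rho y| ≤ dist x y)
    (hpos : ∀ x ∈ U, 0 < rho x) (hrho0 : ∀ x, x ∉ U → rho x = 0)
    (hk : ∀ (l : ℕ) (h : X ≃ₜ X) (ep : ℝ), 0 < ep →
      ∃ k : X ≃ₜ X, (∀ x, x ∉ O l → k x = x) ∧ (∀ x, dist (k x) x ≤ ep) ∧
        ∀ x ∈ C l, h (k x) ≠ x)
    (l : ℕ) (h : X ≃ₜ X) (h1 : ∀ x, x ∉ U → h x = x) (h2 : ∀ m < l, ∀ x ∈ C m, h x ≠ x) :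
    ∃ h' : X ≃ₜ X, (∀ x, x ∉ U → h' x = x) ∧ (∀ m < l + 1, ∀ x ∈ C m, h' x ≠ x) ∧
      (∀ x, x ∉ O l → h' x = h x) ∧ ∀ x, dist (h' x) (h x) ≤ (1 / 2) ^ (l + 3) * rho x := by
  have hrc : Continuous rho := by
    refine Metric.continuous_iff.2 fun a ε hε => ⟨ε, hε, fun x hx => ?_⟩
    rw [Real.dist_eq]
    exact lt_of_le_of_lt (hrho x a) hx
  obtain ⟨η₁, hη₁, hη₁'⟩ := exists_pos_le (hK l) hrc.continuousOn
    (fun x hx => hpos x (hKU l hx))
  have hc2 : IsCompact (⋃ m ∈ Finset.range l, C m) :=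
    (Finset.range l).isCompact_biUnion fun m _ => hC m
  obtain ⟨η₂, hη₂, hη₂'⟩ := exists_pos_le hc2 (f := fun x => dist (h x) x)
    (h.continuous.dist continuous_id).continuousOn (by
      intro x hx
      simp only [Finset.mem_range, mem_iUnion, exists_prop] at hx
      obtain ⟨m, hm, hx⟩ := hx
      exact dist_pos.2 (h2 m hm x hx))
  set η : ℝ := min ((1 / 2) ^ (l + 3) * η₁) (η₂ / 2) with hη
  have hη0 : 0 < η := lt_min (by positivity) (by positivity)
  obtain ⟨δ, hδ, hδ'⟩ := Metric.uniformContinuousOn_iff.1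
    ((hK l).uniformContinuousOn_of_continuous h.continuous.continuousOn) η hη0
  obtain ⟨k, hk1, hk2, hk3⟩ := hk l h (δ / 2) (half_pos hδ)
  have hkO : ∀ x ∈ O l, k x ∈ O l := by
    intro x hx
    by_contra hkx
    have h3 := hk1 (k x) hkx
    have h4 := k.injective h3
    rw [h4] at hkx
    exact hkx hx
  have hd : ∀ x ∈ O l, dist (h (k x)) (h x) < η := by
    intro x hx
    refine hδ' (k x) (subset_closure (hkO x hx)) x (subset_closure hx) ?_
    have := hk2 x
    linarith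
  refine ⟨k.trans h, ?_, ?_, ?_, ?_⟩
  · intro x hx
    change h (k x) = x
    have hxO : x ∉ O l := fun h3 => hx (hKU l (subset_closure h3))
    rw [hk1 x hxO]
    exact h1 x hx
  · intro m hm x hx
    change h (k x) ≠ x
    rcases Nat.lt_succ_iff_lt_or_eq.1 hm with hlt | heq
    · by_cases hxO : x ∈ O l
      · intro he
        have h3 := hd x hxO
        rw [he] at h3
        have h4 : η₂ ≤ dist (h x) x := hη₂' x (by
          simp only [Finset.mem_range, mem_iUnion, exists_prop]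
          exact ⟨m, hlt, hx⟩)
        rw [dist_comm] at h3
        have h5 : η ≤ η₂ / 2 := min_le_right _ _
        linarith
      · rw [hk1 x hxO]
        exact h2 m hlt x hx
    · rw [heq] at hx
      exact hk3 x hx
  · intro x hx
    change h (k x) = h x
    rw [hk1 x hx]
  · intro x
    change dist (h (k x)) (h x) ≤ _
    by_cases hxO : x ∈ O l
    · refine (hd x hxO).le.trans ((min_le_left _ _).trans ?_)
      exact mul_le_mul_of_nonneg_left (hη₁' x (subset_closure hxO)) (by positivity)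
    · rw [hk1 x hxO, dist_self]
      have h3 : 0 ≤ rho x := by
        by_cases hxU : x ∈ U
        · exact (hpos x hxU).le
        · rw [hrho0 x hxU]
      positivity

end

end AsmLimit

open AsmLimit in
theorem pr_AsmLimit.{u} : S_AsmLimit.{u} := by
  intro X _ U O C rho hU hO hC hCO hK hKU hCU hlf hrho hpos hrho0 hball hballU hk
  -- the sequence
  let P : ℕ → (X ≃ₜ X) → Prop := fun l h =>
    (∀ x, x ∉ U → h x = x) ∧ ∀ m < l, ∀ x ∈ C m, h x ≠ x
  have hstep : ∀ l, ∀ h : {h : X ≃ₜ X // P l h}, ∃ h' : {h : X ≃ₜ X // P (l + 1) h},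
      (∀ x, x ∉ O l → h'.1 x = h.1 x) ∧
        ∀ x, dist (h'.1 x) (h.1 x) ≤ (1 / 2) ^ (l + 3) * rho x := by
    rintro l ⟨h, h1, h2⟩
    obtain ⟨h', a, b, c, d⟩ := step hC hK hKU hrho hpos hrho0 hk l h h1 h2
    exact ⟨⟨h', a, b⟩, c, d⟩
  choose nxt hnxt1 hnxt2 using hstep
  let sq : ∀ l, {h : X ≃ₜ X // P l h} := fun l =>
    Nat.rec (motive := fun l => {h : X ≃ₜ X // P l h})
      ⟨Homeomorph.refl X, fun _ _ => rfl, fun m hm => absurd hm (Nat.not_lt_zero m)⟩
      (fun l h => nxt l h) l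
  let h : ℕ → X ≃ₜ X := fun l => (sq l).1
  have hh0 : ∀ x, h 0 x = x := fun x => rfl
  have hid : ∀ l x, x ∉ U → h l x = x := fun l => (sq l).2.1
  have hne : ∀ l, ∀ m < l, ∀ x ∈ C m, h l x ≠ x := fun l => (sq l).2.2
  have hR1 : ∀ l x, x ∉ O l → h (l + 1) x = h l x := fun l x hx => hnxt1 l (sq l) x hx
  have hR2 : ∀ l x, dist (h (l + 1) x) (h l x) ≤ (1 / 2) ^ (l + 3) * rho x :=
    fun l x => hnxt2 l (sq l) x
  clear_value h
  have hrho_nn : ∀ x, 0 ≤ rho x := by
    intro x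
    by_cases hxU : x ∈ U
    · exact (hpos x hxU).le
    · rw [hrho0 x hxU]
  -- displacement
  have hD1' : ∀ l x, dist (h l x) x ≤ (1 / 4 - (1 / 2) ^ (l + 2)) * rho x := by
    intro l x
    induction l with
    | zero => rw [hh0, dist_self]; norm_num
    | succ l ih =>
      have h1 := dist_triangle (h (l + 1) x) (h l x) x
      have h2 := hR2 l x
      have h3 : ((1 / 2 : ℝ)) ^ (l + 2) = 2 * (1 / 2) ^ (l + 3) := by ring
      have h4 : ((1 / 2 : ℝ)) ^ (l + 1 + 2) = (1 / 2) ^ (l + 3) := by ring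
      rw [h4]
      rw [h3] at ih
      calc dist (h (l + 1) x) x ≤ (1 / 2) ^ (l + 3) * rho x +
            (1 / 4 - 2 * (1 / 2) ^ (l + 3)) * rho x := by linarith
        _ = (1 / 4 - (1 / 2) ^ (l + 3)) * rho x := by ring
  have hD1 : ∀ l x, dist (h l x) x ≤ 1 / 4 * rho x := by
    intro l x
    refine (hD1' l x).trans (mul_le_mul_of_nonneg_right ?_ (hrho_nn x))
    have : (0 : ℝ) < (1 / 2) ^ (l + 2) := by positivity
    linarith
  have hD2 : ∀ l y, dist ((h l).symm y) y ≤ 1 / 3 * rho y := by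
    intro l y
    have h1 := hD1 l ((h l).symm y)
    rw [(h l).apply_symm_apply, dist_comm] at h1
    have h2 := (le_abs_self _).trans (hrho ((h l).symm y) y)
    linarith
  -- eventual constancy
  have hconst : ∀ x ∈ U, ∃ W : Set X, IsOpen W ∧ x ∈ W ∧ ∃ N : ℕ, ∀ l, N ≤ l → ∀ x' ∈ W,
      h l x' = h N x' := by
    intro x hx
    obtain ⟨W, hW, hxW, N, hN⟩ := hlf x hx
    refine ⟨W, hW, hxW, N, fun l hl x' hx' => ?_⟩
    induction l, hl using Nat.le_induction with
    | base => rfl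
    | succ l hl ih =>
      rw [hR1 l x' (fun h3 => Set.disjoint_left.1 (hN l hl) hx' h3), ih]
  have hconst' : ∀ y ∈ U, ∃ W : Set X, IsOpen W ∧ y ∈ W ∧ ∃ N : ℕ, ∀ l, N ≤ l → ∀ y' ∈ W,
      (h l).symm y' = (h N).symm y' := by
    intro y hy
    -- the compact ball meets finitely many O l
    obtain ⟨N, hN⟩ : ∃ N : ℕ, ∀ l, N ≤ l → Disjoint (Metric.closedBall y (rho y)) (O l) := by
      have hcb := hball y hy
      choose! W hWo hxW N hN using hlf
      obtain ⟨t, ht, htc⟩ := hcb.elim_nhds_subcover W (fun x hx =>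
        (hWo x (hballU y hy hx)).mem_nhds (hxW x (hballU y hy hx)))
      refine ⟨t.sup N, fun l hl => ?_⟩
      rw [Set.disjoint_left]
      intro x hx hxO
      obtain ⟨z, hz, hxz⟩ := mem_iUnion₂.1 (htc hx)
      exact Set.disjoint_left.1 (hN z (hballU y hy (ht z hz)) l ((Finset.le_sup hz).trans hl))
        hxz hxO
    have hry := hpos y hy
    refine ⟨Metric.ball y (rho y / 8), Metric.isOpen_ball, Metric.mem_ball_self (by linarith), N,
      fun l hl y' hy' => ?_⟩
    rw [Metric.mem_ball] at hy'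
    induction l, hl using Nat.le_induction with
    | base => rfl
    | succ l hl ih =>
      rw [← ih, Homeomorph.symm_apply_eq, hR1 l, (h l).apply_symm_apply]
      have h1 := hD2 l y'
      have h2 := (le_abs_self _).trans (hrho y' y)
      have h3 := dist_triangle ((h l).symm y') y' y
      refine fun h4 => Set.disjoint_left.1 (hN l hl) ?_ h4
      rw [Metric.mem_closedBall]
      linarith
  have hH : ∀ x, ∃ v, ∀ᶠ l in atTop, h l x = v := by
    intro x
    by_cases hx : x ∈ U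
    · obtain ⟨W, -, hxW, N, hN⟩ := hconst x hx
      exact ⟨h N x, eventually_atTop.2 ⟨N, fun l hl => hN l hl x hxW⟩⟩
    · exact ⟨x, Eventually.of_forall fun l => hid l x hx⟩
  have hid' : ∀ l x, x ∉ U → (h l).symm x = x := by
    intro l x hx
    rw [Homeomorph.symm_apply_eq, hid l x hx]
  have hG : ∀ x, ∃ v, ∀ᶠ l in atTop, (h l).symm x = v := by
    intro x
    by_cases hx : x ∈ U
    · obtain ⟨W, -, hxW, N, hN⟩ := hconst' x hx
      exact ⟨(h N).symm x, eventually_atTop.2 ⟨N, fun l hl => hN l hl x hxW⟩⟩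
    · exact ⟨x, Eventually.of_forall fun l => hid' l x hx⟩
  choose H hH using hH
  choose G hG using hG
  have hval : ∀ {x v w : X} {f : ℕ → X}, (∀ᶠ l in atTop, f l = v) → (∀ᶠ l in atTop, f l = w) →
      v = w := by
    intro _ v w f h1 h2
    obtain ⟨l, h3, h4⟩ := (h1.and h2).exists
    rw [← h3, ← h4]
  have hHid : ∀ x, x ∉ U → H x = x := fun x hx =>
    hval (x := x) (hH x) (Eventually.of_forall fun l => hid l x hx)
  have hGid : ∀ x, x ∉ U → G x = x := fun x hx =>
    hval (x := x) (hG x) (Eventually.of_forall fun l => hid' l x hx)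
  have hHG : ∀ y, H (G y) = y := by
    intro y
    refine hval (x := y) (hH (G y)) ?_
    filter_upwards [hG y] with l hl
    rw [← hl, (h l).apply_symm_apply]
  have hGH : ∀ x, G (H x) = x := by
    intro x
    refine hval (x := x) (hG (H x)) ?_
    filter_upwards [hH x] with l hl
    rw [← hl, (h l).symm_apply_apply]
  have hHd : ∀ x, dist (H x) x ≤ 1 / 4 * rho x := by
    intro x
    obtain ⟨l, hl⟩ := (hH x).exists
    rw [← hl]
    exact hD1 l x
  have hGd : ∀ x, dist (G x) x ≤ 1 / 3 * rho x := by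
    intro x
    obtain ⟨l, hl⟩ := (hG x).exists
    rw [← hl]
    exact hD2 l x
  -- continuity off U
  have hcoff : ∀ (F : X → X), (∀ x, dist (F x) x ≤ rho x) → ∀ a, a ∉ U → F a = a →
      ContinuousAt F a := by
    intro F hF a ha hFa
    rw [Metric.continuousAt_iff]
    intro ε hε
    refine ⟨ε / 2, half_pos hε, fun x hx => ?_⟩
    rw [hFa]
    have h1 := (le_abs_self _).trans (hrho x a)
    rw [hrho0 a ha, sub_zero] at h1
    have h2 := dist_triangle (F x) x a
    have h3 := hF x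
    linarith
  have hHc : Continuous H := by
    rw [continuous_iff_continuousAt]
    intro a
    by_cases ha : a ∈ U
    · obtain ⟨W, hW, haW, N, hN⟩ := hconst a ha
      refine (h N).continuous.continuousAt.congr ?_
      filter_upwards [hW.mem_nhds haW] with x hx
      exact hval (x := x) (eventually_atTop.2 ⟨N, fun l hl => hN l hl x hx⟩) (hH x)
    · refine hcoff H (fun x => ?_) a ha (hHid a ha)
      have := hHd x
      have := hrho_nn x
      linarith
  have hGc : Continuous G := by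
    rw [continuous_iff_continuousAt]
    intro a
    by_cases ha : a ∈ U
    · obtain ⟨W, hW, haW, N, hN⟩ := hconst' a ha
      refine (h N).symm.continuous.continuousAt.congr ?_
      filter_upwards [hW.mem_nhds haW] with x hx
      exact hval (x := x) (eventually_atTop.2 ⟨N, fun l hl => hN l hl x hx⟩) (hG x)
    · refine hcoff G (fun x => ?_) a ha (hGid a ha)
      have := hGd x
      have := hrho_nn x
      linarith
  refine ⟨⟨⟨H, G, hGH, hHG⟩, hHc, hGc⟩, ?_⟩
  ext x
  constructor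
  · intro hx hxU
    have hx' : H x = x := hx
    rw [← hCU] at hxU
    obtain ⟨m, hm⟩ := mem_iUnion.1 hxU
    obtain ⟨l, hl1, hl2⟩ := ((hH x).and (eventually_gt_atTop m)).exists
    apply hne l m hl2 x hm
    rw [hl1, hx']
  · intro hx
    exact hHid x hx

end M202

end
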