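import Pool.Agent.Work.MP_202a65_gt.Bd.B05
import Pool.Agent.Work.MP_202a65_gt.Bd.B03
import Pool.Agent.Work.MP_202a65_gt.Bd.B02

/-! Bundle of small proof modules (one section per former module). -/

section

/-! MP_202a65_gt, item AsmStep: one step of the assembly. -/

open Set Topology

namespace M202

theorem AsmStep_compact {n : ℕ} (hn : 1 ≤ n) : CompactSpace (UM n) := by
  have h := pr_MbFacts pr_Lev pr_Med pr_Grid n hn
  refine isCompact_iff_compactSpace.1 (IsClosed.isCompact ?_)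
  exact isClosed_iInter fun b => (h.1 b).2.2.1

section

variable {X : Type*} [MetricSpace X] {n : ℕ} {O : Set X} {phi : X → UM n} {inv : UM n → X}

theorem AsmStep_right (hc : IsChart n O phi inv) {y : UM n} (hy : y ∈ phi '' O) :
    phi (inv y) = y := by
  obtain ⟨x, hx, rfl⟩ := hy
  rw [hc.left x hx]

theorem AsmStep_memO (hc : IsChart n O phi inv) {y : UM n} (hy : y ∈ phi '' O) :
    inv y ∈ O := by
  obtain ⟨x, hx, rfl⟩ := hy
  rwa [hc.left x hx]

/-- preimages under the chart of open sets are open -/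
theorem AsmStep_openX (hc : IsChart n O phi inv) {W : Set (UM n)} (hW : IsOpen W) :
    IsOpen (O ∩ phi ⁻¹' W) :=
  hc.cont.isOpen_inter_preimage hc.isOpen hW

/-- images of open subsets are open -/
theorem AsmStep_openM (hc : IsChart n O phi inv) {U : Set X} (hU : IsOpen U) (hUO : U ⊆ O) :
    IsOpen (phi '' U) := by
  have h1 : phi '' U = phi '' O ∩ inv ⁻¹' U := by
    ext y
    constructor
    · rintro ⟨x, hx, rfl⟩
      exact ⟨⟨x, hUO hx, rfl⟩, by rw [mem_preimage, hc.left x (hUO hx)]; exact hx⟩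
    · rintro ⟨hy, hy2⟩
      exact ⟨inv y, hy2, AsmStep_right hc hy⟩
  rw [h1]
  exact hc.contInv.isOpen_inter_preimage hc.openImage hU

open Classical in
/-- the transported map -/
noncomputable def AsmStep_tr (O : Set X) (phi : X → UM n) (inv : UM n → X) (k : UM n → UM n)
    (x : X) : X := if x ∈ O then inv (k (phi x)) else x

theorem AsmStep_tr_cont (hn : 1 ≤ n) (hc : IsChart n O phi inv) {V1 : Set (UM n)}
    (hV1 : closure V1 ⊆ phi '' O) (k : UM n ≃ₜ UM n) (hk : ∀ y, y ∉ V1 → k y = y) :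
    Continuous (AsmStep_tr O phi inv k) := by
  have := AsmStep_compact hn
  have hL : IsCompact (closure V1) := isClosed_closure.isCompact
  have hLX : IsCompact (inv '' closure V1) := hL.image_of_continuousOn (hc.contInv.mono hV1)
  have hkV : ∀ y ∈ V1, k y ∈ V1 := by
    intro y hy
    by_contra h
    have := hk _ h
    have h2 := k.injective this
    rw [h2] at h
    exact h hy
  have hkO : ∀ y ∈ phi '' O, k y ∈ phi '' O := by
    intro y hy
    by_cases h : y ∈ V1
    · exact hV1 (subset_closure (hkV y h))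
    · rwa [hk y h]
  rw [continuous_iff_continuousAt]
  intro x
  by_cases hx : x ∈ inv '' closure V1
  · have hxO : x ∈ O := by
      obtain ⟨y, hy, rfl⟩ := hx
      exact AsmStep_memO hc (hV1 hy)
    have h1 : ContinuousOn (AsmStep_tr O phi inv k) O := by
      have h2 : ContinuousOn (fun x => inv (k (phi x))) O :=
        hc.contInv.comp (k.continuous.comp_continuousOn hc.cont)
          (fun x hx => hkO _ ⟨x, hx, rfl⟩)
      refine h2.congr fun x hx => ?_
      simp [AsmStep_tr, hx]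
    exact h1.continuousAt (hc.isOpen.mem_nhds hxO)
  · have hop : IsOpen (inv '' closure V1)ᶜ := hLX.isClosed.isOpen_compl
    have h1 : ContinuousOn (AsmStep_tr O phi inv k) (inv '' closure V1)ᶜ := by
      refine continuousOn_id.congr fun x hx => ?_
      unfold AsmStep_tr
      split_ifs with hxO
      · have : phi x ∉ V1 := fun h => hx ⟨phi x, subset_closure h, hc.left x hxO⟩
        rw [hk _ this, hc.left x hxO]
        rfl
      · rfl
    exact h1.continuousAt (hop.mem_nhds hx)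

theorem AsmStep_tr_inv (hc : IsChart n O phi inv) (k k2 : UM n → UM n) (hkO : ∀ y ∈ phi '' O, k y ∈ phi '' O)
    (hk2 : ∀ y, k2 (k y) = y) (x : X) :
    AsmStep_tr O phi inv k2 (AsmStep_tr O phi inv k x) = x := by
  by_cases hx : x ∈ O
  · have h1 : AsmStep_tr O phi inv k x = inv (k (phi x)) := by simp [AsmStep_tr, hx]
    have h2 : k (phi x) ∈ phi '' O := hkO _ ⟨x, hx, rfl⟩
    have h3 : inv (k (phi x)) ∈ O := AsmStep_memO hc h2
    rw [h1, AsmStep_tr, if_pos h3, AsmStep_right hc h2, hk2, hc.left x hx]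
  · have h1 : AsmStep_tr O phi inv k x = x := by simp [AsmStep_tr, hx]
    rw [h1]
    simp [AsmStep_tr, hx]

end

theorem pr_AsmStep.{u} (h : S_Core) : S_AsmStep.{u} := by
  intro n X _ O C phi inv H ep hn hc hC hCO hep
  have := AsmStep_compact hn
  -- a smaller open set
  have hphiC : IsCompact (phi '' C) := hC.image_of_continuousOn (hc.cont.mono hCO)
  have hsub : phi '' C ⊆ phi '' O := image_mono hCO
  obtain ⟨V1, hV1o, hV1C, hV1cl⟩ :
      ∃ V1 : Set (UM n), IsOpen V1 ∧ phi '' C ⊆ V1 ∧ closure V1 ⊆ phi '' O :=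
    normal_exists_closure_subset hphiC.isClosed hc.openImage hsub
  have hL : IsCompact (closure V1) := isClosed_closure.isCompact
  have hLX : IsCompact (inv '' closure V1) := hL.image_of_continuousOn (hc.contInv.mono hV1cl)
  -- uniform continuity
  obtain ⟨δ, hδ, hδ2⟩ : ∃ δ > 0, ∀ a ∈ closure V1, ∀ b ∈ closure V1, dist a b < δ →
      dist (inv a) (inv b) < ep := by
    have := hL.uniformContinuousOn_of_continuous (hc.contInv.mono hV1cl)
    rw [Metric.uniformContinuousOn_iff] at this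
    exact this ep hep
  -- the domain of g
  set C1 : Set X := C ∩ H.symm ⁻¹' (inv '' closure V1) with hC1
  have hC1c : IsCompact C1 := by
    refine hC.inter_right ?_
    exact hLX.isClosed.preimage H.symm.continuous
  set V' : Set (UM n) := phi '' (O ∩ H.symm ⁻¹' O) with hV'
  have hV'o : IsOpen V' := AsmStep_openM hc
    (hc.isOpen.inter (hc.isOpen.preimage H.symm.continuous)) inter_subset_left
  have hV'O : V' ⊆ phi '' O := image_mono inter_subset_left
  have hV'2 : ∀ y ∈ V', H.symm (inv y) ∈ O := by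
    rintro y ⟨x, hx, rfl⟩
    rw [hc.left x hx.1]
    exact hx.2
  have hgc : ContinuousOn (fun y => phi (H.symm (inv y))) V' :=
    hc.cont.comp (H.symm.continuous.comp_continuousOn (hc.contInv.mono hV'O)) hV'2
  have hgi : InjOn (fun y => phi (H.symm (inv y))) V' := by
    intro a ha b hb hab
    have h1 : H.symm (inv a) = H.symm (inv b) := by
      have := congrArg inv hab
      simp only at this
      rwa [hc.left _ (hV'2 a ha), hc.left _ (hV'2 b hb)] at this
    have h2 : inv a = inv b := H.symm.injective h1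
    have := congrArg phi h2
    rwa [AsmStep_right hc (hV'O ha), AsmStep_right hc (hV'O hb)] at this
  have hgo : ∀ W, W ⊆ V' → IsOpen W → IsOpen ((fun y => phi (H.symm (inv y))) '' W) := by
    intro W hWV hW
    have h1 : (fun y => phi (H.symm (inv y))) '' W = phi '' (H ⁻¹' (O ∩ phi ⁻¹' W)) := by
      ext z
      constructor
      · rintro ⟨y, hy, rfl⟩
        refine ⟨H.symm (inv y), ?_, rfl⟩
        rw [mem_preimage, H.apply_symm_apply]
        exact ⟨AsmStep_memO hc (hV'O (hWV hy)), by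
          rw [mem_preimage, AsmStep_right hc (hV'O (hWV hy))]; exact hy⟩
      · rintro ⟨x, hx, rfl⟩
        refine ⟨phi (H x), hx.2, ?_⟩
        simp only
        rw [hc.left _ hx.1, H.symm_apply_apply]
    rw [h1]
    refine AsmStep_openM hc ((AsmStep_openX hc hW).preimage H.continuous) ?_
    intro x hx
    have h2 : phi (H x) ∈ V' := hWV hx.2
    have h3 := hV'2 _ h2
    rwa [hc.left _ hx.1, H.symm_apply_apply] at h3
  obtain ⟨k, hk1, hk2, hk3⟩ := h n V1 V' (phi '' C1) (fun y => phi (H.symm (inv y))) (δ / 2) hn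
    hV1o hV'o (hC1c.image_of_continuousOn (hc.cont.mono (inter_subset_left.trans hCO)))
    ((image_mono inter_subset_left).trans hV1C)
    (by
      refine image_mono fun x hx => ⟨hCO hx.1, ?_⟩
      obtain ⟨y, hy, hy2⟩ := hx.2
      rw [mem_preimage, ← hy2]
      exact AsmStep_memO hc (hV1cl hy))
    hgc hgi hgo (by linarith)
  have hkV : ∀ y ∈ V1, k y ∈ V1 := by
    intro y hy
    by_contra h
    have h2 := k.injective (hk1 _ h)
    rw [h2] at h
    exact h hy
  have hk1' : ∀ y, y ∉ V1 → k.symm y = y := by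
    intro y hy
    rw [Homeomorph.symm_apply_eq]
    exact (hk1 y hy).symm
  have hkV' : ∀ y ∈ V1, k.symm y ∈ V1 := by
    intro y hy
    by_contra h
    have h2 := k.symm.injective (hk1' _ h)
    rw [h2] at h
    exact h hy
  have hkO : ∀ y ∈ phi '' O, k y ∈ phi '' O := by
    intro y hy
    by_cases h : y ∈ V1
    · exact hV1cl (subset_closure (hkV y h))
    · rwa [hk1 y h]
  have hkO' : ∀ y ∈ phi '' O, k.symm y ∈ phi '' O := by
    intro y hy
    by_cases h : y ∈ V1
    · exact hV1cl (subset_closure (hkV' y h))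
    · rwa [hk1' y h]
  let K : X ≃ₜ X :=
    { toFun := AsmStep_tr O phi inv k
      invFun := AsmStep_tr O phi inv k.symm
      left_inv := AsmStep_tr_inv hc k k.symm hkO k.symm_apply_apply
      right_inv := AsmStep_tr_inv hc k.symm k hkO' k.apply_symm_apply
      continuous_toFun := AsmStep_tr_cont hn hc hV1cl k hk1
      continuous_invFun := AsmStep_tr_cont hn hc hV1cl k.symm hk1' }
  have hKO : ∀ x ∈ O, K x = inv (k (phi x)) := fun x hx => by
    show AsmStep_tr O phi inv k x = _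
    simp [AsmStep_tr, hx]
  have hKn : ∀ x, x ∉ O → K x = x := fun x hx => by
    show AsmStep_tr O phi inv k x = _
    simp [AsmStep_tr, hx]
  refine ⟨K, hKn, fun x => ?_, fun x hx => ?_⟩
  · by_cases hxO : x ∈ O
    · rw [hKO x hxO]
      by_cases hxV : phi x ∈ V1
      · have h1 := hδ2 (k (phi x)) (subset_closure (hkV _ hxV)) (phi x) (subset_closure hxV)
          (lt_of_le_of_lt (hk2 (phi x)) (by linarith))
        rw [hc.left x hxO] at h1
        exact h1.le
      · rw [hk1 _ hxV, hc.left x hxO, dist_self]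
        exact hep.le
    · rw [hKn x hxO, dist_self]
      exact hep.le
  · intro hcontra
    have hxO : x ∈ O := hCO hx
    have hxV : phi x ∈ V1 := hV1C ⟨x, hx, rfl⟩
    have h1 : K x = H.symm x := by
      rw [← H.symm_apply_apply (K x), hcontra]
    rw [hKO x hxO] at h1
    have hx1 : x ∈ C1 := by
      refine ⟨hx, ?_⟩
      rw [mem_preimage, ← h1]
      exact ⟨k (phi x), subset_closure (hkV _ hxV), rfl⟩
    refine hk3 (phi x) ⟨x, hx1, rfl⟩ ?_
    rw [hc.left x hxO, ← h1, AsmStep_right hc (hkO _ ⟨x, hxO, rfl⟩)]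

end M202

end

section

/-!
MP_202a65_gt, item Bridge (helper61): the Menger compactum of the problem is mu.
-/

set_option linter.unusedSectionVars false

open Set Topology unitInterval

namespace M202

theorem bridge_sub {n N : ℕ} (d : Fin N → Fin 3) :
    (subcube d ∩ skelI n N).Nonempty ↔ {i | d i = 1}.ncard ≤ n := by
  constructor
  · rintro ⟨y, hy1, hy2⟩
    refine le_trans (Set.ncard_le_ncard ?_ (Set.toFinite _)) hy2.2
    intro i hi
    have hi' : d i = 1 := hi
    have h := hy1 i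
    rw [hi'] at h
    norm_num at h
    constructor
    · intro h0
      linarith [h.1]
    · intro h0
      linarith [h.2]
  · intro h
    let y : Fin N → ℝ := fun i => ((d i : ℕ) : ℝ) / 2
    have hcase : ∀ i, (d i = 0 ∧ y i = 0) ∨ (d i = 1 ∧ y i = 1 / 2) ∨ (d i = 2 ∧ y i = 1) := by
      intro i
      have hd : d i = 0 ∨ d i = 1 ∨ d i = 2 := by
        generalize d i = e
        fin_cases e <;> simp
      rcases hd with hd | hd | hd
      · left
        refine ⟨hd, ?_⟩
        show ((d i : ℕ) : ℝ) / 2 = 0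
        rw [hd]; norm_num
      · right; left
        refine ⟨hd, ?_⟩
        show ((d i : ℕ) : ℝ) / 2 = 1 / 2
        rw [hd]; norm_num
      · right; right
        refine ⟨hd, ?_⟩
        show ((d i : ℕ) : ℝ) / 2 = 1
        rw [hd]; norm_num
    refine ⟨y, ?_, ?_, ?_⟩
    · intro i
      rcases hcase i with ⟨hd, hy⟩ | ⟨hd, hy⟩ | ⟨hd, hy⟩ <;> rw [hd, hy] <;> norm_num
    · intro i
      rcases hcase i with ⟨hd, hy⟩ | ⟨hd, hy⟩ | ⟨hd, hy⟩ <;> rw [hy] <;> norm_num
    · refine le_trans (Set.ncard_le_ncard ?_ (Set.toFinite _)) h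
      rintro i ⟨h0, h1⟩
      rcases hcase i with ⟨hd, hy⟩ | ⟨hd, hy⟩ | ⟨hd, hy⟩
      · exact absurd hy h0
      · exact hd
      · exact absurd hy h1

theorem bridge_lev0 {t : ℝ} (h0 : 0 ≤ t) (h1 : t ≤ 1) :
    lev 0 t < 1 / 6 ↔ 1 / 3 < t ∧ t < 2 / 3 := by
  unfold lev
  rw [pow_zero, one_mul]
  rcases h1.eq_or_lt with h1 | h1
  · subst h1
    rw [Int.fract_one]
    norm_num
  · rw [Int.fract_eq_self.mpr ⟨h0, h1⟩, abs_lt]
    constructor
    · rintro ⟨h2, h3⟩
      constructor <;> linarith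
    · rintro ⟨h2, h3⟩
      constructor <;> linarith

theorem bridge_lev_succ (j : ℕ) (t : ℝ) (d : ℕ) : lev (j + 1) t = lev j (3 * t - d) := by
  unfold lev
  have e : (3 : ℝ) ^ j * (3 * t - d) = 3 ^ (j + 1) * t - ((3 ^ j * d : ℤ) : ℝ) := by
    push_cast
    ring
  rw [e, Int.fract_sub_intCast]

theorem bridge_stage (n b : ℕ) : ∀ x : Fin (2 * n + 1) → ℝ,
    x ∈ stage n b ↔ (∀ i, 0 ≤ x i ∧ x i ≤ 1) ∧ ∀ j, j < b → {i | lev j (x i) < 1 / 6}.ncard ≤ n := by
  induction b with
  | zero =>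
    intro x
    constructor
    · intro h
      exact ⟨h, fun j hj => absurd hj (Nat.not_lt_zero j)⟩
    · intro h
      exact h.1
  | succ b ih =>
    intro x
    constructor
    · rintro ⟨d, hd, hx⟩
      rw [ih] at hx
      rw [bridge_sub] at hd
      obtain ⟨hx1, hx2⟩ := hx
      have hd3 : ∀ i, ((d i : ℕ) : ℝ) ≤ 2 := by
        intro i
        have := (d i).2
        have h2 : (d i : ℕ) ≤ 2 := by omega
        exact_mod_cast h2
      have hd0 : ∀ i, (0 : ℝ) ≤ ((d i : ℕ) : ℝ) := fun i => Nat.cast_nonneg _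
      have h01 : ∀ i, 0 ≤ x i ∧ x i ≤ 1 := by
        intro i
        have h1 := hx1 i
        have h2 := hd3 i
        have h3 := hd0 i
        constructor <;> linarith [h1.1, h1.2]
      refine ⟨h01, ?_⟩
      intro j hj
      rcases j with _ | j
      · refine le_trans (Set.ncard_le_ncard ?_ (Set.toFinite _)) hd
        intro i hi
        have hi' : lev 0 (x i) < 1 / 6 := hi
        rw [bridge_lev0 (h01 i).1 (h01 i).2] at hi'
        have h1 := hx1 i
        have hlt : ((d i : ℕ) : ℝ) < 2 := by linarith [h1.1, hi'.2]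
        have hgt : (0 : ℝ) < ((d i : ℕ) : ℝ) := by linarith [h1.2, hi'.1]
        have hlt' : (d i : ℕ) < 2 := by exact_mod_cast hlt
        have hgt' : 0 < (d i : ℕ) := by exact_mod_cast hgt
        show d i = 1
        apply Fin.ext
        show (d i : ℕ) = 1
        omega
      · have e : {i | lev (j + 1) (x i) < 1 / 6} =
            {i | lev j (3 * x i - ((d i : ℕ) : ℝ)) < 1 / 6} := by
          ext i
          rw [mem_ofPred_eq, mem_ofPred_eq, bridge_lev_succ j (x i) (d i : ℕ)]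
        rw [e]
        exact hx2 j (by omega)
    · rintro ⟨h01, hx⟩
      let d : Fin (2 * n + 1) → Fin 3 := fun i =>
        if x i ≤ 1 / 3 then 0 else if x i < 2 / 3 then 1 else 2
      have hcase : ∀ i, (d i = 0 ∧ x i ≤ 1 / 3) ∨ (d i = 1 ∧ 1 / 3 < x i ∧ x i < 2 / 3) ∨
          (d i = 2 ∧ 2 / 3 ≤ x i) := by
        intro i
        by_cases h1 : x i ≤ 1 / 3
        · left
          exact ⟨if_pos h1, h1⟩
        · right
          by_cases h2 : x i < 2 / 3
          · left
            refine ⟨?_, not_le.mp h1, h2⟩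
            show (if x i ≤ 1 / 3 then (0 : Fin 3) else if x i < 2 / 3 then 1 else 2) = 1
            rw [if_neg h1, if_pos h2]
          · right
            refine ⟨?_, not_lt.mp h2⟩
            show (if x i ≤ 1 / 3 then (0 : Fin 3) else if x i < 2 / 3 then 1 else 2) = 2
            rw [if_neg h1, if_neg h2]
      refine ⟨d, ?_, ?_⟩
      · rw [bridge_sub]
        refine le_trans (Set.ncard_le_ncard ?_ (Set.toFinite _)) (hx 0 (Nat.succ_pos b))
        intro i hi
        have hi' : d i = 1 := hi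
        show lev 0 (x i) < 1 / 6
        rw [bridge_lev0 (h01 i).1 (h01 i).2]
        rcases hcase i with ⟨h1, h2⟩ | ⟨h1, h2⟩ | ⟨h1, h2⟩
        · rw [hi'] at h1
          exact absurd h1 (by decide)
        · exact h2
        · rw [hi'] at h1
          exact absurd h1 (by decide)
      · rw [ih]
        constructor
        · intro i
          have h3 := h01 i
          rcases hcase i with ⟨h1, h2⟩ | ⟨h1, h2⟩ | ⟨h1, h2⟩ <;> simp only [h1] <;>
            constructor <;> norm_num <;> linarith [h3.1, h3.2]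
        · intro j hj
          have e : {i | lev (j + 1) (x i) < 1 / 6} =
              {i | lev j (3 * x i - ((d i : ℕ) : ℝ)) < 1 / 6} := by
            ext i
            rw [mem_ofPred_eq, mem_ofPred_eq, bridge_lev_succ j (x i) (d i : ℕ)]
          have h := hx (j + 1) (by omega)
          rw [e] at h
          exact h

theorem bridge_menger (n : ℕ) (x : Fin (2 * n + 1) → ℝ) :
    x ∈ Menger n ↔ (∀ i, 0 ≤ x i ∧ x i ≤ 1) ∧ ∀ j, {i | lev j (x i) < 1 / 6}.ncard ≤ n := by
  unfold Menger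
  rw [mem_iInter]
  constructor
  · intro h
    refine ⟨((bridge_stage n 0 x).mp (h 0)).1, fun j => ?_⟩
    exact ((bridge_stage n (j + 1) x).mp (h (j + 1))).2 j (Nat.lt_succ_self j)
  · rintro ⟨h1, h2⟩ b
    exact (bridge_stage n b x).mpr ⟨h1, fun j _ => h2 j⟩

theorem bridge_mu (n : ℕ) (x : Cube (2 * n + 1)) :
    x ∈ Mu n ↔ ∀ j, {i | lev j (x i) < 1 / 6}.ncard ≤ n := by
  unfold Mu
  rw [mem_iInter]
  constructor
  · intro h j
    exact h (j + 1) j (Nat.lt_succ_self j)
  · intro h b j _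
    exact h j

theorem pr_Bridge (_h1 : S_Lev) (_h2 : S_MbFacts) : S_Bridge := by
  intro n _
  refine ⟨?_⟩
  refine Homeomorph.mk ⟨fun x => ⟨fun i => ⟨x.1 i, ((bridge_menger n x.1).mp x.2).1 i⟩,
      (bridge_mu n _).mpr ((bridge_menger n x.1).mp x.2).2⟩,
    fun y => ⟨fun i => (y.1 i : ℝ), (bridge_menger n _).mpr
      ⟨fun i => (y.1 i).2, (bridge_mu n y.1).mp y.2⟩⟩, fun x => rfl, fun y => rfl⟩ ?_ ?_
  · refine Continuous.subtype_mk (continuous_pi fun i => Continuous.subtype_mk ?_ _) _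
    exact (continuous_apply i).comp continuous_subtype_val
  · refine Continuous.subtype_mk (continuous_pi fun i => ?_) _
    exact continuous_subtype_val.comp ((continuous_apply i).comp continuous_subtype_val)

end M202

end

section

/-!
MP_202a65_gt, item Charts (helper70): charts of a Menger manifold.
-/

open Set Topology unitInterval

namespace M202

universe u

open Classical in
theorem pr_Charts (h : S_Bridge) : S_Charts.{u} := by
  intro n X _ hn hM x U hU hx
  obtain ⟨N, hN, ⟨e0⟩⟩ := hM x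
  obtain ⟨b⟩ := h n hn
  set e : ↥N ≃ₜ UM n := e0.trans b with he
  have hxN : x ∈ N := mem_of_mem_nhds hN
  set phi : X → UM n := fun y => if hy : y ∈ N then e ⟨y, hy⟩ else e ⟨x, hxN⟩ with hphi
  have hphiN : ∀ (y : X) (hy : y ∈ N), phi y = e ⟨y, hy⟩ := by
    intro y hy
    simp only [hphi, dif_pos hy]
  have hO : IsOpen (interior N ∩ U) := isOpen_interior.inter hU
  have hON : interior N ∩ U ⊆ N := fun y hy => interior_subset hy.1
  have hcont : ContinuousOn phi N := by
    rw [continuousOn_iff_continuous_domRestrict]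
    have : N.domRestrict phi = e := by
      funext y
      exact hphiN y.1 y.2
    rw [this]
    exact e.continuous
  have himg : phi '' (interior N ∩ U) = e '' (Subtype.val ⁻¹' (interior N ∩ U)) := by
    ext u
    constructor
    · rintro ⟨y, hy, rfl⟩
      exact ⟨⟨y, hON hy⟩, hy, (hphiN y (hON hy)).symm⟩
    · rintro ⟨y, hy, rfl⟩
      exact ⟨y.1, hy, hphiN y.1 y.2⟩
  refine ⟨interior N ∩ U, phi, fun u => (e.symm u : X), ⟨hO, hcont.mono hON, ?_, ?_, ?_⟩, ?_, ?_⟩
  · rw [himg]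
    exact e.isOpenMap _ (hO.preimage continuous_subtype_val)
  · exact (continuous_subtype_val.comp e.symm.continuous).continuousOn
  · intro y hy
    rw [hphiN y (hON hy)]
    simp
  · exact ⟨mem_interior_iff_mem_nhds.2 hN, hx⟩
  · exact inter_subset_right

end M202

end

section

/-! MP_202a65_gt, item Core (helper68). -/

open Set Topology unitInterval Filter

namespace M202

lemma Core_face {L N : ℕ} (hL : 1 ≤ L) {x y : Cube N} (h : y ∈ faceOf L x) :
    dist y x ≤ 1 / L := by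
  have hL' : (0 : ℝ) < L := by exact_mod_cast hL
  rw [dist_pi_le_iff (by positivity)]
  intro i
  rw [Subtype.dist_eq, Real.dist_eq, abs_le]
  obtain ⟨h1, h2⟩ := h i
  have h3 := Int.floor_le ((L : ℝ) * (x i : ℝ))
  have h4 := Int.le_ceil ((L : ℝ) * (x i : ℝ))
  have h5 : (⌈(L : ℝ) * (x i : ℝ)⌉ : ℝ) ≤ (⌊(L : ℝ) * (x i : ℝ)⌋ : ℝ) + 1 := by
    exact_mod_cast Int.ceil_le_floor_add_one ((L : ℝ) * (x i : ℝ))
  constructor
  · have : -1 ≤ (L : ℝ) * ((y i : ℝ) - (x i : ℝ)) := by
      rw [mul_sub]; linarith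
    have e : -(1 / (L : ℝ)) = (-1) / L := by ring
    rw [e, div_le_iff₀ hL']
    linarith
  · have : (L : ℝ) * ((y i : ℝ) - (x i : ℝ)) ≤ 1 := by
      rw [mul_sub]; linarith
    rw [le_div_iff₀ hL']
    linarith

lemma Core_si (h3 : S_SiFacts) {n : ℕ} (hn : 1 ≤ n) (b : ℕ) (x : UM n) :
    dist ((si n b x : XM n b) : Cube (2 * n + 1)) (x : Cube (2 * n + 1)) ≤ 1 / 3 ^ b := by
  have h := (h3 n hn).2.2.1 b x
  have := Core_face (L := 3 ^ b) (Nat.one_le_pow _ _ (by norm_num)) h
  push_cast at this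
  exact this

lemma Core_le (h3 : S_SiFacts) {n : ℕ} (hn : 1 ≤ n) (b : ℕ) (x y : UM n) :
    dist x y ≤ dist (si n b x) (si n b y) + 2 / 3 ^ b := by
  have h1 := Core_si h3 hn b x
  have h2 := Core_si h3 hn b y
  rw [Subtype.dist_eq x y, Subtype.dist_eq (si n b x) (si n b y)]
  have h4 := dist_triangle4_right (x : Cube (2 * n + 1)) (y : Cube (2 * n + 1))
    ((si n b x : XM n b) : Cube (2 * n + 1)) ((si n b y : XM n b) : Cube (2 * n + 1))
  rw [dist_comm] at h1 h2
  have e : (2 : ℝ) / 3 ^ b = 1 / 3 ^ b + 1 / 3 ^ b := by ring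
  rw [e]
  linarith

theorem pr_Core (h1 : S_Init) (h2 : S_Zig) (h3 : S_SiFacts) (h4 : S_SgFacts) : S_Core := by
  intro n V V' C g ep hn hV hV' hC hCV hCV' hg hginj hgopen hep
  rcases C.eq_empty_or_nonempty with hC0 | hC0
  · refine ⟨Homeomorph.refl _, fun x _ => rfl, fun x => ?_, fun x hx => ?_⟩
    · simp [hep.le]
    · rw [hC0] at hx; exact absurd hx (notMem_empty _)
  obtain ⟨d0, hd0, hthick⟩ := hC.exists_cthickening_subset_open (hV.inter hV')
    (subset_inter hCV hCV')
  have hin : ∀ x : UM n, ∀ y ∈ C, dist x y ≤ d0 → x ∈ V ∧ x ∈ V' := by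
    intro x y hy hxy
    exact hthick (Metric.mem_cthickening_of_dist_le x y d0 C hy hxy)
  obtain ⟨r, hr⟩ : ∃ r, r = d0 / 8 := ⟨_, rfl⟩
  have hr0 : 0 < r := by rw [hr]; positivity
  obtain ⟨bs, hbs⟩ : ∃ bs : ℕ, (2 : ℝ) / 3 ^ bs < min (d0 / 2) (ep / 2) := by
    have hpos : 0 < min (d0 / 2) (ep / 2) / 2 := by positivity
    obtain ⟨b, hb⟩ := exists_pow_lt_of_lt_one hpos (by norm_num : (1 / 3 : ℝ) < 1)
    refine ⟨b, ?_⟩
    rw [one_div, inv_pow] at hb
    rw [div_eq_mul_inv]
    linarith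
  have hbs1 : (2 : ℝ) / 3 ^ bs < d0 / 2 := lt_of_lt_of_le hbs (min_le_left _ _)
  have hbs2 : (2 : ℝ) / 3 ^ bs < ep / 2 := lt_of_lt_of_le hbs (min_le_right _ _)
  have hsicont : Continuous (si n bs) := (h3 n hn).1 bs
  obtain ⟨Cb, hCb⟩ : ∃ Cb, Cb = si n bs '' C := ⟨_, rfl⟩
  have hCbc : IsCompact Cb := by rw [hCb]; exact hC.image hsicont
  have hCbn : Cb.Nonempty := by rw [hCb]; exact hC0.image _
  obtain ⟨dd, hdd⟩ : ∃ dd : XM n bs → ℝ, dd = fun v => Metric.infDist v Cb := ⟨_, rfl⟩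
  have hddc : Continuous dd := by rw [hdd]; exact Metric.continuous_infDist_pt Cb
  have hddatt : ∀ v, ∃ y ∈ C, dd v = dist v (si n bs y) := by
    intro v
    obtain ⟨w, hw, hw2⟩ := hCbc.exists_infDist_eq_dist hCbn v
    rw [hCb] at hw
    obtain ⟨y, hy, rfl⟩ := hw
    exact ⟨y, hy, by rw [hdd]; exact hw2⟩
  have hddlip : ∀ v v', dd v ≤ dd v' + dist v v' := by
    intro v v'
    rw [hdd]
    exact Metric.infDist_le_infDist_add_dist
  obtain ⟨la, hla⟩ : ∃ la : XM n bs → ℝ, la = fun v => max 0 (min 1 (2 - dd v / r)) := ⟨_, rfl⟩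
  obtain ⟨ze, hze⟩ : ∃ ze : XM n bs → ℝ, ze = fun v => max 0 (min 1 (dd v / r - 3)) := ⟨_, rfl⟩
  have hlac : Continuous la := by
    rw [hla]
    exact continuous_const.max (continuous_const.min (continuous_const.sub (hddc.div_const r)))
  have hzec : Continuous ze := by
    rw [hze]
    exact continuous_const.max (continuous_const.min ((hddc.div_const r).sub continuous_const))
  have hlapos : ∀ v, 0 < la v → dd v < 2 * r := by
    intro v hv
    rw [hla] at hv
    simp only [lt_max_iff, lt_self_iff_false, false_or, lt_min_iff] at hv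
    have := hv.2
    have h5 : dd v / r < 2 := by linarith
    rwa [div_lt_iff₀ hr0] at h5
  have hzepos : ∀ v, 0 < ze v → 3 * r < dd v := by
    intro v hv
    rw [hze] at hv
    simp only [lt_max_iff, lt_self_iff_false, false_or, lt_min_iff] at hv
    have := hv.2
    have h5 : 3 < dd v / r := by linarith
    rwa [lt_div_iff₀ hr0] at h5
  obtain ⟨K, hK⟩ : ∃ K : Set (UM n), K = {x | dd (si n bs x) ≤ 3 * r} := ⟨_, rfl⟩
  haveI : CompactSpace (UM n) := ((h4 n hn).2.2.2.2.2.2.2.2 0).2.2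
  have hKc : IsCompact K := by
    rw [hK]
    exact (isClosed_le (hddc.comp hsicont) continuous_const).isCompact
  have hCD : CoreData n bs la ze V' K g r := by
    refine ⟨hlac, ?_, ?_, hzec, ?_, hV', hg, hginj, hgopen, hKc, ?_, hr0, ?_⟩
    · intro v; rw [hla]; exact le_max_left _ _
    · intro v; rw [hla]; exact max_le zero_le_one (min_le_left _ _)
    · refine ⟨r, hr0, ?_⟩
      intro v v' hvv hz
      by_contra hcon
      have hla0 : 0 ≤ la v' := by rw [hla]; exact le_max_left _ _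
      have h5 := hlapos v' (lt_of_le_of_ne hla0 (Ne.symm hcon))
      have h6 := hzepos v hz
      have h7 := hddlip v v'
      linarith
    · intro x hx
      rw [hK] at hx
      have hx' : dd (si n bs x) ≤ 3 * r := hx
      obtain ⟨y, hy, hy2⟩ := hddatt (si n bs x)
      have h5 := Core_le h3 hn bs x y
      exact (hin x y hy (by rw [← hy2] at h5; linarith)).2
    · intro x v hxv hv
      have h5 := hlapos v hv
      have h6 := hddlip (si n bs x) v
      rw [dist_comm] at h6
      rw [hK]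
      show dd (si n bs x) ≤ 3 * r
      linarith
  obtain ⟨ka, hka1, hka⟩ := h2 n hn
  obtain ⟨e, he⟩ : ∃ e, e = min (1 / 2 : ℝ) (ep / 2) := ⟨_, rfl⟩
  have he0 : 0 < e := by rw [he]; positivity
  have he1 : e ≤ 1 / 2 := by rw [he]; exact min_le_left _ _
  have he2 : e ≤ ep / 2 := by rw [he]; exact min_le_right _ _
  obtain ⟨a, c, f, s, de, z, om, eta, hZ, hde, heta, hkd, hbound, hs, hfin⟩ :=
    h1 n bs la ze V' K g r ka e hn hCD hka1 he0
  obtain ⟨h, hh1, hh2⟩ := hka bs ze a c f de z om eta hzec hZ heta hkd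
  refine ⟨h, ?_, ?_, ?_⟩
  · intro x hx
    apply hh2
    have h5 : 4 * r ≤ dd (si n bs x) := by
      obtain ⟨y, hy, hy2⟩ := hddatt (si n bs x)
      have h6 := Core_le h3 hn bs x y
      rw [← hy2] at h6
      by_contra hcon
      push Not at hcon
      exact hx (hin x y hy (by linarith)).1
    have h6 : ze (si n bs x) = 1 := by
      rw [hze]
      have h7 : 4 ≤ dd (si n bs x) / r := by rwa [le_div_iff₀ hr0]
      simp only
      rw [min_eq_left (by linarith), max_eq_right zero_le_one]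
    rw [h6]
    linarith
  · intro x
    have h5 := (hfin x (h x) (hh1 x)).1
    have h6 := Core_le h3 hn bs (h x) x
    linarith
  · intro x hx hcon
    have h5 := (hfin x (h x) (hh1 x)).2 ?_
    · rw [hcon] at h5
      obtain ⟨i, hi⟩ := (s (si n a (g x))).2
      have h6 := h5 i
      rcases hi with hi | hi
      · rw [hi] at h6
        norm_num at h6
        linarith
      · rw [hi] at h6
        norm_num at h6
        linarith
    · have h7 : dd (si n bs x) = 0 := by
        rw [hdd]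
        exact Metric.infDist_zero_of_mem (by rw [hCb]; exact mem_image_of_mem _ hx)
      rw [hla]
      simp only
      rw [h7]
      norm_num

end M202

end

section

/-!
MP_202a65_gt, item CylRC (helper61): relative complex structure of the collapsed mapping cylinder.
-/

set_option linter.unusedSectionVars false

open Set Topology unitInterval

namespace M202

section

variable {Z R : Type} [TopologicalSpace Z] [CompactSpace Z] [T2Space Z] [TopologicalSpace R]
  [CompactSpace R] [T2Space R] {ZF : Set Z} {psi : Z → Z} {i : Z → R} {j : Z × I → R}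

/-- the stages of the cylinder -/
def cylW (i : Z → R) (j : Z × I → R) (C : Set Z) : Set R :=
  ((range fun y => j (y, 0)) ∪ range i) ∪ j '' (C ×ˢ univ)

theorem cyl_V_closed (hj : Continuous j) : IsClosed (range fun y => j (y, 0)) :=
  (isCompact_range (hj.comp (continuous_id.prodMk continuous_const))).isClosed

theorem cyl_W_closed (hi : Continuous i) (hj : Continuous j) {C : Set Z} (hC : IsClosed C) :
    IsClosed (cylW i j C) := by
  refine ((cyl_V_closed hj).union (isCompact_range hi).isClosed).union ?_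
  exact ((hC.isCompact.prod isCompact_univ).image hj).isClosed

/-- the cells of the cylinder -/
def cylE (j : Z × I → R) {k N : ℕ} (e : Fin N → Cube k → Z) (l : Fin N) (y : Cube (k + 1)) : R :=
  j (e l (fun m => y m.castSucc), y (Fin.last k))

theorem cylE_range (j : Z × I → R) {k N : ℕ} (e : Fin N → Cube k → Z) (l : Fin N) :
    range (cylE j e l) = j '' (range (e l) ×ˢ univ) := by
  ext r
  constructor
  · rintro ⟨y, rfl⟩
    exact ⟨_, ⟨mem_range_self _, mem_univ _⟩, rfl⟩
  · rintro ⟨⟨z, s⟩, ⟨⟨w, hw⟩, -⟩, rfl⟩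
    have hw' : e l w = z := hw
    subst hw'
    refine ⟨Fin.snoc (α := fun _ => I) w s, ?_⟩
    unfold cylE
    simp only [Fin.snoc_castSucc, Fin.snoc_last]

theorem cyl_bd {k : ℕ} {y : Cube (k + 1)} (hy : y ∉ bd (k + 1)) :
    (fun m : Fin k => y m.castSucc) ∉ bd k ∧ y (Fin.last k) ≠ 0 ∧ y (Fin.last k) ≠ 1 := by
  refine ⟨?_, ?_, ?_⟩
  · rintro ⟨m, hm⟩
    exact hy ⟨m.castSucc, hm⟩
  · intro h
    exact hy ⟨Fin.last k, Or.inl h⟩
  · intro h
    exact hy ⟨Fin.last k, Or.inr h⟩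

theorem cyl_att (hadj : IsAdj {p : Z × I | p.2 = 1 ∨ p.1 ∈ ZF} (fun p => psi p.1) i j)
    {C C1 : Set Z} {k N : ℕ} {e : Fin N → Cube k → Z} (hZF : ZF ⊆ C) (hatt : Att C C1 k N e) :
    Att (cylW i j C) (cylW i j C1) (k + 1) N (cylE j e) := by
  have hin : ∀ p : Z × I, (p.2 = 1 ∨ p.1 ∈ ZF) → j p ∈ range i :=
    fun p hp => ⟨psi p.1, (hadj.agree p hp).symm⟩
  have hout : ∀ l, ∀ y : Cube (k + 1), y ∉ bd (k + 1) →
      (e l (fun m => y m.castSucc), y (Fin.last k)) ∉ {p : Z × I | p.2 = 1 ∨ p.1 ∈ ZF} := by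
    intro l y hy h
    obtain ⟨h1, h2, h3⟩ := cyl_bd hy
    rcases h with h | h
    · exact h3 h
    · exact hatt.disj l _ h1 (hZF h)
  refine ⟨cyl_W_closed hadj.conti hadj.contj hatt.closed, ?_, ?_, ?_, ?_, ?_⟩
  · intro l
    refine hadj.contj.comp (((hatt.cont l).comp ?_).prodMk (continuous_apply _))
    exact continuous_pi fun m => continuous_apply _
  · rintro l y ⟨m, hm⟩
    induction m using Fin.lastCases with
    | last =>
      rcases hm with hm | hm
      · left; left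
        refine ⟨e l (fun m => y m.castSucc), ?_⟩
        unfold cylE
        rw [hm]
      · left; right
        exact hin _ (Or.inl hm)
    | cast m =>
      right
      exact ⟨_, ⟨hatt.bdry l _ ⟨m, hm⟩, mem_univ _⟩, rfl⟩
  · intro l l' y y' hy hy' h
    have hp := hadj.injj (hout l y hy) (hout l' y' hy') h
    obtain ⟨h1, -, -⟩ := cyl_bd hy
    obtain ⟨h1', -, -⟩ := cyl_bd hy'
    obtain ⟨e1, e2⟩ := hatt.inj l l' _ _ h1 h1' (congrArg Prod.fst hp)
    have e3 : y (Fin.last k) = y' (Fin.last k) := congrArg Prod.snd hp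
    refine ⟨e1, ?_⟩
    funext m
    induction m using Fin.lastCases with
    | last => exact e3
    | cast m => exact congrFun e2 m
  · intro l y hy h
    obtain ⟨h1, h2, h3⟩ := cyl_bd hy
    have ho := hout l y hy
    rcases h with (⟨z, hz⟩ | ⟨z, hz⟩) | ⟨⟨z, s⟩, ⟨hzC, -⟩, hz⟩
    · have hz' : j (z, 0) = j (e l (fun m => y m.castSucc), y (Fin.last k)) := hz
      by_cases hA : (z, (0 : I)) ∈ {p : Z × I | p.2 = 1 ∨ p.1 ∈ ZF}
      · obtain ⟨c, hc⟩ := hin _ hA
        exact hadj.disj _ ho c (hz'.symm.trans hc.symm)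
      · have := hadj.injj hA ho hz'
        exact h2 (congrArg Prod.snd this).symm
    · exact hadj.disj _ ho z hz.symm
    · have hz' : j (z, s) = j (e l (fun m => y m.castSucc), y (Fin.last k)) := hz
      by_cases hA : (z, s) ∈ {p : Z × I | p.2 = 1 ∨ p.1 ∈ ZF}
      · obtain ⟨c, hc⟩ := hin _ hA
        exact hadj.disj _ ho c (hz'.symm.trans hc.symm)
      · have hh := hadj.injj hA ho hz'
        have e1 : z = e l (fun m => y m.castSucc) := congrArg Prod.fst hh
        exact hatt.disj l _ h1 (e1 ▸ hzC)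
  · have e1 : j '' (C1 ×ˢ univ) = j '' (C ×ˢ univ) ∪ ⋃ l, range (cylE j e l) := by
      simp only [cylE_range]
      rw [hatt.union, ← image_iUnion, ← image_union]
      congr 1
      ext ⟨z, s⟩
      simp only [mem_prod, mem_union, mem_iUnion, mem_univ, and_true]
    unfold cylW
    rw [e1, ← union_assoc]

theorem cyl_rc (hadj : IsAdj {p : Z × I | p.2 = 1 ∨ p.1 ∈ ZF} (fun p => psi p.1) i j)
    {P : Set Z → Prop} {P' : Set R → Prop}
    (hP : ∀ e, P e → P' (i '' e) ∧ P' (j '' (e ×ˢ univ))) {C C2 : Set Z} {ka : List ℕ}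
    (h : RC P C ka C2) (hZF : ZF ⊆ C) :
    RC P' (cylW i j C) (ka.map (· + 1)) (cylW i j C2) := by
  induction h with
  | nil C hC => exact RC.nil _ (cyl_W_closed hadj.conti hadj.contj hC)
  | cons C C1 C2 k ka N e hatt hPe _ ih =>
    have hCC1 : C ⊆ C1 := by
      rw [hatt.union]
      exact subset_union_left
    have h2 := ih (hZF.trans hCC1)
    rw [List.map_cons]
    refine RC.cons _ _ _ (k + 1) _ N (cylE j e) (cyl_att hadj hZF hatt) ?_ h2
    intro l
    rw [cylE_range]
    exact (hP _ (hPe l)).2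

end

theorem pr_CylRC (h1 : S_RCUnion) (_h2 : S_AdjDesc) : S_CylRC := by
  intro Z R _ _ _ _ _ _ P P' ZF ka psi i j hZF hpsi hfix hrc hadj hP
  have hne : (0 : I) ≠ 1 := zero_ne_one
  have hin : ∀ p : Z × I, (p.2 = 1 ∨ p.1 ∈ ZF) → j p = i (psi p.1) := fun p hp => hadj.agree p hp
  have hF : ∀ y ∈ ZF, ∀ s, j (y, s) = i y := by
    intro y hy s
    rw [hin (y, s) (Or.inr hy)]
    simp only [hfix y hy]
  have hout : ∀ y, y ∉ ZF → (y, (0 : I)) ∉ {p : Z × I | p.2 = 1 ∨ p.1 ∈ ZF} := by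
    rintro y hy (h | h)
    · exact hne h
    · exact hy h
  refine ⟨?_, ?_, ?_, cyl_V_closed hadj.contj⟩
  · have h := h1 Z R i P P' ZF univ (range fun y => j (y, 0)) ka hadj.conti hadj.inji
      (cyl_V_closed hadj.contj) (by
        rintro z ⟨y, hy⟩
        have hy' : j (y, 0) = i z := hy
        by_cases hyF : y ∈ ZF
        · rw [hF y hyF 0] at hy'
          rw [← hadj.inji hy']
          exact hyF
        · exact absurd hy' (hadj.disj _ (hout y hyF) z)) (fun e he => (hP e he).1) hrc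
    have e1 : (range fun y => j (y, 0)) ∪ i '' ZF = range fun y => j (y, 0) := by
      rw [union_eq_self_of_subset_right]
      rintro _ ⟨y, hy, rfl⟩
      exact ⟨y, hF y hy 0⟩
    rw [e1, image_univ] at h
    exact h
  · have h := cyl_rc hadj hP hrc Subset.rfl
    have e1 : cylW i j ZF = (range fun y => j (y, 0)) ∪ range i := by
      unfold cylW
      rw [union_eq_self_of_subset_right]
      rintro _ ⟨⟨y, s⟩, ⟨hy, -⟩, rfl⟩
      right
      exact ⟨y, (hF y hy s).symm⟩
    have e2 : cylW i j univ = univ := by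
      rw [eq_univ_iff_forall]
      intro r
      rcases hadj.surj r with ⟨c, rfl⟩ | ⟨p, rfl⟩
      · exact Or.inl (Or.inr (mem_range_self c))
      · exact Or.inr ⟨p, ⟨mem_univ _, mem_univ _⟩, rfl⟩
    rw [e1, e2] at h
    exact h
  · intro y y' h
    have h' : j (y, 0) = j (y', 0) := h
    by_cases hy : y ∈ ZF
    · by_cases hy' : y' ∈ ZF
      · rw [hF y hy, hF y' hy'] at h'
        exact hadj.inji h'
      · rw [hF y hy] at h'
        exact absurd h'.symm (hadj.disj _ (hout y' hy') y)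
    · by_cases hy' : y' ∈ ZF
      · rw [hF y' hy'] at h'
        exact absurd h' (hadj.disj _ (hout y hy) y')
      · exact congrArg Prod.fst (hadj.injj (hout y hy) (hout y' hy') h')

end M202

end

section

/-!
MP_202a65_gt, item E (helper59): the engine.
-/

open Set Topology unitInterval Filter

namespace M202

/-- profile of the radial homotopy from the squeeze to pz -/
noncomputable def E_prof (t : I) (m : ℝ) : ℝ :=
  max 0 ((1 - (t : ℝ)) * (3 / 2 * (m - 1 / 6)) + (t : ℝ) / 2)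

theorem E_prof_nonneg (t : I) (m : ℝ) : 0 ≤ E_prof t m := le_max_left _ _

theorem E_prof_half (t : I) : E_prof t (1 / 2) = 1 / 2 := by
  unfold E_prof
  have : (1 - (t : ℝ)) * (3 / 2 * (1 / 2 - 1 / 6)) + (t : ℝ) / 2 = 1 / 2 := by ring
  rw [this]
  exact max_eq_right (by norm_num)

theorem E_prof_mono (t : I) {m m' : ℝ} (h : m ≤ m') : E_prof t m ≤ E_prof t m' := by
  unfold E_prof
  have h1 : 0 ≤ 1 - (t : ℝ) := sub_nonneg.2 t.2.2
  refine max_le_max le_rfl ?_
  have : (1 - (t : ℝ)) * (3 / 2 * (m - 1 / 6)) ≤ (1 - (t : ℝ)) * (3 / 2 * (m' - 1 / 6)) :=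
    mul_le_mul_of_nonneg_left (by linarith) h1
  linarith

theorem E_prof_cont : Continuous (fun p : I × ℝ => E_prof p.1 p.2) := by
  unfold E_prof
  fun_prop

theorem E_dist (h12 : S_Grid) {n b : ℕ} (x : Cube (2 * n + 1)) (y z : XM n b)
    (hy : (y : Cube (2 * n + 1)) ∈ faceOf (3 ^ b) x)
    (hz : (z : Cube (2 * n + 1)) ∈ faceOf (3 ^ b) x) : dist y z ≤ 1 / 3 ^ b := by
  have h := (h12.1 (2 * n + 1) (3 ^ b) x (Nat.one_le_pow _ _ (by norm_num))).2.2.2 _ hy _ hz
  rw [Subtype.dist_eq]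
  exact_mod_cast h

theorem E_sM_dist (h6 : S_SgFacts) {n : ℕ} (hn : 1 ≤ n) {b b' : ℕ} (hb : b ≤ b')
    (x y : XM n b') (h : dist x y ≤ 1 / 3 ^ b') :
    dist (sM n b b' x) (sM n b b' y) ≤ 1 / 2 ^ b' := by
  obtain ⟨g1, _, _, g4, _⟩ := h6 n hn
  rw [Subtype.dist_eq, (g4 b b' hb).2, (g4 b b' hb).2]
  exact (g1 b b' hb).2.2.2.2.1 _ x.2 _ y.2 h

theorem E_sM_succ (h6 : S_SgFacts) {n : ℕ} (hn : 1 ≤ n) (c : ℕ) (y : XM n (c + 1)) :
    (sM n c (c + 1) y : Cube (2 * n + 1)) = sqz n c y := by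
  obtain ⟨_, _, _, g4, _⟩ := h6 n hn
  rw [(g4 c (c + 1) (Nat.le_succ c)).2]
  simp only [sg, Nat.add_sub_cancel_left, sgk, Nat.add_zero]
  rfl

theorem E_rad (h5 : S_Radm) (h6 : S_SgFacts) (h7 : S_MbFacts) (n c : ℕ) (hn : 1 ≤ n) :
    ∃ Rad : I × XM n (c + 1) → XM n c, Continuous Rad ∧
      (∀ y, Rad (0, y) = sM n c (c + 1) y) ∧ (∀ y, Rad (1, y) = iZ n c c (pZ n c y)) ∧
      ∀ t (y : XM n (c + 1)), (Rad (t, y) : Cube (2 * n + 1)) ∈
        faceOf (3 ^ c) (y : Cube (2 * n + 1)) := by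
  obtain ⟨r1, _, _, r4, r5⟩ := h5 n c hn
  obtain ⟨m1, m2, _⟩ := h7 n hn
  obtain ⟨_, _, _, _, _, _, g7, g8, _⟩ := h6 n hn
  have hrb : ∀ y : XM n (c + 1), 1 / 6 ≤ rb n c y ∧ (y : Cube (2 * n + 1)) ∈ Mb n c := by
    intro y
    have : (y : Cube (2 * n + 1)) ∈ Mb n c ∩ {x | 1 / 6 ≤ rb n c x} := by
      rw [← m2 c]; exact y.2
    exact ⟨this.2, this.1⟩
  have hmem : ∀ t (y : XM n (c + 1)), radm n c (E_prof t) y ∈
      faceOf (3 ^ c) (y : Cube (2 * n + 1)) := by
    intro t y
    exact (r1 (E_prof t) y (by linarith [(hrb y).1]) (E_prof_nonneg t) (E_prof_half t)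
      (fun m m' _ h _ => E_prof_mono t h)).1
  have hM : ∀ t (y : XM n (c + 1)), radm n c (E_prof t) y ∈ Mb n c := fun t y =>
    (m1 c).1 _ (hrb y).2 (hmem t y)
  refine ⟨fun p => ⟨radm n c (E_prof p.1) p.2, hM p.1 p.2⟩, ?_, ?_, ?_, fun t y => hmem t y⟩
  · refine Continuous.subtype_mk ?_ _
    have := r4 (I × XM n (c + 1)) univ (fun p => (p.2 : Cube (2 * n + 1)))
      (fun p => E_prof p.1) (continuous_subtype_val.comp continuous_snd).continuousOn
      (fun p _ => by linarith [(hrb p.2).1])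
      (by
        refine Continuous.continuousOn ?_
        exact E_prof_cont.comp (f := fun q : (I × XM n (c + 1)) × ℝ => (q.1.1, q.2))
          (by fun_prop))
      (fun p _ => E_prof_half p.1)
    exact continuousOn_univ.1 this
  · intro y
    refine Subtype.ext ?_
    rw [E_sM_succ h6 hn]
    refine r5 _ _ _ ?_
    intro m hm1 _
    have := (hrb y).1
    unfold E_prof
    simp only [Set.Icc.coe_zero]
    rw [max_eq_right]
    · ring
    · nlinarith
  · intro y
    refine Subtype.ext ?_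
    rw [(g8 c c (pZ n c y)).2, (g7 c y).2]
    refine r5 _ _ _ ?_
    intro m _ _
    unfold E_prof
    simp only [Set.Icc.coe_one]
    rw [max_eq_right] <;> norm_num

theorem E_z_cont {Y : Type} [TopologicalSpace Y] (dY : Y → Y → ℝ) (hcpm : IsCPM dY) (z : Y → ℝ)
    (hz : ∀ y y', |z y - z y'| ≤ dY y y') : Continuous z := by
  rw [continuous_iff_continuousAt]
  intro y0
  have h1 : Tendsto (fun y => dY y y0) (𝓝 y0) (𝓝 0) := by
    have : Continuous (fun y => dY y y0) := hcpm.cont.comp (continuous_id.prodMk continuous_const)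
    have h2 := this.tendsto y0
    rw [hcpm.self] at h2
    exact h2
  rw [ContinuousAt, tendsto_iff_dist_tendsto_zero]
  refine squeeze_zero (fun y => dist_nonneg) (fun y => ?_) h1
  rw [Real.dist_eq]
  exact hz y y0

/-- first half of I, as a map I → I -/
noncomputable def E_fst (t : I) : I := Set.projIcc (0 : ℝ) 1 zero_le_one (2 * (t : ℝ))

/-- second half of I, as a map I → I -/
noncomputable def E_snd (t : I) : I := Set.projIcc (0 : ℝ) 1 zero_le_one (2 * (t : ℝ) - 1)

theorem E_fst_cont : Continuous E_fst := continuous_projIcc.comp (by fun_prop)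

theorem E_snd_cont : Continuous E_snd := continuous_projIcc.comp (by fun_prop)

theorem E_fst_zero : E_fst 0 = 0 := by
  unfold E_fst; simp

theorem E_snd_one : E_snd 1 = 1 := by
  unfold E_snd
  have : 2 * ((1 : I) : ℝ) - 1 = 1 := by simp; norm_num
  rw [this]
  exact Set.projIcc_right (zero_le_one' ℝ)

theorem E_fst_half (t : I) (ht : (t : ℝ) = 1 / 2) : E_fst t = 1 := by
  unfold E_fst
  have : 2 * (t : ℝ) = 1 := by rw [ht]; norm_num
  rw [this]
  exact Set.projIcc_right (zero_le_one' ℝ)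

theorem E_snd_half (t : I) (ht : (t : ℝ) = 1 / 2) : E_snd t = 0 := by
  unfold E_snd
  have : 2 * (t : ℝ) - 1 = 0 := by rw [ht]; norm_num
  rw [this]
  exact Set.projIcc_left (zero_le_one' ℝ)

/-- concatenation of homotopies on a set -/
theorem E_concat {X Y : Type} [TopologicalSpace X] [TopologicalSpace Y] (S : Set X)
    (F G : I × X → Y) (hF : ContinuousOn F (univ ×ˢ S)) (hG : ContinuousOn G (univ ×ˢ S))
    (hFG : ∀ x ∈ S, F (1, x) = G (0, x)) :
    ∃ H : I × X → Y, ContinuousOn H (univ ×ˢ S) ∧ (∀ x ∈ S, H (0, x) = F (0, x)) ∧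
      (∀ x ∈ S, H (1, x) = G (1, x)) ∧
      ∀ t x, (∃ s, H (t, x) = F (s, x)) ∨ ∃ s, H (t, x) = G (s, x) := by
  classical
  refine ⟨fun p => if (p.1 : ℝ) ≤ 1 / 2 then F (E_fst p.1, p.2) else G (E_snd p.1, p.2),
    ?_, ?_, ?_, ?_⟩
  · rw [continuousOn_iff_continuous_domRestrict]
    show Continuous (fun p : ↥(univ ×ˢ S : Set (I × X)) =>
      if ((p : I × X).1 : ℝ) ≤ 1 / 2 then F (E_fst (p : I × X).1, (p : I × X).2)
      else G (E_snd (p : I × X).1, (p : I × X).2))
    refine Continuous.if_le ?_ ?_ ?_ ?_ ?_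
    · refine hF.comp_continuous (f := fun p : ↥(univ ×ˢ S : Set (I × X)) =>
        (E_fst (p : I × X).1, (p : I × X).2)) ?_ ?_
      · exact (E_fst_cont.comp (continuous_fst.comp continuous_subtype_val)).prodMk
          (continuous_snd.comp continuous_subtype_val)
      · intro p; exact ⟨mem_univ _, p.2.2⟩
    · refine hG.comp_continuous (f := fun p : ↥(univ ×ˢ S : Set (I × X)) =>
        (E_snd (p : I × X).1, (p : I × X).2)) ?_ ?_
      · exact (E_snd_cont.comp (continuous_fst.comp continuous_subtype_val)).prodMk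
          (continuous_snd.comp continuous_subtype_val)
      · intro p; exact ⟨mem_univ _, p.2.2⟩
    · exact continuous_subtype_val.comp (continuous_fst.comp continuous_subtype_val)
    · exact continuous_const
    · intro p hp
      rw [E_fst_half _ hp, E_snd_half _ hp]
      exact hFG _ p.2.2
  · intro x hx
    have : ((0 : I) : ℝ) ≤ 1 / 2 := by simp
    show (if ((0 : I) : ℝ) ≤ 1 / 2 then F (E_fst 0, x) else G (E_snd 0, x)) = _
    rw [if_pos this, E_fst_zero]
  · intro x hx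
    have : ¬ ((1 : I) : ℝ) ≤ 1 / 2 := by simp; norm_num
    show (if ((1 : I) : ℝ) ≤ 1 / 2 then F (E_fst 1, x) else G (E_snd 1, x)) = _
    rw [if_neg this, E_snd_one]
  · intro t x
    show (∃ s, (if (t : ℝ) ≤ 1 / 2 then F (E_fst t, x) else G (E_snd t, x)) = F (s, x)) ∨
      ∃ s, (if (t : ℝ) ≤ 1 / 2 then F (E_fst t, x) else G (E_snd t, x)) = G (s, x)
    by_cases h : (t : ℝ) ≤ 1 / 2
    · left; exact ⟨E_fst t, by rw [if_pos h]⟩
    · right; exact ⟨E_snd t, by rw [if_neg h]⟩

theorem E_fine {X : Type} [MetricSpace X] [CompactSpace X] {B : Type} [TopologicalSpace B]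
    (h11 : S_UC) (D : B → B → ℝ) (f : X → B) (hD : IsCPM D) (hf : Continuous f) {ep : ℝ}
    (hep : 0 < ep) : ∃ N : ℕ, ∀ c, N ≤ c → ∀ x y : X, dist x y ≤ 1 / 2 ^ c → D (f x) (f y) ≤ ep := by
  obtain ⟨de, hde, h⟩ := h11.2.1 X B D f hD hf ep hep
  obtain ⟨N, hN⟩ := exists_pow_lt_of_lt_one hde (show (1 / 2 : ℝ) < 1 by norm_num)
  refine ⟨N, fun c hc x y hxy => h x y (hxy.trans ?_)⟩
  have h1 : (1 / 2 : ℝ) ^ c ≤ (1 / 2 : ℝ) ^ N :=
    pow_le_pow_of_le_one (by norm_num) (by norm_num) hc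
  rw [one_div_pow] at h1
  linarith

theorem pr_E (h1 : S_E2) (h2 : S_X6) (h3 : S_X1all) (h4 : S_X5) (h5 : S_Radm) (h6 : S_SgFacts)
    (h7 : S_MbFacts) (h8 : S_SqzPz) (h9 : S_Comp) (h10 : S_Basics) (h11 : S_UC) (h12 : S_Grid) :
    S_E := by
  intro n hn
  obtain ⟨k2, hk2, hE⟩ := h1 n hn
  refine ⟨2 * k2 + 2, by linarith, ?_⟩
  intro Y _ dY z a c Q P Ga de z0 z1 hcpm hz hac hQ hP hde hSQ hSP hz01 hfine hGac hGa hlast D'
    tau hD' htau
  obtain ⟨_, _, _, g4, g5, g6, g7, g8, g9⟩ := h6 n hn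
  haveI : ∀ b, CompactSpace (XM n b) := fun b => (g9 b).1
  have hcomm := hcpm.symm
  -- tau1
  set tau1 : ℝ := min tau (2 * de) / (100 * (n + 2)) with htau1
  have hn0 : (0 : ℝ) < 100 * (n + 2) := by positivity
  have htau1p : 0 < tau1 := div_pos (lt_min htau (by linarith)) hn0
  have ht1 : 100 * (n + 2) * tau1 = min tau (2 * de) := by
    rw [htau1]; field_simp
  have ht2 : 100 * (n + 2) * tau1 ≤ tau := by rw [ht1]; exact min_le_left _ _
  have ht3 : 100 * (n + 2) * tau1 ≤ 2 * de := by rw [ht1]; exact min_le_right _ _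
  -- PP
  have hpZ : Continuous (pZ n c) := (g7 c (Classical.choice ⟨(⟨0, zero_mem_Mb n (c + 1)⟩ :
    XM n (c + 1))⟩)).1
  have hPP : Continuous (fun v : XM n (c + 1) => P (pZ n c v)) := hP.comp hpZ
  obtain ⟨N1, hN1⟩ := E_fine h11 D' (fun v : XM n a => v) hD' continuous_id htau1p
  obtain ⟨N2, hN2⟩ := E_fine h11 dY Q hcpm hQ htau1p
  obtain ⟨N3, hN3⟩ := E_fine h11 dY (fun v : XM n (c + 1) => P (pZ n c v)) hcpm hPP hde
  set c1 : ℕ := max (max N1 N2) (max N3 (c + 1)) with hc1
  have hcN1 : N1 ≤ c1 := (le_max_left _ _).trans (le_max_left _ _)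
  have hcN2 : N2 ≤ c1 := (le_max_right _ _).trans (le_max_left _ _)
  have hcN3 : N3 ≤ c1 := (le_max_left _ _).trans (le_max_right _ _)
  have hcc1 : c + 1 ≤ c1 := (le_max_right _ _).trans (le_max_right _ _)
  -- P1
  have hiZ : Continuous (iZ n c1 c1) := (g8 c1 c1 ⟨0, zero_mem_Zb n c1⟩).1
  have hsM : Continuous (sM n (c + 1) c1) := (g4 (c + 1) c1 hcc1).1
  let yy : ZM n c1 → XM n (c + 1) := fun x => sM n (c + 1) c1 (iZ n c1 c1 x)
  have hyy : Continuous yy := hsM.comp hiZ
  let P1 : ZM n c1 → Y := fun x => P (pZ n c (yy x))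
  have hP1 : Continuous P1 := hPP.comp hyy
  have hface : ∀ x y : XM n c1, dist x y ≤ 1 / 3 ^ c1 →
      dY (P (pZ n c (sM n (c + 1) c1 x))) (P (pZ n c (sM n (c + 1) c1 y))) ≤ de := fun x y hxy =>
    hN3 c1 hcN3 _ _ (E_sM_dist h6 hn hcc1 x y hxy)
  have hth2 : Continuous (fun v : XM n c1 => P (pZ n c (sM n (c + 1) c1 v))) := hPP.comp hsM
  have hS1 : Soft n dY de (fun v : XM n c1 => P (pZ n c (sM n (c + 1) c1 v))) := by
    have f1 : FineSoft n (fun v : XM n c1 => pZ n c (sM n (c + 1) c1 v)) :=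
      h10.2.2.2.2.2.1 n _ _ _ (sM n (c + 1) c1) (pZ n c) hsM hpZ (h3 n _ _ hn hcc1)
        (h4 n c hn).1
    have := h9 n _ _ _ dY 0 de (fun v : XM n c1 => pZ n c (sM n (c + 1) c1 v)) P hcpm
      (hpZ.comp hsM) hP (f1 _ (h11.2.2.1 _ _ dY P hcpm hP)) hSP
    rw [zero_add] at this
    exact this
  have hSP1 : Soft n dY (2 * de) P1 := by
    have f1 : Soft n (fun x y : XM n c1 => dY (P (pZ n c (sM n (c + 1) c1 x)))
        (P (pZ n c (sM n (c + 1) c1 y)))) de (iZ n c1 c1) :=
      h2 n c1 _ de hn (h11.2.2.1 _ _ dY _ hcpm hth2) hface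
    have := h9 n _ _ _ dY de de (iZ n c1 c1)
      (fun v : XM n c1 => P (pZ n c (sM n (c + 1) c1 v))) hcpm hiZ hth2 f1 hS1
    rw [← two_mul] at this
    exact this
  have hSQ' : Soft n dY (2 * de) Q :=
    h10.1 n n _ _ dY dY de (2 * de) Q le_rfl (by linarith) hcpm hcpm hQ (fun _ _ => le_rfl) hSQ
  -- the radial homotopy
  obtain ⟨Rad, q1, q2, q3, q4⟩ := E_rad h5 h6 h7 n c hn
  have hRad : ∀ s y, dY (Q (sM n a c (Rad (s, y)))) (Q (sZ n a c (pZ n c y))) ≤ de := by
    intro s y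
    refine hfine _ _ ?_
    show dist (sM n a c (Rad (s, y))) (sM n a c (iZ n c c (pZ n c y))) ≤ _
    rw [← q3 y]
    exact E_sM_dist h6 hn hac _ _ (E_dist h12 _ _ _ (q4 s y) (q4 1 y))
  have hsZ1 : ∀ x : ZM n c1, sZ n a c1 x = sM n a c (Rad (0, yy x)) := by
    intro x
    rw [q2]
    show sM n a c1 (iZ n c1 c1 x) = sM n a c (sM n c (c + 1) (sM n (c + 1) c1 (iZ n c1 c1 x)))
    rw [g6 a c (c + 1) _ hac (Nat.le_succ c), g6 a (c + 1) c1 _ (by omega) hcc1]
  -- the new path
  obtain ⟨Ga1, w1, w2, w3, w4⟩ := E_concat {x : ZM n c1 | z0 ≤ z (P1 x)}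
    (fun p : I × ZM n c1 => Q (sM n a c (Rad (p.1, yy p.2))))
    (fun p : I × ZM n c1 => Ga (p.1, pZ n c (yy p.2)))
    (by
      refine Continuous.continuousOn ?_
      exact hQ.comp ((g4 a c hac).1.comp (q1.comp (continuous_fst.prodMk
        (hyy.comp continuous_snd)))))
    (by
      refine hGac.comp (t := univ ×ˢ {x | z0 ≤ z (P x)}) (Continuous.continuousOn ?_) ?_
      · exact continuous_fst.prodMk (hpZ.comp (hyy.comp continuous_snd))
      · rintro ⟨t, x⟩ hx
        exact ⟨mem_univ _, hx.2⟩)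
    (by
      intro x hx
      show Q (sM n a c (Rad (1, yy x))) = Ga (0, pZ n c (yy x))
      rw [q3, (hGa _ hx).1]
      rfl)
  have hGa1 : ∀ x, z0 ≤ z (P1 x) → Ga1 (0, x) = Q (sZ n a c1 x) ∧ Ga1 (1, x) = P1 x ∧
      ∀ t, dY (Ga1 (t, x)) (P1 x) ≤ 2 * de := by
    intro x hx
    obtain ⟨e1, e2, e3⟩ := hGa (pZ n c (yy x)) hx
    refine ⟨?_, ?_, ?_⟩
    · rw [w2 x hx, hsZ1]
    · rw [w3 x hx]; exact e2
    · intro t
      rcases w4 t x with ⟨s, hs⟩ | ⟨s, hs⟩
      · rw [hs]
        have e4 := hRad s (yy x)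
        have e5 := e3 0
        rw [e1] at e5
        have e6 := hcpm.tri (Q (sM n a c (Rad (s, yy x)))) (Q (sZ n a c (pZ n c (yy x)))) (P1 x)
        show dY (Q (sM n a c (Rad (s, yy x)))) (P1 x) ≤ 2 * de
        have e7 : dY (Q (sZ n a c (pZ n c (yy x)))) (P1 x) ≤ de := e5
        linarith
      · rw [hs]
        have e5 := e3 s
        show dY (Ga (s, pZ n c (yy x))) (P1 x) ≤ 2 * de
        have e7 : dY (Ga (s, pZ n c (yy x))) (P1 x) ≤ de := e5
        linarith
  have hlast1 : ∀ x, z (P1 x) < z0 → z (Q (sZ n a c1 x)) < z1 + de := by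
    intro x hx
    have e1 := hlast (pZ n c (yy x)) hx
    have e2 := hRad 0 (yy x)
    rw [← hsZ1 x] at e2
    have e3 := (abs_le.1 (hz (Q (sZ n a c1 x)) (Q (sZ n a c (pZ n c (yy x)))))).2
    linarith
  obtain ⟨c', f, j1, j2, j3, j4, j5⟩ := hE Y dY z a c1 Q P1 Ga1 D' (2 * de) z0 (z1 + de) tau tau1
    hcpm hD' hz (by omega) hQ hP1 (by linarith) hSQ' hSP1 (by linarith) htau1p ht2 ht3
    (fun x y hxy => ⟨hN1 c1 hcN1 x y hxy, hN2 c1 hcN2 x y hxy⟩)
    (fun x y hxy => by
      have := hface (iZ n c1 c1 x) (iZ n c1 c1 y) (by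
        rw [Subtype.dist_eq, (g8 c1 c1 x).2, (g8 c1 c1 y).2]; exact hxy)
      show dY (P (pZ n c (sM n (c + 1) c1 (iZ n c1 c1 x))))
        (P (pZ n c (sM n (c + 1) c1 (iZ n c1 c1 y)))) ≤ 2 * de
      linarith)
    w1 hGa1 hlast1
  have hcmp : ∀ w, dY (P1 (rZ n c1 c' w)) (P (rZ n c c' w)) ≤ de := by
    intro w
    have e1 : P (rZ n c c' w) = P (pZ n c (sM n (c + 1) c1 (sM n c1 (c1 + 1)
        (sM n (c1 + 1) c' w)))) := by
      unfold rZ
      rw [g6 c1 (c1 + 1) c' _ (Nat.le_succ c1) j1, g6 (c + 1) c1 c' _ hcc1 (by omega)]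
    rw [e1]
    refine hface (iZ n c1 c1 (pZ n c1 (sM n (c1 + 1) c' w)))
      (sM n c1 (c1 + 1) (sM n (c1 + 1) c' w)) ?_
    refine E_dist h12 (sM n (c1 + 1) c' w : Cube (2 * n + 1)) _ _ ?_ ?_
    · rw [(g8 c1 c1 _).2, (g7 c1 _).2]
      exact (h8 n c1 hn).2.1.2.2.1 _ (sM n (c1 + 1) c' w).2
    · rw [E_sM_succ h6 hn]
      exact (h8 n c1 hn).1.2.2.1 _ (sM n (c1 + 1) c' w).2
  refine ⟨c', f, by omega, j2, j3, ?_, ?_⟩
  · intro w
    have e1 := j4 w
    have e2 := hcmp w
    have e3 := hcpm.tri (Q (f w)) (P1 (rZ n c1 c' w)) (P (rZ n c c' w))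
    nlinarith
  · intro w hw
    refine j5 w ?_
    have e2 := hcmp w
    have e3 := (abs_le.1 (hz (P1 (rZ n c1 c' w)) (P (rZ n c c' w)))).1
    nlinarith

end M202

end

section

/-!
MP_202a65_gt, item E2: the engine at a fine level (helper18)
-/

open Set Topology unitInterval

namespace M202

theorem E2_face (h10 : S_SgFacts) (h15 : S_Grid) (h16 : S_SqzPz) (n c b : ℕ) (hn : 1 ≤ n)
    (hcb : c + 1 ≤ b) (w : XM n b) :
    dist (iZ n c c (rZ n c b w)) (sM n c b w) ≤ 1 / 3 ^ c := by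
  obtain ⟨g1, -, -, g4, -, g6, g7, g8, -⟩ := h10 n hn
  obtain ⟨-, ⟨-, -, hpz, -⟩, -⟩ := h16 n c hn
  obtain ⟨hgrid, -⟩ := h15
  set y : XM n (c + 1) := sM n (c + 1) b w with hy
  have e1 : ((iZ n c c (rZ n c b w) : XM n c) : Cube (2 * n + 1)) = pz n c y := by
    rw [(g8 c c (rZ n c b w)).2]
    exact (g7 c y).2
  have e2 : ((sM n c b w : XM n c) : Cube (2 * n + 1)) = sg n c (c + 1) y := by
    rw [← g6 c (c + 1) b w (by omega) hcb]
    exact (g4 c (c + 1) (by omega)).2 y
  rw [Subtype.dist_eq, e1, e2]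
  have h := (hgrid (2 * n + 1) (3 ^ c) (y : Cube (2 * n + 1)) (Nat.one_le_pow _ _ (by norm_num))).2.2.2
    (pz n c y) (hpz y y.2) (sg n c (c + 1) y) ((g1 c (c + 1) (by omega)).2.2.1 y y.2)
  push_cast at h
  exact h

theorem E2_sM (h10 : S_SgFacts) (n a c : ℕ) (hn : 1 ≤ n) (hac : a ≤ c) (x y : XM n c)
    (hxy : dist x y ≤ 1 / 3 ^ c) : dist (sM n a c x) (sM n a c y) ≤ 1 / 2 ^ c := by
  obtain ⟨g1, -, -, g4, -⟩ := h10 n hn
  rw [Subtype.dist_eq, (g4 a c hac).2, (g4 a c hac).2]
  exact (g1 a c hac).2.2.2.2.1 x x.2 y y.2 hxy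

theorem E2_sZ (h10 : S_SgFacts) (n a c : ℕ) (hn : 1 ≤ n) (hac : a ≤ c) (x y : ZM n c)
    (hxy : dist x y ≤ 1 / 3 ^ c) : dist (sZ n a c x) (sZ n a c y) ≤ 1 / 2 ^ c := by
  apply E2_sM h10 n a c hn hac
  obtain ⟨-, -, -, -, -, -, -, g8, -⟩ := h10 n hn
  rw [Subtype.dist_eq, (g8 c c x).2, (g8 c c y).2]
  exact hxy

theorem E2_contz {Y : Type} [TopologicalSpace Y] {dY : Y → Y → ℝ} (hd : IsCPM dY) {z : Y → ℝ}
    (hz : ∀ y y', |z y - z y'| ≤ dY y y') : Continuous z := by
  rw [continuous_iff_continuousAt]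
  intro y0
  rw [ContinuousAt, tendsto_iff_dist_tendsto_zero]
  have h1 : Filter.Tendsto (fun y => dY y y0) (𝓝 y0) (𝓝 0) := by
    have h2 : Continuous (fun y => dY y y0) := hd.cont.comp (continuous_id.prodMk continuous_const)
    have h3 := h2.tendsto y0
    simp only [hd.self] at h3
    exact h3
  exact squeeze_zero (fun y => dist_nonneg) (fun y => by rw [Real.dist_eq]; exact hz y y0) h1

/-- sizes of the cells of the complex R -/
theorem E2_cells (h4 : S_CylRC) (h10 : S_SgFacts) (h12 : S_RCAppend) (n a c : ℕ) (hn : 1 ≤ n)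
    (hac : a ≤ c) (Y : Type) [TopologicalSpace Y] (dY : Y → Y → ℝ) (z : Y → ℝ)
    (Q : XM n a → Y) (P : ZM n c → Y) (de z0 z1 tau1 : ℝ) (hdY : IsCPM dY)
    (hz : ∀ y y', |z y - z y'| ≤ dY y y') (hde : 0 < de) (hz01 : z0 ≤ z1)
    (htd : (2 * n + 2) * tau1 ≤ de) (ht1 : 0 < tau1)
    (hQc : ∀ x y : XM n a, dist x y ≤ 1 / 2 ^ c → dY (Q x) (Q y) ≤ tau1)
    (hPc : ∀ x y : ZM n c, dist x y ≤ 1 / 3 ^ c → dY (P x) (P y) ≤ de)
    (hlast : ∀ x, z (P x) < z0 → z (Q (sZ n a c x)) < z1)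
    (ZF : Set (ZM n c)) (f0 : ZM n c → XM n a) (psi : ZM n c → ZM n c)
    (hZF : IsClosed ZF) (hpsi : Continuous psi) (hpsiF : ∀ x ∈ ZF, psi x = x)
    (hRC : RC (fun e : Set (ZM n c) => (∀ x ∈ e, ∀ y ∈ e, dist x y ≤ 1 / 3 ^ c) ∧
        ∃ y ∈ e, z (P y) < z0) ZF (List.range (n + 1)) univ)
    (hf0 : ∀ x, dY (Q (f0 x)) (P x) ≤ (2 * n + 4) * de)
    (R : Type) [TopologicalSpace R] [CompactSpace R] [T2Space R]
    (i : ZM n c → R) (j : ZM n c × I → R) (p : R → XM n a) (q : R → Y)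
    (hadj : IsAdj {p : ZM n c × I | p.2 = 1 ∨ p.1 ∈ ZF} (fun p => psi p.1) i j)
    (hpi : ∀ x, p (i x) = sZ n a c x)
    (hpj : ∀ t y, dY (Q (p (j (y, t)))) (Q (f0 y)) ≤ (2 * n + 2) * tau1)
    (hqp : ∀ r, dY (q r) (Q (p r)) ≤ 3 * ((2 * n + 4) * de)) :
    RC (fun e : Set R => (∀ u ∈ e, ∀ v ∈ e, dY (q u) (q v) ≤ (24 * n + 50) * de) ∧
      ∀ u ∈ e, z (q u) ≤ z1 + (8 * n + 18) * de) (range fun y => j (y, 0))
      (List.range (n + 1) ++ (List.range (n + 1)).map (· + 1)) univ ∧
    Function.Injective (fun y => j (y, 0)) ∧ IsClosed (range fun y => j (y, 0)) := by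
  have hn0 : (0 : ℝ) ≤ n := Nat.cast_nonneg n
  have : CompactSpace (ZM n c) := by
    obtain ⟨-, -, -, -, -, -, -, -, g9⟩ := h10 n hn
    exact (g9 c).2.1
  have hnd : 0 ≤ n * de := mul_nonneg hn0 hde.le
  have hnt : 0 ≤ n * tau1 := mul_nonneg hn0 ht1.le
  have hzz : ∀ y y', z y ≤ z y' + dY y y' := by
    intro y y'
    have := (abs_le.1 (hz y y')).2
    linarith
  obtain ⟨hA, hB, hC, hD⟩ := h4 (ZM n c) R
    (fun e : Set (ZM n c) => (∀ x ∈ e, ∀ y ∈ e, dist x y ≤ 1 / 3 ^ c) ∧ ∃ y ∈ e, z (P y) < z0)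
    (fun e : Set R => (∀ u ∈ e, ∀ v ∈ e, dY (q u) (q v) ≤ (24 * n + 50) * de) ∧
      ∀ u ∈ e, z (q u) ≤ z1 + (8 * n + 18) * de) ZF (List.range (n + 1)) psi i j hZF hpsi hpsiF
    hRC hadj (by
      rintro e ⟨he, y0, hy0, hzy0⟩
      have hQs : ∀ x ∈ e, ∀ y ∈ e, dY (Q (sZ n a c x)) (Q (sZ n a c y)) ≤ tau1 := fun x hx y hy =>
        hQc _ _ (E2_sZ h10 n a c hn hac x y (he x hx y hy))
      have hi : ∀ x ∈ e, dY (q (i x)) (Q (sZ n a c x)) ≤ 3 * ((2 * n + 4) * de) := by
        intro x _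
        have := hqp (i x)
        rwa [hpi] at this
      have hj : ∀ x t, dY (q (j (x, t))) (P x) ≤ (8 * n + 17) * de := by
        intro x t
        have a1 := hqp (j (x, t))
        have a2 := hpj t x
        have a3 := hf0 x
        have a4 := hdY.tri (q (j (x, t))) (Q (p (j (x, t)))) (P x)
        have a5 := hdY.tri (Q (p (j (x, t)))) (Q (f0 x)) (P x)
        nlinarith
      refine ⟨⟨?_, ?_⟩, ⟨?_, ?_⟩⟩
      · rintro _ ⟨x, hx, rfl⟩ _ ⟨y, hy, rfl⟩
        have a1 := hi x hx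
        have a2 := hi y hy
        have a3 := hQs x hx y hy
        have a4 := hdY.tri (q (i x)) (Q (sZ n a c x)) (q (i y))
        have a5 := hdY.tri (Q (sZ n a c x)) (Q (sZ n a c y)) (q (i y))
        rw [hdY.symm (Q (sZ n a c y)) (q (i y))] at a5
        nlinarith
      · rintro _ ⟨x, hx, rfl⟩
        have a1 := hi x hx
        have a3 := hQs x hx y0 hy0
        have a4 := hzz (q (i x)) (Q (sZ n a c x))
        have a5 := hzz (Q (sZ n a c x)) (Q (sZ n a c y0))
        have a6 := hlast y0 hzy0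
        nlinarith
      · rintro _ ⟨⟨x, t⟩, ⟨hx, -⟩, rfl⟩ _ ⟨⟨y, t'⟩, ⟨hy, -⟩, rfl⟩
        have a1 := hj x t
        have a2 := hj y t'
        have a3 := hPc x y (he x hx y hy)
        have a4 := hdY.tri (q (j (x, t))) (P x) (q (j (y, t')))
        have a5 := hdY.tri (P x) (P y) (q (j (y, t')))
        rw [hdY.symm (P y) (q (j (y, t')))] at a5
        nlinarith
      · rintro _ ⟨⟨x, t⟩, ⟨hx, -⟩, rfl⟩
        have a1 := hj x t
        have a3 := hPc x y0 (he x hx y0 hy0)
        have a4 := hzz (q (j (x, t))) (P x)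
        have a5 := hzz (P x) (P y0)
        nlinarith)
  exact ⟨h12.1 R _ _ _ _ _ _ hA hB, hC, hD⟩

theorem pr_E2 (h1 : S_E2a) (h2 : S_E2b) (h3 : S_T) (h4 : S_CylRC) (h5 : S_TowerM) (h6 : S_X1all)
    (h7 : S_X5) (h8 : S_Comp) (h9 : S_Basics) (h10 : S_SgFacts) (h11 : S_MbFacts)
    (h12 : S_RCAppend) (h13 : S_HomeoComp) (h14 : S_UC) (h15 : S_Grid) (h16 : S_SqzPz) :
    S_E2 := by
  intro n hn
  obtain ⟨K, hK1, hK⟩ := h3 n (List.range (n + 1) ++ (List.range (n + 1)).map (· + 1)) hn (by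
    intro k hk
    simp only [List.mem_append, List.mem_range, List.mem_map] at hk
    rcases hk with hk | ⟨k', hk', rfl⟩ <;> omega)
  have hn0 : (0 : ℝ) ≤ n := Nat.cast_nonneg n
  have hn1 : (1 : ℝ) ≤ n := by exact_mod_cast hn
  refine ⟨K * (24 * n + 50) + 8 * n + 40, by nlinarith, ?_⟩
  intro Y _ dY z a c Q P Ga D' de z0 z1 tau tau1 hdY hD' hz hac hQ hP hde hQs hPs hz01 ht1 h100a
    h100b hclose hPc hGac hGa hlast
  obtain ⟨g1, -, g3, g4, g5, g6, g7, g8, g9⟩ := h10 n hn
  have : CompactSpace (ZM n c) := (g9 c).2.1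
  have hnt : 0 ≤ n * tau1 := mul_nonneg hn0 ht1.le
  have hnd : 0 ≤ n * de := mul_nonneg hn0 hde.le
  have hsZ : Continuous (sZ n a c) := (g4 a c hac).1.comp (g8 c c (toZ n c 0)).1
  have hneZ : Nonempty (ZM n c) := ⟨toZ n c 0⟩
  obtain ⟨ZF, f0, G0, psi, H0, hZF, hZF1, hZF2, hRC, hf0c, hf0F, hG0c, hG00, hG01, hG0F, hG0,
    hpsi, hpsiF, hH0c, hH00, hH01, hH0F, hH0, hsZs, hsZs'⟩ :=
    h1 n Y dY z a c Q P Ga D' de z0 tau1 hn hdY hD' hz hac hQ hP hde hQs hPs ht1 (by nlinarith)
      hclose hPc hGac hGa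
  obtain ⟨R, iR1, iR2, iR3, i, j, p, q, hadj, hpc, hqc, hpi, hpj0, hpj, hps, hqj0, hqp, hqs⟩ :=
    h2 n (ZM n c) (XM n a) Y dY D'
      (fun e : Set (ZM n c) => (∀ x ∈ e, ∀ y ∈ e, dist x y ≤ 1 / 3 ^ c) ∧ ∃ y ∈ e, z (P y) < z0)
      (List.range (n + 1)) (sZ n a c) Q P ZF f0 G0 psi H0 tau1 ((2 * n + 2) * tau1) de
      ((2 * n + 4) * de) hdY hD' hRC hZF hneZ hsZ hQ hP hQs hsZs hsZs' hf0c hG0c hpsi hH0c
      (by positivity) ht1.le (by positivity) hde hf0F hG00 hG01 hG0 hpsiF hH00 hH01 hH0F hH0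
  obtain ⟨hRC', hinj, hCcl⟩ := E2_cells h4 h10 h12 n a c hn hac Y dY z Q P de z0 z1 tau1 hdY hz hde
    hz01 (by nlinarith) ht1 (fun x y h => (hclose x y h).2) hPc hlast ZF f0 psi hZF hpsi hpsiF
    hRC (fun x => by
      have := hG0 0 x
      rwa [hG00] at this) R i j p q hadj hpi (fun t y => (hpj t y).2) hqp
  set C : Set R := range fun y => j (y, 0) with hC
  have hzc : Continuous z := E2_contz hdY hz
  have hpZc : Continuous (pZ n c) := (g7 c (toM n (c + 1) 0)).1
  -- the homeomorphism Z ≃ C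
  have hj0c : Continuous (fun y : ZM n c => j (y, 0)) :=
    hadj.contj.comp (continuous_id.prodMk continuous_const)
  let k0 : ZM n c → ↥C := fun y => ⟨j (y, 0), ⟨y, rfl⟩⟩
  have hk0c : Continuous k0 := hj0c.subtype_mk _
  have hk0b : Function.Bijective k0 := by
    refine ⟨fun y y' h => hinj (congrArg Subtype.val h), ?_⟩
    rintro ⟨_, y, rfl⟩
    exact ⟨y, rfl⟩
  let kh : ZM n c ≃ₜ ↥C := (Continuous.homeoOfEquivCompactToT2
    (f := Equiv.ofBijective k0 hk0b) hk0c)
  have hkh : ∀ y, kh y = k0 y := fun y => rfl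
  -- the context
  let ctx : TCtx n :=
    { X := XM n
      ms := fun b => inferInstance
      s := sM n
      tower := h5 n hn
      b0 := c + 1
      Y := Y
      topY := inferInstance
      dY := dY
      cpm := hdY
      P := fun x => P (pZ n c x)
      contP := hP.comp hpZc
      F := {x | z1 + (K * (24 * n + 50) + 8 * n + 18) * de ≤ z (P (pZ n c x))}
      closedF := isClosed_le continuous_const (hzc.comp (hP.comp hpZc)) }
  let ph : ctx.X ctx.b0 → ↥C := fun x => k0 (pZ n c x)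
  have hphc : Continuous ph := hk0c.comp hpZc
  have hqC : ∀ u : ↥C, q u = P (kh.symm u) := by
    intro u
    obtain ⟨y, rfl⟩ := kh.surjective u
    rw [kh.symm_apply_apply, hkh]
    exact hqj0 y
  have hqph : ∀ x, q (ph x) = P (pZ n c x) := fun x => hqj0 _
  have hbasic := h9.1
  have e18 : (8 * n + 9) * tau1 ≤ de := by nlinarith
  have hFF0 : FF ctx (fun u : ↥C => q u) ph ((24 * n + 50) * de) := by
    intro D hD eta heta
    refine ⟨c + 1, ph, le_rfl, hphc, ?_, ?_, ?_⟩
    · have hD2 : IsCPM (fun x y => D (kh x) (kh y)) := h14.2.2.1 _ _ D kh hD kh.continuous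
      have h17 : Soft n (fun x y => D (kh x) (kh y)) 0 (pZ n c) := (h7 n c hn).1 _ hD2
      have h18 : Soft n (fun x y => D (kh x) (kh y)) eta (pZ n c) :=
        hbasic n n _ _ _ _ 0 eta (pZ n c) le_rfl heta.le hD2 hD2 hpZc (fun _ _ => le_rfl) h17
      exact (h13 n (XM n (c + 1)) (XM n (c + 1)) (ZM n c) ↥C (pZ n c) (Homeomorph.refl _) kh
        eta).2 D h18
    · intro x
      have e : ctx.s ctx.b0 (c + 1) x = x := g5 (c + 1) x
      show dY (q (ph x)) (P (pZ n c (ctx.s ctx.b0 (c + 1) x))) ≤ _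
      rw [e, hqph, hdY.self]
      nlinarith
    · intro x _
      have e : ctx.s ctx.b0 (c + 1) x = x := g5 (c + 1) x
      rw [e, hD.self]
      exact heta.le
  have hqsoft : Soft n dY ((24 * n + 50) * de) q := by
    refine hbasic n n _ _ dY dY _ _ q le_rfl ?_ hdY hdY hqc (fun _ _ => le_rfl) hqs
    nlinarith
  have hqCsoft : Soft n dY ((24 * n + 50) * de) (fun u : ↥C => q u) := by
    have h17 := (h13 n (ZM n c) ↥C Y Y P kh.symm (Homeomorph.refl _) de).1 dY hPs
    have e : (fun u : ↥C => q u) = fun u => P (kh.symm u) := funext hqC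
    rw [e]
    refine hbasic n n _ _ dY dY _ _ _ le_rfl ?_ hdY hdY (hP.comp kh.symm.continuous)
      (fun _ _ => le_rfl) h17
    nlinarith
  have hRC2 : RC (fun e : Set R => (∀ u ∈ e, ∀ v ∈ e, ctx.dY (q u) (q v) ≤ (24 * n + 50) * de) ∧
      ∀ u ∈ e, ∀ x ∈ ctx.F, K * ((24 * n + 50) * de) ≤ ctx.dY (q u) (q (ph x))) C
      (List.range (n + 1) ++ (List.range (n + 1)).map (· + 1)) univ := by
    refine h12.2.1 R _ _ C univ _ ?_ hRC'
    rintro e ⟨ha, hb⟩
    refine ⟨ha, ?_⟩
    intro u hu x hx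
    have a1 := hb u hu
    have a2 : z1 + (K * (24 * n + 50) + 8 * n + 18) * de ≤ z (P (pZ n c x)) := hx
    have a3 := (abs_le.1 (hz (q u) (q (ph x)))).1
    rw [hqph] at a3 ⊢
    show K * ((24 * n + 50) * de) ≤ dY (q u) (P (pZ n c x))
    linarith
  have hFF := hK ctx R C q ph ((24 * n + 50) * de) (by positivity) hRC2 hqc hphc.continuousOn
    hqCsoft hqsoft hFF0
  have htau : 0 < tau := by nlinarith
  have hDp : IsCPM (fun x y : R => D' (p x) (p y)) := h14.2.2.1 _ _ D' p hD' hpc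
  obtain ⟨b, th, hb, hthc, hths, hthd, hthF⟩ := hFF (fun x y => D' (p x) (p y)) hDp
    (min (tau / 4) de) (lt_min (by linarith) hde)
  have hm1 : min (tau / 4) de ≤ tau / 4 := min_le_left _ _
  have hm2 : min (tau / 4) de ≤ de := min_le_right _ _
  refine ⟨b, fun w => p (th w), hb, hpc.comp hthc, ?_, ?_, ?_⟩
  · have h19 := h8 n (XM n b) R (XM n a) D' (min (tau / 4) de) _ th p hD' hthc hpc hths hps
    refine hbasic n n _ _ D' D' _ _ _ le_rfl ?_ hD' hD' (hpc.comp hthc) (fun _ _ => le_rfl) h19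
    nlinarith
  · intro w
    have a1 := hqp (th w)
    have a2 : dY (q (th w)) (P (rZ n c b w)) ≤ K * ((24 * n + 50) * de) + min (tau / 4) de :=
      hthd w
    have a3 := hdY.tri (Q (p (th w))) (q (th w)) (P (rZ n c b w))
    rw [hdY.symm (Q (p (th w))) (q (th w))] at a3
    nlinarith
  · intro w hw
    have a0 : sM n (c + 1) b w ∈ ctx.F := by
      show z1 + (K * (24 * n + 50) + 8 * n + 18) * de ≤ z (P (rZ n c b w))
      nlinarith
    have a1 : D' (p (th w)) (p (ph (sM n (c + 1) b w))) ≤ min (tau / 4) de := hthF w a0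
    have hF : rZ n c b w ∈ ZF := by
      apply hZF2
      nlinarith [mul_nonneg (mul_nonneg (le_trans zero_le_one hK1) hn0) hde.le,
        mul_nonneg (sub_nonneg.2 hK1) hde.le]
    have a2 : p (ph (sM n (c + 1) b w)) = sZ n a c (rZ n c b w) := by
      rw [← hf0F _ hF]
      exact hpj0 _
    rw [a2] at a1
    have a3 : D' (sZ n a c (rZ n c b w)) (sM n a b w) ≤ tau1 := by
      have e : sM n a b w = sM n a c (sM n c b w) := (g6 a c b w hac (by
        have : c + 1 ≤ b := hb
        omega)).symm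
      rw [e]
      exact (hclose _ _ (E2_sM h10 n a c hn hac _ _ (E2_face h10 h15 h16 n c b hn hb w))).1
    have a4 := hD'.tri (p (th w)) (sZ n a c (rZ n c b w)) (sM n a b w)
    nlinarith

end M202

end

section

/-!
MP_202a65_gt, item E2a: the liftings f0 and psi.
-/

open Set Topology unitInterval Filter

namespace M202

/-- faces of the grid in which `z ∘ P` is at least `z0` -/
def E2a_ZF (n c : ℕ) {Y : Type} (z : Y → ℝ) (P : ZM n c → Y) (z0 : ℝ) :
    Set (Cube (2 * n + 1)) :=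
  {x | ∃ x' : ZM n c, x ∈ faceOf (3 ^ c) (x' : Cube (2 * n + 1)) ∧
    ∀ y : ZM n c, (y : Cube (2 * n + 1)) ∈ faceOf (3 ^ c) (x' : Cube (2 * n + 1)) → z0 ≤ z (P y)}

theorem E2a_cubical (h3 : S_Grid) (n c : ℕ) {Y : Type} (z : Y → ℝ) (P : ZM n c → Y) (z0 : ℝ) :
    Cubical (3 ^ c) (E2a_ZF n c z P z0) := by
  rintro x ⟨x', hx, hz⟩ w hw
  exact ⟨x', (h3.1 _ (3 ^ c) (x' : Cube (2 * n + 1)) (Nat.one_le_pow _ _ (by norm_num))).2.2.1
    x hx hw, hz⟩

theorem E2a_mono {R : Type} [TopologicalSpace R] {P P' : Set R → Prop} (hPP : ∀ e, P e → P' e)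
    {C C2 : Set R} {ka : List ℕ} (h : RC P C ka C2) : RC P' C ka C2 := by
  induction h with
  | nil C hC => exact RC.nil C hC
  | cons C C1 C2 k ka N e he hP _ ih => exact RC.cons C C1 C2 k ka N e he (fun j => hPP _ (hP j)) ih

theorem pr_E2a (h1 : S_CE) (h2 : S_CubRC) (h3 : S_Grid) (h4 : S_RCRestrict) (h5 : S_X6)
    (h6 : S_X1all) (h7 : S_Comp) (h8 : S_SgFacts) (h9 : S_MbFacts) (h10 : S_Basics)
    (h11 : S_UC) : S_E2a := by
  intro n Y _ dY z a c Q P Ga D' de z0 tau1 hn hdY hD' hz hac hQ hP hde hSQ hSP htau htd hsm hPs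
    hGa hGa'
  obtain ⟨g1, g2, g3, g4, g5, g6, g7, g8, g9⟩ := h8 n hn
  obtain ⟨m1, -, -, -, -, -, -, -, -, -, -, -⟩ := h9 n hn
  have hcZ : CompactSpace (ZM n c) := (g9 c).2.1
  have hcA : CompactSpace (XM n a) := (g9 a).1
  have h3c : 1 ≤ 3 ^ c := Nat.one_le_pow _ _ (by norm_num)
  have hdist : ∀ (x y w : Cube (2 * n + 1)), y ∈ faceOf (3 ^ c) x → w ∈ faceOf (3 ^ c) x →
      dist y w ≤ 1 / 3 ^ c := by
    intro x y w hy hw
    have := (h3.1 _ (3 ^ c) x h3c).2.2.2 y hy w hw
    push_cast at this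
    exact this
  have hself : ∀ x : Cube (2 * n + 1), x ∈ faceOf (3 ^ c) x := fun x => (h3.1 _ (3 ^ c) x h3c).1
  -- the frozen set
  set ZF' := E2a_ZF n c z P z0 with hZF'
  have hZFc : Cubical (3 ^ c) ZF' := E2a_cubical h3 n c z P z0
  have hZFsub : ZF' ⊆ Zb n c := by
    rintro x ⟨x', hx, -⟩
    exact (m1 c).2.1 _ x'.2 hx
  let ZF : Set (ZM n c) := Subtype.val ⁻¹' ZF'
  have hZFcl : IsClosed ZF := (h3.2.2.2.2.1 _ _ _ h3c hZFc).preimage continuous_subtype_val
  have hZF1 : ∀ x ∈ ZF, z0 ≤ z (P x) := by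
    rintro x ⟨x', hx, h⟩
    exact h x hx
  have hZF2 : ∀ x, z0 + de ≤ z (P x) → x ∈ ZF := by
    intro x hx
    refine ⟨x, hself _, fun y hy => ?_⟩
    have e1 : dist x y ≤ 1 / 3 ^ c := hdist x x y (hself _) hy
    have e2 := hPs x y e1
    have e3 := (le_abs_self _).trans (hz (P x) (P y))
    linarith
  -- the relative complex
  have hRC : RC (fun e : Set (ZM n c) => (∀ x ∈ e, ∀ y ∈ e, dist x y ≤ 1 / 3 ^ c) ∧
      ∃ y ∈ e, z (P y) < z0) ZF (List.range (n + 1)) univ := by
    have e1 := (h2 (2 * n + 1) (3 ^ c) (Zb n c) ZF'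
      (fun e => (∀ x ∈ e, ∀ y ∈ e, dist x y ≤ 1 / 3 ^ c) ∧
        ∃ y : ZM n c, (y : Cube (2 * n + 1)) ∈ e ∧ z (P y) < z0) h3c (m1 c).2.1 hZFc hZFsub (by
        intro x hx hx'
        refine ⟨fun y hy w hw => hdist x y w hy hw, ?_⟩
        by_contra hcon
        push Not at hcon
        exact hx' ⟨⟨x, hx⟩, hself _, fun y hy => hcon y hy⟩)).1 n
    have e2 : ZF' ∪ (Zb n c ∩ skel (3 ^ c) n) = Zb n c := by
      ext x
      constructor
      · rintro (hx | hx)
        · exact hZFsub hx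
        · exact hx.1
      · intro hx
        exact Or.inr ⟨hx, hx.2⟩
    rw [e2] at e1
    have e3 := h4 (Cube (2 * n + 1)) (Zb n c) _ ZF' (Zb n c) _ (m1 c).2.2.2.1 (le_refl _) e1
    have e4 : (Subtype.val ⁻¹' (Zb n c) : Set (ZM n c)) = univ := by
      ext x
      simp
    rw [e4] at e3
    refine E2a_mono ?_ e3
    rintro e ⟨hd, y, hy, hyz⟩
    refine ⟨fun x hx w hw => hd x ⟨x, hx, rfl⟩ w ⟨w, hw, rfl⟩, y, ?_, hyz⟩
    obtain ⟨y', hy', hyy⟩ := hy
    rwa [← Subtype.val_injective hyy]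
  -- softness of sZ
  have hcs : Continuous (sZ n a c) := (g4 a c hac).1.comp (g8 c c ⟨0, zero_mem_Zb n c⟩).1
  let DD : XM n a → XM n a → ℝ := fun x y => max (D' x y) (dY (Q x) (Q y))
  have hdYQ : IsCPM (fun x y => dY (Q x) (Q y)) := h11.2.2.1 _ _ dY Q hdY hQ
  have hDD : IsCPM DD := h11.2.2.2.1 _ _ _ hD' hdYQ
  have hDDs : IsCPM (fun x y => DD (sM n a c x) (sM n a c y)) :=
    h11.2.2.1 _ _ DD (sM n a c) hDD (g4 a c hac).1
  have hS1 : Soft n (fun x y => DD (sM n a c x) (sM n a c y)) tau1 (iZ n c c) := by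
    refine h5 n c _ tau1 hn hDDs ?_
    intro x y hxy
    have e1 : dist (sM n a c x) (sM n a c y) ≤ 1 / 2 ^ c := by
      have := (g1 a c hac).2.2.2.2.1 x x.2 y y.2 hxy
      rw [← (g4 a c hac).2, ← (g4 a c hac).2] at this
      exact this
    exact max_le (hsm _ _ e1).1 (hsm _ _ e1).2
  have hS2 : Soft n DD 0 (sM n a c) := h6 n a c hn hac DD hDD
  have hS : Soft n DD tau1 (sZ n a c) := by
    have := h7 n _ _ _ DD tau1 0 (iZ n c c) (sM n a c) hDD (g8 c c ⟨0, zero_mem_Zb n c⟩).1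
      (g4 a c hac).1 hS1 hS2
    rw [add_zero] at this
    exact this
  have hSD' : Soft n D' tau1 (sZ n a c) :=
    h10.1 n n _ _ D' DD tau1 tau1 _ le_rfl le_rfl hD' hDD hcs (fun x y => le_max_left _ _) hS
  have hSdY : Soft n (fun x y => dY (Q x) (Q y)) tau1 (sZ n a c) :=
    h10.1 n n _ _ _ DD tau1 tau1 _ le_rfl le_rfl hdYQ hDD hcs (fun x y => le_max_right _ _) hS
  have hlen : ((List.range (n + 1)).length : ℝ) = (n : ℝ) + 1 := by
    rw [List.length_range]; push_cast; ring
  have hle : ∀ k ∈ List.range (n + 1), k ≤ n := fun k hk => by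
    have := List.mem_range.1 hk
    omega
  -- the first lifting
  have hL1 := h1 (ZM n c) (XM n a) Y _ ZF univ (List.range (n + 1)) n dY de Q hRC hle hdY hQ
    ⟨⟨0, zero_mem_Mb n a⟩⟩ hde.le hSQ (2 * de) (by linarith)
  obtain ⟨f0, G0, k1, k2, k3, k4, k5, k6, k7⟩ := hL1 de P (sZ n a c) Ga hde.le hP.continuousOn
    hcs.continuousOn (hGa.mono (prod_mono le_rfl hZF1)) (fun x hx => (hGa' x (hZF1 x hx)).1)
    (fun x hx => (hGa' x (hZF1 x hx)).2.1) (fun t x hx => (hGa' x (hZF1 x hx)).2.2 t)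
  rw [univ_prod_univ] at k2
  rw [← continuousOn_univ.symm.eq] at k1 k2
  have k1' : Continuous f0 := by simpa using k1
  have k2' : Continuous G0 := by simpa using k2
  -- the second lifting
  have hL2 := h1 (ZM n c) (ZM n c) (XM n a) _ ZF univ (List.range (n + 1)) n DD tau1 (sZ n a c)
    hRC hle hDD hcs ⟨⟨0, zero_mem_Zb n c⟩⟩ htau.le hS (2 * tau1) (by linarith)
  obtain ⟨psi, H0, l1, l2, l3, l4, l5, l6, l7⟩ := hL2 0 f0 id (fun p => f0 p.2) le_rfl
    k1'.continuousOn continuousOn_id (k1'.comp continuous_snd).continuousOn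
    (fun x hx => k3 x hx) (fun x _ => rfl) (fun t x _ => (hDD.self _).le)
  rw [univ_prod_univ] at l2
  have l1' : Continuous psi := by simpa using l1
  have l2' : Continuous H0 := by simpa using l2
  refine ⟨ZF, f0, G0, psi, H0, hZFcl, hZF1, hZF2, hRC, k1', k3, k2', fun x => k5 x (mem_univ _),
    fun x => k6 x (mem_univ _), k4, fun t x => ?_, l1', fun x hx => l3 x hx, l2',
    fun x => l5 x (mem_univ _), fun x => l6 x (mem_univ _), fun t x hx => l4 t x hx,
    fun t x => ?_, hSD', hSdY⟩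
  · have := k7 t x (mem_univ _)
    rw [hlen] at this
    linarith
  · have := l7 t x (mem_univ _)
    rw [hlen] at this
    have e : DD (H0 (t, x)) (f0 x) ≤ (2 * n + 2) * tau1 := by linarith
    exact ⟨(le_max_left _ _).trans e, (le_max_right _ _).trans e⟩

end M202

end

section

/-!
MP_202a65_gt: item E2b (S_E2b), the complex R of the engine with its maps p and q.
-/

open Set Topology unitInterval

namespace M202

/-- continuity on the range of a map from a compact space -/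
lemma E2b_contOn {X R W : Type} [TopologicalSpace X] [CompactSpace X] [TopologicalSpace R]
    [T2Space R] [TopologicalSpace W] (e : X → R) (f : R → W) (he : Continuous e)
    (hf : Continuous (fun x => f (e x))) : ContinuousOn f (range e) := by
  have hr : Continuous (rangeFactorization e) := he.subtype_mk _
  have hc : IsClosedMap (rangeFactorization e) := hr.isClosedMap
  have hq : IsQuotientMap (rangeFactorization e) :=
    hc.isQuotientMap hr rangeFactorization_surjective
  rw [continuousOn_iff_continuous_domRestrict]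
  exact (hq.continuous_iff).2 hf

theorem pr_E2b (h1 : S_AdjEx) (h2 : S_AdjDesc) (h3 : S_CylRC) (h4 : S_HepRC) (h5 : S_SDR)
    (h6 : S_Pert) (h7 : S_Comp) (_h8 : S_Basics) (h9 : S_UC) (_h10 : S_RCAppend) : S_E2b := by
  intro n Z A Y _ _ _ _ _ dY DA Pc ka si Q P ZF f0 G0 psi H0 e1 e2 de g hdY hDA hRC hZF hZne
    hsi hQ hP hsQ hsA hsY hf0 hG0 hpsi hH0 hg he1 he2 hde hF0 hG00 hG01 hGb hpF hH00 hH01 hHF hHb
  classical
  have hcl : IsClosed {p : Z × I | p.2 = 1 ∨ p.1 ∈ ZF} := by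
    refine IsClosed.union ?_ ?_
    · exact isClosed_eq continuous_snd continuous_const
    · exact hZF.preimage continuous_fst
  obtain ⟨R, _, _, _, i, j, hR⟩ := h1 Z (Z × I) {p : Z × I | p.2 = 1 ∨ p.1 ∈ ZF}
    (fun p => psi p.1) hcl (hpsi.comp continuous_fst).continuousOn
  -- the map p
  obtain ⟨p, hpc, hpi, hpj⟩ := (h2 Z (Z × I) R A {p : Z × I | p.2 = 1 ∨ p.1 ∈ ZF}
    (fun p => psi p.1) i j hR).1 si (fun w => H0 (unitInterval.symm w.2, w.1)) hsi
    (hH0.comp ((continuous_symm.comp continuous_snd).prodMk continuous_fst))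
    (by
      rintro ⟨y, t⟩ (ht | hy)
      · have ht' : t = 1 := ht
        show H0 (unitInterval.symm t, y) = si (psi y)
        rw [ht', unitInterval.symm_one, hH00]
      · have hy' : y ∈ ZF := hy
        show H0 (unitInterval.symm t, y) = si (psi y)
        rw [hHF _ y hy', hF0 y hy', hpF y hy'])
  -- the retraction r0
  obtain ⟨r0, hr0c, hr0i, hr0j⟩ := (h2 Z (Z × I) R Z {p : Z × I | p.2 = 1 ∨ p.1 ∈ ZF}
    (fun p => psi p.1) i j hR).1 (fun x => x) (fun w => psi w.1) continuous_id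
    (hpsi.comp continuous_fst) (by intro t _; rfl)
  -- line in the unit interval
  set ln : I → I → I := fun u t => ⟨(t : ℝ) + (u : ℝ) * (1 - (t : ℝ)), by
    have h0 := u.2.1
    have h1 := u.2.2
    have h2 := t.2.1
    have h3 := t.2.2
    constructor <;> nlinarith⟩ with hln
  have hlnc : Continuous (fun q : I × (Z × I) => ln q.1 q.2.2) := by
    refine Continuous.subtype_mk ?_ _
    fun_prop
  obtain ⟨K, hKc, hKi, hKj⟩ := (h2 Z (Z × I) R R {p : Z × I | p.2 = 1 ∨ p.1 ∈ ZF}
    (fun p => psi p.1) i j hR).2.1 (fun q => i q.2) (fun q => j (q.2.1, ln q.1 q.2.2))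
    (hR.conti.comp continuous_snd)
    (hR.contj.comp ((continuous_fst.comp continuous_snd).prodMk hlnc))
    (by
      rintro u ⟨y, t⟩ hyt
      show j (y, ln u t) = i (psi y)
      refine hR.agree (y, ln u t) ?_
      rcases hyt with ht | hy
      · left
        have ht' : t = 1 := ht
        show ln u t = 1
        apply Subtype.ext
        rw [ht']
        simp [hln]
      · right; exact hy)
  have hfs : FineSoft n r0 := by
    refine h5 n R Z r0 i K hr0c hR.conti hKc ?_ ?_ hr0i ?_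
    · intro a
      rcases hR.surj a with ⟨x, rfl⟩ | ⟨⟨y, t⟩, rfl⟩
      · rw [hKi]
      · rw [hKj]
        show j (y, ln 0 t) = j (y, t)
        congr 2
        apply Subtype.ext
        simp [hln]
    · intro a
      rcases hR.surj a with ⟨x, rfl⟩ | ⟨⟨y, t⟩, rfl⟩
      · rw [hKi, hr0i]
      · rw [hKj, hr0j]
        show j (y, ln 1 t) = i (psi y)
        refine hR.agree (y, ln 1 t) (Or.inl ?_)
        show ln 1 t = 1
        apply Subtype.ext
        simp [hln]
    · intro u a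
      rcases hR.surj a with ⟨x, rfl⟩ | ⟨⟨y, t⟩, rfl⟩
      · rw [hKi]
      · rw [hKj, hr0j, hr0j]
  -- the controls
  have hcQ : IsCPM (fun x y => dY (Q x) (Q y)) := h9.2.2.1 A Y dY Q hdY hQ
  -- homotopy from si o r0 to p
  set mu : I → I → I := fun u t => ⟨(u : ℝ) * (1 - (t : ℝ)), by
    have h0 := u.2.1
    have h1 := u.2.2
    have h2 := t.2.1
    have h3 := t.2.2
    constructor <;> nlinarith⟩ with hmu
  have hmuc : Continuous (fun q : I × (Z × I) => mu q.1 q.2.2) := by
    refine Continuous.subtype_mk ?_ _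
    fun_prop
  obtain ⟨Th, hThc, hThi, hThj⟩ := (h2 Z (Z × I) R A {p : Z × I | p.2 = 1 ∨ p.1 ∈ ZF}
    (fun p => psi p.1) i j hR).2.1 (fun q => si q.2) (fun q => H0 (mu q.1 q.2.2, q.2.1))
    (hsi.comp continuous_snd)
    (hH0.comp (hmuc.prodMk (continuous_fst.comp continuous_snd)))
    (by
      rintro u ⟨y, t⟩ (ht | hy)
      · have ht' : t = 1 := ht
        show H0 (mu u t, y) = si (psi y)
        have : mu u t = 0 := by
          apply Subtype.ext
          rw [ht']
          simp [hmu]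
        rw [this, hH00]
      · have hy' : y ∈ ZF := hy
        show H0 (mu u t, y) = si (psi y)
        rw [hHF _ y hy', hF0 y hy', hpF y hy'])
  have hTh0 : ∀ a, Th (0, a) = si (r0 a) := by
    intro a
    rcases hR.surj a with ⟨x, rfl⟩ | ⟨⟨y, t⟩, rfl⟩
    · rw [hThi, hr0i]
    · rw [hThj, hr0j]
      show H0 (mu 0 t, y) = si (psi y)
      have : mu 0 t = 0 := by
        apply Subtype.ext
        simp [hmu]
      rw [this, hH00]
  have hTh1 : ∀ a, Th (1, a) = p a := by
    intro a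
    rcases hR.surj a with ⟨x, rfl⟩ | ⟨⟨y, t⟩, rfl⟩
    · rw [hThi, hpi]
    · rw [hThj, hpj]
      show H0 (mu 1 t, y) = H0 (unitInterval.symm t, y)
      congr 2
      apply Subtype.ext
      simp [hmu]
  have hTA : ∀ s t a, DA (Th (s, a)) (Th (t, a)) ≤ 2 * e2 := by
    intro s t a
    rcases hR.surj a with ⟨x, rfl⟩ | ⟨⟨y, r⟩, rfl⟩
    · rw [hThi, hThi, hDA.self]; linarith
    · rw [hThj, hThj]
      have k1 := (hHb (mu s r) y).1
      have k2 := (hHb (mu t r) y).1
      have k3 := hDA.tri (H0 (mu s r, y)) (f0 y) (H0 (mu t r, y))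
      have k4 := hDA.symm (f0 y) (H0 (mu t r, y))
      show DA (H0 (mu s r, y)) (H0 (mu t r, y)) ≤ 2 * e2
      linarith
  have hTY : ∀ s t a, dY (Q (Th (s, a))) (Q (Th (t, a))) ≤ 2 * e2 := by
    intro s t a
    rcases hR.surj a with ⟨x, rfl⟩ | ⟨⟨y, r⟩, rfl⟩
    · rw [hThi, hThi, hdY.self]; linarith
    · rw [hThj, hThj]
      have k1 := (hHb (mu s r) y).2
      have k2 := (hHb (mu t r) y).2
      have k3 := hdY.tri (Q (H0 (mu s r, y))) (Q (f0 y)) (Q (H0 (mu t r, y)))
      have k4 := hdY.symm (Q (f0 y)) (Q (H0 (mu t r, y)))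
      show dY (Q (H0 (mu s r, y))) (Q (H0 (mu t r, y))) ≤ 2 * e2
      linarith
  have hsoftA : Soft n DA (e1 + 4 * e2) p := by
    have k1 : Soft n DA (0 + e1) (fun a => si (r0 a)) :=
      h7 n R Z A DA 0 e1 r0 si hDA hr0c hsi (hfs _ (h9.2.2.1 Z A DA si hDA hsi)) hsA
    have k2 := h6 n R A DA (0 + e1) (2 * e2) (fun a => si (r0 a)) p Th hDA hThc hTh0 hTh1 hTA k1
    have : 0 + e1 + 2 * (2 * e2) = e1 + 4 * e2 := by ring
    rwa [this] at k2
  have hsoftY : Soft n (fun x y => dY (Q x) (Q y)) (e1 + 4 * e2) p := by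
    have k1 : Soft n (fun x y => dY (Q x) (Q y)) (0 + e1) (fun a => si (r0 a)) :=
      h7 n R Z A (fun x y => dY (Q x) (Q y)) 0 e1 r0 si hcQ hr0c hsi
        (hfs _ (h9.2.2.1 Z A (fun x y => dY (Q x) (Q y)) si hcQ hsi)) hsY
    have k2 := h6 n R A (fun x y => dY (Q x) (Q y)) (0 + e1) (2 * e2) (fun a => si (r0 a)) p Th
      hcQ hThc hTh0 hTh1 hTY k1
    have : 0 + e1 + 2 * (2 * e2) = e1 + 4 * e2 := by ring
    rwa [this] at k2
  have hsoftQp : Soft n dY (e1 + 4 * e2 + de) (fun a => Q (p a)) :=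
    h7 n R A Y dY (e1 + 4 * e2) de p Q hdY hpc hQ hsoftY hsQ
  -- the map q on Z
  obtain ⟨z0⟩ := hZne
  haveI : Nonempty Y := ⟨P z0⟩
  have hG2 : ∀ t x, dY (G0 (t, x)) (Q (f0 x)) ≤ 2 * g := by
    intro t x
    have k1 := hGb t x
    have k2 := hGb 0 x
    rw [hG00] at k2
    have k3 := hdY.tri (G0 (t, x)) (P x) (Q (f0 x))
    have k4 := hdY.symm (P x) (Q (f0 x))
    linarith
  obtain ⟨qs, G1, hqsc, hG1c, hqsF, hG1F, hG10, hG11, hG1b⟩ := h4 Z Y Pc ZF ka dY
    (fun x => Q (si x)) P (fun w => G0 (unitInterval.symm w.1, w.2)) (2 * g) (g / 2) hRC hdY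
    inferInstance (hQ.comp hsi) hP.continuousOn
    (hG0.comp ((continuous_symm.comp continuous_fst).prodMk continuous_snd)).continuousOn
    (by
      intro x _
      show G0 (unitInterval.symm 0, x) = P x
      rw [unitInterval.symm_zero, hG01])
    (by
      intro x hx
      show G0 (unitInterval.symm 1, x) = Q (si x)
      rw [unitInterval.symm_one, hG00, hF0 x hx])
    (by
      intro t x hx
      show dY (G0 (unitInterval.symm t, x)) (Q (si x)) ≤ 2 * g
      rw [← hF0 x hx]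
      exact hG2 _ x)
    (by linarith) (by linarith)
  -- the relative complex (R, R0)
  obtain ⟨-, hRC2, hinj0, hcl0⟩ := h3 Z R Pc (fun _ => True) ZF ka psi i j hZF hpsi hpF hRC hR
    (fun _ _ => ⟨trivial, trivial⟩)
  -- the homotopy on R0
  set Gm : I × R → Y := fun w =>
    if h : ∃ x, i x = w.2 then G1 (w.1, h.choose)
      else if h' : ∃ y, j (y, 0) = w.2 then G0 (unitInterval.symm w.1, h'.choose)
        else P z0 with hGm
  have hGmi : ∀ t x, Gm (t, i x) = G1 (t, x) := by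
    intro t x
    have h : ∃ x', i x' = (t, i x).2 := ⟨x, rfl⟩
    have hch : h.choose = x := hR.inji h.choose_spec
    simp only [hGm]
    rw [dif_pos h, hch]
  have hGmj : ∀ t y, Gm (t, j (y, 0)) = G0 (unitInterval.symm t, y) := by
    intro t y
    by_cases hy : y ∈ ZF
    · have hij : j (y, 0) = i y := by
        rw [hR.agree (y, (0 : I)) (Or.inr hy)]
        show i (psi y) = i y
        rw [hpF y hy]
      rw [hij, hGmi, hG1F t y hy]
    · have hnA : (y, (0 : I)) ∉ {p : Z × I | p.2 = 1 ∨ p.1 ∈ ZF} := by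
        rintro (h | h)
        · exact zero_ne_one h
        · exact hy h
      have hno : ¬ ∃ x, i x = (t, j (y, (0 : I))).2 := by
        rintro ⟨x, hx⟩
        exact hR.disj (y, (0 : I)) hnA x hx.symm
      have h' : ∃ y', j (y', 0) = (t, j (y, (0 : I))).2 := ⟨y, rfl⟩
      have hch : h'.choose = y := hinj0 h'.choose_spec
      simp only [hGm]
      rw [dif_neg hno, dif_pos h', hch]
  have hGmc : ContinuousOn Gm (univ ×ˢ ((range fun y => j (y, 0)) ∪ range i)) := by
    set e : (I × Z) ⊕ (I × Z) → I × R :=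
      Sum.elim (fun w => (w.1, j (w.2, 0))) (fun w => (w.1, i w.2)) with he
    have hec : Continuous e := by
      refine continuous_sum_dom.2 ⟨?_, ?_⟩
      · exact continuous_fst.prodMk (hR.contj.comp (continuous_snd.prodMk continuous_const))
      · exact continuous_fst.prodMk (hR.conti.comp continuous_snd)
    have hrange : univ ×ˢ ((range fun y => j (y, 0)) ∪ range i) = range e := by
      ext ⟨t, r⟩
      constructor
      · rintro ⟨-, (⟨y, hy⟩ | ⟨x, hx⟩)⟩
        · refine ⟨Sum.inl (t, y), ?_⟩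
          have hy' : j (y, 0) = r := hy
          simp [he, hy']
        · refine ⟨Sum.inr (t, x), ?_⟩
          have hx' : i x = r := hx
          simp [he, hx']
      · rintro ⟨(⟨s, y⟩ | ⟨s, x⟩), hw⟩
        · simp only [he, Sum.elim_inl, Prod.mk.injEq] at hw
          exact ⟨trivial, Or.inl ⟨y, hw.2⟩⟩
        · simp only [he, Sum.elim_inr, Prod.mk.injEq] at hw
          exact ⟨trivial, Or.inr ⟨x, hw.2⟩⟩
    rw [hrange]
    refine E2b_contOn e Gm hec ?_
    refine continuous_sum_dom.2 ⟨?_, ?_⟩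
    · have : (fun x => Gm (e x)) ∘ Sum.inl = fun w : I × Z => G0 (unitInterval.symm w.1, w.2) := by
        funext w
        show Gm (w.1, j (w.2, 0)) = _
        rw [hGmj]
      rw [this]
      exact hG0.comp ((continuous_symm.comp continuous_fst).prodMk continuous_snd)
    · have : (fun x => Gm (e x)) ∘ Sum.inr = fun w : I × Z => G1 w := by
        funext w
        show Gm (w.1, i w.2) = _
        rw [hGmi]
      rw [this]
      exact hG1c
  -- the map q
  obtain ⟨q, G, hqc, hGc, hqF, hGF, hGz, hGo, hGbd⟩ := h4 R Y (fun _ => True)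
    ((range fun y => j (y, 0)) ∪ range i) (ka.map (· + 1)) dY (fun r => Q (p r))
    (fun r => Gm (0, r)) Gm (5 * g / 2) (g / 2) hRC2 hdY inferInstance (hQ.comp hpc)
    (by
      refine hGmc.comp (f := fun r => ((0 : I), r)) (by fun_prop) ?_
      intro r hr
      exact ⟨trivial, hr⟩)
    hGmc (fun _ _ => rfl)
    (by
      rintro r (⟨y, rfl⟩ | ⟨x, rfl⟩)
      · show Gm (1, j (y, 0)) = Q (p (j (y, 0)))
        rw [hGmj, hpj, unitInterval.symm_one, hG00]
        show Q (f0 y) = Q (H0 (unitInterval.symm 0, y))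
        rw [unitInterval.symm_zero, hH01]
      · show Gm (1, i x) = Q (p (i x))
        rw [hGmi, hpi, hG11])
    (by
      rintro t r (⟨y, rfl⟩ | ⟨x, rfl⟩)
      · show dY (Gm (t, j (y, 0))) (Q (p (j (y, 0)))) ≤ 5 * g / 2
        rw [hGmj, hpj]
        show dY (G0 (unitInterval.symm t, y)) (Q (H0 (unitInterval.symm 0, y))) ≤ 5 * g / 2
        rw [unitInterval.symm_zero, hH01]
        have := hG2 (unitInterval.symm t) y
        linarith
      · show dY (Gm (t, i x)) (Q (p (i x))) ≤ 5 * g / 2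
        rw [hGmi, hpi]
        have := hG1b t x
        have h' : 2 * g + g / 2 = 5 * g / 2 := by ring
        rw [← h']
        exact this)
    (by linarith) (by linarith)
  refine ⟨R, inferInstance, inferInstance, inferInstance, i, j, p, q, hR, hpc, hqc, hpi, ?_, ?_,
    hsoftA, ?_, ?_, ?_⟩
  · intro y
    rw [hpj]
    show H0 (unitInterval.symm 0, y) = f0 y
    rw [unitInterval.symm_zero, hH01]
  · intro t y
    rw [hpj]
    exact hHb (unitInterval.symm t) y
  · intro y
    rw [hqF (j (y, 0)) (Or.inl ⟨y, rfl⟩)]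
    show Gm (0, j (y, 0)) = P y
    rw [hGmj, unitInterval.symm_zero, hG01]
  · intro r
    rw [← hGz r]
    have := hGbd 0 r
    linarith
  · have k := h6 n R Y dY (e1 + 4 * e2 + de) (6 * g) (fun a => Q (p a)) q
      (fun w => G (unitInterval.symm w.1, w.2)) hdY
      (hGc.comp ((continuous_symm.comp continuous_fst).prodMk continuous_snd))
      (by
        intro a
        show G (unitInterval.symm 0, a) = Q (p a)
        rw [unitInterval.symm_zero, hGo])
      (by
        intro a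
        show G (unitInterval.symm 1, a) = q a
        rw [unitInterval.symm_one, hGz])
      (by
        intro s t a
        show dY (G (unitInterval.symm s, a)) (G (unitInterval.symm t, a)) ≤ 6 * g
        have k1 := hGbd (unitInterval.symm s) a
        have k2 := hGbd (unitInterval.symm t) a
        have k3 := hdY.tri (G (unitInterval.symm s, a)) (Q (p a)) (G (unitInterval.symm t, a))
        have k4 := hdY.symm (Q (p a)) (G (unitInterval.symm t, a))
        linarith) hsoftQp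
    have he : e1 + 4 * e2 + de + 2 * (6 * g) = de + e1 + 4 * e2 + 12 * g := by ring
    rwa [he] at k

end M202

end

section

/-!
MP_202a65_gt, item Gauge (helper70): a gauge function.
-/

open Set Topology unitInterval Metric

namespace M202

universe u

/-- admissible radii -/
def Gauge_S {X : Type u} [MetricSpace X] (U : Set X) (x : X) : Set ℝ :=
  {r | 0 < r ∧ r ≤ 1 ∧ IsCompact (closedBall x r) ∧ closedBall x r ⊆ U}

lemma Gauge_bdd {X : Type u} [MetricSpace X] (U : Set X) (x : X) : BddAbove (Gauge_S U x) :=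
  ⟨1, fun _ hr => hr.2.1⟩

lemma Gauge_nonneg {X : Type u} [MetricSpace X] (U : Set X) (x : X) : 0 ≤ sSup (Gauge_S U x) :=
  Real.sSup_nonneg fun _ hr => hr.1.le

lemma Gauge_lip {X : Type u} [MetricSpace X] (U : Set X) (x y : X) :
    sSup (Gauge_S U x) ≤ sSup (Gauge_S U y) + dist x y := by
  rcases (Gauge_S U x).eq_empty_or_nonempty with h | h
  · rw [h, Real.sSup_empty]
    exact add_nonneg (Gauge_nonneg U y) dist_nonneg
  · refine csSup_le h fun r hr => ?_
    by_cases hd : r ≤ dist x y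
    · linarith [Gauge_nonneg U y]
    · push Not at hd
      have hsub : closedBall y (r - dist x y) ⊆ closedBall x r := by
        intro z hz
        rw [mem_closedBall] at hz ⊢
        have := dist_triangle z y x
        rw [dist_comm y x] at this
        linarith
      have hmem : r - dist x y ∈ Gauge_S U y :=
        ⟨by linarith, by linarith [hr.2.1, dist_nonneg (x := x) (y := y)],
          hr.2.2.1.of_isClosed_subset isClosed_closedBall hsub, hsub.trans hr.2.2.2⟩
      have := le_csSup (Gauge_bdd U y) hmem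
      linarith

theorem pr_Gauge : S_Gauge.{u} := by
  intro X _ U hU hloc _
  have hne : ∀ x ∈ U, (Gauge_S U x).Nonempty := by
    intro x hx
    obtain ⟨r, hr, hc⟩ := hloc x hx
    obtain ⟨e, he, hball⟩ := Metric.isOpen_iff.1 hU x hx
    refine ⟨min r (min (e / 2) 1), lt_min hr (lt_min (by linarith) one_pos),
      (min_le_right _ _).trans (min_le_right _ _), ?_, ?_⟩
    · exact hc.of_isClosed_subset isClosed_closedBall
        (closedBall_subset_closedBall (min_le_left _ _))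
    · refine (closedBall_subset_ball ?_).trans hball
      exact lt_of_le_of_lt ((min_le_right _ _).trans (min_le_left _ _)) (by linarith)
  have hpos : ∀ x ∈ U, 0 < sSup (Gauge_S U x) := by
    intro x hx
    obtain ⟨r, hr⟩ := hne x hx
    exact lt_of_lt_of_le hr.1 (le_csSup (Gauge_bdd U x) hr)
  have hhalf : ∀ x ∈ U, ∃ r ∈ Gauge_S U x, sSup (Gauge_S U x) / 2 ≤ r := by
    intro x hx
    obtain ⟨r, hr, hlt⟩ := exists_lt_of_lt_csSup (hne x hx) (half_lt_self (hpos x hx))
    exact ⟨r, hr, hlt.le⟩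
  refine ⟨fun x => sSup (Gauge_S U x) / 2, ?_, ?_, ?_, ?_, ?_⟩
  · intro x y
    have h1 := Gauge_lip U x y
    have h2 := Gauge_lip U y x
    rw [dist_comm y x] at h2
    have h3 : 0 ≤ dist x y := dist_nonneg
    rw [abs_le]
    constructor <;> linarith
  · intro x hx
    exact half_pos (hpos x hx)
  · intro x hx
    have : Gauge_S U x = ∅ := by
      rw [eq_empty_iff_forall_notMem]
      intro r hr
      exact hx (hr.2.2.2 (mem_closedBall_self hr.1.le))
    show sSup (Gauge_S U x) / 2 = 0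
    rw [this, Real.sSup_empty, zero_div]
  · intro x hx
    obtain ⟨r, hr, hle⟩ := hhalf x hx
    exact hr.2.2.1.of_isClosed_subset isClosed_closedBall (closedBall_subset_closedBall hle)
  · intro x hx
    obtain ⟨r, hr, hle⟩ := hhalf x hx
    exact (closedBall_subset_closedBall hle).trans hr.2.2.2

end M202

end

section

/-!
MP_202a65_gt, item HepRC (helper70): controlled homotopy extension over relative complexes.
-/

open Set Topology unitInterval

namespace M202

theorem pr_HepRC (h1 : S_CE) (h2 : S_Basics) : S_HepRC := by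
  intro R B _ _ _ _ P C ka D be al ga ze ep hRC hD hB hbe hal hga hga0 hga1 htr hze hep
  obtain ⟨n, hn⟩ : ∃ n : ℕ, ∀ k ∈ ka, k ≤ n := by
    clear hRC
    induction ka with
    | nil => exact ⟨0, by simp⟩
    | cons a ka ih =>
      obtain ⟨n, hn⟩ := ih
      refine ⟨max a n, fun k hk => ?_⟩
      rcases List.mem_cons.1 hk with h | h
      · rw [h]; exact le_max_left _ _
      · exact (hn k h).trans (le_max_right _ _)
  have hsoft : Soft n D 0 (id : B → B) := h2.2.2.1 n B D hD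
  have hl : (0 : ℝ) < (ka.length : ℝ) + 1 := by positivity
  have heta : (0 : ℝ) < ep / ((ka.length : ℝ) + 1) := div_pos hep hl
  have hlift := h1 R B B P C univ ka n D 0 id hRC hn hD continuous_id hB le_rfl hsoft
    (ep / ((ka.length : ℝ) + 1)) heta
  obtain ⟨al', G, hal', hG, e1, e2, e3, e4, e5⟩ := hlift ze be al ga hze hbe.continuousOn hal hga
    (fun x hx => hga0 x hx) hga1 htr
  refine ⟨al', G, continuousOn_univ.1 hal', ?_, e1, e2, fun x => e3 x (mem_univ x),
    fun x => e4 x (mem_univ x), fun t x => ?_⟩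
  · rw [univ_prod_univ] at hG
    exact continuousOn_univ.1 hG
  · refine (e5 t x (mem_univ x)).trans ?_
    have : (ka.length : ℝ) * (ep / ((ka.length : ℝ) + 1)) ≤ ep := by
      rw [← mul_div_assoc, div_le_iff₀ hl]
      nlinarith
    linarith

end M202

end

section

set_option autoImplicit false

/-!
MP_202a65_gt: item Init, the initial state of the zigzag.
-/

open Set Topology unitInterval Filter

namespace M202

/-- the control pseudometric on the pinched bundle -/
noncomputable def InitdY (n bs : ℕ) (la ze : XM n bs → ℝ) (p p' : ↥(Pin n bs la)) : ℝ :=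
  max (dist p p') |ze p.1.1 - ze p'.1.1|

theorem InitdY_cpm (h11 : S_UC) {n bs : ℕ} {la ze : XM n bs → ℝ} (hze : Continuous ze) :
    IsCPM (InitdY n bs la ze) := by
  obtain ⟨-, -, -, hmax, -, habs, -, hdist⟩ := h11
  exact hmax _ _ _ (hdist ↥(Pin n bs la))
    (habs ↥(Pin n bs la) (fun p => ze p.1.1) (by fun_prop))

/-- the path over the part where `ze` is positive -/
theorem Init_path {n bs : ℕ} {la ze : XM n bs → ℝ} {Z : Type} [TopologicalSpace Z]
    (Q P : Z → ↥(Pin n bs la)) (hQ : Continuous Q) (hP : Continuous P)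
    (H : I × (XM n bs × XM n bs) → XM n bs) (C dN r dsep dl rz z0 : ℝ)
    (hHc : ContinuousOn H {p | dist p.2.1 p.2.2 ≤ dN})
    (hH : ∀ x y, dist x y ≤ dN → H (0, (x, y)) = x ∧ H (1, (x, y)) = y ∧
      ∀ t, dist (H (t, (x, y))) x ≤ C * dist x y) (hC : 1 ≤ C)
    (hrN : r ≤ dN) (hrs : (C + 1) * r ≤ dsep)
    (hsep : ∀ v v', dist v v' ≤ dsep → 0 < ze v → la v' = 0) (hrz : (C + 1) * r ≤ rz)
    (hze : ∀ v v', dist v v' ≤ rz → |ze v - ze v'| ≤ dl) (hrl : (C + 1) * r ≤ dl)
    (hclose : ∀ x, dist (Q x).1.1 (P x).1.1 ≤ r) (hz0 : 0 < z0) :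
    ∃ Ga : I × Z → ↥(Pin n bs la), ContinuousOn Ga (univ ×ˢ {x | z0 ≤ ze (P x).1.1}) ∧
      ∀ x, z0 ≤ ze (P x).1.1 → Ga (0, x) = Q x ∧ Ga (1, x) = P x ∧
        ∀ t, InitdY n bs la ze (Ga (t, x)) (P x) ≤ dl := by
  classical
  set h : I × Z → XM n bs := fun p => H (p.1, ((Q p.2).1.1, (P p.2).1.1)) with hh
  have hbound : ∀ p : I × Z, dist (P p.2).1.1 (h p) ≤ (C + 1) * r := by
    intro p
    have h1 := (hH (Q p.2).1.1 (P p.2).1.1 ((hclose p.2).trans hrN)).2.2 p.1
    have h2 : C * dist (Q p.2).1.1 (P p.2).1.1 ≤ C * r :=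
      mul_le_mul_of_nonneg_left (hclose p.2) (by linarith)
    have h3 := hclose p.2
    rw [dist_comm] at h3
    have h4 := dist_triangle (P p.2).1.1 (Q p.2).1.1 (h p)
    have h5 : dist (Q p.2).1.1 (h p) = dist (h p) (Q p.2).1.1 := dist_comm _ _
    rw [h5] at h4
    have h6 : dist (h p) (Q p.2).1.1 ≤ C * r := h1.trans h2
    linarith
  have hla : ∀ p : I × Z, z0 ≤ ze (P p.2).1.1 → la (h p) = 0 := by
    intro p hp
    exact hsep _ _ ((hbound p).trans hrs) (lt_of_lt_of_le hz0 hp)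
  have hlaP : ∀ x, z0 ≤ ze (P x).1.1 → la (P x).1.1 = 0 := by
    intro x hx
    refine hsep (P x).1.1 _ ?_ (lt_of_lt_of_le hz0 hx)
    rw [dist_self]
    exact le_trans (le_trans dist_nonneg (hbound ((0 : I), x))) hrs
  have hlaQ : ∀ x, z0 ≤ ze (P x).1.1 → la (Q x).1.1 = 0 := by
    intro x hx
    refine hsep (P x).1.1 _ ?_ (lt_of_lt_of_le hz0 hx)
    have h3 := hclose x
    rw [dist_comm] at h3
    have h4 : (0 : ℝ) ≤ r := dist_nonneg.trans h3
    nlinarith
  have hPeq : ∀ x, z0 ≤ ze (P x).1.1 → (P x).1.2 = ctr (n + 2) := by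
    intro x hx
    have h1 : dist (P x).1.2 (ctr (n + 2)) = la (P x).1.1 / 2 := (P x).2
    rw [hlaP x hx, zero_div] at h1
    exact dist_eq_zero.1 h1
  have hQeq : ∀ x, z0 ≤ ze (P x).1.1 → (Q x).1.2 = ctr (n + 2) := by
    intro x hx
    have h1 : dist (Q x).1.2 (ctr (n + 2)) = la (Q x).1.1 / 2 := (Q x).2
    rw [hlaQ x hx, zero_div] at h1
    exact dist_eq_zero.1 h1
  refine ⟨fun p => if hp : la (h p) = 0 then ⟨(h p, ctr (n + 2)), by
    show dist (ctr (n + 2)) (ctr (n + 2)) = la (h p) / 2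
    rw [dist_self, hp, zero_div]⟩ else P p.2, ?_, ?_⟩
  · rw [Topology.IsInducing.subtypeVal.continuousOn_iff]
    have hhc : ContinuousOn h (univ ×ˢ {x | z0 ≤ ze (P x).1.1}) := by
      refine hHc.comp (Continuous.continuousOn (by fun_prop)) ?_
      rintro ⟨t, x⟩ -
      exact (hclose x).trans hrN
    refine ContinuousOn.congr (f := fun p => (h p, ctr (n + 2)))
      (hhc.prodMk continuousOn_const) ?_
    rintro ⟨t, x⟩ ⟨-, hx⟩
    simp only [Function.comp]
    rw [dif_pos (hla (t, x) hx)]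
  · intro x hx
    have e : ∀ t : I, (if hp : la (h (t, x)) = 0 then (⟨(h (t, x), ctr (n + 2)), by
        show dist (ctr (n + 2)) (ctr (n + 2)) = la (h (t, x)) / 2
        rw [dist_self, hp, zero_div]⟩ : ↥(Pin n bs la)) else P x) =
        ⟨(h (t, x), ctr (n + 2)), by
        show dist (ctr (n + 2)) (ctr (n + 2)) = la (h (t, x)) / 2
        rw [dist_self, hla (t, x) hx, zero_div]⟩ := fun t => dif_pos (hla (t, x) hx)
    obtain ⟨h0, h1, -⟩ := hH (Q x).1.1 (P x).1.1 ((hclose x).trans hrN)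
    refine ⟨?_, ?_, fun t => ?_⟩
    · simp only [e]
      apply Subtype.ext
      exact Prod.ext h0 (hQeq x hx).symm
    · simp only [e]
      apply Subtype.ext
      exact Prod.ext h1 (hPeq x hx).symm
    · simp only [e]
      have hb := hbound (t, x)
      have hb' : dist (P x).1.1 (h (t, x)) ≤ (C + 1) * r := hb
      rw [dist_comm] at hb'
      unfold InitdY
      refine max_le ?_ (hze _ _ (hb'.trans hrz))
      rw [Subtype.dist_eq, Prod.dist_eq]
      refine max_le (hb'.trans hrl) ?_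
      show dist (ctr (n + 2)) (P x).1.2 ≤ dl
      rw [hPeq x hx, dist_self]
      exact (dist_nonneg.trans hb').trans hrl

/-- paths between close maps into `M_a` -/
theorem Init_near {n bs a : ℕ} {ze : XM n bs → ℝ} {W : Type} [TopologicalSpace W]
    (F G : W → XM n a) (hF : Continuous F) (hG : Continuous G)
    (H : I × (XM n a × XM n a) → XM n a) (C dN tau de ra : ℝ)
    (hHc : ContinuousOn H {p | dist p.2.1 p.2.2 ≤ dN})
    (hH : ∀ x y, dist x y ≤ dN → H (0, (x, y)) = x ∧ H (1, (x, y)) = y ∧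
      ∀ t, dist (H (t, (x, y))) x ≤ C * dist x y) (hC : 1 ≤ C)
    (htN : tau ≤ dN) (hta : (C + 1) * tau ≤ ra)
    (hra : ∀ x y, dist x y ≤ ra → dst n bs ze a x y ≤ de) (S : Set W)
    (hS : ∀ w ∈ S, dist (F w) (G w) ≤ tau) :
    ∃ Ga : I × W → XM n a, ContinuousOn Ga (univ ×ˢ S) ∧
      ∀ w ∈ S, Ga (0, w) = F w ∧ Ga (1, w) = G w ∧
        ∀ t, dst n bs ze a (Ga (t, w)) (G w) ≤ de := by
  refine ⟨fun p => H (p.1, (F p.2, G p.2)), ?_, ?_⟩
  · refine hHc.comp (Continuous.continuousOn (by fun_prop)) ?_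
    rintro ⟨t, w⟩ ⟨-, hw⟩
    exact (hS w hw).trans htN
  · intro w hw
    obtain ⟨h0, h1, h2⟩ := hH (F w) (G w) ((hS w hw).trans htN)
    refine ⟨h0, h1, fun t => hra _ _ ?_⟩
    have h3 := dist_triangle (H (t, (F w, G w))) (F w) (G w)
    have h4 := h2 t
    have h5 := hS w hw
    have h6 : C * dist (F w) (G w) ≤ C * tau := mul_le_mul_of_nonneg_left h5 (by linarith)
    have h7 : (C + 1) * tau = C * tau + tau := by ring
    show dist (H (t, (F w, G w))) (G w) ≤ ra
    linarith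

/-- the retraction `M_c' → Z_c` is close to the bonding map -/
theorem Init_close (h12 : S_SgFacts) (h15 : S_SqzPz) (h16 : S_Grid)
    {n bs c c' : ℕ} (hn : 1 ≤ n) (hbc : bs ≤ c) (hcc : c + 1 ≤ c') (w : XM n c') :
    dist (sZ n bs c (rZ n c c' w)) (sM n bs c' w) ≤ 1 / 2 ^ c := by
  obtain ⟨hsg, hsg0, -, hsM, -, hcomp, hpZ, hiZ, -⟩ := h12 n hn
  obtain ⟨⟨-, hsqm, hsqf, -, -⟩, ⟨-, hpzm, hpzf, -⟩, -⟩ := h15 n c hn
  have hface := h16.1 (2 * n + 1) (3 ^ c)
  set y : XM n (c + 1) := sM n (c + 1) c' w with hy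
  have e1 : sM n bs c' w = sM n bs c (sM n c (c + 1) y) := by
    rw [hy, hcomp c (c + 1) c' w (Nat.le_succ c) hcc, hcomp bs c c' w hbc (by omega)]
  have e2 : (sM n c (c + 1) y : Cube (2 * n + 1)) = sqz n c y := by
    rw [(hsM c (c + 1) (Nat.le_succ c)).2 y]
    unfold sg
    rw [show c + 1 - c = 1 by omega]
    rfl
  have e3 : (iZ n c c (rZ n c c' w) : Cube (2 * n + 1)) = pz n c y := by
    rw [(hiZ c c (rZ n c c' w)).2]
    exact (hpZ c y).2
  rw [e1]
  unfold sZ
  have e4 := (hsM bs c hbc).2 (iZ n c c (rZ n c c' w))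
  have e5 := (hsM bs c hbc).2 (sM n c (c + 1) y)
  rw [Subtype.dist_eq, e4, e5]
  refine (hsg bs c hbc).2.2.2.2.1 _ (Subtype.property _) _ (Subtype.property _) ?_
  rw [e2, e3]
  have h3 := (hface (y : Cube (2 * n + 1)) (Nat.one_le_pow _ _ (by norm_num))).2.2.2
    _ (hpzf y y.2) _ (hsqf y y.2)
  push_cast at h3
  exact h3

/-- the last step: comparison of the second coordinates -/
theorem Init_last {L S U D e lx : ℝ} (hS0 : 0 ≤ S) (hS1 : S ≤ 1) (hlx : lx = 1)
    (hd : |L * (S - 1 / 2) - -(lx * (U - 1 / 2))| ≤ D) (hD : D ≤ e / 2) (hL : |L - lx| ≤ e) :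
    |(S - 1 / 2) + (U - 1 / 2)| ≤ e := by
  subst hlx
  rw [one_mul, sub_neg_eq_add] at hd
  have h1 : (S - 1 / 2) + (U - 1 / 2) = (L * (S - 1 / 2) + (U - 1 / 2)) - (L - 1) * (S - 1 / 2) := by
    ring
  rw [h1]
  have h2 : |(L - 1) * (S - 1 / 2)| ≤ e * (1 / 2) := by
    rw [abs_mul]
    refine mul_le_mul hL ?_ (abs_nonneg _) ((abs_nonneg _).trans hL)
    rw [abs_le]
    constructor <;> linarith
  refine (abs_sub _ _).trans ?_
  linarith

theorem pr_Init (h1 : S_P) (h2 : S_E) (h3 : S_PPSoft) (h4 : S_PExt) (h5 : S_Pinch)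
    (h6 : S_PinEx) (h7 : S_Near) (h8 : S_X1all) (h9 : S_Comp) (h10 : S_Basics) (h11 : S_UC)
    (h12 : S_SgFacts) (h13 : S_SiFacts) (_h14 : S_MbFacts) (h15 : S_SqzPz) (h16 : S_Grid)
    (_h17 : S_ProdId) (_h18 : S_SupCPM) : S_Init := by
  intro n bs la ze V' K g d1 ka e hn hcd hka he
  obtain ⟨ke, hke1, hE⟩ := h2 n hn
  have hbas1 := h10.1
  have hbasId := h10.2.2.2.2.2.1
  have hbasProd := h10.2.2.2.2.2.2.2
  obtain ⟨huc1, huc2, hpull, hmaxc, -, habs, -, hdistc⟩ := id h11
  obtain ⟨-, -, -, hsM, hsM0, hsMc, hpZ, hiZ, hcompact⟩ := id (h12 n hn)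
  obtain ⟨hsic, hsis, -, -, -, -, -⟩ := id (h13 n hn)
  have : ∀ b, CompactSpace (XM n b) := fun b => (hcompact b).1
  have hbdc : IsClosed (bd (n + 2)) :=
    h16.2.2.2.2.1 (n + 2) 1 (bd (n + 2)) le_rfl (h16.2.2.1 (n + 2) 1 le_rfl).1
  have : CompactSpace (SS n) := isCompact_iff_compactSpace.1 hbdc.isCompact
  -- the parameters at level `bs`
  obtain ⟨rl, hrl, hla⟩ := huc1 (XM n bs) _ (habs (XM n bs) la hcd.contla) e he
  have hk0 : 0 < 4 * ke + 3 := by linarith
  set dl : ℝ := min (min (e / 2) rl) (1 / 20) / (4 * ke + 3) with hdldef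
  have hm0 : 0 < min (min (e / 2) rl) (1 / 20) :=
    lt_min (lt_min (by linarith) hrl) (by norm_num)
  have hdl : 0 < dl := div_pos hm0 hk0
  have hdlm : (4 * ke + 3) * dl = min (min (e / 2) rl) (1 / 20) := by
    rw [hdldef]
    field_simp
  have hdl1 : (4 * ke + 3) * dl ≤ e / 2 := by
    rw [hdlm]
    exact (min_le_left _ _).trans (min_le_left _ _)
  have hdl2 : (4 * ke + 3) * dl ≤ rl := by
    rw [hdlm]
    exact (min_le_left _ _).trans (min_le_right _ _)
  have hdl3 : (4 * ke + 3) * dl ≤ 1 / 20 := by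
    rw [hdlm]
    exact min_le_right _ _
  have hkd : dl ≤ ke * dl := le_mul_of_one_le_left hdl.le hke1
  have hk2 : (2 * ke + 2) * dl ≤ (4 * ke + 3) * dl :=
    mul_le_mul_of_nonneg_right (by linarith) hdl.le
  have hk3 : (2 * ke + 2) * dl + dl ≤ (4 * ke + 3) * dl := by
    have : (4 * ke + 3) * dl = (2 * ke + 2) * dl + dl + 2 * (ke * dl) := by ring
    rw [this]
    linarith
  obtain ⟨rz, hrz, hze⟩ := huc1 (XM n bs) _ (habs (XM n bs) ze hcd.contze) dl hdl
  obtain ⟨H, C, dN, hC, hdN, hHc, hH, -⟩ := h7 n bs hn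
  obtain ⟨dsep, hdsep, hsep⟩ := hcd.sep
  set r : ℝ := min (min dsep rz) (min dl dN) / (C + 1) with hrdef
  have hr0 : 0 < r := div_pos (lt_min (lt_min hdsep hrz) (lt_min hdl hdN)) (by linarith)
  have hCr : (C + 1) * r = min (min dsep rz) (min dl dN) := by
    rw [hrdef]
    have : C + 1 ≠ 0 := by linarith
    field_simp
  have hr1 : (C + 1) * r ≤ dsep := by
    rw [hCr]; exact (min_le_left _ _).trans (min_le_left _ _)
  have hr2 : (C + 1) * r ≤ rz := by
    rw [hCr]; exact (min_le_left _ _).trans (min_le_right _ _)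
  have hr3 : (C + 1) * r ≤ dl := by
    rw [hCr]; exact (min_le_right _ _).trans (min_le_left _ _)
  have hr4 : (C + 1) * r ≤ dN := by
    rw [hCr]; exact (min_le_right _ _).trans (min_le_right _ _)
  have hrC : r ≤ (C + 1) * r := by nlinarith
  set dY := InitdY n bs la ze with hdY
  have hcpm : IsCPM dY := InitdY_cpm h11 hcd.contze
  -- (1)
  obtain ⟨b2, eta2, hb2, heta2, hPP⟩ := h3 n bs la ze V' K g d1 dY dl hn hcd hcpm hdl
  obtain ⟨⟨pin, hpin⟩, hppex, -⟩ := h6 n bs la hn hcd.contla hcd.la0 hcd.la1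
  set pin' : XM n b2 × SS n → ↥(Pin n bs la) := fun p => pin (sM n bs b2 p.1, p.2) with hpin'
  have hsMb2 : Continuous (sM n bs b2) := (hsM bs b2 hb2).1
  have hth1c : Continuous (fun p : XM n b2 × SS n => (sM n bs b2 p.1, p.2)) := by fun_prop
  have hpin'c : Continuous pin' := hpin.1.comp hth1c
  have hpin's : FineSoft n pin' :=
    hbasId n _ _ _ (fun p : XM n b2 × SS n => (sM n bs b2 p.1, p.2)) pin hth1c hpin.1
      (hbasProd n (XM n b2) (XM n bs) (SS n) (sM n bs b2) hsMb2 (h8 n bs b2 hn hb2))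
      (h5 n bs la pin hn hcd.contla hcd.la0 hcd.la1 hpin)
  obtain ⟨r2, hr2', hsMb2m⟩ := huc2 (XM n b2) (XM n bs) _ (sM n bs b2) (hdistc (XM n bs)) hsMb2 r hr0
  set eta3 : ℝ := min (min eta2 dl) r2 with heta3def
  have heta3 : 0 < eta3 := lt_min (lt_min heta2 hdl) hr2'
  have heta32 : eta3 ≤ eta2 := (min_le_left _ _).trans (min_le_left _ _)
  have heta3d : eta3 ≤ dl := (min_le_left _ _).trans (min_le_right _ _)
  have heta3r : eta3 ≤ r2 := min_le_right _ _
  have hpb : IsCPM (fun p p' : XM n b2 × SS n => dY (pin' p) (pin' p')) :=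
    hpull _ _ dY pin' hcpm hpin'c
  have hD := hmaxc _ _ _ (hdistc (XM n b2 × SS n)) hpb
  -- (2)
  obtain ⟨a, th, hb2a, hthc, hths, hthd⟩ := h1 n b2 _ eta3 hn hD heta3
  have hbsa : bs ≤ a := hb2.trans hb2a
  have hQc : Continuous (fun x => pin' (th x)) := hpin'c.comp hthc
  set Q : XM n a → ↥(Pin n bs la) := fun x => pin' (th x) with hQdef
  have hQ11 : ∀ x, (Q x).1.1 = sM n bs b2 (th x).1 := fun x => (hpin.2 _ _).1
  have hQ12 : ∀ x l, (((Q x).1.2 l : unitInterval) : ℝ) - 1 / 2 = la (sM n bs b2 (th x).1) *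
      (((((th x).2 : Cube (n + 2)) l : unitInterval) : ℝ) - 1 / 2) := fun x l => (hpin.2 _ _).2 l
  have hQs0 : Soft n dY (eta3 + 0) Q :=
    h9 n _ _ _ dY eta3 0 th pin' hcpm hthc hpin'c
      (hbas1 n n _ _ _ _ eta3 eta3 th le_rfl le_rfl hpb hD hthc (fun x y => le_max_right _ _) hths)
      (hpin's dY hcpm)
  have hQs : Soft n dY (2 * dl) Q :=
    hbas1 n n _ _ _ _ _ _ Q le_rfl (by linarith) hcpm hcpm hQc (fun x y => le_rfl) hQs0
  have hQclose : ∀ x : XM n a, dist (Q x).1.1 (sM n bs a x) ≤ r := by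
    intro x
    rw [hQ11, ← hsMc bs b2 a x hb2 hb2a]
    exact hsMb2m _ _ ((hthd x).trans heta3r)
  -- (3)
  set u : UM n → SS n := fun x => (th (si n a (g x))).2 with hudef
  have hu : ContinuousOn u K := by
    have h' : Continuous fun y : UM n => (th (si n a y)).2 :=
      continuous_snd.comp (hthc.comp (hsic a))
    exact h'.comp_continuousOn (hcd.contg.mono hcd.subK)
  obtain ⟨pp, hpp⟩ := hppex K u hcd.compK hu (fun x hx => hcd.supp x (si n bs x)
    (by rw [dist_self]; exact hcd.d1pos.le) hx)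
  have hpps : Soft n dY dl pp := by
    refine hPP a th u pp hb2a hthc ?_ (fun x => (hthd x).trans heta32) (fun x _ => rfl) hpp
    exact hbas1 n n _ _ _ _ _ _ th le_rfl heta32 (hdistc (XM n b2 × SS n)) hD hthc
      (fun x y => le_max_left _ _) hths
  -- (4)
  obtain ⟨c0, hc0, hPex⟩ := h4 n bs la K u d1 pp dY dl hn hcd.contla hcd.la0 hcd.la1 hcd.compK hu
    hcd.d1pos hcd.supp hpp hcpm hdl hpps
  obtain ⟨rQ, hrQ, hQm⟩ := huc2 (XM n a) _ dY Q hcpm hQc dl hdl
  obtain ⟨N, hN⟩ := exists_pow_lt_of_lt_one (lt_min hrQ hrz) (show (1 / 2 : ℝ) < 1 by norm_num)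
  set c : ℕ := max (max c0 (a + 1)) N with hcdef
  have hcc0 : c0 ≤ c := (le_max_left _ _).trans (le_max_left _ _)
  have hca : a + 1 ≤ c := (le_max_right _ _).trans (le_max_left _ _)
  have hcN : (1 : ℝ) / 2 ^ c ≤ min rQ rz := by
    have e1 : (1 : ℝ) / 2 ^ c = (1 / 2) ^ c := by rw [div_pow, one_pow]
    rw [e1]
    exact (pow_le_pow_of_le_one (by norm_num) (by norm_num) (le_max_right _ _)).trans hN.le
  obtain ⟨P, hPc, hPs, hP11, hPpp⟩ := hPex c hcc0
  have hac : a ≤ c := by omega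
  have hbc : bs ≤ c := hbsa.trans hac
  -- (5)
  have hsZa : ∀ x : ZM n c, sM n bs a (sZ n a c x) = sZ n bs c x := by
    intro x
    unfold sZ
    exact hsMc bs a c _ hbsa hac
  have hclose : ∀ x : ZM n c, dist (Q (sZ n a c x)).1.1 (P x).1.1 ≤ r := by
    intro x
    rw [hP11, ← hsZa]
    exact hQclose _
  have hsZc : Continuous (sZ n a c) := by
    unfold sZ
    exact (hsM a c hac).1.comp (hiZ c c (toZ n c 0)).1
  obtain ⟨Ga, hGa1, hGa2⟩ := Init_path (fun x => Q (sZ n a c x)) P (hQc.comp hsZc) hPc H C dN r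
    dsep dl rz (1 / 8) hHc hH hC (hrC.trans hr4) hr1 hsep hr2 hze hr3 hclose (by norm_num)
  have hrrz : r ≤ rz := hrC.trans hr2
  have hdl4 : dl ≤ 1 / 20 := by linarith
  have hEE := hE ↥(Pin n bs la) dY (fun p => ze p.1.1) a c Q P Ga (2 * dl) (1 / 8) (1 / 4) hcpm
    (fun y y' => le_max_right _ _) hac hQc hPc (by linarith) hQs hPs (by norm_num)
    (fun x y hxy => by
      have := hQm x y (hxy.trans (hcN.trans (min_le_left _ _)))
      linarith)
    hGa1 (fun x hx => ⟨(hGa2 x hx).1, (hGa2 x hx).2.1, fun t => by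
      have := (hGa2 x hx).2.2 t
      linarith⟩)
    (fun x hx => by
      have h1' := hze _ _ ((hclose x).trans hrrz)
      have h2' := (abs_le.1 h1').2
      show ze (Q (sZ n a c x)).1.1 < 1 / 4
      have h3' : ze (P x).1.1 < 1 / 8 := hx
      linarith)
  -- (6)
  set eta : ℝ := min (rQ / 4) (1 / 100) with hetadef
  have heta : 0 < eta := lt_min (by linarith) (by norm_num)
  have heta1 : 4 * eta ≤ rQ := by
    have := min_le_left (rQ / 4) (1 / 100)
    linarith
  have heta2' : eta ≤ 1 / 100 := min_le_right _ _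
  set de0 : ℝ := eta / ka with hde0def
  have hka0 : 0 < ka := by linarith
  have hde0 : 0 < de0 := div_pos heta hka0
  have hde1 : ka * de0 = eta := by
    rw [hde0def]
    field_simp
  have hdst : IsCPM (dst n bs ze a) :=
    hmaxc _ _ _ (hdistc (XM n a)) (habs (XM n a) (fun x => ze (sM n bs a x))
      (hcd.contze.comp (hsM bs a hbsa).1))
  obtain ⟨ra, hra, hdstm⟩ := huc1 (XM n a) _ hdst de0 hde0
  obtain ⟨Ha, Ca, dNa, hCa, hdNa, hHac, hHa, -⟩ := h7 n a hn
  set tau : ℝ := min de0 (min dNa (ra / (Ca + 1))) with htaudef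
  have hCa0 : 0 < Ca + 1 := by linarith
  have htau : 0 < tau := lt_min hde0 (lt_min hdNa (div_pos hra hCa0))
  have htau1 : tau ≤ de0 := min_le_left _ _
  have htau2 : tau ≤ dNa := (min_le_right _ _).trans (min_le_left _ _)
  have htau3 : (Ca + 1) * tau ≤ ra := by
    have h' : tau ≤ ra / (Ca + 1) := (min_le_right _ _).trans (min_le_right _ _)
    rw [le_div_iff₀ hCa0] at h'
    linarith
  obtain ⟨c', f, hcc', hfc, hfs, hf1, hf2⟩ := hEE (dst n bs ze a) tau hdst htau
  have hac' : a ≤ c' := by omega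
  have hbc' : bs ≤ c' := hbsa.trans hac'
  -- the functions `ze` along the way
  have hzeP : ∀ w : XM n c', |ze (P (rZ n c c' w)).1.1 - ze (sM n bs c' w)| ≤ dl := by
    intro w
    rw [hP11]
    exact hze _ _ ((Init_close h12 h15 h16 hn hbc hcc' w).trans (hcN.trans (min_le_right _ _)))
  have hzeQ : ∀ w : XM n c', |ze (Q (f w)).1.1 - ze (sM n bs a (f w))| ≤ dl := fun w =>
    hze _ _ ((hQclose (f w)).trans hrrz)
  have hzeQP : ∀ w : XM n c', |ze (Q (f w)).1.1 - ze (P (rZ n c c' w)).1.1| ≤ ke * (2 * dl) :=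
    fun w => (le_max_right _ _).trans (hf1 w)
  -- (7)
  obtain ⟨Gb, hGb1, hGb2⟩ := Init_near (ze := ze) f (sM n a c') hfc (hsM a c' hac').1 Ha Ca dNa tau
    de0 ra hHac hHa hCa htau2 htau3 hdstm
    {w | 1 / 4 + 2 * ke * dl + dl ≤ ze (sM n bs c' w)} (fun w hw => by
      refine le_trans (le_max_left _ _) (hf2 w ?_)
      have h1' := (abs_le.1 (hzeP w)).1
      have h2' : 1 / 4 + 2 * ke * dl + dl ≤ ze (sM n bs c' w) := hw
      show 1 / 4 + ke * (2 * dl) ≤ ze (P (rZ n c c' w)).1.1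
      linarith)
  refine ⟨a, c', f, fun x => (th x).2, de0, 1 / 4 + 2 * ke * dl + dl, 2 * ke * dl + 2 * dl, eta,
    ⟨hbsa, hac', hde0, by nlinarith, hfc, ?_, ⟨Gb, hGb1, hGb2⟩, ?_⟩, hde0, heta, hde1.le, ?_,
    continuous_snd.comp hthc, ?_⟩
  · exact hbas1 n n _ _ _ _ _ _ f le_rfl htau1 hdst hdst hfc (fun x y => le_rfl) hfs
  · intro w _
    have e1 := abs_le.1 (hzeP w)
    have e2 := abs_le.1 (hzeQ w)
    have e3 := abs_le.1 (hzeQP w)
    rw [abs_le]
    constructor <;> linarith [e1.1, e1.2, e2.1, e2.2, e3.1, e3.2]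
  · rw [hde1]
    nlinarith
  -- (8)
  · intro x y hxy
    have e1 : dY (Q (si n a y)) (Q (f (si n c' x))) ≤ dl := hQm _ _ (hxy.trans heta1)
    have e2 := hf1 (si n c' x)
    have e3 : rZ n c c' (si n c' x) = pZ n c (si n (c + 1) x) := by
      unfold rZ
      rw [hsis (c + 1) c' x hcc']
    rw [e3] at e2
    have e4 := hPpp x
    have e5 : dY (Q (si n a y)) (pp x) ≤ (2 * ke + 2) * dl := by
      have t1 := hcpm.tri (Q (si n a y)) (Q (f (si n c' x))) (P (pZ n c (si n (c + 1) x)))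
      have t2 := hcpm.tri (Q (si n a y)) (P (pZ n c (si n (c + 1) x))) (pp x)
      linarith
    have e6 : dist (Q (si n a y)) (pp x) ≤ (2 * ke + 2) * dl := (le_max_left _ _).trans e5
    rw [Subtype.dist_eq, Prod.dist_eq] at e6
    have e7 := (le_max_left _ _).trans e6
    have e8 := (le_max_right _ _).trans e6
    have e9 := hQclose (si n a y)
    rw [hsis bs a y hbsa] at e9
    have e10 : (pp x).1.1 = si n bs x := (hpp.2 x).1
    rw [e10] at e7
    have hrdl : r ≤ dl := hrC.trans hr3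
    refine ⟨?_, ?_⟩
    · have t1 := dist_triangle_left (si n bs y) (si n bs x) (Q (si n a y)).1.1
      linarith
    · intro hlx l
      have e11 : dist ((Q (si n a y)).1.2 l) ((pp x).1.2 l) ≤ (2 * ke + 2) * dl :=
        (dist_le_pi_dist _ _ l).trans e8
      rw [Subtype.dist_eq, Real.dist_eq] at e11
      have e12 := hQ12 (si n a y) l
      have e13 := (hpp.2 x).2 l
      rw [hQ11] at e7
      have e14 : |la (sM n bs b2 (th (si n a y)).1) - la (si n bs x)| ≤ e :=
        hla _ _ (e7.trans (hk2.trans hdl2))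
      refine Init_last (L := la (sM n bs b2 (th (si n a y)).1))
        (D := (2 * ke + 2) * dl) (lx := la (si n bs x))
        (unitInterval.nonneg (((th (si n a y)).2 : Cube (n + 2)) l))
        (unitInterval.le_one (((th (si n a y)).2 : Cube (n + 2)) l)) hlx ?_ (hk2.trans hdl1) e14
      · rw [← e12]
        have e15 : -(la (si n bs x) * (((((th (si n a (g x))).2 : Cube (n + 2)) l : unitInterval) : ℝ)
            - 1 / 2)) = (((pp x).1.2 l : unitInterval) : ℝ) - 1 / 2 := by
          rw [e13]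
          ring
        rw [e15]
        have e16 : (((Q (si n a y)).1.2 l : unitInterval) : ℝ) - 1 / 2 -
            ((((pp x).1.2 l : unitInterval) : ℝ) - 1 / 2) =
            (((Q (si n a y)).1.2 l : unitInterval) : ℝ) - (((pp x).1.2 l : unitInterval) : ℝ) := by
          ring
        rw [e16]
        exact e11

end M202

end

section

/-!
MP_202a65_gt, item LensCollapse (helper61): the collapse of a cylinder onto the reduced lens is
fine soft.
-/

set_option linter.unusedSectionVars false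

open Set Topology unitInterval

namespace M202

/-- the cut-off function -/
noncomputable def lensMu {k : ℕ} (c : ℝ) (y : Cube k) : I :=
  projIcc 0 1 zero_le_one ((1 / 2 - dist y (ctr k)) / c)

theorem lensMu_cont {k : ℕ} (c : ℝ) : Continuous (lensMu c : Cube k → I) := by
  unfold lensMu
  refine continuous_projIcc.comp ?_
  exact (continuous_const.sub (continuous_id.dist continuous_const)).div_const c

theorem lensMu_bd {k : ℕ} (c : ℝ) {y : Cube k} (hy : y ∈ bd k) : lensMu c y = 0 := by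
  unfold lensMu
  rw [(v_mem_bd y).mp hy]
  simp

theorem lensMu_one {k : ℕ} {c : ℝ} (hc : 0 < c) {y : Cube k}
    (hy : c ≤ 1 / 2 - dist y (ctr k)) : lensMu c y = 1 := by
  unfold lensMu
  exact projIcc_of_right_le zero_le_one ((one_le_div hc).mpr hy)

/-- the contraction factor -/
noncomputable def lensF {k : ℕ} (c : ℝ) (w : I) (y : Cube k) : I := σ (w * σ (lensMu c y))

theorem lensF_cont {k : ℕ} (c : ℝ) :
    Continuous (fun p : I × Cube k => lensF c p.1 p.2) := by
  unfold lensF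
  have := lensMu_cont (k := k) c
  exact continuous_symm.comp (continuous_fst.mul (continuous_symm.comp (this.comp continuous_snd)))

theorem lensF_zero {k : ℕ} (c : ℝ) (y : Cube k) : lensF c 0 y = 1 := by
  unfold lensF
  rw [zero_mul, symm_zero]

theorem lensF_one {k : ℕ} (c : ℝ) (y : Cube k) : lensF c 1 y = lensMu c y := by
  unfold lensF
  rw [one_mul, symm_symm]

theorem lensF_mu {k : ℕ} {c : ℝ} {w : I} {y : Cube k} (h : lensMu c y = 1) :
    lensF c w y = 1 := by
  unfold lensF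
  rw [h, symm_one, mul_zero, symm_zero]

/-- small fibres near the boundary -/
theorem lens_small {k : ℕ} {Z : Type} [TopologicalSpace Z] (D : Z → Z → ℝ) (hD : IsCPM D)
    (j : Cube k × I → Z) (hj : Continuous j) (hbd : ∀ y ∈ bd k, ∀ t t', j (y, t) = j (y, t'))
    (eta : ℝ) (heta : 0 < eta) :
    ∃ c : ℝ, 0 < c ∧ ∀ y : Cube k, 1 / 2 - dist y (ctr k) < c →
      ∀ t t', D (j (y, t)) (j (y, t')) ≤ eta := by
  have hcont : Continuous (fun p : Cube k × (I × I) => D (j (p.1, p.2.1)) (j (p.1, p.2.2))) := by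
    refine hD.cont.comp ((hj.comp ?_).prodMk (hj.comp ?_))
    · fun_prop
    · fun_prop
  have hcl : IsClosed {p : Cube k × (I × I) | eta ≤ D (j (p.1, p.2.1)) (j (p.1, p.2.2))} :=
    isClosed_le continuous_const hcont
  rcases eq_empty_or_nonempty {p : Cube k × (I × I) | eta ≤ D (j (p.1, p.2.1)) (j (p.1, p.2.2))}
    with hS | hS
  · refine ⟨1, one_pos, fun y _ t t' => ?_⟩
    by_contra hcon
    push Not at hcon
    have : (y, (t, t')) ∈ {p : Cube k × (I × I) | eta ≤ D (j (p.1, p.2.1)) (j (p.1, p.2.2))} :=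
      hcon.le
    rw [hS] at this
    exact this
  · have hdc : Continuous (fun p : Cube k × (I × I) => 1 / 2 - dist p.1 (ctr k)) :=
      continuous_const.sub (continuous_fst.dist continuous_const)
    obtain ⟨p0, hp0, hmin⟩ := hcl.isCompact.exists_isMinOn hS hdc.continuousOn
    have hpos : 0 < 1 / 2 - dist p0.1 (ctr k) := by
      rcases (sub_nonneg.mpr (v_dist_half p0.1)).eq_or_lt with h | h
      · exfalso
        have hb : p0.1 ∈ bd k := (v_mem_bd _).mpr (by linarith)
        have h1 : eta ≤ D (j (p0.1, p0.2.1)) (j (p0.1, p0.2.2)) := hp0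
        rw [hbd p0.1 hb p0.2.1 p0.2.2, hD.self] at h1
        linarith
      · exact h
    refine ⟨1 / 2 - dist p0.1 (ctr k), hpos, fun y hy t t' => ?_⟩
    by_contra hcon
    push Not at hcon
    have hm : (y, (t, t')) ∈ {p : Cube k × (I × I) | eta ≤ D (j (p.1, p.2.1)) (j (p.1, p.2.2))} :=
      hcon.le
    have h2 := isMinOn_iff.mp hmin _ hm
    simp only at h2
    linarith

theorem pr_LensCollapse (h1 : S_ASDR) (h2 : S_Basics) (h3 : S_AdjDesc) (_h4 : S_UC) :
    S_LensCollapse := by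
  intro n k C Z Z1 _ _ _ _ _ _ _ _ _ rho i j i1 j1 u hrho hadj hadj1 hu hui huj
  intro D hD
  refine h2.2.1 n Z1 Z D 0 u fun eta heta => ?_
  have hjA : ∀ y : Cube k, ∀ t : I, (t = 0 ∨ y ∈ bd k) → j (y, t) = i (rho y) :=
    fun y t h => hadj.agree (y, t) h
  have hj1A : ∀ y : Cube k, j1 (y, 0) = i1 (rho y) := fun y => hadj1.agree (y, 0) rfl
  obtain ⟨c, hc, hsmall⟩ := lens_small D hD j hadj.contj (fun y hy t t' => by
    rw [hjA y t (Or.inr hy), hjA y t' (Or.inr hy)]) eta heta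
  have hFc := lensF_cont (k := k) c
  -- the section
  obtain ⟨s, hs, hsi, hsj⟩ := (h3 C (Cube k × I) Z Z1 _ _ i j hadj).1 i1
    (fun p => j1 (p.1, p.2 * lensMu c p.1)) hadj1.conti
    (hadj1.contj.comp (continuous_fst.prodMk
      (continuous_snd.mul ((lensMu_cont c).comp continuous_fst)))) (by
      rintro ⟨y, t⟩ (ht | hy)
      · have ht' : t = 0 := ht
        subst ht'
        simp only [zero_mul]
        exact hj1A y
      · have hy' : y ∈ bd k := hy
        simp only [lensMu_bd c hy', mul_zero]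
        exact hj1A y)
  -- the homotopy upstairs
  obtain ⟨K, hK, hKi, hKj⟩ := (h3 C (Cube k × I) Z1 Z1 _ _ i1 j1 hadj1).2.1
    (fun p => i1 p.2) (fun p => j1 (p.2.1, p.2.2 * lensF c p.1 p.2.1))
    (hadj1.conti.comp continuous_snd)
    (hadj1.contj.comp ((continuous_fst.comp continuous_snd).prodMk
      ((continuous_snd.comp continuous_snd).mul
        (hFc.comp (continuous_fst.prodMk (continuous_fst.comp continuous_snd)))))) (by
      rintro w ⟨y, t⟩ ht
      have ht' : t = 0 := ht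
      subst ht'
      simp only [zero_mul]
      exact hj1A y)
  -- the homotopy downstairs
  obtain ⟨G, hG, hGi, hGj⟩ := (h3 C (Cube k × I) Z Z _ _ i j hadj).2.1
    (fun p => i p.2) (fun p => j (p.2.1, p.2.2 * lensF c p.1 p.2.1))
    (hadj.conti.comp continuous_snd)
    (hadj.contj.comp ((continuous_fst.comp continuous_snd).prodMk
      ((continuous_snd.comp continuous_snd).mul
        (hFc.comp (continuous_fst.prodMk (continuous_fst.comp continuous_snd)))))) (by
      rintro w ⟨y, t⟩ (ht | hy)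
      · have ht' : t = 0 := ht
        subst ht'
        simp only [zero_mul]
        exact hjA y 0 (Or.inl rfl)
      · exact hjA y _ (Or.inr hy))
  refine h1 n Z1 Z D eta u s K G hD hu hs hK hG ?_ ?_ ?_ ?_ ?_ ?_
  · intro a
    rcases hadj1.surj a with ⟨x, rfl⟩ | ⟨⟨y, t⟩, rfl⟩
    · exact hKi 0 x
    · rw [hKj]
      simp only [lensF_zero, mul_one]
  · intro a
    rcases hadj1.surj a with ⟨x, rfl⟩ | ⟨⟨y, t⟩, rfl⟩
    · rw [hKi, hui, hsi]
    · rw [hKj, huj, hsj]
      simp only [lensF_one]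
  · intro b
    rcases hadj.surj b with ⟨x, rfl⟩ | ⟨⟨y, t⟩, rfl⟩
    · exact hGi 0 x
    · rw [hGj]
      simp only [lensF_zero, mul_one]
  · intro b
    rcases hadj.surj b with ⟨x, rfl⟩ | ⟨⟨y, t⟩, rfl⟩
    · rw [hGi, hsi, hui]
    · rw [hGj, hsj, huj]
      simp only [lensF_one]
  · intro w a
    rcases hadj1.surj a with ⟨x, rfl⟩ | ⟨⟨y, t⟩, rfl⟩
    · rw [hKi, hui, hGi]
    · rw [hKj, huj, huj, hGj]
  · intro w b
    rcases hadj.surj b with ⟨x, rfl⟩ | ⟨⟨y, t⟩, rfl⟩
    · rw [hGi]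
      simp only [hD.self]
      exact heta.le
    · rw [hGj]
      simp only
      by_cases hy : c ≤ 1 / 2 - dist y (ctr k)
      · rw [lensF_mu (lensMu_one hc hy), mul_one, hD.self]
        exact heta.le
      · exact hsmall y (not_le.mp hy) _ _

end M202

end

section

/-!
MP_202a65_gt, item LocFin (helper57): locally finite families of charts.
-/

open Set Topology unitInterval Filter

namespace M202

universe u

theorem LocFin_compact (n : ℕ) (hn : 1 ≤ n) : CompactSpace (UM n) := by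
  have h := (pr_MbFacts pr_Lev pr_Med pr_Grid n hn).1
  have h5 : IsClosed (Mu n) := isClosed_iInter (fun b => (h b).2.2.1)
  exact isCompact_iff_compactSpace.1 h5.isCompact

theorem LocFin_nonempty (n : ℕ) : Nonempty (UM n) :=
  ⟨⟨0, mem_iInter.2 (fun b => zero_mem_Mb n b)⟩⟩

/-- restriction of a chart to an open subset -/
theorem LocFin_restrict {X : Type u} [TopologicalSpace X] {n : ℕ} {O O' : Set X}
    {phi : X → UM n} {inv : UM n → X} (h : IsChart n O phi inv) (hO' : IsOpen O')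
    (hsub : O' ⊆ O) : IsChart n O' phi inv := by
  have himg : phi '' O' = phi '' O ∩ inv ⁻¹' O' := by
    ext y
    constructor
    · rintro ⟨x, hx, rfl⟩
      refine ⟨⟨x, hsub hx, rfl⟩, ?_⟩
      rw [mem_preimage, h.left x (hsub hx)]
      exact hx
    · rintro ⟨⟨x, hx, rfl⟩, hy⟩
      rw [mem_preimage, h.left x hx] at hy
      exact ⟨x, hy, rfl⟩
  refine ⟨hO', h.cont.mono hsub, ?_, h.contInv.mono (image_mono hsub), fun x hx =>
    h.left x (hsub hx)⟩
  rw [himg]
  exact h.contInv.isOpen_inter_preimage h.openImage hO'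

theorem LocFin_empty {X : Type u} [TopologicalSpace X] (n : ℕ) (phi : X → UM n)
    (inv : UM n → X) : IsChart n (∅ : Set X) phi inv := by
  refine ⟨isOpen_empty, continuousOn_empty _, ?_, ?_, ?_⟩
  · rw [image_empty]; exact isOpen_empty
  · rw [image_empty]; exact continuousOn_empty _
  · intro x hx; exact absurd hx (notMem_empty x)

/-- compact neighbourhoods inside a chart -/
theorem LocFin_nhd {X : Type u} [MetricSpace X] {n : ℕ} (hn : 1 ≤ n) {O : Set X}
    {phi : X → UM n} {inv : UM n → X} (h : IsChart n O phi inv) {x : X} (hx : x ∈ O) :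
    ∃ K : Set X, IsCompact K ∧ K ⊆ O ∧ x ∈ interior K := by
  have := LocFin_compact n hn
  have hmem : phi '' O ∈ 𝓝 (phi x) := h.openImage.mem_nhds (mem_image_of_mem phi hx)
  obtain ⟨L, hL, hLO, hLc⟩ := local_compact_nhds hmem
  refine ⟨inv '' L, hLc.image_of_continuousOn (h.contInv.mono hLO), ?_, ?_⟩
  · rintro _ ⟨y, hy, rfl⟩
    obtain ⟨z, hz, rfl⟩ := hLO hy
    rw [h.left z hz]
    exact hz
  · rw [mem_interior]
    refine ⟨O ∩ phi ⁻¹' (interior L), ?_, h.cont.isOpen_inter_preimage h.isOpen isOpen_interior,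
      hx, mem_interior_iff_mem_nhds.2 hL⟩
    rintro z ⟨hz, hzL⟩
    exact ⟨phi z, interior_subset hzL, h.left z hz⟩

/-- an exhaustion by compact sets -/
theorem LocFin_exh {X : Type u} [MetricSpace X] [SecondCountableTopology X] {U : Set X}
    (hU : IsOpen U) (h : ∀ x ∈ U, ∃ K : Set X, IsCompact K ∧ K ⊆ U ∧ x ∈ interior K) :
    ∃ K : ℕ → Set X, K 0 = ∅ ∧ (∀ j, IsCompact (K j)) ∧ (∀ j, K j ⊆ interior (K (j + 1))) ∧
      (⋃ j, K j) = U := by
  have hw : WeaklyLocallyCompactSpace ↥U := by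
    refine ⟨fun x => ?_⟩
    obtain ⟨K, hK, hKU, hxK⟩ := h x.1 x.2
    refine ⟨Subtype.val ⁻¹' K, ?_, ?_⟩
    · rw [Topology.IsInducing.subtypeVal.isCompact_iff, Subtype.image_preimage_coe,
        inter_eq_self_of_subset_right hKU]
      exact hK
    · exact continuous_subtype_val.continuousAt.preimage_mem_nhds
        (mem_interior_iff_mem_nhds.1 hxK)
  let E : CompactExhaustion ↥U := (default : CompactExhaustion ↥U).shiftr
  refine ⟨fun j => Subtype.val '' (E j), ?_, ?_, ?_, ?_⟩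
  · have : E 0 = (∅ : Set ↥U) := rfl
    simp only [this, image_empty]
  · intro j
    exact (E.isCompact j).image continuous_subtype_val
  · intro j
    have h1 : (Subtype.val '' (E j) : Set X) ⊆ Subtype.val '' (interior (E (j + 1))) :=
      image_mono (E.subset_interior_succ j)
    refine h1.trans (interior_maximal (image_mono interior_subset) ?_)
    exact hU.isOpenMap_subtype_val _ isOpen_interior
  · rw [← image_iUnion, E.iUnion_eq, image_univ, Subtype.range_coe]

theorem pr_LocFin : S_LocFin.{u} := by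
  classical
  intro n X _ _ _ U hn hU hch
  have hnb : ∀ x ∈ U, ∀ W : Set X, IsOpen W → x ∈ W →
      ∃ (O C : Set X) (phi : X → UM n) (inv : UM n → X), IsChart n O phi inv ∧ IsCompact C ∧
        C ⊆ O ∧ x ∈ interior C ∧ IsCompact (closure O) ∧ closure O ⊆ W := by
    intro x hx W hW hxW
    obtain ⟨O, phi, inv, hO, hxO, hOW⟩ := hch x hx W hW hxW
    obtain ⟨K, hK, hKO, hxK⟩ := LocFin_nhd hn hO hxO
    have hO2 : IsChart n (interior K) phi inv :=
      LocFin_restrict hO isOpen_interior (interior_subset.trans hKO)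
    obtain ⟨C, hC, hCO, hxC⟩ := LocFin_nhd hn hO2 hxK
    have hcl : closure (interior K) ⊆ K := closure_minimal interior_subset hK.isClosed
    exact ⟨interior K, C, phi, inv, hO2, hC, hCO, hxC, hK.of_isClosed_subset isClosed_closure hcl,
      (hcl.trans hKO).trans hOW⟩
  obtain ⟨K, hK0, hKc, hKs, hKU⟩ := LocFin_exh hU (by
    intro x hx
    obtain ⟨O, C, phi, inv, hO, hC, hCO, hxC, -, hcl⟩ := hnb x hx U hU hx
    exact ⟨C, hC, (hCO.trans subset_closure).trans hcl, hxC⟩)
  have hKmono : Monotone K := monotone_nat_of_le_succ fun j => (hKs j).trans interior_subset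
  have hKsub : ∀ j, K j ⊆ U := fun j => by rw [← hKU]; exact subset_iUnion K j
  set A : ℕ → Set X := fun j => K (j + 1) \ interior (K j) with hA
  have hAc : ∀ j, IsCompact (A j) := fun j => (hKc (j + 1)).diff isOpen_interior
  have hAU : ∀ j, A j ⊆ U := fun j => sdiff_subset.trans (hKsub _)
  set V : ℕ → Set X := fun j => interior (K (j + 2)) \ K (j - 1) with hV
  have hVo : ∀ j, IsOpen (V j) := fun j => isOpen_interior.sdiff (hKc _).isClosed
  have hAV : ∀ j, A j ⊆ V j := by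
    intro j x hx
    refine ⟨hKs _ hx.1, ?_⟩
    intro hx'
    rcases j with _ | j
    · have h0 : K (0 - 1) = ∅ := hK0
      rw [h0] at hx'
      exact hx'
    · exact hx.2 (hKs j hx')
  have hdat : ∀ (j : ℕ) (x : ↥(A j)), ∃ (O C : Set X) (phi : X → UM n) (inv : UM n → X),
      IsChart n O phi inv ∧ IsCompact C ∧
        C ⊆ O ∧ x.1 ∈ interior C ∧ IsCompact (closure O) ∧ closure O ⊆ V j :=
    fun j x => hnb x.1 (hAU j x.2) (V j) (hVo j) (hAV j x.2)
  choose O C phi inv hO hC hCO hxC hclc hclV using hdat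
  have hcov : ∀ j, ∃ t : Finset ↥(A j), A j ⊆ ⋃ x ∈ t, C j x := by
    intro j
    obtain ⟨t, ht⟩ := (hAc j).elim_nhds_subcover' (fun x hx => C j ⟨x, hx⟩)
      (fun x hx => mem_interior_iff_mem_nhds.1 (hxC j ⟨x, hx⟩))
    exact ⟨t, ht⟩
  choose t ht using hcov
  obtain ⟨e, he⟩ := exists_injective_nat (Σ j, ↥(t j))
  have hpi : ∀ s l, Function.partialInv e l = some s ↔ e s = l := fun s l =>
    he.isPartialInv s l
  obtain ⟨u0⟩ := LocFin_nonempty n
  let O' : Option (Σ j, ↥(t j)) → Set X := fun o => o.elim ∅ (fun s => O s.1 s.2.1)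
  let C' : Option (Σ j, ↥(t j)) → Set X := fun o => o.elim ∅ (fun s => C s.1 s.2.1)
  let phi' : Option (Σ j, ↥(t j)) → X → UM n := fun o => o.elim (fun _ => u0)
    (fun s => phi s.1 s.2.1)
  let inv' : Option (Σ j, ↥(t j)) → UM n → X := fun o => o.elim (fun _ => Classical.arbitrary X)
    (fun s => inv s.1 s.2.1)
  have hclU : ∀ o, closure (O' o) ⊆ U := by
    intro o
    rcases o with _ | s
    · simp [O']
    · refine (hclV s.1 s.2.1).trans ?_
      exact (sdiff_subset.trans interior_subset).trans (hKsub _)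
  have hCO' : ∀ o, C' o ⊆ O' o := by
    intro o
    rcases o with _ | s
    · exact empty_subset _
    · exact hCO s.1 s.2.1
  have hch' : ∀ o, IsChart n (O' o) (phi' o) (inv' o) := by
    intro o
    rcases o with _ | s
    · exact LocFin_empty n _ _
    · exact hO s.1 s.2.1
  have hC' : ∀ o, IsCompact (C' o) := by
    intro o
    rcases o with _ | s
    · exact isCompact_empty
    · exact hC s.1 s.2.1
  have hclc' : ∀ o, IsCompact (closure (O' o)) := by
    intro o
    rcases o with _ | s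
    · have h0 : closure (O' none) = ∅ := closure_empty
      rw [h0]
      exact isCompact_empty
    · exact hclc s.1 s.2.1
  refine ⟨fun l => O' (Function.partialInv e l), fun l => C' (Function.partialInv e l),
    fun l => phi' (Function.partialInv e l), fun l => inv' (Function.partialInv e l),
    fun l => hch' _, fun l => hC' _, fun l => hCO' _, fun l => hclc' _, fun l => hclU _, ?_, ?_⟩
  · apply Subset.antisymm
    · refine iUnion_subset fun l => ?_
      exact (hCO' _).trans (subset_closure.trans (hclU _))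
    · intro x hx
      rw [← hKU, mem_iUnion] at hx
      have hm := Nat.find_spec hx
      have hmin := @Nat.find_min _ _ hx
      generalize Nat.find hx = m at hm hmin
      rcases m with _ | j
      · rw [hK0] at hm
        exact absurd hm (notMem_empty x)
      · have hxA : x ∈ A j := ⟨hm, fun h => hmin (Nat.lt_succ_self j) (interior_subset h)⟩
        have h1 := ht j hxA
        rw [mem_iUnion₂] at h1
        obtain ⟨y, hy, hxy⟩ := h1
        rw [mem_iUnion]
        refine ⟨e ⟨j, ⟨y, hy⟩⟩, ?_⟩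
        rw [(hpi _ _).2 rfl]
        exact hxy
  · intro x hx
    rw [← hKU, mem_iUnion] at hx
    obtain ⟨j, hj⟩ := hx
    refine ⟨interior (K (j + 1)), isOpen_interior, hKs j hj, ?_⟩
    have hfin : {s : Σ j, ↥(t j) | s.1 ≤ j + 1}.Finite := by
      have : {s : Σ j, ↥(t j) | s.1 ≤ j + 1} ⊆
          ⋃ i ∈ Finset.range (j + 2), range (fun y : ↥(t i) => (⟨i, y⟩ : Σ j, ↥(t j))) := by
        rintro ⟨i, y⟩ hi
        rw [mem_iUnion₂]
        exact ⟨i, Finset.mem_range.2 (Nat.lt_succ_of_le hi), ⟨y, rfl⟩⟩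
      exact Set.Finite.subset (Set.Finite.biUnion (Finset.finite_toSet _)
        (fun i _ => Set.finite_range _)) this
    obtain ⟨N, hN⟩ := (hfin.image e).bddAbove
    refine ⟨N + 1, fun l hl => ?_⟩
    have hlN : ∀ s, Function.partialInv e l = some s → j + 1 < s.1 := by
      intro s hs
      by_contra hc
      have h1 : e s ≤ N := hN (mem_image_of_mem e (not_lt.1 hc))
      rw [(hpi s l).1 hs] at h1
      omega
    show Disjoint (interior (K (j + 1))) (O' (Function.partialInv e l))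
    rcases hq : Function.partialInv e l with _ | s
    · exact disjoint_empty _
    · have h1 := hlN s hq
      have h2 : O s.1 s.2.1 ⊆ V s.1 := subset_closure.trans (hclV s.1 s.2.1)
      refine Disjoint.mono_right h2 ?_
      rw [Set.disjoint_left]
      intro z hz hzV
      exact hzV.2 (hKmono (by omega) (interior_subset hz))

end M202

end

section

/-!
MP_202a65_gt: Mioduszewski's lemma for the tower M_b (item Mio).
-/

set_option autoImplicit false

open Set Topology unitInterval Filter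

namespace M202

/-- the approximations of the limit map -/
noncomputable def mioU (n : ℕ) (c : ℕ → ℕ) (F : ∀ m, XM n (c (m + 1)) → XM n (c m)) (m j : ℕ)
    (x : UM n) : XM n (c j) := sM n (c j) (c m) (F m (si n (c (m + 1)) x))

/-- the data of the lemma -/
structure MioData (n : ℕ) (c : ℕ → ℕ) (F : ∀ m, XM n (c (m + 1)) → XM n (c m)) (eta : ℝ) :
    Prop where
  eta0 : 0 < eta
  mono : ∀ m, c m ≤ c (m + 1)
  tend : Tendsto c atTop atTop
  cont : ∀ m, Continuous (F m)
  h1 : ∀ m j, j ≤ m → ∀ y : XM n (c (m + 2)),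
      dist (sM n (c j) (c m) (F m (F (m + 1) y))) (sM n (c j) (c (m + 2)) y) ≤ eta / 2 ^ m
  h2 : ∀ m j, j ≤ m → ∀ y : XM n (c (m + 3)),
      dist (sM n (c j) (c m) (F m (F (m + 1) (F (m + 2) y))))
        (sM n (c j) (c m) (F m (sM n (c (m + 1)) (c (m + 3)) y))) ≤ eta / 2 ^ m
  sid : ∀ b (x : XM n b), sM n b b x = x
  scomp : ∀ b b' b'' (x : XM n b''), b ≤ b' → b' ≤ b'' →
    sM n b b' (sM n b' b'' x) = sM n b b'' x
  scont : ∀ b b', b ≤ b' → Continuous (sM n b b')
  sicont : ∀ b, Continuous (si n b)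
  sicomp : ∀ b b' (x : UM n), b ≤ b' → sM n b b' (si n b' x) = si n b x
  sisurj : ∀ y : ∀ b, XM n b, (∀ b, sM n b (b + 1) (y (b + 1)) = y b) →
    ∃ x : UM n, ∀ b, si n b x = y b
  siinj : ∀ x x' : UM n, (∀ b, si n b x = si n b x') → x = x'
  comp : ∀ b, CompactSpace (XM n b)
  compU : CompactSpace (UM n)

section

variable {n : ℕ} {c : ℕ → ℕ} {F : ∀ m, XM n (c (m + 1)) → XM n (c m)} {eta : ℝ}

theorem MioData.cmono (d : MioData n c F eta) : Monotone c := monotone_nat_of_le_succ d.mono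

theorem mio_one (d : MioData n c F eta) {m m' j : ℕ} (hm : m' = m + 2) (hj : j ≤ m)
    (w : XM n (c (m' + 1))) :
    dist (sM n (c j) (c m) (F m (sM n (c (m + 1)) (c (m' + 1)) w)))
      (sM n (c j) (c m') (F m' w)) ≤ 2 * (eta / 2 ^ m) := by
  subst hm
  have e1 := d.h2 m j hj w
  have e2 := d.h1 m j hj (F (m + 2) w)
  rw [dist_comm] at e1
  have := dist_triangle (sM n (c j) (c m) (F m (sM n (c (m + 1)) (c (m + 2 + 1)) w)))
    (sM n (c j) (c m) (F m (F (m + 1) (F (m + 2) w)))) (sM n (c j) (c (m + 2)) (F (m + 2) w))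
  linarith

theorem mio_tel (d : MioData n c F eta) (k : ℕ) : ∀ {m m' j : ℕ}, m' = m + 2 * k → j ≤ m →
    ∀ w : XM n (c (m' + 1)),
    dist (sM n (c j) (c m) (F m (sM n (c (m + 1)) (c (m' + 1)) w)))
      (sM n (c j) (c m') (F m' w)) ≤ 4 * (eta / 2 ^ m) := by
  induction k with
  | zero =>
    intro m m' j hm hj w
    have hm' : m' = m := by omega
    subst hm'
    rw [d.sid, dist_self]
    have := d.eta0
    positivity
  | succ k ih =>
    intro m m' j hm hj w
    have hm2 : m' = (m + 2) + 2 * k := by omega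
    have e1 := mio_one d (rfl : m + 2 = m + 2) hj (sM n (c (m + 2 + 1)) (c (m' + 1)) w)
    have e2 := ih hm2 (by omega : j ≤ m + 2) w
    rw [d.scomp _ _ _ _ (d.cmono (by omega)) (d.cmono (by omega))] at e1
    have h3 : 4 * (eta / 2 ^ (m + 2)) = eta / 2 ^ m := by
      rw [pow_add]
      ring
    have h4 : 0 < eta / 2 ^ m := by
      have := d.eta0
      positivity
    have := dist_triangle (sM n (c j) (c m) (F m (sM n (c (m + 1)) (c (m' + 1)) w)))
      (sM n (c j) (c (m + 2)) (F (m + 2) (sM n (c (m + 2 + 1)) (c (m' + 1)) w)))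
      (sM n (c j) (c m') (F m' w))
    linarith

theorem mio_telU (d : MioData n c F eta) {k m m' j : ℕ} (hm : m' = m + 2 * k) (hj : j ≤ m)
    (x : UM n) : dist (mioU n c F m j x) (mioU n c F m' j x) ≤ 4 * (eta / 2 ^ m) := by
  have h := mio_tel d k hm hj (si n (c (m' + 1)) x)
  rw [d.sicomp _ _ _ (d.cmono (by omega))] at h
  exact h

theorem mioU_comp (d : MioData n c F eta) {j j' m : ℕ} (h : j ≤ j') (h' : j' ≤ m) (x : UM n) :
    sM n (c j) (c j') (mioU n c F m j' x) = mioU n c F m j x :=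
  d.scomp _ _ _ _ (d.cmono h) (d.cmono h')

theorem mioU_cont (d : MioData n c F eta) {j m : ℕ} (h : j ≤ m) :
    Continuous (mioU n c F m j) :=
  (d.scont _ _ (d.cmono h)).comp ((d.cont m).comp (d.sicont _))

theorem mio_small (d : MioData n c F eta) (p : ℕ) :
    Tendsto (fun i : ℕ => 4 * (eta / 2 ^ (2 * i + p))) atTop (𝓝 0) := by
  have h1 : Tendsto (fun i : ℕ => ((1 / 4 : ℝ)) ^ i) atTop (𝓝 0) :=
    tendsto_pow_atTop_nhds_zero_of_lt_one (by norm_num) (by norm_num)
  have h2 : (fun i : ℕ => 4 * (eta / 2 ^ (2 * i + p))) =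
      fun i : ℕ => (4 * eta / 2 ^ p) * (1 / 4 : ℝ) ^ i := by
    funext i
    rw [pow_add, pow_mul, one_div, inv_pow]
    norm_num
    ring
  rw [h2]
  simpa using h1.const_mul (4 * eta / 2 ^ p)

theorem mio_lim (d : MioData n c F eta) (p j : ℕ) (x : UM n) :
    ∃ l : XM n (c j), Tendsto (fun i => mioU n c F (2 * i + p) j x) atTop (𝓝 l) := by
  have := d.comp (c j)
  have hc : CauchySeq (fun i => mioU n c F (2 * i + p) j x) := by
    rw [Metric.cauchySeq_iff']
    intro e he
    have h1 : ∀ᶠ i : ℕ in atTop, 4 * (eta / 2 ^ (2 * i + p)) < e :=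
      (mio_small d p).eventually_lt_const he
    obtain ⟨N, hN1, hN2⟩ := (h1.and (eventually_ge_atTop j)).exists
    refine ⟨N, fun i hi => ?_⟩
    rw [dist_comm]
    refine lt_of_le_of_lt (mio_telU d (k := i - N) (m := 2 * N + p) (m' := 2 * i + p) ?_ ?_ x) hN1
    · omega
    · omega
  exact cauchySeq_tendsto_of_complete hc

/-- the limit map of the approximations of the parity p -/
def MioLim (n : ℕ) (c : ℕ → ℕ) (F : ∀ m, XM n (c (m + 1)) → XM n (c m)) (p : ℕ)
    (h : UM n → UM n) : Prop :=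
  ∀ x j, Tendsto (fun i => mioU n c F (2 * i + p) j x) atTop (𝓝 (si n (c j) (h x)))

theorem mio_exists (d : MioData n c F eta) (p : ℕ) : ∃ h : UM n → UM n, MioLim n c F p h := by
  choose L hL using mio_lim d p
  have hcomp : ∀ (j j' : ℕ) (x : UM n), j ≤ j' → sM n (c j) (c j') (L j' x) = L j x := by
    intro j j' x hjj
    have h1 := ((d.scont _ _ (d.cmono hjj)).tendsto (L j' x)).comp (hL j' x)
    refine tendsto_nhds_unique h1 ((hL j x).congr' ?_)
    filter_upwards [eventually_ge_atTop j'] with i hi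
    exact (mioU_comp d hjj (by omega) x).symm
  have hJ : ∀ b, ∃ j, b ≤ c j := fun b => (d.tend.eventually_ge_atTop b).exists
  choose J hJ using hJ
  have hy : ∀ x : UM n, ∃ z : UM n, ∀ b, si n b z = sM n b (c (J b)) (L (J b) x) := by
    intro x
    apply d.sisurj (fun b => sM n b (c (J b)) (L (J b) x))
    intro b
    rw [d.scomp _ _ _ _ (by omega) (hJ (b + 1))]
    rcases le_total (J b) (J (b + 1)) with h | h
    · rw [← hcomp _ _ x h, d.scomp _ _ _ _ (hJ b) (d.cmono h)]
    · rw [← hcomp _ _ x h, d.scomp _ _ _ _ (le_trans (by omega) (hJ (b + 1))) (d.cmono h)]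
  choose h hh using hy
  refine ⟨h, fun x j => ?_⟩
  have h1 : si n (c j) (h x) = L j x := by
    rw [hh]
    rcases le_total (J (c j)) j with h2 | h2
    · have h3 : c (J (c j)) = c j := le_antisymm (d.cmono h2) (hJ (c j))
      have h4 : sM n (c j) (c (J (c j))) (sM n (c (J (c j))) (c j) (L j x)) = L j x := by
        rw [d.scomp _ _ _ _ (hJ (c j)) (d.cmono h2), d.sid]
      rw [hcomp _ _ x h2] at h4
      exact h4
    · exact hcomp _ _ x h2
  rw [h1]
  exact hL j x

theorem mio_dist (d : MioData n c F eta) {p : ℕ} {h : UM n → UM n} (hh : MioLim n c F p h)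
    {i j : ℕ} (hj : j ≤ 2 * i + p) (x : UM n) :
    dist (mioU n c F (2 * i + p) j x) (si n (c j) (h x)) ≤ 4 * (eta / 2 ^ (2 * i + p)) := by
  have h1 : Tendsto (fun k => dist (mioU n c F (2 * i + p) j x) (mioU n c F (2 * k + p) j x))
      atTop (𝓝 (dist (mioU n c F (2 * i + p) j x) (si n (c j) (h x)))) :=
    tendsto_const_nhds.dist (hh x j)
  refine le_of_tendsto h1 ?_
  filter_upwards [eventually_ge_atTop i] with k hk
  exact mio_telU d (k := k - i) (by omega) hj x

theorem mio_cont (d : MioData n c F eta) {p : ℕ} {h : UM n → UM n} (hh : MioLim n c F p h) :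
    Continuous h := by
  have := d.compU
  have hemb : IsClosedEmbedding (fun (x : UM n) (b : ℕ) => si n b x) := by
    refine Continuous.isClosedEmbedding (continuous_pi fun b => d.sicont b) ?_
    intro x x' hxx
    exact d.siinj x x' fun b => congrFun hxx b
  rw [hemb.isInducing.continuous_iff]
  refine continuous_pi fun b => ?_
  have h1 : ∀ j, Continuous fun x => si n (c j) (h x) := by
    intro j
    have h2 : TendstoUniformly (fun i => mioU n c F (2 * i + p) j)
        (fun x => si n (c j) (h x)) atTop := by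
      rw [Metric.tendstoUniformly_iff]
      intro e he
      filter_upwards [(mio_small d p).eventually_lt_const he, eventually_ge_atTop j] with i hi hj x
      rw [dist_comm]
      exact lt_of_le_of_lt (mio_dist d hh (by omega) x) hi
    refine h2.continuous (Filter.Eventually.frequently ?_)
    filter_upwards [eventually_ge_atTop j] with i hi
    exact mioU_cont d (by omega)
  obtain ⟨j, hj⟩ := (d.tend.eventually_ge_atTop b).exists
  have h3 : (fun x => si n b (h x)) = fun x => sM n b (c j) (si n (c j) (h x)) := by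
    funext x
    exact (d.sicomp _ _ _ hj).symm
  show Continuous fun x => si n b (h x)
  rw [h3]
  exact (d.scont _ _ hj).comp (h1 j)

theorem mio_inverse (d : MioData n c F eta) {p p' : ℕ} {h h' : UM n → UM n}
    (hh : MioLim n c F p h) (hh' : MioLim n c F p' h')
    (hp : ∀ i, ∃ q, ∀ k, 2 * i + p + 1 + 2 * k = 2 * (q + k) + p') (y : UM n) :
    h (h' y) = y := by
  have key : ∀ j i, j ≤ 2 * i + p →
      dist (mioU n c F (2 * i + p) j (h' y)) (si n (c j) y) ≤ 5 * (eta / 2 ^ (2 * i + p)) := by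
    intro j i hj
    set m := 2 * i + p with hm
    obtain ⟨q, hq⟩ := hp i
    have t1 : Tendsto (fun k => mioU n c F (m + 1 + 2 * k) (m + 1) y) atTop
        (𝓝 (si n (c (m + 1)) (h' y))) := by
      have t2 := (hh' y (m + 1)).comp (tendsto_add_atTop_nat q)
      refine t2.congr fun k => ?_
      have : m + 1 + 2 * k = 2 * (k + q) + p' := by
        have := hq k
        omega
      rw [this]
      rfl
    have t3 : Tendsto (fun k => dist (sM n (c j) (c m) (F m (mioU n c F (m + 1 + 2 * k) (m + 1) y)))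
        (si n (c j) y)) atTop (𝓝 (dist (mioU n c F m j (h' y)) (si n (c j) y))) := by
      refine Tendsto.dist ?_ tendsto_const_nhds
      exact (((d.scont _ _ (d.cmono hj)).comp (d.cont m)).tendsto _).comp t1
    refine le_of_tendsto' t3 fun k => ?_
    have e1 := mio_tel d k (m := m) (m' := m + 2 * k) (j := j) rfl hj
      (F (m + 2 * k + 1) (si n (c (m + 2 * k + 2)) y))
    have e2 := d.h1 (m + 2 * k) j (by omega) (si n (c (m + 2 * k + 2)) y)
    rw [d.sicomp _ _ _ (d.cmono (by omega))] at e2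
    have e3 : mioU n c F (m + 1 + 2 * k) (m + 1) y =
        sM n (c (m + 1)) (c (m + 2 * k + 1)) (F (m + 2 * k + 1) (si n (c (m + 2 * k + 2)) y)) := by
      have : m + 1 + 2 * k = m + 2 * k + 1 := by omega
      rw [this]
      rfl
    rw [e3]
    have h4 : eta / 2 ^ (m + 2 * k) ≤ eta / 2 ^ m := by
      have := d.eta0
      refine div_le_div_of_nonneg_left this.le (by positivity) ?_
      exact pow_le_pow_right₀ (by norm_num) (by omega)
    have := dist_triangle (sM n (c j) (c m) (F m (sM n (c (m + 1)) (c (m + 2 * k + 1))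
      (F (m + 2 * k + 1) (si n (c (m + 2 * k + 2)) y)))))
      (sM n (c j) (c (m + 2 * k)) (F (m + 2 * k)
        (F (m + 2 * k + 1) (si n (c (m + 2 * k + 2)) y)))) (si n (c j) y)
    linarith
  have hj : ∀ j, si n (c j) (h (h' y)) = si n (c j) y := by
    intro j
    have t1 : Tendsto (fun i => dist (mioU n c F (2 * i + p) j (h' y)) (si n (c j) y)) atTop
        (𝓝 (dist (si n (c j) (h (h' y))) (si n (c j) y))) :=
      (hh (h' y) j).dist tendsto_const_nhds
    have t2 : Tendsto (fun i : ℕ => 5 * (eta / 2 ^ (2 * i + p))) atTop (𝓝 0) := by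
      have := (mio_small d p).const_mul (5 / 4)
      rw [mul_zero] at this
      refine this.congr fun i => ?_
      ring
    have t3 : dist (si n (c j) (h (h' y))) (si n (c j) y) ≤ 0 := by
      refine le_of_tendsto_of_tendsto t1 t2 ?_
      filter_upwards [eventually_ge_atTop j] with i hi
      exact key j i (by omega)
    exact dist_le_zero.1 t3
  apply d.siinj
  intro b
  obtain ⟨j, hjb⟩ := (d.tend.eventually_ge_atTop b).exists
  rw [← d.sicomp _ _ _ hjb, hj, d.sicomp _ _ _ hjb]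

end

theorem pr_Mio (h1 : S_SiFacts) (h2 : S_SgFacts) : S_Mio := by
  intro n c F eta hn he hc ht hF hA hB
  obtain ⟨s1, s2, -, s4, s5, -, -⟩ := h1 n hn
  obtain ⟨-, -, -, g4, g5, g6, -, -, g9⟩ := h2 n hn
  have d : MioData n c F eta :=
    { eta0 := he
      mono := hc
      tend := ht
      cont := hF
      h1 := hA
      h2 := hB
      sid := g5
      scomp := g6
      scont := fun b b' hb => (g4 b b' hb).1
      sicont := s1
      sicomp := s2
      sisurj := s4
      siinj := s5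
      comp := fun b => (g9 b).1
      compU := (g9 0).2.2 }
  obtain ⟨h, hh⟩ := mio_exists d 0
  obtain ⟨k, hk⟩ := mio_exists d 1
  have hhk : ∀ y, h (k y) = y := mio_inverse d hh hk fun i => ⟨i, fun k => by omega⟩
  have hkh : ∀ y, k (h y) = y := mio_inverse d hk hh fun i => ⟨i + 1, fun k => by omega⟩
  refine ⟨{ toFun := h, invFun := k, left_inv := hkh, right_inv := hhk,
            continuous_toFun := mio_cont d hh, continuous_invFun := mio_cont d hk }, ?_, ?_⟩
  · intro x
    have e1 := mio_dist d hh (i := 0) (j := 0) (by omega) x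
    rw [dist_comm] at e1
    have e2 : mioU n c F (2 * 0 + 0) 0 x = F 0 (si n (c 1) x) := d.sid _ _
    rw [e2] at e1
    simpa using e1
  · intro x j
    exact hh x j

end M202

end

section

/-!
MP_202a65_gt item P (helper63): the P-lemma, some M_b1 maps softly onto M_b0 × S^(n+1).
-/

open Set Topology unitInterval Filter

namespace M202

/-! ### The big cube -/

/-- first component of a point of the big cube -/
def P_fst (n : ℕ) (p : Cube (2 * n + 1 + (n + 2))) : Cube (2 * n + 1) :=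
  fun i => p (Fin.castAdd (n + 2) i)

/-- second component of a point of the big cube -/
def P_snd (n : ℕ) (p : Cube (2 * n + 1 + (n + 2))) : Cube (n + 2) :=
  fun j => p (Fin.natAdd (2 * n + 1) j)

/-- the point with given components -/
def P_mk (n : ℕ) (x : Cube (2 * n + 1)) (z : Cube (n + 2)) : Cube (2 * n + 1 + (n + 2)) :=
  Fin.append x z

theorem P_fst_mk (n : ℕ) (x : Cube (2 * n + 1)) (z : Cube (n + 2)) : P_fst n (P_mk n x z) = x := by
  funext i; simp [P_fst, P_mk]

theorem P_snd_mk (n : ℕ) (x : Cube (2 * n + 1)) (z : Cube (n + 2)) : P_snd n (P_mk n x z) = z := by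
  funext i; simp [P_snd, P_mk]

theorem P_mk_fst_snd (n : ℕ) (p : Cube (2 * n + 1 + (n + 2))) :
    P_mk n (P_fst n p) (P_snd n p) = p := by
  funext i
  refine Fin.addCases (fun i => ?_) (fun j => ?_) i
  · simp [P_fst, P_mk]
  · simp [P_snd, P_mk]

theorem P_fst_cont (n : ℕ) : Continuous (P_fst n) :=
  continuous_pi fun i => continuous_apply _

theorem P_snd_cont (n : ℕ) : Continuous (P_snd n) :=
  continuous_pi fun i => continuous_apply _

theorem P_mk_cont (n : ℕ) :
    Continuous (fun p : Cube (2 * n + 1) × Cube (n + 2) => P_mk n p.1 p.2) := by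
  refine continuous_pi fun i => ?_
  refine Fin.addCases (fun i => ?_) (fun j => ?_) i
  · simp only [P_mk, Fin.append_left]; fun_prop
  · simp only [P_mk, Fin.append_right]; fun_prop

/-- M_c × S^(n+1) in the big cube -/
def P_W (n c : ℕ) : Set (Cube (2 * n + 1 + (n + 2))) :=
  {p | P_fst n p ∈ Mb n c ∧ P_snd n p ∈ bd (n + 2)}

/-- Z_c × 0 in the big cube -/
def P_W' (n c : ℕ) : Set (Cube (2 * n + 1 + (n + 2))) :=
  {p | P_fst n p ∈ Zb n c ∧ P_snd n p = 0}

theorem P_face_fst {n L : ℕ} {p y : Cube (2 * n + 1 + (n + 2))} (h : y ∈ faceOf L p) :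
    P_fst n y ∈ faceOf L (P_fst n p) := fun i => h _

theorem P_face_snd {n L : ℕ} {p y : Cube (2 * n + 1 + (n + 2))} (h : y ∈ faceOf L p) :
    P_snd n y ∈ faceOf L (P_snd n p) := fun i => h _

theorem P_face_zero {L N : ℕ} (hL : 1 ≤ L) {y : Cube N} (h : y ∈ faceOf L (0 : Cube N)) :
    y = 0 := by
  funext i
  obtain ⟨h1, h2⟩ := h i
  have hL' : (0 : ℝ) < L := by exact_mod_cast hL
  have e : (((0 : Cube N) i : unitInterval) : ℝ) = 0 := rfl
  rw [e] at h1 h2
  simp only [mul_zero, Int.floor_zero, Int.ceil_zero, Int.cast_zero] at h1 h2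
  have h3 : (L : ℝ) * (y i : ℝ) = 0 := le_antisymm h2 h1
  have h4 : (y i : ℝ) = 0 := by
    rcases mul_eq_zero.1 h3 with h | h
    · exact absurd h hL'.ne'
    · exact h
  exact Subtype.ext h4

theorem P_W_cub (h4 : S_Grid) (h14 : S_MbFacts) (n c : ℕ) (hn : 1 ≤ n) :
    Cubical (3 ^ c) (P_W n c) := by
  intro x hx y hy
  exact ⟨((h14 n hn).1 c).1 _ hx.1 (P_face_fst hy),
    (h4.2.2.1 (n + 2) (3 ^ c) (Nat.one_le_pow _ _ (by norm_num))).1 _ hx.2 (P_face_snd hy)⟩

theorem P_W'_cub (h14 : S_MbFacts) (n c : ℕ) (hn : 1 ≤ n) :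
    Cubical (3 ^ c) (P_W' n c) := by
  intro x hx y hy
  refine ⟨((h14 n hn).1 c).2.1 _ hx.1 (P_face_fst hy), ?_⟩
  have h := P_face_snd hy
  rw [hx.2] at h
  exact P_face_zero (Nat.one_le_pow _ _ (by norm_num)) h

theorem P_W'_sub (n c : ℕ) : P_W' n c ⊆ P_W n c := by
  intro x hx
  refine ⟨hx.1.1, ⟨0, Or.inl ?_⟩⟩
  rw [hx.2]; rfl

theorem P_W'_skel (n c : ℕ) : P_W' n c ⊆ skel (3 ^ c) n := by
  intro x hx
  have h1 := hx.1.2
  simp only [skel, mem_ofPred_eq] at h1 ⊢
  have h2 : {i | ¬ IsGrid (3 ^ c) (x i)} =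
      (Fin.castAdd (n + 2)) '' {i | ¬ IsGrid (3 ^ c) (P_fst n x i)} := by
    ext i
    refine Fin.addCases (fun i => ?_) (fun j => ?_) i
    · simp only [mem_ofPred_eq, mem_image]
      constructor
      · intro h; exact ⟨i, h, rfl⟩
      · rintro ⟨i', hi', he⟩
        have : i' = i := Fin.castAdd_injective _ _ he
        subst this
        exact hi'
    · simp only [mem_ofPred_eq, mem_image]
      constructor
      · intro h
        exfalso
        apply h
        have e : x (Fin.natAdd (2 * n + 1) j) = 0 := congrFun hx.2 j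
        rw [e]
        exact ⟨0, by simp⟩
      · rintro ⟨i', -, he⟩
        exfalso
        have := congrArg Fin.val he
        simp at this
        omega
  rw [h2, ncard_image_of_injective _ (Fin.castAdd_injective _ _)]
  exact h1

theorem P_face_dist {L N : ℕ} (hL : 1 ≤ L) (x y : Cube N) (h : y ∈ faceOf L x) :
    dist y x ≤ 1 / (L : ℝ) := by
  have hL' : (0 : ℝ) < L := by exact_mod_cast hL
  rw [dist_pi_le_iff (by positivity)]
  intro i
  obtain ⟨h1, h2⟩ := h i
  have h3 : (⌊(L : ℝ) * (x i : ℝ)⌋ : ℝ) ≤ (L : ℝ) * (x i : ℝ) := Int.floor_le _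
  have h4 : (L : ℝ) * (x i : ℝ) ≤ (⌈(L : ℝ) * (x i : ℝ)⌉ : ℝ) := Int.le_ceil _
  have h5 : (⌈(L : ℝ) * (x i : ℝ)⌉ : ℝ) ≤ (⌊(L : ℝ) * (x i : ℝ)⌋ : ℝ) + 1 := by
    exact_mod_cast Int.ceil_le_floor_add_one _
  have h6 : |(L : ℝ) * (y i : ℝ) - (L : ℝ) * (x i : ℝ)| ≤ 1 := by
    rw [abs_le]; constructor <;> linarith
  have h7 : dist (y i) (x i) = |(y i : ℝ) - (x i : ℝ)| := rfl
  rw [h7, le_div_iff₀ hL']
  calc |(y i : ℝ) - (x i : ℝ)| * L = |(L : ℝ) * (y i : ℝ) - (L : ℝ) * (x i : ℝ)| := by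
        rw [← mul_sub, abs_mul, abs_of_pos hL', mul_comm]
    _ ≤ 1 := h6

/-! ### The complex R -/

/-- the n-skeleton of M_c × S^(n+1) -/
def P_V (n c : ℕ) : Set (Cube (2 * n + 1 + (n + 2))) := P_W n c ∩ skel (3 ^ c) n

abbrev P_R (n c : ℕ) : Type := ↥(P_V n c)

theorem P_V_closed (h4 : S_Grid) (h14 : S_MbFacts) (n c : ℕ) (hn : 1 ≤ n) :
    IsClosed (P_V n c) := by
  have h1 : Cubical (3 ^ c) (P_V n c) :=
    (h4.2.2.2.1 _ (3 ^ c) _ _ (P_W_cub h4 h14 n c hn)
      ((h4.2.2.1 _ (3 ^ c) (Nat.one_le_pow _ _ (by norm_num))).2.2 n)).2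
  exact h4.2.2.2.2.1 _ (3 ^ c) _ (Nat.one_le_pow _ _ (by norm_num)) h1

/-- the inclusion of R in M_c × S^(n+1) -/
def P_inc (n c : ℕ) (r : P_R n c) : XM n c × SS n :=
  (⟨P_fst n r.1, r.2.1.1⟩, ⟨P_snd n r.1, r.2.1.2⟩)

theorem P_inc_cont (n c : ℕ) : Continuous (P_inc n c) :=
  Continuous.prodMk
    (Continuous.subtype_mk ((P_fst_cont n).comp continuous_subtype_val) _)
    (Continuous.subtype_mk ((P_snd_cont n).comp continuous_subtype_val) _)

theorem P_inc_soft (h4 : S_Grid) (h6 : S_SkelPush) (h14 : S_MbFacts) (h16 : S_SoftOfRel)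
    (h19 : S_DimH) (n c : ℕ) (hn : 1 ≤ n) (D : XM n c × SS n → XM n c × SS n → ℝ)
    (hD : IsCPM D) (eta : ℝ)
    (h : ∀ p p' : XM n c × SS n, dist p.1 p'.1 ≤ 1 / 3 ^ c → dist p.2 p'.2 ≤ 1 / 3 ^ c →
      D p p' ≤ eta) : Soft n D eta (P_inc n c) := by
  refine h16 n _ _ D eta _ hD (P_inc_cont n c) ?_
  intro m hm eta' heta' be al hbe hal hbd
  have hL : 1 ≤ 3 ^ c := Nat.one_le_pow _ _ (by norm_num)
  have hbe1 : Continuous (fun x => ((be x).1 : Cube (2 * n + 1))) := by fun_prop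
  have hbe2 : Continuous (fun x => ((be x).2 : Cube (n + 2))) := by fun_prop
  set F : Cube m → Cube (2 * n + 1 + (n + 2)) := fun x => P_mk n (be x).1 (be x).2 with hF
  have hFc : Continuous F := (P_mk_cont n).comp (hbe1.prodMk hbe2)
  have hFW : ∀ x, F x ∈ P_W n c := by
    intro x
    refine ⟨?_, ?_⟩
    · rw [hF, P_fst_mk]; exact (be x).1.2
    · rw [hF, P_snd_mk]; exact (be x).2.2
  have hWc := P_W_cub h4 h14 n c hn
  obtain ⟨K, hKc, hK0, hK1, hKs, hKf⟩ := h6 _ (3 ^ c) n m (P_W n c) univ F hL hWc isClosed_univ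
    (h19.2.2.2.2 m (n + 1) (by omega) univ) hFc.continuousOn (fun x _ => hFW x)
  have hKc' : Continuous K := by
    rw [← continuousOn_univ]
    simpa using hKc
  have hKW : ∀ t x, K (t, x) ∈ P_W n c := fun t x => hWc _ (hFW x) (hKf t x (mem_univ _))
  have hFal : ∀ x ∈ bd m, F x = (al x : Cube (2 * n + 1 + (n + 2))) := by
    intro x hx
    have h1 := hbd x hx
    simp only [hF]
    rw [← h1]
    exact P_mk_fst_snd n _
  have hKal : ∀ t, ∀ x ∈ bd m, K (t, x) = (al x : Cube (2 * n + 1 + (n + 2))) := by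
    intro t x hx
    rw [hKs t x (mem_univ _) (by rw [hFal x hx]; exact (al x).2.2), hFal x hx]
  refine ⟨fun x => ⟨K (1, x), hKW 1 x, hK1 x (mem_univ _)⟩,
    fun p => (⟨P_fst n (K (σ p.1, p.2)), (hKW _ _).1⟩, ⟨P_snd n (K (σ p.1, p.2)), (hKW _ _).2⟩),
    ?_, ?_, ?_, ?_, ?_, ?_, ?_⟩
  · exact Continuous.subtype_mk (hKc'.comp (by fun_prop)) _
  · have h1 : Continuous (fun p : I × Cube m => K (σ p.1, p.2)) := hKc'.comp (by fun_prop)
    exact Continuous.prodMk (Continuous.subtype_mk ((P_fst_cont n).comp h1) _)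
      (Continuous.subtype_mk ((P_snd_cont n).comp h1) _)
  · intro x hx
    exact Subtype.ext (hKal 1 x hx)
  · intro t x hx
    rw [← hbd x hx]
    refine Prod.ext (Subtype.ext ?_) (Subtype.ext ?_)
    · change P_fst n (K (σ t, x)) = P_fst n (al x)
      rw [hKal _ x hx]
    · change P_snd n (K (σ t, x)) = P_snd n (al x)
      rw [hKal _ x hx]
  · intro x
    simp only [unitInterval.symm_zero]
    rfl
  · intro x
    refine Prod.ext (Subtype.ext ?_) (Subtype.ext ?_)
    · change P_fst n (K (σ 1, x)) = (be x).1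
      rw [unitInterval.symm_one, hK0 x (mem_univ _), hF, P_fst_mk]
    · change P_snd n (K (σ 1, x)) = (be x).2
      rw [unitInterval.symm_one, hK0 x (mem_univ _), hF, P_snd_mk]
  · intro t x
    refine (h _ _ ?_ ?_).trans heta'.le
    · rw [Subtype.dist_eq]
      have h1 := P_face_dist hL _ _ (P_face_fst (n := n) (hKf (σ t) x (mem_univ _)))
      rw [hF, P_fst_mk] at h1
      simpa using h1
    · rw [Subtype.dist_eq]
      have h1 := P_face_dist hL _ _ (P_face_snd (n := n) (hKf (σ t) x (mem_univ _)))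
      rw [hF, P_snd_mk] at h1
      simpa using h1

theorem P_bd_closed (h4 : S_Grid) (m : ℕ) : IsClosed (bd m) :=
  h4.2.2.2.2.1 m 1 (bd m) le_rfl (h4.2.1 m).1

theorem P_fst_soft (h4 : S_Grid) (h7 : S_Ext) (h12 : S_Basics) (n c : ℕ) :
    FineSoft n (Prod.fst : XM n c × SS n → XM n c) := by
  refine h12.2.2.2.1 n _ _ _ continuous_fst ?_
  intro D hD m hm eta' heta' be al hbe hal hbd
  obtain ⟨f', hf'c, hf'e, hf'm⟩ := h7 m (n + 1) (bd m) (fun x => ((al x).2 : Cube (n + 2)))
    (by omega) (P_bd_closed h4 m)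
    (continuous_subtype_val.comp_continuousOn (continuous_snd.comp_continuousOn hal))
    (fun x _ => (al x).2.2)
  refine ⟨fun x => (be x, ⟨f' x, hf'm x⟩), fun p => be p.2, ?_, ?_, ?_, ?_, ?_, ?_, ?_⟩
  · exact hbe.prodMk (hf'c.subtype_mk _)
  · fun_prop
  · intro x hx
    exact Prod.ext (hbd x hx).symm (Subtype.ext (hf'e x hx))
  · intro t x _; rfl
  · intro x; rfl
  · intro x; rfl
  · intro t x
    rw [hD.self]
    exact heta'.le

/-- the subcomplex C of R is homeomorphic to Z_c -/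
def P_hC (n c : ℕ) : ↥(Subtype.val ⁻¹' P_W' n c : Set (P_R n c)) ≃ₜ ZM n c where
  toFun z := ⟨P_fst n z.1.1, z.2.1⟩
  invFun x := ⟨⟨P_mk n x.1 0, P_W'_sub n c
      ⟨by rw [P_fst_mk]; exact x.2, by rw [P_snd_mk]⟩, P_W'_skel n c
      ⟨by rw [P_fst_mk]; exact x.2, by rw [P_snd_mk]⟩⟩,
    ⟨by rw [P_fst_mk]; exact x.2, by rw [P_snd_mk]⟩⟩
  left_inv z := by
    apply Subtype.ext
    apply Subtype.ext
    change P_mk n (P_fst n z.1.1) 0 = z.1.1
    have h1 : P_snd n z.1.1 = 0 := z.2.2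
    rw [← h1, P_mk_fst_snd]
  right_inv x := by
    apply Subtype.ext
    exact P_fst_mk n _ _
  continuous_toFun := Continuous.subtype_mk
    ((P_fst_cont n).comp (continuous_subtype_val.comp continuous_subtype_val)) _
  continuous_invFun := Continuous.subtype_mk (Continuous.subtype_mk
    ((P_mk_cont n).comp (continuous_subtype_val.prodMk continuous_const)) _) _

theorem P_RC_mono {R : Type} [TopologicalSpace R] (P P' : Set R → Prop) {C C2 : Set R}
    {ka : List ℕ} (hP : ∀ e, P e → P' e) (h : RC P C ka C2) : RC P' C ka C2 := by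
  induction h with
  | nil C hC => exact RC.nil C hC
  | cons C C1 C2 k ka N e hA hPe _ ih => exact RC.cons C C1 C2 k ka N e hA (fun j => hP _ (hPe j)) ih

theorem P_iZ_eq (h13 : S_SgFacts) (n b c : ℕ) (hn : 1 ≤ n) (x : ZM n b) :
    (iZ n b c x : Cube (2 * n + 1)) = x := by
  obtain ⟨s1, s2, s3, s4, s5, s6, s7, s8, s9⟩ := h13 n hn
  exact (s8 b c x).2

/-- the context of the T-theorem -/
noncomputable def P_ctx (h2 : S_TowerM) (h13 : S_SgFacts) (h15 : S_UC) (n b0 c : ℕ) (hn : 1 ≤ n)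
    (hbc : b0 ≤ c) : TCtx n where
  X := XM n
  ms := fun _ => inferInstance
  s := sM n
  tower := h2 n hn
  b0 := c + 1
  Y := XM n b0
  topY := inferInstance
  dY := fun x y => dist x y
  cpm := h15.2.2.2.2.2.2.2 _
  P := fun x => sM n b0 c (iZ n c c (pZ n c x))
  contP := by
    obtain ⟨s1, s2, s3, s4, s5, s6, s7, s8, s9⟩ := h13 n hn
    exact ((s4 b0 c hbc).1).comp (((s8 c c ⟨0, zero_mem_Zb n c⟩).1).comp
      (s7 c ⟨0, zero_mem_Mb n (c + 1)⟩).1)
  F := ∅
  closedF := isClosed_empty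

theorem pr_P (h1 : S_T) (h2 : S_TowerM) (h3 : S_CubRC) (h4 : S_Grid) (h5 : S_RCRestrict)
    (h6 : S_SkelPush) (h7 : S_Ext) (h8 : S_X6) (h9 : S_X1all) (h10 : S_X5) (h11 : S_Comp)
    (h12 : S_Basics) (h13 : S_SgFacts) (h14 : S_MbFacts) (h15 : S_UC) (h16 : S_SoftOfRel)
    (h17 : S_ProdId) (h18 : S_SupCPM) (h19 : S_DimH) (h20 : S_HomeoComp) : S_P := by
  intro n b0 D eta hn hD heta
  obtain ⟨s1, s2, s3, s4, s5, s6, s7, s8, s9⟩ := h13 n hn
  obtain ⟨c1, c2, c3, c4, c5, c6, c7, c8⟩ := h15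
  obtain ⟨a1, a2, a3, a4, a5, a6, a7, a8⟩ := h12
  have : CompactSpace (XM n b0) := (s9 b0).1
  have : CompactSpace (SS n) := isCompact_iff_compactSpace.1 (P_bd_closed h4 (n + 2)).isCompact
  obtain ⟨K, hK1, hK⟩ := h1 n (List.range (n + 1)) hn (by
    intro k hk
    rw [List.mem_range] at hk
    omega)
  obtain ⟨de0, hde0, hde0'⟩ := c1 (XM n b0 × SS n) D hD (eta / 4) (by linarith)
  -- choice of c
  have hK0 : 0 < K + 1 := by linarith
  obtain ⟨k, hk⟩ := exists_pow_lt_of_lt_one (lt_min hde0 (div_pos heta (mul_pos two_pos hK0)))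
    (by norm_num : (1 / 2 : ℝ) < 1)
  set c := max b0 k with hc
  have hbc : b0 ≤ c := le_max_left _ _
  have hck : (1 : ℝ) / 2 ^ c ≤ min de0 (eta / (2 * (K + 1))) := by
    have : (1 / 2 : ℝ) ^ c ≤ (1 / 2 : ℝ) ^ k :=
      pow_le_pow_of_le_one (by norm_num) (by norm_num) (le_max_right _ _)
    have e : (1 : ℝ) / 2 ^ c = (1 / 2 : ℝ) ^ c := by rw [one_div_pow]
    rw [e]; linarith
  have hde : (0 : ℝ) < 1 / 2 ^ c := by positivity
  have hL : 1 ≤ 3 ^ c := Nat.one_le_pow _ _ (by norm_num)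
  have h32 : (1 : ℝ) / 3 ^ c ≤ 1 / 2 ^ c := by
    apply one_div_le_one_div_of_le (by positivity)
    exact pow_le_pow_left₀ (by norm_num) (by norm_num) _
  have hclose : ∀ x y : XM n c, dist x y ≤ 1 / 3 ^ c →
      dist (sM n b0 c x) (sM n b0 c y) ≤ 1 / 2 ^ c := by
    intro x y hxy
    have := (s1 b0 c hbc).2.2.2.2.1 x.1 x.2 y.1 y.2 (by simpa [Subtype.dist_eq] using hxy)
    rw [Subtype.dist_eq, (s4 b0 c hbc).2, (s4 b0 c hbc).2]
    exact this
  have hsc : Continuous (sM n b0 c) := (s4 b0 c hbc).1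
  have hiZ : Continuous (iZ n c c) := (s8 c c ⟨0, zero_mem_Zb n c⟩).1
  have hpZ : Continuous (pZ n c) := (s7 c ⟨0, zero_mem_Mb n (c + 1)⟩).1
  have hdist : IsCPM (fun x y : XM n b0 => dist x y) := c8 _
  -- the map q
  set q : P_R n c → XM n b0 := fun r => sM n b0 c (P_inc n c r).1 with hq
  have hqc : Continuous q := hsc.comp (continuous_fst.comp (P_inc_cont n c))
  have hVcl := P_V_closed h4 h14 n c hn
  have : CompactSpace (P_R n c) := isCompact_iff_compactSpace.1 hVcl.isCompact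
  set C : Set (P_R n c) := Subtype.val ⁻¹' P_W' n c with hC
  -- the relative complex
  have hRC : RC (fun e : Set (P_R n c) => ∀ z ∈ e, ∀ z' ∈ e, dist (q z) (q z') ≤ 1 / 2 ^ c) C
      (List.range (n + 1)) univ := by
    have r1 := (h3 _ (3 ^ c) (P_W n c) (P_W' n c)
      (fun e => ∀ z ∈ e, ∀ z' ∈ e, dist z z' ≤ 1 / 3 ^ c) hL (P_W_cub h4 h14 n c hn)
      (P_W'_cub h14 n c hn) (P_W'_sub n c) (by
        intro x _ _ z hz z' hz'
        have := (h4.1 _ (3 ^ c) x hL).2.2.2 z hz z' hz'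
        simpa using this)).1 n
    have r2 : P_W' n c ∪ (P_W n c ∩ skel (3 ^ c) n) = P_V n c := by
      rw [P_V]
      exact union_eq_self_of_subset_left (subset_inter (P_W'_sub n c) (P_W'_skel n c))
    rw [r2] at r1
    have r3 := h5 _ (P_V n c) _ _ _ _ hVcl subset_rfl r1
    have r4 : (Subtype.val ⁻¹' P_V n c : Set (P_R n c)) = univ := by
      ext z; simp
    rw [r4] at r3
    refine P_RC_mono _ _ ?_ r3
    intro e he z hz z' hz'
    refine hclose _ _ ?_
    have h21 := he z.1 (mem_image_of_mem _ hz) z'.1 (mem_image_of_mem _ hz')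
    rw [Subtype.dist_eq]
    refine le_trans ?_ h21
    refine (dist_pi_le_iff dist_nonneg).2 fun i => ?_
    exact dist_le_pi_dist z.1 z'.1 _
  -- softness of sM o fst
  have hsM : FineSoft n (sM n b0 c) := h9 n b0 c hn hbc
  have hsMfst : FineSoft n (fun p : XM n c × SS n => sM n b0 c p.1) :=
    a6 n _ _ _ (Prod.fst : XM n c × SS n → XM n c) (sM n b0 c) continuous_fst hsc
      (P_fst_soft h4 h7 ⟨a1, a2, a3, a4, a5, a6, a7, a8⟩ n c) hsM
  have hqs : Soft n (fun x y : XM n b0 => dist x y) (1 / 2 ^ c) q := by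
    have h21 : IsCPM (fun p p' : XM n c × SS n =>
        dist (sM n b0 c p.1) (sM n b0 c p'.1)) :=
      c3 _ _ _ (fun p : XM n c × SS n => sM n b0 c p.1) hdist (hsc.comp continuous_fst)
    have h22 := P_inc_soft h4 h6 h14 h16 h19 n c hn _ h21 (1 / 2 ^ c)
      (fun p p' hp _ => hclose _ _ hp)
    have h23 := h11 n _ _ _ (fun x y : XM n b0 => dist x y) (1 / 2 ^ c) 0 (P_inc n c)
      (fun p : XM n c × SS n => sM n b0 c p.1) hdist (P_inc_cont n c)
      (hsc.comp continuous_fst) h22 (hsMfst _ hdist)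
    rw [add_zero] at h23
    exact h23
  have hqCs : Soft n (fun x y : XM n b0 => dist x y) (1 / 2 ^ c) (fun z : ↥C => q z) := by
    have h21 : IsCPM (fun p p' : XM n c => dist (sM n b0 c p) (sM n b0 c p')) :=
      c3 _ _ _ (sM n b0 c) hdist hsc
    have h22 := h8 n c _ (1 / 2 ^ c) hn h21 hclose
    have h23 := h11 n _ _ _ (fun x y : XM n b0 => dist x y) (1 / 2 ^ c) 0 (iZ n c c)
      (sM n b0 c) hdist hiZ hsc h22 (hsM _ hdist)
    rw [add_zero] at h23
    have h24 := (h20 n _ _ _ (XM n b0) _ (P_hC n c) (Homeomorph.refl _) (1 / 2 ^ c)).1 _ h23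
    have h25 : (fun z : ↥C => q z) = fun a => sM n b0 c (iZ n c c (P_hC n c a)) := by
      funext z
      have h26 : (P_inc n c z.1).1 = iZ n c c (P_hC n c z) := by
        apply Subtype.ext
        rw [(s8 c c _).2]
        rfl
      simp only [hq]
      rw [h26]
    rw [h25]
    exact h24
  -- the context
  set ctx := P_ctx h2 h13 ⟨c1, c2, c3, c4, c5, c6, c7, c8⟩ n b0 c hn hbc with hctx
  let pt : ↥C := (P_hC n c).symm ⟨0, zero_mem_Zb n c⟩
  have hFF : FF ctx q (fun _ => (pt : P_R n c)) (K * (1 / 2 ^ c)) := by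
    refine hK ctx (P_R n c) C q (fun _ => pt) (1 / 2 ^ c) hde ?_ hqc
      (continuousOn_empty _) hqCs hqs ?_
    · refine P_RC_mono _ _ ?_ hRC
      intro e he
      refine ⟨he, ?_⟩
      intro z _ x hx
      exact absurd hx (notMem_empty x)
    · intro D' hD' eta' heta'
      have h21 : Continuous (fun x : XM n (c + 1) => (P_hC n c).symm (pZ n c x)) :=
        (P_hC n c).symm.continuous.comp hpZ
      refine ⟨c + 1, fun x => (P_hC n c).symm (pZ n c x), le_rfl, h21, ?_, ?_, ?_⟩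
      · have h22 : IsCPM (fun x y => D' ((P_hC n c).symm x) ((P_hC n c).symm y)) :=
          c3 _ _ _ _ hD' (P_hC n c).symm.continuous
        have h23 := (h20 n _ _ _ _ (pZ n c) (Homeomorph.refl _) (P_hC n c).symm 0).2 D'
          ((h10 n c hn).1 _ h22)
        exact a1 n n _ _ D' D' 0 eta' _ le_rfl heta'.le hD' hD' h21 (fun _ _ => le_rfl) h23
      · intro x
        have h22 : q ((P_hC n c).symm (pZ n c x)).1 =
            sM n b0 c (iZ n c c (pZ n c (sM n (c + 1) (c + 1) x))) := by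
          rw [s5]
          have h26 : (P_inc n c ((P_hC n c).symm (pZ n c x)).1).1 = iZ n c c (pZ n c x) := by
            apply Subtype.ext
            rw [(s8 c c _).2]
            exact P_fst_mk n _ _
          simp only [hq]
          rw [h26]
        change dist (q ((P_hC n c).symm (pZ n c x)).1)
          (sM n b0 c (iZ n c c (pZ n c (sM n (c + 1) (c + 1) x)))) ≤ _
        rw [h22, dist_self]
        positivity
      · intro x hx
        exact absurd hx (notMem_empty _)
  -- application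
  set f : P_R n c → XM n b0 × SS n := fun r => (sM n b0 c (P_inc n c r).1, (P_inc n c r).2)
    with hf
  have hfc : Continuous f := by
    have := P_inc_cont n c
    exact (hsc.comp (continuous_fst.comp this)).prodMk (continuous_snd.comp this)
  have hD1 : IsCPM (fun r r' => D (f r) (f r')) := c3 _ _ _ f hD hfc
  obtain ⟨b, th0, hb, hth0c, hth0s, hth0d, -⟩ := hFF _ hD1 (eta / 4) (by linarith)
  have hg : FineSoft n (fun p : XM n c × SS n => (sM n b0 c p.1, p.2)) :=
    a8 n _ _ (SS n) (sM n b0 c) hsc hsM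
  have hgc : Continuous (fun p : XM n c × SS n => (sM n b0 c p.1, p.2)) := by fun_prop
  have hfs : Soft n D (eta / 4) f := by
    have h21 : IsCPM (fun p p' : XM n c × SS n =>
        D (sM n b0 c p.1, p.2) (sM n b0 c p'.1, p'.2)) :=
      c3 _ _ _ (fun p : XM n c × SS n => (sM n b0 c p.1, p.2)) hD hgc
    have h22 := P_inc_soft h4 h6 h14 h16 h19 n c hn _ h21 (eta / 4) (by
      intro p p' hp hp'
      refine hde0' _ _ ?_
      rw [Prod.dist_eq]
      refine max_le ?_ ?_
      · exact (hclose _ _ hp).trans (hck.trans (min_le_left _ _))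
      · exact (hp'.trans h32).trans (hck.trans (min_le_left _ _)))
    have h23 := h11 n _ _ _ D (eta / 4) 0 (P_inc n c)
      (fun p : XM n c × SS n => (sM n b0 c p.1, p.2)) hD (P_inc_cont n c) hgc h22 (hg D hD)
    rw [add_zero] at h23
    exact h23
  have hth := h11 n _ _ _ D (eta / 4) (eta / 4) th0 f hD hth0c hfc hth0s hfs
  refine ⟨b, fun x => f (th0 x), (hbc.trans (Nat.le_succ c)).trans hb, hfc.comp hth0c, ?_, ?_⟩
  · exact a1 n n _ _ D D (eta / 4 + eta / 4) eta _ le_rfl (by linarith) hD hD (hfc.comp hth0c)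
      (fun _ _ => le_rfl) hth
  · intro x
    have hcb : c + 1 ≤ b := hb
    set y := sM n (c + 1) b x with hy
    have e1 : sM n b0 b x = sM n b0 c (sM n c (c + 1) y) := by
      rw [hy, s6 c (c + 1) b x (Nat.le_succ c) hcb, s6 b0 c b x hbc ((Nat.le_succ c).trans hcb)]
    have e2 : dist (q (th0 x)) (sM n b0 c (iZ n c c (pZ n c y))) ≤ K * (1 / 2 ^ c) + eta / 4 :=
      hth0d x
    obtain ⟨Kx, hKx1, hKx2, hKx3, hKx4, hKx5⟩ := (h10 n c hn).2
    have e3 : ((iZ n c c (pZ n c y) : XM n c) : Cube (2 * n + 1)) ∈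
        faceOf (3 ^ c) (y : Cube (2 * n + 1)) := by
      have h21 := hKx5 1 y
      rw [hKx3 y, (s8 c (c + 1) _).2] at h21
      rw [(s8 c c _).2]
      exact h21
    have e4 : ((sM n c (c + 1) y : XM n c) : Cube (2 * n + 1)) ∈
        faceOf (3 ^ c) (y : Cube (2 * n + 1)) := by
      rw [(s4 c (c + 1) (Nat.le_succ c)).2]
      exact (s1 c (c + 1) (Nat.le_succ c)).2.2.1 y.1 y.2
    have e5 : dist (sM n b0 c (iZ n c c (pZ n c y))) (sM n b0 c (sM n c (c + 1) y)) ≤
        1 / 2 ^ c := by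
      refine hclose _ _ ?_
      rw [Subtype.dist_eq]
      have := (h4.1 _ (3 ^ c) (y : Cube (2 * n + 1)) hL).2.2.2 _ e3 _ e4
      simpa using this
    have e6 : (K + 1) * (1 / 2 ^ c) ≤ eta / 2 := by
      have h21 : (1 : ℝ) / 2 ^ c ≤ eta / (2 * (K + 1)) := hck.trans (min_le_right _ _)
      calc (K + 1) * (1 / 2 ^ c) ≤ (K + 1) * (eta / (2 * (K + 1))) :=
            mul_le_mul_of_nonneg_left h21 hK0.le
        _ = eta / 2 := by field_simp
    rw [e1]
    calc dist (q (th0 x)) (sM n b0 c (sM n c (c + 1) y))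
        ≤ dist (q (th0 x)) (sM n b0 c (iZ n c c (pZ n c y))) +
          dist (sM n b0 c (iZ n c c (pZ n c y))) (sM n b0 c (sM n c (c + 1) y)) :=
          dist_triangle _ _ _
      _ ≤ (K * (1 / 2 ^ c) + eta / 4) + 1 / 2 ^ c := add_le_add e2 e5
      _ = (K + 1) * (1 / 2 ^ c) + eta / 4 := by ring
      _ ≤ eta := by linarith

end M202

end
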