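import Pool.Agent.Work.MP_202a65_gt.Bd.B05
import Pool.Agent.Work.MP_202a65_gt.Bd.B01
import Pool.Agent.Work.MP_202a65_gt.Bd.B02
import Pool.Agent.Work.MP_202a65_gt.Bd.B04

/-! Bundle of small proof modules (one section per former module). -/

section

/-!
MP_202a65_gt, item PExt: the finite level version of pp.

The map P is the composition of the inclusion of Z_c into M_c (soft at scale 3^-c, X6) and of the
map Pt : M_c -> Pin given by the Tietze extension of u. Pt is soft by cancellation (A7) because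
Pt o si c is homotopic to pp with short tracks and si c is fine soft.
-/

open Set Topology unitInterval Filter

namespace M202

/-- normalisation to norm 1/2 -/
noncomputable def PExt_nd {k : ℕ} (w : Fin k → ℝ) : Fin k → ℝ := (1 / (2 * ‖w‖)) • w

theorem PExt_nd_norm {k : ℕ} {w : Fin k → ℝ} (hw : w ≠ 0) : ‖PExt_nd w‖ = 1 / 2 := by
  have h : 0 < ‖w‖ := norm_pos_iff.mpr hw
  unfold PExt_nd
  rw [norm_smul, Real.norm_eq_abs, abs_of_pos (by positivity)]
  field_simp

theorem PExt_nd_le {k : ℕ} (w : Fin k → ℝ) : ‖PExt_nd w‖ ≤ 1 / 2 := by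
  by_cases hw : w = 0
  · rw [hw]
    simp [PExt_nd]
  · exact (PExt_nd_norm hw).le

theorem PExt_nd_half {k : ℕ} {w : Fin k → ℝ} (hw : ‖w‖ = 1 / 2) : PExt_nd w = w := by
  unfold PExt_nd
  rw [hw]
  norm_num

theorem PExt_nd_lip {k : ℕ} {w w' : Fin k → ℝ} (h : 1 / 4 ≤ ‖w‖) (h' : 1 / 4 ≤ ‖w'‖) :
    ‖PExt_nd w - PExt_nd w'‖ ≤ 4 * ‖w - w'‖ := by
  have hp : 0 < ‖w‖ := by linarith
  have hp' : 0 < ‖w'‖ := by linarith
  have e : PExt_nd w - PExt_nd w' = (1 / (2 * ‖w‖)) • (w - w') +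
      (1 / (2 * ‖w‖) - 1 / (2 * ‖w'‖)) • w' := by
    unfold PExt_nd
    rw [smul_sub, sub_smul]
    abel
  rw [e]
  have h1 : ‖(1 / (2 * ‖w‖)) • (w - w')‖ ≤ 2 * ‖w - w'‖ := by
    rw [norm_smul, Real.norm_eq_abs, abs_of_pos (by positivity)]
    apply mul_le_mul_of_nonneg_right _ (norm_nonneg _)
    rw [div_le_iff₀ (by positivity)]
    linarith
  have h2 : ‖(1 / (2 * ‖w‖) - 1 / (2 * ‖w'‖)) • w'‖ ≤ 2 * ‖w - w'‖ := by
    have e2 : (1 / (2 * ‖w‖) - 1 / (2 * ‖w'‖)) = (‖w'‖ - ‖w‖) / (2 * ‖w‖ * ‖w'‖) := by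
      field_simp
    rw [norm_smul, Real.norm_eq_abs, e2, abs_div, abs_of_pos (a := 2 * ‖w‖ * ‖w'‖) (by positivity)]
    have h3 : |‖w'‖ - ‖w‖| ≤ ‖w - w'‖ := by
      rw [norm_sub_rev w w']
      exact abs_norm_sub_norm_le w' w
    have e3 : |‖w'‖ - ‖w‖| / (2 * ‖w‖ * ‖w'‖) * ‖w'‖ = |‖w'‖ - ‖w‖| * (1 / (2 * ‖w‖)) := by
      field_simp
    rw [e3]
    have h4 : 1 / (2 * ‖w‖) ≤ 2 := by
      rw [div_le_iff₀ (by positivity)]
      linarith
    have h5 : 0 ≤ 1 / (2 * ‖w‖) := by positivity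
    calc |‖w'‖ - ‖w‖| * (1 / (2 * ‖w‖)) ≤ ‖w - w'‖ * 2 :=
          mul_le_mul h3 h4 h5 (norm_nonneg _)
      _ = 2 * ‖w - w'‖ := by ring
  calc _ ≤ _ := norm_add_le _ _
    _ ≤ 2 * ‖w - w'‖ + 2 * ‖w - w'‖ := add_le_add h1 h2
    _ = 4 * ‖w - w'‖ := by ring

theorem PExt_est {k : ℕ} {a a' : ℝ} {w w' : Fin k → ℝ} (ha : 0 ≤ a) (ha' : 0 ≤ a')
    (ha1 : a ≤ 1) (h : 0 < a → 1 / 4 ≤ ‖w‖) (h' : 0 < a' → 1 / 4 ≤ ‖w'‖) :
    ‖a • PExt_nd w - a' • PExt_nd w'‖ ≤ |a - a'| + 4 * ‖w - w'‖ := by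
  have hn := norm_nonneg (w - w')
  rcases ha.lt_or_eq with h0 | h0
  · rcases ha'.lt_or_eq with h0' | h0'
    · have e : a • PExt_nd w - a' • PExt_nd w' = a • (PExt_nd w - PExt_nd w') +
          (a - a') • PExt_nd w' := by
        rw [smul_sub, sub_smul]
        abel
      rw [e]
      refine le_trans (norm_add_le _ _) ?_
      rw [norm_smul, norm_smul, Real.norm_eq_abs, Real.norm_eq_abs, abs_of_pos h0]
      have h1 := PExt_nd_lip (h h0) (h' h0')
      have h2 := PExt_nd_le w'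
      have h3 := norm_nonneg (PExt_nd w - PExt_nd w')
      have h4 := norm_nonneg (PExt_nd w')
      have h5 := abs_nonneg (a - a')
      have h6 : a * ‖PExt_nd w - PExt_nd w'‖ ≤ 1 * (4 * ‖w - w'‖) :=
        mul_le_mul ha1 h1 h3 zero_le_one
      have h7 : |a - a'| * ‖PExt_nd w'‖ ≤ |a - a'| * 1 :=
        mul_le_mul_of_nonneg_left (by linarith) h5
      linarith
    · rw [← h0', zero_smul, sub_zero, norm_smul, Real.norm_eq_abs, sub_zero]
      have h2 := PExt_nd_le w
      have h5 := abs_nonneg a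
      have h7 : |a| * ‖PExt_nd w‖ ≤ |a| * 1 := mul_le_mul_of_nonneg_left (by linarith) h5
      linarith
  · rw [← h0, zero_smul, zero_sub, norm_neg, norm_smul, Real.norm_eq_abs, zero_sub, abs_neg]
    have h2 := PExt_nd_le w'
    have h5 := abs_nonneg a'
    have h7 : |a'| * ‖PExt_nd w'‖ ≤ |a'| * 1 := mul_le_mul_of_nonneg_left (by linarith) h5
    linarith

theorem PExt_cont {k : ℕ} {X : Type} [TopologicalSpace X] {a : X → ℝ} {w : X → (Fin k → ℝ)}
    (ha : Continuous a) (hw : Continuous w) (h0 : ∀ x, 0 ≤ a x) (h1 : ∀ x, a x ≤ 1)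
    (h : ∀ x, 0 < a x → 1 / 4 ≤ ‖w x‖) : Continuous (fun x => a x • PExt_nd (w x)) := by
  rw [continuous_iff_continuousAt]
  intro x0
  rw [ContinuousAt, tendsto_iff_norm_sub_tendsto_zero]
  have hlim : Tendsto (fun x => |a x - a x0| + 4 * ‖w x - w x0‖) (𝓝 x0) (𝓝 0) := by
    have hc : Continuous (fun x => |a x - a x0| + 4 * ‖w x - w x0‖) :=
      ((ha.sub continuous_const).abs).add (continuous_const.mul (hw.sub continuous_const).norm)
    have := hc.tendsto x0
    simpa using this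
  exact squeeze_zero (fun x => norm_nonneg _)
    (fun x => PExt_est (h0 x) (h0 x0) (h1 x) (h x) (h x0)) hlim

section

variable {n bs : ℕ} {la : XM n bs → ℝ}

/-- the second coordinate -/
noncomputable def PExt_sec (la : XM n bs → ℝ) (v : XM n bs) (w : Fin (n + 2) → ℝ) :
    Cube (n + 2) := SphCollapse_pt (-(la v • PExt_nd w))

theorem PExt_sec_H (h0 : ∀ v, 0 ≤ la v) (h1 : ∀ v, la v ≤ 1) (v : XM n bs)
    (w : Fin (n + 2) → ℝ) : pushH (PExt_sec la v w) = -(la v • PExt_nd w) := by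
  apply SphCollapse_pt_H
  rw [norm_neg, norm_smul, Real.norm_eq_abs, abs_of_nonneg (h0 v)]
  have := PExt_nd_le w
  have h2 := norm_nonneg (PExt_nd w)
  nlinarith [h0 v, h1 v]

theorem PExt_mem (h0 : ∀ v, 0 ≤ la v) (h1 : ∀ v, la v ≤ 1) (v : XM n bs)
    (w : Fin (n + 2) → ℝ) (h : 0 < la v → 1 / 4 ≤ ‖w‖) :
    (v, PExt_sec la v w) ∈ Pin n bs la := by
  change dist (PExt_sec la v w) (ctr (n + 2)) = la v / 2
  rw [SphCollapse_dist, PExt_sec_H h0 h1, SphCollapse_ctr, sub_zero, norm_neg, norm_smul,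
    Real.norm_eq_abs, abs_of_nonneg (h0 v)]
  rcases (h0 v).lt_or_eq with h2 | h2
  · have hw : w ≠ 0 := by
      intro hw
      have := h h2
      rw [hw, norm_zero] at this
      norm_num at this
    rw [PExt_nd_norm hw]
    ring
  · rw [← h2]
    simp

/-- the point of Pin -/
noncomputable def PExt_F (h0 : ∀ v, 0 ≤ la v) (h1 : ∀ v, la v ≤ 1) (v : XM n bs)
    (w : Fin (n + 2) → ℝ) (h : 0 < la v → 1 / 4 ≤ ‖w‖) : ↥(Pin n bs la) :=
  ⟨(v, PExt_sec la v w), PExt_mem h0 h1 v w h⟩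

theorem PExt_F_dist (h0 : ∀ v, 0 ≤ la v) (h1 : ∀ v, la v ≤ 1) (v v' : XM n bs)
    (w w' : Fin (n + 2) → ℝ) (h : 0 < la v → 1 / 4 ≤ ‖w‖) (h' : 0 < la v' → 1 / 4 ≤ ‖w'‖) :
    dist (PExt_F h0 h1 v w h) (PExt_F h0 h1 v' w' h') ≤
      max (dist v v') (|la v - la v'| + 4 * ‖w - w'‖) := by
  change dist (v, PExt_sec la v w) (v', PExt_sec la v' w') ≤ _
  rw [Prod.dist_eq]
  refine max_le_max le_rfl ?_
  simp only
  rw [SphCollapse_dist, PExt_sec_H h0 h1, PExt_sec_H h0 h1]
  have e : -(la v • PExt_nd w) - -(la v' • PExt_nd w') =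
      -(la v • PExt_nd w - la v' • PExt_nd w') := by abel
  rw [e, norm_neg]
  exact PExt_est (h0 v) (h0 v') (h1 v) h h'

theorem PExt_F_cont (h0 : ∀ v, 0 ≤ la v) (h1 : ∀ v, la v ≤ 1) (hla : Continuous la) {X : Type}
    [TopologicalSpace X] {v : X → XM n bs} {w : X → (Fin (n + 2) → ℝ)} (hv : Continuous v)
    (hw : Continuous w) (h : ∀ x, 0 < la (v x) → 1 / 4 ≤ ‖w x‖) :
    Continuous (fun x => PExt_F h0 h1 (v x) (w x) (h x)) := by
  refine Continuous.subtype_mk (hv.prodMk ?_) _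
  exact SphCollapse_pt_cont.comp
    (PExt_cont (hla.comp hv) hw (fun x => h0 _) (fun x => h1 _) h).neg

end

theorem pr_PExt (h1 : S_SkelPush) (h2 : S_SiFacts) (h3 : S_SgFacts) (h4 : S_MbFacts)
    (_h5 : S_Near) (h6 : S_Pert) (h7 : S_Grid) (h8 : S_UC) (h9 : S_SoftOfRel) (h10 : S_Basics)
    (h11 : S_DimH) (h12 : S_PinEx) (_h13 : S_SqzPz) : S_PExt := by
  have hHM : S_HepMap := pr_HepMap pr_Hep
  have hTF : S_TrackFix := pr_TrackFix hHM
  have hTL : S_TL := pr_TL hHM hTF
  have hCancel : S_Cancel := pr_Cancel h9 hTL pr_CE (pr_CubRC h7) h7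
  have hX6 : S_X6 := pr_X6 h1 h4 h9 h3 h11 h7
  have hComp : S_Comp := pr_Comp h9
  intro n bs la K u d1 pp dY de hn hla h0 hl1 hK hu hd1 hsupp hpp hdY hde hsoft
  obtain ⟨mcub, -, -, -, -, -, -, -, -, -, mMu, mZMu⟩ := h4 n hn
  obtain ⟨gs1, -, -, gs4, -, gs6, gs7, gs8, gsK⟩ := h3 n hn
  obtain ⟨sc, sM1, sface, -, -, sZb, sfine⟩ := h2 n hn
  haveI : ∀ b, CompactSpace (XM n b) := fun b => (gsK b).1
  haveI : ∀ b, CompactSpace (ZM n b) := fun b => (gsK b).2.1
  haveI : CompactSpace (UM n) := (gsK 0).2.2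
  haveI : CompactSpace ↥(Pin n bs la) := (h12 n bs la hn hla h0 hl1).2.2
  -- Tietze extension
  set K' : Set (Cube (2 * n + 1)) := Subtype.val '' K with hK'
  have hK'c : IsClosed K' := (hK.image continuous_subtype_val).isClosed
  have hKex : ∀ y : K', ∃ x : UM n, x ∈ K ∧ (x : Cube (2 * n + 1)) = y := by
    rintro ⟨y, x, hx, rfl⟩
    exact ⟨x, hx, rfl⟩
  obtain ⟨T, hTc, hTK⟩ : ∃ T : Cube (2 * n + 1) → (Fin (n + 2) → ℝ), Continuous T ∧
      ∀ x ∈ K, T (x : Cube (2 * n + 1)) = pushH (u x : Cube (n + 2)) := by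
    have hback : ∀ y : K', (y : Cube (2 * n + 1)) ∈ Mu n := by
      rintro ⟨y, x, hx, rfl⟩
      exact x.2
    let bk : K' → UM n := fun y => ⟨y, hback y⟩
    have hbk : Continuous bk := continuous_subtype_val.subtype_mk _
    have hbkK : ∀ y, bk y ∈ K := by
      rintro ⟨y, x, hx, rfl⟩
      exact hx
    let g : C(K', Fin (n + 2) → ℝ) := ⟨fun y => pushH (u (bk y) : Cube (n + 2)), by
      refine pushH_cont.comp (continuous_subtype_val.comp ?_)
      exact hu.comp_continuous hbk hbkK⟩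
    obtain ⟨F1, hF1⟩ := ContinuousMap.exists_restrict_eq hK'c g
    refine ⟨F1, F1.continuous, fun x hx => ?_⟩
    have := congrArg (fun q : C(K', Fin (n + 2) → ℝ) => q ⟨x, x, hx, rfl⟩) hF1
    exact this
  have hTn : ∀ x ∈ K, ‖T (x : Cube (2 * n + 1))‖ = 1 / 2 := by
    intro x hx
    rw [hTK x hx]
    exact pushH_bd (u x).2
  -- constants
  obtain ⟨del, hdel, hdel'⟩ := h8.1 ↥(Pin n bs la) dY hdY (de / 8) (by linarith)
  obtain ⟨r', hr', hr''⟩ := h8.1 (XM n bs) (fun x y => |la x - la y|)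
    (h8.2.2.2.2.2.1 (XM n bs) la hla) (del / 2) (by linarith)
  obtain ⟨r, hr, hrT⟩ := h8.2.1 (Cube (2 * n + 1)) (Fin (n + 2) → ℝ) (fun x y => dist x y) T
    (h8.2.2.2.2.2.2.2 (Fin (n + 2) → ℝ)) hTc (min (1 / 4) (del / 8))
    (lt_min (by norm_num) (by linarith))
  obtain ⟨c1, hc1⟩ := exists_pow_lt_of_lt_one (show 0 < min (min d1 r') (min del r) from
    lt_min (lt_min hd1 hr') (lt_min hdel hr)) (show (1 / 2 : ℝ) < 1 by norm_num)
  refine ⟨max bs c1, le_max_left _ _, fun c hc => ?_⟩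
  have hbc : bs ≤ c := le_trans (le_max_left _ _) hc
  have hcc : c1 ≤ c := le_trans (le_max_right _ _) hc
  have h2c : (1 : ℝ) / 2 ^ c < min (min d1 r') (min del r) := by
    refine lt_of_le_of_lt ?_ hc1
    rw [one_div, ← inv_pow, ← one_div]
    exact pow_le_pow_of_le_one (by norm_num) (by norm_num) hcc
  have h2d1 : (1 : ℝ) / 2 ^ c ≤ d1 := by
    have := h2c.le.trans (min_le_left _ _)
    exact this.trans (min_le_left _ _)
  have h2r' : (1 : ℝ) / 2 ^ c ≤ r' := by
    have := h2c.le.trans (min_le_left _ _)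
    exact this.trans (min_le_right _ _)
  have h2del : (1 : ℝ) / 2 ^ c ≤ del := by
    have := h2c.le.trans (min_le_right _ _)
    exact this.trans (min_le_left _ _)
  have h2r : (1 : ℝ) / 2 ^ c ≤ r := by
    have := h2c.le.trans (min_le_right _ _)
    exact this.trans (min_le_right _ _)
  have h32 : (1 : ℝ) / 3 ^ c ≤ 1 / 2 ^ c := by
    apply one_div_le_one_div_of_le (by positivity)
    exact pow_le_pow_left₀ (by norm_num) (by norm_num) c
  have h3r : (1 : ℝ) / 3 ^ c ≤ r := h32.trans h2r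
  -- modulus of the bonding map
  have hsM : ∀ x y : XM n c, dist x y ≤ 1 / 3 ^ c →
      dist (sM n bs c x) (sM n bs c y) ≤ 1 / 2 ^ c := by
    intro x y hxy
    rw [Subtype.dist_eq, (gs4 bs c hbc).2, (gs4 bs c hbc).2]
    exact (gs1 bs c hbc).2.2.2.2.1 x x.2 y y.2 hxy
  have hface : ∀ (x : Cube (2 * n + 1)), ∀ y ∈ faceOf (3 ^ c) x, ∀ z ∈ faceOf (3 ^ c) x,
      dist y z ≤ 1 / 3 ^ c := by
    intro x y hy z hz
    have := (h7.1 (2 * n + 1) (3 ^ c) x (Nat.one_le_pow _ _ (by norm_num))).2.2.2 y hy z hz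
    push_cast at this
    exact this
  have hself : ∀ (x : Cube (2 * n + 1)), x ∈ faceOf (3 ^ c) x := fun x =>
    (h7.1 (2 * n + 1) (3 ^ c) x (Nat.one_le_pow _ _ (by norm_num))).1
  -- T is large where la is positive
  have hstar : ∀ x : XM n c, 0 < la (sM n bs c x) → 1 / 4 ≤ ‖T (x : Cube (2 * n + 1))‖ := by
    intro x hx
    obtain ⟨Kh, -, hK0, hK1, -, hKf⟩ := h1 (2 * n + 1) (3 ^ c) n 0 (Mb n c) univ
      (fun _ => (x : Cube (2 * n + 1))) (Nat.one_le_pow _ _ (by norm_num)) (mcub c).1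
      isClosed_univ (h11.2.2.2.2 0 (n + 1) (Nat.succ_pos n) univ) continuousOn_const
      (fun _ _ => x.2)
    set x' := Kh (1, fun i => 0) with hx'
    have hx'f : x' ∈ faceOf (3 ^ c) (x : Cube (2 * n + 1)) := hKf 1 _ (mem_univ _)
    have hx'Z : x' ∈ Zb n c := ⟨(mcub c).1 _ x.2 hx'f, hK1 _ (mem_univ _)⟩
    have hx'U : x' ∈ Mu n := mZMu c hx'Z
    have e1 : ((si n c ⟨x', hx'U⟩ : XM n c) : Cube (2 * n + 1)) = x' :=
      sZb c c ⟨x', hx'U⟩ le_rfl hx'Z
    have e2 := sM1 bs c ⟨x', hx'U⟩ hbc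
    have hd : dist x (si n c ⟨x', hx'U⟩) ≤ 1 / 3 ^ c := by
      rw [Subtype.dist_eq, e1]
      exact hface _ _ (hself _) _ hx'f
    have hKx : (⟨x', hx'U⟩ : UM n) ∈ K := by
      refine hsupp _ (sM n bs c x) ?_ hx
      rw [← e2]
      exact (hsM _ _ hd).trans h2d1
    have h5 := hTn _ hKx
    have h6 : dist (T (x : Cube (2 * n + 1))) (T x') ≤ min (1 / 4) (del / 8) := by
      apply hrT
      refine le_trans ?_ h3r
      exact hface _ _ (hself _) _ hx'f
    have h7' := h6.trans (min_le_left _ _)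
    rw [dist_eq_norm] at h7'
    have h8' : ‖T x'‖ ≤ ‖T (x : Cube (2 * n + 1))‖ + ‖T (x : Cube (2 * n + 1)) - T x'‖ := by
      have := norm_sub_norm_le (T x') (T (x : Cube (2 * n + 1)))
      rw [norm_sub_rev] at this
      linarith
    simp only at h5
    linarith
  -- the map Pt
  let Pt : XM n c → ↥(Pin n bs la) := fun x =>
    PExt_F h0 hl1 (sM n bs c x) (T (x : Cube (2 * n + 1))) (hstar x)
  have hPtc : Continuous Pt :=
    PExt_F_cont h0 hl1 hla (gs4 bs c hbc).1 (hTc.comp continuous_subtype_val) hstar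
  -- pp in terms of T
  have hKpos : ∀ x : UM n, 0 < la (si n bs x) → 1 / 4 ≤ ‖T (x : Cube (2 * n + 1))‖ := by
    intro x hx
    have : x ∈ K := hsupp x (si n bs x) (by rw [dist_self]; exact hd1.le) hx
    rw [hTn x this]
    norm_num
  have hppF : ∀ x : UM n, pp x = PExt_F h0 hl1 (si n bs x) (T (x : Cube (2 * n + 1))) (hKpos x) := by
    intro x
    obtain ⟨hp1, hp2⟩ := hpp.2 x
    apply Subtype.ext
    refine Prod.ext hp1 ?_
    apply pushH_inj
    change _ = pushH (PExt_sec la (si n bs x) (T (x : Cube (2 * n + 1))))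
    rw [PExt_sec_H h0 hl1]
    funext l
    have h5 := hp2 l
    simp only [pushH]
    rw [h5]
    simp only [Pi.neg_apply, Pi.smul_apply, smul_eq_mul]
    rcases (h0 (si n bs x)).lt_or_eq with h6 | h6
    · have hxK : x ∈ K := hsupp x (si n bs x) (by rw [dist_self]; exact hd1.le) h6
      rw [PExt_nd_half (hTn x hxK), hTK x hxK]
      simp only [pushH]
      ring
    · rw [← h6]
      ring
  -- distance estimate
  have hest : ∀ (v v' : XM n bs) (w w' : Fin (n + 2) → ℝ) (h : 0 < la v → 1 / 4 ≤ ‖w‖)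
      (h' : 0 < la v' → 1 / 4 ≤ ‖w'‖), dist v v' ≤ 1 / 2 ^ c → ‖w - w'‖ ≤ del / 8 →
      dY (PExt_F h0 hl1 v w h) (PExt_F h0 hl1 v' w' h') ≤ de / 8 := by
    intro v v' w w' h h' hv hw
    apply hdel'
    refine le_trans (PExt_F_dist h0 hl1 v v' w w' h h') ?_
    have h5 : |la v - la v'| ≤ del / 2 := hr'' v v' (hv.trans h2r')
    refine max_le (hv.trans h2del) ?_
    linarith
  -- the homotopy
  have hTh : ∀ (x : UM n), ‖T ((si n c x : XM n c) : Cube (2 * n + 1)) - T (x : Cube (2 * n + 1))‖ ≤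
      min (1 / 4) (del / 8) := by
    intro x
    rw [← dist_eq_norm]
    apply hrT
    refine le_trans ?_ h3r
    exact hface _ _ (sface c x) _ (hself _)
  have hline : ∀ (t : I) (x : UM n), 0 < la (si n bs x) →
      1 / 4 ≤ ‖T (x : Cube (2 * n + 1)) + (t : ℝ) •
        (T ((si n c x : XM n c) : Cube (2 * n + 1)) - T (x : Cube (2 * n + 1)))‖ := by
    intro t x hx
    have hxK : x ∈ K := hsupp x (si n bs x) (by rw [dist_self]; exact hd1.le) hx
    have h5 := hTn x hxK
    have h6 := (hTh x).trans (min_le_left _ _)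
    set dd := T ((si n c x : XM n c) : Cube (2 * n + 1)) - T (x : Cube (2 * n + 1)) with hdd
    have h7' : ‖(t : ℝ) • dd‖ ≤ 1 / 4 := by
      rw [norm_smul, Real.norm_eq_abs, abs_of_nonneg t.2.1]
      have := t.2.2
      have h9 := norm_nonneg dd
      nlinarith [t.2.1]
    have h8' := norm_sub_norm_le (T (x : Cube (2 * n + 1))) (-((t : ℝ) • dd))
    rw [sub_neg_eq_add, norm_neg] at h8'
    linarith
  let Th : I × UM n → ↥(Pin n bs la) := fun p =>
    PExt_F h0 hl1 (si n bs p.2) (T (p.2 : Cube (2 * n + 1)) + (p.1 : ℝ) •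
        (T ((si n c p.2 : XM n c) : Cube (2 * n + 1)) - T (p.2 : Cube (2 * n + 1))))
      (hline p.1 p.2)
  have hThc : Continuous Th := by
    refine PExt_F_cont h0 hl1 hla ((sc bs).comp continuous_snd) ?_ (fun p => hline p.1 p.2)
    have e1 : Continuous (fun p : I × UM n => T (p.2 : Cube (2 * n + 1))) :=
      hTc.comp (continuous_subtype_val.comp continuous_snd)
    have e2 : Continuous (fun p : I × UM n =>
        T ((si n c p.2 : XM n c) : Cube (2 * n + 1))) :=
      hTc.comp (continuous_subtype_val.comp ((sc c).comp continuous_snd))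
    exact e1.add ((continuous_subtype_val.comp continuous_fst).smul (e2.sub e1))
  have hFeq : ∀ (v v' : XM n bs) (w w' : Fin (n + 2) → ℝ) (h : 0 < la v → 1 / 4 ≤ ‖w‖)
      (h' : 0 < la v' → 1 / 4 ≤ ‖w'‖), v = v' → w = w' →
      PExt_F h0 hl1 v w h = PExt_F h0 hl1 v' w' h' := by
    intro v v' w w' h h' e1 e2
    subst e1 e2
    rfl
  have hsoft2 : Soft n dY (de + 2 * (de / 8)) (fun x => Pt (si n c x)) := by
    refine h6 n (UM n) ↥(Pin n bs la) dY de (de / 8) pp _ Th hdY hThc ?_ ?_ ?_ hsoft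
    · intro x
      rw [hppF x]
      apply hFeq _ _ _ _ _ _ rfl
      simp only [Icc.coe_zero, zero_smul, add_zero]
    · intro x
      apply hFeq _ _ _ _ _ _ (sM1 bs c x hbc).symm
      simp only [Icc.coe_one, one_smul]
      abel
    · intro s t x
      apply hest
      · rw [dist_self]; positivity
      · have e : T (x : Cube (2 * n + 1)) + (s : ℝ) •
            (T ((si n c x : XM n c) : Cube (2 * n + 1)) - T (x : Cube (2 * n + 1))) -
            (T (x : Cube (2 * n + 1)) + (t : ℝ) •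
            (T ((si n c x : XM n c) : Cube (2 * n + 1)) - T (x : Cube (2 * n + 1)))) =
            ((s : ℝ) - t) • (T ((si n c x : XM n c) : Cube (2 * n + 1)) -
              T (x : Cube (2 * n + 1))) := by
          rw [sub_smul]
          abel
        simp only
        rw [e, norm_smul, Real.norm_eq_abs]
        have h5 : |(s : ℝ) - t| ≤ 1 := by
          rw [abs_le]
          have := s.2.1
          have := s.2.2
          have := t.2.1
          have := t.2.2
          constructor <;> linarith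
        have h6' := (hTh x).trans (min_le_right _ _)
        have h9 := norm_nonneg (T ((si n c x : XM n c) : Cube (2 * n + 1)) -
          T (x : Cube (2 * n + 1)))
        calc _ ≤ 1 * ‖T ((si n c x : XM n c) : Cube (2 * n + 1)) -
              T (x : Cube (2 * n + 1))‖ := mul_le_mul_of_nonneg_right h5 h9
          _ ≤ _ := by rw [one_mul]; exact h6'
  -- cancellation
  have hne : Nonempty (UM n) := ⟨⟨0, mZMu 0 (zero_mem_Zb n 0)⟩⟩
  have hD' : IsCPM (fun x y : XM n c => dY (Pt x) (Pt y)) := h8.2.2.1 _ _ dY Pt hdY hPtc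
  have hsoft3 : Soft n dY (de + 2 * (de / 8) + n * 0) Pt :=
    hCancel n (UM n) (XM n c) ↥(Pin n bs la) dY 0 (de + 2 * (de / 8)) (si n c) Pt hne hdY
      (sc c) hPtc le_rfl (sfine c _ hD') hsoft2
  -- inclusion of Z_c
  have hmod : ∀ x y : XM n c, dist x y ≤ 1 / 3 ^ c → dY (Pt x) (Pt y) ≤ de / 8 := by
    intro x y hxy
    apply hest
    · exact hsM x y hxy
    · rw [← dist_eq_norm]
      have h5 : dist (x : Cube (2 * n + 1)) (y : Cube (2 * n + 1)) ≤ r := by
        rw [← Subtype.dist_eq]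
        exact hxy.trans h3r
      exact (hrT _ _ h5).trans (min_le_right _ _)
  have hsoft4 : Soft n (fun x y : XM n c => dY (Pt x) (Pt y)) (de / 8) (iZ n c c) :=
    hX6 n c _ (de / 8) hn hD' hmod
  have hiZc : Continuous (iZ n c c) := (gs8 c c (toZ n c 0)).1
  have hsoft5 : Soft n dY (de / 8 + (de + 2 * (de / 8) + n * 0)) (fun a => Pt (iZ n c c a)) :=
    hComp n (ZM n c) (XM n c) ↥(Pin n bs la) dY (de / 8) (de + 2 * (de / 8) + n * 0)
      (iZ n c c) Pt hdY hiZc hPtc hsoft4 hsoft3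
  refine ⟨fun a => Pt (iZ n c c a), hPtc.comp hiZc, ?_, fun x => rfl, ?_⟩
  · exact h10.1 n n _ _ dY dY _ _ _ le_rfl (by linarith) hdY hdY (hPtc.comp hiZc)
      (fun x y => le_rfl) hsoft5
  · intro x
    set y : ZM n c := pZ n c (si n (c + 1) x) with hy
    have hyc : (y : Cube (2 * n + 1)) ∈ faceOf (3 ^ c) (x : Cube (2 * n + 1)) := by
      have e1 : (si n (c + 1) x : Cube (2 * n + 1)) ∈ faceOf (3 ^ (c + 1)) (x : Cube (2 * n + 1)) :=
        sface (c + 1) x
      have e2 : (si n (c + 1) x : Cube (2 * n + 1)) ∈ faceOf (3 ^ c) (x : Cube (2 * n + 1)) := by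
        intro i
        obtain ⟨e3, e4⟩ := e1 i
        have hx3 : ((3 ^ (c + 1) : ℕ) : ℝ) = 3 * ((3 ^ c : ℕ) : ℝ) := by
          push_cast
          ring
        rw [hx3] at e3 e4
        constructor
        · have e5 : (3 * ⌊((3 ^ c : ℕ) : ℝ) * ((x : Cube (2 * n + 1)) i : ℝ)⌋ : ℤ) ≤
              ⌊3 * ((3 ^ c : ℕ) : ℝ) * ((x : Cube (2 * n + 1)) i : ℝ)⌋ := by
            rw [Int.le_floor]
            push_cast
            have := Int.floor_le (((3 ^ c : ℕ) : ℝ) * ((x : Cube (2 * n + 1)) i : ℝ))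
            push_cast at this
            nlinarith
          have e6 : (3 : ℝ) * (⌊((3 ^ c : ℕ) : ℝ) * ((x : Cube (2 * n + 1)) i : ℝ)⌋ : ℝ) ≤
              (⌊3 * ((3 ^ c : ℕ) : ℝ) * ((x : Cube (2 * n + 1)) i : ℝ)⌋ : ℝ) := by
            exact_mod_cast e5
          linarith
        · have e5 : ⌈3 * ((3 ^ c : ℕ) : ℝ) * ((x : Cube (2 * n + 1)) i : ℝ)⌉ ≤
              (3 * ⌈((3 ^ c : ℕ) : ℝ) * ((x : Cube (2 * n + 1)) i : ℝ)⌉ : ℤ) := by
            rw [Int.ceil_le]
            push_cast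
            have := Int.le_ceil (((3 ^ c : ℕ) : ℝ) * ((x : Cube (2 * n + 1)) i : ℝ))
            push_cast at this
            nlinarith
          have e6 : (⌈3 * ((3 ^ c : ℕ) : ℝ) * ((x : Cube (2 * n + 1)) i : ℝ)⌉ : ℝ) ≤
              (3 : ℝ) * (⌈((3 ^ c : ℕ) : ℝ) * ((x : Cube (2 * n + 1)) i : ℝ)⌉ : ℝ) := by
            exact_mod_cast e5
          linarith
      have e7 : (y : Cube (2 * n + 1)) ∈ faceOf (3 ^ c) (si n (c + 1) x : Cube (2 * n + 1)) := by
        rw [hy, (gs7 c (si n (c + 1) x)).2]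
        exact (_h13 n c hn).2.1.2.2.1 _ (si n (c + 1) x).2
      exact (h7.1 (2 * n + 1) (3 ^ c) (x : Cube (2 * n + 1))
        (Nat.one_le_pow _ _ (by norm_num))).2.2.1 _ e2 e7
    have hyv : ((iZ n c c y : XM n c) : Cube (2 * n + 1)) = y := (gs8 c c y).2
    have hfin : dY (Pt (iZ n c c y)) (pp x) ≤ de / 8 := by
      rw [hppF x]
      apply hest
      · rw [← sM1 bs c x hbc]
        apply hsM
        rw [Subtype.dist_eq, hyv]
        exact hface _ _ hyc _ (sface c x)
      · rw [hyv, ← dist_eq_norm]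
        refine (hrT _ _ ?_).trans (min_le_right _ _)
        exact (hface _ _ hyc _ (hself _)).trans h3r
    linarith

end M202

end

section

/-!
MP_202a65_gt, item PPSoft: softness of pp, from the two parts PPhi (la not small) and PPlo (la
small).
-/

open Set Topology unitInterval

namespace M202

/-- union of the faces which meet N1 -/
def PPSoft_L1 (L : ℕ) {m : ℕ} (N1 : Set (Cube m)) : Set (Cube m) :=
  {y | ∃ x, y ∈ faceOf L x ∧ (faceOf L x ∩ N1).Nonempty}

/-- union of the faces which do not meet N1 -/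
def PPSoft_L2 (L : ℕ) {m : ℕ} (N1 : Set (Cube m)) : Set (Cube m) :=
  {y | ∃ x, y ∈ faceOf L x ∧ ∀ z ∈ faceOf L x, z ∉ N1}

theorem PPSoft_cub1 (h3 : S_Grid) (L : ℕ) (hL : 1 ≤ L) {m : ℕ} (N1 : Set (Cube m)) :
    Cubical L (PPSoft_L1 L N1) := by
  rintro y ⟨x, hy, hx⟩ z hz
  exact ⟨x, (h3.1 m L x hL).2.2.1 y hy hz, hx⟩

theorem PPSoft_cub2 (h3 : S_Grid) (L : ℕ) (hL : 1 ≤ L) {m : ℕ} (N1 : Set (Cube m)) :
    Cubical L (PPSoft_L2 L N1) := by
  rintro y ⟨x, hy, hx⟩ z hz
  exact ⟨x, (h3.1 m L x hL).2.2.1 y hy hz, hx⟩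

theorem PPSoft_univ (h3 : S_Grid) (L : ℕ) (hL : 1 ≤ L) {m : ℕ} (N1 : Set (Cube m)) (x : Cube m) :
    x ∈ PPSoft_L1 L N1 ∨ x ∈ PPSoft_L2 L N1 := by
  have hx := (h3.1 m L x hL).1
  by_cases h : (faceOf L x ∩ N1).Nonempty
  · exact Or.inl ⟨x, hx, h⟩
  · refine Or.inr ⟨x, hx, ?_⟩
    intro z hz hzN
    exact h ⟨z, hz, hzN⟩

theorem pr_PPSoft (h1 : S_PPhi) (h2 : S_PPlo) (h3 : S_Grid) (h4 : S_SoftOfRel) (h5 : S_UC)
    (h6 : S_PinEx) (h7 : S_MbFacts) (h8 : S_SiFacts) : S_PPSoft := by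
  have _ := h6
  have _ := h7
  intro n bs la ze V' K g d1 dY de hn hcd hdY hde
  obtain ⟨vt, dp, hvt, hdp, hlo⟩ := h2 n bs la ze V' K g d1 dY de hn hcd hdY hde
  have hD1 : IsCPM (fun x y : ↥(Pin n bs la) => max (dY x y) (dist x y)) :=
    h5.2.2.2.1 _ dY (fun x y => dist x y) hdY (h5.2.2.2.2.2.2.2 _)
  obtain ⟨b2, eta, hb2, heta, hhi⟩ := h1 n bs la ze V' K g d1 _ (min de dp) hn hcd hD1
    (lt_min hde hdp)
  refine ⟨b2, eta, hb2, heta, ?_⟩
  intro a th u pp ha hth hsoft hdist hu hpp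
  have huK : ContinuousOn u K := by
    have hc : ContinuousOn (fun x => (th (si n a (g x))).2) V' :=
      (continuous_snd.comp (hth.comp ((h8 n hn).1 a))).comp_continuousOn hcd.contg
    exact (hc.congr hu).mono hcd.subK
  have hhi' := hhi a th u pp ha hth hsoft hdist hu hpp
  have hlo' := hlo u pp huK hpp
  apply h4 n _ _ dY de pp hdY hpp.1
  intro m hm eta' heta' be al hbe hal hbd
  have hlav : Continuous fun x => la (be x).1.1 :=
    hcd.contla.comp (continuous_fst.comp (continuous_subtype_val.comp hbe))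
  -- the mesh
  obtain ⟨r, hr, hrla⟩ : ∃ r > 0, ∀ x y : Cube m, dist x y < r →
      dist (la (be x).1.1) (la (be y).1.1) < vt := by
    have huc := CompactSpace.uniformContinuous_of_continuous hlav
    rw [Metric.uniformContinuous_iff] at huc
    obtain ⟨r, hr, h⟩ := huc vt hvt
    exact ⟨r, hr, fun x y hxy => h hxy⟩
  obtain ⟨L0, hL0⟩ := exists_nat_one_div_lt hr
  obtain ⟨L, hLdef⟩ : ∃ L, L = L0 + 1 := ⟨_, rfl⟩
  have hL : 1 ≤ L := by omega
  have hLr : (1 : ℝ) / L < r := by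
    rw [hLdef]
    push_cast
    exact hL0
  set N1 : Set (Cube m) := {x | vt ≤ la (be x).1.1} with hN1
  have hc1 := PPSoft_cub1 h3 L hL N1
  have hc2 := PPSoft_cub2 h3 L hL N1
  have hcb : Cubical L (bd m) := (h3.2.2.1 m L hL).1
  have hun := PPSoft_univ h3 L hL N1
  have hcl1 : IsClosed (PPSoft_L1 L N1) := h3.2.2.2.2.1 m L _ hL hc1
  have hcl2 : IsClosed (PPSoft_L2 L N1) := h3.2.2.2.2.1 m L _ hL hc2
  have hclb : IsClosed (bd m) := h3.2.2.2.2.1 m L _ hL hcb
  have hpos : ∀ x ∈ PPSoft_L1 L N1, 0 < la (be x).1.1 := by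
    rintro x ⟨y, hxy, z, hz, hzN⟩
    have hd := (h3.1 m L y hL).2.2.2 x hxy z hz
    have h9 := hrla x z (lt_of_le_of_lt hd hLr)
    rw [Real.dist_eq] at h9
    have h10 := (abs_lt.1 h9).1
    have h11 : vt ≤ la (be z).1.1 := hzN
    linarith
  have hsmall : ∀ x ∈ PPSoft_L2 L N1, la (be x).1.1 ≤ vt := by
    rintro x ⟨y, hxy, hy⟩
    exact (not_le.1 (hy x hxy)).le
  -- first step
  obtain ⟨al1, G1, hal1, hG1, hal1e, hG1e, hG10, hG11, hG1d⟩ := hhi' m L (PPSoft_L1 L N1)
    (PPSoft_L1 L N1 ∩ bd m) be al hm hL hc1 (h3.2.2.2.1 m L _ _ hc1 hcb).2 inter_subset_left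
    hbe.continuousOn (hal.mono inter_subset_right) (fun x hx => hbd x hx.2) hpos
  classical
  -- second step
  obtain ⟨al3, G3, hal3, hG3, hal3e, hG3e, hG30, hG31, hG3d⟩ := hlo' m L (PPSoft_L2 L N1)
    ((PPSoft_L2 L N1 ∩ PPSoft_L1 L N1) ∪ (PPSoft_L2 L N1 ∩ bd m)) be
    (fun x => if x ∈ PPSoft_L1 L N1 then al1 x else al x)
    (fun p => if p.2 ∈ PPSoft_L1 L N1 then G1 p else be p.2) hm hL hc2
    (h3.2.2.2.1 m L _ _ (h3.2.2.2.1 m L _ _ hc2 hc1).2 (h3.2.2.2.1 m L _ _ hc2 hcb).2).1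
    (union_subset inter_subset_left inter_subset_left) hbe.continuousOn
    (by
      refine ContinuousOn.union_of_isClosed ?_ ?_ (hcl2.inter hcl1) (hcl2.inter hclb)
      · refine (hal1.mono inter_subset_right).congr ?_
        intro x hx
        simp only [hx.2, if_true]
      · refine (hal.mono inter_subset_right).congr ?_
        intro x hx
        simp only
        split_ifs with h
        · exact hal1e x ⟨h, hx.2⟩
        · rfl)
    (by
      rw [Set.prod_union]
      refine ContinuousOn.union_of_isClosed ?_ ?_ (isClosed_univ.prod (hcl2.inter hcl1))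
        (isClosed_univ.prod (hcl2.inter hclb))
      · refine (hG1.mono (Set.prod_mono_right inter_subset_right)).congr ?_
        rintro ⟨t, x⟩ ⟨_, hx⟩
        have hx2 : x ∈ PPSoft_L1 L N1 := hx.2
        simp only [hx2, if_true]
      · have hc : ContinuousOn (fun p : I × Cube m => be p.2)
            (univ ×ˢ (PPSoft_L2 L N1 ∩ bd m)) := (hbe.comp continuous_snd).continuousOn
        refine hc.congr ?_
        rintro ⟨t, x⟩ ⟨_, hx⟩
        simp only
        split_ifs with h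
        · exact hG1e t x ⟨h, hx.2⟩
        · rfl)
    (by
      intro x hx
      simp only
      split_ifs with h
      · exact hG10 x h
      · rcases hx with hx | hx
        · exact absurd hx.2 h
        · exact (hbd x hx.2).symm)
    (by
      intro x hx
      simp only
      split_ifs with h
      · exact hG11 x h
      · rfl)
    (by
      intro t x hx
      simp only
      split_ifs with h
      · exact (le_max_right _ _).trans ((hG1d t x h).trans (min_le_right _ _))
      · rw [dist_self]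
        exact hdp.le)
    hsmall
  -- agreement on the intersection
  have hagal : ∀ x ∈ PPSoft_L2 L N1, x ∈ PPSoft_L1 L N1 → al3 x = al1 x := by
    intro x hx2 hx1
    rw [hal3e x (Or.inl ⟨hx2, hx1⟩)]
    simp only [hx1, if_true]
  have hagG : ∀ t, ∀ x ∈ PPSoft_L2 L N1, x ∈ PPSoft_L1 L N1 → G3 (t, x) = G1 (t, x) := by
    intro t x hx2 hx1
    rw [hG3e t x (Or.inl ⟨hx2, hx1⟩)]
    simp only [hx1, if_true]
  have hL2 : ∀ x, x ∉ PPSoft_L1 L N1 → x ∈ PPSoft_L2 L N1 := fun x hx =>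
    (hun x).resolve_left hx
  have hcover : PPSoft_L1 L N1 ∪ PPSoft_L2 L N1 = univ := by
    rw [Set.eq_univ_iff_forall]
    exact hun
  refine ⟨fun x => if x ∈ PPSoft_L1 L N1 then al1 x else al3 x,
    fun p => if p.2 ∈ PPSoft_L1 L N1 then G1 p else G3 p, ?_, ?_, ?_, ?_, ?_, ?_, ?_⟩
  · rw [← continuousOn_univ, ← hcover]
    refine ContinuousOn.union_of_isClosed ?_ ?_ hcl1 hcl2
    · refine hal1.congr ?_
      intro x hx
      simp only [hx, if_true]
    · refine hal3.congr ?_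
      intro x hx
      simp only
      split_ifs with h
      · exact (hagal x hx h).symm
      · rfl
  · rw [← continuousOn_univ, ← Set.univ_prod_univ, ← hcover, Set.prod_union]
    refine ContinuousOn.union_of_isClosed ?_ ?_ (isClosed_univ.prod hcl1)
      (isClosed_univ.prod hcl2)
    · refine hG1.congr ?_
      rintro ⟨t, x⟩ ⟨_, hx⟩
      have hx2 : x ∈ PPSoft_L1 L N1 := hx
      simp only [hx2, if_true]
    · refine hG3.congr ?_
      rintro ⟨t, x⟩ ⟨_, hx⟩
      have hx2 : x ∈ PPSoft_L2 L N1 := hx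
      simp only
      split_ifs with h
      · exact (hagG t x hx2 h).symm
      · rfl
  · intro x hx
    simp only
    split_ifs with h
    · exact hal1e x ⟨h, hx⟩
    · rw [hal3e x (Or.inr ⟨hL2 x h, hx⟩)]
      simp only [h, if_false]
  · intro t x hx
    simp only
    split_ifs with h
    · exact hG1e t x ⟨h, hx⟩
    · rw [hG3e t x (Or.inr ⟨hL2 x h, hx⟩)]
      simp only [h, if_false]
  · intro x
    simp only
    split_ifs with h
    · exact hG10 x h
    · exact hG30 x (hL2 x h)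
  · intro x
    simp only
    split_ifs with h
    · exact hG11 x h
    · exact hG31 x (hL2 x h)
  · intro t x
    simp only
    split_ifs with h
    · exact (le_max_left _ _).trans ((hG1d t x h).trans ((min_le_left _ _).trans heta'.le))
    · exact (hG3d t x (hL2 x h)).trans heta'.le

end M202

end

section

/-!
MP_202a65_gt, item PPhi: softness of pp over the part where la is positive.
-/

open Set Topology unitInterval Filter

namespace M202

/-- the direction of w, seen from the centre, negated -/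
noncomputable def PPhi_df (n : ℕ) (r : ℝ) (w : Cube (n + 2)) : Cube (n + 2) :=
  fun l => Set.projIcc (0 : ℝ) 1 zero_le_one (1 / 2 - (((w l : unitInterval) : ℝ) - 1 / 2) / r)

theorem PPhi_zero_mem (n : ℕ) : (0 : Cube (n + 2)) ∈ bd (n + 2) := ⟨0, Or.inl rfl⟩

open Classical in
/-- the direction as a point of the sphere -/
noncomputable def PPhi_dir (n : ℕ) (r : ℝ) (w : Cube (n + 2)) : SS n :=
  if h : PPhi_df n r w ∈ bd (n + 2) then ⟨_, h⟩ else ⟨0, PPhi_zero_mem n⟩

theorem PPhi_dist_le {n : ℕ} {w : Cube (n + 2)} {r : ℝ} (h : dist w (ctr (n + 2)) = r / 2)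
    (l : Fin (n + 2)) : |((w l : unitInterval) : ℝ) - 1 / 2| ≤ r / 2 := by
  have h1 := dist_le_pi_dist w (ctr (n + 2)) l
  rw [h, Subtype.dist_eq, Real.dist_eq] at h1
  exact h1

theorem PPhi_dist_ex {n : ℕ} {w : Cube (n + 2)} {r : ℝ} (hr : 0 < r)
    (h : dist w (ctr (n + 2)) = r / 2) :
    ∃ l, |((w l : unitInterval) : ℝ) - 1 / 2| = r / 2 := by
  by_contra hcon
  push Not at hcon
  have h1 : dist w (ctr (n + 2)) < r / 2 := by
    rw [dist_pi_lt_iff (by linarith)]
    intro l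
    rw [Subtype.dist_eq, Real.dist_eq]
    exact lt_of_le_of_ne (PPhi_dist_le h l) (hcon l)
  linarith

theorem PPhi_df_val {n : ℕ} {w : Cube (n + 2)} {r : ℝ} (hr : 0 < r)
    (h : dist w (ctr (n + 2)) = r / 2) (l : Fin (n + 2)) :
    ((PPhi_df n r w l : unitInterval) : ℝ) = 1 / 2 - (((w l : unitInterval) : ℝ) - 1 / 2) / r := by
  have h1 := PPhi_dist_le h l
  have h2 : |(((w l : unitInterval) : ℝ) - 1 / 2) / r| ≤ 1 / 2 := by
    rw [abs_div, abs_of_pos hr, div_le_iff₀ hr]
    linarith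
  rw [abs_le] at h2
  unfold PPhi_df
  rw [Set.projIcc_of_mem zero_le_one (show _ ∈ Icc (0 : ℝ) 1 from ⟨by linarith, by linarith⟩)]

theorem PPhi_df_mem {n : ℕ} {w : Cube (n + 2)} {r : ℝ} (hr : 0 < r)
    (h : dist w (ctr (n + 2)) = r / 2) : PPhi_df n r w ∈ bd (n + 2) := by
  obtain ⟨l, hl⟩ := PPhi_dist_ex hr h
  have hv := PPhi_df_val hr h l
  refine ⟨l, ?_⟩
  rcases abs_eq (by linarith : (0 : ℝ) ≤ r / 2) |>.1 hl with h1 | h1
  · left
    apply Subtype.ext
    rw [hv, h1]
    change (1 : ℝ) / 2 - r / 2 / r = 0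
    field_simp
    norm_num
  · right
    apply Subtype.ext
    rw [hv, h1]
    change (1 : ℝ) / 2 - -(r / 2) / r = 1
    field_simp
    norm_num

theorem PPhi_dir_spec {n : ℕ} {w : Cube (n + 2)} {r : ℝ} (hr : 0 < r)
    (h : dist w (ctr (n + 2)) = r / 2) (l : Fin (n + 2)) :
    ((w l : unitInterval) : ℝ) - 1 / 2 =
      - r * ((((PPhi_dir n r w : Cube (n + 2)) l : unitInterval) : ℝ) - 1 / 2) := by
  unfold PPhi_dir
  rw [dif_pos (PPhi_df_mem hr h)]
  change _ = - r * (((PPhi_df n r w l : unitInterval) : ℝ) - 1 / 2)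
  rw [PPhi_df_val hr h l]
  field_simp
  ring

/-- the antipodal map -/
def PPhi_anti {n : ℕ} (u : SS n) : SS n :=
  ⟨fun l => σ ((u : Cube (n + 2)) l), by
    obtain ⟨u, l, hl⟩ := u
    refine ⟨l, ?_⟩
    rcases hl with hl | hl
    · right
      simp [hl]
    · left
      simp [hl]⟩

theorem PPhi_anti_cont (n : ℕ) : Continuous (PPhi_anti (n := n)) := by
  refine Continuous.subtype_mk (continuous_pi fun l => ?_) _
  exact unitInterval.continuous_symm.comp ((continuous_apply l).comp continuous_subtype_val)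

theorem PPhi_anti_val {n : ℕ} (u : SS n) (l : Fin (n + 2)) :
    (((PPhi_anti u : Cube (n + 2)) l : unitInterval) : ℝ) - 1 / 2 =
      -((((u : Cube (n + 2)) l : unitInterval) : ℝ) - 1 / 2) := by
  change ((σ ((u : Cube (n + 2)) l) : unitInterval) : ℝ) - 1 / 2 = _
  rw [unitInterval.coe_symm_eq]
  ring

theorem PPhi_ne (n : ℕ) : Nonempty (UM n) :=
  ⟨⟨0, by
    unfold Mu
    exact mem_iInter.2 fun b => zero_mem_Mb n b⟩⟩

theorem PPhi_faceDist (h5 : S_Grid) {N : ℕ} (b : ℕ) (x y : Cube N)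
    (hy : y ∈ faceOf (3 ^ b) x) : dist y x ≤ 1 / 3 ^ b := by
  have hL : 1 ≤ 3 ^ b := Nat.one_le_pow _ _ (by norm_num)
  obtain ⟨hx, -, -, hd⟩ := h5.1 N (3 ^ b) x hL
  have := hd y hy x hx
  simpa using this

/-- near g(K) the inverse of g is uniformly close -/
theorem PPhi_nu {n bs : ℕ} {V' K : Set (UM n)} {g : UM n → UM n} (hV : IsOpen V')
    (hg : ContinuousOn g V') (hopen : ∀ W, W ⊆ V' → IsOpen W → IsOpen (g '' W))
    (hK : IsCompact K) (hKV : K ⊆ V') (s : UM n → XM n bs) (hs : Continuous s) (r : ℝ)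
    (hr : 0 < r) : ∃ nu : ℝ, 0 < nu ∧ ∀ x ∈ K, ∀ y, dist y (g x) ≤ nu →
      ∃ x' ∈ V', g x' = y ∧ dist (s x') (s x) ≤ r := by
  refine hK.induction_on (p := fun S => ∃ nu : ℝ, 0 < nu ∧ ∀ x ∈ S, ∀ y, dist y (g x) ≤ nu →
      ∃ x' ∈ V', g x' = y ∧ dist (s x') (s x) ≤ r) ?_ ?_ ?_ ?_
  · exact ⟨1, one_pos, by simp⟩
  · rintro S T hST ⟨nu, hnu, h⟩
    exact ⟨nu, hnu, fun x hx => h x (hST hx)⟩
  · rintro S T ⟨nu, hnu, h⟩ ⟨nu', hnu', h'⟩
    refine ⟨min nu nu', lt_min hnu hnu', fun x hx y hy => ?_⟩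
    rcases hx with hx | hx
    · exact h x hx y (hy.trans (min_le_left _ _))
    · exact h' x hx y (hy.trans (min_le_right _ _))
  · intro x0 hx0
    have hNo : IsOpen (V' ∩ s ⁻¹' Metric.ball (s x0) (r / 2)) :=
      hV.inter (Metric.isOpen_ball.preimage hs)
    have hgo := hopen _ inter_subset_left hNo
    have hmem : g x0 ∈ g '' (V' ∩ s ⁻¹' Metric.ball (s x0) (r / 2)) :=
      mem_image_of_mem _ ⟨hKV hx0, by simp; linarith⟩
    obtain ⟨e, he, hball⟩ := Metric.isOpen_iff.1 hgo _ hmem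
    have hgc : ContinuousAt g x0 := hg.continuousAt (hV.mem_nhds (hKV hx0))
    have h1 : ∀ᶠ x in 𝓝 x0, dist (g x) (g x0) < e / 2 :=
      Metric.tendsto_nhds.1 hgc (e / 2) (by linarith)
    have h2 : ∀ᶠ x in 𝓝 x0, dist (s x) (s x0) < r / 2 :=
      Metric.tendsto_nhds.1 hs.continuousAt (r / 2) (by linarith)
    refine ⟨{x | dist (g x) (g x0) < e / 2 ∧ dist (s x) (s x0) < r / 2},
      mem_nhdsWithin_of_mem_nhds (h1.and h2), e / 4, by linarith, ?_⟩
    rintro x ⟨hx1, hx2⟩ y hy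
    have hy' : y ∈ Metric.ball (g x0) e := by
      rw [Metric.mem_ball]
      have := dist_triangle y (g x) (g x0)
      linarith
    obtain ⟨x', ⟨hx'V, hx's⟩, hx'g⟩ := hball hy'
    refine ⟨x', hx'V, hx'g, ?_⟩
    rw [mem_preimage, Metric.mem_ball] at hx's
    have := dist_triangle (s x') (s x0) (s x)
    rw [dist_comm (s x0)] at this
    linarith

theorem PPhi_inv {n : ℕ} {V' : Set (UM n)} {g : UM n → UM n} [Nonempty (UM n)] (hV : IsOpen V')
    (hinj : InjOn g V') (hopen : ∀ W, W ⊆ V' → IsOpen W → IsOpen (g '' W)) :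
    ContinuousOn (Function.invFunOn g V') (g '' V') := by
  rw [continuousOn_iff']
  intro t ht
  refine ⟨g '' (V' ∩ t), hopen _ inter_subset_left (hV.inter ht), ?_⟩
  ext y
  constructor
  · rintro ⟨h1, x, hx, rfl⟩
    rw [mem_preimage, hinj.leftInvOn_invFunOn hx] at h1
    exact ⟨⟨x, ⟨hx, h1⟩, rfl⟩, ⟨x, hx, rfl⟩⟩
  · rintro ⟨⟨x, ⟨hx, hxt⟩, rfl⟩, -⟩
    refine ⟨?_, ⟨x, hx, rfl⟩⟩
    rw [mem_preimage, hinj.leftInvOn_invFunOn hx]
    exact hxt

/-- the two halves of a concatenation -/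
noncomputable def PPhi_s1 (t : I) : I := Set.projIcc (0 : ℝ) 1 zero_le_one (2 * (t : ℝ))

/-- second half -/
noncomputable def PPhi_s2 (t : I) : I := Set.projIcc (0 : ℝ) 1 zero_le_one (2 * (t : ℝ) - 1)

theorem PPhi_s1_cont : Continuous PPhi_s1 :=
  continuous_projIcc.comp (continuous_const.mul continuous_subtype_val)

theorem PPhi_s2_cont : Continuous PPhi_s2 :=
  continuous_projIcc.comp ((continuous_const.mul continuous_subtype_val).sub continuous_const)

/-- concatenation of homotopies defined over W -/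
theorem PPhi_concat {X Y : Type} [TopologicalSpace X] [TopologicalSpace Y] (W : Set X)
    (f g : I × X → Y) (hf : ContinuousOn f (univ ×ˢ W)) (hg : ContinuousOn g (univ ×ˢ W))
    (hfg : ∀ x ∈ W, f (1, x) = g (0, x)) :
    ∃ h : I × X → Y, ContinuousOn h (univ ×ˢ W) ∧ (∀ x ∈ W, h (0, x) = f (0, x)) ∧
      (∀ x ∈ W, h (1, x) = g (1, x)) ∧
      ∀ t, ∀ x ∈ W, (∃ s, h (t, x) = f (s, x)) ∨ ∃ s, h (t, x) = g (s, x) := by
  classical
  refine ⟨fun p => if (p.1 : ℝ) ≤ 1 / 2 then f (PPhi_s1 p.1, p.2) else g (PPhi_s2 p.1, p.2),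
    ?_, ?_, ?_, ?_⟩
  · rw [continuousOn_iff_continuous_restrict]
    have h1 : Continuous (fun p : ↥((univ : Set I) ×ˢ W) => f (PPhi_s1 p.1.1, p.1.2)) := by
      refine hf.comp_continuous ((PPhi_s1_cont.comp (continuous_fst.comp
        continuous_subtype_val)).prodMk (continuous_snd.comp continuous_subtype_val)) ?_
      rintro ⟨⟨t, x⟩, ht, hx⟩
      exact ⟨mem_univ _, hx⟩
    have h2 : Continuous (fun p : ↥((univ : Set I) ×ˢ W) => g (PPhi_s2 p.1.1, p.1.2)) := by
      refine hg.comp_continuous ((PPhi_s2_cont.comp (continuous_fst.comp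
        continuous_subtype_val)).prodMk (continuous_snd.comp continuous_subtype_val)) ?_
      rintro ⟨⟨t, x⟩, ht, hx⟩
      exact ⟨mem_univ _, hx⟩
    refine Continuous.if_le h1 h2 (continuous_subtype_val.comp (continuous_fst.comp
        continuous_subtype_val)) continuous_const ?_
    rintro ⟨⟨t, x⟩, ht, hx⟩ h
    simp only at h
    have e1 : PPhi_s1 t = 1 := by
      unfold PPhi_s1; rw [h]
      apply Subtype.ext
      rw [Set.projIcc_of_mem zero_le_one (show _ ∈ Icc (0 : ℝ) 1 from ⟨by norm_num, by norm_num⟩)]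
      norm_num
    have e2 : PPhi_s2 t = 0 := by
      unfold PPhi_s2; rw [h]
      apply Subtype.ext
      rw [Set.projIcc_of_mem zero_le_one (show _ ∈ Icc (0 : ℝ) 1 from ⟨by norm_num, by norm_num⟩)]
      norm_num
    simp only [e1, e2]
    exact hfg x hx
  · intro x _
    have e1 : PPhi_s1 0 = 0 := by
      unfold PPhi_s1
      apply Subtype.ext
      rw [Set.projIcc_of_mem zero_le_one (show _ ∈ Icc (0 : ℝ) 1 from ⟨by simp, by simp⟩)]
      simp
    simp [e1]
  · intro x _
    have e2 : PPhi_s2 1 = 1 := by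
      unfold PPhi_s2
      apply Subtype.ext
      rw [Set.projIcc_of_mem zero_le_one
        (show _ ∈ Icc (0 : ℝ) 1 from ⟨by norm_num, by norm_num⟩)]
      norm_num
    have e3 : ¬ (((1 : I) : ℝ) ≤ 1 / 2) := by norm_num
    simp only [e3, if_false, e2]
  · intro t x _
    by_cases ht : (t : ℝ) ≤ 1 / 2
    · left
      exact ⟨PPhi_s1 t, by simp only [ht, if_true]⟩
    · right
      exact ⟨PPhi_s2 t, by simp only [ht, if_false]⟩


theorem PPhi_ext {n bs : ℕ} {la : XM n bs → ℝ} {p q : ↥(Pin n bs la)} (h : p.1.1 = q.1.1)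
    (h2 : ∀ l, ((p.1.2 l : unitInterval) : ℝ) - 1 / 2 = ((q.1.2 l : unitInterval) : ℝ) - 1 / 2) :
    p = q :=
  Subtype.ext (Prod.ext h (funext fun l => Subtype.ext (by linarith [h2 l])))

theorem PPhi_half {n : ℕ} (u : SS n) (l : Fin (n + 2)) :
    |(((u : Cube (n + 2)) l : unitInterval) : ℝ) - 1 / 2| ≤ 1 / 2 := by
  have h := ((u : Cube (n + 2)) l).2
  rw [abs_le]
  constructor <;> linarith [h.1, h.2]

theorem pr_PPhi (h1 : S_CE) (h2 : S_CubRC) (h3 : S_Grid) (h4 : S_SiFacts) (h5 : S_Near)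
    (h6 : S_Comp) (h7 : S_Basics) (h8 : S_UC) (h9 : S_SgFacts) (h10 : S_PinEx)
    (h11 : S_HomeoComp) : S_PPhi := by
  classical
  intro n bs la ze V' K g d1 dY de hn hcd hdY hde
  obtain ⟨hsic, hsim, hsif, -, -, -, hsifs⟩ := h4 n hn
  obtain ⟨hUC1, -, hUC3, -, -, hUC6, -, hUC8⟩ := h8
  obtain ⟨⟨pin, hpinc, hpin⟩, -, hPinC⟩ := h10 n bs la hn hcd.contla hcd.la0 hcd.la1
  obtain ⟨-, -, -, -, -, -, -, -, hK9⟩ := h9 n hn
  have hXc : ∀ b, CompactSpace (XM n b) := fun b => (hK9 b).1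
  have hUne : Nonempty (UM n) := PPhi_ne n
  -- parameters
  obtain ⟨dp, hdp, hdpu⟩ := hUC1 ↥(Pin n bs la) dY hdY de hde
  obtain ⟨d3, hd3, hd3u⟩ := hUC1 (XM n bs) (fun x y => |la x - la y|) (hUC6 _ la hcd.contla) dp hdp
  obtain ⟨H, C, de0, hC, hde0, hHc, hHs, hHid⟩ := h5 n bs hn
  obtain ⟨rho, hrho⟩ : ∃ rho : ℝ, rho = min dp d3 := ⟨_, rfl⟩
  have hrhopos : 0 < rho := by rw [hrho]; exact lt_min hdp hd3
  have hrhop : rho ≤ dp := by rw [hrho]; exact min_le_left _ _
  have hrho3 : rho ≤ d3 := by rw [hrho]; exact min_le_right _ _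
  obtain ⟨d2, hd2⟩ : ∃ d2 : ℝ, d2 = min d1 (rho / 2) := ⟨_, rfl⟩
  have hd2pos : 0 < d2 := by rw [hd2]; exact lt_min hcd.d1pos (by linarith)
  have hd21 : d2 ≤ d1 := by rw [hd2]; exact min_le_left _ _
  have hd2r : d2 ≤ rho / 2 := by rw [hd2]; exact min_le_right _ _
  obtain ⟨r, hr⟩ : ∃ r : ℝ, r = min de0 (rho / (2 * (C + 1))) := ⟨_, rfl⟩
  have hC1 : 0 < 2 * (C + 1) := by linarith
  have hrpos : 0 < r := by rw [hr]; exact lt_min hde0 (by positivity)
  have hrde : r ≤ de0 := by rw [hr]; exact min_le_left _ _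
  have hrC : (C + 1) * r ≤ rho / 2 := by
    have : r ≤ rho / (2 * (C + 1)) := by rw [hr]; exact min_le_right _ _
    rw [le_div_iff₀ hC1] at this
    linarith
  obtain ⟨nu, hnu, hnuK⟩ := PPhi_nu hcd.openV hcd.contg hcd.openg hcd.compK hcd.subK (si n bs)
    (hsic bs) r hrpos
  obtain ⟨b', hb'⟩ := exists_pow_lt_of_lt_one (show (0 : ℝ) < nu / 4 by linarith)
    (show (1 / 3 : ℝ) < 1 by norm_num)
  obtain ⟨b2, hb2⟩ : ∃ b2 : ℕ, b2 = max bs b' := ⟨_, rfl⟩
  have hb2s : bs ≤ b2 := by rw [hb2]; exact le_max_left _ _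
  have hb2n : (1 : ℝ) / 3 ^ b2 ≤ nu / 4 := by
    have h12 : b' ≤ b2 := by rw [hb2]; exact le_max_right _ _
    have h13 : (1 / 3 : ℝ) ^ b2 ≤ (1 / 3) ^ b' :=
      pow_le_pow_of_le_one (by norm_num) (by norm_num) h12
    rw [one_div_pow] at h13
    linarith
  obtain ⟨eta, heta⟩ : ∃ eta : ℝ, eta = min (nu / 2) (dp / 2) / (2 * n + 4) := ⟨_, rfl⟩
  have hnn : (0 : ℝ) ≤ n := Nat.cast_nonneg n
  have h2n : (0 : ℝ) < 2 * n + 4 := by linarith
  have hmin : 0 < min (nu / 2) (dp / 2) := lt_min (by linarith) (by linarith)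
  have hetapos : 0 < eta := by rw [heta]; exact div_pos hmin h2n
  have hetaM : (2 * n + 4) * eta = min (nu / 2) (dp / 2) := by
    rw [heta]; exact mul_div_cancel₀ _ h2n.ne'
  have hetanu : (2 * n + 4) * eta ≤ nu / 2 := by rw [hetaM]; exact min_le_left _ _
  have hetadp : (2 * n + 4) * eta ≤ dp / 2 := by rw [hetaM]; exact min_le_right _ _
  refine ⟨b2, eta, hb2s, hetapos, ?_⟩
  intro a th u pp hb2a hth hths hthd hu hpp m L W W' be al hm hL hW hW' hWW hbe hal hppal hla
  obtain ⟨v, hv⟩ : ∃ v : Cube m → XM n bs, v = fun x => (be x).1.1 := ⟨_, rfl⟩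
  obtain ⟨w, hw⟩ : ∃ w : Cube m → Cube (n + 2), w = fun x => (be x).1.2 := ⟨_, rfl⟩
  have hvx : ∀ x, (be x).1.1 = v x := fun x => by rw [hv]
  have hwx : ∀ x, (be x).1.2 = w x := fun x => by rw [hw]
  have hvc : ContinuousOn v W := by
    rw [hv]
    exact (continuous_fst.comp continuous_subtype_val).comp_continuousOn hbe
  have hwc : ContinuousOn w W := by
    rw [hw]
    exact (continuous_snd.comp continuous_subtype_val).comp_continuousOn hbe
  have hPinx : ∀ x, dist (w x) (ctr (n + 2)) = la (v x) / 2 := by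
    intro x
    have := (be x).2
    rw [← hvx, ← hwx]
    exact this
  simp only [hvx] at hla
  -- the relative complex
  obtain ⟨hRC, -, hWeq, -⟩ := h2 m L W W' (fun _ => True) hL hW hW' hWW (fun _ _ _ => trivial)
  have hRCm := hRC m
  rw [hWeq] at hRCm
  have hent : ∀ k ∈ List.range (m + 1), k ≤ n := by
    intro k hk
    rw [List.mem_range] at hk
    omega
  have hlen : ((List.range (m + 1)).length : ℝ) ≤ n + 1 := by
    rw [List.length_range]
    exact_mod_cast (by omega : m + 1 ≤ n + 1)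
  -- step 1
  have hs1 : Soft n (fun p p' : XM n bs => dist p p') 0 (si n bs) := hsifs bs _ (hUC8 (XM n bs))
  have hd2n : 0 < d2 / ((n : ℝ) + 1) := by positivity
  have hL1 := h1 (Cube m) (UM n) (XM n bs) (fun _ => True) W' W (List.range (m + 1)) n
    (fun p p' : XM n bs => dist p p') 0 (si n bs) hRCm hent (hUC8 _) (hsic bs) hUne le_rfl hs1
    (d2 / (n + 1)) hd2n
  have hppv : ∀ x ∈ W', si n bs (al x) = v x := by
    intro x hx
    have h12 := (hpp.2 (al x)).1
    rw [hppal x hx] at h12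
    rw [← hvx, h12]
  obtain ⟨vb, V1, hvb, hV1, hvbal, hV1c, hV10, hV11, hV1d⟩ := hL1 0 v al (fun p => v p.2) le_rfl
    hvc hal (hvc.comp continuousOn_snd (fun p hp => hWW hp.2)) (fun x hx => (hppv x hx).symm)
    (fun x hx => rfl) (fun t x hx => by simp)
  have hV1d' : ∀ t, ∀ x ∈ W, dist (V1 (t, x)) (v x) ≤ d2 := by
    intro t x hx
    have h12 := hV1d t x hx
    have h13 : ((List.range (m + 1)).length : ℝ) * (d2 / (n + 1)) ≤ (n + 1) * (d2 / (n + 1)) :=
      mul_le_mul_of_nonneg_right hlen hd2n.le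
    rw [mul_div_cancel₀ _ (by positivity : (n : ℝ) + 1 ≠ 0)] at h13
    linarith
  have hvbK : ∀ x ∈ W, vb x ∈ K := by
    intro x hx
    refine hcd.supp (vb x) (v x) ?_ (hla x hx)
    have h12 := hV1d' 0 x hx
    rw [hV10 x hx, dist_comm] at h12
    exact h12.trans hd21
  have halK : ∀ x ∈ W', al x ∈ K := by
    intro x hx
    refine hcd.supp (al x) (v x) ?_ (hla x (hWW hx))
    rw [hppv x hx, dist_self]
    exact hcd.d1pos.le
  -- step 2
  obtain ⟨u0, hu0⟩ : ∃ u0 : Cube m → SS n, u0 = fun x => PPhi_dir n (la (v x)) (w x) := ⟨_, rfl⟩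
  have hu0s : ∀ x ∈ W, ∀ l, ((w x l : unitInterval) : ℝ) - 1 / 2 =
      - la (v x) * ((((u0 x : Cube (n + 2)) l : unitInterval) : ℝ) - 1 / 2) := by
    intro x hx l
    rw [hu0]
    exact PPhi_dir_spec (hla x hx) (hPinx x) l
  have hu0c : ContinuousOn u0 W := by
    rw [IsInducing.subtypeVal.continuousOn_iff]
    have h12 : ContinuousOn (fun x => PPhi_df n (la (v x)) (w x)) W := by
      unfold PPhi_df
      refine continuousOn_pi.2 fun l => ?_
      refine continuous_projIcc.comp_continuousOn ?_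
      refine continuousOn_const.sub (ContinuousOn.div ?_ ?_ ?_)
      · exact (continuous_subtype_val.comp_continuousOn
          ((continuous_apply l).comp_continuousOn hwc)).sub continuousOn_const
      · exact hcd.contla.comp_continuousOn hvc
      · exact fun x hx => (hla x hx).ne'
    refine h12.congr fun x hx => ?_
    simp only [Function.comp, hu0]
    unfold PPhi_dir
    rw [dif_pos (PPhi_df_mem (hla x hx) (hPinx x))]
  have hu0W : ∀ x ∈ W', u0 x = u (al x) := by
    intro x hx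
    have h12 := (hpp.2 (al x)).2
    rw [hppal x hx, hppv x hx] at h12
    simp only [hwx] at h12
    apply Subtype.ext
    funext l
    apply Subtype.ext
    have h13 := h12 l
    have h14 := hu0s x (hWW hx) l
    rw [h14] at h13
    have h15 := hla x (hWW hx)
    have h16 := mul_left_cancel₀ (neg_ne_zero.2 h15.ne') h13
    linarith
  have hXis : Soft n (fun p p' : XM n b2 × SS n => dist p p') (0 + eta)
      (fun z => th (si n a z)) :=
    h6 n (UM n) (XM n a) (XM n b2 × SS n) (fun p p' => dist p p') 0 eta (si n a) th (hUC8 _)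
      (hsic a) hth (hsifs a _ (hUC3 (XM n a) (XM n b2 × SS n) (fun p p' => dist p p') th
        (hUC8 _) hth)) hths
  obtain ⟨be2, hbe2⟩ : ∃ be2 : Cube m → XM n b2 × SS n,
      be2 = fun x => ((th (si n a (g (vb x)))).1, u0 x) := ⟨_, rfl⟩
  have hgvb : ContinuousOn (fun x => g (vb x)) W :=
    hcd.contg.comp hvb (fun x hx => hcd.subK (hvbK x hx))
  have hbe2c : ContinuousOn be2 W := by
    rw [hbe2]
    exact ((continuous_fst.comp (hth.comp (hsic a))).comp_continuousOn hgvb).prodMk hu0c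
  have hbe2W : ∀ x ∈ W', be2 x = th (si n a (g (al x))) := by
    intro x hx
    rw [hbe2]
    refine Prod.ext ?_ ?_
    · simp only [hvbal x hx]
    · simp only [hu0W x hx]
      exact hu (al x) (hcd.subK (halK x hx))
  have hL2 := h1 (Cube m) (UM n) (XM n b2 × SS n) (fun _ => True) W' W (List.range (m + 1)) n
    (fun p p' : XM n b2 × SS n => dist p p') (0 + eta) (fun z => th (si n a z)) hRCm hent
    (hUC8 _) (hth.comp (hsic a)) hUne (by linarith) hXis (2 * eta) (by linarith)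
  obtain ⟨y, BU, hy, hBU, hyW, hBUc, hBU0, hBU1, hBUd⟩ := hL2 0 be2 (fun x => g (al x))
    (fun p => be2 p.2) le_rfl hbe2c
    (hcd.contg.comp hal (fun x hx => hcd.subK (halK x hx)))
    (hbe2c.comp continuousOn_snd (fun p hp => hWW hp.2)) (fun x hx => hbe2W x hx)
    (fun x hx => rfl) (fun t x hx => by simp)
  have hBUd' : ∀ t, ∀ x ∈ W, dist (BU (t, x)) (be2 x) ≤ (2 * n + 2) * eta := by
    intro t x hx
    have h12 := hBUd t x hx
    have h13 : ((List.range (m + 1)).length : ℝ) * (2 * eta) ≤ (n + 1) * (2 * eta) :=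
      mul_le_mul_of_nonneg_right hlen (by linarith)
    linarith
  have hyd : ∀ x ∈ W, dist (y x) (g (vb x)) ≤ nu := by
    intro x hx
    have h12 := hBUd' 0 x hx
    rw [hBU0 x hx, Prod.dist_eq, hbe2] at h12
    have h13 := (le_max_left _ _).trans h12
    simp only at h13
    have h14 := hthd (si n a (y x))
    have h15 := hthd (si n a (g (vb x)))
    rw [hsim b2 a _ hb2a] at h14 h15
    have h16 := PPhi_faceDist h3 b2 _ _ (hsif b2 (y x))
    have h17 := PPhi_faceDist h3 b2 _ _ (hsif b2 (g (vb x)))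
    have h18 : dist (si n b2 (y x)) (si n b2 (g (vb x))) ≤ (2 * n + 4) * eta := by
      have t1 := dist_triangle4 (si n b2 (y x)) (th (si n a (y x))).1
        (th (si n a (g (vb x)))).1 (si n b2 (g (vb x)))
      rw [dist_comm (si n b2 (y x)) (th (si n a (y x))).1] at t1
      linarith
    have h19 : dist (y x : Cube (2 * n + 1)) (g (vb x) : Cube (2 * n + 1)) ≤ nu := by
      have t1 := dist_triangle4 (y x : Cube (2 * n + 1)) (si n b2 (y x) : Cube (2 * n + 1))
        (si n b2 (g (vb x)) : Cube (2 * n + 1)) (g (vb x) : Cube (2 * n + 1))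
      rw [dist_comm (y x : Cube (2 * n + 1)) (si n b2 (y x) : Cube (2 * n + 1))] at t1
      rw [Subtype.dist_eq] at h18
      linarith
    exact h19
  -- the lift
  obtain ⟨al', hal'⟩ : ∃ al' : Cube m → UM n, al' = fun x => Function.invFunOn g V' (y x) :=
    ⟨_, rfl⟩
  have hal's : ∀ x ∈ W, al' x ∈ V' ∧ g (al' x) = y x ∧
      dist (si n bs (al' x)) (si n bs (vb x)) ≤ r := by
    intro x hx
    obtain ⟨x', hx'V, hx'g, hx'd⟩ := hnuK (vb x) (hvbK x hx) (y x) (hyd x hx)
    have h12 : al' x = x' := by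
      rw [hal']
      simp only [← hx'g]
      exact hcd.injg.leftInvOn_invFunOn hx'V
    rw [h12]
    exact ⟨hx'V, hx'g, hx'd⟩
  have hal'c : ContinuousOn al' W := by
    rw [hal']
    exact (PPhi_inv hcd.openV hcd.injg hcd.openg).comp hy
      (fun x hx => ⟨al' x, (hal's x hx).1, (hal's x hx).2.1⟩)
  have hal'W : ∀ x ∈ W', al' x = al x := by
    intro x hx
    rw [hal']
    simp only [hyW x hx]
    exact hcd.injg.leftInvOn_invFunOn (hcd.subK (halK x hx))
  -- step 3
  obtain ⟨f1, hf1⟩ : ∃ f1 : I × Cube m → XM n bs,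
      f1 = fun p => H (p.1, (si n bs (al' p.2), si n bs (vb p.2))) := ⟨_, rfl⟩
  have hf1c : ContinuousOn f1 (univ ×ˢ W) := by
    rw [hf1]
    refine hHc.comp (continuousOn_fst.prodMk (ContinuousOn.prodMk ?_ ?_)) ?_
    · exact ((hsic bs).comp_continuousOn hal'c).comp continuousOn_snd (fun p hp => hp.2)
    · exact ((hsic bs).comp_continuousOn hvb).comp continuousOn_snd (fun p hp => hp.2)
    · intro p hp
      exact (hal's p.2 hp.2).2.2.trans hrde
  obtain ⟨base, hbc, hb0, hb1, hbt⟩ := PPhi_concat W f1 V1 hf1c hV1 (fun x hx => by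
    rw [hf1, hV10 x hx]
    exact (hHs _ _ ((hal's x hx).2.2.trans hrde)).2.1)
  have hbased : ∀ t, ∀ x ∈ W, dist (base (t, x)) (v x) ≤ rho := by
    intro t x hx
    rcases hbt t x hx with ⟨s, hs⟩ | ⟨s, hs⟩
    · rw [hs, hf1]
      have h12 := (hHs _ _ ((hal's x hx).2.2.trans hrde)).2.2 s
      have h13 := (hal's x hx).2.2
      have h14 := hV1d' 0 x hx
      rw [hV10 x hx] at h14
      have t1 := dist_triangle4 (H (s, (si n bs (al' x), si n bs (vb x)))) (si n bs (al' x))
        (si n bs (vb x)) (v x)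
      have h15 : C * dist (si n bs (al' x)) (si n bs (vb x)) ≤ C * r :=
        mul_le_mul_of_nonneg_left h13 (by linarith)
      simp only
      linarith
    · rw [hs]
      have := hV1d' s x hx
      linarith
  have hbaseW : ∀ t, ∀ x ∈ W', base (t, x) = v x := by
    intro t x hx
    rcases hbt t x (hWW hx) with ⟨s, hs⟩ | ⟨s, hs⟩
    · rw [hs, hf1]
      simp only [hal'W x hx, hvbal x hx]
      rw [hHid, hppv x hx]
    · rw [hs, hV1c s x hx]
  refine ⟨al', fun p => pin (base p, PPhi_anti (BU p).2), hal'c, ?_, hal'W, ?_, ?_, ?_, ?_⟩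
  · exact hpinc.comp_continuousOn (hbc.prodMk
      ((PPhi_anti_cont n).comp_continuousOn (continuous_snd.comp_continuousOn hBU)))
  · intro t x hx
    apply PPhi_ext
    · rw [(hpin _ _).1, hbaseW t x hx, hvx]
    · intro l
      rw [(hpin _ _).2, PPhi_anti_val, hbaseW t x hx, hBUc t x hx, hwx, hu0s x (hWW hx) l, hbe2]
      ring
  · intro x hx
    apply PPhi_ext
    · rw [(hpin _ _).1, (hpp.2 _).1, hb0 x hx, hf1]
      exact (hHs _ _ ((hal's x hx).2.2.trans hrde)).1
    · intro l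
      have h12 : base (0, x) = si n bs (al' x) := by
        rw [hb0 x hx, hf1]
        exact (hHs _ _ ((hal's x hx).2.2.trans hrde)).1
      rw [(hpin _ _).2, PPhi_anti_val, (hpp.2 _).2, h12, hBU0 x hx, hu (al' x) (hal's x hx).1,
        (hal's x hx).2.1]
      ring
  · intro x hx
    apply PPhi_ext
    · rw [(hpin _ _).1, hb1 x hx, hV11 x hx, hvx]
    · intro l
      rw [(hpin _ _).2, PPhi_anti_val, hb1 x hx, hV11 x hx, hBU1 x hx, hwx, hu0s x hx l, hbe2]
      ring
  · intro t x hx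
    apply hdpu
    rw [Subtype.dist_eq, Prod.dist_eq]
    refine max_le ?_ ?_
    · rw [(hpin _ _).1, hvx]
      exact (hbased t x hx).trans hrhop
    · rw [dist_pi_le_iff hdp.le]
      intro l
      rw [hwx, Subtype.dist_eq, Real.dist_eq]
      have h12 := (hpin (base (t, x)) (PPhi_anti (BU (t, x)).2)).2 l
      rw [PPhi_anti_val] at h12
      have h13 := hu0s x hx l
      have h14 := hd3u _ _ ((hbased t x hx).trans hrho3)
      have h15 := hBUd' t x hx
      rw [Prod.dist_eq, hbe2] at h15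
      have h16 := (le_max_right _ _).trans h15
      simp only at h16
      rw [Subtype.dist_eq] at h16
      have h17 := (dist_le_pi_dist _ _ l).trans h16
      rw [Subtype.dist_eq, Real.dist_eq] at h17
      have h18 := PPhi_half (BU (t, x)).2 l
      have h19 : |la (base (t, x)) - la (v x)| ≤ dp := h14
      have h20 := hcd.la0 (v x)
      have h21 := hcd.la1 (v x)
      have h22 : (((pin (base (t, x), PPhi_anti (BU (t, x)).2)).1.2 l : unitInterval) : ℝ) -
          ((w x l : unitInterval) : ℝ) =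
          -((la (base (t, x)) - la (v x)) *
            (((((BU (t, x)).2 : SS n) : Cube (n + 2)) l : unitInterval) - 1 / 2 : ℝ)) -
          la (v x) * (((((BU (t, x)).2 : SS n) : Cube (n + 2)) l : unitInterval) -
            (((u0 x : SS n) : Cube (n + 2)) l : unitInterval) : ℝ) := by
        linarith
      rw [h22]
      have h23 : |(la (base (t, x)) - la (v x)) *
            (((((BU (t, x)).2 : SS n) : Cube (n + 2)) l : unitInterval) - 1 / 2 : ℝ)| ≤
            dp * (1 / 2) := by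
        rw [abs_mul]
        exact mul_le_mul h19 h18 (abs_nonneg _) hdp.le
      have h24 : |la (v x) * (((((BU (t, x)).2 : SS n) : Cube (n + 2)) l : unitInterval) -
            (((u0 x : SS n) : Cube (n + 2)) l : unitInterval) : ℝ)| ≤
            1 * ((2 * n + 2) * eta) := by
        rw [abs_mul, abs_of_nonneg h20]
        exact mul_le_mul h21 h17 (abs_nonneg _) (by norm_num)
      have h25 : (2 * (n : ℝ) + 2) * eta ≤ (2 * n + 4) * eta :=
        mul_le_mul_of_nonneg_right (by linarith) hetapos.le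
      rw [abs_le] at h23 h24 ⊢
      constructor <;> linarith [h23.1, h23.2, h24.1, h24.2]

end M202

end

section

/-!
MP_202a65_gt: item C4 (softness of pp where la is small)
-/

set_option autoImplicit false

open Set Topology unitInterval

namespace M202

/-- direction of a point of the pinched bundle -/
noncomputable def PPlo_dir {n bs : ℕ} (la : XM n bs → ℝ) (q : ↥(Pin n bs la)) : Cube (n + 2) :=
  fun l => projIcc (0 : ℝ) 1 zero_le_one (1 / 2 + ((q.1.2 l : ℝ) - 1 / 2) / la q.1.1)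

theorem PPlo_coord {n bs : ℕ} {la : XM n bs → ℝ} (q : ↥(Pin n bs la)) (l : Fin (n + 2)) :
    |(q.1.2 l : ℝ) - 1 / 2| ≤ la q.1.1 / 2 := by
  have h : dist q.1.2 (ctr (n + 2)) = la q.1.1 / 2 := q.2
  rw [← h]
  exact dist_le_pi_dist q.1.2 (ctr (n + 2)) l

theorem PPlo_dir_val {n bs : ℕ} {la : XM n bs → ℝ} (q : ↥(Pin n bs la)) (h : 0 < la q.1.1)
    (l : Fin (n + 2)) :
    ((PPlo_dir la q l : unitInterval) : ℝ) = 1 / 2 + ((q.1.2 l : ℝ) - 1 / 2) / la q.1.1 := by
  have h1 := abs_le.1 (PPlo_coord q l)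
  unfold PPlo_dir
  rw [projIcc_of_mem]
  constructor
  · have : -(1 / 2) ≤ ((q.1.2 l : ℝ) - 1 / 2) / la q.1.1 := by
      rw [le_div_iff₀ h]
      linarith [h1.1]
    linarith
  · have : ((q.1.2 l : ℝ) - 1 / 2) / la q.1.1 ≤ 1 / 2 := by
      rw [div_le_iff₀ h]
      linarith [h1.2]
    linarith

theorem PPlo_dir_bd {n bs : ℕ} {la : XM n bs → ℝ} (q : ↥(Pin n bs la)) (h : 0 < la q.1.1) :
    PPlo_dir la q ∈ bd (n + 2) := by
  by_contra hcon
  have h0 : dist q.1.2 (ctr (n + 2)) = la q.1.1 / 2 := q.2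
  have h1 : dist q.1.2 (ctr (n + 2)) < la q.1.1 / 2 := by
    rw [dist_pi_lt_iff (by positivity)]
    intro l
    have h2 : |(q.1.2 l : ℝ) - 1 / 2| ≤ la q.1.1 / 2 := PPlo_coord q l
    have h3 : dist (q.1.2 l) (ctr (n + 2) l) = |(q.1.2 l : ℝ) - 1 / 2| := rfl
    rw [h3]
    refine lt_of_le_of_ne h2 fun h4 => hcon ⟨l, ?_⟩
    have h5 := PPlo_dir_val q h l
    rcases abs_eq (by positivity : 0 ≤ la q.1.1 / 2) |>.1 h4 with h6 | h6
    · right
      refine Subtype.ext ?_
      rw [h5, h6]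
      show 1 / 2 + la q.1.1 / 2 / la q.1.1 = 1
      field_simp
      norm_num
    · left
      refine Subtype.ext ?_
      rw [h5, h6]
      show 1 / 2 + -(la q.1.1 / 2) / la q.1.1 = 0
      field_simp
      norm_num
  linarith

theorem PPlo_dir_cont {X : Type} [TopologicalSpace X] {n bs : ℕ} {la : XM n bs → ℝ}
    (hla : Continuous la) (F : X → ↥(Pin n bs la)) (s : Set X) (hF : ContinuousOn F s)
    (h0 : ∀ x ∈ s, la (F x).1.1 ≠ 0) : ContinuousOn (fun x => PPlo_dir la (F x)) s := by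
  rw [continuousOn_pi]
  intro l
  have h1 : ContinuousOn (fun x => (F x).1.1) s :=
    (continuous_fst.comp continuous_subtype_val).comp_continuousOn hF
  have h2 : ContinuousOn (fun x => (F x).1.2) s :=
    (continuous_snd.comp continuous_subtype_val).comp_continuousOn hF
  have h3 : ContinuousOn (fun x => (((F x).1.2 l : unitInterval) : ℝ)) s :=
    continuous_subtype_val.comp_continuousOn ((continuous_apply l).comp_continuousOn h2)
  have h4 : ContinuousOn (fun x => la (F x).1.1) s := hla.comp_continuousOn h1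
  exact continuous_projIcc.comp_continuousOn
    (continuousOn_const.add ((h3.sub continuousOn_const).div h4 h0))

open Classical in
/-- the point c of the sphere -/
noncomputable def PPlo_sd {n : ℕ} (c : Cube (n + 2)) : SS n :=
  if h : c ∈ bd (n + 2) then ⟨c, h⟩ else ⟨0, ⟨0, Or.inl rfl⟩⟩

theorem PPlo_sd_val {n : ℕ} {c : Cube (n + 2)} (h : c ∈ bd (n + 2)) :
    (PPlo_sd c : Cube (n + 2)) = c := by
  unfold PPlo_sd
  rw [dif_pos h]

theorem PPlo_th_dir {n bs : ℕ} {la : XM n bs → ℝ} {th : XM n bs × SS n → ↥(Pin n bs la)}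
    (hth : IsPinch n bs la th) (q : ↥(Pin n bs la)) (h : 0 < la q.1.1) :
    th (q.1.1, PPlo_sd (PPlo_dir la q)) = q := by
  have h1 := hth.2 q.1.1 (PPlo_sd (PPlo_dir la q))
  refine Subtype.ext (Prod.ext h1.1 (funext fun l => Subtype.ext ?_))
  have h2 := h1.2 l
  rw [PPlo_sd_val (PPlo_dir_bd q h), PPlo_dir_val q h l] at h2
  have h3 : la q.1.1 * (1 / 2 + ((q.1.2 l : ℝ) - 1 / 2) / la q.1.1 - 1 / 2) =
      (q.1.2 l : ℝ) - 1 / 2 := by
    field_simp
    ring
  rw [h3] at h2
  linarith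

theorem PPlo_ctr {n bs : ℕ} {la : XM n bs → ℝ} (q : ↥(Pin n bs la)) (h : la q.1.1 = 0) :
    q.1.2 = ctr (n + 2) := by
  have h0 : dist q.1.2 (ctr (n + 2)) = la q.1.1 / 2 := q.2
  rw [h, zero_div] at h0
  exact dist_eq_zero.1 h0

theorem PPlo_nonempty (n : ℕ) : Nonempty (UM n) :=
  ⟨⟨0, by
    unfold Mu
    rw [mem_iInter]
    exact fun b => zero_mem_Mb n b⟩⟩

/-- the fibrewise extension -/
theorem PPlo_ext (hE : S_ExtOpen) {n bs m : ℕ} {la : XM n bs → ℝ} (hmn : m ≤ n)
    (hla : Continuous la) (la0 : ∀ v, 0 ≤ la v)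
    {th : XM n bs × SS n → ↥(Pin n bs la)} (hth : IsPinch n bs la th)
    (W W' : Set (Cube m)) (hW : IsClosed W) (hW' : IsClosed W')
    (V : I × Cube m → XM n bs) (hV : ContinuousOn V (univ ×ˢ W))
    (F : I × Cube m → ↥(Pin n bs la))
    (hF : ContinuousOn F {p | p.2 ∈ W ∧ (p.1 = 0 ∨ p.1 = 1 ∨ p.2 ∈ W')})
    (hFV : ∀ p ∈ {p : I × Cube m | p.2 ∈ W ∧ (p.1 = 0 ∨ p.1 = 1 ∨ p.2 ∈ W')}, (F p).1.1 = V p) :
    ∃ G : I × Cube m → ↥(Pin n bs la), ContinuousOn G (univ ×ˢ W) ∧
      (∀ p ∈ {p : I × Cube m | p.2 ∈ W ∧ (p.1 = 0 ∨ p.1 = 1 ∨ p.2 ∈ W')}, G p = F p) ∧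
      ∀ p, (G p).1.1 = V p := by
  set S0 : Set (I × Cube m) := {p | p.2 ∈ W ∧ (p.1 = 0 ∨ p.1 = 1 ∨ p.2 ∈ W')} with hS0
  set tl : Cube (m + 1) → I × Cube m := fun y => (y 0, fun i => y i.succ) with htl
  set E : I × Cube m → Cube (m + 1) := fun p => Fin.cons p.1 p.2 with hE'
  have ctl : Continuous tl := by
    rw [htl]
    fun_prop
  have cE : Continuous E := by
    rw [hE']
    refine continuous_pi fun i => Fin.cases ?_ (fun j => ?_) i
    · simp only [Fin.cons_zero]
      exact continuous_fst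
    · simp only [Fin.cons_succ]
      exact (continuous_apply j).comp continuous_snd
  have htlE : ∀ p, tl (E p) = p := by
    intro p
    rw [htl, hE']
    simp only [Fin.cons_zero, Fin.cons_succ]
  have cS0 : IsClosed S0 := by
    rw [hS0]
    refine (hW.preimage continuous_snd).inter ?_
    refine (isClosed_eq continuous_fst continuous_const).union ?_
    exact (isClosed_eq continuous_fst continuous_const).union (hW'.preimage continuous_snd)
  have hS0W : S0 ⊆ univ ×ˢ W := fun p hp => ⟨mem_univ _, hp.1⟩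
  have clV : ContinuousOn (fun p => la (V p)) (univ ×ˢ W) := hla.comp_continuousOn hV
  have cW : IsClosed ((univ : Set I) ×ˢ W) := isClosed_univ.prod hW
  set Z0 : Set (I × Cube m) := (univ ×ˢ W) ∩ (fun p => la (V p)) ⁻¹' {0} with hZ0
  have cZ0 : IsClosed Z0 := clV.preimage_isClosed_of_isClosed cW isClosed_singleton
  set U : Set (Cube (m + 1)) := (tl ⁻¹' Z0)ᶜ with hU
  have oU : IsOpen U := (cZ0.preimage ctl).isOpen_compl
  set S : Set (Cube (m + 1)) := tl ⁻¹' S0 with hS
  have cS : IsClosed S := cS0.preimage ctl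
  have hne : ∀ y ∈ S ∩ U, la (F (tl y)).1.1 ≠ 0 := by
    rintro y ⟨h1, h2⟩ h3
    rw [hFV (tl y) h1] at h3
    exact h2 ⟨hS0W h1, h3⟩
  have cf : ContinuousOn (fun y => PPlo_dir la (F (tl y))) (S ∩ U) := by
    refine PPlo_dir_cont hla (fun y => F (tl y)) _ ?_ hne
    exact hF.comp ctl.continuousOn fun y hy => hy.1
  obtain ⟨f', cf', hf1, hf2⟩ := hE (m + 1) (n + 1) U S (fun y => PPlo_dir la (F (tl y)))
    (by omega) oU cS cf fun y hy => PPlo_dir_bd _ (lt_of_le_of_ne (la0 _) (hne y hy).symm)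
  have hG1 : ∀ p, (th (V p, PPlo_sd (f' (E p)))).1.1 = V p := fun p => (hth.2 _ _).1
  refine ⟨fun p => th (V p, PPlo_sd (f' (E p))), ?_, ?_, hG1⟩
  · intro p0 hp0
    by_cases h0 : la (V p0) = 0
    · rw [ContinuousWithinAt, tendsto_subtype_rng, Prod.tendsto_iff]
      constructor
      · simp only [hG1]
        exact hV p0 hp0
      · have e1 : (th (V p0, PPlo_sd (f' (E p0)))).1.2 = ctr (n + 2) :=
          PPlo_ctr _ (by rw [hG1]; exact h0)
        rw [e1, tendsto_iff_dist_tendsto_zero]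
        have e2 : ∀ p, dist (th (V p, PPlo_sd (f' (E p)))).1.2 (ctr (n + 2)) = la (V p) / 2 := by
          intro p
          have := (th (V p, PPlo_sd (f' (E p)))).2
          have h3 : dist (th (V p, PPlo_sd (f' (E p)))).1.2 (ctr (n + 2)) =
            la (th (V p, PPlo_sd (f' (E p)))).1.1 / 2 := this
          rw [h3, hG1]
        simp only [e2]
        have := (clV p0 hp0).div_const 2
        rw [ContinuousWithinAt] at this
        simp only [h0, zero_div] at this
        exact this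
    · have hU0 : E p0 ∈ U := fun h => h0 (by
        have h1 : tl (E p0) ∈ Z0 := h
        rw [htlE] at h1
        exact h1.2)
      have c1 : ContinuousOn (fun y => PPlo_sd (f' y)) U := by
        rw [Topology.IsInducing.subtypeVal.continuousOn_iff]
        refine cf'.congr fun y hy => ?_
        exact PPlo_sd_val (hf2 y hy)
      have c2 : ContinuousOn (fun p => th (V p, PPlo_sd (f' (E p)))) ((univ ×ˢ W) ∩ E ⁻¹' U) := by
        refine hth.1.comp_continuousOn ?_
        refine (hV.mono inter_subset_left).prodMk ?_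
        exact c1.comp cE.continuousOn fun p hp => hp.2
      have c3 := c2 p0 ⟨hp0, hU0⟩
      exact (continuousWithinAt_inter ((oU.preimage cE).mem_nhds hU0)).1 c3
  · intro p hp
    have h1 := hFV p hp
    show th (V p, PPlo_sd (f' (E p))) = F p
    by_cases h0 : la (V p) = 0
    · refine Subtype.ext (Prod.ext ?_ ?_)
      · rw [hG1, h1]
      · rw [PPlo_ctr _ (by rw [hG1]; exact h0), PPlo_ctr (F p) (by rw [h1]; exact h0)]
    · have h2 : E p ∈ S ∩ U := by
        constructor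
        · show tl (E p) ∈ S0
          rw [htlE]
          exact hp
        · intro h
          have h3 : tl (E p) ∈ Z0 := h
          rw [htlE] at h3
          exact h0 h3.2
      rw [hf1 (E p) h2]
      simp only [htlE]
      rw [← h1]
      exact PPlo_th_dir hth (F p) (lt_of_le_of_ne (la0 _) (by rw [h1]; exact Ne.symm h0))

theorem pr_PPlo (h1 : S_CE) (h2 : S_CubRC) (h3 : S_Grid) (h4 : S_SiFacts) (h5 : S_ExtOpen)
    (_h6 : S_Basics) (h7 : S_UC) (h8 : S_SgFacts) (h9 : S_PinEx) : S_PPlo := by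
  intro n bs la ze V' K g d1 dY de hn hD hdY hde
  have hcl := hD.contla
  obtain ⟨⟨th, hth⟩, -, hcP⟩ := h9 n bs la hn hD.contla hD.la0 hD.la1
  have hcX : CompactSpace (XM n bs) := ((h8 n hn).2.2.2.2.2.2.2.2 bs).1
  obtain ⟨d, hd, hd'⟩ := h7.1 ↥(Pin n bs la) dY hdY de hde
  obtain ⟨c, hc, hc'⟩ := h7.1 (XM n bs) (fun x y => |la x - la y|)
    (h7.2.2.2.2.2.1 _ la hcl) (d / 2) (by positivity)
  refine ⟨d / 2, min (d / 2) (c / 2), by positivity, by positivity, ?_⟩
  set dp := min (d / 2) (c / 2) with hdp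
  have hdp1 : 2 * dp ≤ d := by
    have := min_le_left (d / 2) (c / 2)
    rw [hdp]
    linarith
  have hdp2 : 2 * dp ≤ c := by
    have := min_le_right (d / 2) (c / 2)
    rw [hdp]
    linarith
  have hdp0 : 0 < dp := by
    rw [hdp]
    positivity
  intro u pp _ hpp m L W W' be al ga hm hL hcW hcW' hWW hbe hal hga hg0 hg1 hgd hsm
  have cW : IsClosed W := h3.2.2.2.2.1 m L W hL hcW
  have cW' : IsClosed W' := h3.2.2.2.2.1 m L W' hL hcW'
  have hrc := (h2 m L W W' (fun _ => True) hL hcW hcW' hWW (fun _ _ _ => trivial)).1 m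
  rw [(h2 m L W W' (fun _ => True) hL hcW hcW' hWW (fun _ _ _ => trivial)).2.2.1] at hrc
  have hsi := h4 n hn
  have hsoft : Soft n (fun x y : XM n bs => dist x y) 0 (si n bs) :=
    hsi.2.2.2.2.2.2 bs _ (h7.2.2.2.2.2.2.2 (XM n bs))
  have hlift := h1 (Cube m) (UM n) (XM n bs) (fun _ => True) W' W (List.range (m + 1)) n
    (fun x y => dist x y) 0 (si n bs) hrc (fun k hk => by
      rw [List.mem_range] at hk
      omega) (h7.2.2.2.2.2.2.2 (XM n bs)) (hsi.1 bs) (PPlo_nonempty n) le_rfl hsoft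
    (dp / ((m : ℝ) + 1)) (by positivity)
  have cfst : Continuous (fun q : ↥(Pin n bs la) => q.1.1) :=
    continuous_fst.comp continuous_subtype_val
  obtain ⟨al', V, hal', hV, hV1, hV2, hV3, hV4, hV5⟩ := hlift dp (fun x => (be x).1.1) al
    (fun p => (ga p).1.1) hdp0.le (cfst.comp_continuousOn hbe) hal (cfst.comp_continuousOn hga)
    (fun x hx => by
      show (ga (0, x)).1.1 = si n bs (al x)
      rw [hg0 x hx, (hpp.2 (al x)).1])
    (fun x hx => by
      show (ga (1, x)).1.1 = (be x).1.1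
      rw [hg1 x hx])
    (fun t x hx => by
      refine le_trans ?_ (hgd t x hx)
      rw [Subtype.dist_eq, Prod.dist_eq]
      exact le_max_left _ _)
  have hV5' : ∀ t, ∀ x ∈ W, dist (V (t, x)) (be x).1.1 ≤ 2 * dp := by
    intro t x hx
    refine (hV5 t x hx).trans (le_of_eq ?_)
    rw [List.length_range]
    push_cast
    field_simp
    ring
  classical
  set F : I × Cube m → ↥(Pin n bs la) := fun p =>
    if p.2 ∈ W' then ga p else if p.1 = 0 then pp (al' p.2) else be p.2 with hF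
  have F2 : ∀ t, ∀ x ∈ W', F (t, x) = ga (t, x) := by
    intro t x hx
    rw [hF]
    simp only [if_pos hx]
  have F0 : ∀ x ∈ W, F (0, x) = pp (al' x) := by
    intro x hx
    by_cases h : x ∈ W'
    · rw [F2 0 x h, hg0 x h, hV1 x h]
    · rw [hF]
      simp only [if_neg h, if_true]
  have F1 : ∀ x ∈ W, F (1, x) = be x := by
    intro x hx
    by_cases h : x ∈ W'
    · rw [F2 1 x h, hg1 x h]
    · rw [hF]
      simp only [if_neg h, one_ne_zero, if_false]
  have cF : ContinuousOn F {p | p.2 ∈ W ∧ (p.1 = 0 ∨ p.1 = 1 ∨ p.2 ∈ W')} := by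
    have a0 : ContinuousOn F (({0} : Set I) ×ˢ W) := by
      refine ((hpp.1.comp_continuousOn hal').comp continuousOn_snd
        (fun p hp => hp.2)).congr fun p hp => ?_
      have h : p.1 = 0 := hp.1
      have h' := F0 p.2 hp.2
      rw [← h] at h'
      exact h'
    have a1 : ContinuousOn F (({1} : Set I) ×ˢ W) := by
      refine (hbe.comp continuousOn_snd (fun p hp => hp.2)).congr fun p hp => ?_
      have h : p.1 = 1 := hp.1
      have h' := F1 p.2 hp.2
      rw [← h] at h'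
      exact h'
    have a2 : ContinuousOn F ((univ : Set I) ×ˢ W') := by
      refine hga.congr fun p hp => ?_
      exact F2 p.1 p.2 hp.2
    have a3 := (a0.union_of_isClosed (a1.union_of_isClosed a2 (isClosed_singleton.prod cW)
      (isClosed_univ.prod cW')) (isClosed_singleton.prod cW)
      ((isClosed_singleton.prod cW).union (isClosed_univ.prod cW')))
    refine a3.mono ?_
    rintro p ⟨p1, p2 | p2 | p2⟩
    · exact Or.inl ⟨p2, p1⟩
    · exact Or.inr (Or.inl ⟨p2, p1⟩)
    · exact Or.inr (Or.inr ⟨mem_univ _, p2⟩)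
  have hFV : ∀ p ∈ {p : I × Cube m | p.2 ∈ W ∧ (p.1 = 0 ∨ p.1 = 1 ∨ p.2 ∈ W')},
      (F p).1.1 = V p := by
    rintro ⟨t, x⟩ ⟨p1, p2 | p2 | p2⟩
    · have p2' : t = 0 := p2
      rw [p2', F0 x p1, (hpp.2 (al' x)).1, hV3 x p1]
    · have p2' : t = 1 := p2
      rw [p2', F1 x p1, hV4 x p1]
    · rw [F2 t x p2, hV2 t x p2]
  obtain ⟨G, cG, hG1, hG2⟩ := PPlo_ext h5 hm hcl hD.la0 hth W W' cW cW' V hV F cF hFV
  refine ⟨al', G, hal', cG, hV1, ?_, ?_, ?_, ?_⟩
  · intro t x hx
    rw [hG1 (t, x) ⟨hWW hx, Or.inr (Or.inr hx)⟩, F2 t x hx]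
  · intro x hx
    rw [hG1 (0, x) ⟨hx, Or.inl rfl⟩, F0 x hx]
  · intro x hx
    rw [hG1 (1, x) ⟨hx, Or.inr (Or.inl rfl)⟩, F1 x hx]
  · intro t x hx
    refine hd' _ _ ?_
    rw [Subtype.dist_eq, Prod.dist_eq]
    refine max_le ?_ ?_
    · rw [hG2 (t, x)]
      exact (hV5' t x hx).trans hdp1
    · have e1 : dist (G (t, x)).1.2 (ctr (n + 2)) = la (G (t, x)).1.1 / 2 := (G (t, x)).2
      have e2 : dist (be x).1.2 (ctr (n + 2)) = la (be x).1.1 / 2 := (be x).2
      rw [hG2 (t, x)] at e1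
      have e3 : |la (V (t, x)) - la (be x).1.1| ≤ d / 2 :=
        hc' _ _ ((hV5' t x hx).trans hdp2)
      have e4 := (abs_le.1 e3).2
      have e5 := hsm x hx
      have e6 := dist_triangle_right (G (t, x)).1.2 (be x).1.2 (ctr (n + 2))
      rw [e1, e2] at e6
      linarith

end M202

end

section

/-!
MP_202a65_gt (captain helper47), item PinEx (helper23): existence of the pinching map and of pp.
-/

open Set Topology unitInterval Filter

namespace M202

/-- scaling of a coordinate of the cube about the centre -/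
noncomputable def pinEx_sc (t : ℝ) (s : unitInterval) : unitInterval :=
  Set.projIcc (0 : ℝ) 1 zero_le_one (1 / 2 + t * ((s : ℝ) - 1 / 2))

theorem pinEx_sc_val (t : ℝ) (ht : |t| ≤ 1) (s : unitInterval) :
    ((pinEx_sc t s : unitInterval) : ℝ) - 1 / 2 = t * ((s : ℝ) - 1 / 2) := by
  have hs := s.2
  have h0 := abs_le.1 ht
  have hmem : (1 / 2 + t * ((s : ℝ) - 1 / 2)) ∈ Set.Icc (0 : ℝ) 1 := by
    have h1 : |t * ((s : ℝ) - 1 / 2)| ≤ 1 / 2 := by
      rw [abs_mul]
      have h2 : |(s : ℝ) - 1 / 2| ≤ 1 / 2 := by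
        rw [abs_le]
        constructor <;> linarith [hs.1, hs.2]
      calc |t| * |(s : ℝ) - 1 / 2| ≤ 1 * (1 / 2) :=
            mul_le_mul ht h2 (abs_nonneg _) zero_le_one
        _ = 1 / 2 := by norm_num
    have h3 := abs_le.1 h1
    constructor <;> linarith [h3.1, h3.2]
  unfold pinEx_sc
  rw [Set.projIcc_of_mem zero_le_one hmem]
  simp

theorem pinEx_dist (m : ℕ) (t : ℝ) (h0 : 0 ≤ t) (ht : t ≤ 1) (s : ℝ) (hs : s = t ∨ s = -t)
    (u : Cube m) (hu : u ∈ bd m) : dist (fun l => pinEx_sc s (u l)) (ctr m) = t / 2 := by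
  have habs : |s| ≤ 1 := by
    rcases hs with h | h <;> rw [h] <;> simp [abs_of_nonneg h0, ht]
  have habs' : |s| = t := by
    rcases hs with h | h <;> rw [h] <;> simp [abs_of_nonneg h0]
  have hcoord : ∀ l, dist (pinEx_sc s (u l)) (ctr m l) = t * |((u l : unitInterval) : ℝ) - 1 / 2| := by
    intro l
    rw [Subtype.dist_eq, Real.dist_eq]
    have : ((ctr m l : unitInterval) : ℝ) = 1 / 2 := rfl
    rw [this, pinEx_sc_val s habs, abs_mul, habs']
  apply le_antisymm
  · rw [dist_pi_le_iff (by positivity)]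
    intro l
    rw [hcoord]
    have h2 : |((u l : unitInterval) : ℝ) - 1 / 2| ≤ 1 / 2 := by
      rw [abs_le]
      constructor <;> linarith [(u l).2.1, (u l).2.2]
    calc t * |((u l : unitInterval) : ℝ) - 1 / 2| ≤ t * (1 / 2) :=
          mul_le_mul_of_nonneg_left h2 h0
      _ = t / 2 := by ring
  · obtain ⟨i, hi⟩ := hu
    have h1 := dist_le_pi_dist (fun l => pinEx_sc s (u l)) (ctr m) i
    have h2 : |((u i : unitInterval) : ℝ) - 1 / 2| = 1 / 2 := by
      rcases hi with h | h <;> rw [h] <;> norm_num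
    rw [hcoord, h2] at h1
    linarith

theorem pinEx_cont {X : Type} [TopologicalSpace X] (m : ℕ) (f : X → ℝ) (u : X → Cube m)
    (h : ∀ l, Continuous fun x => f x * (((u x l : unitInterval) : ℝ) - 1 / 2)) :
    Continuous fun x => (fun l => pinEx_sc (f x) (u x l) : Cube m) := by
  refine continuous_pi fun l => ?_
  unfold pinEx_sc
  exact continuous_projIcc.comp (continuous_const.add (h l))

theorem pr_PinEx (_h1 : S_SgFacts) (h2 : S_SiFacts) (h3 : S_MbFacts) : S_PinEx := by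
  intro n bs la hn hla h0 h1
  have hsi : Continuous (si n bs) := (h2 n hn).1 bs
  have hMb : IsCompact (Mb n bs) := ((h3 n hn).1 bs).2.2.2.2.1
  have hcs : CompactSpace (XM n bs) := isCompact_iff_compactSpace.1 hMb
  refine ⟨?_, ?_, ?_⟩
  · refine ⟨fun p => ⟨(p.1, fun l => pinEx_sc (la p.1) ((p.2 : Cube (n + 2)) l)),
      pinEx_dist (n + 2) (la p.1) (h0 _) (h1 _) _ (Or.inl rfl) _ p.2.2⟩, ?_, ?_⟩
    · refine Continuous.subtype_mk (Continuous.prodMk continuous_fst ?_) _
      refine pinEx_cont (n + 2) (fun p : XM n bs × SS n => la p.1)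
        (fun p => (p.2 : Cube (n + 2))) fun l => ?_
      refine (hla.comp continuous_fst).mul (Continuous.sub ?_ continuous_const)
      exact continuous_subtype_val.comp ((continuous_apply l).comp
        (continuous_subtype_val.comp continuous_snd))
    · intro v u
      refine ⟨rfl, fun l => ?_⟩
      exact pinEx_sc_val (la v) (by rw [abs_of_nonneg (h0 v)]; exact h1 v) _
  · intro K u hK hu hsub
    have hcont : ∀ l, Continuous fun x => (-(la (si n bs x))) *
        ((((u x : Cube (n + 2)) l : unitInterval) : ℝ) - 1 / 2) := by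
      intro l
      rw [continuous_iff_continuousAt]
      intro x
      have hlac : Continuous fun x => la (si n bs x) := hla.comp hsi
      by_cases hx : 0 < la (si n bs x)
      · have hopen : {y | 0 < la (si n bs y)} ∈ 𝓝 x :=
          (isOpen_lt continuous_const hlac).mem_nhds hx
        have hKx : K ∈ 𝓝 x := Filter.mem_of_superset hopen fun y hy => hsub y hy
        have hux : ContinuousAt u x := hu.continuousAt hKx
        refine ContinuousAt.mul hlac.neg.continuousAt (ContinuousAt.sub ?_ continuousAt_const)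
        exact (continuous_subtype_val.comp ((continuous_apply l).comp
          continuous_subtype_val)).continuousAt.comp hux
      · have hx0 : la (si n bs x) = 0 := le_antisymm (not_lt.1 hx) (h0 _)
        unfold ContinuousAt
        have hz : (-(la (si n bs x))) *
            ((((u x : Cube (n + 2)) l : unitInterval) : ℝ) - 1 / 2) = 0 := by rw [hx0]; simp
        show Tendsto _ (𝓝 x) (𝓝 ((-(la (si n bs x))) *
            ((((u x : Cube (n + 2)) l : unitInterval) : ℝ) - 1 / 2)))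
        rw [hz]
        have hlim : Tendsto (fun y => la (si n bs y)) (𝓝 x) (𝓝 0) := by
          have := hlac.tendsto x
          rwa [hx0] at this
        refine squeeze_zero_norm (fun y => ?_) hlim
        rw [Real.norm_eq_abs, abs_mul, abs_neg, abs_of_nonneg (h0 _)]
        have h2 : |((((u y : Cube (n + 2)) l : unitInterval)) : ℝ) - 1 / 2| ≤ 1 := by
          rw [abs_le]
          constructor <;>
            linarith [((u y : Cube (n + 2)) l).2.1, ((u y : Cube (n + 2)) l).2.2]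
        calc la (si n bs y) * |((((u y : Cube (n + 2)) l : unitInterval)) : ℝ) - 1 / 2|
            ≤ la (si n bs y) * 1 := mul_le_mul_of_nonneg_left h2 (h0 _)
          _ = la (si n bs y) := mul_one _
    refine ⟨fun x => ⟨(si n bs x, fun l => pinEx_sc (-(la (si n bs x))) ((u x : Cube (n + 2)) l)),
      pinEx_dist (n + 2) (la (si n bs x)) (h0 _) (h1 _) _ (Or.inr rfl) _ (u x).2⟩, ?_, ?_⟩
    · refine Continuous.subtype_mk (Continuous.prodMk hsi ?_) _
      exact pinEx_cont (n + 2) (fun x : UM n => -(la (si n bs x)))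
        (fun x => (u x : Cube (n + 2))) hcont
    · intro x
      refine ⟨rfl, fun l => ?_⟩
      exact pinEx_sc_val (-(la (si n bs x)))
        (by rw [abs_neg, abs_of_nonneg (h0 _)]; exact h1 _) _
  · have hcl : IsClosed (Pin n bs la) := by
      refine isClosed_eq (continuous_snd.dist continuous_const) ?_
      exact (hla.comp continuous_fst).div_const 2
    exact isCompact_iff_compactSpace.1 hcl.isCompact

end M202

end

section

/-!
MP_202a65_gt, item Pinch: the pinching map is fine soft.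
-/

open Set Topology unitInterval

namespace M202

section Pinch

variable {n bs : ℕ} {la : XM n bs → ℝ}

theorem Pinch_dist_le (p q : ↥(Pin n bs la)) (h : p.1.1 = q.1.1) : dist p q ≤ la p.1.1 := by
  have h1 : dist p.1.2 (ctr (n + 2)) = la p.1.1 / 2 := p.2
  have h2 : dist q.1.2 (ctr (n + 2)) = la q.1.1 / 2 := q.2
  have h3 : dist p.1.2 q.1.2 ≤ la p.1.1 := by
    have := dist_triangle_right p.1.2 q.1.2 (ctr (n+2))
    rw [h1, h2, ← h] at this
    linarith
  have h4 : 0 ≤ la p.1.1 := by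
    have := dist_nonneg (x := p.1.2) (y := ctr (n+2))
    rw [h1] at this; linarith
  rw [Subtype.dist_eq, Prod.dist_eq]
  refine max_le ?_ h3
  rw [h, dist_self, ← h]
  exact h4

/-- direction of a point of the pinched bundle -/
noncomputable def Pinch_dir (p : ↥(Pin n bs la)) : Cube (n + 2) :=
  fun i => Set.projIcc 0 1 zero_le_one (1 / 2 + ((p.1.2 i : ℝ) - 1 / 2) / la p.1.1)

theorem Pinch_ctr (N : ℕ) (i : Fin N) : ((ctr N i : unitInterval) : ℝ) = 1 / 2 := rfl

theorem Pinch_abs (p : ↥(Pin n bs la)) (i : Fin (n + 2)) :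
    |((p.1.2 i : unitInterval) : ℝ) - 1 / 2| ≤ la p.1.1 / 2 := by
  have h1 : dist p.1.2 (ctr (n + 2)) = la p.1.1 / 2 := p.2
  have h2 := dist_le_pi_dist p.1.2 (ctr (n + 2)) i
  rw [h1, Subtype.dist_eq, Real.dist_eq, Pinch_ctr] at h2
  exact h2

theorem Pinch_dir_coe (p : ↥(Pin n bs la)) (h : 0 < la p.1.1) (i : Fin (n + 2)) :
    ((Pinch_dir p i : unitInterval) : ℝ) = 1 / 2 + ((p.1.2 i : ℝ) - 1 / 2) / la p.1.1 := by
  have h1 := abs_le.1 (Pinch_abs p i)
  have h2 : -(1 / 2) ≤ ((p.1.2 i : ℝ) - 1 / 2) / la p.1.1 := by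
    rw [le_div_iff₀ h]; linarith [h1.1]
  have h3 : ((p.1.2 i : ℝ) - 1 / 2) / la p.1.1 ≤ 1 / 2 := by
    rw [div_le_iff₀ h]; linarith [h1.2]
  have h4 : (1 / 2 + ((p.1.2 i : ℝ) - 1 / 2) / la p.1.1) ∈ Icc (0 : ℝ) 1 :=
    ⟨by linarith, by linarith⟩
  rw [Pinch_dir, Set.projIcc_of_mem zero_le_one h4]

theorem Pinch_dir_mem (p : ↥(Pin n bs la)) (h : 0 < la p.1.1) : Pinch_dir p ∈ bd (n + 2) := by
  have h1 : dist p.1.2 (ctr (n + 2)) = la p.1.1 / 2 := p.2
  have h2 : ∃ i, ¬ dist (p.1.2 i) (ctr (n + 2) i) < la p.1.1 / 2 := by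
    by_contra hcon
    push Not at hcon
    have := (dist_pi_lt_iff (by linarith : (0 : ℝ) < la p.1.1 / 2)).2 hcon
    rw [h1] at this
    exact lt_irrefl _ this
  obtain ⟨i, hi⟩ := h2
  rw [Subtype.dist_eq, Real.dist_eq, Pinch_ctr] at hi
  have h3 : |((p.1.2 i : unitInterval) : ℝ) - 1 / 2| = la p.1.1 / 2 :=
    le_antisymm (Pinch_abs p i) (not_lt.1 hi)
  refine ⟨i, ?_⟩
  rcases (abs_eq (by linarith)).1 h3 with h4 | h4
  · right
    apply Subtype.ext
    rw [Pinch_dir_coe p h, h4]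
    have : la p.1.1 ≠ 0 := h.ne'
    field_simp
    norm_num
  · left
    apply Subtype.ext
    rw [Pinch_dir_coe p h, h4]
    have : la p.1.1 ≠ 0 := h.ne'
    field_simp
    norm_num

theorem Pinch_dir_cont (hla : Continuous la) :
    ContinuousOn (Pinch_dir : ↥(Pin n bs la) → Cube (n + 2)) {p | 0 < la p.1.1} := by
  refine continuousOn_pi.2 ?_
  intro i
  refine continuous_projIcc.comp_continuousOn ?_
  refine continuousOn_const.add ?_
  refine ContinuousOn.div ?_ ?_ ?_
  · refine Continuous.continuousOn ?_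
    have : Continuous fun p : ↥(Pin n bs la) => p.1.2 i :=
      (continuous_apply i).comp (continuous_snd.comp continuous_subtype_val)
    exact (continuous_subtype_val.comp this).sub continuous_const
  · exact (hla.comp (continuous_fst.comp continuous_subtype_val)).continuousOn
  · intro p hp
    exact ne_of_gt hp

theorem Pinch_ext {p q : ↥(Pin n bs la)} (h1 : p.1.1 = q.1.1)
    (h2 : ∀ i, ((p.1.2 i : unitInterval) : ℝ) = q.1.2 i) : p = q := by
  apply Subtype.ext
  apply Prod.ext h1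
  funext i
  exact Subtype.ext (h2 i)

/-- the direction is a section of the pinching map -/
theorem Pinch_th_dir {th : XM n bs × SS n → ↥(Pin n bs la)} (hth : IsPinch n bs la th)
    (p : ↥(Pin n bs la)) (h : 0 < la p.1.1) (hm : Pinch_dir p ∈ bd (n + 2)) :
    th (p.1.1, ⟨Pinch_dir p, hm⟩) = p := by
  obtain ⟨h1, h2⟩ := hth.2 p.1.1 ⟨Pinch_dir p, hm⟩
  refine Pinch_ext h1 ?_
  intro i
  have h3 := h2 i
  have h4 := Pinch_dir_coe p h i
  simp only [h4] at h3
  have : la p.1.1 ≠ 0 := h.ne'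
  have h5 : la p.1.1 * (1 / 2 + ((p.1.2 i : ℝ) - 1 / 2) / la p.1.1 - 1 / 2) =
      (p.1.2 i : ℝ) - 1 / 2 := by
    field_simp
    ring
  rw [h5] at h3
  linarith

theorem Pinch_dir_th {th : XM n bs × SS n → ↥(Pin n bs la)} (hth : IsPinch n bs la th)
    (v : XM n bs) (u : SS n) (h : 0 < la v) : Pinch_dir (th (v, u)) = (u : Cube (n + 2)) := by
  obtain ⟨h1, h2⟩ := hth.2 v u
  funext i
  apply Subtype.ext
  rw [Pinch_dir_coe _ (by rw [h1]; exact h), h2 i, h1]
  have : la v ≠ 0 := h.ne'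
  field_simp
  ring

theorem Pinch_union {X Y : Type} [TopologicalSpace X] [TopologicalSpace Y] {f : X → Y}
    {S T U : Set X} (hS : IsClosed S) (hT : IsClosed T) (h1 : ContinuousOn f (S ∩ U))
    (h2 : ContinuousOn f (T ∩ U)) : ContinuousOn f ((S ∪ T) ∩ U) := by
  intro x hx
  rw [Set.union_inter_distrib_right]
  apply ContinuousWithinAt.union
  · by_cases h : x ∈ S
    · exact h1 x ⟨h, hx.2⟩
    · refine continuousWithinAt_of_notMem_closure ?_
      intro hh
      exact h (hS.closure_subset_iff.2 inter_subset_left hh)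
  · by_cases h : x ∈ T
    · exact h2 x ⟨h, hx.2⟩
    · refine continuousWithinAt_of_notMem_closure ?_
      intro hh
      exact h (hT.closure_subset_iff.2 inter_subset_left hh)

theorem Pinch_bd_closed (m : ℕ) : IsClosed (bd m) := by
  have : bd m = ⋃ i, {y : Cube m | y i = 0 ∨ y i = 1} := by
    ext y
    simp [bd]
  rw [this]
  refine isClosed_iUnion_of_finite ?_
  intro i
  exact (isClosed_eq (continuous_apply i) continuous_const).union
    (isClosed_eq (continuous_apply i) continuous_const)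

end Pinch

theorem pr_Pinch (h1 : S_Ext) (h2 : S_ExtOpen) (h3 : S_Basics) (h4 : S_UC) (h5 : S_PinEx) :
    S_Pinch := by
  intro n bs la th hn hla hla0 hla1 hth
  obtain ⟨_, _, _, hB, _⟩ := h3
  apply hB n _ _ th hth.1
  intro D hD m hm eta' heta be al hbe hal hbd
  have : CompactSpace ↥(Pin n bs la) := (h5 n bs la hn hla hla0 hla1).2.2
  obtain ⟨vt, hvt, hvtD⟩ := h4.1 ↥(Pin n bs la) D hD eta' heta
  classical
  -- the base coordinate
  have hv : Continuous fun x => (be x).1.1 := continuous_fst.comp (continuous_subtype_val.comp hbe)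
  have hlav : Continuous fun x => la (be x).1.1 := hla.comp hv
  have hNc : IsClosed {x : Cube m | vt ≤ la (be x).1.1} := isClosed_le continuous_const hlav
  have hal1 : ∀ x ∈ bd m, (al x).1 = (be x).1.1 := by
    intro x hx
    rw [← hbd x hx]
    exact (hth.2 (al x).1 (al x).2).1.symm
  have hdir : ∀ x ∈ bd m, 0 < la (be x).1.1 → Pinch_dir (be x) = ((al x).2 : Cube (n + 2)) := by
    intro x hx hpos
    rw [← hbd x hx]
    refine Pinch_dir_th hth (al x).1 (al x).2 ?_
    rw [hal1 x hx]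
    exact hpos
  have hdirc : ContinuousOn (fun x => Pinch_dir (be x)) {x : Cube m | 0 < la (be x).1.1} :=
    (Pinch_dir_cont hla).comp hbe.continuousOn (fun x hx => hx)
  -- step 1
  obtain ⟨u1, hu1c, hu1e, hu1b⟩ := h1 m (n + 1) ({x | vt ≤ la (be x).1.1} ∪ bd m)
    (fun x => if x ∈ bd m then ((al x).2 : Cube (n + 2)) else Pinch_dir (be x)) (by omega)
    (hNc.union (Pinch_bd_closed m)) (by
      refine ContinuousOn.union_of_isClosed ?_ ?_ hNc (Pinch_bd_closed m)
      · refine (hdirc.mono (fun x hx => lt_of_lt_of_le hvt hx)).congr ?_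
        intro x hx
        simp only
        split_ifs with hxb
        · exact (hdir x hxb (lt_of_lt_of_le hvt hx)).symm
        · rfl
      · refine ContinuousOn.congr (f := fun x => ((al x).2 : Cube (n + 2))) ?_ ?_
        · exact (continuous_subtype_val.comp continuous_snd).comp_continuousOn hal
        · intro x hx
          simp only [hx, if_true]) (by
      rintro x (hx | hx)
      · simp only
        split_ifs with hxb
        · exact (al x).2.2
        · exact Pinch_dir_mem _ (lt_of_lt_of_le hvt hx)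
      · simp only [hx, if_true]
        exact (al x).2.2)
  have hu1bd : ∀ x ∈ bd m, u1 x = ((al x).2 : Cube (n + 2)) := by
    intro x hx
    rw [hu1e x (Or.inr hx)]
    simp only [hx, if_true]
  have hu1dir : ∀ x ∈ {x | vt ≤ la (be x).1.1} ∪ bd m, 0 < la (be x).1.1 →
      u1 x = Pinch_dir (be x) := by
    intro x hx hpos
    rw [hu1e x hx]
    split_ifs with hxb
    · exact (hdir x hxb hpos).symm
    · rfl
  -- step 2
  have htail : Continuous fun z : Cube (m + 1) => (fun i => z i.succ : Cube m) :=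
    continuous_pi fun i => continuous_apply i.succ
  have hUo : IsOpen {z : Cube (m + 1) | 0 < la (be (fun i => z i.succ)).1.1} :=
    isOpen_lt continuous_const (hlav.comp htail)
  have hS1 : IsClosed {z : Cube (m + 1) | z 0 = 0 ∨ (fun i => z i.succ) ∈
      {x | vt ≤ la (be x).1.1} ∪ bd m} :=
    (isClosed_eq (continuous_apply 0) continuous_const).union
      ((hNc.union (Pinch_bd_closed m)).preimage htail)
  have hS2 : IsClosed {z : Cube (m + 1) | z 0 = 1} :=
    isClosed_eq (continuous_apply 0) continuous_const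
  obtain ⟨F, hFc, hFe, hFb⟩ := h2 (m + 1) (n + 1)
    {z | 0 < la (be (fun i => z i.succ)).1.1}
    ({z | z 0 = 0 ∨ (fun i => z i.succ) ∈ {x | vt ≤ la (be x).1.1} ∪ bd m} ∪ {z | z 0 = 1})
    (fun z => if z 0 = 1 then Pinch_dir (be (fun i => z i.succ)) else u1 (fun i => z i.succ))
    (by omega) hUo (hS1.union hS2) (by
      refine Pinch_union hS1 hS2 ?_ ?_
      · refine ContinuousOn.congr (f := fun z => u1 (fun i => z i.succ)) ?_ ?_
        · exact (hu1c.comp htail).continuousOn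
        · rintro z ⟨hz, hzU⟩
          simp only
          split_ifs with h0
          · rcases hz with hz | hz
            · rw [hz] at h0
              exact absurd h0 (by norm_num)
            · exact (hu1dir _ hz hzU).symm
          · rfl
      · refine ContinuousOn.congr (f := fun z => Pinch_dir (be (fun i => z i.succ))) ?_ ?_
        · exact hdirc.comp htail.continuousOn (fun z hz => hz.2)
        · rintro z ⟨hz, hzU⟩
          have hz' : z 0 = 1 := hz
          simp only [hz', if_true]) (by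
      rintro z ⟨hz, hzU⟩
      simp only
      split_ifs with h0
      · exact Pinch_dir_mem _ hzU
      · exact hu1b _)
  have hcons : Continuous fun p : I × Cube m => (Fin.cons p.1 p.2 : Cube (m + 1)) := by
    refine continuous_pi ?_
    intro i
    refine Fin.cases ?_ (fun i => ?_) i
    · simpa using continuous_fst
    · have h7 : Continuous fun p : I × Cube m => p.2 i := (continuous_apply i).comp continuous_snd
      simpa using h7
  have htc : ∀ (t : I) (x : Cube m), (fun i : Fin m => (Fin.cons t x : Cube (m + 1)) i.succ) = x := by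
    intro t x
    funext i
    simp
  have hFb' : ∀ (t : I) (x : Cube m), 0 < la (be x).1.1 →
      F (Fin.cons t x) ∈ bd (n + 1 + 1) := by
    intro t x hx
    refine hFb _ ?_
    simp only [Set.mem_ofPred_eq, htc]
    exact hx
  -- values of F
  have hF0 : ∀ x : Cube m, 0 < la (be x).1.1 → F (Fin.cons 0 x) = u1 x := by
    intro x hx
    rw [hFe (Fin.cons 0 x) ⟨Or.inl (Or.inl (by simp)), by simpa only [Set.mem_ofPred_eq, htc] using hx⟩]
    simp only [Fin.cons_zero, htc]
    rw [if_neg (by norm_num)]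
  have hF1 : ∀ x : Cube m, 0 < la (be x).1.1 → F (Fin.cons 1 x) = Pinch_dir (be x) := by
    intro x hx
    rw [hFe (Fin.cons 1 x) ⟨Or.inr (by simp), by simpa only [Set.mem_ofPred_eq, htc] using hx⟩]
    simp only [Fin.cons_zero, htc, if_true]
  have hFS : ∀ (t : I) (x : Cube m), 0 < la (be x).1.1 → x ∈ {x | vt ≤ la (be x).1.1} ∪ bd m →
      F (Fin.cons t x) = Pinch_dir (be x) := by
    intro t x hx hxS
    rw [hFe (Fin.cons t x) ⟨Or.inl (Or.inr (by simpa only [htc] using hxS)),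
      by simpa only [Set.mem_ofPred_eq, htc] using hx⟩]
    simp only [Fin.cons_zero, htc]
    split_ifs with h0
    · rfl
    · exact hu1dir x hxS hx
  -- the homotopy
  set G : I × Cube m → ↥(Pin n bs la) := fun p =>
    if h : 0 < la (be p.2).1.1 then th ((be p.2).1.1, ⟨F (Fin.cons p.1 p.2), hFb' p.1 p.2 h⟩)
    else be p.2 with hG
  have hGpos : ∀ (t : I) (x : Cube m) (h : 0 < la (be x).1.1),
      G (t, x) = th ((be x).1.1, ⟨F (Fin.cons t x), hFb' t x h⟩) := by
    intro t x h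
    simp only [hG]
    rw [dif_pos h]
  have hGneg : ∀ (t : I) (x : Cube m), ¬ 0 < la (be x).1.1 → G (t, x) = be x := by
    intro t x h
    simp only [hG]
    rw [dif_neg h]
  have hG1 : ∀ (t : I) (x : Cube m), (G (t, x)).1.1 = (be x).1.1 := by
    intro t x
    by_cases h : 0 < la (be x).1.1
    · rw [hGpos t x h]
      exact (hth.2 _ _).1
    · rw [hGneg t x h]
  have hGd : ∀ (t : I) (x : Cube m), dist (G (t, x)) (be x) ≤ la (be x).1.1 := by
    intro t x
    have := Pinch_dist_le (G (t, x)) (be x) (hG1 t x)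
    rwa [hG1 t x] at this
  have hGdir : ∀ (t : I) (x : Cube m), 0 < la (be x).1.1 → F (Fin.cons t x) = Pinch_dir (be x) →
      G (t, x) = be x := by
    intro t x h hF
    rw [hGpos t x h]
    have hm : Pinch_dir (be x) ∈ bd (n + 2) := Pinch_dir_mem _ h
    have h6 : (⟨F (Fin.cons t x), hFb' t x h⟩ : SS n) = ⟨Pinch_dir (be x), hm⟩ :=
      Subtype.ext hF
    rw [h6]
    exact Pinch_th_dir hth (be x) h hm
  refine ⟨fun x => ((be x).1.1, ⟨u1 x, hu1b x⟩), G, ?_, ?_, ?_, ?_, ?_, ?_, ?_⟩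
  · exact hv.prodMk (hu1c.subtype_mk _)
  · rw [continuous_iff_continuousAt]
    rintro ⟨t, x⟩
    by_cases h : 0 < la (be x).1.1
    · -- open set where la > 0
      have hO : IsOpen {p : I × Cube m | 0 < la (be p.2).1.1} :=
        isOpen_lt continuous_const (hlav.comp continuous_snd)
      have hcF : ContinuousOn (fun p : I × Cube m => F (Fin.cons p.1 p.2))
          {p : I × Cube m | 0 < la (be p.2).1.1} := by
        refine hFc.comp hcons.continuousOn ?_
        intro p hp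
        simp only [Set.mem_ofPred_eq, htc]
        exact hp
      have hGO : ContinuousOn G {p : I × Cube m | 0 < la (be p.2).1.1} := by
        rw [continuousOn_iff_continuous_domRestrict]
        have h7 : Continuous fun p : {p : I × Cube m | 0 < la (be p.2).1.1} =>
            th ((be p.1.2).1.1, ⟨F (Fin.cons p.1.1 p.1.2), hFb' p.1.1 p.1.2 p.2⟩) := by
          refine hth.1.comp ?_
          refine Continuous.prodMk ?_ ?_
          · exact hv.comp (continuous_snd.comp continuous_subtype_val)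
          · exact Continuous.subtype_mk (continuousOn_iff_continuous_domRestrict.1 hcF) _
        refine h7.congr ?_
        intro p
        exact (hGpos p.1.1 p.1.2 p.2).symm
      exact hGO.continuousAt (hO.mem_nhds h)
    · have h0 : la (be x).1.1 = 0 := le_antisymm (not_lt.1 h) (hla0 _)
      rw [Metric.continuousAt_iff']
      intro ε hε
      rw [hGneg t x h]
      have e1 : ∀ᶠ p : I × Cube m in 𝓝 (t, x), la (be p.2).1.1 < ε / 2 := by
        have hc : Continuous fun p : I × Cube m => la (be p.2).1.1 := hlav.comp continuous_snd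
        refine hc.continuousAt.eventually (gt_mem_nhds ?_)
        simp only [h0]
        linarith
      have e2 : ∀ᶠ p : I × Cube m in 𝓝 (t, x), dist (be p.2) (be x) < ε / 2 := by
        have hc : Continuous fun p : I × Cube m => be p.2 := hbe.comp continuous_snd
        exact (Metric.continuousAt_iff'.1 hc.continuousAt) (ε / 2) (by linarith)
      filter_upwards [e1, e2] with p hp1 hp2
      have := dist_triangle (G p) (be p.2) (be x)
      have h8 := hGd p.1 p.2
      simp only [Prod.mk.eta] at h8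
      linarith
  · intro x hx
    refine Prod.ext (hal1 x hx).symm ?_
    exact Subtype.ext (hu1bd x hx)
  · intro t x hx
    by_cases h : 0 < la (be x).1.1
    · exact hGdir t x h (hFS t x h (Or.inr hx))
    · exact hGneg t x h
  · intro x
    by_cases h : 0 < la (be x).1.1
    · rw [hGpos 0 x h]
      congr 1
      refine Prod.ext rfl ?_
      exact Subtype.ext (hF0 x h)
    · rw [hGneg 0 x h]
      have h0 : la (be x).1.1 = 0 := le_antisymm (not_lt.1 h) (hla0 _)
      have h9 := Pinch_dist_le (be x) (th ((be x).1.1, ⟨u1 x, hu1b x⟩)) (hth.2 _ _).1.symm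
      rw [h0] at h9
      exact dist_le_zero.1 h9
  · intro x
    by_cases h : 0 < la (be x).1.1
    · exact hGdir 1 x h (hF1 x h)
    · exact hGneg 1 x h
  · intro t x
    by_cases hN : vt ≤ la (be x).1.1
    · have h : 0 < la (be x).1.1 := lt_of_lt_of_le hvt hN
      rw [hGdir t x h (hFS t x h (Or.inl hN)), hD.self]
      exact heta.le
    · exact hvtD _ _ ((hGd t x).trans (not_le.1 hN).le)

end M202

end

section

/-!
MP_202a65_gt, item RCRestrict (helper70): restricting relative complexes to a closed subspace.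
-/

open Set Topology unitInterval

namespace M202

lemma RCRestrict_sub {R : Type} [TopologicalSpace R] {P : Set R → Prop} {C C2 : Set R}
    {ka : List ℕ} (h : RC P C ka C2) : C ⊆ C2 := by
  induction h with
  | nil C _ => exact subset_rfl
  | cons C C1 C2 k ka N e hatt hP h ih =>
    refine Subset.trans ?_ ih
    rw [hatt.union]
    exact subset_union_left

theorem pr_RCRestrict : S_RCRestrict := by
  intro R _ _ _ V P C C2 ka hV hC2 h
  induction h with
  | nil C hC => exact RC.nil _ (hC.preimage continuous_subtype_val)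
  | cons C C1 C2 k ka N e hatt hP h ih =>
    have hC1V : C1 ⊆ V := (RCRestrict_sub h).trans hC2
    have heC1 : ∀ j y, e j y ∈ C1 := by
      intro j y
      rw [hatt.union]
      exact Or.inr (mem_iUnion.2 ⟨j, mem_range_self y⟩)
    have heV : ∀ j y, e j y ∈ V := fun j y => hC1V (heC1 j y)
    refine RC.cons _ (Subtype.val ⁻¹' C1) _ k ka N (fun j y => ⟨e j y, heV j y⟩) ?_ ?_ (ih hC2)
    · refine ⟨hatt.closed.preimage continuous_subtype_val, ?_, ?_, ?_, ?_, ?_⟩
      · intro j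
        exact (hatt.cont j).subtype_mk _
      · intro j y hy
        exact hatt.bdry j y hy
      · intro j j' y y' hy hy' heq
        exact hatt.inj j j' y y' hy hy' (congrArg Subtype.val heq)
      · intro j y hy
        exact hatt.disj j y hy
      · ext x
        rw [mem_preimage, hatt.union]
        constructor
        · rintro (hx | hx)
          · exact Or.inl hx
          · obtain ⟨j, y, hy⟩ := mem_iUnion.1 hx
            exact Or.inr (mem_iUnion.2 ⟨j, y, Subtype.ext hy⟩)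
        · rintro (hx | hx)
          · exact Or.inl hx
          · obtain ⟨j, y, hy⟩ := mem_iUnion.1 hx
            exact Or.inr (mem_iUnion.2 ⟨j, y, congrArg Subtype.val hy⟩)
    · intro j
      have : Subtype.val '' (range fun y => (⟨e j y, heV j y⟩ : V)) = range (e j) := by
        rw [← range_comp]
        rfl
      show P (Subtype.val '' (range fun y => (⟨e j y, heV j y⟩ : V)))
      rw [this]
      exact hP j

end M202

end

section

/-!
MP_202a65_gt, item SoftMod (helper70): changing the control.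
-/

open Set Topology unitInterval

namespace M202

theorem pr_SoftMod (h : S_SoftOfRel) : S_SoftMod := by
  intro n A B _ _ D D' e e2 e' th hD hD' hth he2 hDD hS
  refine h n A B D' e' th hD' hth ?_
  intro m hm eta' heta' be al hbe hal hbd
  obtain ⟨al', G, hal', hG, h1, h2, h3, h4, h5⟩ := hS m hm e2 he2 0 be al (fun p => be p.2)
    le_rfl hbe.continuousOn hal (hbe.comp continuous_snd).continuousOn
    (fun x hx => (hbd x hx).symm) (fun x _ => rfl)
    (fun t x _ => by rw [hD.self])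
  refine ⟨al', G, continuousOn_univ.1 hal', ?_, h1, h2, fun x => h3 x (mem_univ x),
    fun x => h4 x (mem_univ x), fun t x => ?_⟩
  · rw [univ_prod_univ] at hG
    exact continuousOn_univ.1 hG
  · have h6 := h5 t x (mem_univ x)
    rw [zero_add] at h6
    exact (hDD _ _ h6).trans heta'.le

end M202

end

section

/-!
MP_202a65_gt (captain helper47): one step of the zigzag (Z1).
-/

open Set Topology unitInterval Filter

namespace M202

namespace Step

/-- dst is a continuous pseudometric -/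
theorem dst_cpm (h7 : S_SgFacts) (h8 : S_UC) {n bs : ℕ} (hn : 1 ≤ n) {ze : XM n bs → ℝ}
    (hze : Continuous ze) {a : ℕ} (ha : bs ≤ a) : IsCPM (dst n bs ze a) := by
  obtain ⟨-, -, -, u4, -, u6, -, u8⟩ := h8
  have h1 : Continuous (sM n bs a) := ((h7 n hn).2.2.2.1 bs a ha).1
  exact u4 _ _ _ (u8 (XM n a)) (u6 _ _ (hze.comp h1))

end Step

open Step in
theorem pr_Step (h1 : S_E) (h2 : S_Near) (h3 : S_X6) (h4 : S_X1all) (h5 : S_Comp)
    (h6 : S_Basics) (h7 : S_SgFacts) (h8 : S_UC) (_h9 : S_MbFacts) (h10 : S_SqzPz)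
    (h11 : S_Grid) : S_Step := by
  intro n hn
  obtain ⟨kE, hkE, hE⟩ := h1 n hn
  refine ⟨kE + 3, by linarith, ?_⟩
  intro bs ze a b f de z om de' hze hst hde hde'
  obtain ⟨hbsa, hab, -, hom, hfc, hfs, ⟨Ga, hGac, hGa⟩, hlast⟩ := hst
  obtain ⟨s1, s2, s3, s4, s5, s6, s7, s8, s9⟩ := h7 n hn
  have hcompa : ∀ b, CompactSpace (XM n b) := fun b => (s9 b).1
  have hcpmA := dst_cpm h7 h8 hn hze hbsa
  have hcpmB := dst_cpm h7 h8 hn hze (hbsa.trans hab)
  have hdge : ∀ (a : ℕ) (x y : XM n a), dist x y ≤ dst n bs ze a x y := fun a x y =>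
    le_max_left _ _
  have hdge' : ∀ (a : ℕ) (x y : XM n a), |ze (sM n bs a x) - ze (sM n bs a y)| ≤
      dst n bs ze a x y := fun a x y => le_max_right _ _
  -- the level
  obtain ⟨d1, hd1, hd1'⟩ := h8.1 (XM n a) (dst n bs ze a) hcpmA de hde
  obtain ⟨d2, hd2, hd2'⟩ := h8.2.1 (XM n b) (XM n a) (dst n bs ze a) f hcpmA hfc de hde
  obtain ⟨c₀, hc₀b, hc₀⟩ : ∃ c₀ : ℕ, b ≤ c₀ ∧ (1 : ℝ) / 2 ^ c₀ ≤ min d1 d2 := by
    have ht : Tendsto (fun c : ℕ => (1 : ℝ) / 2 ^ c) atTop (𝓝 0) := by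
      have := tendsto_pow_atTop_nhds_zero_of_lt_one (r := (1 / 2 : ℝ)) (by norm_num) (by norm_num)
      refine this.congr fun c => ?_
      rw [one_div_pow]
    obtain ⟨c, hc1, hc2⟩ := ((ht.eventually (gt_mem_nhds (lt_min hd1 hd2))).and
      (eventually_ge_atTop b)).exists
    exact ⟨c, hc2, hc1.le⟩
  have hac : a ≤ c₀ := hab.trans hc₀b
  have hsm : ∀ u v : XM n c₀, dist u v ≤ 1 / 3 ^ c₀ →
      dst n bs ze a (sM n a c₀ u) (sM n a c₀ v) ≤ de := by
    intro u v huv
    apply hd1'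
    refine le_trans ?_ (hc₀.trans (min_le_left _ _))
    have h12 := (s1 a c₀ hac).2.2.2.2.1 u u.2 v v.2 huv
    rw [Subtype.dist_eq, (s4 a c₀ hac).2 u, (s4 a c₀ hac).2 v]
    exact h12
  -- the map P
  have hPc : Continuous (sZ n a c₀) := by
    have h12 : Continuous (iZ n c₀ c₀) := (s8 c₀ c₀ ⟨0, zero_mem_Zb n c₀⟩).1
    exact (s4 a c₀ hac).1.comp h12
  have hPs : Soft n (dst n bs ze a) de (sZ n a c₀) := by
    have h12 : Continuous (iZ n c₀ c₀) := (s8 c₀ c₀ ⟨0, zero_mem_Zb n c₀⟩).1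
    have h13 := h5 n (ZM n c₀) (XM n c₀) (XM n a) (dst n bs ze a) de 0 (iZ n c₀ c₀) (sM n a c₀)
      hcpmA h12 (s4 a c₀ hac).1
      (h3 n c₀ _ de hn (h8.2.2.1 _ _ _ _ hcpmA (s4 a c₀ hac).1) hsm)
      (h4 n a c₀ hn hac _ hcpmA)
    rw [add_zero] at h13
    exact h13
  -- levels of the points of Z
  have hlevP : ∀ x : ZM n c₀, sM n bs a (sZ n a c₀ x) = sM n bs b (sZ n b c₀ x) := by
    intro x
    unfold sZ
    rw [s6 bs a c₀ _ hbsa hac, s6 bs b c₀ _ (hbsa.trans hab) hc₀b]
  have hsZc : Continuous (sZ n b c₀) := by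
    have h12 : Continuous (iZ n c₀ c₀) := (s8 c₀ c₀ ⟨0, zero_mem_Zb n c₀⟩).1
    exact (s4 b c₀ hc₀b).1.comp h12
  have hPG : ∀ x : ZM n c₀, sM n a b (sZ n b c₀ x) = sZ n a c₀ x := by
    intro x
    unfold sZ
    rw [s6 a b c₀ _ hab hc₀b]
  -- Near
  obtain ⟨H, C, dH, hC1, hdH, hHc, hH, -⟩ := h2 n b hn
  obtain ⟨d3, hd3, hd3'⟩ := h8.1 (XM n b) (dst n bs ze b) hcpmB de' hde'
  set tau : ℝ := min (min de' dH) (d3 / (C + 1)) with htau
  have hC0 : 0 < C + 1 := by linarith
  have htau0 : 0 < tau := lt_min (lt_min hde' hdH) (div_pos hd3 hC0)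
  have htau1 : tau ≤ de' := (min_le_left _ _).trans (min_le_left _ _)
  have htau2 : tau ≤ dH := (min_le_left _ _).trans (min_le_right _ _)
  have htau3 : (C + 1) * tau ≤ d3 := by
    have h12 : tau ≤ d3 / (C + 1) := min_le_right _ _
    rw [le_div_iff₀ hC0] at h12
    linarith
  obtain ⟨c', g, hcc', hgc, hgs, hg1, hg2⟩ := hE (XM n a) (dst n bs ze a)
    (fun v => ze (sM n bs a v)) b c₀ f (sZ n a c₀) (fun p => Ga (p.1, sZ n b c₀ p.2)) de z
    (z + om) hcpmA (fun y y' => hdge' a y y') hc₀b hfc hPc hde hfs hPs (by linarith)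
    (fun x y hxy => hd2' x y (hxy.trans (hc₀.trans (min_le_right _ _))))
    (by
      refine hGac.comp (Continuous.continuousOn (continuous_fst.prodMk
        (hsZc.comp continuous_snd))) ?_
      rintro ⟨t, x⟩ ⟨-, hx⟩
      refine ⟨mem_univ _, ?_⟩
      change z ≤ ze (sM n bs b (sZ n b c₀ x))
      rw [← hlevP]
      exact hx)
    (by
      intro x hx
      have hx' : z ≤ ze (sM n bs b (sZ n b c₀ x)) := by
        rw [← hlevP]; exact hx
      obtain ⟨e1, e2, e3⟩ := hGa _ hx'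
      refine ⟨e1, ?_, fun t => ?_⟩
      · change Ga (1, sZ n b c₀ x) = sZ n a c₀ x
        rw [e2, hPG]
      · change dst n bs ze a (Ga (t, sZ n b c₀ x)) (sZ n a c₀ x) ≤ de
        rw [← hPG]
        exact e3 t)
    (by
      intro x hx
      change ze (sM n bs a (f (sZ n b c₀ x))) < z + om
      change ze (sM n bs a (sZ n a c₀ x)) < z at hx
      rw [hlevP] at hx
      by_contra hcon
      rw [not_lt] at hcon
      have h12 := (abs_le.1 (hlast (sZ n b c₀ x) (by linarith))).2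
      linarith)
    (dst n bs ze b) tau hcpmB htau0
  -- closeness of P o rZ and the bonding map
  have hPr : ∀ w : XM n c', dst n bs ze a (sZ n a c₀ (rZ n c₀ c' w)) (sM n a c' w) ≤ de := by
    intro w
    have e1 : sM n a c' w = sM n a c₀ (sM n c₀ (c₀ + 1) (sM n (c₀ + 1) c' w)) := by
      rw [s6 c₀ (c₀ + 1) c' w (Nat.le_succ _) hcc', s6 a c₀ c' w hac ((Nat.le_succ _).trans hcc')]
    rw [e1]
    unfold sZ rZ
    apply hsm
    set y : XM n (c₀ + 1) := sM n (c₀ + 1) c' w with hy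
    rw [Subtype.dist_eq, (s8 c₀ c₀ _).2, (s7 c₀ y).2, (s4 c₀ (c₀ + 1) (Nat.le_succ _)).2 y]
    have h13 : sg n c₀ (c₀ + 1) (y : Cube (2 * n + 1)) = sqz n c₀ y := by
      unfold sg
      rw [Nat.add_sub_cancel_left]
      rfl
    rw [h13]
    have h12 := (h11.1 (2 * n + 1) (3 ^ c₀) (y : Cube (2 * n + 1))
      (Nat.one_le_pow _ _ (by norm_num))).2.2.2 _ ((h10 n c₀ hn).2.1.2.2.1 y y.2) _
        ((h10 n c₀ hn).1.2.2.1 y y.2)
    push_cast at h12
    exact h12
  have hfg : ∀ w : XM n c', dst n bs ze a (f (g w)) (sM n a c' w) ≤ (kE + 1) * de := by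
    intro w
    have h12 := hcpmA.tri (f (g w)) (sZ n a c₀ (rZ n c₀ c' w)) (sM n a c' w)
    have h13 := hg1 w
    have h14 := hPr w
    calc dst n bs ze a (f (g w)) (sM n a c' w) ≤ kE * de + de := by linarith
      _ = (kE + 1) * de := by ring
  have hbc' : b ≤ c' := hc₀b.trans ((Nat.le_succ _).trans hcc')
  have hfro : ∀ w : XM n c', z + om + (kE + 3) * de ≤ ze (sM n bs c' w) →
      dst n bs ze b (g w) (sM n b c' w) ≤ tau := by
    intro w hw
    apply hg2 w
    change z + om + kE * de ≤ ze (sM n bs a (sZ n a c₀ (rZ n c₀ c' w)))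
    have h12 := (hdge' a _ _).trans (hPr w)
    rw [s6 bs a c' w hbsa (hab.trans hbc')] at h12
    have h13 := (abs_le.1 h12).1
    have h14 : (kE + 3) * de = kE * de + 3 * de := by ring
    linarith
  refine ⟨c', g, by omega, ⟨hbsa.trans hab, hbc', hde', by positivity, hgc, ?_, ?_, ?_⟩, ?_⟩
  · exact h6.1 n n _ _ _ _ tau de' g le_rfl htau1 hcpmB hcpmB hgc (fun x y => le_rfl) hgs
  · refine ⟨fun p => H (p.1, (g p.2, sM n b c' p.2)), ?_, ?_⟩
    · refine hHc.comp (Continuous.continuousOn (continuous_fst.prodMk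
        ((hgc.comp continuous_snd).prodMk ((s4 b c' hbc').1.comp continuous_snd)))) ?_
      rintro ⟨t, w⟩ ⟨-, hw⟩
      change dist (g w) (sM n b c' w) ≤ dH
      exact (hdge b _ _).trans ((hfro w hw).trans htau2)
    · intro w hw
      have h12 := hfro w hw
      have h13 : dist (g w) (sM n b c' w) ≤ tau := (hdge b _ _).trans h12
      obtain ⟨e1, e2, e3⟩ := hH (g w) (sM n b c' w) (h13.trans htau2)
      refine ⟨e1, e2, fun t => ?_⟩
      apply hd3'
      have h14 := dist_triangle (H (t, (g w, sM n b c' w))) (g w) (sM n b c' w)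
      have h15 := e3 t
      have h16 : C * dist (g w) (sM n b c' w) ≤ C * tau :=
        mul_le_mul_of_nonneg_left h13 (by linarith)
      calc dist (H (t, (g w, sM n b c' w))) (sM n b c' w) ≤ C * tau + tau := by linarith
        _ = (C + 1) * tau := by ring
        _ ≤ d3 := htau3
  · intro w hw
    have hnn : 0 ≤ (kE + 3) * de := by positivity
    have hw' : z ≤ ze (sM n bs b (g w)) := by linarith
    obtain ⟨e1, e2, e3⟩ := hGa (g w) hw'
    have h12 := (hdge' a _ _).trans (e3 0)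
    rw [e1, s6 bs a b (g w) hbsa hab] at h12
    have h13 := (hdge' a _ _).trans (hfg w)
    rw [s6 bs a c' w hbsa (hab.trans hbc')] at h13
    have h14 := abs_le.1 h12
    have h15 := abs_le.1 h13
    have h16 : (kE + 3) * de = (kE + 1) * de + 2 * de := by ring
    rw [abs_le]
    constructor <;> linarith [h14.1, h14.2, h15.1, h15.2]
  · intro w
    refine (hfg w).trans ?_
    have h16 : (kE + 3) * de = (kE + 1) * de + 2 * de := by ring
    linarith

end M202

end

section

/-!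
MP_202a65_gt, item Target (helper70): the target from its parts.
-/

open Set Topology unitInterval

namespace M202

universe u

theorem Target_metric (h1 : S_Charts.{u}) (h2 : S_AsmStep.{u}) (h3 : S_LocFin.{u})
    (h4 : S_Gauge.{u}) (h5 : S_AsmLimit.{u}) (n : ℕ) (hn : 1 ≤ n) (X : Type u) [MetricSpace X]
    [SecondCountableTopology X] (hM : IsMengerManifold n X) : HasCIPH X := by
  intro A hA hne
  have hU : IsOpen Aᶜ := hA.isOpen_compl
  have hUne : Aᶜ ≠ univ := by
    intro h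
    obtain ⟨a, ha⟩ := hne
    have : a ∈ Aᶜ := by rw [h]; trivial
    exact this ha
  have : Nonempty X := ⟨hne.some⟩
  obtain ⟨O, C, phi, inv, hch, hCc, hCO, hOc, hOU, hCU, hlf⟩ := h3 n X Aᶜ hn hU
    (fun x _ W hW hxW => h1 n X hn hM x W hW hxW)
  have hloc : ∀ x ∈ Aᶜ, ∃ r : ℝ, 0 < r ∧ IsCompact (Metric.closedBall x r) := by
    intro x hx
    rw [← hCU] at hx
    obtain ⟨l, hl⟩ := mem_iUnion.1 hx
    obtain ⟨r, hr, hb⟩ := Metric.isOpen_iff.1 (hch l).isOpen x (hCO l hl)
    refine ⟨r / 2, by linarith, (hOc l).of_isClosed_subset Metric.isClosed_closedBall ?_⟩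
    exact (Metric.closedBall_subset_ball (by linarith)).trans (hb.trans subset_closure)
  obtain ⟨rho, hlip, hpos, hzero, hcomp, hsub⟩ := h4 X Aᶜ hU hloc hUne
  obtain ⟨h, hh⟩ := h5 X Aᶜ O C rho hU (fun l => (hch l).isOpen) hCc hCO hOc hOU hCU hlf hlip hpos
    hzero hcomp hsub (fun l h ep hep => h2 n X (O l) (C l) (phi l) (inv l) h ep hn (hch l)
      (hCc l) (hCO l) hep)
  exact ⟨h, by rw [hh, compl_compl]⟩

theorem pr_Target (h1 : S_Charts.{u}) (h2 : S_AsmStep.{u}) (h3 : S_LocFin.{u})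
    (h4 : S_Gauge.{u}) (h5 : S_AsmLimit.{u}) : S_Target.{u} := by
  intro n hn X _ _ _ hM
  let _ : MetricSpace X := TopologicalSpace.metrizableSpaceMetric X
  have : SecondCountableTopology X := UniformSpace.secondCountable_of_separable X
  exact Target_metric h1 h2 h3 h4 h5 n hn X hM

end M202

end

section

/-!
MP_202a65_gt (captain helper47): a state of the zigzag gives a homeomorphism (Z3).
-/

open Set Topology unitInterval Filter

namespace M202

namespace Zig

/-- Dependent choice for composable data. -/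
theorem exists_seq {T : ℕ → ℕ → Type} (R : ∀ (_ a b c : ℕ), T a b → T b c → Prop)
    (P0 : ∀ a b, T a b → Prop) {a b : ℕ} {t : T a b} (h0 : P0 a b t)
    (h : ∀ m a b (t : T a b), ∃ (c : ℕ) (t' : T b c), R m a b c t t') :
    ∃ (c : ℕ → ℕ) (F : ∀ m, T (c m) (c (m + 1))), P0 (c 0) (c 1) (F 0) ∧
      ∀ m, R m (c m) (c (m + 1)) (c (m + 2)) (F m) (F (m + 1)) := by
  choose nc nt hnt using h
  let sq : ℕ → Σ a b : ℕ, T a b := fun m =>
    Nat.rec (motive := fun _ => Σ a b : ℕ, T a b) ⟨a, b, t⟩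
      (fun m s => ⟨s.2.1, nc m s.1 s.2.1 s.2.2, nt m s.1 s.2.1 s.2.2⟩) m
  exact ⟨fun m => (sq m).1, fun m => (sq m).2.2, h0, fun m => hnt m _ _ _⟩

/-- finitely many moduli of continuity -/
theorem exists_delta {X : Type} [MetricSpace X] [CompactSpace X] (N : ℕ)
    {Y : ℕ → Type} [∀ l, MetricSpace (Y l)] (φ : ∀ l, X → Y l)
    (hφ : ∀ l, l ≤ N → Continuous (φ l)) {ep : ℝ} (hep : 0 < ep) :
    ∃ δ : ℝ, 0 < δ ∧ ∀ l, l ≤ N → ∀ x y, dist x y ≤ δ → dist (φ l x) (φ l y) ≤ ep := by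
  have h1 : ∀ l, ∃ δ : ℝ, 0 < δ ∧ (l ≤ N → ∀ x y, dist x y ≤ δ → dist (φ l x) (φ l y) ≤ ep) := by
    intro l
    by_cases hl : l ≤ N
    · obtain ⟨δ, hδ, h⟩ := Metric.uniformContinuous_iff.1
        (CompactSpace.uniformContinuous_of_continuous (hφ l hl)) ep hep
      exact ⟨δ / 2, half_pos hδ, fun _ x y hxy => (h (by linarith)).le⟩
    · exact ⟨1, one_pos, fun h => absurd h hl⟩
  choose δ hδ hδ' using h1
  have hne : (Finset.range (N + 1)).Nonempty := ⟨0, by simp⟩
  refine ⟨(Finset.range (N + 1)).inf' hne δ, ?_, fun l hl x y hxy => hδ' l hl x y (hxy.trans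
    (Finset.inf'_le _ (Finset.mem_range.2 (by omega))))⟩
  rw [Finset.lt_inf'_iff]
  exact fun l _ => hδ l

/-- states from level a to level b -/
def T (n bs : ℕ) (ze : XM n bs → ℝ) (a b : ℕ) : Type :=
  {q : (XM n b → XM n a) × ℝ × ℝ × ℝ // ZSt n bs ze a b q.1 q.2.1 q.2.2.1 q.2.2.2}

/-- the relation of successive states -/
def R (n bs : ℕ) (ze : XM n bs → ℝ) (ks eta : ℝ) (m a b c : ℕ) (t : T n bs ze a b)
    (t' : T n bs ze b c) : Prop :=
  b < c ∧ t'.1.2.2.1 = t.1.2.2.1 + t.1.2.2.2 + ks * t.1.2.1 ∧ t'.1.2.2.2 = ks * t.1.2.1 ∧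
  (∀ w, dst n bs ze a (t.1.1 (t'.1.1 w)) (sM n a c w) ≤ ks * t.1.2.1) ∧
  2 * ks * t'.1.2.1 ≤ eta / 2 ^ (m + 2) ∧
  (∀ l, l ≤ b → ∀ x y : XM n b, dist x y ≤ (ks + 1) * t'.1.2.1 →
    dist (sM n l b x) (sM n l b y) ≤ eta / 2 ^ (m + 1)) ∧
  (∀ l, l ≤ a → ∀ x y : XM n b, dist x y ≤ (ks + 1) * t'.1.2.1 →
    dist (sM n l a (t.1.1 x)) (sM n l a (t.1.1 y)) ≤ eta / 2 ^ m)

end Zig

open Zig in
theorem pr_Zig (h1 : S_Step) (h2 : S_Mio) (h3 : S_SgFacts) (h4 : S_SiFacts) (_h5 : S_UC) :
    S_Zig := by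
  intro n hn
  obtain ⟨ks, hks, hstep⟩ := h1 n hn
  refine ⟨2 * ks + 1, by linarith, ?_⟩
  intro bs ze a b f de z om eta hze hst heta hkd
  obtain ⟨s1, s2, s3, s4, s5, s6, s7, s8, s9⟩ := h3 n hn
  obtain ⟨i1, i2, i3, i4, i5, i6, i7⟩ := h4 n hn
  have hcomp : ∀ b, CompactSpace (XM n b) := fun b => (s9 b).1
  have hde0 : 0 < de := hst.2.2.1
  have hom0 : 0 ≤ om := hst.2.2.2.1
  -- successive states
  have hex : ∀ m a b (t : T n bs ze a b), ∃ (c : ℕ) (t' : T n bs ze b c),
      R n bs ze ks eta m a b c t t' := by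
    rintro m a b ⟨⟨f, de, z, om⟩, hst⟩
    simp only at hst
    have hab : a ≤ b := hst.2.1
    have hde : 0 < de := hst.2.2.1
    have hfc : Continuous f := hst.2.2.2.2.1
    obtain ⟨δ₁, hδ₁, hδ₁'⟩ := exists_delta b (fun l (x : XM n b) => sM n l b x)
      (fun l hl => (s4 l b hl).1) (show 0 < eta / 2 ^ (m + 1) by positivity)
    obtain ⟨δ₂, hδ₂, hδ₂'⟩ := exists_delta a (fun l (x : XM n b) => sM n l a (f x))
      (fun l hl => (s4 l a hl).1.comp hfc) (show 0 < eta / 2 ^ m by positivity)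
    have hks1 : 0 < ks + 1 := by linarith
    set de' : ℝ := min (eta / 2 ^ (m + 2) / (2 * ks)) (min (δ₁ / (ks + 1)) (δ₂ / (ks + 1)))
      with hde'
    have hde'0 : 0 < de' := by
      refine lt_min (by positivity) (lt_min (by positivity) (by positivity))
    obtain ⟨c, g, hbc, hgst, hg⟩ := hstep bs ze a b f de z om de' hze hst hde hde'0
    refine ⟨c, ⟨⟨g, de', z + om + ks * de, ks * de⟩, hgst⟩, hbc, rfl, rfl, hg, ?_, ?_, ?_⟩
    · change 2 * ks * de' ≤ _
      have h5 : de' ≤ eta / 2 ^ (m + 2) / (2 * ks) := min_le_left _ _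
      rw [le_div_iff₀ (by linarith)] at h5
      linarith
    · intro l hl x y hxy
      refine hδ₁' l hl x y (hxy.trans ?_)
      have h5 : de' ≤ δ₁ / (ks + 1) := (min_le_right _ _).trans (min_le_left _ _)
      rw [le_div_iff₀ hks1] at h5
      change (ks + 1) * de' ≤ _
      linarith
    · intro l hl x y hxy
      refine hδ₂' l hl x y (hxy.trans ?_)
      have h5 : de' ≤ δ₂ / (ks + 1) := (min_le_right _ _).trans (min_le_right _ _)
      rw [le_div_iff₀ hks1] at h5
      change (ks + 1) * de' ≤ _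
      linarith
  obtain ⟨c, FT, ⟨hP1, hP2⟩, hR⟩ := exists_seq (T := T n bs ze) (R n bs ze ks eta)
    (P0 := fun a' b' t' => (t'.1.2.1 = de ∧ t'.1.2.2.1 = z ∧ t'.1.2.2.2 = om) ∧
      ∀ h : UM n ≃ₜ UM n, (∀ x, dist (si n a' (h x)) (t'.1.1 (si n b' x)) ≤ 4 * eta) →
        ∀ x, dist (si n a (h x)) (f (si n b x)) ≤ 4 * eta)
    (t := ⟨⟨f, de, z, om⟩, hst⟩) (show _ ∧ _ from ⟨⟨rfl, rfl, rfl⟩, fun h hh => hh⟩) hex
  obtain ⟨hd0, hz0, ho0⟩ := hP1
  -- the data
  set F : ∀ m, XM n (c (m + 1)) → XM n (c m) := fun m => (FT m).1.1 with hF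
  set dd : ℕ → ℝ := fun m => (FT m).1.2.1 with hdd
  set zz : ℕ → ℝ := fun m => (FT m).1.2.2.1 with hzz
  set oo : ℕ → ℝ := fun m => (FT m).1.2.2.2 with hoo
  have hZ : ∀ m, ZSt n bs ze (c m) (c (m + 1)) (F m) (dd m) (zz m) (oo m) := fun m => (FT m).2
  have hcc : ∀ m, c (m + 1) < c (m + 2) := fun m => (hR m).1
  have hzs : ∀ m, zz (m + 1) = zz m + oo m + ks * dd m := fun m => (hR m).2.1
  have hos : ∀ m, oo (m + 1) = ks * dd m := fun m => (hR m).2.2.1
  have hds : ∀ m, ∀ w, dst n bs ze (c m) (F m (F (m + 1) w)) (sM n (c m) (c (m + 2)) w) ≤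
      ks * dd m := fun m => (hR m).2.2.2.1
  have hsmall : ∀ m, 2 * ks * dd (m + 1) ≤ eta / 2 ^ (m + 2) := fun m => (hR m).2.2.2.2.1
  have hq1 : ∀ m, ∀ l, l ≤ c (m + 1) → ∀ x y : XM n (c (m + 1)),
      dist x y ≤ (ks + 1) * dd (m + 1) →
      dist (sM n l (c (m + 1)) x) (sM n l (c (m + 1)) y) ≤ eta / 2 ^ (m + 1) :=
    fun m => (hR m).2.2.2.2.2.1
  have hq2 : ∀ m, ∀ l, l ≤ c m → ∀ x y : XM n (c (m + 1)),
      dist x y ≤ (ks + 1) * dd (m + 1) →
      dist (sM n l (c m) (F m x)) (sM n l (c m) (F m y)) ≤ eta / 2 ^ m :=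
    fun m => (hR m).2.2.2.2.2.2
  have hd0' : dd 0 = de := hd0
  have hz0' : zz 0 = z := hz0
  have ho0' : oo 0 = om := ho0
  have hddpos : ∀ m, 0 < dd m := fun m => (hZ m).2.2.1
  have hcle : ∀ m, c m ≤ c (m + 1) := fun m => (hZ m).2.1
  have hcmono : Monotone c := monotone_nat_of_le_succ hcle
  have hbsc : ∀ m, bs ≤ c m := fun m => (hZ m).1
  have hcge : ∀ m, m ≤ c (m + 1) := by
    intro m
    induction m with
    | zero => exact Nat.zero_le _
    | succ m ih =>
      have h6 : c (m + 1) < c (m + 1 + 1) := hcc m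
      omega
  have hctend : Tendsto c atTop atTop := by
    refine (tendsto_add_atTop_iff_nat 1).1 ?_
    exact tendsto_atTop_mono hcge tendsto_id
  have hdist : ∀ (a : ℕ) (x y : XM n a), dist x y ≤ dst n bs ze a x y := fun a x y =>
    le_max_left _ _
  have hkdd : ∀ m, ks * dd m ≤ (ks + 1) * dd m := by
    intro m
    have := hddpos m
    nlinarith
  have hP2' : ∀ h : UM n ≃ₜ UM n, (∀ x, dist (si n (c 0) (h x)) (F 0 (si n (c 1) x)) ≤ 4 * eta) →
      ∀ x, dist (si n a (h x)) (f (si n b x)) ≤ 4 * eta := hP2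
  clear_value F dd zz oo
  -- Mioduszewski
  obtain ⟨h, hh1, hh2⟩ := h2 n c F eta hn heta hcle hctend (fun m => (hZ m).2.2.2.2.1)
    (by
      intro m j hjm y
      cases m with
      | zero =>
        obtain rfl : j = 0 := by omega
        rw [s5, pow_zero, div_one]
        refine (hdist _ _ _).trans ((hds 0 y).trans ?_)
        rw [hd0']
        have : 0 ≤ (ks + 1) * de := by positivity
        nlinarith
      | succ k =>
        have h6 := hq1 k (c j) (hcmono hjm) (F (k + 1) (F (k + 2) y))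
          (sM n (c (k + 1)) (c (k + 3)) y)
          ((hdist _ _ _).trans ((hds (k + 1) y).trans (hkdd (k + 1))))
        rw [s6 _ _ _ _ (hcmono hjm) ((hcle _).trans (hcle _))] at h6
        exact h6)
    (by
      intro m j hjm y
      exact hq2 m (c j) (hcmono hjm) (F (m + 1) (F (m + 2) y)) (sM n (c (m + 1)) (c (m + 3)) y)
          ((hdist _ _ _).trans ((hds (m + 1) y).trans (hkdd (m + 1)))))
  refine ⟨h, hP2' h hh1, ?_⟩
  -- frozen points
  have hzb : ∀ m, zz (m + 1) + ks * dd m ≤ z + om + 2 * ks * de +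
      eta * (1 / 2 - 1 / 2 ^ (m + 1)) := by
    intro m
    induction m with
    | zero =>
      rw [hzs 0, hz0', ho0', hd0']
      norm_num
      linarith
    | succ m ih =>
      rw [hzs (m + 1), hos m]
      have h6 := hsmall m
      have h7 : eta * (1 / 2 - 1 / 2 ^ (m + 1 + 1)) = eta * (1 / 2 - 1 / 2 ^ (m + 1)) +
          eta / 2 ^ (m + 2) := by
        rw [show m + 1 + 1 = m + 2 by ring, pow_succ (2 : ℝ) (m + 1)]
        field_simp
        ring
      rw [h7]
      linarith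
  have hzall : ∀ m, zz m ≤ z + om + (2 * ks + 1) * de + eta := by
    intro m
    have h9 : (2 * ks + 1) * de = 2 * ks * de + de := by ring
    cases m with
    | zero =>
      rw [hz0', h9]
      have : 0 ≤ 2 * ks * de := by positivity
      linarith
    | succ m =>
      have h6 := hzb m
      have h7 : 0 < ks * dd m := mul_pos (by linarith) (hddpos m)
      have h8 : eta * (1 / 2 - 1 / 2 ^ (m + 1)) ≤ eta := by
        have : (0 : ℝ) < 1 / 2 ^ (m + 1) := by positivity
        nlinarith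
      rw [h9]
      linarith
  intro x hx
  have hlim : ∀ j, Tendsto (fun i => sM n (c j) (c (2 * i)) (F (2 * i) (si n (c (2 * i + 1)) x)))
      atTop (𝓝 (si n (c j) x)) := by
    intro j
    rw [tendsto_iff_dist_tendsto_zero]
    have hb : Tendsto (fun i : ℕ => eta / 2 ^ (2 * i)) atTop (𝓝 0) := by
      have h6 : Tendsto (fun i : ℕ => eta * (1 / 4 : ℝ) ^ i) atTop (𝓝 (eta * 0)) :=
        (tendsto_pow_atTop_nhds_zero_of_lt_one (by norm_num) (by norm_num)).const_mul _
      rw [mul_zero] at h6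
      refine h6.congr fun i => ?_
      rw [pow_mul, one_div_pow, mul_one_div]
      norm_num
    refine squeeze_zero' (Eventually.of_forall fun i => dist_nonneg) ?_ hb
    filter_upwards [eventually_ge_atTop (j + 1)] with i hi
    obtain ⟨k, hk⟩ : ∃ k, 2 * i = k + 1 := ⟨2 * i - 1, by omega⟩
    rw [hk]
    have e1 : sM n bs (c (k + 1 + 1)) (si n (c (k + 1 + 1)) x) = si n bs x :=
      i2 _ _ _ (hbsc _)
    obtain ⟨Ga, -, hGa⟩ := (hZ (k + 1)).2.2.2.2.2.2.1
    have h6 := hGa (si n (c (k + 1 + 1)) x) (by rw [e1]; exact (hzall (k + 1)).trans hx)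
    have h7 := h6.2.2 0
    rw [h6.1] at h7
    have h8 := hq1 k (c j) (hcmono (by omega)) _ _ ((hdist _ _ _).trans (h7.trans (by
      have := hddpos (k + 1)
      nlinarith)))
    rw [i2 _ _ _ (hcle _), i2 _ _ _ (hcmono (by omega))] at h8
    exact h8
  apply i5
  intro b'
  obtain ⟨j, hj⟩ := (hctend.eventually (eventually_ge_atTop b')).exists
  have h6 := tendsto_nhds_unique (hh2 x j) (hlim j)
  rw [← i2 b' (c j) (h x) hj, h6, i2 b' (c j) x hj]

end M202

end
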